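import Mathlib
import Pool.Agent.Lib.MP_95e7ec_an.Rq.Defs
import Pool.Agent.Lib.MP_95e7ec_an.PlaneDefs

/-!
# Ry: the mean number of the closed orbits over all the rotations, every degree: definitions

The theorem (paper proof in the notes 2817, 2839, 2850 of helper56 and helper15): there are absolute
constants `K`, `p` such that for every planar polynomial field `X` of degree at most `n` the mean number of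
all the closed orbits of `e^{ia} X`, `a ∈ [0,2π]`, is at most `K n^p`.

The idea: in the logarithmic polar coordinates `(ρ,θ)` the distance between two closed orbits of turned
fields is measured along a vector field `Z = ∂_ρ + V ∂_θ` which follows the near-zeros of `X`.
-/

set_option autoImplicit false

open Set Filter Topology MeasureTheory
open scoped ContDiff ENNReal

namespace Pool.Agent.Lib.MP_95e7ec_an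

/-! ### The frame -/

/-- the derivative of `g` along the vector field `Z = ∂_ρ + V ∂_θ` -/
noncomputable def zd (V g : ℝ × ℝ → ℝ) (p : ℝ × ℝ) : ℝ := d1 g p + V p * d2 g p

/-- `|Φ|² Z(arg Φ)` -/
noncomputable def zarg (V : ℝ × ℝ → ℝ) (Φ : ℝ × ℝ → ℝ × ℝ) (p : ℝ × ℝ) : ℝ :=
  (Φ p).1 * zd V (fun q => (Φ q).2) p - (Φ p).2 * zd V (fun q => (Φ q).1) p

/-- `|Φ|² ε`, where `ε = Z f - cos² x Z V - S cos x V_θ`, `f = arg Φ`, `x = f + b`,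
`S = sin x - V cos x` -/
noncomputable def epsF (V : ℝ × ℝ → ℝ) (Φ : ℝ × ℝ → ℝ × ℝ) (b : ℝ) (p : ℝ × ℝ) : ℝ :=
  zarg V Φ p - (turn b Φ p).1 ^ 2 * zd V V p -
    ((turn b Φ p).2 - V p * (turn b Φ p).1) * (turn b Φ p).1 * d2 V p

/-- the divergence -/
noncomputable def divc (F : ℝ × ℝ → ℝ × ℝ) (p : ℝ × ℝ) : ℝ :=
  d1 (fun q => (F q).1) p + d2 (fun q => (F q).2) p

/-- `|∂_ρ arg Φ| + |∂_θ arg Φ|` -/
noncomputable def agr (Φ : ℝ × ℝ → ℝ × ℝ) (p : ℝ × ℝ) : ℝ :=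
  (|(Φ p).1 * d1 (fun q => (Φ q).2) p - (Φ p).2 * d1 (fun q => (Φ q).1) p| +
    |(Φ p).1 * d2 (fun q => (Φ q).2) p - (Φ p).2 * d2 (fun q => (Φ q).1) p|) / nm (Φ p) ^ 2

/-- The frame `Z = ∂_ρ + V ∂_θ` on the strip `ρ ∈ I`, for the angle `b`: `|V| ≤ v`; `ε` is at most `E`
everywhere and at most `e` where `sin x < x₁` (the steep part) or `τ(θ) < 1` (the good rays); `τ` is a cut
off of the bad rays with integral at most `β`. -/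
structure Frame (Φ : ℝ × ℝ → ℝ × ℝ) (I : Set ℝ) (b e : ℝ) (V : ℝ × ℝ → ℝ) (τ : ℝ → ℝ)
    (E v β x₁ : ℝ) : Prop where
  ne : ∀ p : ℝ × ℝ, p.1 ∈ I → Φ p ≠ 0
  arc : ∀ p : ℝ × ℝ, p.1 ∈ I → -(nm (Φ p) / 2) < (turn b Φ p).2
  diff : ∀ p : ℝ × ℝ, p.1 ∈ I → DifferentiableAt ℝ V p
  periodic : ∀ p : ℝ × ℝ, V (p + (0, 2 * Real.pi)) = V p
  small : ∀ p : ℝ × ℝ, p.1 ∈ I → |V p| ≤ v
  tau_cont : Continuous τ
  tau_periodic : ∀ θ, τ (θ + 2 * Real.pi) = τ θ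
  tau_nonneg : ∀ θ, 0 ≤ τ θ
  tau_le : ∀ θ, τ θ ≤ 1
  tau_int : ∫ θ in (0 : ℝ)..(2 * Real.pi), τ θ ≤ β
  all : ∀ p : ℝ × ℝ, p.1 ∈ I → |epsF V Φ b p| ≤ E * nm (Φ p) ^ 2
  good : ∀ p : ℝ × ℝ, p.1 ∈ I → (turn b Φ p).2 < x₁ * nm (Φ p) ∨ τ p.2 < 1 →
    |epsF V Φ b p| ≤ e * nm (Φ p) ^ 2
  e_pos : 0 < e
  e_le : e ≤ 1 / 10
  E_nonneg : 0 ≤ E
  x_pos : 0 < x₁
  x_le : x₁ ≤ 1 / 10
  v_nonneg : 0 ≤ v
  v_le : 4 * v ≤ x₁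
  thin : (2 * E / x₁ ^ 2 + e / x₁) * β ≤ e / 2
  slow : (2 * E / x₁ ^ 2 + e / x₁) * v ^ 2 ≤ 2 / 5 * e

/-- there is a frame for every angle with a positive closed orbit in the strip -/
def Framed (Φ : ℝ × ℝ → ℝ × ℝ) (I : Set ℝ) (e : ℝ) : Prop :=
  ∀ (b : ℝ) (C : Set (ℝ × ℝ)), PosOrb Φ I b C →
    ∃ (V : ℝ × ℝ → ℝ) (τ : ℝ → ℝ) (E v β x₁ : ℝ), Frame Φ I b e V τ E v β x₁

/-- `U` is a set of fixed centres: at distance more than `A (i+1)` from `U` the field `Φ` has no zero and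
there is a frame with `e = 2^{-i}/10`. -/
def GoodZones (Φ : ℝ × ℝ → ℝ × ℝ) (U : Finset ℝ) (A : ℝ) : Prop :=
  ∀ (i : ℕ) (I : Set ℝ), IsOpen I → I.OrdConnected →
    (∀ s ∈ I, ∀ u ∈ U, A * ((i : ℝ) + 1) < |s - u|) →
      (∀ p : ℝ × ℝ, p.1 ∈ I → Φ p ≠ 0) ∧ Framed Φ I ((1 / 2) ^ i / 10)

/-! ### The class of closed orbits -/

/-- the annulus `log |z| ∈ I` -/
def ann (I : Set ℝ) : Set (ℝ × ℝ) := {z | z ≠ 0 ∧ Real.log (nm z) ∈ I}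

/-- the smallest or the largest value of `log |z|` on `C` is in `[lo, hi]` -/
def IsExt (lo hi : ℝ) (C : Set (ℝ × ℝ)) : Prop :=
  ∃ z ∈ C, lo ≤ Real.log (nm z) ∧ Real.log (nm z) ≤ hi ∧
    ((∀ w ∈ C, nm z ≤ nm w) ∨ (∀ w ∈ C, nm w ≤ nm z))

open scoped Classical in
/-- the indicator of `IsExt` -/
noncomputable def extInd (lo hi : ℝ) (C : Set (ℝ × ℝ)) : ℝ≥0∞ := if IsExt lo hi C then 1 else 0

/-! ### The roots -/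

/-- the strip `Re ρ ∈ I` -/
def strip (I : Set ℝ) : Set ℂ := {ρ | ρ.re ∈ I}

/-- the velocity `-i b'/b` of the root `b = e^{iξ}`: this is `ξ'` -/
noncomputable def vel (b : ℂ → ℂ) (ρ : ℂ) : ℂ := -Complex.I * deriv b ρ / b ρ

/-- `Φ = c e^{imθ} ∏ (e^{iθ} - b_j)`, with holomorphic `c, b_j` on the strip `Re ρ ∈ I` -/
structure RootSys (Φ : ℝ × ℝ → ℝ × ℝ) (I : Set ℝ) (d : ℕ) (b : Fin d → ℂ → ℂ) (c : ℂ → ℂ)
    (m : ℤ) : Prop where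
  hol : ∀ j, DifferentiableOn ℂ (b j) (strip I)
  holc : DifferentiableOn ℂ c (strip I)
  b_ne : ∀ j, ∀ ρ ∈ strip I, b j ρ ≠ 0
  c_ne : ∀ ρ ∈ strip I, c ρ ≠ 0
  fac : ∀ p : ℝ × ℝ, p.1 ∈ I → ((Φ p).1 : ℂ) + (Φ p).2 * Complex.I =
    c p.1 * Complex.exp (m * (p.2 * Complex.I)) * ∏ j, (Complex.exp (p.2 * Complex.I) - b j p.1)

/-- the root is near the unit circle -/
def near (z : ℂ) : Prop := 2 / 3 ≤ ‖z‖ ∧ ‖z‖ ≤ 3 / 2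

/-- The bounds for the roots. `Λ` is large, `v` and `κ` are small. -/
structure RootBd (I : Set ℝ) (d : ℕ) (b : Fin d → ℂ → ℂ) (c : ℂ → ℂ) (τ : ℝ → ℝ)
    (Λ v κ : ℝ) : Prop where
  vel_le : ∀ j, ∀ s ∈ I, ‖vel (b j) s‖ ≤ Λ
  dvel_le : ∀ j, ∀ s ∈ I, ‖deriv (vel (b j)) s‖ ≤ Λ
  vel_small : ∀ j, ∀ s ∈ I, near (b j s) → ‖vel (b j) s‖ ≤ v
  dvel_small : ∀ j, ∀ s ∈ I, near (b j s) → ‖deriv (vel (b j)) s‖ ≤ v
  vel_im : ∀ j, ∀ s ∈ I, near (b j s) → |(vel (b j) s).im| ≤ Λ * |‖b j s‖ - 1|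
  dvel_im : ∀ j, ∀ s ∈ I, near (b j s) → |(deriv (vel (b j)) s).im| ≤ Λ * |‖b j s‖ - 1|
  pair : ∀ i j, ∀ s ∈ I, near (b i s) → near (b j s) →
    ‖vel (b i) s - vel (b j) s‖ ≤ Λ * ‖b i s - b j s‖
  dpair : ∀ i j, ∀ s ∈ I, near (b i s) → near (b j s) →
    ‖deriv (vel (b i)) s - deriv (vel (b j)) s‖ ≤ Λ * ‖b i s - b j s‖
  lead : ∀ s ∈ I, ‖deriv c s / c s‖ ≤ Λ
  dlead : ∀ s ∈ I, ‖deriv (fun ρ => deriv c ρ / c ρ) s‖ ≤ Λ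
  unit : ∀ j, ∀ s ∈ I, ‖b j s‖ ≠ 1
  good_dist : ∀ θ : ℝ, τ θ < 1 → ∀ s ∈ I, ∀ j, κ ≤ ‖Complex.exp (θ * Complex.I) - b j s‖
  good_rho : ∀ θ : ℝ, τ θ < 1 → ∀ s ∈ I,
    |(deriv c s / c s - ∑ j, deriv (b j) s / (Complex.exp (θ * Complex.I) - b j s)).im| ≤ v

/-! ### The interfaces of the five parts -/

/-- the number `t² κ³ / (10⁶ (N+1)³ Λ²)`: the bound for the velocities of the near roots -/
noncomputable def kapV (N : ℕ) (Λ κ t : ℝ) : ℝ := t ^ 2 * κ ^ 3 / (10 ^ 6 * ((N : ℝ) + 1) ^ 3 * Λ ^ 2)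

/-- the number `10⁵ (N+1)⁴ Λ²`: the bound for `Z f`, `Z Z f`, `ε` -/
noncomputable def bigE (N : ℕ) (Λ : ℝ) : ℝ := 10 ^ 5 * ((N : ℝ) + 1) ^ 4 * Λ ^ 2

/-- a cut off `τ` with values in `[0,1]` and integral at most `β` -/
structure CutOff (τ : ℝ → ℝ) (β : ℝ) : Prop where
  cont : Continuous τ
  periodic : ∀ θ, τ (θ + 2 * Real.pi) = τ θ
  nonneg : ∀ θ, 0 ≤ τ θ
  le_one : ∀ θ, τ θ ≤ 1
  int : ∫ θ in (0 : ℝ)..(2 * Real.pi), τ θ ≤ β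

/-- **Part L** (closed orbits): the mean number of the closed orbits in the strip `I` whose lowest or highest
point has `log |z| ∈ [lo,hi]` is at most `K n e (hi - lo + 2)`, if there is a frame on `I` and the field has
no zero in the strip. -/
def PartL : Prop := ∃ K : ℝ, ∀ n : ℕ, 1 ≤ n → ∀ μ : Pr n, vfc μ 0 = 0 → ∀ I : Set ℝ, IsOpen I →
  I.OrdConnected → (∀ p : ℝ × ℝ, p.1 ∈ I → cf (vfc μ) p ≠ 0) → ∀ lo hi e : ℝ, lo ≤ hi → 0 < e →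
  Framed (cf (vfc μ)) I e → Framed (fun p => -cf (vfc μ) p) I e →
    AEMeasurable (setSum (extInd lo hi) (vfc μ) (ann I)) (volume.restrict (Set.Ioo 0 Real.pi)) ∧
    ∫⁻ a in Set.Ioo 0 Real.pi, setSum (extInd lo hi) (vfc μ) (ann I) a ≤
      ENNReal.ofReal (K * n * e * (hi - lo + 2))

/-- **Part Z** (zones with fixed centres) -/
def PartZ : Prop := ∃ (K : ℝ) (k : ℕ), ∀ n : ℕ, 1 ≤ n → ∀ P Q : MvPolynomial (Fin 2) ℝ,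
  P.totalDegree ≤ n → Q.totalDegree ≤ n → IsRelPrime P Q → vf P Q 0 = 0 →
    ∃ (U : Finset ℝ) (B : ℝ), (U.card : ℝ) ≤ K * n ^ k ∧ 1 ≤ B ∧ B ≤ K * n ^ k ∧
      ∀ t : ℝ, 0 < t → t ≤ 1 / 20 → ∃ G : Set ℝ, (∀ x : ℝ, ∃ c ∈ G, x ≤ c ∧ c ≤ x + t) ∧
        ∀ I : Set ℝ, I.OrdConnected →
          (∀ s ∈ I, ∀ u ∈ U, B * (1 + Real.log (1 / t)) < |s - u|) →
            Zone (cf (vf P Q)) (Real.tan (2 * t)) G I

/-- **Part R** (roots) -/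
def PartR : Prop := ∃ (K : ℝ) (k : ℕ), ∀ n : ℕ, 1 ≤ n → ∀ P Q : MvPolynomial (Fin 2) ℝ,
  P.totalDegree ≤ n → Q.totalDegree ≤ n → IsRelPrime P Q → vf P Q 0 = 0 →
    ∃ (U : Finset ℝ) (B Λ : ℝ), (U.card : ℝ) ≤ K * n ^ k ∧ 1 ≤ B ∧ B ≤ K * n ^ k ∧ 1 ≤ Λ ∧
      Real.log Λ ≤ K * n ^ k ∧ ∀ t : ℝ, 0 < t → t ≤ 1 / 20 →
        ∀ I : Set ℝ, IsOpen I → I.OrdConnected → I.Nonempty →
          (∀ s ∈ I, ∀ u ∈ U, B * (1 + Real.log (1 / t)) < |s - u|) →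
            ∃ (d : ℕ) (b : Fin d → ℂ → ℂ) (c : ℂ → ℂ) (m : ℤ) (τ : ℝ → ℝ) (κ : ℝ),
              d ≤ 2 * n + 2 ∧ |m| ≤ 2 * n + 2 ∧ RootSys (cf (vf P Q)) I d b c m ∧
              CutOff τ (t ^ 3) ∧ 0 < κ ∧ κ ≤ 1 ∧
              RootBd I d b c τ Λ (kapV (2 * n + 2) Λ κ t) κ

/-- **Part V** (the frame) -/
def PartV : Prop := ∀ (Φ : ℝ × ℝ → ℝ × ℝ), ContDiff ℝ 2 Φ →
  (∀ p : ℝ × ℝ, Φ (p + (0, 2 * Real.pi)) = Φ p) → ∀ I J : Set ℝ, IsOpen I → I.OrdConnected →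
  (∀ s ∈ J, Set.Icc (s - 1) (s + 1) ⊆ I) → ∀ (d N : ℕ) (b : Fin d → ℂ → ℂ) (c : ℂ → ℂ) (m : ℤ)
  (τ : ℝ → ℝ) (Λ κ t : ℝ), d ≤ N → |m| ≤ N → RootSys Φ I d b c m → CutOff τ (t ^ 3) → 1 ≤ Λ →
  0 < κ → κ ≤ 1 → 0 < t → 10 ^ 4 * bigE N Λ ^ 2 * t ≤ 1 → RootBd I d b c τ Λ (kapV N Λ κ t) κ →
  ∀ a : ℝ, (∀ p : ℝ × ℝ, p.1 ∈ I → -(Real.sin (3 * t) * nm (Φ p)) < (turn a Φ p).2) →
    ∃ V : ℝ × ℝ → ℝ, Frame Φ J a (10 * bigE N Λ * Real.sqrt t) V τ (bigE N Λ) (t ^ 2) (t ^ 3) t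

end Pool.Agent.Lib.MP_95e7ec_an
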