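import Mathlib
import Pool.Agent.Lib.MP_95e7ec_an.Ry.Defs

/-!
# Ry, part R: definitions

Polynomials in two variables: `A : ℂ[X][Y]`, the inner variable is `r = e^ρ`, the outer variable is
`s = e^{iθ}`; the value at `(r,s)` is `A.evalEval r s`.
-/

set_option autoImplicit false

open Set Filter Topology MeasureTheory Polynomial
open scoped ContDiff ENNReal Polynomial.Bivariate

namespace Pool.Agent.Lib.MP_95e7ec_an

/-- the degree in the inner variable is at most `e` -/
def IDeg (A : ℂ[X][Y]) (e : ℕ) : Prop := ∀ k, (A.coeff k).natDegree ≤ e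

open scoped Classical in
/-- the centres of a polynomial in `r`: the logarithms of the moduli of the nonzero roots -/
noncomputable def cen1 (a : ℂ[X]) : Finset ℝ :=
  (a.roots.toFinset.filter fun r => r ≠ 0).image fun r => Real.log ‖r‖

open scoped Classical in
/-- the centres of all the coefficients of `A` -/
noncomputable def cen (A : ℂ[X][Y]) : Finset ℝ := A.support.biUnion fun k => cen1 (A.coeff k)

/-- the constant of the two-term argument -/
noncomputable def ttC (N e : ℕ) : ℝ := ((N : ℝ) + 1) ^ 2 * (2 * Real.log ((N : ℝ) + 1) + 12 * e)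

/-- the sum of the moduli of the coefficients -/
noncomputable def l1 (p : ℂ[X]) : ℝ := ∑ i ∈ p.support, ‖p.coeff i‖

/-- the coefficient of `r^k`, a polynomial in `s` -/
noncomputable def homc (A : ℂ[X][Y]) (k : ℕ) : ℂ[X] := (Polynomial.Bivariate.swap A).coeff k

open scoped Classical in
/-- the centres for the domination by one power of `r` -/
noncomputable def cenDom (A : ℂ[X][Y]) : Finset ℝ :=
  ((Polynomial.Bivariate.swap A).support ×ˢ (Polynomial.Bivariate.swap A).support).image fun p =>
    (Real.log (l1 (homc A p.1)) - Real.log (l1 (homc A p.2))) / ((p.2 : ℝ) - p.1)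

/-- the term `r^k ω`, `ω = homc A k`, dominates `A` on the strip up to the relative error `δ` -/
structure DomAt (A : ℂ[X][Y]) (I : Set ℝ) (k : ℕ) (δ : ℝ) : Prop where
  ne : homc A k ≠ 0
  dom : ∀ ρ ∈ strip I, ∀ s : ℂ, ‖s‖ ≤ 2 →
    ‖A.evalEval (Complex.exp ρ) s - Complex.exp (k * ρ) * (homc A k).eval s‖ ≤
      δ * l1 (homc A k) * Real.exp (k * ρ.re)

/-- the reflected polynomial `s^N conj(A)(r, 1/s)` -/
noncomputable def starP (N : ℕ) (A : ℂ[X][Y]) : ℂ[X][Y] :=
  reflect N (A.map (mapRingHom (starRingEnd ℂ)))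

/-- `b` is a list of holomorphic functions on the strip which are the roots of `A(e^ρ, ·)` with their
multiplicities -/
structure Branches (A : ℂ[X][Y]) (I : Set ℝ) {ι : Type} [Fintype ι] (b : ι → ℂ → ℂ) : Prop where
  hol : ∀ j, DifferentiableOn ℂ (b j) (strip I)
  fac : ∀ ρ ∈ strip I, A.map (evalRingHom (Complex.exp ρ)) =
    C (A.leadingCoeff.eval (Complex.exp ρ)) * ∏ j, (X - C (b j ρ))

end Pool.Agent.Lib.MP_95e7ec_an
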