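import Mathlib
import Pool.Agent.Lib.MP_95e7ec_an.Ry.RDefs

/-!
# Ry, BrLocal: the local branch (implicit function theorem)
-/

set_option autoImplicit false

open Set Filter Topology MeasureTheory Polynomial
open scoped ContDiff ENNReal Polynomial.Bivariate

namespace Pool.Agent.Lib.MP_95e7ec_an

private theorem brLocal_eval_sum (A : ℂ[X][Y]) (x y : ℂ) :
    A.evalEval x y = ∑ i ∈ Finset.range (A.natDegree + 1), (A.coeff i).eval x * y ^ i := by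
  rw [← map_evalRingHom_eval, eval_map, eval₂_eq_sum_range]
  rfl

private theorem brLocal_contDiff (A : ℂ[X][Y]) :
    ContDiff ℂ 1 fun p : ℂ × ℂ => A.evalEval (Complex.exp p.1) p.2 := by
  have h1 : (fun p : ℂ × ℂ => A.evalEval (Complex.exp p.1) p.2) = fun p : ℂ × ℂ =>
      ∑ i ∈ Finset.range (A.natDegree + 1), (A.coeff i).eval (Complex.exp p.1) * p.2 ^ i :=
    funext fun p => brLocal_eval_sum A _ _
  rw [h1]
  refine ContDiff.sum fun i _ => ?_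
  have h2 : ContDiff ℂ 1 fun x : ℂ => (A.coeff i).eval x := by
    simpa [Polynomial.coe_aeval_eq_eval] using Polynomial.contDiff_aeval (𝕜 := ℂ) (A.coeff i) 1
  have h3 : ContDiff ℂ 1 fun p : ℂ × ℂ => Complex.exp p.1 := Complex.contDiff_exp.comp contDiff_fst
  exact (h2.comp h3).mul (contDiff_snd.pow i)

private theorem brLocal_hasDerivAt (A : ℂ[X][Y]) (x y : ℂ) :
    HasDerivAt (fun s : ℂ => A.evalEval x s) ((derivative A).evalEval x y) y := by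
  have h1 := (A.map (evalRingHom x)).hasDerivAt y
  rw [derivative_map, map_evalRingHom_eval] at h1
  have h2 : (fun s : ℂ => A.evalEval x s) = fun s => (A.map (evalRingHom x)).eval s :=
    funext fun s => (map_evalRingHom_eval x s A).symm
  rw [h2]
  exact h1

/-- Proof. `F(ρ,s) = A.evalEval (exp ρ) s` is analytic on `ℂ × ℂ` (a finite sum of products), with the partial
derivative `(derivative A).evalEval (exp ρ) s` in `s`. The map `Ψ(ρ,s) = (ρ, F(ρ,s))` has an invertible strict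
derivative at `(ρ₀,s₀)`; `HasStrictFDerivAt.toOpenPartialHomeomorph` and `ContDiffAt.to_localInverse` (or
`HasStrictFDerivAt.implicitFunction`, or a direct proof) give a local inverse, `φ(ρ) = (Ψ⁻¹(ρ,0)).2`. Shrink the two
balls. For the differentiability of `φ` on the ball use that `Ψ⁻¹` is differentiable on the target after
shrinking (the derivative stays invertible by continuity). -/
theorem local_branch {A : ℂ[X][Y]} {ρ₀ s₀ : ℂ} (h0 : A.evalEval (Complex.exp ρ₀) s₀ = 0)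
    (h1 : (derivative A).evalEval (Complex.exp ρ₀) s₀ ≠ 0) {η : ℝ} (hη : 0 < η) :
    ∃ r δ : ℝ, 0 < r ∧ 0 < δ ∧ r ≤ η ∧ δ ≤ η ∧ ∃ φ : ℂ → ℂ,
      DifferentiableOn ℂ φ (Metric.ball ρ₀ r) ∧ φ ρ₀ = s₀ ∧
      ∀ ρ ∈ Metric.ball ρ₀ r, φ ρ ∈ Metric.ball s₀ δ ∧
        ∀ s ∈ Metric.ball s₀ δ, A.evalEval (Complex.exp ρ) s = 0 ↔ s = φ ρ := by
  set F : ℂ × ℂ → ℂ := fun p => A.evalEval (Complex.exp p.1) p.2 with hF
  have hFc : ContDiff ℂ 1 F := brLocal_contDiff A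
  set L : ℂ × ℂ →L[ℂ] ℂ := fderiv ℂ F (ρ₀, s₀) with hL
  have hFL : HasFDerivAt F L (ρ₀, s₀) := (hFc.differentiable one_ne_zero _).hasFDerivAt
  set d : ℂ := (derivative A).evalEval (Complex.exp ρ₀) s₀ with hd
  set c : ℂ := L (1, 0) with hc
  have hLd : L (0, 1) = d := by
    have e1 : HasDerivAt (fun s : ℂ => ((ρ₀, s) : ℂ × ℂ)) (0, 1) s₀ :=
      (hasDerivAt_const s₀ ρ₀).prodMk (hasDerivAt_id s₀)
    have e2 : HasDerivAt (fun s : ℂ => F (ρ₀, s)) (L (0, 1)) s₀ :=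
      HasFDerivAt.comp_hasDerivAt (f := fun s : ℂ => ((ρ₀, s) : ℂ × ℂ)) s₀ hFL e1
    exact e2.unique (brLocal_hasDerivAt A (Complex.exp ρ₀) s₀)
  have hLab : ∀ a b : ℂ, L (a, b) = a * c + b * d := by
    intro a b
    have e1 : ((a, b) : ℂ × ℂ) = a • ((1, 0) : ℂ × ℂ) + b • ((0, 1) : ℂ × ℂ) := by
      ext <;> simp
    rw [e1, map_add, map_smul, map_smul, hLd]
    simp [hc]
  -- the map and its derivative
  set Ψ : ℂ × ℂ → ℂ × ℂ := fun p => (p.1, F p) with hΨ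
  have hΨc : ContDiff ℂ 1 Ψ := contDiff_fst.prodMk hFc
  let M : ℂ × ℂ →L[ℂ] ℂ × ℂ := (ContinuousLinearMap.fst ℂ ℂ ℂ).prod L
  let M' : ℂ × ℂ →L[ℂ] ℂ × ℂ := (ContinuousLinearMap.fst ℂ ℂ ℂ).prod
    (d⁻¹ • (ContinuousLinearMap.snd ℂ ℂ ℂ - c • ContinuousLinearMap.fst ℂ ℂ ℂ))
  have hMM : Function.LeftInverse M' M := by
    rintro ⟨a, b⟩
    have : M (a, b) = (a, a * c + b * d) := by
      show (a, L (a, b)) = _
      rw [hLab]
    rw [this]
    show (a, d⁻¹ * ((a * c + b * d) - c * a)) = (a, b)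
    congr 1
    field_simp
    ring
  have hMM' : Function.RightInverse M' M := by
    rintro ⟨a, b⟩
    show (a, L (a, d⁻¹ * (b - c * a))) = (a, b)
    rw [hLab]
    congr 1
    field_simp
    ring
  let f' : (ℂ × ℂ) ≃L[ℂ] (ℂ × ℂ) := ContinuousLinearEquiv.equivOfInverse M M' hMM hMM'
  have hΨd : HasFDerivAt Ψ (f' : ℂ × ℂ →L[ℂ] ℂ × ℂ) (ρ₀, s₀) := by
    have : (f' : ℂ × ℂ →L[ℂ] ℂ × ℂ) = M := rfl
    rw [this]
    exact (hasFDerivAt_fst).prodMk hFL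
  have hca : ContDiffAt ℂ 1 Ψ (ρ₀, s₀) := hΨc.contDiffAt
  set e := hca.toOpenPartialHomeomorph Ψ hΨd one_ne_zero with he
  have hes : ((ρ₀, s₀) : ℂ × ℂ) ∈ e.source := hca.mem_toOpenPartialHomeomorph_source hΨd one_ne_zero
  have heΨ : ∀ p, e p = Ψ p := fun p => rfl
  have hΨ0 : Ψ (ρ₀, s₀) = (ρ₀, 0) := by
    show (ρ₀, F (ρ₀, s₀)) = _
    rw [hF]
    exact Prod.ext rfl h0
  have het : ((ρ₀, 0) : ℂ × ℂ) ∈ e.target := by
    rw [← hΨ0]
    exact hca.image_mem_toOpenPartialHomeomorph_target hΨd one_ne_zero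
  have hsymm0 : e.symm (ρ₀, 0) = (ρ₀, s₀) := by
    rw [← hΨ0, ← heΨ]
    exact e.left_inv hes
  have hinv : ContDiffAt ℂ 1 e.symm (ρ₀, 0) := by
    have := hca.to_localInverse hΨd one_ne_zero
    rw [hΨ0] at this
    exact this
  -- the source contains a product of balls
  obtain ⟨δ₁, hδ₁, hball⟩ := Metric.isOpen_iff.1 e.open_source _ hes
  set δ : ℝ := min δ₁ η with hδ
  have hδpos : 0 < δ := lt_min hδ₁ hη
  set φ : ℂ → ℂ := fun ρ => (e.symm (ρ, 0)).2 with hφ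
  have hφ0 : φ ρ₀ = s₀ := by
    show (e.symm (ρ₀, 0)).2 = s₀
    rw [hsymm0]
  have hι : Continuous fun ρ : ℂ => ((ρ, 0) : ℂ × ℂ) := by fun_prop
  have hev : ∀ᶠ ρ in 𝓝 ρ₀, ((ρ, 0) : ℂ × ℂ) ∈ e.target ∧ φ ρ ∈ Metric.ball s₀ δ ∧
      ContDiffAt ℂ 1 e.symm (ρ, 0) := by
    have a1 : ∀ᶠ ρ in 𝓝 ρ₀, ((ρ, 0) : ℂ × ℂ) ∈ e.target :=
      hι.continuousAt.eventually (e.open_target.mem_nhds het)
    have a2 : ContinuousAt φ ρ₀ := by
      have b1 : ContinuousAt e.symm (ρ₀, 0) := hinv.continuousAt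
      have b2 : ContinuousAt (fun ρ : ℂ => e.symm (ρ, 0)) ρ₀ :=
        ContinuousAt.comp (f := fun ρ : ℂ => ((ρ, 0) : ℂ × ℂ)) b1 hι.continuousAt
      exact b2.snd
    have a3 : ∀ᶠ ρ in 𝓝 ρ₀, φ ρ ∈ Metric.ball s₀ δ := by
      apply a2.eventually
      rw [hφ0]
      exact Metric.ball_mem_nhds _ hδpos
    have a4 : ∀ᶠ q in 𝓝 ((ρ₀, 0) : ℂ × ℂ), ContDiffAt ℂ 1 e.symm q :=
      hinv.eventually (by simp)
    have a5 : ∀ᶠ ρ in 𝓝 ρ₀, ContDiffAt ℂ 1 e.symm (ρ, 0) := hι.continuousAt.eventually a4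
    filter_upwards [a1, a3, a5] with ρ c1 c2 c3 using ⟨c1, c2, c3⟩
  obtain ⟨r₁, hr₁, hr₁b⟩ := Metric.eventually_nhds_iff_ball.1 hev
  refine ⟨min r₁ δ, δ, lt_min hr₁ hδpos, hδpos, (min_le_right _ _).trans (min_le_right _ _),
    min_le_right _ _, φ, ?_, hφ0, ?_⟩
  · intro ρ hρ
    have hρ1 : ρ ∈ Metric.ball ρ₀ r₁ := Metric.ball_subset_ball (min_le_left _ _) hρ
    have b1 : DifferentiableAt ℂ e.symm (ρ, 0) :=
      (hr₁b ρ hρ1).2.2.differentiableAt one_ne_zero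
    have b2 : DifferentiableAt ℂ (fun ρ : ℂ => ((ρ, 0) : ℂ × ℂ)) ρ :=
      differentiableAt_id.prodMk (differentiableAt_const _)
    have b3 : DifferentiableAt ℂ (fun ρ : ℂ => e.symm (ρ, 0)) ρ :=
      DifferentiableAt.comp (f := fun ρ : ℂ => ((ρ, 0) : ℂ × ℂ)) ρ b1 b2
    exact b3.snd.differentiableWithinAt
  · intro ρ hρ
    have hρ1 : ρ ∈ Metric.ball ρ₀ r₁ := Metric.ball_subset_ball (min_le_left _ _) hρ
    have hρ2 : ρ ∈ Metric.ball ρ₀ δ := Metric.ball_subset_ball (min_le_right _ _) hρ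
    obtain ⟨c1, c2, -⟩ := hr₁b ρ hρ1
    refine ⟨c2, fun s hs => ?_⟩
    have hsrc : ∀ s ∈ Metric.ball s₀ δ, ((ρ, s) : ℂ × ℂ) ∈ e.source := by
      intro s hs
      apply hball
      rw [Metric.mem_ball, Prod.dist_eq]
      exact max_lt (lt_of_lt_of_le hρ2 (min_le_left _ _)) (lt_of_lt_of_le hs (min_le_left _ _))
    have hsym : e (e.symm (ρ, 0)) = (ρ, 0) := e.right_inv c1
    rw [heΨ] at hsym
    have hfst : (e.symm (ρ, 0)).1 = ρ := congrArg Prod.fst hsym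
    have hsnd : F (e.symm (ρ, 0)) = 0 := congrArg Prod.snd hsym
    have hpair : e.symm (ρ, 0) = (ρ, φ ρ) := Prod.ext hfst rfl
    constructor
    · intro h
      have h2 : Ψ (ρ, s) = (ρ, 0) := Prod.ext rfl h
      have h3 : e.symm (ρ, 0) = (ρ, s) := by
        rw [← h2, ← heΨ]
        exact e.left_inv (hsrc s hs)
      rw [hpair] at h3
      exact (congrArg Prod.snd h3).symm
    · rintro rfl
      rw [hpair] at hsnd
      exact hsnd

end Pool.Agent.Lib.MP_95e7ec_an
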