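import Mathlib
import Pool.Agent.Lib.MP_95e7ec_an.Ry.RDefs
import Pool.Agent.Lib.MP_95e7ec_an.Ry.BrLocal

/-!
# Ry, BrLift: a branch on the whole strip (covering spaces)
-/

set_option autoImplicit false

open Set Filter Topology MeasureTheory Polynomial
open scoped ContDiff ENNReal Polynomial.Bivariate

namespace Pool.Agent.Lib.MP_95e7ec_an

/-- The value of a polynomial in two variables as a sum over the coefficients. -/
private theorem brLift_evalEval (A : ℂ[X][Y]) (x y : ℂ) :
    A.evalEval x y = ∑ k ∈ Finset.range (A.natDegree + 1), (A.coeff k).eval x * y ^ k := by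
  rw [evalEval, eval_eq_sum_range (p := A), eval_finsetSum]
  refine Finset.sum_congr rfl fun k _ => ?_
  rw [eval_mul, eval_pow, eval_C]

private theorem brLift_cont (A : ℂ[X][Y]) :
    Continuous fun x : ℂ × ℂ => A.evalEval (Complex.exp x.1) x.2 := by
  have h : (fun x : ℂ × ℂ => A.evalEval (Complex.exp x.1) x.2) = fun x : ℂ × ℂ =>
      ∑ k ∈ Finset.range (A.natDegree + 1), (A.coeff k).eval (Complex.exp x.1) * x.2 ^ k := by
    funext x
    exact brLift_evalEval A _ _
  rw [h]
  refine continuous_finsetSum _ fun k _ => ?_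
  exact ((A.coeff k).continuous.comp (Complex.continuous_exp.comp continuous_fst)).mul
    (continuous_snd.pow k)

/-- The bound of the roots. -/
private noncomputable def brLiftBd (A : ℂ[X][Y]) (ρ : ℂ) : ℝ :=
  1 + (∑ k ∈ Finset.range A.natDegree, ‖(A.coeff k).eval (Complex.exp ρ)‖) /
    ‖A.leadingCoeff.eval (Complex.exp ρ)‖

private theorem brLift_root_le {A : ℂ[X][Y]} {ρ s : ℂ}
    (hl : A.leadingCoeff.eval (Complex.exp ρ) ≠ 0)
    (h : A.evalEval (Complex.exp ρ) s = 0) : ‖s‖ ≤ brLiftBd A ρ := by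
  have hpos : 0 < ‖A.leadingCoeff.eval (Complex.exp ρ)‖ := norm_pos_iff.mpr hl
  have hS : 0 ≤ ∑ k ∈ Finset.range A.natDegree, ‖(A.coeff k).eval (Complex.exp ρ)‖ :=
    Finset.sum_nonneg fun _ _ => norm_nonneg _
  rcases le_total ‖s‖ 1 with h1 | h1
  · exact h1.trans (by rw [brLiftBd]; linarith [div_nonneg hS hpos.le])
  have hs0 : 0 < ‖s‖ := by linarith
  rcases Nat.eq_zero_or_pos A.natDegree with hn | hn
  · exfalso
    rw [brLift_evalEval, hn] at h
    apply hl
    rw [leadingCoeff, hn]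
    simpa using h
  obtain ⟨n, hn'⟩ : ∃ n, A.natDegree = n + 1 := ⟨A.natDegree - 1, by omega⟩
  have hsum : A.leadingCoeff.eval (Complex.exp ρ) * s ^ (n + 1) =
      -∑ k ∈ Finset.range (n + 1), (A.coeff k).eval (Complex.exp ρ) * s ^ k := by
    rw [brLift_evalEval, hn', Finset.sum_range_succ] at h
    rw [leadingCoeff, hn']
    linear_combination h
  have hle : ‖A.leadingCoeff.eval (Complex.exp ρ)‖ * ‖s‖ ^ (n + 1) ≤
      (∑ k ∈ Finset.range (n + 1), ‖(A.coeff k).eval (Complex.exp ρ)‖) * ‖s‖ ^ n := by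
    calc ‖A.leadingCoeff.eval (Complex.exp ρ)‖ * ‖s‖ ^ (n + 1)
        = ‖A.leadingCoeff.eval (Complex.exp ρ) * s ^ (n + 1)‖ := by rw [norm_mul, norm_pow]
      _ = ‖∑ k ∈ Finset.range (n + 1), (A.coeff k).eval (Complex.exp ρ) * s ^ k‖ := by
          rw [hsum, norm_neg]
      _ ≤ ∑ k ∈ Finset.range (n + 1), ‖(A.coeff k).eval (Complex.exp ρ) * s ^ k‖ :=
          norm_sum_le _ _
      _ ≤ ∑ k ∈ Finset.range (n + 1), ‖(A.coeff k).eval (Complex.exp ρ)‖ * ‖s‖ ^ n := by
          refine Finset.sum_le_sum fun k hk => ?_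
          rw [norm_mul, norm_pow]
          have : k ≤ n := by
            have := Finset.mem_range.mp hk
            omega
          exact mul_le_mul_of_nonneg_left (pow_le_pow_right₀ h1 this) (norm_nonneg _)
      _ = _ := by rw [Finset.sum_mul]
  have hle2 : ‖A.leadingCoeff.eval (Complex.exp ρ)‖ * ‖s‖ ≤
      ∑ k ∈ Finset.range (n + 1), ‖(A.coeff k).eval (Complex.exp ρ)‖ := by
    have hp : 0 < ‖s‖ ^ n := pow_pos hs0 n
    refine le_of_mul_le_mul_right ?_ hp
    calc _ = ‖A.leadingCoeff.eval (Complex.exp ρ)‖ * ‖s‖ ^ (n + 1) := by ring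
      _ ≤ _ := hle
  rw [brLiftBd, hn']
  have : ‖s‖ ≤ (∑ k ∈ Finset.range (n + 1), ‖(A.coeff k).eval (Complex.exp ρ)‖) /
      ‖A.leadingCoeff.eval (Complex.exp ρ)‖ := by
    rw [le_div_iff₀ hpos]
    linarith [mul_comm ‖s‖ ‖A.leadingCoeff.eval (Complex.exp ρ)‖]
  linarith

private theorem brLift_bd_cont {A : ℂ[X][Y]} {S : Set ℂ}
    (hlc : ∀ ρ ∈ S, A.leadingCoeff.eval (Complex.exp ρ) ≠ 0) :
    ContinuousOn (brLiftBd A) S := by
  have he : ∀ p : ℂ[X], Continuous fun ρ : ℂ => ‖p.eval (Complex.exp ρ)‖ := fun p =>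
    (p.continuous.comp Complex.continuous_exp).norm
  refine ContinuousOn.add continuousOn_const (ContinuousOn.div ?_ (he _).continuousOn ?_)
  · exact (continuous_finsetSum _ fun k _ => he _).continuousOn
  · intro ρ hρ
    exact (norm_pos_iff.mpr (hlc ρ hρ)).ne'

/-- The curve over the set `S`. -/
private abbrev brLiftE (A : ℂ[X][Y]) (S : Set ℂ) : Type :=
  {x : S × ℂ // A.evalEval (Complex.exp (x.1 : ℂ)) x.2 = 0}

private def brLiftP (A : ℂ[X][Y]) (S : Set ℂ) : brLiftE A S → S := fun x => x.1.1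

private theorem brLift_p_cont (A : ℂ[X][Y]) (S : Set ℂ) : Continuous (brLiftP A S) :=
  continuous_fst.comp continuous_subtype_val

private theorem brLift_closed {A : ℂ[X][Y]} {S : Set ℂ} (hS : IsOpen S)
    (hlc : ∀ ρ ∈ S, A.leadingCoeff.eval (Complex.exp ρ) ≠ 0) :
    IsClosedMap (brLiftP A S) := by
  have : LocallyCompactSpace S := hS.locallyCompactSpace
  have hp : IsProperMap (brLiftP A S) := by
    rw [isProperMap_iff_isCompact_preimage]
    refine ⟨brLift_p_cont A S, fun K hK => ?_⟩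
    -- the bound on `K`
    have hb : ContinuousOn (fun x : S => brLiftBd A x) K := by
      have := (brLift_bd_cont hlc).comp_continuous (continuous_subtype_val (p := (· ∈ S)))
        (fun x => x.2)
      exact this.continuousOn
    obtain ⟨M, hM⟩ := (hK.image_of_continuousOn hb).bddAbove
    have hM' : ∀ x ∈ K, brLiftBd A x ≤ M := fun x hx => hM ⟨x, hx, rfl⟩
    have hcl : IsClosed {x : S × ℂ | A.evalEval (Complex.exp (x.1 : ℂ)) x.2 = 0} := by
      have hc : Continuous fun x : S × ℂ => A.evalEval (Complex.exp (x.1 : ℂ)) x.2 :=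
        (brLift_cont A).comp ((continuous_subtype_val.comp continuous_fst).prodMk continuous_snd)
      exact isClosed_eq hc continuous_const
    have hcomp : IsCompact ((K ×ˢ Metric.closedBall (0 : ℂ) M) ∩
        {x : S × ℂ | A.evalEval (Complex.exp (x.1 : ℂ)) x.2 = 0}) :=
      (hK.prod (isCompact_closedBall _ _)).inter_right hcl
    rw [Subtype.isCompact_iff]
    convert hcomp using 1
    ext x
    constructor
    · rintro ⟨e, he, rfl⟩
      refine ⟨⟨he, ?_⟩, e.2⟩
      rw [mem_closedBall_zero_iff]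
      exact (brLift_root_le (hlc _ e.1.1.2) e.2).trans (hM' _ he)
    · rintro ⟨⟨h1, _⟩, h3⟩
      exact ⟨⟨x, h3⟩, h1, rfl⟩
  exact hp.isClosedMap

private theorem brLift_finite {A : ℂ[X][Y]} {S : Set ℂ}
    (hlc : ∀ ρ ∈ S, A.leadingCoeff.eval (Complex.exp ρ) ≠ 0) (x : S) :
    (brLiftP A S ⁻¹' {x}).Finite := by
  have hne : A.map (evalRingHom (Complex.exp (x : ℂ))) ≠ 0 := by
    intro h0
    apply hlc x x.2
    have := congrArg (fun p : ℂ[X] => p.coeff A.natDegree) h0
    simpa [coeff_map] using this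
  have hfin : {s : ℂ | (A.map (evalRingHom (Complex.exp (x : ℂ)))).eval s = 0}.Finite := by
    have := (A.map (evalRingHom (Complex.exp (x : ℂ)))).rootSet_finite ℂ
    refine this.subset fun s hs => ?_
    rw [mem_rootSet]
    exact ⟨hne, by simpa using hs⟩
  have himg : (fun e : brLiftE A S => e.1.2) '' (brLiftP A S ⁻¹' {x}) ⊆
      {s : ℂ | (A.map (evalRingHom (Complex.exp (x : ℂ)))).eval s = 0} := by
    rintro s ⟨e, he, rfl⟩
    have he' : e.1.1 = x := he
    have h2 := e.2
    rw [he'] at h2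
    have h3 : A.evalEval (Complex.exp (x : ℂ)) e.1.2 =
        (A.map (evalRingHom (Complex.exp (x : ℂ)))).eval e.1.2 := by
      rw [brLift_evalEval, eval_map, eval₂_eq_sum_range]
      rfl
    rw [h3] at h2
    exact h2
  refine Set.Finite.of_finite_image (hfin.subset himg) ?_
  intro e he e' he' hee
  have h1 : e.1.1 = x := he
  have h1' : e'.1.1 = x := he'
  exact Subtype.ext (Prod.ext (h1.trans h1'.symm) hee)

private theorem brLift_local {A : ℂ[X][Y]} {S : Set ℂ} (hS : IsOpen S)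
    (hs : ∀ ρ ∈ S, ∀ s : ℂ, A.evalEval (Complex.exp ρ) s = 0 →
      (derivative A).evalEval (Complex.exp ρ) s ≠ 0) :
    IsLocalHomeomorph (brLiftP A S) := by
  classical
  intro e
  obtain ⟨η, hη, hηS⟩ := Metric.isOpen_iff.mp hS e.1.1 e.1.1.2
  obtain ⟨r, δ, hr, hδ, hrη, -, φ, hφ, hφ0, hφb⟩ :=
    local_branch e.2 (hs _ e.1.1.2 _ e.2) hη
  have hroot : ∀ ρ ∈ Metric.ball (e.1.1 : ℂ) r, A.evalEval (Complex.exp ρ) (φ ρ) = 0 :=
    fun ρ hρ => ((hφb ρ hρ).2 (φ ρ) (hφb ρ hρ).1).mpr rfl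
  let inv : S → brLiftE A S := fun ρ =>
    if h : A.evalEval (Complex.exp (ρ : ℂ)) (φ ρ) = 0 then ⟨(ρ, φ ρ), h⟩ else e
  have hinv : ∀ ρ : S, (ρ : ℂ) ∈ Metric.ball (e.1.1 : ℂ) r →
      ((inv ρ : brLiftE A S) : S × ℂ) = (ρ, φ ρ) := by
    intro ρ hρ
    simp only [inv, dif_pos (hroot ρ hρ)]
  refine ⟨{ toFun := brLiftP A S
            invFun := inv
            source := {x | (x.1.1 : ℂ) ∈ Metric.ball (e.1.1 : ℂ) r ∧ x.1.2 ∈ Metric.ball e.1.2 δ}
            target := {ρ | (ρ : ℂ) ∈ Metric.ball (e.1.1 : ℂ) r}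
            map_source' := fun x hx => hx.1
            map_target' := ?_
            left_inv' := ?_
            right_inv' := ?_
            open_source := ?_
            open_target := ?_
            continuousOn_toFun := (brLift_p_cont A S).continuousOn
            continuousOn_invFun := ?_ }, ?_, rfl⟩
  · intro ρ hρ
    have h1 := hinv ρ hρ
    refine ⟨?_, ?_⟩
    · rw [h1]
      exact hρ
    · rw [h1]
      exact (hφb ρ hρ).1
  · intro x hx
    apply Subtype.ext
    have h1 : ((brLiftP A S x : S) : ℂ) ∈ Metric.ball (e.1.1 : ℂ) r := hx.1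
    rw [hinv _ h1]
    exact Prod.ext rfl ((((hφb _ h1).2 x.1.2 hx.2).mp x.2).symm)
  · intro ρ hρ
    show (inv ρ).1.1 = ρ
    rw [hinv ρ hρ]
  · rw [Topology.IsInducing.subtypeVal.continuousOn_iff]
    have h3 : ContinuousOn (fun ρ : S => ((ρ, φ ρ) : S × ℂ))
        {ρ : S | (ρ : ℂ) ∈ Metric.ball (e.1.1 : ℂ) r} := by
      refine continuousOn_id.prodMk ?_
      exact hφ.continuousOn.comp continuous_subtype_val.continuousOn (fun ρ hρ => hρ)
    exact h3.congr fun ρ hρ => hinv ρ hρ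
  · have h1 : Continuous fun x : brLiftE A S => ((x.1.1 : S) : ℂ) :=
      continuous_subtype_val.comp (continuous_fst.comp continuous_subtype_val)
    have h2 : Continuous fun x : brLiftE A S => (x.1.2 : ℂ) :=
      continuous_snd.comp continuous_subtype_val
    exact (Metric.isOpen_ball.preimage h1).inter (Metric.isOpen_ball.preimage h2)
  · exact Metric.isOpen_ball.preimage continuous_subtype_val
  · exact ⟨Metric.mem_ball_self hr, Metric.mem_ball_self hδ⟩

/-- Proof. `S = strip I` is open and convex (preimage of an open interval by `re`), so the subtype `S` is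
contractible (`Convex.contractibleSpace`), hence simply connected, and locally path connected
(`IsOpen.locallyPathConnectedSpace`). Let `E = {x : S × ℂ // A.evalEval (exp x.1) x.2 = 0}` and `p : E → S` the projection.
`p` is closed: it is a proper map, because over a compact subset of `S` the roots are bounded (the leading
coefficient is bounded below and the other coefficients are bounded above there), so the preimage of a compact set
is compact (`isProperMap_iff_isCompact_preimage`, `IsProperMap.isClosedMap`). The fibres are finite. `p` is a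
local homeomorphism by `local_branch` (with small balls inside `S`; the inverse is `ρ ↦ (ρ, φ ρ)`).
`IsClosedMap.isCoveringMapOn_of_isLocalHomeomorphOn` (with `s = univ`) gives a covering map, and
`IsCoveringMap.existsUnique_continuousMap_lifts` for the identity of `S` gives a continuous section `F` with
`F ρ₀ = (ρ₀,s₀)`; `b ρ = (F ρ).2`. Near a point `ρ₁` the function `b` is continuous and is a root, so by
`local_branch` it coincides with `φ` and is differentiable. -/
theorem exists_branch {A : ℂ[X][Y]} {I : Set ℝ} (hI : IsOpen I) (hI' : I.OrdConnected)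
    (hlc : ∀ ρ ∈ strip I, A.leadingCoeff.eval (Complex.exp ρ) ≠ 0)
    (hs : ∀ ρ ∈ strip I, ∀ s : ℂ, A.evalEval (Complex.exp ρ) s = 0 →
      (derivative A).evalEval (Complex.exp ρ) s ≠ 0)
    {ρ₀ s₀ : ℂ} (hρ₀ : ρ₀ ∈ strip I) (h0 : A.evalEval (Complex.exp ρ₀) s₀ = 0) :
    ∃ b : ℂ → ℂ, DifferentiableOn ℂ b (strip I) ∧ b ρ₀ = s₀ ∧
      ∀ ρ ∈ strip I, A.evalEval (Complex.exp ρ) (b ρ) = 0 := by
  classical
  have hSo : IsOpen (strip I) := hI.preimage Complex.continuous_re
  have hSc : Convex ℝ (strip I) := by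
    have := hI'.convex.linear_preimage Complex.reLm
    exact this
  have : ContractibleSpace (strip I) := hSc.contractibleSpace ⟨ρ₀, hρ₀⟩
  have : LocallyPathConnectedSpace (strip I) := hSo.locallyPathConnectedSpace
  have hcov : IsCoveringMap (brLiftP A (strip I)) := by
    rw [isCoveringMap_iff_isCoveringMapOn_univ]
    refine (brLift_closed hSo hlc).isCoveringMapOn_of_isLocalHomeomorphOn
      (fun x _ => brLift_finite hlc x) ?_
    intro x _
    exact brLift_local hSo hs x
  obtain ⟨F, ⟨hF0, hF1⟩, -⟩ := hcov.existsUnique_continuousMap_lifts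
    (ContinuousMap.id (strip I)) ⟨ρ₀, hρ₀⟩ ⟨(⟨ρ₀, hρ₀⟩, s₀), h0⟩ rfl
  have hF2 : ∀ ρ : strip I, (F ρ).1.1 = ρ := fun ρ => congrFun hF1 ρ
  let b : ℂ → ℂ := fun ρ => if h : ρ ∈ strip I then (F ⟨ρ, h⟩).1.2 else 0
  have hb : ∀ (ρ : ℂ) (h : ρ ∈ strip I), b ρ = (F ⟨ρ, h⟩).1.2 := fun ρ h => dif_pos h
  have hbr : ∀ ρ ∈ strip I, A.evalEval (Complex.exp ρ) (b ρ) = 0 := by
    intro ρ hρ
    rw [hb ρ hρ]
    have h2 := (F ⟨ρ, hρ⟩).2
    rw [hF2] at h2
    exact h2
  have hbc : ContinuousOn b (strip I) := by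
    rw [continuousOn_iff_continuous_domRestrict]
    have h1 : Continuous fun ρ : strip I => ((F ρ).1.2 : ℂ) :=
      continuous_snd.comp (continuous_subtype_val.comp F.continuous)
    convert h1 using 1
    funext ρ
    exact hb ρ ρ.2
  refine ⟨b, ?_, ?_, hbr⟩
  · intro ρ₁ hρ₁
    obtain ⟨r, δ, hr, hδ, -, -, φ, hφ, hφ0, hφb⟩ :=
      local_branch (hbr ρ₁ hρ₁) (hs _ hρ₁ _ (hbr ρ₁ hρ₁)) one_pos
    have hcat : ContinuousAt b ρ₁ := hbc.continuousAt (hSo.mem_nhds hρ₁)
    have hev : b =ᶠ[𝓝 ρ₁] φ := by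
      filter_upwards [hcat (Metric.ball_mem_nhds _ hδ), Metric.ball_mem_nhds ρ₁ hr,
        hSo.mem_nhds hρ₁] with ρ h1 h2 h3
      exact ((hφb ρ h2).2 _ h1).mp (hbr ρ h3)
    have hd : DifferentiableAt ℂ φ ρ₁ :=
      (hφ ρ₁ (Metric.mem_ball_self hr)).differentiableAt (Metric.ball_mem_nhds _ hr)
    exact (hd.congr_of_eventuallyEq hev).differentiableWithinAt
  · rw [hb ρ₀ hρ₀, hF0]

end Pool.Agent.Lib.MP_95e7ec_an
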