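import Mathlib
import Pool.Agent.Lib.MP_95e7ec_an.Ry.RDefs
import Pool.Agent.Lib.MP_95e7ec_an.Ry.BrLift

/-!
# Ry, BrAll: all the branches of a polynomial with simple roots
-/

set_option autoImplicit false

open Set Filter Topology MeasureTheory Polynomial
open scoped ContDiff ENNReal Polynomial.Bivariate

namespace Pool.Agent.Lib.MP_95e7ec_an

theorem brAll_isOpen_strip {I : Set ℝ} (hI : IsOpen I) : IsOpen (strip I) :=
  hI.preimage Complex.continuous_re

theorem brAll_isPreconnected_strip {I : Set ℝ} (hI' : I.OrdConnected) :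
    IsPreconnected (strip I) := by
  have h : Convex ℝ (strip I) := hI'.convex.linear_preimage Complex.reLm
  exact h.isPreconnected

/-- two branches which are equal at one point are equal -/
theorem brAll_eqOn {A : ℂ[X][Y]} {I : Set ℝ} (hI : IsOpen I) (hI' : I.OrdConnected)
    (hs : ∀ ρ ∈ strip I, ∀ s : ℂ, A.evalEval (Complex.exp ρ) s = 0 →
      (derivative A).evalEval (Complex.exp ρ) s ≠ 0) {b₁ b₂ : ℂ → ℂ}
    (h₁ : DifferentiableOn ℂ b₁ (strip I)) (h₂ : DifferentiableOn ℂ b₂ (strip I))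
    (r₁ : ∀ ρ ∈ strip I, A.evalEval (Complex.exp ρ) (b₁ ρ) = 0)
    (r₂ : ∀ ρ ∈ strip I, A.evalEval (Complex.exp ρ) (b₂ ρ) = 0) {ρ₁ : ℂ} (hρ : ρ₁ ∈ strip I)
    (he : b₁ ρ₁ = b₂ ρ₁) : EqOn b₁ b₂ (strip I) := by
  have ho := brAll_isOpen_strip hI
  obtain ⟨r, δ, hr, hδ, -, -, φ, -, -, hφ⟩ :=
    local_branch (r₁ ρ₁ hρ) (hs ρ₁ hρ _ (r₁ ρ₁ hρ)) one_pos
  have key : ∀ b : ℂ → ℂ, DifferentiableOn ℂ b (strip I) →
      (∀ ρ ∈ strip I, A.evalEval (Complex.exp ρ) (b ρ) = 0) → b ρ₁ = b₁ ρ₁ →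
      ∀ᶠ ρ in 𝓝 ρ₁, b ρ = φ ρ := by
    intro b hb hr' hb1
    have hc : ContinuousAt b ρ₁ := (hb.differentiableAt (ho.mem_nhds hρ)).continuousAt
    have h1 : ∀ᶠ ρ in 𝓝 ρ₁, b ρ ∈ Metric.ball (b₁ ρ₁) δ := by
      apply hc.eventually_mem
      rw [hb1]
      exact Metric.ball_mem_nhds _ hδ
    filter_upwards [h1, ho.mem_nhds hρ, Metric.ball_mem_nhds ρ₁ hr] with ρ h2 h3 h4
    exact ((hφ ρ h4).2 _ h2).1 (hr' ρ h3)
  have e1 := key b₁ h₁ r₁ rfl
  have e2 := key b₂ h₂ r₂ he.symm
  refine (h₁.analyticOnNhd ho).eqOn_of_preconnected_of_eventuallyEq (h₂.analyticOnNhd ho)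
    (brAll_isPreconnected_strip hI') hρ ?_
  filter_upwards [e1, e2] with ρ h3 h4
  rw [h3, h4]

/-- Proof. Let `ρ₀ ∈ strip I` (`I` is not empty) and `A₀ = A.map (evalRingHom (exp ρ₀))`, of degree `d = natDegree A`
(`hlc`) with `d` different roots `s_0, .., s_{d-1}` (`hs`; `A₀.roots.Nodup`, `A₀.roots.card = d` because `ℂ` is
algebraically closed; `Polynomial.nodup_roots`, `Separable`, or a root of multiplicity at least `2` is a root of the
derivative). Take the branches `b j` of `exists_branch` with `b j ρ₀ = s_j`. Two branches which are equal at one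
point of the strip are equal on the strip: the set of the equality is closed in the strip and open by
`local_branch`, and the strip is preconnected. So the `b j ρ` are `d` different roots of
`A.map (evalRingHom (exp ρ))`, which has degree `d`: the product formula. -/
theorem branches_of_simple {A : ℂ[X][Y]} {I : Set ℝ} (hI : IsOpen I) (hI' : I.OrdConnected)
    (hne : I.Nonempty) (hlc : ∀ ρ ∈ strip I, A.leadingCoeff.eval (Complex.exp ρ) ≠ 0)
    (hs : ∀ ρ ∈ strip I, ∀ s : ℂ, A.evalEval (Complex.exp ρ) s = 0 →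
      (derivative A).evalEval (Complex.exp ρ) s ≠ 0) :
    ∃ b : Fin A.natDegree → ℂ → ℂ, Branches A I b := by
  obtain ⟨x, hx⟩ := hne
  have hρ₀ : (x : ℂ) ∈ strip I := by
    change (x : ℂ).re ∈ I
    rwa [Complex.ofReal_re]
  -- the specialised polynomials
  have hdeg : ∀ ρ ∈ strip I,
      (A.map (evalRingHom (Complex.exp ρ))).natDegree = A.natDegree := by
    intro ρ hρ
    exact natDegree_map_of_leadingCoeff_ne_zero _ (hlc ρ hρ)
  have hlead : ∀ ρ ∈ strip I,
      (A.map (evalRingHom (Complex.exp ρ))).leadingCoeff =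
        A.leadingCoeff.eval (Complex.exp ρ) := by
    intro ρ hρ
    exact leadingCoeff_map_of_leadingCoeff_ne_zero _ (hlc ρ hρ)
  have hne0 : ∀ ρ ∈ strip I, A.map (evalRingHom (Complex.exp ρ)) ≠ 0 := by
    intro ρ hρ h
    have h1 := hlead ρ hρ
    rw [h, leadingCoeff_zero] at h1
    exact hlc ρ hρ h1.symm
  have hcard : ∀ ρ ∈ strip I,
      (A.map (evalRingHom (Complex.exp ρ))).roots.card = A.natDegree := by
    intro ρ hρ
    rw [← hdeg ρ hρ]
    exact (IsAlgClosed.splits _).natDegree_eq_card_roots.symm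
  have hnodup : ∀ ρ ∈ strip I, (A.map (evalRingHom (Complex.exp ρ))).roots.Nodup := by
    intro ρ hρ
    rw [Multiset.nodup_iff_count_le_one]
    intro s
    rw [count_roots]
    by_contra hc
    push Not at hc
    obtain ⟨h1, h2⟩ := (one_lt_rootMultiplicity_iff_isRoot (hne0 ρ hρ)).1 hc
    rw [IsRoot, map_evalRingHom_eval] at h1
    rw [IsRoot, derivative_map, map_evalRingHom_eval] at h2
    exact hs ρ hρ s h1 h2
  -- the roots at the base point
  have hc0 : Fintype.card (Fin A.natDegree) =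
      Fintype.card {s // s ∈ (A.map (evalRingHom (Complex.exp (x : ℂ)))).roots.toFinset} := by
    rw [Fintype.card_fin, Fintype.card_coe, Multiset.toFinset_card_of_nodup (hnodup _ hρ₀),
      hcard _ hρ₀]
  obtain ⟨e⟩ := Fintype.card_eq.1 hc0
  have hroot : ∀ j, A.evalEval (Complex.exp (x : ℂ)) (e j : ℂ) = 0 := by
    intro j
    have h1 := (e j).2
    rw [Multiset.mem_toFinset, mem_roots (hne0 _ hρ₀), IsRoot, map_evalRingHom_eval] at h1
    exact h1
  choose b hb hb0 hbr using fun j => exists_branch hI hI' hlc hs hρ₀ (hroot j)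
  have hinj : ∀ ρ ∈ strip I, Function.Injective fun j => b j ρ := by
    intro ρ hρ i j hij
    have h1 := brAll_eqOn hI hI' hs (hb i) (hb j) (hbr i) (hbr j) hρ hij hρ₀
    rw [hb0, hb0] at h1
    exact e.injective (Subtype.ext h1)
  refine ⟨b, hb, fun ρ hρ => ?_⟩
  have hroots : (A.map (evalRingHom (Complex.exp ρ))).roots =
      (Finset.univ : Finset (Fin A.natDegree)).val.map fun j => b j ρ := by
    symm
    refine Multiset.eq_of_le_of_card_le ?_ ?_
    · rw [Multiset.le_iff_subset (Multiset.Nodup.map (hinj ρ hρ) Finset.univ.nodup)]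
      intro s hs'
      obtain ⟨j, -, rfl⟩ := Multiset.mem_map.1 hs'
      rw [mem_roots (hne0 ρ hρ), IsRoot, map_evalRingHom_eval]
      exact hbr j ρ hρ
    · rw [hcard ρ hρ, Multiset.card_map, Finset.card_val, Finset.card_univ, Fintype.card_fin]
  have h1 := C_leadingCoeff_mul_prod_multiset_X_sub_C
    (p := A.map (evalRingHom (Complex.exp ρ))) (by rw [hcard ρ hρ, hdeg ρ hρ])
  rw [hlead ρ hρ, hroots, Multiset.map_map] at h1
  rw [← h1]
  rfl

end Pool.Agent.Lib.MP_95e7ec_an
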