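import Mathlib
import Pool.Agent.Lib.MP_95e7ec_an.Ry.RDefs

/-!
# Ry, BrIrr: the discriminant of an irreducible polynomial
-/

set_option autoImplicit false

open Set Filter Topology MeasureTheory Polynomial
open scoped ContDiff ENNReal Polynomial.Bivariate

namespace Pool.Agent.Lib.MP_95e7ec_an

private theorem brIrr_det_deg {n : ℕ} (M : Matrix (Fin n) (Fin n) ℂ[X]) (e : ℕ)
    (h : ∀ i j, (M i j).natDegree ≤ e) : M.det.natDegree ≤ n * e := by
  rw [Matrix.det_apply]
  refine natDegree_sum_le_of_forall_le _ _ fun σ _ => ?_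
  have h1 : (∏ i, M (σ i) i).natDegree ≤ n * e := by
    refine (natDegree_prod_le _ _).trans ((Finset.sum_le_sum fun i _ => h (σ i) i).trans ?_)
    simp
  rcases Int.units_eq_one_or (Equiv.Perm.sign σ) with h2 | h2
  · rw [h2, one_smul]; exact h1
  · rw [h2, Units.neg_smul, one_smul, natDegree_neg]; exact h1

private theorem brIrr_ideg_derivative {Q : ℂ[X][Y]} {e : ℕ} (he : IDeg Q e) :
    IDeg (derivative Q) e := by
  intro k
  rw [coeff_derivative]
  refine (natDegree_mul_le).trans ?_
  have h1 : ((k : ℂ[X]) + 1).natDegree = 0 := by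
    rw [← Nat.cast_succ, natDegree_natCast]
  rw [h1, add_zero]
  exact he (k + 1)

private theorem brIrr_isCoprime {Q : ℂ[X][Y]} (hQ : Irreducible Q) (hd : 0 < Q.natDegree) :
    IsCoprime (Q.map (algebraMap ℂ[X] (FractionRing ℂ[X])))
      ((derivative Q).map (algebraMap ℂ[X] (FractionRing ℂ[X]))) := by
  have hp : Q.IsPrimitive := hQ.isPrimitive hd.ne'
  have h1 : Irreducible (Q.map (algebraMap ℂ[X] (FractionRing ℂ[X]))) :=
    (hp.irreducible_iff_irreducible_map_fraction_map).1 hQ
  have : CharZero (FractionRing ℂ[X]) :=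
    charZero_of_injective_algebraMap (IsFractionRing.injective ℂ[X] (FractionRing ℂ[X]))
  have h2 := h1.separable
  rw [Polynomial.Separable, derivative_map] at h2
  exact h2

/-- Proof. `δ = resultant Q (derivative Q) (natDegree Q) (natDegree Q - 1) : ℂ[X]`.
`Polynomial.exists_mul_add_mul_eq_C_resultant`: `Q p + Q' q = C δ`, evaluate at `(r,s)`. Degree: a determinant of size
`2 natDegree Q - 1 ≤ 2N` with entries of degree at most `e`. `δ ≠ 0`: over `K = FractionRing ℂ[X]` the polynomial `Q` stays
irreducible (`Polynomial.IsPrimitive.irreducible_iff_irreducible_map_fraction_map`, `Irreducible.isPrimitive`), so it is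
separable (characteristic 0: `Irreducible.separable`), i.e. coprime to its derivative, and
`Polynomial.resultant_eq_zero_iff`, `resultant_map_map`. -/
theorem irr_disc {Q : ℂ[X][Y]} (hQ : Irreducible Q) (hd : 0 < Q.natDegree) {N e : ℕ}
    (hN : Q.natDegree ≤ N) (he : IDeg Q e) :
    ∃ δ : ℂ[X], δ ≠ 0 ∧ δ.natDegree ≤ 2 * N * e ∧
      ∀ r s : ℂ, Q.evalEval r s = 0 → (derivative Q).evalEval r s = 0 → δ.eval r = 0 := by
  have hinj := IsFractionRing.injective ℂ[X] (FractionRing ℂ[X])
  refine ⟨resultant Q (derivative Q) Q.natDegree (derivative Q).natDegree, ?_, ?_, ?_⟩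
  · intro h0
    have h1 := resultant_map_map Q (derivative Q) Q.natDegree (derivative Q).natDegree
      (algebraMap ℂ[X] (FractionRing ℂ[X]))
    rw [h0, map_zero] at h1
    have h2 := resultant_ne_zero _ _ (brIrr_isCoprime hQ hd)
    rw [natDegree_map_eq_of_injective hinj, natDegree_map_eq_of_injective hinj] at h2
    exact h2 h1
  · have hle : (derivative Q).natDegree ≤ N := (natDegree_derivative_le Q).trans
      ((Nat.sub_le _ _).trans hN)
    refine (brIrr_det_deg _ e fun i j => ?_).trans (Nat.mul_le_mul_right e (by omega))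
    rw [sylvester, Matrix.of_apply]
    refine Fin.addCases (fun j1 => ?_) (fun j1 => ?_) j
    · rw [Fin.addCases_left]
      split_ifs
      · exact brIrr_ideg_derivative he _
      · simp
    · rw [Fin.addCases_right]
      split_ifs
      · exact he _
      · simp
  · intro r s h1 h2
    obtain ⟨p, q, -, -, h3⟩ := exists_mul_add_mul_eq_C_resultant Q (derivative Q)
      (m := Q.natDegree) (n := (derivative Q).natDegree) le_rfl le_rfl (Or.inl hd.ne')
    have h4 := congrArg (fun P : ℂ[X][Y] => P.evalEval r s) h3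
    simp only [evalEval_add, evalEval_mul, h1, h2, zero_mul, add_zero, evalEval_C] at h4
    exact h4.symm

end Pool.Agent.Lib.MP_95e7ec_an
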