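import Mathlib
import Pool.Agent.Lib.MP_95e7ec_an.Ry.RDefs

/-!
# Ry, BrProd: the branches of a product
-/

set_option autoImplicit false

open Set Filter Topology MeasureTheory Polynomial
open scoped ContDiff ENNReal Polynomial.Bivariate

namespace Pool.Agent.Lib.MP_95e7ec_an

/-- Proof. `natDegree A = 0`: `A = C a`, no roots. -/
theorem branches_const {A : ℂ[X][Y]} (hA : A.natDegree = 0) (I : Set ℝ) :
    ∃ b : Fin A.natDegree → ℂ → ℂ, Branches A I b := by
  obtain ⟨a, rfl⟩ : ∃ a, A = C a := ⟨A.coeff 0, eq_C_of_natDegree_eq_zero hA⟩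
  have : IsEmpty (Fin (C a : ℂ[X][Y]).natDegree) := by
    rw [hA]; infer_instance
  refine ⟨fun j => isEmptyElim j, ⟨fun j => isEmptyElim j, fun ρ _ => ?_⟩⟩
  rw [Finset.univ_eq_empty, Finset.prod_empty, mul_one, leadingCoeff_C, map_C]
  rfl

/-- Proof. `Fin.append`, with casts `natDegree (A*B) = natDegree A + natDegree B` (`natDegree_mul`);
`leadingCoeff_mul`, `Fin.prod_univ_add`. -/
theorem branches_mul {A B : ℂ[X][Y]} (hA : A ≠ 0) (hB : B ≠ 0) {I : Set ℝ}
    (h1 : ∃ b : Fin A.natDegree → ℂ → ℂ, Branches A I b)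
    (h2 : ∃ b : Fin B.natDegree → ℂ → ℂ, Branches B I b) :
    ∃ b : Fin (A * B).natDegree → ℂ → ℂ, Branches (A * B) I b := by
  obtain ⟨b1, hb1⟩ := h1
  obtain ⟨b2, hb2⟩ := h2
  have hd : (A * B).natDegree = A.natDegree + B.natDegree := natDegree_mul hA hB
  rw [hd]
  refine ⟨Fin.append b1 b2, ⟨fun j => ?_, fun ρ hρ => ?_⟩⟩
  · refine Fin.addCases (fun i => ?_) (fun i => ?_) j
    · rw [Fin.append_left]; exact hb1.hol i
    · rw [Fin.append_right]; exact hb2.hol i
  · rw [Polynomial.map_mul, hb1.fac ρ hρ, hb2.fac ρ hρ, leadingCoeff_mul, eval_mul, C_mul,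
      Fin.prod_univ_add]
    simp only [Fin.append_left, Fin.append_right]
    ring

end Pool.Agent.Lib.MP_95e7ec_an
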