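import Mathlib
import Pool.Agent.Lib.MP_95e7ec_an.Ry.RDefs

/-!
# Ry, CenVar: the variation of the logarithm of a polynomial in e^ρ away from its centres
-/

set_option autoImplicit false

open Set Filter Topology MeasureTheory Polynomial
open scoped ContDiff ENNReal Polynomial.Bivariate

namespace Pool.Agent.Lib.MP_95e7ec_an

theorem cen1_card (a : ℂ[X]) : (cen1 a).card ≤ a.natDegree := by
  classical
  unfold cen1
  calc _ ≤ (a.roots.toFinset.filter fun r => r ≠ 0).card := Finset.card_image_le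
    _ ≤ a.roots.toFinset.card := Finset.card_filter_le _ _
    _ ≤ Multiset.card a.roots := Multiset.toFinset_card_le _
    _ ≤ a.natDegree := Polynomial.card_roots' a

/-- Proof. `Finset.card_biUnion_le`, `cen1_card`, and `A.support ⊆ range (natDegree A + 1)`. -/
theorem cen_card {A : ℂ[X][Y]} {N e : ℕ} (hN : A.natDegree ≤ N) (he : IDeg A e) :
    (cen A).card ≤ (N + 1) * e := by
  classical
  unfold cen
  calc _ ≤ ∑ k ∈ A.support, (cen1 (A.coeff k)).card := Finset.card_biUnion_le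
    _ ≤ ∑ _k ∈ A.support, e := Finset.sum_le_sum fun k _ => (cen1_card _).trans (he k)
    _ = A.support.card * e := by rw [Finset.sum_const, smul_eq_mul]
    _ ≤ (N + 1) * e := by
        refine Nat.mul_le_mul_right e ?_
        have h1 : A.support ⊆ Finset.range (A.natDegree + 1) := Polynomial.supp_subset_range_natDegree_succ
        have h2 := Finset.card_le_card h1
        rw [Finset.card_range] at h2
        omega

/-- Proof. If `a.eval (exp ρ) = 0` then `exp ρ ≠ 0` is a root and `log ‖exp ρ‖ = ρ.re ∈ cen1 a`. -/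
theorem eval_exp_ne {a : ℂ[X]} (ha : a ≠ 0) {ρ : ℂ} (h : ∀ u ∈ cen1 a, ρ.re ≠ u) :
    a.eval (Complex.exp ρ) ≠ 0 := by
  classical
  intro h0
  refine h ρ.re ?_ rfl
  unfold cen1
  rw [Finset.mem_image]
  refine ⟨Complex.exp ρ, ?_, ?_⟩
  · rw [Finset.mem_filter, Multiset.mem_toFinset, Polynomial.mem_roots ha]
    exact ⟨h0, Complex.exp_ne_zero ρ⟩
  · rw [Complex.norm_exp, Real.log_exp]

private theorem cenVar_near {z r : ℂ} {s : ℝ} (hz : ‖z‖ = Real.exp s)
    (hr : ‖r‖ ≤ Real.exp (s - 1)) : z - r ≠ 0 ∧ |Real.log ‖z - r‖ - s| ≤ Real.log 2 := by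
  have h2 : (2 : ℝ) ≤ Real.exp 1 := by
    have := Real.add_one_le_exp (1 : ℝ)
    linarith
  have h3 : Real.exp (s - 1) ≤ Real.exp s / 2 := by
    rw [Real.exp_sub]
    exact div_le_div_of_nonneg_left (Real.exp_pos s).le two_pos h2
  have hs := Real.exp_pos s
  have h4 : Real.exp s / 2 ≤ ‖z - r‖ := by
    have := norm_sub_norm_le z r
    linarith
  have h5 : ‖z - r‖ ≤ 2 * Real.exp s := by
    have := norm_sub_le z r
    linarith
  have h6 : 0 < ‖z - r‖ := by linarith
  refine ⟨norm_pos_iff.1 h6, ?_⟩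
  rw [abs_le]
  constructor
  · have h7 := Real.log_le_log (by positivity) h4
    rw [Real.log_div hs.ne' two_ne_zero, Real.log_exp] at h7
    linarith
  · have h7 := Real.log_le_log h6 h5
    rw [Real.log_mul two_ne_zero hs.ne', Real.log_exp] at h7
    linarith

private theorem cenVar_term {r ρ : ℂ} {x : ℝ} (hr : r ≠ 0 → 2 ≤ |x - Real.log ‖r‖|)
    (hρ : ρ ∈ Metric.ball (x : ℂ) 1) :
    Complex.exp ρ - r ≠ 0 ∧ Complex.exp x - r ≠ 0 ∧
      |Real.log ‖Complex.exp ρ - r‖ - Real.log ‖Complex.exp x - r‖| ≤ 3 := by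
  have hy : |ρ.re - x| < 1 := by
    have h1 := Complex.abs_re_le_norm (ρ - x)
    rw [Metric.mem_ball, Complex.dist_eq] at hρ
    rw [Complex.sub_re, Complex.ofReal_re] at h1
    linarith
  have hx1 : ‖Complex.exp (x : ℂ)‖ = Real.exp x := by
    rw [Complex.norm_exp, Complex.ofReal_re]
  have hy1 : ‖Complex.exp ρ‖ = Real.exp ρ.re := Complex.norm_exp ρ
  have hl := Real.log_two_lt_d9
  rw [abs_lt] at hy
  by_cases h0 : r = 0
  · subst h0
    rw [sub_zero, sub_zero, hx1, hy1, Real.log_exp, Real.log_exp, abs_le]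
    exact ⟨Complex.exp_ne_zero _, Complex.exp_ne_zero _, by linarith, by linarith⟩
  · have hu := hr h0
    have hr1 : ‖r‖ = Real.exp (Real.log ‖r‖) := (Real.exp_log (norm_pos_iff.2 h0)).symm
    set u := Real.log ‖r‖ with hudef
    rcases le_abs.1 hu with h | h
    · obtain ⟨a1, a2⟩ := cenVar_near (z := Complex.exp ρ) (r := r) hy1
        (by rw [hr1]; exact Real.exp_le_exp.2 (by linarith))
      obtain ⟨b1, b2⟩ := cenVar_near (z := Complex.exp x) (r := r) hx1
        (by rw [hr1]; exact Real.exp_le_exp.2 (by linarith))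
      refine ⟨a1, b1, ?_⟩
      rw [abs_le] at a2 b2 ⊢
      constructor <;> linarith [a2.1, a2.2, b2.1, b2.2]
    · obtain ⟨a1, a2⟩ := cenVar_near (z := r) (r := Complex.exp ρ) hr1
        (by rw [hy1]; exact Real.exp_le_exp.2 (by linarith))
      obtain ⟨b1, b2⟩ := cenVar_near (z := r) (r := Complex.exp x) hr1
        (by rw [hx1]; exact Real.exp_le_exp.2 (by linarith))
      rw [norm_sub_rev] at a2 b2
      refine ⟨fun h => a1 ?_, fun h => b1 ?_, ?_⟩
      · rw [← neg_sub, h, neg_zero]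
      · rw [← neg_sub, h, neg_zero]
      rw [abs_le] at a2 b2 ⊢
      constructor <;> linarith [a2.1, a2.2, b2.1, b2.2]

private theorem cenVar_prod (s : Multiset ℂ) {z w : ℂ} (h : ∀ r ∈ s, z - r ≠ 0 ∧ w - r ≠ 0 ∧
      |Real.log ‖z - r‖ - Real.log ‖w - r‖| ≤ 3) :
    (s.map fun r => z - r).prod ≠ 0 ∧ (s.map fun r => w - r).prod ≠ 0 ∧
      |Real.log ‖(s.map fun r => z - r).prod‖ - Real.log ‖(s.map fun r => w - r).prod‖| ≤
        3 * (Multiset.card s : ℝ) := by
  induction s using Multiset.induction_on with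
  | empty => simp
  | cons r s ih =>
    obtain ⟨a1, a2, a3⟩ := h r (Multiset.mem_cons_self r s)
    obtain ⟨b1, b2, b3⟩ := ih fun q hq => h q (Multiset.mem_cons_of_mem hq)
    rw [Multiset.map_cons, Multiset.prod_cons, Multiset.map_cons, Multiset.prod_cons]
    refine ⟨mul_ne_zero a1 b1, mul_ne_zero a2 b2, ?_⟩
    rw [norm_mul, norm_mul, Real.log_mul (norm_ne_zero_iff.2 a1) (norm_ne_zero_iff.2 b1),
      Real.log_mul (norm_ne_zero_iff.2 a2) (norm_ne_zero_iff.2 b2), Multiset.card_cons]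
    push_cast
    rw [abs_le] at a3 b3 ⊢
    constructor <;> linarith [a3.1, a3.2, b3.1, b3.2]

/-- Proof. `a = C lc * ∏ (X - C r)` over the roots (`ℂ` is algebraically closed), so
`log ‖a(e^ρ)‖ = log ‖lc‖ + ∑ log ‖e^ρ - r‖`. For a root `r = 0` the term is `ρ.re`, which differs from `x` by at
most `1`. For `r ≠ 0` let `u = log ‖r‖`; `|ρ.re - x| < 1`, so `|ρ.re - u| ≥ 1` and `ρ.re - u`, `x - u` have the
same sign. With `M(y) = max (exp y) ‖r‖`: `(1 - e⁻¹) M ≤ ‖e^ρ - r‖ ≤ 2 M` (`M = M(ρ.re)`; the smaller one of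
`exp ρ.re`, `‖r‖` is at most `e⁻¹ M`), the same at `x`, and `|log M(ρ.re) - log M(x)| ≤ 1`. So the terms differ by
at most `1 + log (2/(1 - e⁻¹)) ≤ 1 + log 4 ≤ 3` (`1 - e⁻¹ ≥ 1/2`). The number of the roots is `natDegree a`. -/
theorem log_var {a : ℂ[X]} (ha : a ≠ 0) {x : ℝ} (hx : ∀ u ∈ cen1 a, 2 ≤ |x - u|) {ρ : ℂ}
    (hρ : ρ ∈ Metric.ball (x : ℂ) 1) :
    a.eval (Complex.exp ρ) ≠ 0 ∧
      |Real.log ‖a.eval (Complex.exp ρ)‖ - Real.log ‖a.eval (Complex.exp x)‖| ≤
        3 * a.natDegree := by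
  classical
  have hs : a.Splits := IsAlgClosed.splits a
  have hlc : a.leadingCoeff ≠ 0 := leadingCoeff_ne_zero.2 ha
  obtain ⟨h1, h2, h3⟩ := cenVar_prod a.roots (z := Complex.exp ρ) (w := Complex.exp x)
    fun r hr => cenVar_term (fun h0 => hx _ (by
      unfold cen1
      rw [Finset.mem_image]
      exact ⟨r, Finset.mem_filter.2 ⟨Multiset.mem_toFinset.2 hr, h0⟩, rfl⟩)) hρ
  rw [hs.eval_eq_prod_roots, hs.eval_eq_prod_roots]
  refine ⟨mul_ne_zero hlc h1, ?_⟩
  rw [norm_mul, norm_mul, Real.log_mul (norm_ne_zero_iff.2 hlc) (norm_ne_zero_iff.2 h1),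
    Real.log_mul (norm_ne_zero_iff.2 hlc) (norm_ne_zero_iff.2 h2), add_sub_add_left_eq_sub]
  refine h3.trans ?_
  have h4 : (Multiset.card a.roots : ℝ) ≤ a.natDegree := by exact_mod_cast Polynomial.card_roots' a
  linarith

end Pool.Agent.Lib.MP_95e7ec_an
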