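import Mathlib
import Pool.Agent.Lib.MP_95e7ec_an.Ry.RDefs

/-!
# Ry, InnerDeg: the inner degree
-/

set_option autoImplicit false

open Set Filter Topology MeasureTheory Polynomial
open scoped ContDiff ENNReal Polynomial.Bivariate

namespace Pool.Agent.Lib.MP_95e7ec_an

private theorem id_swap (A : ℂ[X][Y]) (i k : ℕ) :
    ((Polynomial.Bivariate.swap A).coeff i).coeff k = (A.coeff k).coeff i := by
  induction A using Polynomial.induction_on' with
  | add p q hp hq => simp [hp, hq]
  | monomial n f =>
    induction f using Polynomial.induction_on' with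
    | add p q hp hq => simp only [map_add, coeff_add, hp, hq]
    | monomial m r =>
      rw [Polynomial.Bivariate.swap_monomial_monomial]
      simp only [coeff_monomial]
      by_cases h1 : m = i <;> by_cases h2 : n = k <;> simp [h1, h2, coeff_monomial]

/-- Proof. `(swap A).coeff i` has the coefficients `(A.coeff k).coeff i` (`Polynomial.Bivariate.swap` exchanges the
two variables: `coeff_coeff_swap`, or prove it by induction with `swap_monomial_monomial`). -/
theorem ideg_iff {A : ℂ[X][Y]} {e : ℕ} :
    IDeg A e ↔ (Polynomial.Bivariate.swap A).natDegree ≤ e := by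
  rw [natDegree_le_iff_coeff_eq_zero]
  constructor
  · intro h N hN
    ext k
    rw [id_swap, coeff_zero]
    exact coeff_eq_zero_of_natDegree_lt (lt_of_le_of_lt (h k) hN)
  · intro h k
    rw [natDegree_le_iff_coeff_eq_zero]
    intro N hN
    rw [← id_swap, h N hN, coeff_zero]

theorem coeff_homc (A : ℂ[X][Y]) (i k : ℕ) : (homc A i).coeff k = (A.coeff k).coeff i :=
  id_swap A i k

theorem IDeg.mul {A B : ℂ[X][Y]} {e e' : ℕ} (hA : IDeg A e) (hB : IDeg B e') :
    IDeg (A * B) (e + e') := by
  rw [ideg_iff] at hA hB ⊢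
  rw [map_mul]
  exact natDegree_mul_le.trans (add_le_add hA hB)

private theorem id_ne {A : ℂ[X][Y]} (hA : A ≠ 0) : Polynomial.Bivariate.swap A ≠ 0 := by
  intro h
  apply hA
  exact (map_eq_zero_iff _ (Polynomial.Bivariate.swap (R := ℂ)).injective).1 h

/-- Proof. `ideg_iff`, `swap Q ∣ swap A`, `natDegree_le_of_dvd`. -/
theorem IDeg.of_dvd {A Q : ℂ[X][Y]} (hA : A ≠ 0) (h : Q ∣ A) {e : ℕ} (he : IDeg A e) :
    IDeg Q e := by
  rw [ideg_iff] at he ⊢
  exact (natDegree_le_of_dvd (map_dvd (Polynomial.Bivariate.swap (R := ℂ)) h) (id_ne hA)).trans he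

private theorem id_irr {Q : ℂ[X][Y]} (hQ : Irreducible Q) :
    1 ≤ Q.natDegree + (Polynomial.Bivariate.swap Q).natDegree := by
  by_contra hcon
  have h1 : Q.natDegree = 0 := by omega
  have h2 : (Polynomial.Bivariate.swap Q).natDegree = 0 := by omega
  have h3 : IDeg Q 0 := ideg_iff.2 h2.le
  have h4 : Q = C (C ((Q.coeff 0).coeff 0)) := by
    rw [← eq_C_of_natDegree_eq_zero (Nat.le_zero.1 (h3 0)), ← eq_C_of_natDegree_eq_zero h1]
  have h5 : (Q.coeff 0).coeff 0 ≠ 0 := by
    intro h0
    rw [h0, map_zero, map_zero] at h4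
    exact hQ.ne_zero h4
  apply hQ.not_isUnit
  rw [h4]
  exact (IsUnit.mk0 _ h5).map (C : ℂ →+* ℂ[X]) |>.map (C : ℂ[X] →+* ℂ[X][Y])

private theorem id_card (f : Multiset ℂ[X][Y]) (hf : ∀ Q ∈ f, Irreducible Q) :
    Multiset.card f ≤ f.prod.natDegree + (Polynomial.Bivariate.swap f.prod).natDegree := by
  induction f using Multiset.induction with
  | empty => simp
  | cons Q f ih =>
    have h1 := ih fun R hR => hf R (Multiset.mem_cons_of_mem hR)
    have h2 := id_irr (hf Q (Multiset.mem_cons_self Q f))
    have hQ0 : Q ≠ 0 := (hf Q (Multiset.mem_cons_self Q f)).ne_zero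
    have hf0 : f.prod ≠ 0 := by
      intro h
      rw [Multiset.prod_eq_zero_iff] at h
      exact (hf 0 (Multiset.mem_cons_of_mem h)).ne_zero rfl
    rw [Multiset.prod_cons, map_mul, natDegree_mul hQ0 hf0, natDegree_mul (id_ne hQ0) (id_ne hf0),
      Multiset.card_cons]
    omega

/-- Proof. By induction on the multiset: the degrees of the product are the sums of the degrees (`natDegree_mul`,
and the same for `swap`); an irreducible polynomial is not a constant, so one of its two degrees is positive. -/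
theorem card_factors_le (f : Multiset ℂ[X][Y]) (hf : ∀ Q ∈ f, Irreducible Q) {A : ℂ[X][Y]}
    (hA : A ≠ 0) (h : f.prod ∣ A) {N e : ℕ} (hN : A.natDegree ≤ N) (he : IDeg A e) :
    Multiset.card f ≤ N + e := by
  have h1 := id_card f hf
  have h2 := natDegree_le_of_dvd h hA
  have h3 := ideg_iff.1 (he.of_dvd hA h)
  omega

end Pool.Agent.Lib.MP_95e7ec_an
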