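import Mathlib
import Pool.Agent.Lib.MP_95e7ec_an.Ry.RDefs
import Pool.Agent.Lib.MP_95e7ec_an.Ry.CenVar
import Pool.Agent.Lib.MP_95e7ec_an.Ry.InnerDeg
import Pool.Agent.Lib.MP_95e7ec_an.Ry.BrAll
import Pool.Agent.Lib.MP_95e7ec_an.Ry.BrIrr
import Pool.Agent.Lib.MP_95e7ec_an.Ry.BrProd

/-!
# Ry, BrMain: the branches of every polynomial
-/

set_option autoImplicit false

open Set Filter Topology MeasureTheory Polynomial
open scoped ContDiff ENNReal Polynomial.Bivariate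

namespace Pool.Agent.Lib.MP_95e7ec_an

private theorem brMain_irr {Q : ℂ[X][Y]} (hQ : Irreducible Q) {N e : ℕ}
    (hN : Q.natDegree ≤ N) (he : IDeg Q e) : ∃ U : Finset ℝ, U.card ≤ 2 * N * e + e ∧
      ∀ I : Set ℝ, IsOpen I → I.OrdConnected → I.Nonempty → (∀ x ∈ I, ∀ u ∈ U, x ≠ u) →
        ∃ b : Fin Q.natDegree → ℂ → ℂ, Branches Q I b := by
  classical
  rcases Nat.eq_zero_or_pos Q.natDegree with hd | hd
  · exact ⟨∅, by simp, fun I _ _ _ _ => branches_const hd I⟩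
  · obtain ⟨δ, hδ, hδd, hδe⟩ := irr_disc hQ hd hN he
    refine ⟨cen1 δ ∪ cen1 Q.leadingCoeff, ?_, ?_⟩
    · refine (Finset.card_union_le _ _).trans (add_le_add ((cen1_card δ).trans hδd) ?_)
      exact (cen1_card _).trans (he _)
    · intro I hI hI' hne hU
      have h1 : ∀ ρ ∈ strip I, δ.eval (Complex.exp ρ) ≠ 0 := fun ρ hρ =>
        eval_exp_ne hδ fun u hu => hU ρ.re hρ u (Finset.mem_union_left _ hu)
      have h2 : ∀ ρ ∈ strip I, Q.leadingCoeff.eval (Complex.exp ρ) ≠ 0 := fun ρ hρ =>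
        eval_exp_ne (leadingCoeff_ne_zero.2 hQ.ne_zero) fun u hu =>
          hU ρ.re hρ u (Finset.mem_union_right _ hu)
      exact branches_of_simple hI hI' hne h2 fun ρ hρ s hs hs' => h1 ρ hρ (hδe _ _ hs hs')

private theorem brMain_prod (f : Multiset ℂ[X][Y]) (D : ℕ)
    (hf : ∀ Q ∈ f, Q ≠ 0 ∧ ∃ U : Finset ℝ, U.card ≤ D ∧
      ∀ I : Set ℝ, IsOpen I → I.OrdConnected → I.Nonempty → (∀ x ∈ I, ∀ u ∈ U, x ≠ u) →
        ∃ b : Fin Q.natDegree → ℂ → ℂ, Branches Q I b) :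
    f.prod ≠ 0 ∧ ∃ U : Finset ℝ, U.card ≤ Multiset.card f * D ∧
      ∀ I : Set ℝ, IsOpen I → I.OrdConnected → I.Nonempty → (∀ x ∈ I, ∀ u ∈ U, x ≠ u) →
        ∃ b : Fin f.prod.natDegree → ℂ → ℂ, Branches f.prod I b := by
  classical
  induction f using Multiset.induction_on with
  | empty =>
    rw [Multiset.prod_zero]
    exact ⟨one_ne_zero, ∅, by simp, fun I _ _ _ _ => branches_const natDegree_one I⟩
  | cons Q f ih =>
    obtain ⟨hQ0, UQ, hUQ, hQ⟩ := hf Q (Multiset.mem_cons_self Q f)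
    obtain ⟨hf0, Uf, hUf, hfb⟩ := ih fun P hP => hf P (Multiset.mem_cons_of_mem hP)
    rw [Multiset.prod_cons]
    refine ⟨mul_ne_zero hQ0 hf0, UQ ∪ Uf, ?_, ?_⟩
    · refine (Finset.card_union_le _ _).trans ?_
      rw [Multiset.card_cons, Nat.add_mul, one_mul]
      omega
    · intro I hI hI' hne hU
      exact branches_mul hQ0 hf0
        (hQ I hI hI' hne fun x hx u hu => hU x hx u (Finset.mem_union_left _ hu))
        (hfb I hI hI' hne fun x hx u hu => hU x hx u (Finset.mem_union_right _ hu))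

/-- Proof. `WfDvdMonoid.exists_factors` (or `UniqueFactorizationMonoid`): a multiset `f` of irreducible polynomials with
`Associated f.prod A`. For `Q ∈ f` with positive degree take `δ_Q` from `irr_disc` (`IDeg.of_dvd`), and
`U = ⋃_Q cen1 δ_Q ∪ cen1 (leadingCoeff Q)`: at most `card f * (2Ne + e)` points, `card f ≤ N + e` (`card_factors_le`).
If no point of `I` is in `U` then for `ρ ∈ strip I` the leading coefficient of `Q` and `δ_Q` are not `0` at `exp ρ`
(`eval_exp_ne`), so `branches_of_simple` applies to `Q` (`branches_const` if the degree is `0`). Induction over the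
multiset with `branches_mul`; a unit is a constant. -/
theorem exists_branches {A : ℂ[X][Y]} (hA : A ≠ 0) {N e : ℕ} (hN : A.natDegree ≤ N)
    (he : IDeg A e) : ∃ U : Finset ℝ, U.card ≤ (N + e) * (2 * N * e + e) ∧
      ∀ I : Set ℝ, IsOpen I → I.OrdConnected → I.Nonempty → (∀ x ∈ I, ∀ u ∈ U, x ≠ u) →
        ∃ b : Fin A.natDegree → ℂ → ℂ, Branches A I b := by
  obtain ⟨f, hf, u, hu⟩ := WfDvdMonoid.exists_factors A hA
  have hdvd : f.prod ∣ A := ⟨u, hu.symm⟩
  have hcard := card_factors_le f hf hA hdvd hN he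
  have hQ : ∀ Q ∈ f, Q ≠ 0 ∧ ∃ U : Finset ℝ, U.card ≤ 2 * N * e + e ∧
      ∀ I : Set ℝ, IsOpen I → I.OrdConnected → I.Nonempty → (∀ x ∈ I, ∀ u ∈ U, x ≠ u) →
        ∃ b : Fin Q.natDegree → ℂ → ℂ, Branches Q I b := by
    intro Q hQf
    have hQA : Q ∣ A := (Multiset.dvd_prod hQf).trans hdvd
    exact ⟨(hf Q hQf).ne_zero, brMain_irr (hf Q hQf)
      ((natDegree_le_of_dvd hQA hA).trans hN) (IDeg.of_dvd hA hQA he)⟩
  obtain ⟨hf0, U, hU, hb⟩ := brMain_prod f _ hQ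
  refine ⟨U, hU.trans (Nat.mul_le_mul_right _ hcard), ?_⟩
  intro I hI hI' hne hx
  have hu0 : ((u : (ℂ[X][Y])ˣ) : ℂ[X][Y]).natDegree = 0 := natDegree_coe_units u
  have h := branches_mul hf0 u.ne_zero (hb I hI hI' hne hx) (branches_const hu0 I)
  rw [hu] at h
  exact h

end Pool.Agent.Lib.MP_95e7ec_an
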