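import Mathlib
import Pool.Agent.Lib.MP_95e7ec_an.Ry.RDefs

/-!
# Ry, Cover1: a connected set of reals which is covered by finitely many intervals
-/

set_option autoImplicit false

open Set Filter Topology MeasureTheory Polynomial
open scoped ContDiff ENNReal Polynomial.Bivariate

namespace Pool.Agent.Lib.MP_95e7ec_an

/-- Proof. Let `x < y` (symmetric). `Icc x y ⊆ S ⊆ ⋃ i ∈ T, Icc (c i - w i) (c i + w i)`, so
`ENNReal.ofReal (y - x) = volume (Icc x y) ≤ ∑ i ∈ T, volume (Icc ..) = ∑ i ∈ T, ofReal (2 * w i)`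
(`measure_mono`, `measure_biUnion_finset_le`, `Real.volume_Icc`), and `ENNReal.ofReal_sum_of_nonneg`. -/
theorem connected_cover {S : Set ℝ} (hS : S.OrdConnected) {ι : Type*} (T : Finset ι)
    (c w : ι → ℝ) (hw : ∀ i ∈ T, 0 ≤ w i)
    (h : S ⊆ ⋃ i ∈ T, Icc (c i - w i) (c i + w i)) {x y : ℝ} (hx : x ∈ S) (hy : y ∈ S) :
    |x - y| ≤ ∑ i ∈ T, 2 * w i := by
  have key : ∀ x y : ℝ, x ∈ S → y ∈ S → x ≤ y → y - x ≤ ∑ i ∈ T, 2 * w i := by
    intro x y hx hy hxy
    have h1 : Icc x y ⊆ ⋃ i ∈ T, Icc (c i - w i) (c i + w i) := (hS.out hx hy).trans h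
    have h2 : volume (Icc x y) ≤ ∑ i ∈ T, volume (Icc (c i - w i) (c i + w i)) :=
      (measure_mono h1).trans (measure_biUnion_finset_le T _)
    have h3 : ∀ i ∈ T, volume (Icc (c i - w i) (c i + w i)) = ENNReal.ofReal (2 * w i) := by
      intro i _
      rw [Real.volume_Icc]
      congr 1
      ring
    rw [Finset.sum_congr rfl h3, Real.volume_Icc,
      ← ENNReal.ofReal_sum_of_nonneg (fun i hi => mul_nonneg zero_le_two (hw i hi))] at h2
    exact (ENNReal.ofReal_le_ofReal_iff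
      (Finset.sum_nonneg fun i hi => mul_nonneg zero_le_two (hw i hi))).mp h2
  rcases le_total x y with hxy | hxy
  · rw [abs_sub_comm, abs_of_nonneg (sub_nonneg.mpr hxy)]
    exact key x y hx hy hxy
  · rw [abs_of_nonneg (sub_nonneg.mpr hxy)]
    exact key y x hy hx hxy

end Pool.Agent.Lib.MP_95e7ec_an
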