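import Mathlib
import Pool.Agent.Lib.MP_95e7ec_an.Ry.RDefs
import Pool.Agent.Lib.MP_95e7ec_an.Ry.Cover1
import Pool.Agent.Lib.MP_95e7ec_an.Ry.CenVar

/-!
# Ry, TwoTerm: the two-term argument
-/

set_option autoImplicit false

open Set Filter Topology MeasureTheory Polynomial
open scoped ContDiff ENNReal Polynomial.Bivariate

namespace Pool.Agent.Lib.MP_95e7ec_an

/-- Two terms of a vanishing sum are comparable: Proof: let `k` be an index with the largest
`‖f k‖ > 0`; `‖f k‖ ≤ ∑_{j ≠ k} ‖f j‖ ≤ N * max`. -/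
theorem two_large {N : ℕ} (f : Fin (N + 1) → ℂ) (h : ∑ k, f k = 0) (hne : ∃ k, f k ≠ 0) :
    ∃ j k, j ≠ k ∧ f j ≠ 0 ∧ f k ≠ 0 ∧ ‖f k‖ ≤ N * ‖f j‖ ∧ ‖f j‖ ≤ ‖f k‖ := by
  obtain ⟨k, -, hk⟩ := Finset.exists_max_image Finset.univ (fun k => ‖f k‖)
    Finset.univ_nonempty
  obtain ⟨k0, hk0⟩ := hne
  have hkpos : 0 < ‖f k‖ := lt_of_lt_of_le (norm_pos_iff.2 hk0) (hk k0 (Finset.mem_univ _))
  have hsum : f k + ∑ j ∈ Finset.univ.erase k, f j = 0 := by
    rw [Finset.add_sum_erase _ _ (Finset.mem_univ k)]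
    exact h
  have hle : ‖f k‖ ≤ ∑ j ∈ Finset.univ.erase k, ‖f j‖ := by
    have h1 : f k = -∑ j ∈ Finset.univ.erase k, f j := eq_neg_of_add_eq_zero_left hsum
    calc ‖f k‖ = ‖∑ j ∈ Finset.univ.erase k, f j‖ := by
          conv_lhs => rw [h1]
          rw [norm_neg]
      _ ≤ _ := norm_sum_le _ _
  have hcard : (Finset.univ.erase k).card = N := by
    rw [Finset.card_erase_of_mem (Finset.mem_univ k), Finset.card_univ, Fintype.card_fin]
    simp
  by_contra hcon
  push Not at hcon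
  have hlt : ∀ j ∈ Finset.univ.erase k, (N : ℝ) * ‖f j‖ < ‖f k‖ := by
    intro j hj
    have hjk := (Finset.mem_erase.1 hj).1
    by_contra hge
    rw [not_lt] at hge
    have hfj : f j ≠ 0 := by
      intro h0
      rw [h0, norm_zero, mul_zero] at hge
      linarith
    exact absurd (hk j (Finset.mem_univ _)) (not_le.2
      (hcon j k hjk hfj (norm_pos_iff.1 hkpos) hge))
  rcases (Finset.univ.erase k).eq_empty_or_nonempty with he | hne
  · rw [he, Finset.sum_empty] at hle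
    linarith
  · have h2 := Finset.sum_lt_sum_of_nonempty hne hlt
    rw [Finset.sum_const, hcard, nsmul_eq_mul, ← Finset.mul_sum] at h2
    have hN : (0 : ℝ) < N := by
      have : 0 < N := by
        rw [← hcard]
        exact Finset.card_pos.2 hne
      exact_mod_cast this
    have h3 := mul_le_mul_of_nonneg_left hle hN.le
    linarith

private theorem twoTerm_evalEval {A : ℂ[X][Y]} {N : ℕ} (hN : A.natDegree ≤ N) (r y : ℂ) :
    A.evalEval r y = ∑ k ∈ Finset.range (N + 1), (A.coeff k).eval r * y ^ k := by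
  unfold evalEval
  rw [eval_eq_sum_range' (Nat.lt_succ_of_le hN), eval_finsetSum]
  refine Finset.sum_congr rfl fun k _ => ?_
  rw [eval_mul, eval_pow, eval_C]

private theorem twoTerm_cen {A : ℂ[X][Y]} {k : ℕ} (hk : A.coeff k ≠ 0) {x : ℝ}
    (hx : ∀ u ∈ cen A, 2 ≤ |x - u|) : ∀ u ∈ cen1 (A.coeff k), 2 ≤ |x - u| := by
  intro u hu
  refine hx u ?_
  unfold cen
  rw [Finset.mem_biUnion]
  exact ⟨k, mem_support_iff.2 hk, hu⟩

private theorem twoTerm_hol (a : ℂ[X]) (U : Set ℂ) :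
    DifferentiableOn ℂ (fun ρ => a.eval (Complex.exp ρ)) U :=
  (a.differentiable.comp Complex.differentiable_exp).differentiableOn

/-- Proof. Let `m = natTrailingDegree A` (the smallest `k` with `A.coeff k ≠ 0`) and
`F ρ y = ∑_{k=m}^{N} (A.coeff k).eval (exp ρ) * y^(k-m)`, so that `A.evalEval (exp ρ) y = y^m F ρ y`.
If `g` is `0` on the ball there is nothing to prove. Otherwise `g` is analytic (`DifferentiableOn.analyticOnNhd`)
and not identically `0` on the connected ball, so its zeros are isolated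
(`AnalyticOnNhd.eqOn_zero_of_preconnected_of_frequently_eq_zero`), `F ρ (g ρ) = 0` where `g ρ ≠ 0`, hence
everywhere by continuity; at a zero of `g` we would get `(A.coeff m).eval (exp ρ) = 0`, which contradicts
`log_var`. So `g` has no zero and `F ρ (g ρ) = 0` on the ball.
Let `ρ` be in the ball. `two_large` for the terms `(A.coeff k).eval (exp ρ) * g ρ^(k-m)` (not all of them are `0`)
gives `j ≠ k` with `A.coeff j, A.coeff k ≠ 0` and
`|log ‖a_j‖ + j log ‖g‖ - log ‖a_k‖ - k log ‖g‖| ≤ log (N+1)`, so by `log_var` (`a_j, a_k` now at `x`)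
`|log ‖g ρ‖ - c_{jk}| ≤ log (N+1) + 6 e =: w`, `c_{jk} = (log ‖a_k(x)‖ - log ‖a_j(x)‖) / (j - k)` (divide by `|j - k| ≥ 1`).
So the set `S = {log ‖g ρ‖ | ρ ∈ ball}` (an interval: image of a connected set by a continuous function) is covered
by the intervals `Icc (c_{jk} - w) (c_{jk} + w)`, `(j,k) ∈ Fin (N+1) × Fin (N+1)`: `connected_cover` gives
`log ‖g ρ‖ - log ‖g x‖ ≤ (N+1)² * 2 w = ttC N e`. -/
theorem two_term {A : ℂ[X][Y]} (hA : A ≠ 0) {N e : ℕ} (hN : A.natDegree ≤ N) (he : IDeg A e)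
    {x : ℝ} (hx : ∀ u ∈ cen A, 2 ≤ |x - u|) {g : ℂ → ℂ}
    (hg : DifferentiableOn ℂ g (Metric.ball (x : ℂ) 1))
    (h : ∀ ρ ∈ Metric.ball (x : ℂ) 1, A.evalEval (Complex.exp ρ) (g ρ) = 0) :
    ∀ ρ ∈ Metric.ball (x : ℂ) 1, ‖g ρ‖ ≤ Real.exp (ttC N e) * ‖g x‖ := by
  have hxb : (x : ℂ) ∈ Metric.ball (x : ℂ) 1 := Metric.mem_ball_self one_pos
  have hpre : IsPreconnected (Metric.ball (x : ℂ) 1) := (convex_ball _ _).isPreconnected
  -- the trailing degree
  set m := A.natTrailingDegree with hm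
  have hm0 : A.coeff m ≠ 0 := by
    have := trailingCoeff_nonzero_iff_nonzero.2 hA
    exact this
  have hmN : m ≤ N := (le_natDegree_of_ne_zero hm0).trans hN
  -- the factorisation
  set F : ℂ → ℂ := fun ρ => ∑ k ∈ Finset.range (N + 1 - m),
    (A.coeff (m + k)).eval (Complex.exp ρ) * g ρ ^ k with hF
  have hprod : ∀ ρ ∈ Metric.ball (x : ℂ) 1, g ρ ^ m * F ρ = 0 := by
    intro ρ hρ
    have h1 := h ρ hρ
    rw [twoTerm_evalEval hN] at h1
    have h2 : N + 1 = m + (N + 1 - m) := by omega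
    rw [h2, Finset.sum_range_add] at h1
    have h3 : ∑ k ∈ Finset.range m, (A.coeff k).eval (Complex.exp ρ) * g ρ ^ k = 0 := by
      refine Finset.sum_eq_zero fun k hk => ?_
      rw [coeff_eq_zero_of_lt_natTrailingDegree (Finset.mem_range.1 hk), eval_zero, zero_mul]
    rw [h3, zero_add] at h1
    rw [hF, Finset.mul_sum, ← h1]
    refine Finset.sum_congr rfl fun k _ => ?_
    rw [pow_add]
    ring
  have hgan : AnalyticOnNhd ℂ (fun ρ => g ρ ^ m) (Metric.ball (x : ℂ) 1) :=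
    (hg.pow m).analyticOnNhd Metric.isOpen_ball
  have hFan : AnalyticOnNhd ℂ F (Metric.ball (x : ℂ) 1) := by
    refine DifferentiableOn.analyticOnNhd ?_ Metric.isOpen_ball
    rw [hF]
    exact DifferentiableOn.fun_sum fun k _ => (twoTerm_hol _ _).mul (hg.pow k)
  rcases hgan.eq_zero_or_eq_zero_of_mul_eq_zero hFan hprod hpre with h0 | h0
  · intro ρ hρ
    have : g ρ = 0 := by
      by_contra hne
      exact pow_ne_zero m hne (h0 ρ hρ)
    rw [this, norm_zero]
    positivity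
  · -- no zeros
    have hgne : ∀ ρ ∈ Metric.ball (x : ℂ) 1, g ρ ≠ 0 := by
      intro ρ hρ hg0
      have h1 := h0 ρ hρ
      rw [hF] at h1
      simp only [hg0] at h1
      rw [Finset.sum_eq_single 0] at h1
      · rw [add_zero, pow_zero, mul_one] at h1
        exact (log_var hm0 (twoTerm_cen hm0 hx) hρ).1 h1
      · intro k _ hk
        rw [zero_pow hk, mul_zero]
      · intro hk
        exact absurd (Finset.mem_range.2 (by omega)) hk
    set w : ℝ := Real.log ((N : ℝ) + 1) + 6 * e with hw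
    have hlogN : 0 ≤ Real.log ((N : ℝ) + 1) := Real.log_nonneg (by
      have : (0 : ℝ) ≤ N := by positivity
      linarith)
    have hw0 : 0 ≤ w := by positivity
    set L : ℕ → ℝ := fun k => Real.log ‖(A.coeff k).eval (Complex.exp x)‖ with hL
    set c : Fin (N + 1) × Fin (N + 1) → ℝ := fun p =>
      (L p.1 - L p.2) / (((p.2 : ℕ) : ℝ) - ((p.1 : ℕ) : ℝ)) with hc
    set S : Set ℝ := (fun ρ => Real.log ‖g ρ‖) '' Metric.ball (x : ℂ) 1 with hS
    have hSord : S.OrdConnected := by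
      have hcont : ContinuousOn (fun ρ => Real.log ‖g ρ‖) (Metric.ball (x : ℂ) 1) :=
        ContinuousOn.log hg.continuousOn.norm (fun ρ hρ => (norm_pos_iff.2 (hgne ρ hρ)).ne')
      exact (hpre.image _ hcont).ordConnected
    have hcov : S ⊆ ⋃ i ∈ (Finset.univ : Finset (Fin (N + 1) × Fin (N + 1))),
        Icc (c i - w) (c i + w) := by
      rintro _ ⟨ρ, hρ, rfl⟩
      have hgρ := hgne ρ hρ
      have hsum : ∑ k : Fin (N + 1), (A.coeff (k : ℕ)).eval (Complex.exp ρ) * g ρ ^ (k : ℕ) = 0 := by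
        rw [Fin.sum_univ_eq_sum_range
          (fun k => (A.coeff k).eval (Complex.exp ρ) * g ρ ^ k) (N + 1), ← twoTerm_evalEval hN]
        exact h ρ hρ
      obtain ⟨j, k, hjk, hj, hk, hkj1, hkj2⟩ := two_large
        (fun k : Fin (N + 1) => (A.coeff (k : ℕ)).eval (Complex.exp ρ) * g ρ ^ (k : ℕ)) hsum
        ⟨⟨m, by omega⟩, mul_ne_zero (log_var hm0 (twoTerm_cen hm0 hx) hρ).1 (pow_ne_zero _ hgρ)⟩
      have hcoef : ∀ i : Fin (N + 1), (A.coeff (i : ℕ)).eval (Complex.exp ρ) * g ρ ^ (i : ℕ) ≠ 0 →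
          A.coeff (i : ℕ) ≠ 0 := by
        intro i hi h0
        rw [h0, eval_zero, zero_mul] at hi
        exact hi rfl
      have hlog : ∀ i : Fin (N + 1), (A.coeff (i : ℕ)).eval (Complex.exp ρ) * g ρ ^ (i : ℕ) ≠ 0 →
          |Real.log ‖(A.coeff (i : ℕ)).eval (Complex.exp ρ) * g ρ ^ (i : ℕ)‖ -
            (L i + (i : ℕ) * Real.log ‖g ρ‖)| ≤ 3 * e := by
        intro i hi
        have h1 := log_var (hcoef i hi) (twoTerm_cen (hcoef i hi) hx) hρ
        have h2 : ((A.coeff (i : ℕ)).natDegree : ℝ) ≤ e := by exact_mod_cast he i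
        rw [norm_mul, norm_pow, Real.log_mul (norm_pos_iff.2 h1.1).ne'
          (pow_pos (norm_pos_iff.2 hgρ) _).ne', Real.log_pow, add_sub_add_right_eq_sub]
        exact h1.2.trans (by linarith)
      have l1 := hlog j hj
      have l2 := hlog k hk
      have n1 : Real.log ‖(A.coeff (j : ℕ)).eval (Complex.exp ρ) * g ρ ^ (j : ℕ)‖ ≤
          Real.log ‖(A.coeff (k : ℕ)).eval (Complex.exp ρ) * g ρ ^ (k : ℕ)‖ :=
        Real.log_le_log (norm_pos_iff.2 hj) hkj2
      have n2 : Real.log ‖(A.coeff (k : ℕ)).eval (Complex.exp ρ) * g ρ ^ (k : ℕ)‖ ≤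
          Real.log ((N : ℝ) + 1) +
            Real.log ‖(A.coeff (j : ℕ)).eval (Complex.exp ρ) * g ρ ^ (j : ℕ)‖ := by
        rw [← Real.log_mul (by positivity) (norm_pos_iff.2 hj).ne']
        refine Real.log_le_log (norm_pos_iff.2 hk) (hkj1.trans ?_)
        have := norm_nonneg ((A.coeff (j : ℕ)).eval (Complex.exp ρ) * g ρ ^ (j : ℕ))
        nlinarith
      refine mem_iUnion₂.2 ⟨(j, k), Finset.mem_univ _, ?_⟩
      have hd : ((k : ℕ) : ℝ) - ((j : ℕ) : ℝ) ≠ 0 := by
        intro h0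
        apply hjk
        apply Fin.ext
        have : ((k : ℕ) : ℝ) = ((j : ℕ) : ℝ) := by linarith
        exact_mod_cast this.symm
      have hd1 : 1 ≤ |((k : ℕ) : ℝ) - ((j : ℕ) : ℝ)| := by
        have h1 : (((k : ℕ) : ℤ) - ((j : ℕ) : ℤ)) ≠ 0 := by
          intro h0
          apply hd
          exact_mod_cast h0
        have h2 := Int.one_le_abs h1
        exact_mod_cast h2
      have hmain : |(((k : ℕ) : ℝ) - ((j : ℕ) : ℝ)) * (Real.log ‖g ρ‖ - c (j, k))| ≤ w := by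
        have h1 : (((k : ℕ) : ℝ) - ((j : ℕ) : ℝ)) * (Real.log ‖g ρ‖ - c (j, k)) =
            (((k : ℕ) : ℝ) - ((j : ℕ) : ℝ)) * Real.log ‖g ρ‖ - (L j - L k) := by
          rw [hc]
          field_simp
        rw [h1, abs_le]
        rw [abs_le] at l1 l2
        constructor <;> linarith [l1.1, l1.2, l2.1, l2.2]
      have habs : |Real.log ‖g ρ‖ - c (j, k)| ≤ w := by
        rw [abs_mul] at hmain
        have h1 := mul_le_mul_of_nonneg_right hd1 (abs_nonneg (Real.log ‖g ρ‖ - c (j, k)))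
        linarith
      rw [abs_le] at habs
      exact ⟨by linarith [habs.1], by linarith [habs.2]⟩
    intro ρ hρ
    have hfin := connected_cover hSord Finset.univ c (fun _ => w) (fun _ _ => hw0) hcov
      (x := Real.log ‖g ρ‖) (y := Real.log ‖g x‖) ⟨ρ, hρ, rfl⟩ ⟨x, hxb, rfl⟩
    rw [Finset.sum_const, Finset.card_univ, Fintype.card_prod, Fintype.card_fin, nsmul_eq_mul]
      at hfin
    have htt : (((N + 1) * (N + 1) : ℕ) : ℝ) * (2 * w) = ttC N e := by
      rw [hw, ttC]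
      push_cast
      ring
    rw [htt] at hfin
    have h1 : Real.log ‖g ρ‖ ≤ ttC N e + Real.log ‖g x‖ := by
      linarith [(abs_le.1 hfin).2]
    have h2 := Real.exp_le_exp.2 h1
    rwa [Real.exp_add, Real.exp_log (norm_pos_iff.2 (hgne ρ hρ)),
      Real.exp_log (norm_pos_iff.2 (hgne x hxb))] at h2

/-- the same for a polynomial in `r`. Proof. `log_var` and `ttC 0 e = 12 e`. -/
theorem poly_sup {a : ℂ[X]} (ha : a ≠ 0) {e : ℕ} (he : a.natDegree ≤ e) {x : ℝ}
    (hx : ∀ u ∈ cen1 a, 2 ≤ |x - u|) {ρ : ℂ} (hρ : ρ ∈ Metric.ball (x : ℂ) 1) :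
    ‖a.eval (Complex.exp ρ)‖ ≤ Real.exp (3 * e) * ‖a.eval (Complex.exp x)‖ := by
  have h1 := log_var ha hx hρ
  have h2 := (log_var ha hx (Metric.mem_ball_self one_pos : (x : ℂ) ∈ Metric.ball (x : ℂ) 1)).1
  have h3 : (a.natDegree : ℝ) ≤ e := by exact_mod_cast he
  have h4 : Real.log ‖a.eval (Complex.exp ρ)‖ ≤ 3 * e + Real.log ‖a.eval (Complex.exp x)‖ := by
    linarith [(abs_le.1 h1.2).2]
  have h5 := Real.exp_le_exp.2 h4
  rwa [Real.exp_add, Real.exp_log (norm_pos_iff.2 h1.1), Real.exp_log (norm_pos_iff.2 h2)] at h5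

end Pool.Agent.Lib.MP_95e7ec_an
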