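import Mathlib
import Pool.Agent.Lib.MP_95e7ec_an.Ry.RDefs

/-!
# Ry, RelRes: the polynomial relation for the difference of two roots
-/

set_option autoImplicit false

open Set Filter Topology MeasureTheory Polynomial
open scoped ContDiff ENNReal Polynomial.Bivariate

namespace Pool.Agent.Lib.MP_95e7ec_an

namespace RelRes

theorem ideg_zero (e : ℕ) : IDeg 0 e := by
  intro k
  simp

theorem ideg_mono {P : ℂ[X][Y]} {e e' : ℕ} (h : IDeg P e) (he : e ≤ e') : IDeg P e' :=
  fun k => (h k).trans he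

theorem ideg_sum {ι : Type*} (s : Finset ι) (f : ι → ℂ[X][Y]) {e : ℕ}
    (h : ∀ i ∈ s, IDeg (f i) e) : IDeg (∑ i ∈ s, f i) e := by
  intro k
  rw [finsetSum_coeff]
  exact natDegree_sum_le_of_forall_le _ _ fun i hi => h i hi k

theorem ideg_mul {P Q : ℂ[X][Y]} {a b : ℕ} (hP : IDeg P a) (hQ : IDeg Q b) :
    IDeg (P * Q) (a + b) := by
  intro k
  rw [coeff_mul]
  refine natDegree_sum_le_of_forall_le _ _ fun x _ => ?_
  exact natDegree_mul_le.trans (Nat.add_le_add (hP _) (hQ _))

theorem ideg_one : IDeg 1 0 := by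
  intro k
  rw [coeff_one]
  split_ifs <;> simp

theorem ideg_prod {ι : Type*} (s : Finset ι) (f : ι → ℂ[X][Y]) {e : ℕ}
    (h : ∀ i ∈ s, IDeg (f i) e) : IDeg (∏ i ∈ s, f i) (s.card * e) := by
  classical
  induction s using Finset.induction_on with
  | empty => simpa using ideg_one
  | insert i s hi ih =>
    rw [Finset.prod_insert hi, Finset.card_insert_of_notMem hi]
    have h1 := ideg_mul (h i (Finset.mem_insert_self i s))
      (ih fun j hj => h j (Finset.mem_insert_of_mem hj))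
    exact ideg_mono h1 (by ring_nf; omega)

theorem ideg_units {P : ℂ[X][Y]} {e : ℕ} (h : IDeg P e) (u : ℤˣ) : IDeg (u • P) e := by
  rcases Int.units_eq_one_or u with rfl | rfl
  · simpa using h
  · intro k
    have : ((-1 : ℤˣ) • P) = -P := by simp
    rw [this, coeff_neg, natDegree_neg]
    exact h k

/-- the Sylvester matrix -/
noncomputable def ff (A : ℂ[X][Y]) : Polynomial (ℂ[X][Y]) := taylor (X : ℂ[X][Y]) (A.map C)

theorem ff_coeff (A : ℂ[X][Y]) (n : ℕ) : (ff A).coeff n = hasseDeriv n A := by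
  unfold ff
  rw [taylor_coeff]
  have h1 : hasseDeriv n (A.map (C : ℂ[X] →+* ℂ[X][Y])) = (hasseDeriv n A).map C := by
    ext1 k
    rw [hasseDeriv_coeff, coeff_map, coeff_map, hasseDeriv_coeff, map_mul, map_natCast]
  rw [h1, eval_map, eval₂_C_X]

theorem ideg_ff {A : ℂ[X][Y]} {e : ℕ} (h : IDeg A e) (n : ℕ) : IDeg ((ff A).coeff n) e := by
  rw [ff_coeff]
  intro k
  rw [hasseDeriv_coeff]
  refine natDegree_mul_le.trans ?_
  rw [natDegree_natCast, zero_add]
  exact h _

theorem natDegree_ff_coeff (A : ℂ[X][Y]) (n : ℕ) : ((ff A).coeff n).natDegree ≤ A.natDegree := by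
  rw [ff_coeff]
  exact (natDegree_hasseDeriv_le A n).trans (Nat.sub_le _ _)

theorem ideg_C {a : ℂ[X]} {e : ℕ} (h : a.natDegree ≤ e) : IDeg (C a) e := by
  intro k
  rw [coeff_C]
  split_ifs
  · exact h
  · simp

theorem natDegree_ff (A : ℂ[X][Y]) : (ff A).natDegree = A.natDegree := by
  unfold ff
  rw [natDegree_taylor, natDegree_map_eq_of_injective (C_injective)]

theorem natDegree_hh (B : ℂ[X][Y]) : (B.map (C : ℂ[X] →+* ℂ[X][Y])).natDegree = B.natDegree :=
  natDegree_map_eq_of_injective (C_injective) B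

theorem entry {A B : ℂ[X][Y]} {N e : ℕ} (hAN : A.natDegree ≤ N) (hAe : IDeg A e)
    (hBe : IDeg B e) (m n : ℕ) (i j : Fin (m + n)) :
    (sylvester (ff A) (B.map C) m n i j).natDegree ≤ N ∧
      IDeg (sylvester (ff A) (B.map C) m n i j) e := by
  unfold sylvester
  rw [Matrix.of_apply]
  refine Fin.addCases (fun j₁ => ?_) (fun j₁ => ?_) j
  · rw [Fin.addCases_left]
    split_ifs
    · rw [coeff_map]
      exact ⟨by rw [natDegree_C]; exact Nat.zero_le _, ideg_C (hBe _)⟩
    · exact ⟨by simp, ideg_zero e⟩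
  · rw [Fin.addCases_right]
    split_ifs
    · exact ⟨(natDegree_ff_coeff A _).trans hAN, ideg_ff hAe _⟩
    · exact ⟨by simp, ideg_zero e⟩

theorem det_bd {k N e : ℕ} (M : Matrix (Fin k) (Fin k) ℂ[X][Y])
    (hM : ∀ i j, (M i j).natDegree ≤ N ∧ IDeg (M i j) e) :
    M.det.natDegree ≤ k * N ∧ IDeg M.det (k * e) := by
  rw [Matrix.det_apply]
  constructor
  · refine natDegree_sum_le_of_forall_le _ _ fun σ _ => ?_
    have h1 : (∏ i, M (σ i) i).natDegree ≤ k * N := by
      refine (natDegree_prod_le _ _).trans ?_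
      refine (Finset.sum_le_card_nsmul _ _ N fun i _ => (hM _ _).1).trans ?_
      simp
    rcases Int.units_eq_one_or (Equiv.Perm.sign σ) with h | h
    · rw [h, one_smul]
      exact h1
    · rw [h]
      have : ((-1 : ℤˣ) • ∏ i, M (σ i) i) = -∏ i, M (σ i) i := by simp
      rw [this, natDegree_neg]
      exact h1
  · refine ideg_sum _ _ fun σ _ => ideg_units ?_ _
    have h1 := ideg_prod (Finset.univ : Finset (Fin k)) (fun i => M (σ i) i)
      (fun i _ => (hM _ _).2)
    simpa using h1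

theorem root_rel {A B : ℂ[X][Y]} {p q : Polynomial (ℂ[X][Y])} {R : ℂ[X][Y]}
    (h : ff A * p + B.map C * q = C R) {r s t : ℂ} (hs : A.evalEval r s = 0)
    (ht : B.evalEval r t = 0) : R.evalEval r (s - t) = 0 := by
  have h1 := congrArg (eval₂ (evalEvalRingHom r (s - t)) t) h
  rw [eval₂_add, eval₂_mul, eval₂_mul, eval₂_C] at h1
  have hc : (evalEvalRingHom r (s - t)).comp (C : ℂ[X] →+* ℂ[X][Y]) = evalRingHom r := by
    refine RingHom.ext fun a => ?_
    simp
  have h2 : ∀ (P : ℂ[X][Y]) (u : ℂ),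
      eval₂ ((evalEvalRingHom r (s - t)).comp (C : ℂ[X] →+* ℂ[X][Y])) u P = P.evalEval r u := by
    intro P u
    rw [hc, eval₂_evalRingHom]
  have h3 : eval₂ (evalEvalRingHom r (s - t)) t (ff A) = 0 := by
    unfold ff
    rw [taylor_apply, eval₂_comp, eval₂_map, h2]
    have : eval₂ (evalEvalRingHom r (s - t)) t (X + C (X : ℂ[X][Y])) = s := by
      rw [eval₂_add, eval₂_X, eval₂_C]
      simp
    rw [this, hs]
  have h4 : eval₂ (evalEvalRingHom r (s - t)) t (B.map C) = 0 := by
    rw [eval₂_map, h2, ht]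
  rw [h3, h4, zero_mul, zero_mul, add_zero] at h1
  exact h1.symm

theorem res_ne {A B : ℂ[X][Y]} (hA : 0 < A.natDegree) (hB : 0 < B.natDegree) :
    resultant (ff A) (B.map C) A.natDegree B.natDegree ≠ 0 := by
  have hA0 : A ≠ 0 := by rintro rfl; simp at hA
  have hB0 : B ≠ 0 := by rintro rfl; simp at hB
  have hex : ∃ r₀ : ℂ, (A.leadingCoeff * B.leadingCoeff).eval r₀ ≠ 0 := by
    by_contra hcon
    push Not at hcon
    have : A.leadingCoeff * B.leadingCoeff = 0 := Polynomial.funext fun r => by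
      rw [hcon r, eval_zero]
    exact mul_ne_zero (leadingCoeff_ne_zero.mpr hA0) (leadingCoeff_ne_zero.mpr hB0) this
  obtain ⟨r₀, hr₀⟩ := hex
  rw [eval_mul] at hr₀
  have hA1 : evalRingHom r₀ A.leadingCoeff ≠ 0 := left_ne_zero_of_mul hr₀
  have hB1 : evalRingHom r₀ B.leadingCoeff ≠ 0 := right_ne_zero_of_mul hr₀
  set A₀ := A.map (evalRingHom r₀) with hA₀
  set B₀ := B.map (evalRingHom r₀) with hB₀
  have hdB : B₀.natDegree = B.natDegree := natDegree_map_of_leadingCoeff_ne_zero _ hB1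
  have hA₀0 : A₀ ≠ 0 := by
    intro h
    have := coeff_map (evalRingHom r₀) (p := A) A.natDegree
    rw [← hA₀, h, coeff_zero, coeff_natDegree] at this
    exact hA1 this.symm
  have hB₀0 : B₀ ≠ 0 := by
    intro h
    have := coeff_map (evalRingHom r₀) (p := B) B.natDegree
    rw [← hB₀, h, coeff_zero, coeff_natDegree] at this
    exact hB1 this.symm
  intro hR
  have h1 := resultant_map_map (ff A) (B.map C) A.natDegree B.natDegree
    (mapRingHom (evalRingHom r₀) : ℂ[X][Y] →+* ℂ[X])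
  rw [hR, map_zero] at h1
  have hcomp : (mapRingHom (evalRingHom r₀) : ℂ[X][Y] →+* ℂ[X]).comp C =
      (C : ℂ →+* ℂ[X]).comp (evalRingHom r₀) := by
    refine RingHom.ext fun a => ?_
    simp
  have h2 : (B.map (C : ℂ[X] →+* ℂ[X][Y])).map (mapRingHom (evalRingHom r₀)) = B₀.map C := by
    rw [Polynomial.map_map, hcomp, ← Polynomial.map_map]
  have h3 : (ff A).map (mapRingHom (evalRingHom r₀)) = taylor (X : ℂ[X]) (A₀.map C) := by
    unfold ff
    rw [taylor_apply, taylor_apply, map_comp, Polynomial.map_map, hcomp, ← Polynomial.map_map]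
    simp [hA₀]
  rw [h2, h3, resultant_comm] at h1
  have hsp : (B₀.map (C : ℂ →+* ℂ[X])).Splits := (IsAlgClosed.splits B₀).map _
  have hd : (B₀.map (C : ℂ →+* ℂ[X])).natDegree = B.natDegree := by
    rw [natDegree_map_eq_of_injective C_injective, hdB]
  have hdA : (taylor (X : ℂ[X]) (A₀.map C)).natDegree ≤ A.natDegree := by
    rw [natDegree_taylor, natDegree_map_eq_of_injective C_injective]
    exact natDegree_map_le
  have h4 := resultant_eq_prod_eval (B₀.map (C : ℂ →+* ℂ[X])) (taylor (X : ℂ[X]) (A₀.map C))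
    A.natDegree hdA hsp
  rw [hd] at h4
  rw [h4] at h1
  rcases mul_eq_zero.mp h1 with h5 | h5
  · exact pow_ne_zero _ (neg_ne_zero.mpr one_ne_zero) h5
  rcases mul_eq_zero.mp h5 with h6 | h6
  · refine pow_ne_zero _ ?_ h6
    rw [leadingCoeff_ne_zero]
    exact (Polynomial.map_ne_zero_iff C_injective).mpr hB₀0
  · rw [Multiset.prod_eq_zero_iff, Multiset.mem_map] at h6
    obtain ⟨x, hx, hx0⟩ := h6
    have h7 : (B₀.map (C : ℂ →+* ℂ[X])).roots = B₀.roots.map C :=
      (IsAlgClosed.splits B₀).roots_map _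
    rw [h7, Multiset.mem_map] at hx
    obtain ⟨τ, _, rfl⟩ := hx
    rw [taylor_apply, eval_comp] at hx0
    have h8 : eval (C τ) (X + C (X : ℂ[X])) = X + C τ := by
      simp [add_comm]
    rw [h8, eval_map] at hx0
    have h9 : A₀.comp (X + C τ) = 0 := hx0
    rw [← taylor_apply] at h9
    exact hA₀0 ((taylor_eq_zero τ A₀).mp h9)

end RelRes

/-- Proof. Let `𝓡 = ℂ[X][Y]` (the outer variable is now `g`). In `𝓡[T]` put
`f = (A.map (C : ℂ[X] →+* 𝓡)).comp (X + C Y)` (this is `A(r, t+g)`, of degree `natDegree A` in `t`) and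
`h = B.map (C : ℂ[X] →+* 𝓡)` (this is `B(r,t)`), and `R = resultant f h (natDegree A) (natDegree B)`.
(i) `Polynomial.exists_mul_add_mul_eq_C_resultant`: `f p + h q = C R`; evaluate at `(r, g = s - t, t)`: `f` gives
`A(r,s) = 0`, `h` gives `B(r,t) = 0`, so `R(r, s-t) = 0`.
(ii) Degrees: `R` is the determinant of the Sylvester matrix of size `natDegree A + natDegree B ≤ 2N`, whose entries
have degree at most `N` in `g` and at most `e` in `r` (`Matrix.det_apply`, or `Matrix.det` as a sum of products;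
`IDeg` is stable under sums and `IDeg (P*Q) (e+e')`). So `natDegree R ≤ 2N*N` and `IDeg R (2N*e)`.
(iii) `R ≠ 0`: take `r₀` with `A.leadingCoeff.eval r₀ ≠ 0 ≠ B.leadingCoeff.eval r₀` (finitely many exceptions), and
apply `resultant_map_map` with the ring homomorphism `mapRingHom (evalRingHom r₀) : ℂ[X][Y] →+* ℂ[Y]`: the image of `R`
is the resultant of `A₀(t+g)` and `B₀(t)` over `ℂ[g]`, where `A₀ = A.map (evalRingHom r₀)`, `B₀` are nonzero
polynomials over `ℂ` of the same degrees. `B₀` splits, so by `resultant_comm` and `resultant_eq_prod_eval` it is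
`±` a power of the leading coefficient of `B₀` times the product of the `A₀(τ + g)`, `τ` a root of `B₀`, which are
nonzero polynomials in `g`. -/
theorem exists_rel {A B : ℂ[X][Y]} (hA : 0 < A.natDegree) (hB : 0 < B.natDegree) {N e : ℕ}
    (hAN : A.natDegree ≤ N) (hBN : B.natDegree ≤ N) (hAe : IDeg A e) (hBe : IDeg B e) :
    ∃ R : ℂ[X][Y], R ≠ 0 ∧ R.natDegree ≤ 2 * N * N ∧ IDeg R (2 * N * e) ∧
      ∀ r s t : ℂ, A.evalEval r s = 0 → B.evalEval r t = 0 → R.evalEval r (s - t) = 0 := by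
  have h1 := RelRes.det_bd (sylvester (RelRes.ff A) (B.map C) A.natDegree B.natDegree)
    (fun i j => RelRes.entry hAN hAe hBe _ _ i j)
  have hle : A.natDegree + B.natDegree ≤ 2 * N := by omega
  obtain ⟨p, q, _, _, hpq⟩ := exists_mul_add_mul_eq_C_resultant (m := A.natDegree)
    (n := B.natDegree) (RelRes.ff A) (B.map (C : ℂ[X] →+* ℂ[X][Y]))
    (RelRes.natDegree_ff A).le (RelRes.natDegree_hh B).le (Or.inl hA.ne')
  refine ⟨resultant (RelRes.ff A) (B.map C) A.natDegree B.natDegree, RelRes.res_ne hA hB,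
    h1.1.trans (Nat.mul_le_mul_right N hle),
    RelRes.ideg_mono h1.2 (Nat.mul_le_mul_right e hle), ?_⟩
  intro r s t hs ht
  exact RelRes.root_rel hpq hs ht

end Pool.Agent.Lib.MP_95e7ec_an
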