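import Mathlib
import Pool.Agent.Lib.MP_95e7ec_an.Ry.RDefs

/-!
# Ry, StarPoly: the reflected polynomial
-/

set_option autoImplicit false

open Set Filter Topology MeasureTheory Polynomial
open scoped ContDiff ENNReal Polynomial.Bivariate

namespace Pool.Agent.Lib.MP_95e7ec_an

private theorem starPoly_sum {N : ℕ} {P : ℂ[X][Y]} (hN : P.natDegree ≤ N) (x y : ℂ) :
    P.evalEval x y = ∑ k ∈ Finset.range (N + 1), (P.coeff k).eval x * y ^ k := by
  rw [evalEval, eval_eq_sum_range' (Nat.lt_succ_of_le hN), eval_finsetSum]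
  refine Finset.sum_congr rfl fun k _ => ?_
  rw [eval_mul, eval_pow, eval_C]

private theorem starPoly_coeff (N : ℕ) (A : ℂ[X][Y]) (k : ℕ) :
    (starP N A).coeff k = (A.coeff (revAt N k)).map (starRingEnd ℂ) := by
  rw [starP, coeff_reflect, coeff_map, coe_mapRingHom]

private theorem starPoly_natDegree_le {N : ℕ} {A : ℂ[X][Y]} (hN : A.natDegree ≤ N) :
    (starP N A).natDegree ≤ N := by
  rw [starP]
  refine natDegree_reflect_le.trans (max_le le_rfl ?_)
  exact natDegree_map_le.trans hN

private theorem starPoly_eval_conj (p : ℂ[X]) (r : ℂ) :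
    (p.map (starRingEnd ℂ)).eval r = (starRingEnd ℂ) (p.eval ((starRingEnd ℂ) r)) := by
  rw [← eval₂_at_apply, Complex.conj_conj, eval_map]

/-- Proof. `eval₂_reflect_mul_pow` or directly from the coefficients:
`(starP N A).coeff k = conj ((A.coeff (N - k)))` for `k ≤ N`. -/
theorem starP_eval {N : ℕ} {A : ℂ[X][Y]} (hN : A.natDegree ≤ N) {r s : ℂ} (hs : s ≠ 0) :
    (starP N A).evalEval r s = s ^ N * (starRingEnd ℂ)
      (A.evalEval ((starRingEnd ℂ) r) (1 / (starRingEnd ℂ) s)) := by
  rw [starPoly_sum (starPoly_natDegree_le hN), starPoly_sum hN, map_sum, Finset.mul_sum,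
    ← Finset.sum_range_reflect]
  refine Finset.sum_congr rfl fun k hk => ?_
  have hk' : k ≤ N := by
    have := Finset.mem_range.mp hk
    omega
  have e1 : N + 1 - 1 - k = N - k := by omega
  rw [e1, starPoly_coeff, revAt_le (Nat.sub_le N k)]
  have e2 : N - (N - k) = k := by omega
  rw [e2, starPoly_eval_conj]
  simp only [map_mul, map_pow, map_div₀, map_one, Complex.conj_conj]
  have e3 : s ^ (N - k) = s ^ N * (1 / s) ^ k := by
    rw [one_div, inv_pow, ← div_eq_mul_inv, eq_div_iff (pow_ne_zero _ hs), ← pow_add]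
    congr 1
    omega
  rw [e3]
  ring

/-- Proof. The coefficient of `s^N` of the reflected polynomial is the conjugate of `A.coeff 0`. -/
theorem starP_natDegree {A : ℂ[X][Y]} {N : ℕ} (hN : A.natDegree ≤ N) (h0 : A.coeff 0 ≠ 0) :
    (starP N A).natDegree = N := by
  refine le_antisymm (starPoly_natDegree_le hN) ?_
  apply le_natDegree_of_ne_zero
  rw [starPoly_coeff, revAt_le le_rfl, Nat.sub_self]
  exact (Polynomial.map_ne_zero_iff (RingHom.injective _)).mpr h0

theorem starP_ideg {A : ℂ[X][Y]} {N e : ℕ} (he : IDeg A e) : IDeg (starP N A) e := by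
  intro k
  rw [starPoly_coeff]
  exact natDegree_map_le.trans (he _)

end Pool.Agent.Lib.MP_95e7ec_an
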