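import Mathlib
import Pool.Agent.Lib.MP_95e7ec_an.Ry.RDefs
import Pool.Agent.Lib.MP_95e7ec_an.Ry.TwoTerm
import Pool.Agent.Lib.MP_95e7ec_an.Ry.RelRes
import Pool.Agent.Lib.MP_95e7ec_an.Ry.StarPoly
import Pool.Agent.Lib.MP_95e7ec_an.Ry.BrMain

/-!
# Ry, RCore: the bounds for the roots on unit discs
-/

set_option autoImplicit false

open Set Filter Topology MeasureTheory Polynomial
open scoped ContDiff ENNReal Polynomial.Bivariate

namespace Pool.Agent.Lib.MP_95e7ec_an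

/-- the bounds on the unit discs -/
structure SupBd (A : ℂ[X][Y]) (I : Set ℝ) {d : ℕ} (b : Fin d → ℂ → ℂ) (L : ℝ) : Prop where
  one : ∀ x ∈ I, Metric.ball (x : ℂ) 1 ⊆ strip I → ∀ ρ ∈ Metric.ball (x : ℂ) 1, ∀ j,
    ‖b j ρ‖ ≤ L * ‖b j x‖
  inv : ∀ x ∈ I, Metric.ball (x : ℂ) 1 ⊆ strip I → ∀ ρ ∈ Metric.ball (x : ℂ) 1, ∀ j,
    ‖b j x‖ ≤ L * ‖b j ρ‖
  two : ∀ x ∈ I, Metric.ball (x : ℂ) 1 ⊆ strip I → ∀ ρ ∈ Metric.ball (x : ℂ) 1, ∀ i j,
    ‖b i ρ - b j ρ‖ ≤ L * ‖b i x - b j x‖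
  refl : ∀ x ∈ I, Metric.ball (x : ℂ) 1 ⊆ strip I → ∀ ρ ∈ Metric.ball (x : ℂ) 1, ∀ j,
    ‖b j ρ - 1 / (starRingEnd ℂ) (b j ((starRingEnd ℂ) ρ))‖ ≤
      L * ‖b j x - 1 / (starRingEnd ℂ) (b j x)‖
  lead : ∀ x ∈ I, Metric.ball (x : ℂ) 1 ⊆ strip I → ∀ ρ ∈ Metric.ball (x : ℂ) 1,
    ‖A.leadingCoeff.eval (Complex.exp ρ)‖ ≤ L * ‖A.leadingCoeff.eval (Complex.exp x)‖

theorem ttC_mono {N N' e e' : ℕ} (h : N ≤ N') (h' : e ≤ e') : ttC N e ≤ ttC N' e' := by
  have h1 : (N : ℝ) ≤ N' := by exact_mod_cast h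
  have h2 : (e : ℝ) ≤ e' := by exact_mod_cast h'
  have h3 : (0 : ℝ) ≤ N := Nat.cast_nonneg N
  have h4 : (0 : ℝ) ≤ e := Nat.cast_nonneg e
  have h5 : Real.log ((N : ℝ) + 1) ≤ Real.log ((N' : ℝ) + 1) :=
    Real.log_le_log (by linarith) (by linarith)
  have h6 : 0 ≤ Real.log ((N : ℝ) + 1) := Real.log_nonneg (by linarith)
  unfold ttC
  have h7 : ((N : ℝ) + 1) ^ 2 ≤ ((N' : ℝ) + 1) ^ 2 :=
    pow_le_pow_left₀ (by linarith) (by linarith) 2
  exact mul_le_mul h7 (by linarith) (by linarith) (by positivity)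

private theorem rCore_rel (A B : ℂ[X][Y]) {N e : ℕ} (hAN : A.natDegree ≤ N)
    (hBN : B.natDegree ≤ N) (hAe : IDeg A e) (hBe : IDeg B e) :
    ∃ R : ℂ[X][Y], R ≠ 0 ∧ R.natDegree ≤ 2 * N * N ∧ IDeg R (2 * N * e) ∧
      (0 < A.natDegree → 0 < B.natDegree →
        ∀ r s t : ℂ, A.evalEval r s = 0 → B.evalEval r t = 0 → R.evalEval r (s - t) = 0) := by
  by_cases h : 0 < A.natDegree ∧ 0 < B.natDegree
  · obtain ⟨R, h1, h2, h3, h4⟩ := exists_rel h.1 h.2 hAN hBN hAe hBe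
    exact ⟨R, h1, h2, h3, fun _ _ => h4⟩
  · refine ⟨1, one_ne_zero, by simp, ?_, fun h1 h2 => absurd ⟨h1, h2⟩ h⟩
    exact RelRes.ideg_mono RelRes.ideg_one (Nat.zero_le _)

private theorem rCore_count {N e : ℕ} (hN1 : 1 ≤ N) (he1 : 1 ≤ e) :
    (N + e) * (2 * N * e + e) + (N + 1) * e + (N + 1) * e + (2 * N * N + 1) * (2 * N * e) +
      (2 * N * N + 1) * (2 * N * e) ≤ 20 * (N + e) ^ 4 := by
  obtain ⟨T, hT⟩ : ∃ T, T = N + e := ⟨_, rfl⟩
  have h1 : N ≤ T := by omega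
  have h2 : e ≤ T := by omega
  have h3 : 1 ≤ T := by omega
  have h4 : T ≤ T ^ 2 := Nat.le_self_pow (by norm_num) T
  have h5 : T ^ 2 ≤ T ^ 4 := Nat.pow_le_pow_right h3 (by norm_num)
  have h6 : T ^ 3 ≤ T ^ 4 := Nat.pow_le_pow_right h3 (by norm_num)
  rw [← hT]
  have k1 : T * (2 * N * e + e) ≤ 3 * T ^ 4 := by
    calc T * (2 * N * e + e) ≤ T * (2 * T * T + T) := by gcongr
      _ = 2 * T ^ 3 + T ^ 2 := by ring
      _ ≤ 3 * T ^ 4 := by omega
  have k2 : (N + 1) * e ≤ 2 * T ^ 4 := by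
    calc (N + 1) * e ≤ (T + T) * T := by gcongr
      _ = 2 * T ^ 2 := by ring
      _ ≤ 2 * T ^ 4 := by omega
  have k3 : (2 * N * N + 1) * (2 * N * e) ≤ 6 * T ^ 4 := by
    have e1 : 1 ≤ T ^ 2 := Nat.one_le_pow _ _ h3
    calc (2 * N * N + 1) * (2 * N * e) ≤ (2 * T * T + T ^ 2) * (2 * T * T) := by gcongr
      _ = 6 * T ^ 4 := by ring
  omega

private theorem rCore_cen {A : ℂ[X][Y]} {k : ℕ} (hk : A.coeff k ≠ 0) :
    cen1 (A.coeff k) ⊆ cen A := by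
  intro u hu
  unfold cen
  rw [Finset.mem_biUnion]
  exact ⟨k, mem_support_iff.2 hk, hu⟩

private theorem rCore_root {A : ℂ[X][Y]} {I : Set ℝ} {ι : Type} [Fintype ι] {b : ι → ℂ → ℂ}
    (h : Branches A I b) (j : ι) {ρ : ℂ} (hρ : ρ ∈ strip I) :
    A.evalEval (Complex.exp ρ) (b j ρ) = 0 := by
  have h1 := congrArg (eval (b j ρ)) (h.fac ρ hρ)
  rw [eval_map, eval₂_evalRingHom, eval_mul, eval_prod] at h1
  rw [h1, Finset.prod_eq_zero (Finset.mem_univ j), mul_zero]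
  rw [eval_sub, eval_X, eval_C, sub_self]

private theorem rCore_star_ne {A : ℂ[X][Y]} (h0 : A.coeff 0 ≠ 0) (N : ℕ) : starP N A ≠ 0 := by
  intro h
  unfold starP at h
  rw [reflect_eq_zero_iff] at h
  have hA : A ≠ 0 := by
    rintro rfl
    exact h0 (coeff_zero 0)
  refine hA ((Polynomial.map_eq_zero_iff ?_).1 h)
  exact Polynomial.map_injective _ (RingHom.injective _)

/-- Proof. Let `d = natDegree A`, `As = starP d A` (degree `d`, `starP_natDegree`; `IDeg As e`). If `d > 0` let `R₁`, `R₂` be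
the relations of `exists_rel` for `(A, A)` and `(A, As)`. `U` is the union of the set of `exists_branches`, `cen A`, `cen As`,
`cen R₁`, `cen R₂`, at most `(N+e)(2Ne+e) + 2(N+1)e + 2(2N²+1)(2Ne) ≤ 20 (N+e)^4` points. Let `b` be the branches.
`b j ρ ≠ 0`: `A(e^ρ,0) = (A.coeff 0)(e^ρ) ≠ 0` (`eval_exp_ne`). The leading coefficient: `eval_exp_ne`, `poly_sup`.
The functions `c_j ρ = 1 / conj (b j (conj ρ))` are holomorphic on the strip (`conj` maps it to itself) and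
`As(e^ρ, c_j ρ) = 0` by `starP_eval`. `two_term` with `A` and `g = b j`: `one`. With `As` and `g = c_j`: `inv` (at `conj ρ`).
With `R₁` and `g = b i - b j`: `two`. With `R₂` and `g = b j - c_j`: `refl`. All constants are at most
`exp (ttC (2N²) (2Ne))` by `ttC_mono`, and `3e ≤ ttC`. -/
theorem roots_core {A : ℂ[X][Y]} (h0 : A.coeff 0 ≠ 0) {N e : ℕ} (hN1 : 1 ≤ N) (he1 : 1 ≤ e)
    (hN : A.natDegree ≤ N) (he : IDeg A e) : ∃ U : Finset ℝ, U.card ≤ 20 * (N + e) ^ 4 ∧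
      ∀ I : Set ℝ, IsOpen I → I.OrdConnected → I.Nonempty →
        (∀ x ∈ I, ∀ u ∈ U, 2 ≤ |x - u|) →
          ∃ b : Fin A.natDegree → ℂ → ℂ, Branches A I b ∧
            (∀ j, ∀ ρ ∈ strip I, b j ρ ≠ 0) ∧
            (∀ ρ ∈ strip I, A.leadingCoeff.eval (Complex.exp ρ) ≠ 0) ∧
            SupBd A I b (Real.exp (ttC (2 * N * N) (2 * N * e))) := by
  classical
  have hA : A ≠ 0 := by
    rintro rfl
    exact h0 (coeff_zero 0)
  obtain ⟨d, hd⟩ : ∃ d, d = A.natDegree := ⟨_, rfl⟩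
  obtain ⟨As, hAs⟩ : ∃ As, As = starP A.natDegree A := ⟨_, rfl⟩
  have hAs0 : As ≠ 0 := by
    rw [hAs]
    exact rCore_star_ne h0 _
  have hAsd : As.natDegree = A.natDegree := by
    rw [hAs]
    exact starP_natDegree le_rfl h0
  have hAsN : As.natDegree ≤ N := by rw [hAsd]; exact hN
  have hAse : IDeg As e := by
    rw [hAs]
    exact starP_ideg he
  obtain ⟨R₁, hR1, hR1N, hR1e, hR1r⟩ := rCore_rel A A hN hN he he
  obtain ⟨R₂, hR2, hR2N, hR2e, hR2r⟩ := rCore_rel A As hN hAsN he hAse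
  obtain ⟨U₀, hU0, hbr⟩ := exists_branches hA hN he
  refine ⟨U₀ ∪ cen A ∪ cen As ∪ cen R₁ ∪ cen R₂, ?_, ?_⟩
  · refine le_trans ?_ (rCore_count hN1 he1)
    refine (Finset.card_union_le _ _).trans (add_le_add ?_ (cen_card hR2N hR2e))
    refine (Finset.card_union_le _ _).trans (add_le_add ?_ (cen_card hR1N hR1e))
    refine (Finset.card_union_le _ _).trans (add_le_add ?_ (cen_card hAsN hAse))
    exact (Finset.card_union_le _ _).trans (add_le_add hU0 (cen_card hN he))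
  intro I hIo hIc hIne hIU
  have hU0' : ∀ x ∈ I, ∀ u ∈ U₀, 2 ≤ |x - u| := fun x hx u hu =>
    hIU x hx u (by simp only [Finset.mem_union]; tauto)
  have hUA : ∀ x ∈ I, ∀ u ∈ cen A, 2 ≤ |x - u| := fun x hx u hu =>
    hIU x hx u (by simp only [Finset.mem_union]; tauto)
  have hUAs : ∀ x ∈ I, ∀ u ∈ cen As, 2 ≤ |x - u| := fun x hx u hu =>
    hIU x hx u (by simp only [Finset.mem_union]; tauto)
  have hUR1 : ∀ x ∈ I, ∀ u ∈ cen R₁, 2 ≤ |x - u| := fun x hx u hu =>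
    hIU x hx u (by simp only [Finset.mem_union]; tauto)
  have hUR2 : ∀ x ∈ I, ∀ u ∈ cen R₂, 2 ≤ |x - u| := fun x hx u hu =>
    hIU x hx u (by simp only [Finset.mem_union]; tauto)
  have hneq : ∀ {x u : ℝ}, 2 ≤ |x - u| → x ≠ u := by
    rintro x u h rfl
    rw [sub_self, abs_zero] at h
    linarith
  obtain ⟨b, hb⟩ := hbr I hIo hIc hIne (fun x hx u hu => hneq (hU0' x hx u hu))
  have hroot : ∀ j, ∀ ρ ∈ strip I, A.evalEval (Complex.exp ρ) (b j ρ) = 0 :=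
    fun j ρ hρ => rCore_root hb j hρ
  have hbne : ∀ j, ∀ ρ ∈ strip I, b j ρ ≠ 0 := by
    intro j ρ hρ h
    have h1 := hroot j ρ hρ
    rw [h, evalEval, C_0, ← coeff_zero_eq_eval_zero] at h1
    exact eval_exp_ne h0 (fun u hu => hneq (hUA _ hρ u (rCore_cen h0 hu))) h1
  have hlc : A.leadingCoeff ≠ 0 := leadingCoeff_ne_zero.2 hA
  have hlcen : cen1 A.leadingCoeff ⊆ cen A := rCore_cen (k := A.natDegree) hlc
  have hL1 : Real.exp (ttC N e) ≤ Real.exp (ttC (2 * N * N) (2 * N * e)) := by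
    apply Real.exp_le_exp.2
    apply ttC_mono
    · nlinarith
    · nlinarith
  have hL0 : 0 < Real.exp (ttC (2 * N * N) (2 * N * e)) := Real.exp_pos _
  have hconj : ∀ ρ ∈ strip I, (starRingEnd ℂ) ρ ∈ strip I := by
    intro ρ hρ
    change ((starRingEnd ℂ) ρ).re ∈ I
    rw [Complex.conj_re]
    exact hρ
  -- the reflected branches
  have hcroot : ∀ j, ∀ ρ ∈ strip I, As.evalEval (Complex.exp ρ)
      (1 / (starRingEnd ℂ) (b j ((starRingEnd ℂ) ρ))) = 0 := by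
    intro j ρ hρ
    have h1 := hbne j _ (hconj ρ hρ)
    have h2 : (1 / (starRingEnd ℂ) (b j ((starRingEnd ℂ) ρ)) : ℂ) ≠ 0 := by
      rw [one_div]
      exact inv_ne_zero ((_root_.map_ne_zero _).2 h1)
    rw [hAs, starP_eval le_rfl h2]
    have h3 : (1 / (starRingEnd ℂ) (1 / (starRingEnd ℂ) (b j ((starRingEnd ℂ) ρ))) : ℂ) =
        b j ((starRingEnd ℂ) ρ) := by
      rw [map_div₀, map_one, Complex.conj_conj, one_div_one_div]
    rw [h3, ← Complex.exp_conj, hroot j _ (hconj ρ hρ), map_zero, mul_zero]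
  have hstripo : IsOpen (strip I) := hIo.preimage Complex.continuous_re
  have hcdiff : ∀ j, DifferentiableOn ℂ
      (fun ρ => (1 / (starRingEnd ℂ) (b j ((starRingEnd ℂ) ρ)) : ℂ)) (strip I) := by
    intro j ρ hρ
    have h1 : DifferentiableAt ℂ (b j) ((starRingEnd ℂ) ρ) :=
      (hb.hol j).differentiableAt (hstripo.mem_nhds (hconj ρ hρ))
    have h2 : DifferentiableAt ℂ (fun z => (starRingEnd ℂ) (b j ((starRingEnd ℂ) z))) ρ :=
      differentiableAt_conj_conj_iff.2 h1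
    refine (DifferentiableAt.div (differentiableAt_const 1) h2 ?_).differentiableWithinAt
    exact (_root_.map_ne_zero _).2 (hbne j _ (hconj ρ hρ))
  refine ⟨b, hb, hbne, ?_, ?_⟩
  · intro ρ hρ
    exact eval_exp_ne hlc (fun u hu => hneq (hUA _ hρ u (hlcen hu)))
  refine ⟨?_, ?_, ?_, ?_, ?_⟩
  · intro x hx hball ρ hρ j
    have h1 := two_term hA hN he (hUA x hx) ((hb.hol j).mono hball)
      (fun ρ hρ => hroot j ρ (hball hρ)) ρ hρ
    exact h1.trans (mul_le_mul_of_nonneg_right hL1 (norm_nonneg _))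
  · intro x hx hball ρ hρ j
    have hρc : (starRingEnd ℂ) ρ ∈ Metric.ball (x : ℂ) 1 := by
      rw [Metric.mem_ball, Complex.dist_eq] at hρ ⊢
      rw [← Complex.conj_ofReal x, ← map_sub, Complex.norm_conj]
      exact hρ
    have h1 := two_term hAs0 hAsN hAse (hUAs x hx) ((hcdiff j).mono hball)
      (fun ρ hρ => hcroot j ρ (hball hρ)) _ hρc
    have hxs : (x : ℂ) ∈ strip I := hball (Metric.mem_ball_self one_pos)
    simp only [Complex.conj_conj, Complex.conj_ofReal, norm_div, norm_one,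
      Complex.norm_conj] at h1
    have h2 : 0 < ‖b j ρ‖ := norm_pos_iff.2 (hbne j ρ (hball hρ))
    have h3 : 0 < ‖b j x‖ := norm_pos_iff.2 (hbne j x hxs)
    have h4 : 1 / ‖b j ρ‖ ≤ Real.exp (ttC (2 * N * N) (2 * N * e)) * (1 / ‖b j x‖) :=
      h1.trans (mul_le_mul_of_nonneg_right hL1 (by positivity))
    rw [mul_one_div, div_le_div_iff₀ h2 h3, one_mul] at h4
    exact h4
  · intro x hx hball ρ hρ i j
    have hd : 0 < A.natDegree := Nat.pos_of_ne_zero (fun h => by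
      rw [h] at i
      exact i.elim0)
    exact two_term hR1 hR1N hR1e (hUR1 x hx) (((hb.hol i).sub (hb.hol j)).mono hball)
      (fun ρ hρ => hR1r hd hd _ _ _ (hroot i ρ (hball hρ)) (hroot j ρ (hball hρ))) ρ hρ
  · intro x hx hball ρ hρ j
    have hd : 0 < A.natDegree := Nat.pos_of_ne_zero (fun h => by
      rw [h] at j
      exact j.elim0)
    have h1 := two_term hR2 hR2N hR2e (hUR2 x hx) (((hb.hol j).sub (hcdiff j)).mono hball)
      (fun ρ hρ => hR2r hd (by rw [hAsd]; exact hd) _ _ _ (hroot j ρ (hball hρ))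
        (hcroot j ρ (hball hρ))) ρ hρ
    simp only [Pi.sub_apply, Complex.conj_ofReal] at h1
    exact h1
  · intro x hx hball ρ hρ
    have h1 := poly_sup hlc (he A.natDegree) (fun u hu => hUA x hx u (hlcen hu)) hρ
    refine h1.trans (mul_le_mul_of_nonneg_right ?_ (norm_nonneg _))
    apply Real.exp_le_exp.2
    have k1 : (1 : ℝ) ≤ N := by exact_mod_cast hN1
    have k2 : (1 : ℝ) ≤ e := by exact_mod_cast he1
    have k3 : ttC 0 e ≤ ttC (2 * N * N) (2 * N * e) := ttC_mono (Nat.zero_le _) (by nlinarith)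
    have k4 : ttC 0 e = 12 * e := by
      unfold ttC
      norm_num
    linarith

end Pool.Agent.Lib.MP_95e7ec_an
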