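import Mathlib
import Pool.Agent.Lib.MP_95e7ec_an.Ry.RDefs

/-!
# Ry, VelBd: the velocities of the roots from bounds on a disc (Cauchy)
-/

set_option autoImplicit false

open Set Filter Topology MeasureTheory Polynomial
open scoped ContDiff ENNReal Polynomial.Bivariate

namespace Pool.Agent.Lib.MP_95e7ec_an

/-- Proof. `Complex.norm_deriv_le_of_forall_mem_sphere_norm_le` on the circle of radius `1/2`; the second derivative
by `Complex.norm_iteratedDeriv_le_of_forall_mem_sphere_norm_le` (`2! M / (1/2)²`). -/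
theorem cauchy_two {g : ℂ → ℂ} {x : ℂ} (hg : DifferentiableOn ℂ g (Metric.ball x 1)) {M : ℝ}
    (h : ∀ ρ ∈ Metric.ball x 1, ‖g ρ‖ ≤ M) : ‖deriv g x‖ ≤ 2 * M ∧ ‖deriv (deriv g) x‖ ≤ 8 * M := by
  have hsub : Metric.closedBall x (1 / 2) ⊆ Metric.ball x 1 :=
    Metric.closedBall_subset_ball (by norm_num)
  have hd : DiffContOnCl ℂ g (Metric.ball x (1 / 2)) :=
    (hg.mono ((Metric.closure_ball_subset_closedBall).trans hsub)).diffContOnCl
  have hs : ∀ z ∈ Metric.sphere x (1 / 2), ‖g z‖ ≤ M := fun z hz =>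
    h z (hsub (Metric.sphere_subset_closedBall hz))
  refine ⟨?_, ?_⟩
  · have h1 := Complex.norm_deriv_le_of_forall_mem_sphere_norm_le (by norm_num : (0 : ℝ) < 1 / 2)
      hd hs
    linarith
  · have h2 := Complex.norm_iteratedDeriv_le_of_forall_mem_sphere_norm_le 2
      (by norm_num : (0 : ℝ) < 1 / 2) hd hs
    rw [iteratedDeriv_eq_iterate] at h2
    have e : (deriv^[2] g) x = deriv (deriv g) x := rfl
    rw [e] at h2
    have e2 : ((Nat.factorial 2 : ℕ) : ℝ) * M / (1 / 2) ^ 2 = 8 * M := by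
      norm_num [Nat.factorial]
      ring
    rwa [e2] at h2

private theorem VelBd_nhds {b : ℂ → ℂ} {x : ℂ} (hb : DifferentiableOn ℂ b (Metric.ball x 1)) :
    AnalyticAt ℂ b x :=
  hb.analyticAt (Metric.ball_mem_nhds x one_pos)

private theorem VelBd_dlog {b : ℂ → ℂ} {x : ℂ} (hb : DifferentiableOn ℂ b (Metric.ball x 1))
    (hne : b x ≠ 0) : deriv (fun ρ => deriv b ρ / b ρ) x =
      deriv (deriv b) x / b x - (deriv b x / b x) ^ 2 := by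
  have ha := VelBd_nhds hb
  have h1 : HasDerivAt b (deriv b x) x := ha.differentiableAt.hasDerivAt
  have h2 : HasDerivAt (deriv b) (deriv (deriv b) x) x := ha.deriv.differentiableAt.hasDerivAt
  have h3 := (h2.div h1 hne).deriv
  have e : (fun ρ => deriv b ρ / b ρ) = deriv b / b := rfl
  rw [e, h3]
  field_simp

/-- Proof. Near `x`: `vel b = -i b'/b`, `(vel b)' = -i (b''/b - (b'/b)²)`. -/
theorem deriv_vel {b : ℂ → ℂ} {x : ℂ} (hb : DifferentiableOn ℂ b (Metric.ball x 1))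
    (hne : b x ≠ 0) : deriv (vel b) x =
      -Complex.I * (deriv (deriv b) x / b x - (deriv b x / b x) ^ 2) := by
  have e : vel b = fun ρ => -Complex.I * (deriv b ρ / b ρ) := by
    funext ρ
    rw [vel, mul_div_assoc]
  have ha := VelBd_nhds hb
  have hd : DifferentiableAt ℂ (fun ρ => deriv b ρ / b ρ) x :=
    ha.deriv.differentiableAt.div ha.differentiableAt hne
  rw [e, deriv_const_mul _ hd, VelBd_dlog hb hne]

private theorem VelBd_quot {b : ℂ → ℂ} {x : ℂ} (hb : DifferentiableOn ℂ b (Metric.ball x 1))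
    (hne : b x ≠ 0) {L : ℝ} (h : ∀ ρ ∈ Metric.ball x 1, ‖b ρ‖ ≤ L * ‖b x‖) :
    ‖deriv b x / b x‖ ≤ 2 * L ∧ ‖deriv (deriv b) x / b x‖ ≤ 8 * L := by
  obtain ⟨h1, h2⟩ := cauchy_two hb h
  have hp : 0 < ‖b x‖ := norm_pos_iff.2 hne
  refine ⟨?_, ?_⟩
  · rw [norm_div, div_le_iff₀ hp]
    linarith
  · rw [norm_div, div_le_iff₀ hp]
    linarith

/-- the same for a logarithmic derivative -/
theorem logd_bounds {c : ℂ → ℂ} {x : ℂ} (hc : DifferentiableOn ℂ c (Metric.ball x 1))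
    (hne : c x ≠ 0) {L : ℝ} (hL : 1 ≤ L) (h : ∀ ρ ∈ Metric.ball x 1, ‖c ρ‖ ≤ L * ‖c x‖) :
    ‖deriv c x / c x‖ ≤ 2 * L ∧ ‖deriv (fun ρ => deriv c ρ / c ρ) x‖ ≤ 12 * L ^ 2 := by
  obtain ⟨h1, h2⟩ := VelBd_quot hc hne h
  refine ⟨h1, ?_⟩
  rw [VelBd_dlog hc hne]
  have h3 : ‖(deriv c x / c x) ^ 2‖ ≤ (2 * L) ^ 2 := by
    rw [norm_pow]
    exact pow_le_pow_left₀ (norm_nonneg _) h1 2
  calc ‖deriv (deriv c) x / c x - (deriv c x / c x) ^ 2‖
      ≤ ‖deriv (deriv c) x / c x‖ + ‖(deriv c x / c x) ^ 2‖ := norm_sub_le _ _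
    _ ≤ 8 * L + (2 * L) ^ 2 := add_le_add h2 h3
    _ ≤ 12 * L ^ 2 := by nlinarith

/-- Proof. `cauchy_two` with `M = L ‖b x‖`: `‖b'/b‖ ≤ 2L`, `‖b''/b‖ ≤ 8L`. -/
theorem vel_bounds {b : ℂ → ℂ} {x : ℂ} (hb : DifferentiableOn ℂ b (Metric.ball x 1))
    (hne : b x ≠ 0) {L : ℝ} (hL : 1 ≤ L) (h : ∀ ρ ∈ Metric.ball x 1, ‖b ρ‖ ≤ L * ‖b x‖) :
    ‖vel b x‖ ≤ 2 * L ∧ ‖deriv (vel b) x‖ ≤ 12 * L ^ 2 := by
  obtain ⟨h1, h2⟩ := logd_bounds hb hne hL h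
  rw [VelBd_dlog hb hne] at h2
  refine ⟨?_, ?_⟩
  · rw [vel, mul_div_assoc, norm_mul, norm_neg, Complex.norm_I, one_mul]
    exact h1
  · rw [deriv_vel hb hne, norm_mul, norm_neg, Complex.norm_I, one_mul]
    exact h2

/-- Proof. `cauchy_two` for `b - b x` (the derivatives are the same): `‖b'‖ ≤ 2η`, `‖b''‖ ≤ 8η`, `‖b x‖ ≥ 2/3`, so
`‖vel‖ ≤ 3η`, `‖vel'‖ ≤ 12 η + 9 η² ≤ 21 η`. -/
theorem vel_osc {b : ℂ → ℂ} {x : ℂ} (hb : DifferentiableOn ℂ b (Metric.ball x 1))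
    (hx : 2 / 3 ≤ ‖b x‖) {η : ℝ} (hη : η ≤ 1) (h : ∀ ρ ∈ Metric.ball x 1, ‖b ρ - b x‖ ≤ η) :
    ‖vel b x‖ ≤ 3 * η ∧ ‖deriv (vel b) x‖ ≤ 21 * η := by
  have hp : 0 < ‖b x‖ := by linarith
  have hne : b x ≠ 0 := norm_pos_iff.1 hp
  have h0 : 0 ≤ η := (norm_nonneg _).trans (h x (Metric.mem_ball_self one_pos))
  obtain ⟨h1, h2⟩ := cauchy_two (hb.sub_const (b x)) h
  have e1 : deriv (fun ρ => b ρ - b x) = deriv b := by
    funext ρ
    exact deriv_sub_const (b x)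
  rw [e1] at h1 h2
  have h3 : ‖deriv b x / b x‖ ≤ 3 * η := by
    rw [norm_div, div_le_iff₀ hp]
    nlinarith
  have h4 : ‖deriv (deriv b) x / b x‖ ≤ 12 * η := by
    rw [norm_div, div_le_iff₀ hp]
    nlinarith
  refine ⟨?_, ?_⟩
  · rw [vel, mul_div_assoc, norm_mul, norm_neg, Complex.norm_I, one_mul]
    exact h3
  · rw [deriv_vel hb hne, norm_mul, norm_neg, Complex.norm_I, one_mul]
    have h5 : ‖(deriv b x / b x) ^ 2‖ ≤ (3 * η) ^ 2 := by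
      rw [norm_pow]
      exact pow_le_pow_left₀ (norm_nonneg _) h3 2
    calc ‖deriv (deriv b) x / b x - (deriv b x / b x) ^ 2‖
        ≤ ‖deriv (deriv b) x / b x‖ + ‖(deriv b x / b x) ^ 2‖ := norm_sub_le _ _
      _ ≤ 12 * η + (3 * η) ^ 2 := add_le_add h4 h5
      _ ≤ 21 * η := by nlinarith

end Pool.Agent.Lib.MP_95e7ec_an
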