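import Mathlib
import Pool.Agent.Lib.MP_95e7ec_an.Ry.RDefs
import Pool.Agent.Lib.MP_95e7ec_an.Ry.VelBd

/-!
# Ry, VelDiff: the difference of the velocities of two roots
-/

set_option autoImplicit false

open Set Filter Topology MeasureTheory Polynomial
open scoped ContDiff ENNReal Polynomial.Bivariate

namespace Pool.Agent.Lib.MP_95e7ec_an

/-- Proof. Put `g = b - c`, `β = b'/b`, `γ = c'/c` at `x`. `cauchy_two` gives `‖g'‖ ≤ 2L‖g x‖`, `‖g''‖ ≤ 8L‖g x‖`,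
`‖β‖, ‖γ‖ ≤ 2L`, `‖b''/b‖, ‖c''/c‖ ≤ 8L`. `β - γ = g'/b - γ g/b`, so `‖β - γ‖ ≤ 4L ‖g‖/‖b‖ ≤ 6L‖g‖`.
`(b''/b - β²) - (c''/c - γ²) = g''/b - (c''/c) g/b - (β - γ)(β + γ)`, at most
`(8L + 8L) ‖g‖/‖b‖ + 6L‖g‖ 4L ≤ 24 L‖g‖ + 24 L²‖g‖ ≤ 48 L² ‖g‖`. (`b'' /b - c''/c = (g'' + c'')/b - c''/c =
g''/b + (c''/c)(c - b)/b`.) -/
theorem vel_diff {b c : ℂ → ℂ} {x : ℂ} (hb : DifferentiableOn ℂ b (Metric.ball x 1))
    (hc : DifferentiableOn ℂ c (Metric.ball x 1)) (hbx : 2 / 3 ≤ ‖b x‖) (hcx : 2 / 3 ≤ ‖c x‖)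
    {L : ℝ} (hL : 1 ≤ L) (h1 : ∀ ρ ∈ Metric.ball x 1, ‖b ρ‖ ≤ L * ‖b x‖)
    (h2 : ∀ ρ ∈ Metric.ball x 1, ‖c ρ‖ ≤ L * ‖c x‖)
    (h : ∀ ρ ∈ Metric.ball x 1, ‖b ρ - c ρ‖ ≤ L * ‖b x - c x‖) :
    ‖vel b x - vel c x‖ ≤ 6 * L * ‖b x - c x‖ ∧
      ‖deriv (vel b) x - deriv (vel c) x‖ ≤ 48 * L ^ 2 * ‖b x - c x‖ := by
  have hxm : x ∈ Metric.ball x 1 := Metric.mem_ball_self one_pos
  have hnhds : Metric.ball x 1 ∈ 𝓝 x := Metric.ball_mem_nhds x one_pos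
  have hB0 : 0 < ‖b x‖ := by linarith
  have hC0 : 0 < ‖c x‖ := by linarith
  have hBne : b x ≠ 0 := norm_pos_iff.1 hB0
  have hCne : c x ≠ 0 := norm_pos_iff.1 hC0
  have hb' : DifferentiableOn ℂ (deriv b) (Metric.ball x 1) := hb.deriv Metric.isOpen_ball
  have hc' : DifferentiableOn ℂ (deriv c) (Metric.ball x 1) := hc.deriv Metric.isOpen_ball
  have hg : DifferentiableOn ℂ (fun ρ => b ρ - c ρ) (Metric.ball x 1) := hb.sub hc
  have dg1 : ∀ ρ ∈ Metric.ball x 1, deriv (fun ρ => b ρ - c ρ) ρ = deriv b ρ - deriv c ρ := by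
    intro ρ hρ
    exact deriv_fun_sub (hb.differentiableAt (Metric.isOpen_ball.mem_nhds hρ))
      (hc.differentiableAt (Metric.isOpen_ball.mem_nhds hρ))
  have dg1' : deriv (fun ρ => b ρ - c ρ) =ᶠ[𝓝 x] fun ρ => deriv b ρ - deriv c ρ :=
    Filter.eventuallyEq_of_mem hnhds dg1
  have dg2 : deriv (deriv (fun ρ => b ρ - c ρ)) x = deriv (deriv b) x - deriv (deriv c) x := by
    rw [dg1'.deriv_eq]
    exact deriv_fun_sub (hb'.differentiableAt hnhds) (hc'.differentiableAt hnhds)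
  obtain ⟨g1, g2⟩ := cauchy_two hg h
  obtain ⟨b1, b2⟩ := cauchy_two hb h1
  obtain ⟨c1, c2⟩ := cauchy_two hc h2
  rw [dg1 x hxm] at g1
  rw [dg2] at g2
  rw [deriv_vel hb hBne, deriv_vel hc hCne]
  have v1 : vel b x - vel c x = -Complex.I * (deriv b x / b x - deriv c x / c x) := by
    rw [vel, vel]
    ring
  set B := b x with hB
  set C := c x with hC
  set b' := deriv b x with hb'd
  set c' := deriv c x with hc'd
  set b'' := deriv (deriv b) x with hb''d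
  set c'' := deriv (deriv c) x with hc''d
  set d := ‖B - C‖ with hd
  have hd0 : 0 ≤ d := norm_nonneg _
  have nb : ‖b' / B‖ ≤ 2 * L := by
    rw [norm_div, div_le_iff₀ hB0]
    linarith
  have nc : ‖c' / C‖ ≤ 2 * L := by
    rw [norm_div, div_le_iff₀ hC0]
    linarith
  have nc2 : ‖c'' / C‖ ≤ 8 * L := by
    rw [norm_div, div_le_iff₀ hC0]
    linarith
  have e1 : b' / B - c' / C = (b' - c') / B - c' / C * (B - C) / B := by
    field_simp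
    ring
  have e2 : b'' / B - c'' / C = (b'' - c'') / B - c'' / C * (B - C) / B := by
    field_simp
    ring
  have hL0 : 0 ≤ L := by linarith
  have key : ∀ t : ℝ, 0 ≤ t → t / ‖B‖ ≤ 3 / 2 * t := by
    intro t ht
    rw [div_le_iff₀ hB0]
    nlinarith
  have n1 : ‖b' / B - c' / C‖ ≤ 6 * L * d := by
    rw [e1]
    calc ‖(b' - c') / B - c' / C * (B - C) / B‖
        ≤ ‖(b' - c') / B‖ + ‖c' / C * (B - C) / B‖ := norm_sub_le _ _
      _ = ‖b' - c'‖ / ‖B‖ + ‖c' / C‖ * d / ‖B‖ := by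
          rw [norm_div, norm_div, norm_mul]
      _ ≤ (2 * (L * d)) / ‖B‖ + (2 * L) * d / ‖B‖ := by gcongr
      _ ≤ 3 / 2 * (2 * (L * d)) + 3 / 2 * ((2 * L) * d) :=
          add_le_add (key _ (by positivity)) (key _ (by positivity))
      _ = 6 * L * d := by ring
  have n2 : ‖b'' / B - c'' / C‖ ≤ 24 * L * d := by
    rw [e2]
    calc ‖(b'' - c'') / B - c'' / C * (B - C) / B‖
        ≤ ‖(b'' - c'') / B‖ + ‖c'' / C * (B - C) / B‖ := norm_sub_le _ _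
      _ = ‖b'' - c''‖ / ‖B‖ + ‖c'' / C‖ * d / ‖B‖ := by
          rw [norm_div, norm_div, norm_mul]
      _ ≤ (8 * (L * d)) / ‖B‖ + (8 * L) * d / ‖B‖ := by gcongr
      _ ≤ 3 / 2 * (8 * (L * d)) + 3 / 2 * ((8 * L) * d) :=
          add_le_add (key _ (by positivity)) (key _ (by positivity))
      _ = 24 * L * d := by ring
  have n3 : ‖b' / B + c' / C‖ ≤ 4 * L := (norm_add_le _ _).trans (by linarith)
  constructor
  · rw [v1, norm_mul, norm_neg, Complex.norm_I, one_mul]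
    exact n1
  · have e3 : -Complex.I * (b'' / B - (b' / B) ^ 2) - -Complex.I * (c'' / C - (c' / C) ^ 2) =
        -Complex.I * ((b'' / B - c'' / C) - (b' / B - c' / C) * (b' / B + c' / C)) := by ring
    rw [e3, norm_mul, norm_neg, Complex.norm_I, one_mul]
    calc ‖(b'' / B - c'' / C) - (b' / B - c' / C) * (b' / B + c' / C)‖
        ≤ ‖b'' / B - c'' / C‖ + ‖(b' / B - c' / C) * (b' / B + c' / C)‖ := norm_sub_le _ _
      _ = ‖b'' / B - c'' / C‖ + ‖b' / B - c' / C‖ * ‖b' / B + c' / C‖ := by rw [norm_mul]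
      _ ≤ 24 * L * d + (6 * L * d) * (4 * L) := by gcongr
      _ ≤ 48 * L ^ 2 * d := by nlinarith [mul_nonneg (mul_nonneg hL0 hd0) (sub_nonneg.2 hL)]

/-- Proof. `c ρ = 1 / conj (b (conj ρ))` is holomorphic on the (symmetric) ball, `‖c x‖ = 1/‖b x‖`, and
`‖c ρ‖ ≤ L ‖c x‖` is the hypothesis `h1'`. At the real point `x`: `c' / c = - conj (b'/b)`, so
`vel c x = conj (vel b x)` and, since `vel c ρ = conj (vel b (conj ρ))` near `x`, `(vel c)' x = conj ((vel b)' x)`. Hence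
`2 |Im vel b x| = ‖vel b x - vel c x‖ ≤ 6 L ‖b x - c x‖` by `vel_diff`, and
`‖b x - c x‖ = |‖b x‖² - 1| / ‖b x‖ = |‖b x‖ - 1| (‖b x‖ + 1)/‖b x‖ ≤ 2.5 |‖b x‖ - 1|`. -/
theorem vel_refl {b : ℂ → ℂ} {x : ℝ} (hb : DifferentiableOn ℂ b (Metric.ball (x : ℂ) 1))
    (hne : ∀ ρ ∈ Metric.ball (x : ℂ) 1, b ρ ≠ 0) (hbx : near (b x))
    {L : ℝ} (hL : 1 ≤ L) (h1 : ∀ ρ ∈ Metric.ball (x : ℂ) 1, ‖b ρ‖ ≤ L * ‖b x‖)
    (h1' : ∀ ρ ∈ Metric.ball (x : ℂ) 1, ‖b x‖ ≤ L * ‖b ρ‖)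
    (h : ∀ ρ ∈ Metric.ball (x : ℂ) 1, ‖b ρ - 1 / (starRingEnd ℂ) (b ((starRingEnd ℂ) ρ))‖ ≤
      L * ‖b x - 1 / (starRingEnd ℂ) (b x)‖) :
    |(vel b x).im| ≤ 8 * L * |‖b x‖ - 1| ∧ |(deriv (vel b) x).im| ≤ 60 * L ^ 2 * |‖b x‖ - 1| := by
  set cj := starRingEnd ℂ with hcj
  have hcx0 : cj (x : ℂ) = (x : ℂ) := Complex.conj_ofReal x
  have hball : ∀ ρ : ℂ, ρ ∈ Metric.ball (x : ℂ) 1 → cj ρ ∈ Metric.ball (x : ℂ) 1 := by
    intro ρ hρ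
    rw [Metric.mem_ball] at hρ ⊢
    rw [← hcx0, Complex.dist_conj_conj]
    exact hρ
  have hcc : ∀ ρ : ℂ, cj (cj ρ) = ρ := Complex.conj_conj
  obtain ⟨hb1, hb2⟩ := hbx
  have hb0 : 0 < ‖b x‖ := by linarith
  set c : ℂ → ℂ := fun ρ => 1 / cj (b (cj ρ)) with hc
  have hst : ∀ ρ ∈ Metric.ball (x : ℂ) 1,
      HasDerivAt (fun ρ => cj (b (cj ρ))) (cj (deriv b (cj ρ))) ρ := by
    intro ρ hρ
    have h3 : HasDerivAt b (deriv b (cj ρ)) (cj ρ) :=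
      (hb.differentiableAt (Metric.isOpen_ball.mem_nhds (hball ρ hρ))).hasDerivAt
    have h4 := h3.conj_conj
    have h5 : (starRingEnd ℂ) (cj ρ) = ρ := hcc ρ
    rw [h5] at h4
    exact h4
  have hcne : ∀ ρ ∈ Metric.ball (x : ℂ) 1, cj (b (cj ρ)) ≠ 0 := by
    intro ρ hρ
    rw [Ne, map_eq_zero]
    exact hne _ (hball ρ hρ)
  have hcd : ∀ ρ ∈ Metric.ball (x : ℂ) 1,
      HasDerivAt c (-(cj (deriv b (cj ρ))) / (cj (b (cj ρ))) ^ 2) ρ := by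
    intro ρ hρ
    have h3 := (hst ρ hρ).inv (hcne ρ hρ)
    have h4 : c = fun ρ => (cj (b (cj ρ)))⁻¹ := by
      funext ρ
      rw [hc]
      simp only [one_div]
    rw [h4]
    exact h3
  have hcdiff : DifferentiableOn ℂ c (Metric.ball (x : ℂ) 1) := fun ρ hρ =>
    (hcd ρ hρ).differentiableAt.differentiableWithinAt
  have hvel : ∀ ρ ∈ Metric.ball (x : ℂ) 1, vel c ρ = cj (vel b (cj ρ)) := by
    intro ρ hρ
    have h3 := hcne ρ hρ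
    have h5 : vel c ρ = -Complex.I * deriv c ρ / c ρ := rfl
    have h6 : vel b (cj ρ) = -Complex.I * deriv b (cj ρ) / b (cj ρ) := rfl
    have h7 : c ρ = 1 / cj (b (cj ρ)) := rfl
    rw [h5, h6, (hcd ρ hρ).deriv, h7, map_div₀, map_mul, map_neg, Complex.conj_I]
    field_simp
  have hvx : vel c x = cj (vel b x) := by
    rw [hvel x (Metric.mem_ball_self one_pos), hcx0]
  have hvel' : vel c =ᶠ[𝓝 (x : ℂ)] (starRingEnd ℂ) ∘ vel b ∘ (starRingEnd ℂ) :=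
    Filter.eventuallyEq_of_mem (Metric.ball_mem_nhds _ one_pos) hvel
  have hvd : deriv (vel c) x = cj (deriv (vel b) x) := by
    rw [hvel'.deriv_eq, deriv_conj_conj]
    change cj (deriv (vel b) (cj (x : ℂ))) = _
    rw [hcx0]
  have ncx : ‖c x‖ = 1 / ‖b x‖ := by
    have h7 : c x = 1 / cj (b (cj (x : ℂ))) := rfl
    rw [h7, hcx0, norm_div, norm_one, RCLike.norm_conj]
  have hcx : 2 / 3 ≤ ‖c x‖ := by
    rw [ncx, le_div_iff₀ hb0]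
    linarith
  have h2 : ∀ ρ ∈ Metric.ball (x : ℂ) 1, ‖c ρ‖ ≤ L * ‖c x‖ := by
    intro ρ hρ
    have h7 : c ρ = 1 / cj (b (cj ρ)) := rfl
    have h8 : 0 < ‖b (cj ρ)‖ := norm_pos_iff.2 (hne _ (hball ρ hρ))
    rw [ncx, h7, norm_div, norm_one, RCLike.norm_conj, mul_one_div,
      div_le_div_iff₀ h8 hb0, one_mul]
    exact h1' _ (hball ρ hρ)
  have hcxx : b x - c x = b x - 1 / cj (b x) := by
    have h7 : c x = 1 / cj (b (cj (x : ℂ))) := rfl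
    rw [h7, hcx0]
  have h3 : ∀ ρ ∈ Metric.ball (x : ℂ) 1, ‖b ρ - c ρ‖ ≤ L * ‖b x - c x‖ := by
    intro ρ hρ
    rw [hcxx]
    exact h ρ hρ
  obtain ⟨k1, k2⟩ := vel_diff hb hcdiff hb1 hcx hL h1 h2 h3
  have hnn : ‖b x - c x‖ ≤ 5 / 2 * |‖b x‖ - 1| := by
    have hbne : b x ≠ 0 := norm_pos_iff.1 hb0
    have hcb : cj (b x) ≠ 0 := by
      rw [Ne, map_eq_zero]
      exact hbne
    have e1 : b x - 1 / cj (b x) = (((‖b x‖ ^ 2 - 1 : ℝ)) : ℂ) / cj (b x) := by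
      rw [eq_div_iff hcb, sub_mul, one_div, inv_mul_cancel₀ hcb]
      have e2 : b x * cj (b x) = ((‖b x‖ ^ 2 : ℝ) : ℂ) := by
        rw [hcj, Complex.mul_conj, Complex.normSq_eq_norm_sq]
      rw [e2]
      push_cast
      ring
    rw [hcxx, e1, norm_div, RCLike.norm_conj, Complex.norm_real, div_le_iff₀ hb0,
      Real.norm_eq_abs]
    have e3 : ‖b x‖ ^ 2 - 1 = (‖b x‖ - 1) * (‖b x‖ + 1) := by ring
    rw [e3, abs_mul, abs_of_pos (show (0 : ℝ) < ‖b x‖ + 1 by linarith)]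
    have h9 : 0 ≤ |‖b x‖ - 1| := abs_nonneg _
    nlinarith
  have im_of : ∀ z : ℂ, 2 * |z.im| = ‖z - cj z‖ := by
    intro z
    have e4 : z - cj z = ((2 * z.im : ℝ) : ℂ) * Complex.I := by
      rw [hcj]
      apply Complex.ext
      · simp
      · simp
        ring
    rw [e4, norm_mul, Complex.norm_I, mul_one, Complex.norm_real, Real.norm_eq_abs, abs_mul,
      abs_of_pos (by norm_num : (0 : ℝ) < 2)]
  rw [hvx, ← im_of] at k1
  rw [hvd, ← im_of] at k2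
  have h9 : 0 ≤ |‖b x‖ - 1| := abs_nonneg _
  have hL0 : 0 ≤ L := by linarith
  constructor
  · have h10 : 6 * L * ‖b x - c x‖ ≤ 6 * L * (5 / 2 * |‖b x‖ - 1|) := by gcongr
    nlinarith [mul_nonneg hL0 h9]
  · have h10 : 48 * L ^ 2 * ‖b x - c x‖ ≤ 48 * L ^ 2 * (5 / 2 * |‖b x‖ - 1|) := by gcongr
    nlinarith [mul_nonneg hL0 h9]

end Pool.Agent.Lib.MP_95e7ec_an
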