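import Mathlib
import Pool.Agent.Lib.MP_95e7ec_an.Ry.RDefs

/-!
# Ry, CutTau: the cut off of the bad rays
-/

set_option autoImplicit false

open Set Filter Topology MeasureTheory Polynomial
open scoped ContDiff ENNReal Polynomial.Bivariate

namespace Pool.Agent.Lib.MP_95e7ec_an

/-- two points of the circle at distance `< 2h`, the arguments differ by less than `π h` modulo `2π` -/
private theorem cutTau_near {θ θ' h : ℝ} (h1 : θ' ≤ θ) (h2 : θ - θ' < 2 * Real.pi)
    (h3 : ‖Complex.exp (θ * Complex.I) - Complex.exp (θ' * Complex.I)‖ < 2 * h) :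
    θ - θ' < Real.pi * h ∨ 2 * Real.pi - (θ - θ') < Real.pi * h := by
  have hpi := Real.pi_pos
  have e1 : Complex.exp (θ * Complex.I) - Complex.exp (θ' * Complex.I) =
      (Complex.exp (Complex.I * ((θ - θ' : ℝ) : ℂ)) - 1) * Complex.exp (θ' * Complex.I) := by
    rw [sub_mul, one_mul, ← Complex.exp_add]
    congr 2
    push_cast
    ring
  rw [e1, norm_mul, Complex.norm_exp_I_mul_ofReal_sub_one, Complex.norm_exp_ofReal_mul_I, mul_one,
    Real.norm_eq_abs, abs_mul, abs_two] at h3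
  have h4 : Real.sin ((θ - θ') / 2) < h := by
    have := le_abs_self (Real.sin ((θ - θ') / 2))
    linarith
  have key : ∀ y : ℝ, 0 ≤ y → y ≤ Real.pi / 2 → Real.sin y < h → 2 * y < Real.pi * h := by
    intro y hy0 hy1 hy2
    have h5 := Real.mul_le_sin hy0 hy1
    have h6 : 2 / Real.pi * y < h := lt_of_le_of_lt h5 hy2
    have h7 : 2 / Real.pi * y * Real.pi < h * Real.pi := mul_lt_mul_of_pos_right h6 hpi
    have h8 : 2 / Real.pi * y * Real.pi = 2 * y := by
      field_simp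
    linarith [mul_comm h Real.pi]
  rcases le_total ((θ - θ') / 2) (Real.pi / 2) with h5 | h5
  · left
    have := key ((θ - θ') / 2) (by linarith) h5 h4
    linarith
  · right
    have := key (Real.pi - (θ - θ') / 2) (by linarith) (by linarith)
      (by rw [Real.sin_pi_sub]; exact h4)
    linarith

/-- Proof. If `‖e^{iθ} - c‖ < h` and `‖e^{iθ'} - c‖ < h` then `2 |sin ((θ-θ')/2)| = ‖e^{iθ} - e^{iθ'}‖ < 2h`, so `θ - θ'` is
within `π h` of a multiple of `2π` (`|sin y| ≥ (2/π) |y|` for `|y| ≤ π/2`). Hence the set is contained in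
`⋃_{j ∈ {-1,0,1}} Icc (θ' + 2πj - πh) (θ' + 2πj + πh)` intersected with `Ioc 0 (2π)`; by periodicity its measure is
at most `2πh ≤ 8h`: e.g. the measure over one period does not depend on the period
(`volume` of `Ioc (θ'-π) (θ'+π)` instead), there only `j = 0` occurs. A bound `24 h` (three intervals of length `2πh ≤ 7h`)
is also enough here. -/
theorem ray_measure (c : ℂ) {h : ℝ} (hh : 0 ≤ h) :
    volume {θ : ℝ | θ ∈ Set.Ioc 0 (2 * Real.pi) ∧ ‖Complex.exp (θ * Complex.I) - c‖ < h} ≤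
      ENNReal.ofReal (24 * h) := by
  rcases Set.eq_empty_or_nonempty
    {θ : ℝ | θ ∈ Set.Ioc 0 (2 * Real.pi) ∧ ‖Complex.exp (θ * Complex.I) - c‖ < h} with h0 | ⟨t, ht⟩
  · rw [h0, measure_empty]; exact bot_le
  have hpi := Real.pi_pos
  have hpi4 := Real.pi_lt_four
  have hsub : {θ : ℝ | θ ∈ Set.Ioc 0 (2 * Real.pi) ∧ ‖Complex.exp (θ * Complex.I) - c‖ < h} ⊆
      Set.Ioo (t - Real.pi * h) (t + Real.pi * h) ∪
        (Set.Ioo (t + 2 * Real.pi - Real.pi * h) (t + 2 * Real.pi) ∪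
          Set.Ioo (t - 2 * Real.pi) (t - 2 * Real.pi + Real.pi * h)) := by
    intro θ hθ
    have hd : ‖Complex.exp (θ * Complex.I) - Complex.exp (t * Complex.I)‖ < 2 * h := by
      have e : Complex.exp (θ * Complex.I) - Complex.exp (t * Complex.I) =
          (Complex.exp (θ * Complex.I) - c) - (Complex.exp (t * Complex.I) - c) := by ring
      rw [e]
      refine lt_of_le_of_lt (norm_sub_le _ _) ?_
      linarith [hθ.2, ht.2]
    have a1 := hθ.1.1
    have a2 := hθ.1.2
    have b1 := ht.1.1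
    have b2 := ht.1.2
    have hpos : 0 < Real.pi * h := by
      have : 0 < h := lt_of_le_of_lt (norm_nonneg _) ht.2
      positivity
    rcases le_total t θ with h1 | h1
    · rcases cutTau_near h1 (by linarith) hd with h2 | h2
      · left; constructor <;> linarith
      · right; left; constructor <;> linarith
    · rw [norm_sub_rev] at hd
      rcases cutTau_near h1 (by linarith) hd with h2 | h2
      · left; constructor <;> linarith
      · right; right; constructor <;> linarith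
  refine (measure_mono hsub).trans ((measure_union_le _ _).trans ?_)
  refine (add_le_add le_rfl (measure_union_le _ _)).trans ?_
  rw [Real.volume_Ioo, Real.volume_Ioo, Real.volume_Ioo]
  have hph : 0 ≤ Real.pi * h := by positivity
  rw [← ENNReal.ofReal_add (by linarith) (by linarith), ← ENNReal.ofReal_add (by linarith) (by linarith)]
  apply ENNReal.ofReal_le_ofReal
  nlinarith

/-- one cut off function -/
private noncomputable def cutTau1 (κ : ℝ) (c : ℂ) (θ : ℝ) : ℝ :=
  max 0 (min 1 (2 - ‖Complex.exp (θ * Complex.I) - c‖ / κ))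

private theorem cutTau1_cont (κ : ℝ) (c : ℂ) : Continuous (cutTau1 κ c) := by
  unfold cutTau1
  fun_prop

private theorem cutTau1_nonneg (κ : ℝ) (c : ℂ) (θ : ℝ) : 0 ≤ cutTau1 κ c θ := le_max_left _ _

private theorem cutTau1_le_one (κ : ℝ) (c : ℂ) (θ : ℝ) : cutTau1 κ c θ ≤ 1 :=
  max_le zero_le_one (min_le_left _ _)

private theorem cutTau1_periodic (κ : ℝ) (c : ℂ) (θ : ℝ) :
    cutTau1 κ c (θ + 2 * Real.pi) = cutTau1 κ c θ := by
  unfold cutTau1
  have e : Complex.exp ((θ + 2 * Real.pi : ℝ) * Complex.I) = Complex.exp (θ * Complex.I) := by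
    push_cast
    rw [add_mul, Complex.exp_add, Complex.exp_two_pi_mul_I, mul_one]
  rw [e]

private theorem cutTau1_lt {κ : ℝ} (hκ : 0 < κ) {c : ℂ} {θ : ℝ} (h : cutTau1 κ c θ < 1) :
    κ ≤ ‖Complex.exp (θ * Complex.I) - c‖ := by
  by_contra h1
  push Not at h1
  have h2 : 1 ≤ 2 - ‖Complex.exp (θ * Complex.I) - c‖ / κ := by
    have : ‖Complex.exp (θ * Complex.I) - c‖ / κ ≤ 1 := by
      rw [div_le_one hκ]; exact h1.le
    linarith
  have h3 : (1 : ℝ) ≤ cutTau1 κ c θ := by
    unfold cutTau1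
    rw [min_eq_left h2]
    exact le_max_right _ _
  linarith

private theorem cutTau1_zero {κ : ℝ} (hκ : 0 < κ) {c : ℂ} {θ : ℝ}
    (h : 2 * κ ≤ ‖Complex.exp (θ * Complex.I) - c‖) : cutTau1 κ c θ = 0 := by
  unfold cutTau1
  have h2 : 2 - ‖Complex.exp (θ * Complex.I) - c‖ / κ ≤ 0 := by
    have : 2 ≤ ‖Complex.exp (θ * Complex.I) - c‖ / κ := by
      rw [le_div_iff₀ hκ]; exact h
    linarith
  exact max_eq_left ((min_le_right _ _).trans h2)

private theorem cutTau1_int {κ : ℝ} (hκ : 0 < κ) (c : ℂ) :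
    ∫ θ in (0 : ℝ)..(2 * Real.pi), cutTau1 κ c θ ≤ 48 * κ := by
  have hpi := Real.pi_pos
  rw [intervalIntegral.integral_of_le (by positivity)]
  have hS : MeasurableSet {θ : ℝ | ‖Complex.exp (θ * Complex.I) - c‖ < 2 * κ} := by
    apply measurableSet_lt <;> fun_prop
  have h1 : ∀ θ : ℝ, cutTau1 κ c θ ≤
      Set.indicator {θ : ℝ | ‖Complex.exp (θ * Complex.I) - c‖ < 2 * κ} (fun _ => (1 : ℝ)) θ := by
    intro θ
    by_cases h : ‖Complex.exp (θ * Complex.I) - c‖ < 2 * κ
    · rw [Set.indicator_of_mem (by exact h)]; exact cutTau1_le_one κ c θ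
    · rw [Set.indicator_of_notMem (by exact h), cutTau1_zero hκ (not_lt.1 h)]
  have hfin : volume (Set.Ioc (0 : ℝ) (2 * Real.pi)) < ⊤ := by
    rw [Real.volume_Ioc]; exact ENNReal.ofReal_lt_top
  have : IsFiniteMeasure (volume.restrict (Set.Ioc (0 : ℝ) (2 * Real.pi))) :=
    ⟨by rw [Measure.restrict_apply_univ]; exact hfin⟩
  have h2 : ∫ θ in Set.Ioc 0 (2 * Real.pi), cutTau1 κ c θ ≤
      ∫ θ in Set.Ioc 0 (2 * Real.pi),
        Set.indicator {θ : ℝ | ‖Complex.exp (θ * Complex.I) - c‖ < 2 * κ} (fun _ => (1 : ℝ)) θ := by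
    apply integral_mono
    · exact ((cutTau1_cont κ c).integrableOn_Icc (a := 0) (b := 2 * Real.pi)).mono_set
        Set.Ioc_subset_Icc_self
    · exact (integrable_const (1 : ℝ)).indicator hS
    · exact h1
  refine h2.trans ?_
  rw [integral_indicator hS, setIntegral_const, smul_eq_mul, mul_one, measureReal_def,
    Measure.restrict_apply hS]
  have h3 := ray_measure c (h := 2 * κ) (by positivity)
  have h4 : {θ : ℝ | ‖Complex.exp (θ * Complex.I) - c‖ < 2 * κ} ∩ Set.Ioc 0 (2 * Real.pi) =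
      {θ : ℝ | θ ∈ Set.Ioc 0 (2 * Real.pi) ∧ ‖Complex.exp (θ * Complex.I) - c‖ < 2 * κ} := by
    ext θ; exact and_comm
  rw [h4]
  refine (ENNReal.toReal_mono ENNReal.ofReal_ne_top h3).trans ?_
  rw [ENNReal.toReal_ofReal (by positivity)]
  linarith

/-- Proof. `τ θ = max 0 (min 1 (2 - μ θ / κ))`, `μ θ` the minimum over `c ∈ T` of `‖e^{iθ} - c‖` (`T` empty: `τ = 0`).
`τ` is continuous, `2π`-periodic, `τ θ < 1` implies `μ θ > κ`, and `τ θ ≠ 0` implies `μ θ < 2κ`, so
`∫ τ ≤ volume {θ ∈ Ioc 0 (2π) | ∃ c ∈ T, ‖e^{iθ} - c‖ < 2κ} ≤ card T * 48 κ`. -/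
theorem exists_cut (T : Finset ℂ) {N : ℕ} (hT : T.card ≤ N) {κ : ℝ} (hκ : 0 < κ) :
    ∃ τ : ℝ → ℝ, CutOff τ (48 * N * κ) ∧
      ∀ θ : ℝ, τ θ < 1 → ∀ c ∈ T, κ ≤ ‖Complex.exp (θ * Complex.I) - c‖ := by
  have hpi := Real.pi_pos
  have hsum : Continuous fun θ : ℝ => ∑ c ∈ T, cutTau1 κ c θ :=
    continuous_finsetSum _ fun c _ => cutTau1_cont κ c
  have hs0 : ∀ θ : ℝ, 0 ≤ ∑ c ∈ T, cutTau1 κ c θ := fun θ =>
    Finset.sum_nonneg fun c _ => cutTau1_nonneg κ c θ
  refine ⟨fun θ => min 1 (∑ c ∈ T, cutTau1 κ c θ), ⟨?_, ?_, ?_, ?_, ?_⟩, ?_⟩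
  · exact continuous_const.min hsum
  · intro θ
    simp only [cutTau1_periodic]
  · intro θ
    exact le_min zero_le_one (hs0 θ)
  · intro θ
    exact min_le_left _ _
  · have h1 : ∫ θ in (0 : ℝ)..(2 * Real.pi), min 1 (∑ c ∈ T, cutTau1 κ c θ) ≤
        ∫ θ in (0 : ℝ)..(2 * Real.pi), ∑ c ∈ T, cutTau1 κ c θ := by
      apply intervalIntegral.integral_mono_on (by positivity)
      · exact (continuous_const.min hsum).intervalIntegrable _ _
      · exact hsum.intervalIntegrable _ _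
      · intro θ _
        exact min_le_right _ _
    refine h1.trans ?_
    rw [intervalIntegral.integral_finsetSum fun c _ => (cutTau1_cont κ c).intervalIntegrable _ _]
    refine (Finset.sum_le_sum fun c _ => cutTau1_int hκ c).trans ?_
    rw [Finset.sum_const, nsmul_eq_mul]
    have h2 : (T.card : ℝ) ≤ N := by exact_mod_cast hT
    nlinarith [mul_le_mul_of_nonneg_right h2 (by positivity : (0 : ℝ) ≤ 48 * κ)]
  · intro θ hθ c hc
    apply cutTau1_lt hκ
    have h1 : ∑ c ∈ T, cutTau1 κ c θ < 1 := by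
      by_contra h
      push Not at h
      have : min 1 (∑ c ∈ T, cutTau1 κ c θ) = 1 := min_eq_left h
      simp only [this, lt_irrefl] at hθ
    exact lt_of_le_of_lt (Finset.single_le_sum (f := fun c => cutTau1 κ c θ)
      (fun c _ => cutTau1_nonneg κ c θ) hc) h1

end Pool.Agent.Lib.MP_95e7ec_an
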