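import Mathlib
import Pool.Agent.Lib.MP_95e7ec_an.Ry.RDefs

/-!
# Ry, PolyLow: bounds for a polynomial in one variable
-/

set_option autoImplicit false

open Set Filter Topology MeasureTheory Polynomial
open scoped ContDiff ENNReal Polynomial.Bivariate

namespace Pool.Agent.Lib.MP_95e7ec_an

theorem l1_pos {w : ℂ[X]} (hw : w ≠ 0) : 0 < l1 w := by
  unfold l1
  refine Finset.sum_pos (fun i hi => norm_pos_iff.2 (mem_support_iff.1 hi)) ?_
  rw [Finset.nonempty_iff_ne_empty]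
  exact fun h => hw (support_eq_empty.1 h)

theorem l1_nonneg (w : ℂ[X]) : 0 ≤ l1 w := Finset.sum_nonneg fun _ _ => norm_nonneg _

private theorem polyLow_range (w : ℂ[X]) {n : ℕ} (hn : w.natDegree < n) :
    l1 w = ∑ i ∈ Finset.range n, ‖w.coeff i‖ :=
  sum_over_range' w (f := fun _ a => ‖a‖) (fun _ => norm_zero) n hn

theorem poly_upper {w : ℂ[X]} {N : ℕ} (hN : w.natDegree ≤ N) {s : ℂ} (hs : ‖s‖ ≤ 2) :
    ‖w.eval s‖ ≤ 2 ^ N * l1 w := by
  rw [eval_eq_sum_range' (Nat.lt_succ_of_le hN), polyLow_range w (Nat.lt_succ_of_le hN),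
    Finset.mul_sum]
  refine (norm_sum_le _ _).trans (Finset.sum_le_sum fun i hi => ?_)
  have hi' : i ≤ N := Nat.lt_succ_iff.1 (Finset.mem_range.1 hi)
  rw [norm_mul, norm_pow, mul_comm]
  refine mul_le_mul_of_nonneg_right ?_ (norm_nonneg _)
  exact (pow_le_pow_left₀ (norm_nonneg _) hs i).trans
    (pow_le_pow_right₀ (by norm_num) hi')

private theorem polyLow_mul (c : ℂ) (q : ℂ[X]) : l1 ((X - C c) * q) ≤ (1 + ‖c‖) * l1 q := by
  have h1 : ((X - C c) * q).natDegree < q.natDegree + 2 := by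
    have := natDegree_mul_le (p := X - C c) (q := q)
    have h2 := natDegree_X_sub_C_le c
    omega
  rw [polyLow_range _ h1, polyLow_range q (Nat.lt_succ_self _)]
  have h3 : ∀ i, ‖((X - C c) * q).coeff i‖ ≤ ‖(X * q).coeff i‖ + ‖c‖ * ‖q.coeff i‖ := by
    intro i
    rw [sub_mul, coeff_sub, coeff_C_mul]
    refine (norm_sub_le _ _).trans ?_
    rw [norm_mul]
  refine (Finset.sum_le_sum fun i _ => h3 i).trans ?_
  have a1 : ∑ i ∈ Finset.range (q.natDegree + 2), ‖(X * q).coeff i‖ =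
      ∑ i ∈ Finset.range (q.natDegree + 1), ‖q.coeff i‖ := by
    rw [Finset.sum_range_succ']
    simp [coeff_X_mul]
  have a2 : ∑ i ∈ Finset.range (q.natDegree + 2), ‖c‖ * ‖q.coeff i‖ =
      ‖c‖ * ∑ i ∈ Finset.range (q.natDegree + 1), ‖q.coeff i‖ := by
    rw [Finset.sum_range_succ, coeff_eq_zero_of_natDegree_lt (Nat.lt_succ_self q.natDegree),
      norm_zero, mul_zero, add_zero, Finset.mul_sum]
  rw [Finset.sum_add_distrib, a1, a2]
  change _ ≤ (1 + ‖c‖) * ∑ i ∈ Finset.range (q.natDegree + 1), ‖q.coeff i‖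
  linarith

private theorem polyLow_prod (a : ℂ) (S : Multiset ℂ) :
    l1 (C a * (S.map fun c => X - C c).prod) ≤ ‖a‖ * (S.map fun c => 1 + ‖c‖).prod := by
  induction S using Multiset.induction_on with
  | empty =>
    rw [Multiset.map_zero, Multiset.prod_zero, Multiset.map_zero, Multiset.prod_zero, mul_one,
      mul_one, polyLow_range (C a) (n := 1) (by rw [natDegree_C]; exact one_pos)]
    simp
  | cons c S ih =>
    rw [Multiset.map_cons, Multiset.prod_cons, Multiset.map_cons, Multiset.prod_cons,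
      mul_left_comm]
    refine (polyLow_mul c _).trans ?_
    have := mul_le_mul_of_nonneg_left ih (show 0 ≤ 1 + ‖c‖ by positivity)
    linarith

private theorem polyLow_eval {ε : ℝ} (hε : 0 < ε) (hε1 : ε ≤ 1) {s : ℂ} (hs : ‖s‖ ≤ 2)
    (S : Multiset ℂ) (h : ∀ c ∈ S, ε ≤ ‖s - c‖) :
    (ε / 5) ^ Multiset.card S * (S.map fun c => 1 + ‖c‖).prod ≤
      ‖(S.map fun c => s - c).prod‖ := by
  induction S using Multiset.induction_on with
  | empty => simp
  | cons c S ih =>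
    rw [Multiset.map_cons, Multiset.prod_cons, Multiset.map_cons, Multiset.prod_cons,
      Multiset.card_cons, norm_mul]
    have h1 := ih fun c hc => h c (Multiset.mem_cons_of_mem hc)
    have h2 : ε / 5 * (1 + ‖c‖) ≤ ‖s - c‖ := by
      have h3 := h c (Multiset.mem_cons_self c S)
      rcases le_total ‖c‖ 4 with hc | hc
      · nlinarith
      · have h4 : ‖c‖ - ‖s‖ ≤ ‖s - c‖ := by
          rw [norm_sub_rev]
          exact norm_sub_norm_le c s
        nlinarith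
    have h5 : 0 ≤ (ε / 5) ^ Multiset.card S * (S.map fun c => 1 + ‖c‖).prod := by
      refine mul_nonneg (by positivity) (Multiset.prod_nonneg ?_)
      intro x hx
      obtain ⟨c', _, rfl⟩ := Multiset.mem_map.1 hx
      positivity
    have h6 := mul_le_mul h2 h1 h5 (norm_nonneg _)
    refine le_trans (le_of_eq ?_) h6
    ring

/-- Proof. `ω = C a * ∏ (X - C c)` over the roots (`ℂ` is algebraically closed), and `l1` is submultiplicative
(`l1 (p * q) ≤ l1 p * l1 q`), `l1 (X - C c) ≤ 1 + ‖c‖`, so `l1 w ≤ ‖a‖ ∏ (1 + ‖c‖)`. For a root `c` with `‖c‖ ≤ 4`: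
`‖s - c‖ ≥ ε ≥ (ε/5)(1 + ‖c‖)`. For `‖c‖ > 4`: `‖s - c‖ ≥ ‖c‖ - 2 ≥ (2/5)(1 + ‖c‖) ≥ (ε/5) (1 + ‖c‖)`. So
`‖ω s‖ ≥ (ε/5)^card (roots) l1 w ≥ (ε/5)^N l1 w`. -/
theorem poly_lower {w : ℂ[X]} (hw : w ≠ 0) {N : ℕ} (hN : w.natDegree ≤ N) {ε : ℝ} (hε : 0 < ε)
    (hε1 : ε ≤ 1) {s : ℂ} (hs : ‖s‖ ≤ 2) (h : ∀ c ∈ w.roots, ε ≤ ‖s - c‖) :
    (ε / 5) ^ N * l1 w ≤ ‖w.eval s‖ := by
  have hfac := (IsAlgClosed.splits w).eq_prod_roots
  have h1 : l1 w ≤ ‖w.leadingCoeff‖ * (w.roots.map fun c => 1 + ‖c‖).prod := by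
    conv_lhs => rw [hfac]
    exact polyLow_prod _ _
  have h2 : ‖w.eval s‖ = ‖w.leadingCoeff‖ * ‖(w.roots.map fun c => s - c).prod‖ := by
    conv_lhs => rw [hfac]
    rw [eval_mul, eval_C, norm_mul, eval_multiset_prod, Multiset.map_map]
    congr 3
    refine Multiset.map_congr rfl fun c _ => ?_
    simp
  have h3 := polyLow_eval hε hε1 hs w.roots h
  have h4 : (ε / 5) ^ N ≤ (ε / 5) ^ Multiset.card w.roots :=
    pow_le_pow_of_le_one (by positivity) (by linarith) ((card_roots' w).trans hN)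
  rw [h2]
  calc (ε / 5) ^ N * l1 w ≤ (ε / 5) ^ Multiset.card w.roots * l1 w :=
        mul_le_mul_of_nonneg_right h4 (l1_nonneg w)
    _ ≤ (ε / 5) ^ Multiset.card w.roots *
        (‖w.leadingCoeff‖ * (w.roots.map fun c => 1 + ‖c‖).prod) :=
        mul_le_mul_of_nonneg_left h1 (by positivity)
    _ = ‖w.leadingCoeff‖ * ((ε / 5) ^ Multiset.card w.roots *
        (w.roots.map fun c => 1 + ‖c‖).prod) := by ring
    _ ≤ _ := mul_le_mul_of_nonneg_left h3 (norm_nonneg _)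

end Pool.Agent.Lib.MP_95e7ec_an
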