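import Mathlib
import Pool.Agent.Lib.MP_95e7ec_an.Ry.RDefs
import Pool.Agent.Lib.MP_95e7ec_an.Ry.InnerDeg
import Pool.Agent.Lib.MP_95e7ec_an.Ry.PolyLow

/-!
# Ry, Domin: domination by one power of r
-/

set_option autoImplicit false

open Set Filter Topology MeasureTheory Polynomial
open scoped ContDiff ENNReal Polynomial.Bivariate

namespace Pool.Agent.Lib.MP_95e7ec_an

/-- Proof. `Finset.card_image_le`, the support of `swap A` has at most `e + 1` elements (`ideg_iff`). -/
theorem cenDom_card {A : ℂ[X][Y]} {e : ℕ} (he : IDeg A e) : (cenDom A).card ≤ (e + 1) ^ 2 := by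
  classical
  unfold cenDom
  refine Finset.card_image_le.trans ?_
  rw [Finset.card_product, sq]
  have h1 : (Polynomial.Bivariate.swap A).support.card ≤ e + 1 :=
    (Polynomial.card_supp_le_succ_natDegree _).trans (by
      have := ideg_iff.1 he
      omega)
  exact Nat.mul_le_mul h1 h1

/-- Proof. `A(r,s) = ∑_i r^i (homc A i)(s)` (`coeff_homc`). -/
theorem evalEval_homc {A : ℂ[X][Y]} {e : ℕ} (he : IDeg A e) (r s : ℂ) :
    A.evalEval r s = ∑ i ∈ Finset.range (e + 1), r ^ i * (homc A i).eval s := by
  have h1 : A.evalEval r s = (Polynomial.Bivariate.swap A).evalEval s r := by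
    have h2 := Polynomial.Bivariate.aevalAeval_swap (R := ℂ) s r A
    have h3 : Polynomial.aevalAeval (R := ℂ) s r (Polynomial.Bivariate.swap A) =
        (Polynomial.Bivariate.swap A).evalEval s r := by
      rw [Polynomial.coe_aevalAeval_eq_evalEval]
    have h4 : Polynomial.aevalAeval (R := ℂ) r s A = A.evalEval r s := by
      rw [Polynomial.coe_aevalAeval_eq_evalEval]
    rw [← h4, ← h3, h2]
  rw [h1]
  unfold Polynomial.evalEval
  have h5 := Polynomial.eval_eq_sum_range' (p := Polynomial.Bivariate.swap A) (n := e + 1)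
    (by have := ideg_iff.1 he; omega) (C r)
  rw [h5, Polynomial.eval_finsetSum]
  apply Finset.sum_congr rfl
  intro i _
  rw [Polynomial.eval_mul, Polynomial.eval_pow, Polynomial.eval_C, mul_comm]
  rfl

private theorem domin_natDegree_homc {A : ℂ[X][Y]} {N : ℕ} (hN : A.natDegree ≤ N) (i : ℕ) :
    (homc A i).natDegree ≤ N := by
  rw [Polynomial.natDegree_le_iff_coeff_eq_zero]
  intro m hm
  rw [coeff_homc, Polynomial.coeff_eq_zero_of_natDegree_lt (hN.trans_lt hm), Polynomial.coeff_zero]

/-- Proof. Let `T` be the support of `swap A` (nonempty) and `λ_i(x) = log (l1 (homc A i)) + i x`, `i ∈ T`. For `i ≠ j` in `T`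
`λ_i(x) - λ_j(x) = (i - j)(x - u)` with `u = (log l1_j - log l1_i)/(i - j)`: `u` is the centre of the pair `(j,i)` or
`(i,j)` (both orders are in `cenDom A` and give the same number). On `I` we have `|x - u| ≥ D > 0`, so
`|λ_i - λ_j| ≥ D` on `I`, and the sign is constant on `I` (`I` is connected: `x - u` does not change its sign).
Take `x₀ ∈ I` and `k ∈ T` with the largest `λ_k(x₀)`. Then `λ_i(x) ≤ λ_k(x) - D` for all `i ≠ k` in `T` and `x ∈ I`, i.e.
`l1_i e^{ix} ≤ e^{-D} l1_k e^{kx}`. With `evalEval_homc` and `poly_upper` (`natDegree (homc A i) ≤ N`), at most `e` terms. -/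
theorem exists_domAt {A : ℂ[X][Y]} (hA : A ≠ 0) {N e : ℕ} (hN : A.natDegree ≤ N)
    (he : IDeg A e) {I : Set ℝ} (hI : I.OrdConnected) (hne : I.Nonempty) {D : ℝ} (hD : 0 < D)
    (h : ∀ x ∈ I, ∀ u ∈ cenDom A, D ≤ |x - u|) :
    ∃ k ≤ e, DomAt A I k (e * 2 ^ N * Real.exp (-D)) := by
  classical
  obtain ⟨T, hT⟩ : ∃ T, T = (Polynomial.Bivariate.swap A).support := ⟨_, rfl⟩
  have hB : Polynomial.Bivariate.swap A ≠ 0 := by
    intro h0
    apply hA
    have := (Polynomial.Bivariate.swap (R := ℂ)).injective (a₁ := A) (a₂ := 0) (by rw [h0, map_zero])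
    exact this
  have hTne : T.Nonempty := by
    rw [hT]
    exact Polynomial.nonempty_support_iff.2 hB
  have hTe : ∀ i ∈ T, i ≤ e := by
    intro i hi
    rw [hT] at hi
    exact (Polynomial.le_natDegree_of_mem_supp i hi).trans (ideg_iff.1 he)
  have hT0 : ∀ i ∈ T, homc A i ≠ 0 := by
    intro i hi
    rw [hT] at hi
    exact Polynomial.mem_support_iff.1 hi
  have hT1 : ∀ i, i ∉ T → homc A i = 0 := by
    intro i hi
    rw [hT] at hi
    exact Polynomial.notMem_support_iff.1 hi
  obtain ⟨x₀, hx₀⟩ := hne
  obtain ⟨k, hk, hkmax⟩ := Finset.exists_max_image T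
    (fun i => Real.log (l1 (homc A i)) + i * x₀) hTne
  -- the difference of the exponents
  have key : ∀ i ∈ T, i ≠ k → ∀ x ∈ I,
      Real.log (l1 (homc A i)) + i * x ≤ Real.log (l1 (homc A k)) + k * x - D := by
    intro i hi hik x hx
    obtain ⟨u, hu⟩ : ∃ u, u = (Real.log (l1 (homc A i)) - Real.log (l1 (homc A k))) /
      ((k : ℝ) - i) := ⟨_, rfl⟩
    have huc : u ∈ cenDom A := by
      unfold cenDom
      rw [Finset.mem_image]
      exact ⟨(i, k), Finset.mem_product.2 ⟨hT ▸ hi, hT ▸ hk⟩, hu.symm⟩
    have hik' : (i : ℝ) - k ≠ 0 := by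
      intro h0
      apply hik
      exact_mod_cast sub_eq_zero.1 h0
    have hki' : (k : ℝ) - i ≠ 0 := by
      intro h0
      apply hik'
      linarith
    have hdiff : ∀ z : ℝ, (Real.log (l1 (homc A i)) + i * z) -
        (Real.log (l1 (homc A k)) + k * z) = ((i : ℝ) - k) * (z - u) := by
      intro z
      have e1 : u * ((k : ℝ) - i) = Real.log (l1 (homc A i)) - Real.log (l1 (homc A k)) := by
        rw [hu, div_mul_cancel₀ _ hki']
      linarith
    have h0 : ((i : ℝ) - k) * (x₀ - u) ≤ 0 := by
      have := hkmax i hi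
      rw [← hdiff x₀]
      linarith
    have hle : ((i : ℝ) - k) * (x - u) ≤ 0 := by
      by_contra hc
      push Not at hc
      have h2 : (((i : ℝ) - k) * (x₀ - u)) * (((i : ℝ) - k) * (x - u)) ≤ 0 :=
        mul_nonpos_of_nonpos_of_nonneg h0 hc.le
      have h3 : (x₀ - u) * (x - u) ≤ 0 := by
        by_contra h4
        push Not at h4
        have : 0 < ((i : ℝ) - k) ^ 2 := by positivity
        have := mul_pos this h4
        nlinarith
      have hmem : u ∈ I := by
        rcases le_total x₀ x with h5 | h5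
        · apply hI.out hx₀ hx
          constructor
          · by_contra h6
            push Not at h6
            have : 0 < (x₀ - u) * (x - u) := mul_pos (by linarith) (by linarith)
            linarith
          · by_contra h6
            push Not at h6
            have : 0 < (x₀ - u) * (x - u) := mul_pos_of_neg_of_neg (by linarith) (by linarith)
            linarith
        · apply hI.out hx hx₀
          constructor
          · by_contra h6
            push Not at h6
            have : 0 < (x₀ - u) * (x - u) := mul_pos (by linarith) (by linarith)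
            linarith
          · by_contra h6
            push Not at h6
            have : 0 < (x₀ - u) * (x - u) := mul_pos_of_neg_of_neg (by linarith) (by linarith)
            linarith
      have := h u hmem u huc
      rw [sub_self, abs_zero] at this
      linarith
    have habs : D ≤ |((i : ℝ) - k) * (x - u)| := by
      rw [abs_mul]
      have h1 := h x hx u huc
      have h2 : (1 : ℝ) ≤ |(i : ℝ) - k| := by
        have h3 : (1 : ℤ) ≤ |(i : ℤ) - k| := Int.one_le_abs (by
          intro h0
          apply hik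
          exact_mod_cast sub_eq_zero.1 h0)
        have h4 : ((1 : ℤ) : ℝ) ≤ ((|(i : ℤ) - k| : ℤ) : ℝ) := by exact_mod_cast h3
        push_cast at h4
        exact h4
      nlinarith [abs_nonneg (x - u)]
    rw [abs_of_nonpos hle] at habs
    have := hdiff x
    linarith
  have key2 : ∀ i, i ≠ k → ∀ x ∈ I, l1 (homc A i) * Real.exp (i * x) ≤
      Real.exp (-D) * (l1 (homc A k) * Real.exp (k * x)) := by
    intro i hik x hx
    by_cases hi : i ∈ T
    · have h1 := key i hi hik x hx
      have p1 := l1_pos (hT0 i hi)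
      have p2 := l1_pos (hT0 k hk)
      have h2 := Real.exp_le_exp.2 h1
      rw [Real.exp_add, Real.exp_log p1, Real.exp_sub, Real.exp_add, Real.exp_log p2,
        div_eq_mul_inv, ← Real.exp_neg] at h2
      linarith
    · rw [hT1 i hi]
      have h1 : l1 (0 : ℂ[X]) = 0 := by
        unfold l1
        simp
      rw [h1, zero_mul]
      have := l1_nonneg (homc A k)
      positivity
  refine ⟨k, hTe k hk, hT0 k hk, ?_⟩
  intro ρ hρ s hs
  have hρ' : ρ.re ∈ I := hρ
  rw [evalEval_homc he]
  have hkr : k ∈ Finset.range (e + 1) := Finset.mem_range.2 (by have := hTe k hk; omega)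
  rw [← Finset.add_sum_erase _ _ hkr, show Complex.exp ρ ^ k = Complex.exp (k * ρ) by
    rw [← Complex.exp_nat_mul], add_sub_cancel_left]
  have hterm : ∀ i ∈ (Finset.range (e + 1)).erase k, ‖Complex.exp ρ ^ i * (homc A i).eval s‖ ≤
      2 ^ N * (Real.exp (-D) * (l1 (homc A k) * Real.exp (k * ρ.re))) := by
    intro i hi
    have hik := Finset.ne_of_mem_erase hi
    rw [norm_mul, norm_pow, Complex.norm_exp, ← Real.exp_nat_mul]
    have h1 := poly_upper (domin_natDegree_homc hN i) hs
    have h2 := key2 i hik ρ.re hρ'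
    have h3 := Real.exp_pos (i * ρ.re)
    calc Real.exp (i * ρ.re) * ‖(homc A i).eval s‖ ≤
          Real.exp (i * ρ.re) * (2 ^ N * l1 (homc A i)) := mul_le_mul_of_nonneg_left h1 h3.le
      _ = 2 ^ N * (l1 (homc A i) * Real.exp (i * ρ.re)) := by ring
      _ ≤ _ := mul_le_mul_of_nonneg_left h2 (by positivity)
  refine (norm_sum_le_of_le _ hterm).trans ?_
  rw [Finset.sum_const, Finset.card_erase_of_mem hkr, Finset.card_range, Nat.add_sub_cancel,
    nsmul_eq_mul]
  apply le_of_eq
  ring

end Pool.Agent.Lib.MP_95e7ec_an
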