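import Mathlib
import Pool.Agent.Lib.MP_95e7ec_an.Ry.RDefs
import Pool.Agent.Lib.MP_95e7ec_an.Ry.Cover1
import Pool.Agent.Lib.MP_95e7ec_an.Ry.PolyLow

/-!
# Ry, OscRoot: the near roots almost do not move
-/

set_option autoImplicit false

open Set Filter Topology MeasureTheory Polynomial
open scoped ContDiff ENNReal Polynomial.Bivariate

namespace Pool.Agent.Lib.MP_95e7ec_an

/-- Proof. A root `s` with `‖s‖ ≤ 2` at the parameter `ρ`: `DomAt.dom` gives `‖e^{kρ}‖ ‖ω(s)‖ ≤ δ l1 ω e^{k Re ρ}`, i.e.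
`‖ω(s)‖ ≤ δ l1 ω < (ε/5)^N l1 ω`, so by `poly_lower` some root `c` of `ω` has `‖s - c‖ < ε`. -/
theorem near_zero {A : ℂ[X][Y]} {I : Set ℝ} {k : ℕ} {δ : ℝ} (h : DomAt A I k δ) {N : ℕ}
    (hN : (homc A k).natDegree ≤ N) {ε : ℝ} (hε : 0 < ε) (hε1 : ε ≤ 1) (hδ : δ < (ε / 5) ^ N)
    {ρ : ℂ} (hρ : ρ ∈ strip I) {s : ℂ} (hs : ‖s‖ ≤ 2)
    (h0 : A.evalEval (Complex.exp ρ) s = 0) : ∃ c ∈ (homc A k).roots, ‖s - c‖ < ε := by
  by_contra hcon
  push Not at hcon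
  have h1 := poly_lower h.ne hN hε hε1 hs hcon
  have h2 := h.dom ρ hρ s hs
  rw [h0, zero_sub, norm_neg, norm_mul, Complex.norm_exp] at h2
  have h3 : ((k : ℂ) * ρ).re = k * ρ.re := by simp
  rw [h3] at h2
  have h4 : 0 < Real.exp (k * ρ.re) := Real.exp_pos _
  have h5 : ‖(homc A k).eval s‖ ≤ δ * l1 (homc A k) := by
    have : Real.exp (k * ρ.re) * ‖(homc A k).eval s‖ ≤
        Real.exp (k * ρ.re) * (δ * l1 (homc A k)) := by linarith
    exact le_of_mul_le_mul_left this h4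
  have h6 := l1_pos h.ne
  have h7 : δ * l1 (homc A k) < (ε / 5) ^ N * l1 (homc A k) := mul_lt_mul_of_pos_right hδ h6
  linarith

/-- Proof. `strip I` is preconnected and `f ρ = ‖b ρ - b ρ₀‖` is continuous on it, so `f '' strip I` is an interval `S`
which contains `0`. Let `y ∈ S`, `y ≤ 1/2`, `y = f ρ`: `‖b ρ‖ ≤ 2`, so `b ρ` is in a disc of radius `ε` about a root `c` of
`ω` (`near_zero`), and `|y - ‖c - b ρ₀‖| ≤ ε`. So `S ∩ Iic (1/2)` (an interval) is covered by at most `N` intervals of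
half width `ε` (index set `(homc A k).roots.toFinset`): by `connected_cover` `y ≤ 2 N ε < 1/2` for all `y ∈ S ∩ Iic (1/2)`.
So `1/2 ∉ S`, hence `S ⊆ Iic (1/2)` and `f ≤ 2 N ε`. -/
theorem root_osc {A : ℂ[X][Y]} {I : Set ℝ} (hI : I.OrdConnected) {k : ℕ} {δ : ℝ}
    (h : DomAt A I k δ) {N : ℕ} (hN : (homc A k).natDegree ≤ N) {ε : ℝ} (hε : 0 < ε)
    (hεN : 4 * N * ε < 1) (hε1 : ε ≤ 1) (hδ : δ < (ε / 5) ^ N) {b : ℂ → ℂ}
    (hb : ContinuousOn b (strip I))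
    (hroot : ∀ ρ ∈ strip I, A.evalEval (Complex.exp ρ) (b ρ) = 0) {ρ₀ : ℂ}
    (hρ₀ : ρ₀ ∈ strip I) (h0 : ‖b ρ₀‖ ≤ 3 / 2) :
    ∀ ρ ∈ strip I, ‖b ρ - b ρ₀‖ ≤ 2 * N * ε := by
  classical
  -- the strip is convex
  have hconv : Convex ℝ (strip I) :=
    hI.convex.is_linear_preimage Complex.reLm.isLinear
  have hpre : IsPreconnected (strip I) := hconv.isPreconnected
  set f : ℂ → ℝ := fun ρ => ‖b ρ - b ρ₀‖ with hf
  have hfc : ContinuousOn f (strip I) := (hb.sub continuousOn_const).norm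
  have hSord : (f '' strip I).OrdConnected :=
    (isPreconnected_iff_ordConnected).1 (hpre.image f hfc)
  have h0S : (0 : ℝ) ∈ f '' strip I := ⟨ρ₀, hρ₀, by simp [hf]⟩
  set S : Set ℝ := f '' strip I ∩ Iic (1 / 2) with hS
  have hSo : S.OrdConnected := hSord.inter ordConnected_Iic
  have h0S' : (0 : ℝ) ∈ S := ⟨h0S, by norm_num⟩
  have hNε : 2 * N * ε < 1 / 2 := by linarith
  -- the cover
  have hcov : S ⊆ ⋃ c ∈ (homc A k).roots.toFinset,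
      Icc (‖c - b ρ₀‖ - ε) (‖c - b ρ₀‖ + ε) := by
    rintro y ⟨⟨ρ, hρ, rfl⟩, hy⟩
    have hy' : ‖b ρ - b ρ₀‖ ≤ 1 / 2 := hy
    have hb2 : ‖b ρ‖ ≤ 2 := by
      have : ‖b ρ‖ ≤ ‖b ρ - b ρ₀‖ + ‖b ρ₀‖ := by
        calc ‖b ρ‖ = ‖(b ρ - b ρ₀) + b ρ₀‖ := by congr 1; ring
          _ ≤ _ := norm_add_le _ _
      linarith
    obtain ⟨c, hc, hcε⟩ := near_zero h hN hε hε1 hδ hρ hb2 (hroot ρ hρ)
    refine mem_biUnion (x := c) (by simpa using hc) ?_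
    have h1 : |‖b ρ - b ρ₀‖ - ‖c - b ρ₀‖| ≤ ‖(b ρ - b ρ₀) - (c - b ρ₀)‖ :=
      abs_norm_sub_norm_le _ _
    have h2 : (b ρ - b ρ₀) - (c - b ρ₀) = b ρ - c := by ring
    rw [h2] at h1
    have h3 := abs_le.1 (h1.trans hcε.le)
    constructor
    · show ‖c - b ρ₀‖ - ε ≤ ‖b ρ - b ρ₀‖
      linarith [h3.1]
    · show ‖b ρ - b ρ₀‖ ≤ ‖c - b ρ₀‖ + ε
      linarith [h3.2]
  have hcard : ((homc A k).roots.toFinset.card : ℝ) ≤ N := by
    have h1 : (homc A k).roots.toFinset.card ≤ (homc A k).natDegree :=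
      (Multiset.toFinset_card_le _).trans (Polynomial.card_roots' _)
    exact_mod_cast h1.trans hN
  have hsmall : ∀ y ∈ S, y ≤ 2 * N * ε := by
    intro y hy
    have h1 := connected_cover hSo (homc A k).roots.toFinset (fun c => ‖c - b ρ₀‖)
      (fun _ => ε) (fun _ _ => hε.le) hcov hy h0S'
    rw [sub_zero, Finset.sum_const, nsmul_eq_mul] at h1
    have h2 : ((homc A k).roots.toFinset.card : ℝ) * (2 * ε) ≤ N * (2 * ε) :=
      mul_le_mul_of_nonneg_right hcard (by linarith)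
    have h3 := le_abs_self y
    linarith
  intro ρ hρ
  have hmem : f ρ ∈ f '' strip I := ⟨ρ, hρ, rfl⟩
  by_cases hle : f ρ ≤ 1 / 2
  · exact hsmall _ ⟨hmem, hle⟩
  · exfalso
    push Not at hle
    have h1 : (1 / 2 : ℝ) ∈ f '' strip I := hSord.out h0S hmem ⟨by norm_num, hle.le⟩
    have h2 := hsmall _ ⟨h1, self_mem_Iic⟩
    linarith

end Pool.Agent.Lib.MP_95e7ec_an
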