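import Mathlib
import Pool.Agent.Lib.MP_95e7ec_an.Ry.RDefs
import Pool.Agent.Lib.MP_95e7ec_an.Rq.Chain
import Pool.Agent.Lib.MP_95e7ec_an.Rq.ZoneData

/-!
# Ry, Wp: the field as a polynomial in r = e^ρ, s = e^{iθ}
-/

set_option autoImplicit false

open Set Filter Topology MeasureTheory Polynomial
open scoped ContDiff ENNReal Polynomial.Bivariate

namespace Pool.Agent.Lib.MP_95e7ec_an

/-- `s^n x^a y^b` with `x = r (s + 1/s)/2`, `y = r (s - 1/s)/(2i)`, for `a + b ≤ n` -/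
noncomputable def wmono (n a b : ℕ) : ℂ[X][Y] :=
  C (X ^ (a + b)) * (C (C (1 / 2)) * (X ^ 2 + 1)) ^ a *
    (C (C (1 / (2 * Complex.I))) * (X ^ 2 - 1)) ^ b * X ^ (n - a - b)

/-- `s^n P(x,y)` -/
noncomputable def wp1 (n : ℕ) (P : MvPolynomial (Fin 2) ℝ) : ℂ[X][Y] :=
  ∑ m ∈ P.support, C (C ((P.coeff m : ℝ) : ℂ)) * wmono n (m 0) (m 1)

/-- `s^{n+1} (P + i Q)(x,y) r/s` -/
noncomputable def wpoly (n : ℕ) (P Q : MvPolynomial (Fin 2) ℝ) : ℂ[X][Y] :=
  C X * (wp1 n P + C (C Complex.I) * wp1 n Q)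

/-- the part of `wmono` which depends on `s` -/
private noncomputable def wp_q (n a b : ℕ) : ℂ[X] :=
  (C (1 / 2) * (X ^ 2 + 1)) ^ a * (C (1 / (2 * Complex.I)) * (X ^ 2 - 1)) ^ b * X ^ (n - a - b)

private theorem wp_mono_eq (n a b : ℕ) : wmono n a b = C (X ^ (a + b)) * (wp_q n a b).map C := by
  unfold wmono wp_q
  simp only [Polynomial.map_mul, Polynomial.map_pow, Polynomial.map_add, Polynomial.map_sub,
    map_X, map_C, Polynomial.map_one]
  ring

private theorem wp_hdeg {n : ℕ} {F : MvPolynomial (Fin 2) ℝ} (hF : F.totalDegree ≤ n)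
    {e : Fin 2 →₀ ℕ} (he : e ∈ F.support) : e 0 + e 1 ≤ n := by
  have h2 := MvPolynomial.le_totalDegree he
  rw [Finsupp.sum_fintype _ _ (fun i => rfl), Fin.sum_univ_two] at h2
  exact h2.trans hF

private theorem wp_natDegree_q {n a b : ℕ} (h : a + b ≤ n) : (wp_q n a b).natDegree ≤ 2 * n := by
  have h2 : (C (1 / 2) * (X ^ 2 + 1) : ℂ[X]).natDegree ≤ 2 := by
    refine (natDegree_C_mul_le _ _).trans ?_
    refine (natDegree_add_le _ _).trans ?_
    simp
  have h3 : (C (1 / (2 * Complex.I)) * (X ^ 2 - 1) : ℂ[X]).natDegree ≤ 2 := by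
    refine (natDegree_C_mul_le _ _).trans ?_
    refine (natDegree_sub_le _ _).trans ?_
    simp
  unfold wp_q
  refine natDegree_mul_le.trans ?_
  refine (Nat.add_le_add_right natDegree_mul_le _).trans ?_
  have h4 := natDegree_pow_le (p := (C (1 / 2) * (X ^ 2 + 1) : ℂ[X])) (n := a)
  have h5 := natDegree_pow_le (p := (C (1 / (2 * Complex.I)) * (X ^ 2 - 1) : ℂ[X])) (n := b)
  have h6 : (X ^ (n - a - b) : ℂ[X]).natDegree = n - a - b := natDegree_X_pow _
  have h7 := Nat.mul_le_mul_left a h2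
  have h8 := Nat.mul_le_mul_left b h3
  omega

private theorem wp_natDegree_wp1 {n : ℕ} {P : MvPolynomial (Fin 2) ℝ} (hP : P.totalDegree ≤ n) :
    (wp1 n P).natDegree ≤ 2 * n := by
  unfold wp1
  refine natDegree_sum_le_of_forall_le _ _ fun e he => ?_
  rw [wp_mono_eq]
  refine (natDegree_C_mul_le _ _).trans ((natDegree_C_mul_le _ _).trans ?_)
  exact (natDegree_map_le).trans (wp_natDegree_q (wp_hdeg hP he))

private theorem wp_ideg_wp1 {n : ℕ} {P : MvPolynomial (Fin 2) ℝ} (hP : P.totalDegree ≤ n)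
    (k : ℕ) : ((wp1 n P).coeff k).natDegree ≤ n := by
  unfold wp1
  rw [finsetSum_coeff]
  refine natDegree_sum_le_of_forall_le _ _ fun e he => ?_
  rw [wp_mono_eq, coeff_C_mul, coeff_C_mul, coeff_map]
  refine (natDegree_C_mul_le _ _).trans ?_
  rw [mul_comm]
  refine (natDegree_C_mul_le _ _).trans ?_
  rw [natDegree_X_pow]
  exact wp_hdeg hP he

theorem wpoly_natDegree {n : ℕ} {P Q : MvPolynomial (Fin 2) ℝ} (hP : P.totalDegree ≤ n)
    (hQ : Q.totalDegree ≤ n) : (wpoly n P Q).natDegree ≤ 2 * n := by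
  unfold wpoly
  refine (natDegree_C_mul_le _ _).trans ((natDegree_add_le _ _).trans (max_le ?_ ?_))
  · exact wp_natDegree_wp1 hP
  · exact (natDegree_C_mul_le _ _).trans (wp_natDegree_wp1 hQ)

theorem wpoly_ideg {n : ℕ} {P Q : MvPolynomial (Fin 2) ℝ} (hP : P.totalDegree ≤ n)
    (hQ : Q.totalDegree ≤ n) : IDeg (wpoly n P Q) (n + 1) := by
  intro k
  unfold wpoly
  rw [coeff_C_mul, coeff_add, coeff_C_mul]
  refine natDegree_mul_le.trans ?_
  rw [natDegree_X, add_comm]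
  refine Nat.add_le_add_right ((natDegree_add_le _ _).trans (max_le ?_ ?_)) 1
  · exact wp_ideg_wp1 hP k
  · exact (natDegree_C_mul_le _ _).trans (wp_ideg_wp1 hQ k)

private theorem wp_evalEval_map_C (q : ℂ[X]) (r s : ℂ) : (q.map C).evalEval r s = q.eval s := by
  unfold evalEval
  rw [eval_map, eval₂_at_apply, eval_C]

private theorem wp_eval_mono {n a b : ℕ} (he : a + b ≤ n) (r : ℂ) {s : ℂ} (hs : s ≠ 0) :
    r ^ (a + b) * (wp_q n a b).eval s =
      s ^ n * ((r * (s + s⁻¹) / 2) ^ a * (r * (s - s⁻¹) / (2 * Complex.I)) ^ b) := by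
  unfold wp_q
  simp only [eval_mul, eval_pow, eval_X, eval_C, eval_add, eval_one, eval_sub]
  obtain ⟨m, rfl⟩ := Nat.exists_eq_add_of_le he
  have hm : a + b + m - a - b = m := by omega
  rw [hm]
  have hI : Complex.I ≠ 0 := Complex.I_ne_zero
  have h1 : r * (s + s⁻¹) / 2 = r * s⁻¹ * (1 / 2 * (s ^ 2 + 1)) := by
    field_simp
  have h2 : r * (s - s⁻¹) / (2 * Complex.I) =
      r * s⁻¹ * (1 / (2 * Complex.I) * (s ^ 2 - 1)) := by
    field_simp
  rw [h1, h2, mul_pow (r * s⁻¹), mul_pow (r * s⁻¹)]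
  have h3 : s ^ (a + b + m) * ((r * s⁻¹) ^ a * (r * s⁻¹) ^ b) = r ^ (a + b) * s ^ m := by
    rw [← pow_add, mul_pow, inv_pow]
    have h4 : s ^ (a + b) ≠ 0 := pow_ne_zero _ hs
    rw [pow_add s (a + b) m]
    field_simp
  linear_combination -((1 / 2 * (s ^ 2 + 1)) ^ a *
    (1 / (2 * Complex.I) * (s ^ 2 - 1)) ^ b) * h3

private theorem wp_eval_wp1 {n : ℕ} {P : MvPolynomial (Fin 2) ℝ} (hP : P.totalDegree ≤ n) {r s : ℂ}
    (hs : s ≠ 0) {x y : ℝ} (hx : r * (s + s⁻¹) / 2 = (x : ℂ))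
    (hy : r * (s - s⁻¹) / (2 * Complex.I) = (y : ℂ)) :
    (wp1 n P).evalEval r s = s ^ n * ((MvPolynomial.eval ![x, y] P : ℝ) : ℂ) := by
  unfold wp1
  rw [← coe_evalEvalRingHom, map_sum, MvPolynomial.eval_eq', Complex.ofReal_sum, Finset.mul_sum]
  refine Finset.sum_congr rfl fun e he => ?_
  rw [map_mul, wp_mono_eq, map_mul, coe_evalEvalRingHom, evalEval_C, evalEval_C,
    wp_evalEval_map_C, eval_C, eval_pow, eval_X, wp_eval_mono (wp_hdeg hP he) r hs, hx, hy,
    Fin.prod_univ_two]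
  simp only [Matrix.cons_val_zero, Matrix.cons_val_one]
  push_cast
  ring

/-- Proof. `s = e^{iθ}`, `r = e^ρ`: `x = e^ρ cos θ`, `y = e^ρ sin θ`, `s^n x^a y^b` is the value of `wmono` (`a + b ≤ n`
for the monomials of `P`), so `wpoly = s^{n+1} (r/s) (P + iQ)(cyl p)`, and `(r/s) v = conj(z) v`,
`z = r s`, which is `cf v p = wf v (cyl p)`. -/
theorem wpoly_cf {n : ℕ} {P Q : MvPolynomial (Fin 2) ℝ} (hP : P.totalDegree ≤ n)
    (hQ : Q.totalDegree ≤ n) (p : ℝ × ℝ) :
    (wpoly n P Q).evalEval (Complex.exp p.1) (Complex.exp (p.2 * Complex.I)) =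
      Complex.exp (((n : ℂ) + 1) * (p.2 * Complex.I)) *
        (((cf (vf P Q) p).1 : ℂ) + (cf (vf P Q) p).2 * Complex.I) := by
  set s : ℂ := Complex.exp (p.2 * Complex.I) with hs
  set r : ℂ := Complex.exp p.1 with hr
  have hs0 : s ≠ 0 := Complex.exp_ne_zero _
  have h1 : Complex.exp (((n : ℂ) + 1) * (p.2 * Complex.I)) = s ^ (n + 1) := by
    rw [hs, ← Complex.exp_nat_mul]
    congr 1
    push_cast
    ring
  have hinv : s⁻¹ = Complex.exp (-(p.2 * Complex.I)) := by rw [hs, Complex.exp_neg]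
  have hc : ((Real.cos p.2 : ℝ) : ℂ) = (s + s⁻¹) / 2 := by
    rw [hinv, hs, Complex.ofReal_cos, Complex.cos, neg_mul]
  have hsn : ((Real.sin p.2 : ℝ) : ℂ) = (s - s⁻¹) / (2 * Complex.I) := by
    rw [hinv, hs, Complex.ofReal_sin, Complex.sin, neg_mul]
    have hI : Complex.I ≠ 0 := Complex.I_ne_zero
    field_simp
    ring_nf
    rw [Complex.I_sq]
    ring
  have hx : r * (s + s⁻¹) / 2 = ((Real.exp p.1 * Real.cos p.2 : ℝ) : ℂ) := by
    rw [Complex.ofReal_mul, hc, Complex.ofReal_exp, hr]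
    ring
  have hy : r * (s - s⁻¹) / (2 * Complex.I) = ((Real.exp p.1 * Real.sin p.2 : ℝ) : ℂ) := by
    rw [Complex.ofReal_mul, hsn, Complex.ofReal_exp, hr]
    ring
  have hrs : r = s * (((Real.exp p.1 * Real.cos p.2 : ℝ) : ℂ) -
      ((Real.exp p.1 * Real.sin p.2 : ℝ) : ℂ) * Complex.I) := by
    rw [← hx, ← hy]
    have hI : Complex.I ≠ 0 := Complex.I_ne_zero
    field_simp
    ring
  have hev : (wpoly n P Q).evalEval r s = r * ((wp1 n P).evalEval r s +
      Complex.I * (wp1 n Q).evalEval r s) := by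
    unfold wpoly
    rw [← coe_evalEvalRingHom, map_mul, map_add, map_mul]
    simp only [coe_evalEvalRingHom, evalEval_C, eval_X, eval_C]
  rw [hev, wp_eval_wp1 hP hs0 hx hy, wp_eval_wp1 hQ hs0 hx hy, h1]
  unfold cf wf vf cyl
  simp only
  push_cast
  rw [hrs]
  push_cast
  ring_nf
  rw [Complex.I_sq]
  ring

/-- Proof. If `wpoly = 0` then `cf (vf P Q) = 0` everywhere, so `vf P Q = 0` on the plane without the origin, so
`P = Q = 0` (`MvPolynomial.funext` on an infinite set, or `exists_finset_zeros`), and `IsRelPrime 0 0` is false. -/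
theorem wpoly_ne_zero {n : ℕ} {P Q : MvPolynomial (Fin 2) ℝ} (hP : P.totalDegree ≤ n)
    (hQ : Q.totalDegree ≤ n) (hPQ : IsRelPrime P Q) : wpoly n P Q ≠ 0 := by
  intro h
  obtain ⟨Z, -, hZ⟩ := exists_finset_zeros P Q hPQ hP hQ
  have hcf : ∀ p, cf (vf P Q) p = 0 := by
    intro p
    have h1 := wpoly_cf hP hQ p
    rw [h, evalEval_zero] at h1
    have h2 := (mul_eq_zero.1 h1.symm).resolve_left (Complex.exp_ne_zero _)
    have h3 := congrArg Complex.re h2
    have h4 := congrArg Complex.im h2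
    simp only [Complex.add_re, Complex.add_im, Complex.ofReal_re, Complex.ofReal_im,
      Complex.mul_re, Complex.mul_im, Complex.I_re, Complex.I_im, Complex.zero_re,
      Complex.zero_im] at h3 h4
    ext
    · simpa using h3
    · simpa using h4
  have h1 : (Set.range fun s : ℝ => cyl (s, 0)) ⊆ (Z : Set (ℝ × ℝ)) := by
    rintro _ ⟨s, rfl⟩
    exact (hZ _).1 (wf_eq_zero (cyl_ne_zero _) (hcf (s, 0)))
  exact Set.infinite_range_of_injective cyl_ray_injective (Z.finite_toSet.subset h1)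

/-- Proof. `m = natTrailingDegree` (`Polynomial.exists_eq_pow_rootMultiplicity_mul_and_not_dvd` at `0`, or `divX`);
the degrees of `A` by `X ^ m * A = wpoly`. -/
theorem exists_trail {W : ℂ[X][Y]} (hW : W ≠ 0) {N e : ℕ} (hN : W.natDegree ≤ N)
    (he : IDeg W e) : ∃ (m : ℕ) (A : ℂ[X][Y]), W = X ^ m * A ∧ A.coeff 0 ≠ 0 ∧
      A.natDegree + m ≤ N ∧ IDeg A e := by
  have key : ∀ (d : ℕ) (W : ℂ[X][Y]), W ≠ 0 → W.natDegree = d →
      ∃ (m : ℕ) (A : ℂ[X][Y]), W = X ^ m * A ∧ A.coeff 0 ≠ 0 := by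
    intro d
    induction d with
    | zero =>
      intro W hW hd
      refine ⟨0, W, by simp, ?_⟩
      rw [eq_C_of_natDegree_eq_zero hd] at hW ⊢
      simpa using hW
    | succ d ih =>
      intro W hW hd
      by_cases h0 : W.coeff 0 = 0
      · obtain ⟨B, hB⟩ := X_dvd_iff.2 h0
        have hB0 : B ≠ 0 := by
          rintro rfl
          rw [mul_zero] at hB
          exact hW hB
        have hBd : B.natDegree = d := by
          rw [hB, natDegree_mul X_ne_zero hB0, natDegree_X] at hd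
          omega
        obtain ⟨m, A, hA, hA0⟩ := ih B hB0 hBd
        exact ⟨m + 1, A, by rw [hB, hA, pow_succ]; ring, hA0⟩
      · exact ⟨0, W, by simp, h0⟩
  obtain ⟨m, A, hA, hA0⟩ := key _ W hW rfl
  have hAne : A ≠ 0 := by
    rintro rfl
    simp at hA0
  refine ⟨m, A, hA, hA0, ?_, ?_⟩
  · have h1 : W.natDegree = m + A.natDegree := by
      rw [hA, natDegree_mul (pow_ne_zero _ X_ne_zero) hAne, natDegree_X_pow]
    omega
  · intro k
    have h1 := he (k + m)
    rw [hA, mul_comm, coeff_mul_X_pow] at h1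
    exact h1

end Pool.Agent.Lib.MP_95e7ec_an
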