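import Mathlib
import Pool.Agent.Lib.MP_95e7ec_an.Rq.Defs
import Pool.Agent.Lib.MP_95e7ec_an.Rq.RelPoly
import Pool.Agent.Lib.MP_95e7ec_an.Rq.FormVar
import Pool.Agent.Lib.MP_95e7ec_an.Rq.Density

/-!
# Ry, ZRad: the radii of the special points, with fixed centres
-/

set_option autoImplicit false

open Set Filter Topology MeasureTheory
open scoped ContDiff ENNReal

namespace Pool.Agent.Lib.MP_95e7ec_an

/-- the breakpoint of the indices `k`, `l` for the coefficients `b` -/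
noncomputable def zbreak {A : ℕ} (b : Fin (A + 1) → ℝ) (x : Fin (A + 1) × Fin (A + 1)) : ℝ :=
  (Real.log |b x.2| - Real.log |b x.1|) / (((x.1 : ℕ) : ℝ) - ((x.2 : ℕ) : ℝ))

/-- At a root two terms are comparable. -/
private theorem zrad_pair {A : ℕ} (b : Fin (A + 1) → ℝ) (hne : ∃ k, b k ≠ 0) {x : ℝ}
    (hx : ∑ k : Fin (A + 1), b k * Real.exp ((k : ℕ) * x) = 0) :
    ∃ k l : Fin (A + 1), l < k ∧ b k ≠ 0 ∧ b l ≠ 0 ∧
      |b k| * Real.exp ((k : ℕ) * x) ≤ (A + 1) * (|b l| * Real.exp ((l : ℕ) * x)) ∧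
      |b l| * Real.exp ((l : ℕ) * x) ≤ (A + 1) * (|b k| * Real.exp ((k : ℕ) * x)) := by
  classical
  set E : Fin (A + 1) → ℝ := fun i => |b i| * Real.exp ((i : ℕ) * x) with hE
  have hE0 : ∀ i, 0 ≤ E i := fun i => mul_nonneg (abs_nonneg _) (Real.exp_pos _).le
  have hA : (0 : ℝ) ≤ A := Nat.cast_nonneg A
  obtain ⟨m, -, hm⟩ := Finset.exists_max_image Finset.univ E Finset.univ_nonempty
  have hm' : ∀ i, E i ≤ E m := fun i => hm i (Finset.mem_univ i)
  have hpos : 0 < E m := by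
    obtain ⟨k, hk⟩ := hne
    exact lt_of_lt_of_le (mul_pos (abs_pos.2 hk) (Real.exp_pos _)) (hm' k)
  have hsum : E m ≤ ∑ l ∈ Finset.univ.erase m, E l := by
    have h1 : b m * Real.exp ((m : ℕ) * x) =
        -∑ l ∈ Finset.univ.erase m, b l * Real.exp ((l : ℕ) * x) := by
      have h2 := Finset.add_sum_erase Finset.univ (fun l : Fin (A + 1) =>
        b l * Real.exp ((l : ℕ) * x)) (Finset.mem_univ m)
      linarith
    have h3 : E m = |b m * Real.exp ((m : ℕ) * x)| := by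
      rw [abs_mul, abs_of_pos (Real.exp_pos _)]
    rw [h3, h1, abs_neg]
    refine (Finset.abs_sum_le_sum_abs _ _).trans (Finset.sum_le_sum fun l _ => ?_)
    rw [abs_mul, abs_of_pos (Real.exp_pos _)]
  have hl : ∃ l, l ≠ m ∧ E m ≤ (A + 1) * E l := by
    by_contra hcon
    push Not at hcon
    have h1 : ∑ l ∈ Finset.univ.erase m, ((A : ℝ) + 1) * E l ≤
        ∑ l ∈ Finset.univ.erase m, E m :=
      Finset.sum_le_sum fun l hl => (hcon l (Finset.ne_of_mem_erase hl)).le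
    rw [← Finset.mul_sum, Finset.sum_const, Finset.card_erase_of_mem (Finset.mem_univ m),
      Finset.card_univ, Fintype.card_fin, Nat.add_sub_cancel, nsmul_eq_mul] at h1
    have h2 : ((A : ℝ) + 1) * E m ≤ (A + 1) * ∑ l ∈ Finset.univ.erase m, E l :=
      mul_le_mul_of_nonneg_left hsum (by linarith)
    nlinarith
  obtain ⟨l, hlm, hl⟩ := hl
  have hlpos : 0 < E l := by
    by_contra hc
    have h0 : E l = 0 := le_antisymm (not_lt.1 hc) (hE0 l)
    rw [h0, mul_zero] at hl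
    linarith
  have hne' : ∀ i, 0 < E i → b i ≠ 0 := by
    intro i hi h0
    simp only [hE, h0, abs_zero, zero_mul] at hi
    exact lt_irrefl _ hi
  have h2 : E l ≤ (A + 1) * E m := by
    have := hm' l
    nlinarith
  rcases lt_or_gt_of_ne hlm with h | h
  · exact ⟨m, l, h, hne' m hpos, hne' l hlpos, hl, h2⟩
  · exact ⟨l, m, h, hne' l hlpos, hne' m hpos, h2, hl⟩

/-- The roots are near the breakpoints of comparable coefficients. -/
private theorem zrad_near {A : ℕ} (b b₀ : Fin (A + 1) → ℝ) {L : ℝ}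
    (h1 : ∀ k, |b k| ≤ Real.exp L * |b₀ k|) (h2 : ∀ k, |b₀ k| ≤ Real.exp L * |b k|)
    (hne : ∃ k, b k ≠ 0) {x : ℝ}
    (hx : ∑ k : Fin (A + 1), b k * Real.exp ((k : ℕ) * x) = 0) :
    ∃ y : Fin (A + 1) × Fin (A + 1), |x - zbreak b₀ y| ≤ Real.log (A + 1) + 2 * L := by
  obtain ⟨k, l, hlk, hbk, hbl, hk, hl⟩ := zrad_pair b hne hx
  have hA : (0 : ℝ) < (A : ℝ) + 1 := by positivity
  have hbk' : 0 < |b k| := abs_pos.2 hbk
  have hbl' : 0 < |b l| := abs_pos.2 hbl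
  have hb0 : ∀ i, 0 < |b i| → 0 < |b₀ i| := by
    intro i hi
    by_contra hc
    have h0 : |b₀ i| = 0 := le_antisymm (not_lt.1 hc) (abs_nonneg _)
    have := h1 i
    rw [h0, mul_zero] at this
    linarith
  have hk0 := hb0 k hbk'
  have hl0 := hb0 l hbl'
  have hlog : ∀ i, 0 < |b i| → |Real.log (|b i|) - Real.log (|b₀ i|)| ≤ L := by
    intro i hi
    have hi0 := hb0 i hi
    have e1 := Real.log_le_log hi (h1 i)
    have e2 := Real.log_le_log hi0 (h2 i)
    rw [Real.log_mul (Real.exp_pos _).ne' hi0.ne', Real.log_exp] at e1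
    rw [Real.log_mul (Real.exp_pos _).ne' hi.ne', Real.log_exp] at e2
    rw [abs_le]
    constructor <;> linarith
  have hkl := Real.log_le_log (mul_pos hbk' (Real.exp_pos _)) hk
  have hlk' := Real.log_le_log (mul_pos hbl' (Real.exp_pos _)) hl
  have ex : ∀ i : Fin (A + 1), 0 < |b i| → Real.log (|b i| * Real.exp ((i : ℕ) * x)) =
      Real.log |b i| + (i : ℕ) * x := by
    intro i hi
    rw [Real.log_mul hi.ne' (Real.exp_pos _).ne', Real.log_exp]
  have ex' : ∀ i : Fin (A + 1), 0 < |b i| →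
      Real.log ((A + 1) * (|b i| * Real.exp ((i : ℕ) * x))) =
      Real.log (A + 1) + (Real.log |b i| + (i : ℕ) * x) := by
    intro i hi
    rw [Real.log_mul hA.ne' (mul_pos hi (Real.exp_pos _)).ne', ex i hi]
  rw [ex k hbk', ex' l hbl'] at hkl
  rw [ex l hbl', ex' k hbk'] at hlk'
  have hak := abs_le.1 (hlog k hbk')
  have hal := abs_le.1 (hlog l hbl')
  have hlt : ((l : ℕ) : ℝ) + 1 ≤ ((k : ℕ) : ℝ) := by
    have := Fin.lt_def.1 hlk
    exact_mod_cast this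
  have hd : 0 < ((k : ℕ) : ℝ) - ((l : ℕ) : ℝ) := by linarith
  refine ⟨(k, l), ?_⟩
  have hlogA : 0 ≤ Real.log ((A : ℝ) + 1) := Real.log_nonneg (by
    have : (0 : ℝ) ≤ A := Nat.cast_nonneg A
    linarith)
  have hkey : |(((k : ℕ) : ℝ) - ((l : ℕ) : ℝ)) * (x - zbreak b₀ (k, l))| ≤
      Real.log (A + 1) + 2 * L := by
    have e1 : (((k : ℕ) : ℝ) - ((l : ℕ) : ℝ)) * (x - zbreak b₀ (k, l)) =
        (((k : ℕ) : ℝ) - ((l : ℕ) : ℝ)) * x - (Real.log |b₀ l| - Real.log |b₀ k|) := by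
      unfold zbreak
      field_simp
    rw [e1, abs_le]
    constructor <;> linarith [hak.1, hak.2, hal.1, hal.2]
  rw [abs_mul, abs_of_pos hd] at hkey
  have h3 : |x - zbreak b₀ (k, l)| ≤
      (((k : ℕ) : ℝ) - ((l : ℕ) : ℝ)) * |x - zbreak b₀ (k, l)| := by
    have := abs_nonneg (x - zbreak b₀ (k, l))
    nlinarith
  exact h3.trans hkey

/-- As `special_radii`, but the centres `U` do not depend on `η`. Proof: the coefficients of the relation at
a good angle `c` are comparable with the coefficients at one fixed good angle `c₀`; `U` is the set of the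
breakpoints at `c₀`. -/
theorem special_radii_fix {d : ℕ} (hd : 1 ≤ d) {K F G : MvPolynomial (Fin 2) ℝ} (hK : K ≠ 0)
    (hKd : K.totalDegree ≤ 2 * d) (hF : F.totalDegree ≤ d) (hG : G.totalDegree ≤ d) :
    ∃ S U : Finset ℝ, S.card ≤ (8 * d ^ 2 + 1) * (8 * d + 1) ∧ U.card ≤ (8 * d ^ 2 + 1) ^ 2 ∧
      ∀ η : ℝ, 0 < η → η * (4 * (((8 * d ^ 2 + 1) * (8 * d + 1) : ℕ) + 1)) ≤ 1 →
      ∀ c : ℝ, (∀ φ ∈ S, η ≤ |Real.sin (c - φ)|) →
        ∀ p : ℝ × ℝ, Real.sin c * ev G (cyl p) + Real.cos c * ev F (cyl p) = 0 →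
          ev K (cyl p) = 0 → (ev G (cyl p) ≠ 0 ∨ ev F (cyl p) ≠ 0) →
            ∃ u ∈ U, |p.1 - u| ≤ Real.log (8 * d ^ 2 + 1) + 8 * d * Real.log (2 / η) := by
  classical
  obtain ⟨r, ⟨i₀, j₀, hr₀⟩, hdvd⟩ := exists_relation hd hK hKd hF hG
  have hch : ∀ i : Fin (8 * d ^ 2 + 1), ∃ S : Finset ℝ, S.card ≤ 8 * d + 1 ∧
      (r i ≠ 0 → ∀ η : ℝ, 0 < η → η ≤ 1 →
      ∀ c c' : ℝ, (∀ φ ∈ S, η ≤ |Real.sin (c - φ)|) → (∀ φ ∈ S, η ≤ |Real.sin (c' - φ)|) →
        bform (r i) c ≠ 0 ∧ |bform (r i) c| ≤ (2 / η) ^ (8 * d) * |bform (r i) c'|) := by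
    intro i
    by_cases hi : r i = 0
    · exact ⟨∅, by simp, fun h => absurd hi h⟩
    · obtain ⟨S, hS, h⟩ := form_variation (r i) hi
      exact ⟨S, hS, fun _ => h⟩
  choose Sf hSc hSv using hch
  set S : Finset ℝ := Finset.univ.biUnion Sf with hS
  have hScard : S.card ≤ (8 * d ^ 2 + 1) * (8 * d + 1) := by
    refine Finset.card_biUnion_le.trans ?_
    refine (Finset.sum_le_sum fun i _ => hSc i).trans ?_
    rw [Finset.sum_const, Finset.card_univ, Fintype.card_fin, smul_eq_mul]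
  obtain ⟨c₀, -, -, hc₀⟩ := exists_good S one_pos le_rfl 0
  refine ⟨S, (Finset.univ.image (zbreak fun i => bform (r i) c₀)).image (fun u => u / 2),
    hScard, ?_, ?_⟩
  · refine Finset.card_image_le.trans (Finset.card_image_le.trans ?_)
    rw [Finset.card_univ, Fintype.card_prod, Fintype.card_fin]
    exact (sq _).ge
  intro η hη hη0 c hc p hlev hKz hne
  set M : ℝ := (((8 * d ^ 2 + 1) * (8 * d + 1) : ℕ) : ℝ) with hM
  have hM0 : 0 ≤ M := Nat.cast_nonneg _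
  have hη1 : η ≤ 1 := by nlinarith
  have hSM : (S.card : ℝ) ≤ M := by
    rw [hM]
    exact_mod_cast hScard
  have hc₀' : ∀ φ ∈ S, η ≤ |Real.sin (c₀ - φ)| := by
    intro φ hφ
    refine le_trans ?_ (hc₀ φ hφ)
    rw [le_div_iff₀ (by positivity)]
    nlinarith
  have h2η : (1 : ℝ) ≤ 2 / η := by
    rw [le_div_iff₀ hη]
    linarith
  have hLnn : (0 : ℝ) ≤ ((8 * d : ℕ) : ℝ) * Real.log (2 / η) :=
    mul_nonneg (Nat.cast_nonneg _) (Real.log_nonneg h2η)
  have hexp : Real.exp (((8 * d : ℕ) : ℝ) * Real.log (2 / η)) = (2 / η) ^ (8 * d) := by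
    rw [Real.exp_nat_mul, Real.exp_log (by positivity)]
  have hgood : ∀ c : ℝ, (∀ φ ∈ S, η ≤ |Real.sin (c - φ)|) →
      ∀ i, ∀ φ ∈ Sf i, η ≤ |Real.sin (c - φ)| := by
    intro c hc i φ hφ
    exact hc φ (Finset.mem_biUnion.2 ⟨i, Finset.mem_univ i, hφ⟩)
  have hzero : ∀ i, r i = 0 → ∀ c, bform (r i) c = 0 := by
    intro i hi c
    unfold bform
    refine Finset.sum_eq_zero fun j _ => ?_
    rw [hi]
    simp
  have hcmp : ∀ c : ℝ, (∀ φ ∈ S, η ≤ |Real.sin (c - φ)|) → ∀ c' : ℝ,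
      (∀ φ ∈ S, η ≤ |Real.sin (c' - φ)|) → ∀ i,
      |bform (r i) c| ≤ Real.exp (((8 * d : ℕ) : ℝ) * Real.log (2 / η)) * |bform (r i) c'| := by
    intro c hc c' hc' i
    by_cases hi : r i = 0
    · simp only [hzero i hi, abs_zero, mul_zero, le_refl]
    · rw [hexp]
      exact (hSv i hi η hη hη1 c c' (hgood c hc i) (hgood c' hc' i)).2
  have hi₀ : r i₀ ≠ 0 := by
    intro h
    apply hr₀
    rw [h]
    rfl
  set g := ev G (cyl p) with hg
  set f := ev F (cyl p) with hf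
  set l := g * Real.cos c - f * Real.sin c with hl
  have hcs := Real.sin_sq_add_cos_sq c
  have hgl : g = l * Real.cos c := by
    rw [hl]
    linear_combination (-g) * hcs + Real.sin c * hlev
  have hfl : -f = l * Real.sin c := by
    rw [hl]
    linear_combination f * hcs - Real.cos c * hlev
  have hl0 : l ≠ 0 := by
    intro h
    rw [h, zero_mul] at hgl hfl
    rcases hne with h1 | h1
    · exact h1 hgl
    · exact h1 (neg_eq_zero.1 hfl)
  obtain ⟨H, hH⟩ := hdvd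
  have hev := congrArg (MvPolynomial.eval ![(cyl p).1, (cyl p).2]) hH
  rw [map_mul] at hev
  have hKz' : MvPolynomial.eval ![(cyl p).1, (cyl p).2] K = 0 := hKz
  rw [hKz', zero_mul, map_sum] at hev
  have hnorm : (cyl p).1 ^ 2 + (cyl p).2 ^ 2 = Real.exp (2 * p.1) := by
    have h1 := Real.sin_sq_add_cos_sq p.2
    simp only [cyl]
    rw [mul_comm 2 p.1, mul_two, Real.exp_add]
    linear_combination (Real.exp p.1 * Real.exp p.1) * h1
  have hsum : ∑ i : Fin (8 * d ^ 2 + 1), bform (r i) c * Real.exp ((i : ℕ) * (2 * p.1)) = 0 := by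
    have hterm : ∀ i : Fin (8 * d ^ 2 + 1),
        MvPolynomial.eval ![(cyl p).1, (cyl p).2] (∑ j : Fin (8 * d + 1),
          MvPolynomial.C (r i j) * ((MvPolynomial.X 0 ^ 2 + MvPolynomial.X 1 ^ 2) ^ (i : ℕ) *
          (G ^ (8 * d - (j : ℕ)) * (-F) ^ (j : ℕ)))) =
        l ^ (8 * d) * (bform (r i) c * Real.exp ((i : ℕ) * (2 * p.1))) := by
      intro i
      rw [map_sum]
      unfold bform
      rw [Finset.sum_mul, Finset.mul_sum]
      refine Finset.sum_congr rfl fun j _ => ?_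
      simp only [map_mul, map_pow, map_add, map_neg, MvPolynomial.eval_C, MvPolynomial.eval_X,
        Matrix.cons_val_zero, Matrix.cons_val_one]
      have e1 : MvPolynomial.eval ![(cyl p).1, (cyl p).2] G = l * Real.cos c := hgl
      have e2 : -MvPolynomial.eval ![(cyl p).1, (cyl p).2] F = l * Real.sin c := hfl
      have e3 : (cyl p).1 ^ 2 + (cyl p).2 ^ 2 = Real.exp (2 * p.1) := hnorm
      rw [e1, e2, e3, Real.exp_nat_mul]
      have e4 : l ^ (8 * d) = l ^ (8 * d - (j : ℕ)) * l ^ (j : ℕ) := by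
        rw [← pow_add, Nat.sub_add_cancel (Nat.lt_succ_iff.1 j.2)]
      rw [e4, mul_pow, mul_pow]
      ring
    rw [Finset.sum_congr rfl fun i _ => hterm i, ← Finset.mul_sum] at hev
    exact (mul_eq_zero.1 hev).resolve_left (pow_ne_zero _ hl0)
  obtain ⟨y, hy⟩ := zrad_near (A := 8 * d ^ 2) (fun i => bform (r i) c)
    (fun i => bform (r i) c₀) (fun i => hcmp c hc c₀ hc₀' i)
    (fun i => hcmp c₀ hc₀' c hc i)
    ⟨i₀, (hSv i₀ hi₀ η hη hη1 c c (hgood c hc i₀) (hgood c hc i₀)).1⟩ hsum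
  refine ⟨zbreak (fun i => bform (r i) c₀) y / 2, Finset.mem_image_of_mem _
    (Finset.mem_image_of_mem _ (Finset.mem_univ y)), ?_⟩
  have h3 : p.1 - zbreak (fun i => bform (r i) c₀) y / 2 =
      (2 * p.1 - zbreak (fun i => bform (r i) c₀) y) / 2 := by ring
  rw [h3, abs_div, abs_of_pos (by norm_num : (0 : ℝ) < 2)]
  push_cast at hy
  have hlogA : 0 ≤ Real.log (8 * (d : ℝ) ^ 2 + 1) := Real.log_nonneg (by
    have : (0 : ℝ) ≤ 8 * (d : ℝ) ^ 2 := by positivity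
    linarith)
  linarith

end Pool.Agent.Lib.MP_95e7ec_an
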