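import Mathlib
import Pool.Agent.Lib.MP_95e7ec_an.Rq.Defs
import Pool.Agent.Lib.MP_95e7ec_an.Rq.LevelCurve

/-!
# Ry, ZSlope: the slope of a level curve in a thin sector
-/

set_option autoImplicit false

open Set Filter Topology MeasureTheory
open scoped ContDiff ENNReal

namespace Pool.Agent.Lib.MP_95e7ec_an

/-- the numerator of the derivative of `A/B` along a curve with the slope `-A/B` -/
noncomputable def zkk (A B : ℝ × ℝ → ℝ) (p : ℝ × ℝ) : ℝ :=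
  d1 A p * B p ^ 2 - A p * B p * (d2 A p + d1 B p) + A p ^ 2 * d2 B p

/-- the derivative along a curve -/
private theorem zslope_comp {f : ℝ × ℝ → ℝ} (hf : ContDiff ℝ 1 f) {ℓ : ℝ → ℝ} {y s : ℝ} {J : Set ℝ}
    (h : HasDerivWithinAt ℓ y J s) :
    HasDerivWithinAt (fun s => f (s, ℓ s)) (d1 f (s, ℓ s) + d2 f (s, ℓ s) * y) J s := by
  have h1 : HasFDerivAt f (fderiv ℝ f (s, ℓ s)) (s, ℓ s) :=
    (hf.differentiable one_ne_zero _).hasFDerivAt
  have h2 : HasDerivWithinAt (fun s => ((s, ℓ s) : ℝ × ℝ)) ((1 : ℝ), y) J s :=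
    (hasDerivWithinAt_id s _).prodMk h
  have h3 := h1.comp_hasDerivWithinAt s h2
  refine h3.congr_deriv ?_
  have h4 : (((1 : ℝ), y) : ℝ × ℝ) = (1 : ℝ) • ((1 : ℝ), (0 : ℝ)) + y • ((0 : ℝ), (1 : ℝ)) := by
    simp
  rw [h4, map_add, map_smul, map_smul]
  simp only [d1, d2, smul_eq_mul]
  ring

/-- A continuous function without zeros on an interval has one sign. -/
private theorem zslope_sign {g : ℝ → ℝ} {a b : ℝ} (hg : ContinuousOn g (Icc a b))
    (h : (∀ s ∈ Icc a b, g s = 0) ∨ ∀ s ∈ Icc a b, g s ≠ 0) :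
    (∀ s ∈ Icc a b, 0 ≤ g s) ∨ ∀ s ∈ Icc a b, g s ≤ 0 := by
  rcases h with h | h
  · exact Or.inl fun s hs => (h s hs).ge
  by_contra hcon
  push Not at hcon
  obtain ⟨⟨x, hx, hx0⟩, y, hy, hy0⟩ := hcon
  obtain ⟨z, hz, hz0⟩ := isPreconnected_Icc.intermediate_value hx hy hg ⟨hx0.le, hy0.le⟩
  exact h z hz hz0

/-- A level curve which is a graph over an interval of length 2, with a monotone slope `-A/B`, and which
stays in a sector of width `δ`, has slope at most `δ` in the middle. Proof: the derivative of `A/B` along the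
curve is `zkk A B / B³`, which has one sign; mean value theorem on both sides. -/
theorem zslope {A B : ℝ × ℝ → ℝ} (hA : ContDiff ℝ 1 A) (hB : ContDiff ℝ 1 B) {s₀ δ : ℝ}
    {ℓ ℓ' : ℝ → ℝ}
    (hℓ : ∀ s ∈ Icc (s₀ - 1) (s₀ + 1), HasDerivWithinAt ℓ (ℓ' s) (Icc (s₀ - 1) (s₀ + 1)) s)
    (hℓ' : ∀ s ∈ Icc (s₀ - 1) (s₀ + 1), B (s, ℓ s) * ℓ' s = -A (s, ℓ s))
    (hB0 : ∀ s ∈ Icc (s₀ - 1) (s₀ + 1), B (s, ℓ s) ≠ 0)
    (hK : (∀ s ∈ Icc (s₀ - 1) (s₀ + 1), zkk A B (s, ℓ s) = 0) ∨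
      ∀ s ∈ Icc (s₀ - 1) (s₀ + 1), zkk A B (s, ℓ s) ≠ 0)
    (hδ : ∀ s ∈ Icc (s₀ - 1) (s₀ + 1), ∀ s' ∈ Icc (s₀ - 1) (s₀ + 1), |ℓ s - ℓ s'| ≤ δ) :
    |ℓ' s₀| ≤ δ := by
  set J : Set ℝ := Icc (s₀ - 1) (s₀ + 1) with hJ
  have hs₀ : s₀ ∈ J := ⟨by linarith, by linarith⟩
  have hc : ContinuousOn ℓ J := fun s hs => (hℓ s hs).continuousWithinAt
  have hpair : ContinuousOn (fun s => ((s, ℓ s) : ℝ × ℝ)) J := continuousOn_id.prodMk hc
  have hfdA : Continuous (fderiv ℝ A) := hA.continuous_fderiv one_ne_zero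
  have hfdB : Continuous (fderiv ℝ B) := hB.continuous_fderiv one_ne_zero
  have hkc : Continuous (zkk A B) := by
    unfold zkk d1 d2
    have h1 := hfdA.clm_apply (continuous_const (y := ((1, 0) : ℝ × ℝ)))
    have h2 := hfdA.clm_apply (continuous_const (y := ((0, 1) : ℝ × ℝ)))
    have h3 := hfdB.clm_apply (continuous_const (y := ((1, 0) : ℝ × ℝ)))
    have h4 := hfdB.clm_apply (continuous_const (y := ((0, 1) : ℝ × ℝ)))
    exact ((h1.mul (hB.continuous.pow 2)).sub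
      ((hA.continuous.mul hB.continuous).mul (h2.add h3))).add ((hA.continuous.pow 2).mul h4)
  have hsgn : (∀ s ∈ J, 0 ≤ zkk A B (s, ℓ s) * B (s, ℓ s)) ∨
      ∀ s ∈ J, zkk A B (s, ℓ s) * B (s, ℓ s) ≤ 0 := by
    apply zslope_sign
    · exact (hkc.comp_continuousOn hpair).mul (hB.continuous.comp_continuousOn hpair)
    · rcases hK with h | h
      · exact Or.inl fun s hs => by rw [h s hs, zero_mul]
      · exact Or.inr fun s hs => mul_ne_zero (h s hs) (hB0 s hs)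
  set q : ℝ → ℝ := fun s => A (s, ℓ s) / B (s, ℓ s) with hq
  have hqℓ : ∀ s ∈ J, ℓ' s = -q s := by
    intro s hs
    have h1 := hℓ' s hs
    have h2 := hB0 s hs
    simp only [hq]
    field_simp
    linarith
  have hqd : ∀ s ∈ J, HasDerivWithinAt q (zkk A B (s, ℓ s) * B (s, ℓ s) / B (s, ℓ s) ^ 4) J s := by
    intro s hs
    have h1 := zslope_comp hA (hℓ s hs)
    have h2 := zslope_comp hB (hℓ s hs)
    have h3 := h1.div h2 (hB0 s hs)
    refine h3.congr_deriv ?_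
    have h4 := hB0 s hs
    rw [hqℓ s hs]
    simp only [hq, zkk]
    field_simp
    ring
  have hqc : ContinuousOn q J := fun s hs => (hqd s hs).continuousWithinAt
  have hint : interior J = Ioo (s₀ - 1) (s₀ + 1) := interior_Icc
  have hqi : ∀ s ∈ interior J, HasDerivAt q (zkk A B (s, ℓ s) * B (s, ℓ s) / B (s, ℓ s) ^ 4) s := by
    intro s hs
    exact (hqd s (interior_subset hs)).hasDerivAt (mem_interior_iff_mem_nhds.1 hs)
  have hℓi : ∀ s ∈ interior J, HasDerivAt ℓ (ℓ' s) s := by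
    intro s hs
    exact (hℓ s (interior_subset hs)).hasDerivAt (mem_interior_iff_mem_nhds.1 hs)
  obtain ⟨ξ, hξ, hξ2⟩ := exists_hasDerivAt_eq_slope ℓ ℓ' (show s₀ - 1 < s₀ by linarith)
    (hc.mono fun x hx => ⟨hx.1, by linarith [hx.2]⟩)
    (fun x hx => hℓi x (by rw [hint]; exact ⟨hx.1, by linarith [hx.2]⟩))
  obtain ⟨ζ, hζ, hζ2⟩ := exists_hasDerivAt_eq_slope ℓ ℓ' (show s₀ < s₀ + 1 by linarith)
    (hc.mono fun x hx => ⟨by linarith [hx.1], hx.2⟩)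
    (fun x hx => hℓi x (by rw [hint]; exact ⟨by linarith [hx.1], hx.2⟩))
  have hξJ : ξ ∈ J := ⟨hξ.1.le, by linarith [hξ.2]⟩
  have hζJ : ζ ∈ J := ⟨by linarith [hζ.1], hζ.2.le⟩
  have e1 : |ℓ' ξ| ≤ δ := by
    rw [hξ2, show s₀ - (s₀ - 1) = 1 by ring, div_one]
    exact hδ _ hs₀ _ ⟨le_rfl, by linarith⟩
  have e2 : |ℓ' ζ| ≤ δ := by
    rw [hζ2, show s₀ + 1 - s₀ = 1 by ring, div_one]
    exact hδ _ ⟨by linarith, le_rfl⟩ _ hs₀
  rw [abs_le] at e1 e2 ⊢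
  have a1 := hqℓ ξ hξJ
  have a2 := hqℓ ζ hζJ
  have a3 := hqℓ s₀ hs₀
  rcases hsgn with h | h
  · have hm : MonotoneOn q J := by
      refine monotoneOn_of_deriv_nonneg (convex_Icc _ _) hqc
        (fun s hs => (hqi s hs).differentiableAt.differentiableWithinAt) fun s hs => ?_
      rw [(hqi s hs).deriv]
      exact div_nonneg (h s (interior_subset hs)) (by positivity)
    have m1 := hm hξJ hs₀ hξ.2.le
    have m2 := hm hs₀ hζJ hζ.1.le
    constructor <;> linarith [e1.1, e1.2, e2.1, e2.2]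
  · have hm : AntitoneOn q J := by
      refine antitoneOn_of_deriv_nonpos (convex_Icc _ _) hqc
        (fun s hs => (hqi s hs).differentiableAt.differentiableWithinAt) fun s hs => ?_
      rw [(hqi s hs).deriv]
      exact div_nonpos_of_nonpos_of_nonneg (h s (interior_subset hs)) (by positivity)
    have m1 := hm hξJ hs₀ hξ.2.le
    have m2 := hm hs₀ hζJ hζ.1.le
    constructor <;> linarith [e1.1, e1.2, e2.1, e2.2]

private theorem zslope_fderiv_per {f : ℝ × ℝ → ℝ}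
    (hper : ∀ p : ℝ × ℝ, f (p + (0, 2 * Real.pi)) = f p) (p : ℝ × ℝ) :
    fderiv ℝ f (p + (0, 2 * Real.pi)) = fderiv ℝ f p := by
  rw [← fderiv_comp_add_right]
  congr 1
  funext x
  exact hper x

/-- A level curve on which `d2 f ≠ 0` is a graph over the whole interval. Proof: `|d1 f|/|d2 f|` is bounded on
the zeros of the strip by compactness and periodicity; `level_curve`. -/
theorem zgraph {f : ℝ × ℝ → ℝ} (hf : ContDiff ℝ 2 f)
    (hper : ∀ p : ℝ × ℝ, f (p + (0, 2 * Real.pi)) = f p) {s1 s2 : ℝ} (hs : s1 < s2)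
    (hns : ∀ p : ℝ × ℝ, p.1 ∈ Icc s1 s2 → f p = 0 → d2 f p ≠ 0)
    {p0 : ℝ × ℝ} (hp0 : p0.1 ∈ Icc s1 s2) (h0 : f p0 = 0) :
    ∃ ℓ ℓ' : ℝ → ℝ, ℓ p0.1 = p0.2 ∧ ∀ s ∈ Icc s1 s2, f (s, ℓ s) = 0 ∧
      HasDerivWithinAt ℓ (ℓ' s) (Icc s1 s2) s ∧ d1 f (s, ℓ s) + d2 f (s, ℓ s) * ℓ' s = 0 := by
  have hf1 : ContDiff ℝ 1 f := hf.of_le (by norm_num)
  have hfd : Continuous (fderiv ℝ f) := hf1.continuous_fderiv one_ne_zero
  have hc1 : Continuous (d1 f) := by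
    unfold d1
    exact hfd.clm_apply continuous_const
  have hc2 : Continuous (d2 f) := by
    unfold d2
    exact hfd.clm_apply continuous_const
  set K : Set (ℝ × ℝ) := (Icc s1 s2 ×ˢ Icc (0 : ℝ) (2 * Real.pi)) ∩ {p | f p = 0} with hK
  have hKc : IsCompact K := (isCompact_Icc.prod isCompact_Icc).inter_right
    (isClosed_eq hf1.continuous continuous_const)
  have hcont : ContinuousOn (fun p => |d1 f p| / |d2 f p|) K := by
    refine ContinuousOn.div hc1.abs.continuousOn hc2.abs.continuousOn ?_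
    intro p hp
    exact abs_ne_zero.2 (hns p hp.1.1 hp.2)
  obtain ⟨M, hM⟩ := hKc.exists_bound_of_continuousOn hcont
  have hns2 : ∀ p : ℝ × ℝ, p.1 ∈ Icc s1 s2 → f p = 0 → |d1 f p| < (|M| + 1) * |d2 f p| := by
    intro p hp hpz
    have hP : Function.Periodic (fun θ : ℝ => ((f (p.1, θ), d1 f (p.1, θ)), d2 f (p.1, θ)))
        (2 * Real.pi) := by
      intro θ
      have e1 : ((p.1, θ + 2 * Real.pi) : ℝ × ℝ) = (p.1, θ) + (0, 2 * Real.pi) := by simp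
      simp only [e1, hper, d1, d2, zslope_fderiv_per hper]
    obtain ⟨y, hy, hy2⟩ := hP.exists_mem_Ico₀ Real.two_pi_pos p.2
    have e0 : f p = f (p.1, y) := congrArg (fun x => x.1.1) hy2
    have e1 : d1 f p = d1 f (p.1, y) := congrArg (fun x => x.1.2) hy2
    have e2 : d2 f p = d2 f (p.1, y) := congrArg (fun x => x.2) hy2
    have hmem : ((p.1, y) : ℝ × ℝ) ∈ K := ⟨⟨hp, Ico_subset_Icc_self hy⟩, e0.symm.trans hpz⟩
    have h1 := hM _ hmem
    have h2 : 0 < |d2 f (p.1, y)| := abs_pos.2 (hns _ hp (e0.symm.trans hpz))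
    rw [Real.norm_eq_abs, abs_of_nonneg (by positivity), div_le_iff₀ h2] at h1
    rw [e1, e2]
    have h3 := le_abs_self M
    nlinarith
  obtain ⟨ℓ, ℓ', hℓ0, hℓ⟩ := level_curve hf hper hs.le hns2 hp0 h0
  refine ⟨ℓ, ℓ', hℓ0, fun s hs' => ⟨(hℓ s hs').1, (hℓ s hs').2.2, ?_⟩⟩
  have h1 := zslope_comp hf1 (hℓ s hs').2.2
  have h2 : HasDerivWithinAt (fun s => f (s, ℓ s)) 0 (Icc s1 s2) s :=
    (hasDerivWithinAt_const s (Icc s1 s2) (0 : ℝ)).congr (fun x hx => (hℓ x hx).1) (hℓ s hs').1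
  exact (uniqueDiffOn_Icc hs s hs').eq_deriv _ h1 h2

/-- A curve does not cross the rays without zeros. -/
theorem zrange {f : ℝ × ℝ → ℝ} {s1 s2 δ : ℝ} {ℓ : ℝ → ℝ} (hℓ : ContinuousOn ℓ (Icc s1 s2))
    (hz : ∀ s ∈ Icc s1 s2, f (s, ℓ s) = 0)
    (hray : ∀ θ₀ : ℝ, ∃ h : ℝ, 0 ≤ h ∧ h ≤ δ ∧ ∀ s ∈ Icc s1 s2, f (s, θ₀ + h) ≠ 0) :
    ∀ s ∈ Icc s1 s2, ∀ s' ∈ Icc s1 s2, |ℓ s - ℓ s'| ≤ δ := by
  have key : ∀ s ∈ Icc s1 s2, ∀ s' ∈ Icc s1 s2, ℓ s' - ℓ s ≤ δ := by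
    intro s hs s' hs'
    by_contra hcon
    push Not at hcon
    obtain ⟨h, h0, hδ, hh⟩ := hray (ℓ s)
    obtain ⟨x, hx, hx2⟩ := isPreconnected_Icc.intermediate_value hs hs' hℓ
      (show ℓ s + h ∈ Icc (ℓ s) (ℓ s') from ⟨by linarith, by linarith⟩)
    apply hh x hx
    rw [← hx2]
    exact hz x hx
  intro s hs s' hs'
  rw [abs_le]
  constructor
  · linarith [key s hs s' hs']
  · linarith [key s' hs' s hs]

/-- If `V₁ ∂_θ V₂ = V₂ ∂_θ V₁` and `V ≠ 0` on a circle, and `V₂` has a zero there, then `V₂ = 0` on the circle.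
Proof: `V₂²/(V₁²+V₂²)` has derivative zero. -/
theorem zflat {u v : ℝ → ℝ} (hu : Differentiable ℝ u) (hv : Differentiable ℝ v)
    (hne : ∀ x, u x ≠ 0 ∨ v x ≠ 0) (h : ∀ x, u x * deriv v x = v x * deriv u x) {x₀ : ℝ}
    (h0 : v x₀ = 0) (x : ℝ) : v x = 0 := by
  have hden : ∀ x, 0 < u x ^ 2 + v x ^ 2 := by
    intro x
    rcases hne x with h1 | h1
    · have : 0 < u x ^ 2 := by positivity
      nlinarith [sq_nonneg (v x)]
    · have : 0 < v x ^ 2 := by positivity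
      nlinarith [sq_nonneg (u x)]
  set R : ℝ → ℝ := fun x => v x ^ 2 / (u x ^ 2 + v x ^ 2) with hR
  have hRd : ∀ x, HasDerivAt R 0 x := by
    intro x
    have h1 := (hv x).hasDerivAt
    have h2 := (hu x).hasDerivAt
    have h3 := (h1.pow 2).div ((h2.pow 2).add (h1.pow 2)) (hden x).ne'
    refine h3.congr_deriv ?_
    have h4 := h x
    have h5 := (hden x).ne'
    simp only [Pi.add_apply, Pi.pow_apply, Nat.cast_ofNat]
    rw [div_eq_zero_iff]
    left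
    linear_combination (2 * u x * v x) * h4
  have hc := is_const_of_deriv_eq_zero (fun x => (hRd x).differentiableAt) (fun x => (hRd x).deriv)
    x x₀
  simp only [hR, h0] at hc
  have h6 : v x ^ 2 / (u x ^ 2 + v x ^ 2) = 0 := by
    rw [hc]
    simp
  rcases div_eq_zero_iff.1 h6 with h7 | h7
  · exact pow_eq_zero_iff two_ne_zero |>.1 h7
  · exact absurd h7 (hden x).ne'

end Pool.Agent.Lib.MP_95e7ec_an
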