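import Mathlib
import Pool.Agent.Lib.MP_95e7ec_an.Rq.Defs
import Pool.Agent.Lib.MP_95e7ec_an.Rq.Chain
import Pool.Agent.Lib.MP_95e7ec_an.Ry.ZSlope

/-!
# Ry, ZPol: the polynomials of the slope and of the curvature of the level curves
-/

set_option autoImplicit false

open Set Filter Topology MeasureTheory
open scoped ContDiff ENNReal

namespace Pool.Agent.Lib.MP_95e7ec_an

/-- `Im (W̄ W_ρ)`, `W = X z̄` -/
noncomputable def zpA (P Q : MvPolynomial (Fin 2) ℝ) : MvPolynomial (Fin 2) ℝ :=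
  wre P Q * Drho (wim P Q) - wim P Q * Drho (wre P Q)

/-- `Im (W̄ W_θ)`, `W = X z̄` -/
noncomputable def zpB (P Q : MvPolynomial (Fin 2) ℝ) : MvPolynomial (Fin 2) ℝ :=
  wre P Q * Dth (wim P Q) - wim P Q * Dth (wre P Q)

/-- the curvature polynomial -/
noncomputable def zpC (P Q : MvPolynomial (Fin 2) ℝ) : MvPolynomial (Fin 2) ℝ :=
  Drho (zpA P Q) * zpB P Q ^ 2 - zpA P Q * zpB P Q * (Dth (zpA P Q) + Drho (zpB P Q)) +
    zpA P Q ^ 2 * Dth (zpB P Q)

private theorem zpol_X_pderiv (F : MvPolynomial (Fin 2) ℝ) (i j : Fin 2) :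
    (MvPolynomial.X i * MvPolynomial.pderiv j F).totalDegree ≤ F.totalDegree := by
  rw [F.as_sum, map_sum, Finset.mul_sum, ← F.as_sum]
  apply MvPolynomial.totalDegree_finsetSum_le
  intro s hs
  rw [MvPolynomial.pderiv_monomial]
  by_cases h0 : s j = 0
  · rw [h0]
    simp
  · have h1 : (MvPolynomial.X i * MvPolynomial.monomial (s - Finsupp.single j 1)
        (MvPolynomial.coeff s F * ((s j : ℕ) : ℝ))) =
        MvPolynomial.monomial (Finsupp.single i 1 + (s - Finsupp.single j 1))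
          (MvPolynomial.coeff s F * ((s j : ℕ) : ℝ)) := by
      rw [MvPolynomial.X, MvPolynomial.monomial_mul, one_mul]
    rw [h1]
    refine (MvPolynomial.totalDegree_monomial_le _ _).trans ?_
    show ((Finsupp.single i 1 + (s - Finsupp.single j 1)).sum fun _ e => e) ≤ _
    have h2 : (s.sum fun _ e => e) ≤ F.totalDegree := MvPolynomial.le_totalDegree hs
    have h3 : ∀ t : Fin 2 →₀ ℕ, (t.sum fun _ e => e) = t 0 + t 1 := by
      intro t
      rw [Finsupp.sum_fintype _ _ (fun _ => rfl), Fin.sum_univ_two]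
    rw [h3] at h2 ⊢
    have h4 : (Finsupp.single i 1 : Fin 2 →₀ ℕ) 0 + (Finsupp.single i 1 : Fin 2 →₀ ℕ) 1 = 1 := by
      fin_cases i <;> simp
    have h5 : (s - Finsupp.single j 1 : Fin 2 →₀ ℕ) 0 + (s - Finsupp.single j 1 : Fin 2 →₀ ℕ) 1 + 1
        = s 0 + s 1 := by
      fin_cases j
      · simp at h0 ⊢
        omega
      · simp at h0 ⊢
        omega
    rw [Finsupp.add_apply, Finsupp.add_apply]
    omega

theorem totalDegree_Drho_le (F : MvPolynomial (Fin 2) ℝ) :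
    (Drho F).totalDegree ≤ F.totalDegree :=
  (MvPolynomial.totalDegree_add _ _).trans
    (max_le (zpol_X_pderiv F 0 0) (zpol_X_pderiv F 1 1))

theorem totalDegree_Dth_le (F : MvPolynomial (Fin 2) ℝ) :
    (Dth F).totalDegree ≤ F.totalDegree :=
  (MvPolynomial.totalDegree_sub _ _).trans
    (max_le (zpol_X_pderiv F 0 1) (zpol_X_pderiv F 1 0))

private theorem zpol_mul {F G : MvPolynomial (Fin 2) ℝ} {a b : ℕ} (hF : F.totalDegree ≤ a)
    (hG : G.totalDegree ≤ b) : (F * G).totalDegree ≤ a + b :=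
  (MvPolynomial.totalDegree_mul _ _).trans (Nat.add_le_add hF hG)

theorem totalDegree_zpA {n : ℕ} {P Q : MvPolynomial (Fin 2) ℝ} (hP : P.totalDegree ≤ n)
    (hQ : Q.totalDegree ≤ n) : (zpA P Q).totalDegree ≤ 2 * (n + 1) := by
  have h1 := totalDegree_wre hP hQ
  have h2 := totalDegree_wim hP hQ
  unfold zpA
  refine (MvPolynomial.totalDegree_sub _ _).trans (max_le ?_ ?_)
  · have := zpol_mul h1 ((totalDegree_Drho_le _).trans h2)
    omega
  · have := zpol_mul h2 ((totalDegree_Drho_le _).trans h1)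
    omega

theorem totalDegree_zpB {n : ℕ} {P Q : MvPolynomial (Fin 2) ℝ} (hP : P.totalDegree ≤ n)
    (hQ : Q.totalDegree ≤ n) : (zpB P Q).totalDegree ≤ 2 * (n + 1) := by
  have h1 := totalDegree_wre hP hQ
  have h2 := totalDegree_wim hP hQ
  unfold zpB
  refine (MvPolynomial.totalDegree_sub _ _).trans (max_le ?_ ?_)
  · have := zpol_mul h1 ((totalDegree_Dth_le _).trans h2)
    omega
  · have := zpol_mul h2 ((totalDegree_Dth_le _).trans h1)
    omega

theorem totalDegree_zpC {n : ℕ} {P Q : MvPolynomial (Fin 2) ℝ} (hP : P.totalDegree ≤ n)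
    (hQ : Q.totalDegree ≤ n) : (zpC P Q).totalDegree ≤ 6 * (n + 1) := by
  have hA := totalDegree_zpA hP hQ
  have hB := totalDegree_zpB hP hQ
  have hA1 := (totalDegree_Drho_le _).trans hA
  have hA2 := (totalDegree_Dth_le _).trans hA
  have hB1 := (totalDegree_Drho_le _).trans hB
  have hB2 := (totalDegree_Dth_le _).trans hB
  unfold zpC
  refine (MvPolynomial.totalDegree_add _ _).trans (max_le ?_ ?_)
  · refine (MvPolynomial.totalDegree_sub _ _).trans (max_le ?_ ?_)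
    · rw [sq]
      have := zpol_mul hA1 (zpol_mul hB hB)
      omega
    · have := zpol_mul (zpol_mul hA hB)
        ((MvPolynomial.totalDegree_add _ _).trans (max_le hA2 hB1))
      omega
  · rw [sq]
    have := zpol_mul (zpol_mul hA hA) hB2
    omega

theorem ev_zpC (P Q : MvPolynomial (Fin 2) ℝ) (p : ℝ × ℝ) :
    ev (zpC P Q) (cyl p) =
      zkk (fun q => ev (zpA P Q) (cyl q)) (fun q => ev (zpB P Q) (cyl q)) p := by
  unfold zkk
  rw [d1_ev_cyl, d2_ev_cyl, d1_ev_cyl, d2_ev_cyl]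
  simp [ev, zpC]

private theorem zpol_d1_add {f g : ℝ × ℝ → ℝ} (a b : ℝ) {p : ℝ × ℝ} (hf : DifferentiableAt ℝ f p)
    (hg : DifferentiableAt ℝ g p) :
    d1 (fun q => a * f q + b * g q) p = a * d1 f p + b * d1 g p := by
  have h := ((hf.hasFDerivAt.const_mul a).add (hg.hasFDerivAt.const_mul b)).fderiv
  unfold d1
  have e : fderiv ℝ (fun q => a * f q + b * g q) p = a • fderiv ℝ f p + b • fderiv ℝ g p := h
  rw [e]
  simp

private theorem zpol_d2_add {f g : ℝ × ℝ → ℝ} (a b : ℝ) {p : ℝ × ℝ} (hf : DifferentiableAt ℝ f p)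
    (hg : DifferentiableAt ℝ g p) :
    d2 (fun q => a * f q + b * g q) p = a * d2 f p + b * d2 g p := by
  have h := ((hf.hasFDerivAt.const_mul a).add (hg.hasFDerivAt.const_mul b)).fderiv
  unfold d2
  have e : fderiv ℝ (fun q => a * f q + b * g q) p = a • fderiv ℝ f p + b • fderiv ℝ g p := h
  rw [e]
  simp

private theorem zpol_diff (F : MvPolynomial (Fin 2) ℝ) (p : ℝ × ℝ) :
    DifferentiableAt ℝ (fun q => ev F (cyl q)) p :=
  ((contDiff_ev_cyl F (k := 1)).differentiable one_ne_zero) p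

theorem d1_lev (P Q : MvPolynomial (Fin 2) ℝ) (c : ℝ) (p : ℝ × ℝ) :
    d1 (lev (cf (vf P Q)) c) p =
      Real.sin c * ev (Drho (wre P Q)) (cyl p) + Real.cos c * ev (Drho (wim P Q)) (cyl p) := by
  have h : lev (cf (vf P Q)) c = fun p =>
      Real.sin c * ev (wre P Q) (cyl p) + Real.cos c * ev (wim P Q) (cyl p) := by
    funext q
    exact lev_cf P Q c q
  rw [h, zpol_d1_add _ _ (zpol_diff _ p) (zpol_diff _ p), d1_ev_cyl, d1_ev_cyl]

theorem d2_lev (P Q : MvPolynomial (Fin 2) ℝ) (c : ℝ) (p : ℝ × ℝ) :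
    d2 (lev (cf (vf P Q)) c) p =
      Real.sin c * ev (Dth (wre P Q)) (cyl p) + Real.cos c * ev (Dth (wim P Q)) (cyl p) := by
  have h : lev (cf (vf P Q)) c = fun p =>
      Real.sin c * ev (wre P Q) (cyl p) + Real.cos c * ev (wim P Q) (cyl p) := by
    funext q
    exact lev_cf P Q c q
  rw [h, zpol_d2_add _ _ (zpol_diff _ p) (zpol_diff _ p), d2_ev_cyl, d2_ev_cyl]

/-- the real part of `e^{ic} W` -/
noncomputable def zre (P Q : MvPolynomial (Fin 2) ℝ) (c : ℝ) (p : ℝ × ℝ) : ℝ :=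
  Real.cos c * ev (wre P Q) (cyl p) - Real.sin c * ev (wim P Q) (cyl p)

theorem zre_ne {P Q : MvPolynomial (Fin 2) ℝ} {c : ℝ} {p : ℝ × ℝ}
    (h0 : lev (cf (vf P Q)) c p = 0) (hne : cf (vf P Q) p ≠ 0) : zre P Q c p ≠ 0 := by
  intro h
  apply hne
  rw [lev_cf] at h0
  unfold zre at h
  have hs := Real.sin_sq_add_cos_sq c
  have e1 : ev (wre P Q) (cyl p) = 0 := by
    linear_combination (-ev (wre P Q) (cyl p)) * hs + Real.sin c * h0 + Real.cos c * h
  have e2 : ev (wim P Q) (cyl p) = 0 := by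
    linear_combination (-ev (wim P Q) (cyl p)) * hs + Real.cos c * h0 - Real.sin c * h
  rw [ev_wre] at e1
  rw [ev_wim] at e2
  exact Prod.ext e1 e2

theorem zpA_lev {P Q : MvPolynomial (Fin 2) ℝ} {c : ℝ} {p : ℝ × ℝ}
    (h0 : lev (cf (vf P Q)) c p = 0) :
    ev (zpA P Q) (cyl p) = zre P Q c p * d1 (lev (cf (vf P Q)) c) p := by
  have hs := Real.sin_sq_add_cos_sq c
  rw [lev_cf] at h0
  rw [d1_lev]
  unfold zre
  have e : ev (zpA P Q) (cyl p) = ev (wre P Q) (cyl p) * ev (Drho (wim P Q)) (cyl p) -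
      ev (wim P Q) (cyl p) * ev (Drho (wre P Q)) (cyl p) := by
    simp [ev, zpA]
  rw [e]
  linear_combination (-(ev (wre P Q) (cyl p) * ev (Drho (wim P Q)) (cyl p) -
    ev (wim P Q) (cyl p) * ev (Drho (wre P Q)) (cyl p))) * hs +
    (Real.sin c * ev (Drho (wim P Q)) (cyl p) - Real.cos c * ev (Drho (wre P Q)) (cyl p)) * h0

theorem zpB_lev {P Q : MvPolynomial (Fin 2) ℝ} {c : ℝ} {p : ℝ × ℝ}
    (h0 : lev (cf (vf P Q)) c p = 0) :
    ev (zpB P Q) (cyl p) = zre P Q c p * d2 (lev (cf (vf P Q)) c) p := by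
  have hs := Real.sin_sq_add_cos_sq c
  rw [lev_cf] at h0
  rw [d2_lev]
  unfold zre
  have e : ev (zpB P Q) (cyl p) = ev (wre P Q) (cyl p) * ev (Dth (wim P Q)) (cyl p) -
      ev (wim P Q) (cyl p) * ev (Dth (wre P Q)) (cyl p) := by
    simp [ev, zpB]
  rw [e]
  linear_combination (-(ev (wre P Q) (cyl p) * ev (Dth (wim P Q)) (cyl p) -
    ev (wim P Q) (cyl p) * ev (Dth (wre P Q)) (cyl p))) * hs +
    (Real.sin c * ev (Dth (wim P Q)) (cyl p) - Real.cos c * ev (Dth (wre P Q)) (cyl p)) * h0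

private theorem zpol_hasDerivAt (F : MvPolynomial (Fin 2) ℝ) (s θ : ℝ) :
    HasDerivAt (fun θ => ev F (cyl (s, θ))) (ev (Dth F) (cyl (s, θ))) θ := by
  have h1 : HasFDerivAt (fun q => ev F (cyl q)) (fderiv ℝ (fun q => ev F (cyl q)) (s, θ)) (s, θ) :=
    (zpol_diff F (s, θ)).hasFDerivAt
  have h2 : HasDerivAt (fun θ : ℝ => ((s, θ) : ℝ × ℝ)) ((0 : ℝ), (1 : ℝ)) θ :=
    (hasDerivAt_const θ s).prodMk (hasDerivAt_id θ)
  have h3 := h1.comp_hasDerivAt θ h2
  refine h3.congr_deriv ?_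
  exact d2_ev_cyl F (s, θ)

/-- If `Im (W̄ W_θ) = 0` identically, and `W ≠ 0` on a circle, then a level function with a zero on the circle
vanishes on the circle. -/
theorem zpB_flat {P Q : MvPolynomial (Fin 2) ℝ} (hB : zpB P Q = 0) {c s : ℝ}
    (hne : ∀ θ : ℝ, cf (vf P Q) (s, θ) ≠ 0) {θ₀ : ℝ} (h0 : lev (cf (vf P Q)) c (s, θ₀) = 0)
    (θ : ℝ) : lev (cf (vf P Q)) c (s, θ) = 0 := by
  have hs := Real.sin_sq_add_cos_sq c
  have hv : ∀ θ, HasDerivAt (fun θ => lev (cf (vf P Q)) c (s, θ))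
      (Real.sin c * ev (Dth (wre P Q)) (cyl (s, θ)) +
        Real.cos c * ev (Dth (wim P Q)) (cyl (s, θ))) θ := by
    intro θ
    have h1 := ((zpol_hasDerivAt (wre P Q) s θ).const_mul (Real.sin c)).add
      ((zpol_hasDerivAt (wim P Q) s θ).const_mul (Real.cos c))
    refine h1.congr_of_eventuallyEq (Eventually.of_forall fun x => ?_)
    exact lev_cf P Q c (s, x)
  have hu : ∀ θ, HasDerivAt (fun θ => zre P Q c (s, θ))
      (Real.cos c * ev (Dth (wre P Q)) (cyl (s, θ)) -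
        Real.sin c * ev (Dth (wim P Q)) (cyl (s, θ))) θ := by
    intro θ
    exact ((zpol_hasDerivAt (wre P Q) s θ).const_mul (Real.cos c)).sub
      ((zpol_hasDerivAt (wim P Q) s θ).const_mul (Real.sin c))
  refine zflat (u := fun θ => zre P Q c (s, θ)) (v := fun θ => lev (cf (vf P Q)) c (s, θ))
    (fun θ => (hu θ).differentiableAt) (fun θ => (hv θ).differentiableAt) ?_ ?_ h0 θ
  · intro θ
    by_contra hcon
    push Not at hcon
    exact zre_ne hcon.2 (hne θ) hcon.1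
  · intro θ
    rw [(hv θ).deriv, (hu θ).deriv, lev_cf]
    unfold zre
    have e : ev (wre P Q) (cyl (s, θ)) * ev (Dth (wim P Q)) (cyl (s, θ)) -
        ev (wim P Q) (cyl (s, θ)) * ev (Dth (wre P Q)) (cyl (s, θ)) = 0 := by
      have h1 : ev (zpB P Q) (cyl (s, θ)) = 0 := by
        rw [hB]
        simp [ev]
      rw [← h1]
      simp [ev, zpB]
    linear_combination (Real.sin c ^ 2 + Real.cos c ^ 2) * e

end Pool.Agent.Lib.MP_95e7ec_an
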