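import Mathlib
import Pool.Agent.Lib.MP_95e7ec_an.Ry.Defs
import Pool.Agent.Lib.MP_95e7ec_an.Ry.ZRad
import Pool.Agent.Lib.MP_95e7ec_an.Ry.ZPol
import Pool.Agent.Lib.MP_95e7ec_an.Ry.ZSlope
import Pool.Agent.Lib.MP_95e7ec_an.Rw.DomData
import Pool.Agent.Lib.MP_95e7ec_an.Rq.ZoneData

/-!
# Ry, PartZ: zones with fixed centres
-/

set_option autoImplicit false

open Set Filter Topology MeasureTheory
open scoped ContDiff ENNReal

namespace Pool.Agent.Lib.MP_95e7ec_an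

/-- the special radii, also for the zero polynomial -/
private theorem partz_rad {d : ℕ} (hd : 1 ≤ d) {F G : MvPolynomial (Fin 2) ℝ}
    (hF : F.totalDegree ≤ d) (hG : G.totalDegree ≤ d) (K : MvPolynomial (Fin 2) ℝ)
    (hKd : K.totalDegree ≤ 2 * d) :
    ∃ S U : Finset ℝ, S.card ≤ (8 * d ^ 2 + 1) * (8 * d + 1) ∧ U.card ≤ (8 * d ^ 2 + 1) ^ 2 ∧
      (K ≠ 0 → ∀ η : ℝ, 0 < η → η * (4 * (((8 * d ^ 2 + 1) * (8 * d + 1) : ℕ) + 1)) ≤ 1 →
      ∀ c : ℝ, (∀ φ ∈ S, η ≤ |Real.sin (c - φ)|) →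
        ∀ p : ℝ × ℝ, Real.sin c * ev G (cyl p) + Real.cos c * ev F (cyl p) = 0 →
          ev K (cyl p) = 0 → (ev G (cyl p) ≠ 0 ∨ ev F (cyl p) ≠ 0) →
            ∃ u ∈ U, |p.1 - u| ≤ Real.log (8 * d ^ 2 + 1) + 8 * d * Real.log (2 / η)) := by
  by_cases hK : K = 0
  · exact ⟨∅, ∅, by simp, by simp, fun h => absurd hK h⟩
  · obtain ⟨S, U, h1, h2, h3⟩ := special_radii_fix hd hK hKd hF hG
    exact ⟨S, U, h1, h2, fun _ => h3⟩

/-- the level function at a turned vector -/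
private theorem partz_cs (c : ℝ) (u : ℝ × ℝ) : |Real.sin c * u.1 + Real.cos c * u.2| ≤ nm u := by
  unfold nm
  apply Real.abs_le_sqrt
  have h := Real.sin_sq_add_cos_sq c
  nlinarith [sq_nonneg (Real.cos c * u.1 - Real.sin c * u.2)]

/-- a dominating term which is not small at a point of the ray: the level function is not zero -/
private theorem partz_ne {Φ : ℝ × ℝ → ℝ × ℝ} {c : ℝ} {q : ℝ × ℝ} {V : ℝ × ℝ} {e ν a b : ℝ}
    (he : 0 < e) (hν : 0 < ν) (h1 : a * ν ≤ |Real.sin c * V.1 + Real.cos c * V.2|)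
    (h2 : nm (Φ q - e • V) ≤ b * ν * e) (hab : b < a) : lev Φ c q ≠ 0 := by
  intro h0
  have h3 := partz_cs c (Φ q - e • V)
  have h4 : lev Φ c q = Real.sin c * (Φ q).1 + Real.cos c * (Φ q).2 := rfl
  rw [h4] at h0
  have h5 : Real.sin c * (Φ q - e • V).1 + Real.cos c * (Φ q - e • V).2 =
      -(e * (Real.sin c * V.1 + Real.cos c * V.2)) := by
    simp only [Prod.fst_sub, Prod.snd_sub, Prod.smul_fst, Prod.smul_snd, smul_eq_mul]
    linear_combination h0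
  rw [h5, abs_neg, abs_mul, abs_of_pos he] at h3
  have h6 : e * (a * ν) ≤ e * |Real.sin c * V.1 + Real.cos c * V.2| :=
    mul_le_mul_of_nonneg_left h1 he.le
  have h7 : 0 < e * ν := mul_pos he hν
  nlinarith

/-- the logarithms of the radii -/
private theorem partz_log {a t : ℝ} (ha : 1 ≤ a) (ht : 0 < t) (ht1 : t ≤ 1 / 20) :
    Real.log (a / t) ≤ a * (1 + Real.log (1 / t)) := by
  have h1 : Real.log (a / t) = Real.log a + Real.log (1 / t) := by
    rw [show a / t = a * (1 / t) by ring, Real.log_mul (by positivity) (by positivity)]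
  have h2 := Real.log_le_sub_one_of_pos (show 0 < a by linarith)
  have h3 : 0 ≤ Real.log (1 / t) := Real.log_nonneg (by rw [le_div_iff₀ ht]; linarith)
  rw [h1]
  nlinarith

/-- **Part Z**. Proof. The data `U₁`, `S₁` of the dominating terms (`exists_domDat`), the special radii `U₂`,
`U₃` with the bad angles `S₂`, `S₃` for the polynomials `zpB` and `zpC`, and the radii `U₄` of the zeros; none of
them depends on `t`. Let `η = t / (4 (N+1))`, `N` the bound of the number of the bad angles; `G` the set of the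
angles `c` with `η ≤ |sin (c-φ)|` for the bad angles `φ`. Let `s₀ ∈ I`, `J = [s₀-1, s₀+1]`. Between `θ₀` and
`θ₀ + t` there is always a ray on which the level function has no zero over `J`. If `zpB = 0` then a level
function with a zero vanishes on a circle, contradiction. Otherwise the level curve through a point over
`s₀` is a graph over `J` which stays in a sector of width `t`, and its slope is monotone; `zslope`. -/
theorem partZ : PartZ := by
  classical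
  refine ⟨2 * 10 ^ 7, 4, fun n hn P Q hP hQ hPQ _ => ?_⟩
  obtain ⟨Z, hZc, hZ⟩ := exists_finset_zeros P Q hPQ hP hQ
  have hwf0 : ∀ p : ℝ × ℝ, cf (vf P Q) p = 0 → cyl p ∈ Z := fun p h =>
    (hZ _).1 (wf_eq_zero (cyl_ne_zero p) h)
  have hray : ∃ p : ℝ × ℝ, cf (vf P Q) p ≠ 0 := by
    by_contra hcon
    push Not at hcon
    have h1 : (Set.range fun s : ℝ => cyl (s, 0)) ⊆ (Z : Set (ℝ × ℝ)) := by
      rintro _ ⟨s, rfl⟩
      exact hwf0 _ (hcon _)
    exact Set.infinite_range_of_injective cyl_ray_injective (Z.finite_toSet.subset h1)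
  obtain ⟨U₁, S₁, W, ν, hDD⟩ := exists_domDat n hP hQ hray
  obtain ⟨d, hd⟩ : ∃ d : ℕ, d = 3 * (n + 1) := ⟨_, rfl⟩
  have hd1 : 1 ≤ d := by omega
  have hF : (wim P Q).totalDegree ≤ d := (totalDegree_wim hP hQ).trans (by omega)
  have hG : (wre P Q).totalDegree ≤ d := (totalDegree_wre hP hQ).trans (by omega)
  obtain ⟨S₂, U₂, hS₂, hU₂, h₂⟩ := partz_rad hd1 hF hG (zpB P Q)
    ((totalDegree_zpB hP hQ).trans (by omega))
  obtain ⟨S₃, U₃, hS₃, hU₃, h₃⟩ := partz_rad hd1 hF hG (zpC P Q)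
    ((totalDegree_zpC hP hQ).trans (by omega))
  set U₄ : Finset ℝ := Z.image fun z => Real.log (nm z) with hU₄
  have hU₄c : U₄.card ≤ n ^ 2 := Finset.card_image_le.trans hZc
  obtain ⟨N, hN⟩ : ∃ N : ℕ, N = (n + 2) + 2 * ((8 * d ^ 2 + 1) * (8 * d + 1)) := ⟨_, rfl⟩
  -- the numbers
  have hn' : (1 : ℝ) ≤ n := by exact_mod_cast hn
  have hdR : (d : ℝ) = 3 * (n + 1) := by rw [hd]; push_cast; ring
  have hNR : (N : ℝ) = (n + 2) + 2 * ((8 * (d : ℝ) ^ 2 + 1) * (8 * d + 1)) := by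
    rw [hN]; push_cast; ring
  have hN0 : (0 : ℝ) ≤ N := Nat.cast_nonneg _
  have hd0 : (0 : ℝ) ≤ d := Nat.cast_nonneg _
  set B : ℝ := 8 * (d : ℝ) ^ 2 + 64 * d * (N + 1) + 2 * (n + 1) + 4 * (N + 1) +
    8 * (n + 1) * (n + 3) + 1 with hB
  have hd6 : (d : ℝ) ≤ 6 * n := by rw [hdR]; linarith
  have hd2 : (d : ℝ) ^ 2 ≤ 36 * (n : ℝ) ^ 2 := by nlinarith
  have hn2 : (n : ℝ) ≤ (n : ℝ) ^ 2 := by nlinarith
  have hn3 : (n : ℝ) ^ 2 ≤ (n : ℝ) ^ 3 := by nlinarith [sq_nonneg (n : ℝ)]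
  have hn4 : (n : ℝ) ^ 3 ≤ (n : ℝ) ^ 4 := by
    have : 0 ≤ (n : ℝ) ^ 3 := by positivity
    nlinarith
  have hN1 : (N : ℝ) + 1 ≤ 28326 * (n : ℝ) ^ 3 := by
    have e1 : 8 * (d : ℝ) ^ 2 + 1 ≤ 289 * (n : ℝ) ^ 2 := by nlinarith
    have e2 : 8 * (d : ℝ) + 1 ≤ 49 * n := by linarith
    have e3 : (8 * (d : ℝ) ^ 2 + 1) * (8 * d + 1) ≤ (289 * (n : ℝ) ^ 2) * (49 * n) :=
      mul_le_mul e1 e2 (by positivity) (by positivity)
    have e4 : (289 * (n : ℝ) ^ 2) * (49 * n) = 14161 * (n : ℝ) ^ 3 := by ring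
    rw [hNR]
    linarith
  have hBle : B ≤ 2 * 10 ^ 7 * (n : ℝ) ^ 4 := by
    have e1 : 64 * (d : ℝ) * (N + 1) ≤ 64 * (6 * n) * (28326 * (n : ℝ) ^ 3) :=
      mul_le_mul (by linarith) hN1 (by positivity) (by positivity)
    have e2 : 64 * (6 * (n : ℝ)) * (28326 * (n : ℝ) ^ 3) = 10877184 * (n : ℝ) ^ 4 := by ring
    have e3 : 8 * ((n : ℝ) + 1) * (n + 3) ≤ 64 * (n : ℝ) ^ 2 := by nlinarith
    rw [hB]
    nlinarith
  have hB1 : 1 ≤ B := by
    rw [hB]
    have : 0 ≤ 8 * (d : ℝ) ^ 2 + 64 * d * (N + 1) + 2 * (n + 1) + 4 * (N + 1) +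
      8 * (n + 1) * (n + 3) := by positivity
    linarith
  set U : Finset ℝ := U₁ ∪ U₂ ∪ U₃ ∪ U₄ with hU
  refine ⟨U, B, ?_, hB1, hBle, fun t ht ht1 => ?_⟩
  · have h4 : U.card ≤ U₁.card + U₂.card + U₃.card + U₄.card := by
      refine (Finset.card_union_le _ _).trans (Nat.add_le_add_right ?_ _)
      refine (Finset.card_union_le _ _).trans (Nat.add_le_add_right ?_ _)
      exact Finset.card_union_le _ _
    have h5 : U.card ≤ (n + 2) ^ 2 + (8 * d ^ 2 + 1) ^ 2 + (8 * d ^ 2 + 1) ^ 2 + n ^ 2 := by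
      have := hDD.cardU
      omega
    have h6 : (U.card : ℝ) ≤ ((n : ℝ) + 2) ^ 2 + (8 * (d : ℝ) ^ 2 + 1) ^ 2 +
        (8 * (d : ℝ) ^ 2 + 1) ^ 2 + (n : ℝ) ^ 2 := by exact_mod_cast h5
    have e1 : 8 * (d : ℝ) ^ 2 + 1 ≤ 289 * (n : ℝ) ^ 2 := by nlinarith
    have e2 : (8 * (d : ℝ) ^ 2 + 1) ^ 2 ≤ (289 * (n : ℝ) ^ 2) ^ 2 :=
      pow_le_pow_left₀ (by positivity) e1 2
    have e3 : (289 * (n : ℝ) ^ 2) ^ 2 = 83521 * (n : ℝ) ^ 4 := by ring
    nlinarith
  -- the good angles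
  set T : ℝ := 1 + Real.log (1 / t) with hT
  have hT1 : 1 ≤ T := by
    have : 0 ≤ Real.log (1 / t) := Real.log_nonneg (by rw [le_div_iff₀ ht]; linarith)
    linarith
  set S : Finset ℝ := S₁ ∪ S₂ ∪ S₃ with hS
  have hScard : (S.card : ℝ) ≤ N := by
    have h4 : S.card ≤ S₁.card + S₂.card + S₃.card :=
      (Finset.card_union_le _ _).trans (Nat.add_le_add_right (Finset.card_union_le _ _) _)
    have h5 : S.card ≤ N := by
      have := hDD.cardS
      omega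
    exact_mod_cast h5
  set η : ℝ := t / (4 * ((N : ℝ) + 1)) with hη
  have hη0 : 0 < η := by positivity
  have hηN : η * (4 * ((N : ℝ) + 1)) = t := by
    rw [hη]
    field_simp
  have hη1 : η * (4 * ((((8 * d ^ 2 + 1) * (8 * d + 1) : ℕ) : ℝ) + 1)) ≤ 1 := by
    have e1 : ((((8 * d ^ 2 + 1) * (8 * d + 1) : ℕ) : ℝ)) ≤ N := by
      have : (8 * d ^ 2 + 1) * (8 * d + 1) ≤ N := by omega
      exact_mod_cast this
    have e2 : η * (4 * ((((8 * d ^ 2 + 1) * (8 * d + 1) : ℕ) : ℝ) + 1)) ≤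
        η * (4 * ((N : ℝ) + 1)) := mul_le_mul_of_nonneg_left (by linarith) hη0.le
    linarith
  refine ⟨{c | ∀ φ ∈ S, η ≤ |Real.sin (c - φ)|}, ?_, ?_⟩
  · intro x
    obtain ⟨c, hc1, hc2, hc3⟩ := exists_good S ht (by linarith) x
    refine ⟨c, fun φ hφ => le_trans ?_ (hc3 φ hφ), hc1, hc2⟩
    exact div_le_div_of_nonneg_left ht.le (by positivity) (by linarith)
  intro I hI hfar
  -- the radii
  set R : ℝ := Real.log (8 * (d : ℝ) ^ 2 + 1) + 8 * d * Real.log (2 / η) with hR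
  set D : ℝ := Real.log (2 * ((n : ℝ) + 1)) + Real.log (1 / η) +
    ((n : ℝ) + 1) * Real.log (8 * ((n : ℝ) + 3) / t) with hD
  have h2η : 2 / η = 8 * ((N : ℝ) + 1) / t := by
    rw [hη]
    field_simp
    ring
  have h1η : 1 / η = 4 * ((N : ℝ) + 1) / t := by
    rw [hη]
    field_simp
  have hl0 : 0 ≤ Real.log (8 * (d : ℝ) ^ 2 + 1) := Real.log_nonneg (by
    have : 0 ≤ 8 * (d : ℝ) ^ 2 := by positivity
    linarith)
  have hl1 : Real.log (8 * (d : ℝ) ^ 2 + 1) ≤ 8 * (d : ℝ) ^ 2 := by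
    have := Real.log_le_sub_one_of_pos (show 0 < 8 * (d : ℝ) ^ 2 + 1 by positivity)
    linarith
  have hl2 : Real.log (2 / η) ≤ 8 * ((N : ℝ) + 1) * T := by
    rw [h2η]
    exact partz_log (by linarith) ht ht1
  have hl2' : 0 ≤ Real.log (2 / η) := by
    rw [h2η]
    refine Real.log_nonneg ?_
    rw [le_div_iff₀ ht]
    nlinarith
  have hl3 : Real.log (1 / η) ≤ 4 * ((N : ℝ) + 1) * T := by
    rw [h1η]
    exact partz_log (by linarith) ht ht1
  have hl4 : Real.log (8 * ((n : ℝ) + 3) / t) ≤ 8 * ((n : ℝ) + 3) * T :=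
    partz_log (by linarith) ht ht1
  have hl5 : Real.log (2 * ((n : ℝ) + 1)) ≤ 2 * ((n : ℝ) + 1) := by
    have := Real.log_le_sub_one_of_pos (show 0 < 2 * ((n : ℝ) + 1) by positivity)
    linarith
  have hR0 : 0 ≤ R := by
    rw [hR]
    positivity
  have hD0 : 0 < D := by
    have e1 : 0 < Real.log (2 * ((n : ℝ) + 1)) := Real.log_pos (by linarith)
    have e2 : 0 ≤ Real.log (1 / η) := by
      rw [h1η]
      refine Real.log_nonneg ?_
      rw [le_div_iff₀ ht]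
      nlinarith
    have e3 : 0 ≤ Real.log (8 * ((n : ℝ) + 3) / t) := by
      refine Real.log_nonneg ?_
      rw [le_div_iff₀ ht]
      nlinarith
    rw [hD]
    positivity
  have hRB : R + 1 ≤ B * T := by
    have e1 : 8 * (d : ℝ) * Real.log (2 / η) ≤ 8 * d * (8 * ((N : ℝ) + 1) * T) :=
      mul_le_mul_of_nonneg_left hl2 (by positivity)
    have e2 : B * T = 8 * (d : ℝ) ^ 2 * T + 8 * d * (8 * ((N : ℝ) + 1) * T) +
        (2 * ((n : ℝ) + 1) + 4 * (N + 1) + 8 * (n + 1) * (n + 3)) * T + T := by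
      rw [hB]
      ring
    have e3 : 8 * (d : ℝ) ^ 2 ≤ 8 * (d : ℝ) ^ 2 * T := le_mul_of_one_le_right (by positivity) hT1
    have e4 : 0 ≤ (2 * ((n : ℝ) + 1) + 4 * (N + 1) + 8 * (n + 1) * (n + 3)) * T := by positivity
    rw [hR]
    linarith
  have hDB : D + 1 ≤ B * T := by
    have e1 : ((n : ℝ) + 1) * Real.log (8 * ((n : ℝ) + 3) / t) ≤
        ((n : ℝ) + 1) * (8 * ((n : ℝ) + 3) * T) := mul_le_mul_of_nonneg_left hl4 (by positivity)
    have e2 : B * T = 2 * ((n : ℝ) + 1) * T + 4 * ((N : ℝ) + 1) * T +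
        ((n : ℝ) + 1) * (8 * ((n : ℝ) + 3) * T) +
        (8 * (d : ℝ) ^ 2 + 64 * d * (N + 1)) * T + T := by
      rw [hB]
      ring
    have e3 : 2 * ((n : ℝ) + 1) ≤ 2 * ((n : ℝ) + 1) * T := le_mul_of_one_le_right (by positivity) hT1
    have e4 : 0 ≤ (8 * (d : ℝ) ^ 2 + 64 * d * (N + 1)) * T := by positivity
    rw [hD]
    linarith
  have hexpD : ((n : ℝ) + 1) * Real.exp (-D) < η * (t / (8 * ((n : ℝ) + 3))) ^ (n + 1) := by
    have e1 : Real.exp (-D) = (2 * ((n : ℝ) + 1))⁻¹ * η * (t / (8 * ((n : ℝ) + 3))) ^ (n + 1) := by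
      rw [hD, neg_add, neg_add, Real.exp_add, Real.exp_add, ← Real.log_inv,
        Real.exp_log (by positivity), ← Real.log_inv, Real.exp_log (by positivity)]
      have e2 : -(((n : ℝ) + 1) * Real.log (8 * ((n : ℝ) + 3) / t)) =
          ((n + 1 : ℕ) : ℝ) * Real.log (t / (8 * ((n : ℝ) + 3))) := by
        rw [show t / (8 * ((n : ℝ) + 3)) = (8 * ((n : ℝ) + 3) / t)⁻¹ by rw [inv_div],
          Real.log_inv]
        push_cast
        ring
      rw [e2, Real.exp_nat_mul, Real.exp_log (by positivity)]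
      congr 1
      field_simp
    have e3 : 0 < η * (t / (8 * ((n : ℝ) + 3))) ^ (n + 1) := by positivity
    have e4 : ((n : ℝ) + 1) * Real.exp (-D) = η * (t / (8 * ((n : ℝ) + 3))) ^ (n + 1) / 2 := by
      rw [e1]
      field_simp
    linarith
  have hnear : ∀ s₀ ∈ I, ∀ s : ℝ, |s - s₀| ≤ 1 → ∀ u ∈ U, R < |s - u| ∧ D < |s - u| := by
    intro s₀ hs₀ s hs u hu
    have e1 := hfar s₀ hs₀ u hu
    have e2 : |s₀ - u| ≤ |s - s₀| + |s - u| := by
      have e : s₀ - u = -(s - s₀) + (s - u) := by ring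
      rw [e]
      refine (abs_add_le _ _).trans ?_
      rw [abs_neg]
    constructor <;> linarith
  have hnez : ∀ s₀ ∈ I, ∀ p : ℝ × ℝ, |p.1 - s₀| ≤ 1 → cf (vf P Q) p ≠ 0 := by
    intro s₀ hs₀ p hp h0
    have h4 := hwf0 p h0
    have h5 : p.1 ∈ U := by
      rw [hU, Finset.mem_union]
      right
      rw [hU₄, Finset.mem_image]
      exact ⟨_, h4, by rw [nm_cyl, Real.log_exp]⟩
    have h6 := (hnear s₀ hs₀ p.1 hp _ h5).1
    rw [sub_self, abs_zero] at h6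
    linarith
  refine ⟨hI, fun p hp => hnez p.1 hp p (by simp), ?_⟩
  intro c hc p hp h0
  set f : ℝ × ℝ → ℝ := lev (cf (vf P Q)) c with hf
  set J : Set ℝ := Icc (p.1 - 1) (p.1 + 1) with hJ
  have hJabs : ∀ s ∈ J, |s - p.1| ≤ 1 := by
    intro s hs
    rw [abs_le]
    constructor <;> linarith [hs.1, hs.2]
  have hpJ : p.1 ∈ J := ⟨by linarith, by linarith⟩
  have hrays : ∀ θ₀ : ℝ, ∃ h : ℝ, 0 ≤ h ∧ h ≤ t ∧ ∀ s ∈ J, f (s, θ₀ + h) ≠ 0 := by
    intro θ₀
    obtain ⟨k, hk0, hk⟩ := hDD.dom D hD0 J ordConnected_Icc ⟨p.1, hpJ⟩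
      (fun s hs u hu => (hnear p.1 hp s (hJabs s hs) u
        (by rw [hU]; simp [hu])).2)
    obtain ⟨h, hh0, hht, hh⟩ := hDD.ray k η c hη0 (fun φ hφ => hc φ (by rw [hS]; simp [hφ])) t ht
      (by linarith) θ₀
    refine ⟨h, hh0, hht, fun s hs => ?_⟩
    exact partz_ne (Real.exp_pos _) hk0 hh (hk (s, θ₀ + h) hs) hexpD
  have hor : ∀ q : ℝ × ℝ, q.1 ∈ J → ev (wre P Q) (cyl q) ≠ 0 ∨ ev (wim P Q) (cyl q) ≠ 0 := by
    intro q hq
    rw [ev_wre, ev_wim]
    by_contra hcon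
    push Not at hcon
    exact hnez p.1 hp q (hJabs _ hq) (Prod.ext hcon.1 hcon.2)
  by_cases hB0 : zpB P Q = 0
  · -- no level curve
    exfalso
    obtain ⟨h, -, -, hh⟩ := hrays 0
    refine hh p.1 hpJ ?_
    exact zpB_flat hB0 (s := p.1) (θ₀ := p.2)
      (fun θ => hnez p.1 hp (p.1, θ) (by simp)) h0 _
  have hzB : ∀ q : ℝ × ℝ, q.1 ∈ J → f q = 0 → ev (zpB P Q) (cyl q) ≠ 0 := by
    intro q hq hfq hcon
    have hl := hfq
    rw [hf, lev_cf] at hl
    obtain ⟨u, hu, hle⟩ := h₂ hB0 η hη0 hη1 c (fun φ hφ => hc φ (by rw [hS]; simp [hφ])) q hl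
      hcon (hor q hq)
    have h5 := (hnear p.1 hp q.1 (hJabs _ hq) u (by rw [hU]; simp [hu])).1
    exact absurd hle (not_le.2 h5)
  have hfd : ContDiff ℝ 2 f := by
    have h4 := contDiff_cf P Q (k := 2)
    have h5 : f = fun p => Real.sin c * (cf (vf P Q) p).1 + Real.cos c * (cf (vf P Q) p).2 := rfl
    rw [h5]
    exact (contDiff_const.mul (contDiff_fst.comp h4)).add
      (contDiff_const.mul (contDiff_snd.comp h4))
  have hper : ∀ q : ℝ × ℝ, f (q + (0, 2 * Real.pi)) = f q := by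
    intro q
    have h5 : ∀ q, f q = Real.sin c * (cf (vf P Q) q).1 + Real.cos c * (cf (vf P Q) q).2 :=
      fun _ => rfl
    rw [h5, h5, cf_period]
  obtain ⟨ℓ, ℓ', hℓ0, hℓ⟩ := zgraph hfd hper (show p.1 - 1 < p.1 + 1 by linarith)
    (fun q hq hfq hcon => hzB q hq hfq (by
      rw [zpB_lev hfq]
      have : d2 (lev (cf (vf P Q)) c) q = 0 := hcon
      rw [this, mul_zero])) hpJ h0
  have hℓc : ContinuousOn ℓ J := fun s hs => (hℓ s hs).2.1.continuousWithinAt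
  have hrange := zrange hℓc (fun s hs => (hℓ s hs).1) hrays
  have hzre : ∀ s ∈ J, zre P Q c (s, ℓ s) ≠ 0 := fun s hs =>
    zre_ne (hℓ s hs).1 (hnez p.1 hp (s, ℓ s) (hJabs s hs))
  have hslope : |ℓ' p.1| ≤ t := by
    refine zslope (A := fun q => ev (zpA P Q) (cyl q)) (B := fun q => ev (zpB P Q) (cyl q))
      (contDiff_ev_cyl _) (contDiff_ev_cyl _) (fun s hs => (hℓ s hs).2.1) ?_ ?_ ?_ hrange
    · intro s hs
      obtain ⟨h1, -, h3⟩ := hℓ s hs
      rw [zpA_lev h1, zpB_lev h1]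
      have h4 : d1 (lev (cf (vf P Q)) c) (s, ℓ s) + d2 (lev (cf (vf P Q)) c) (s, ℓ s) * ℓ' s = 0 :=
        h3
      linear_combination zre P Q c (s, ℓ s) * h4
    · intro s hs
      exact hzB _ hs (hℓ s hs).1
    · by_cases hC0 : zpC P Q = 0
      · left
        intro s hs
        rw [← ev_zpC, hC0]
        simp [ev]
      · right
        intro s hs hcon
        rw [← ev_zpC] at hcon
        have hl := (hℓ s hs).1
        rw [hf, lev_cf] at hl
        obtain ⟨u, hu, hle⟩ := h₃ hC0 η hη0 hη1 c (fun φ hφ => hc φ (by rw [hS]; simp [hφ]))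
          (s, ℓ s) hl hcon (hor (s, ℓ s) hs)
        have h5 := (hnear p.1 hp s (hJabs _ hs) u (by rw [hU]; simp [hu])).1
        exact absurd hle (not_le.2 h5)
  obtain ⟨-, -, h3⟩ := hℓ p.1 hpJ
  rw [hℓ0] at h3
  have hpp : ((p.1, p.2) : ℝ × ℝ) = p := rfl
  rw [hpp] at h3
  have hd2 : d2 f p ≠ 0 := by
    intro hcon
    apply hzB p hpJ h0
    rw [zpB_lev h0]
    have : d2 (lev (cf (vf P Q)) c) p = 0 := hcon
    rw [this, mul_zero]
  have hd2' : 0 < |d2 f p| := abs_pos.2 hd2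
  have h4 : d1 f p = -(d2 f p * ℓ' p.1) := by linarith
  have htan : t < Real.tan (2 * t) := by
    have e1 := Real.lt_tan (show 0 < 2 * t by linarith) (by linarith [Real.pi_gt_three])
    linarith
  rw [h4, abs_neg, abs_mul, mul_comm]
  exact mul_lt_mul_of_pos_right (lt_of_le_of_lt hslope htan) hd2'

end Pool.Agent.Lib.MP_95e7ec_an
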