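import Mathlib
import Pool.Agent.Lib.MP_95e7ec_an.Ry.Defs
import Pool.Agent.Lib.MP_95e7ec_an.Rq.Arc
import Pool.Agent.Lib.MP_95e7ec_an.Rq.Comp
import Pool.Agent.Lib.MP_95e7ec_an.Rq.Chain

/-!
# Ry, SGlue: the zones with fixed centres are good
-/

set_option autoImplicit false

open Set Filter Topology MeasureTheory
open scoped ContDiff ENNReal

namespace Pool.Agent.Lib.MP_95e7ec_an

/-- the set of the points at distance less than `2` from `I` -/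
def fat2 (I : Set ℝ) : Set ℝ := {x | ∃ s ∈ I, |x - s| < 2}

theorem fat2_open (I : Set ℝ) : IsOpen (fat2 I) := by
  have h : fat2 I = ⋃ s ∈ I, Metric.ball s 2 := by
    ext x
    simp only [fat2, mem_ofPred_eq, mem_iUnion, Metric.mem_ball, Real.dist_eq, exists_prop]
  rw [h]
  exact isOpen_biUnion fun s _ => Metric.isOpen_ball

theorem fat2_ord {I : Set ℝ} (h : I.OrdConnected) : (fat2 I).OrdConnected := by
  refine ⟨fun x hx y hy z hz => ?_⟩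
  obtain ⟨s, hs, hxs⟩ := hx
  obtain ⟨s', hs', hys⟩ := hy
  rw [abs_lt] at hxs hys
  by_cases h1 : |z - s| < 2
  · exact ⟨s, hs, h1⟩
  by_cases h2 : |z - s'| < 2
  · exact ⟨s', hs', h2⟩
  have hz1 := hz.1
  have hz2 := hz.2
  have h3 : s + 2 ≤ z := by
    by_contra h4
    exact h1 (abs_lt.mpr ⟨by linarith, by linarith⟩)
  have h4 : z ≤ s' - 2 := by
    by_contra h5
    exact h2 (abs_lt.mpr ⟨by linarith, by linarith⟩)
  exact ⟨z, h.out hs hs' ⟨by linarith, by linarith⟩, by simp⟩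

/-- Proof. `c = 10^4 E² ≥ 1`, `t = 4^{-i} / c`: `log (1/t) = i log 4 + log c`, `log 4 ≤ 1.4`. -/
theorem glue_width {A B E : ℝ} (hB : 1 ≤ B) (hE : 1 ≤ E)
    (hA : B * (3 + Real.log (10 ^ 4 * E ^ 2)) + 2 ≤ A) (i : ℕ) :
    B * (1 + Real.log (1 / ((1 / 4) ^ i / (10 ^ 4 * E ^ 2)))) ≤ A * ((i : ℝ) + 1) - 2 := by
  have hE2 : (1 : ℝ) ≤ E ^ 2 := by nlinarith
  have hc : (1 : ℝ) ≤ 10 ^ 4 * E ^ 2 := by linarith
  have hc0 : (0 : ℝ) < 10 ^ 4 * E ^ 2 := by linarith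
  have hlc : 0 ≤ Real.log (10 ^ 4 * E ^ 2) := Real.log_nonneg hc
  have hl4 : Real.log 4 ≤ 3 := by
    have := Real.log_le_sub_one_of_pos (show (0 : ℝ) < 4 by norm_num)
    linarith
  have heq : Real.log (1 / ((1 / 4) ^ i / (10 ^ 4 * E ^ 2))) =
      Real.log (10 ^ 4 * E ^ 2) + i * Real.log 4 := by
    have h1 : (1 : ℝ) / ((1 / 4) ^ i / (10 ^ 4 * E ^ 2)) = (10 ^ 4 * E ^ 2) * 4 ^ i := by
      rw [one_div_pow]
      field_simp
    rw [h1, Real.log_mul hc0.ne' (by positivity), Real.log_pow]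
  rw [heq]
  have hi : (0 : ℝ) ≤ i := Nat.cast_nonneg i
  have h2 : (B * (3 + Real.log (10 ^ 4 * E ^ 2)) + 2) * ((i : ℝ) + 1) ≤ A * ((i : ℝ) + 1) :=
    mul_le_mul_of_nonneg_right hA (by linarith)
  have h3 : (i : ℝ) * Real.log 4 ≤ i * 3 := mul_le_mul_of_nonneg_left hl4 hi
  have h4 : 0 ≤ B * ((i : ℝ) * Real.log (10 ^ 4 * E ^ 2)) := by positivity
  have h5 : B * ((i : ℝ) * Real.log 4) ≤ B * (i * 3) := mul_le_mul_of_nonneg_left h3 (by linarith)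
  nlinarith

/-- `log (10^4 E²)` for `E = bigE (2n+2) Λ` -/
theorem glue_log {K : ℝ} {k n : ℕ} (hn : 1 ≤ n) {Λ : ℝ} (hΛ : 1 ≤ Λ)
    (h : Real.log Λ ≤ K * n ^ k) :
    1 ≤ bigE (2 * n + 2) Λ ∧
    Real.log (10 ^ 4 * bigE (2 * n + 2) Λ ^ 2) ≤ (4 * K + 200) * n ^ (k + 1) := by
  have hn' : (1 : ℝ) ≤ n := by exact_mod_cast hn
  have hN : ((2 * n + 2 : ℕ) : ℝ) + 1 = 2 * n + 3 := by push_cast; ring
  have hE : bigE (2 * n + 2) Λ = 10 ^ 5 * (2 * (n : ℝ) + 3) ^ 4 * Λ ^ 2 := by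
    rw [bigE, hN]
  have hp4 : (1 : ℝ) ≤ (2 * (n : ℝ) + 3) ^ 4 := one_le_pow₀ (by linarith)
  have hL2 : (1 : ℝ) ≤ Λ ^ 2 := one_le_pow₀ hΛ
  have hΛ0 : (0 : ℝ) < Λ := by linarith
  have h23 : (0 : ℝ) < 2 * (n : ℝ) + 3 := by linarith
  refine ⟨?_, ?_⟩
  · rw [hE]
    have h1 : (1 : ℝ) ≤ 10 ^ 5 * (2 * (n : ℝ) + 3) ^ 4 := by linarith
    nlinarith
  · have heq : Real.log (10 ^ 4 * bigE (2 * n + 2) Λ ^ 2) =
        14 * Real.log 10 + 8 * Real.log (2 * n + 3) + 4 * Real.log Λ := by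
      have h1 : (10 : ℝ) ^ 4 * bigE (2 * n + 2) Λ ^ 2 =
          10 ^ 14 * (2 * (n : ℝ) + 3) ^ 8 * Λ ^ 4 := by
        rw [hE]
        ring
      rw [h1, Real.log_mul (by positivity) (by positivity),
        Real.log_mul (by positivity) (by positivity), Real.log_pow, Real.log_pow, Real.log_pow]
      push_cast
      ring
    rw [heq]
    have h10 : Real.log 10 ≤ 9 := by
      have := Real.log_le_sub_one_of_pos (show (0 : ℝ) < 10 by norm_num)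
      linarith
    have hl : Real.log (2 * (n : ℝ) + 3) ≤ 2 * n + 2 := by
      have := Real.log_le_sub_one_of_pos h23
      linarith
    have hlog0 : 0 ≤ Real.log Λ := Real.log_nonneg hΛ
    have hk : (1 : ℝ) ≤ (n : ℝ) ^ k := one_le_pow₀ hn'
    have hK : 0 ≤ K * (n : ℝ) ^ k := hlog0.trans h
    have hpow : (n : ℝ) ^ (k + 1) = n ^ k * n := pow_succ _ _
    have h2 : K * (n : ℝ) ^ k ≤ K * n ^ (k + 1) := by
      rw [hpow, ← mul_assoc]
      exact le_mul_of_one_le_right hK hn'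
    have h3 : (n : ℝ) ≤ n ^ (k + 1) := by
      rw [hpow]
      exact le_mul_of_one_le_left (by linarith) hk
    calc 14 * Real.log 10 + 8 * Real.log (2 * n + 3) + 4 * Real.log Λ
        ≤ 14 * 9 + 8 * (2 * n + 2) + 4 * (K * (n : ℝ) ^ k) := by linarith
      _ ≤ 200 * n + 4 * (K * (n : ℝ) ^ (k + 1)) := by linarith
      _ ≤ 200 * (n : ℝ) ^ (k + 1) + 4 * (K * (n : ℝ) ^ (k + 1)) := by linarith
      _ = _ := by ring

/-- the zones are also good for more centres and a larger radius -/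
theorem GoodZones.mono {Φ : ℝ × ℝ → ℝ × ℝ} {U U' : Finset ℝ} {A A' : ℝ}
    (h : GoodZones Φ U A) (hU : U ⊆ U') (hA : A ≤ A') : GoodZones Φ U' A' := by
  intro i I hI hI' hs
  refine h i I hI hI' fun s hsI u hu => lt_of_le_of_lt ?_ (hs s hsI u (hU hu))
  exact mul_le_mul_of_nonneg_right hA (by positivity)

/-- Proof. `U₁, B₁` from `PartZ`, `U₂, B₂, Λ` from `PartR`; `E = bigE (2n+2) Λ`, `U = U₁ ∪ U₂`,
`A = max B₁ B₂ (3 + log (10^4 E²)) + 2 ≤ K n^k` (`glue_log`). Let `i`, `I` be as in `GoodZones`, `t = 4^{-i}/(10^4 E²)`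
(`≤ 1/20`, and `10 E √t = 2^{-i}/10`, `10^4 E² t = 4^{-i} ≤ 1`), `I' = fat2 I`: for `s ∈ I'`, `u ∈ U` the distance is
`> A (i+1) - 2 ≥ B_j (1 + log (1/t))` (`glue_width` with `B = max B₁ B₂`). `PartZ`: `G`, `Zone Φ (tan (2t)) G I'`, so
`ne` on `I ⊆ I'`. `Framed`: let `C` be a `PosOrb Φ I b C`; then `I` is not empty (`(σ 0).1 ∈ I`), and it is a
`PosOrb Φ I' b C`; `zone_arc` (Rq/Arc.lean, `m = tan (2t)`) gives the barrier on `I'`; `PartR` (`I'` open, ordconnected,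
nonempty) gives `d, b, c, m, τ, κ`; `PartV` with `I'`, `J = I`, `N = 2n+2` gives the frame with
`e = 10 E √t = 2^{-i}/10`. (`ContDiff ℝ 2 (cf (vf P Q))` and the periodicity: `contDiff_cf`, `cf_period`, used in
Rw/DichoW.lean; `sin (3t)` as in `zone_arc`.) -/
theorem good_zones_one (hZ : PartZ) (hR : PartR) (hV : PartV) :
    ∃ (K : ℝ) (k : ℕ), ∀ n : ℕ, 1 ≤ n → ∀ P Q : MvPolynomial (Fin 2) ℝ,
      P.totalDegree ≤ n → Q.totalDegree ≤ n → IsRelPrime P Q → vf P Q 0 = 0 →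
        ∃ (U : Finset ℝ) (A : ℝ), (U.card : ℝ) ≤ K * n ^ k ∧ 1 ≤ A ∧ A ≤ K * n ^ k ∧
          GoodZones (cf (vf P Q)) U A := by
  classical
  obtain ⟨K1, k1, h1⟩ := hZ
  obtain ⟨K2, k2, h2⟩ := hR
  refine ⟨(|K1| + |K2|) * (4 * |K2| + 203) + 2, k1 + k2 + (k2 + 1), fun n hn P Q hP hQ hrel h0 => ?_⟩
  obtain ⟨U1, B1, hU1, hB1, hB1', hz⟩ := h1 n hn P Q hP hQ hrel h0
  obtain ⟨U2, B2, Λ, hU2, hB2, hB2', hΛ, hlog, hr⟩ := h2 n hn P Q hP hQ hrel h0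
  obtain ⟨hE, hEl⟩ := glue_log hn hΛ hlog
  have hn' : (1 : ℝ) ≤ n := by exact_mod_cast hn
  set E : ℝ := bigE (2 * n + 2) Λ with hEdef
  set B : ℝ := max B1 B2 with hBdef
  have hB : 1 ≤ B := hB1.trans (le_max_left _ _)
  have hE2 : (1 : ℝ) ≤ E ^ 2 := one_le_pow₀ hE
  have hc0 : (1 : ℝ) ≤ 10 ^ 4 * E ^ 2 := by linarith
  have hl0 : 0 ≤ Real.log (10 ^ 4 * E ^ 2) := Real.log_nonneg hc0
  have hp1 : (1 : ℝ) ≤ (n : ℝ) ^ k1 := one_le_pow₀ hn'
  have hp2 : (1 : ℝ) ≤ (n : ℝ) ^ k2 := one_le_pow₀ hn'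
  have hp3 : (1 : ℝ) ≤ (n : ℝ) ^ (k2 + 1) := one_le_pow₀ hn'
  have hp12 : (1 : ℝ) ≤ (n : ℝ) ^ (k1 + k2) := one_le_pow₀ hn'
  have ha1 : 0 ≤ |K1| := abs_nonneg _
  have ha2 : 0 ≤ |K2| := abs_nonneg _
  have hpow : (n : ℝ) ^ (k1 + k2 + (k2 + 1)) = (n : ℝ) ^ (k1 + k2) * (n : ℝ) ^ (k2 + 1) :=
    pow_add _ _ _
  have hpow' : (n : ℝ) ^ (k1 + k2) = (n : ℝ) ^ k1 * (n : ℝ) ^ k2 := pow_add _ _ _
  have hle1 : (n : ℝ) ^ k1 ≤ (n : ℝ) ^ (k1 + k2) := by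
    rw [hpow']
    exact le_mul_of_one_le_right (by linarith) hp2
  have hle2 : (n : ℝ) ^ k2 ≤ (n : ℝ) ^ (k1 + k2) := by
    rw [hpow']
    exact le_mul_of_one_le_left (by linarith) hp1
  have hx1 : K1 * (n : ℝ) ^ k1 ≤ |K1| * (n : ℝ) ^ (k1 + k2) :=
    (mul_le_mul_of_nonneg_right (le_abs_self K1) (by linarith)).trans
      (mul_le_mul_of_nonneg_left hle1 ha1)
  have hx2 : K2 * (n : ℝ) ^ k2 ≤ |K2| * (n : ℝ) ^ (k1 + k2) :=
    (mul_le_mul_of_nonneg_right (le_abs_self K2) (by linarith)).trans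
      (mul_le_mul_of_nonneg_left hle2 ha2)
  have hBle : B ≤ (|K1| + |K2|) * (n : ℝ) ^ (k1 + k2) := by
    have hy1 : 0 ≤ |K1| * (n : ℝ) ^ (k1 + k2) := by positivity
    have hy2 : 0 ≤ |K2| * (n : ℝ) ^ (k1 + k2) := by positivity
    rw [hBdef]
    refine max_le ?_ ?_
    · linarith
    · linarith
  have hbase : (n : ℝ) ^ (k1 + k2) ≤ (n : ℝ) ^ (k1 + k2 + (k2 + 1)) := by
    rw [hpow]
    exact le_mul_of_one_le_right (by linarith) hp3
  have hS0 : 0 ≤ |K1| + |K2| := by linarith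
  refine ⟨U1 ∪ U2, B * (3 + Real.log (10 ^ 4 * E ^ 2)) + 2, ?_, ?_, ?_, ?_⟩
  · have hc : ((U1 ∪ U2).card : ℝ) ≤ U1.card + U2.card := by
      exact_mod_cast Finset.card_union_le U1 U2
    have h3 : (|K1| + |K2|) * (n : ℝ) ^ (k1 + k2) ≤
        ((|K1| + |K2|) * (4 * |K2| + 203) + 2) * (n : ℝ) ^ (k1 + k2 + (k2 + 1)) := by
      refine mul_le_mul ?_ hbase (by positivity) (by positivity)
      nlinarith
    linarith
  · nlinarith
  · have hN0 : (0 : ℝ) ≤ (n : ℝ) ^ (k2 + 1) := by positivity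
    have hin : 3 + Real.log (10 ^ 4 * E ^ 2) ≤ (4 * |K2| + 203) * (n : ℝ) ^ (k2 + 1) := by
      have h3 : (4 * K2 + 200) * (n : ℝ) ^ (k2 + 1) ≤ (4 * |K2| + 200) * (n : ℝ) ^ (k2 + 1) :=
        mul_le_mul_of_nonneg_right (by linarith [le_abs_self K2]) hN0
      nlinarith
    have h3 : B * (3 + Real.log (10 ^ 4 * E ^ 2)) ≤
        ((|K1| + |K2|) * (n : ℝ) ^ (k1 + k2)) * ((4 * |K2| + 203) * (n : ℝ) ^ (k2 + 1)) :=
      mul_le_mul hBle hin (by linarith) (by positivity)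
    have h4 : ((|K1| + |K2|) * (n : ℝ) ^ (k1 + k2)) * ((4 * |K2| + 203) * (n : ℝ) ^ (k2 + 1)) =
        ((|K1| + |K2|) * (4 * |K2| + 203)) * (n : ℝ) ^ (k1 + k2 + (k2 + 1)) := by
      rw [hpow]
      ring
    have h5 : (2 : ℝ) ≤ 2 * (n : ℝ) ^ (k1 + k2 + (k2 + 1)) := by linarith
    nlinarith
  · intro i I hI hIo hs
    set t : ℝ := (1 / 4) ^ i / (10 ^ 4 * E ^ 2) with htdef
    have h4i : (0 : ℝ) < (1 / 4) ^ i := by positivity
    have h4i' : ((1 : ℝ) / 4) ^ i ≤ 1 := pow_le_one₀ (by norm_num) (by norm_num)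
    have ht0 : 0 < t := by positivity
    have ht1 : t ≤ 1 / 20 := by
      rw [htdef, div_le_iff₀ (by linarith)]
      linarith
    have hEt : 10 ^ 4 * E ^ 2 * t = (1 / 4) ^ i := by
      rw [htdef]
      field_simp
    have hsq : 10 * E * Real.sqrt t = (1 / 2) ^ i / 10 := by
      have hE0 : 0 < E := by linarith
      have h3 : t = ((1 / 2) ^ i / (100 * E)) ^ 2 := by
        have h4 : ((1 : ℝ) / 4) ^ i = ((1 / 2) ^ i) ^ 2 := by
          rw [← pow_mul, mul_comm i 2, pow_mul]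
          norm_num
        rw [htdef, h4]
        field_simp
        norm_num
      rw [h3, Real.sqrt_sq (by positivity)]
      field_simp
      norm_num
    have hlt : 0 ≤ Real.log (1 / t) := by
      apply Real.log_nonneg
      rw [le_div_iff₀ ht0]
      linarith
    have hfar : ∀ s ∈ fat2 I, ∀ u ∈ U1 ∪ U2, B * (1 + Real.log (1 / t)) < |s - u| := by
      rintro s' ⟨s, hsI, hss⟩ u hu
      have h3 := hs s hsI u hu
      have h4 := glue_width (A := B * (3 + Real.log (10 ^ 4 * E ^ 2)) + 2) hB hE le_rfl i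
      rw [← htdef] at h4
      have h5 : |s - u| ≤ |s' - s| + |s' - u| := by
        have h6 : s - u = -(s' - s) + (s' - u) := by ring
        rw [h6]
        exact (abs_add_le _ _).trans (by rw [abs_neg])
      have h6 := (h4.trans_lt (sub_lt_sub_right h3 2)).trans_le (sub_le_sub_right h5 2)
      have h7 : |s' - s| + |s' - u| - 2 < |s' - u| := by linarith
      exact h6.trans h7
    have hfar1 : ∀ s ∈ fat2 I, ∀ u ∈ U1, B1 * (1 + Real.log (1 / t)) < |s - u| := fun s hsI u hu =>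
      lt_of_le_of_lt (mul_le_mul_of_nonneg_right (le_max_left B1 B2) (by linarith))
        (hfar s hsI u (Finset.mem_union_left _ hu))
    have hfar2 : ∀ s ∈ fat2 I, ∀ u ∈ U2, B2 * (1 + Real.log (1 / t)) < |s - u| := fun s hsI u hu =>
      lt_of_le_of_lt (mul_le_mul_of_nonneg_right (le_max_right B1 B2) (by linarith))
        (hfar s hsI u (Finset.mem_union_right _ hu))
    obtain ⟨G, hG, hzone⟩ := hz t ht0 ht1
    have hZn := hzone (fat2 I) (fat2_ord hIo) hfar1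
    have hsub : ∀ s ∈ I, s ∈ fat2 I := fun s hsI => ⟨s, hsI, by simp⟩
    refine ⟨fun p hp => hZn.ne p (hsub _ hp), fun b C hC => ?_⟩
    have hC' : PosOrb (cf (vf P Q)) (fat2 I) b C := by
      obtain ⟨σ, T, k, hk, hσ, hσI, hCe⟩ := hC
      exact ⟨σ, T, k, hk, hσ, fun r => hsub _ (hσI r), hCe⟩
    have hne : (fat2 I).Nonempty := by
      obtain ⟨σ, T, k, hk, hσ, hσI, hCe⟩ := hC'
      exact ⟨_, hσI 0⟩
    have harc : ∀ p : ℝ × ℝ, p.1 ∈ fat2 I →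
        -(Real.sin (3 * t) * nm (cf (vf P Q) p)) < (turn b (cf (vf P Q)) p).2 := fun p hp =>
      zone_arc (contDiff_cf P Q) (fun p => cf_period _ p) ht0 ht1 le_rfl hG hZn hC' hp
    obtain ⟨d, bb, c, m, τ, κ, hd, hm, hsys, hcut, hκ0, hκ1, hbd⟩ :=
      hr t ht0 ht1 (fat2 I) (fat2_open I) (fat2_ord hIo) hne hfar2
    have hJ : ∀ s ∈ I, Set.Icc (s - 1) (s + 1) ⊆ fat2 I := by
      intro s hsI x hx
      refine ⟨s, hsI, ?_⟩
      rw [abs_lt]
      constructor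
      · linarith [hx.1]
      · linarith [hx.2]
    obtain ⟨V, hV'⟩ := hV (cf (vf P Q)) (contDiff_cf P Q) (fun p => cf_period _ p) (fat2 I) I
      (fat2_open I) (fat2_ord hIo) hJ d (2 * n + 2) bb c m τ Λ κ t hd (by push_cast; exact hm)
      hsys hcut hΛ hκ0 hκ1 ht0 (by rw [← hEdef, hEt]; exact h4i') hbd b harc
    rw [← hEdef, hsq] at hV'
    exact ⟨V, τ, E, t ^ 2, t ^ 3, t, hV'⟩

/-- Proof. `good_zones_one` for `(P,Q)` and for `(-P,-Q)` (`cf (vf (-P) (-Q)) = -cf (vf P Q)`, the degrees and `IsRelPrime`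
do not change), union of the centres and of `{0}`, maximum of the radii, `GoodZones.mono`. -/
theorem good_zones (hZ : PartZ) (hR : PartR) (hV : PartV) :
    ∃ (K : ℝ) (k : ℕ), 1 ≤ K ∧ ∀ n : ℕ, 1 ≤ n → ∀ P Q : MvPolynomial (Fin 2) ℝ,
      P.totalDegree ≤ n → Q.totalDegree ≤ n → IsRelPrime P Q → vf P Q 0 = 0 →
        ∃ (U : Finset ℝ) (A : ℝ), U.Nonempty ∧ (U.card : ℝ) ≤ K * n ^ k ∧ 1 ≤ A ∧
          A ≤ K * n ^ k ∧ GoodZones (cf (vf P Q)) U A ∧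
          GoodZones (fun p => -cf (vf P Q) p) U A := by
  classical
  obtain ⟨K, k, h⟩ := good_zones_one hZ hR hV
  have ha : 0 ≤ |K| := abs_nonneg K
  refine ⟨2 * |K| + 1, k, by linarith, fun n hn P Q hP hQ hrel h0 => ?_⟩
  have hn' : (1 : ℝ) ≤ n := by exact_mod_cast hn
  have hp : (1 : ℝ) ≤ (n : ℝ) ^ k := one_le_pow₀ hn'
  have hvf : ∀ z, vf (-P) (-Q) z = -vf P Q z := by
    intro z
    simp [vf]
  have hcf : cf (vf (-P) (-Q)) = fun p => -cf (vf P Q) p := by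
    funext p
    unfold cf wf
    rw [hvf]
    ext
    · simp only [Prod.fst_neg, Prod.snd_neg]
      ring
    · simp only [Prod.fst_neg, Prod.snd_neg]
      ring
  have hrel' : IsRelPrime (-P) (-Q) := fun d hd1 hd2 =>
    hrel ((dvd_neg).1 hd1) ((dvd_neg).1 hd2)
  obtain ⟨U1, A1, hU1, hA1, hA1', hg1⟩ := h n hn P Q hP hQ hrel h0
  obtain ⟨U2, A2, hU2, hA2, hA2', hg2⟩ := h n hn (-P) (-Q)
    (by rw [MvPolynomial.totalDegree_neg]; exact hP)
    (by rw [MvPolynomial.totalDegree_neg]; exact hQ) hrel' (by rw [hvf, h0, neg_zero])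
  rw [hcf] at hg2
  have hK : K * (n : ℝ) ^ k ≤ |K| * (n : ℝ) ^ k :=
    mul_le_mul_of_nonneg_right (le_abs_self K) (by linarith)
  have hK0 : 0 ≤ |K| * (n : ℝ) ^ k := by positivity
  have hexp : (2 * |K| + 1) * (n : ℝ) ^ k = 2 * (|K| * (n : ℝ) ^ k) + (n : ℝ) ^ k := by ring
  refine ⟨insert 0 (U1 ∪ U2), max A1 A2, Finset.insert_nonempty _ _, ?_,
    hA1.trans (le_max_left _ _), ?_, ?_, ?_⟩
  · have h1 : ((insert (0 : ℝ) (U1 ∪ U2)).card : ℝ) ≤ U1.card + U2.card + 1 := by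
      have h2 := Finset.card_insert_le (0 : ℝ) (U1 ∪ U2)
      have h3 := Finset.card_union_le U1 U2
      have h4 : (insert (0 : ℝ) (U1 ∪ U2)).card ≤ U1.card + U2.card + 1 := by omega
      exact_mod_cast h4
    rw [hexp]
    linarith
  · rw [hexp]
    refine max_le ?_ ?_
    · linarith
    · linarith
  · exact hg1.mono (fun u hu => Finset.mem_insert_of_mem (Finset.mem_union_left _ hu))
      (le_max_left _ _)
  · exact hg2.mono (fun u hu => Finset.mem_insert_of_mem (Finset.mem_union_right _ hu))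
      (le_max_right _ _)

end Pool.Agent.Lib.MP_95e7ec_an
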