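import Mathlib
import Pool.Agent.Lib.MP_95e7ec_an.Ry.Defs

/-!
# Ry, SCount: counting closed orbits by a countable family of functionals
-/

set_option autoImplicit false

open Set Filter Topology MeasureTheory
open scoped ContDiff ENNReal

namespace Pool.Agent.Lib.MP_95e7ec_an

/-- if every orbit of a set is seen by one of the functionals, the number of orbits is at most the sum -/
theorem encard_le_tsum {ι : Type} (v : ℝ × ℝ → ℝ × ℝ) (a : ℝ) (S : Set (Set (ℝ × ℝ)))
    (f : ι → Set (ℝ × ℝ) → ℝ≥0∞) (Ω : ι → Set (ℝ × ℝ))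
    (h : ∀ C ∈ S, IsClosedOrbit (turn a v) C ∧ ∃ x, C ⊆ Ω x ∧ 1 ≤ f x C) :
    ((S.encard : ℕ∞) : ℝ≥0∞) ≤ ∑' x, setSum (f x) v (Ω x) a := by
  classical
  have h1 : ((S.encard : ℕ∞) : ℝ≥0∞) = ∑' C, S.indicator (fun _ => (1 : ℝ≥0∞)) C := by
    rw [← tsum_subtype, ENNReal.tsum_set_one]
  set T : ι → Set (Set (ℝ × ℝ)) := fun x => {C | IsClosedOrbit (turn a v) C ∧ C ⊆ Ω x} with hT
  have h2 : ∀ x, setSum (f x) v (Ω x) a = ∑' C, (T x).indicator (f x) C := by
    intro x
    unfold setSum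
    exact tsum_subtype (T x) (f x)
  rw [h1, tsum_congr h2, ENNReal.tsum_comm]
  refine ENNReal.tsum_le_tsum fun C => ?_
  by_cases hC : C ∈ S
  · rw [Set.indicator_of_mem hC]
    obtain ⟨h3, x, h4, h5⟩ := h C hC
    refine le_trans ?_ (ENNReal.le_tsum x)
    rw [Set.indicator_of_mem (show C ∈ T x from ⟨h3, h4⟩)]
    exact h5
  · rw [Set.indicator_of_notMem hC]
    exact zero_le

/-- the sum of a geometric family of bounds -/
theorem tsum_geom_le {κ : Type} [Fintype κ] {c : ℝ} (hc : 0 ≤ c) :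
    ∑' x : ℕ × κ, ENNReal.ofReal (c * (1 / 2) ^ x.1) =
      ENNReal.ofReal (2 * c * Fintype.card κ) := by
  rw [ENNReal.tsum_prod']
  have h1 : ∀ i : ℕ, ∑' _y : κ, ENNReal.ofReal (c * (1 / 2) ^ i) =
      ENNReal.ofReal (Fintype.card κ * (c * (1 / 2) ^ i)) := by
    intro i
    rw [tsum_fintype, Finset.sum_const, Finset.card_univ, nsmul_eq_mul, ← ENNReal.ofReal_natCast,
      ← ENNReal.ofReal_mul (by positivity)]
  rw [tsum_congr h1, ← ENNReal.ofReal_tsum_of_nonneg]
  · congr 1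
    have h2 : ∀ i : ℕ, (Fintype.card κ : ℝ) * (c * (1 / 2) ^ i) =
        (Fintype.card κ * c) * (1 / 2) ^ i := fun i => by ring
    rw [tsum_congr h2, tsum_mul_left, tsum_geometric_two]
    ring
  · intro i
    positivity
  · have h2 : ∀ i : ℕ, (Fintype.card κ : ℝ) * (c * (1 / 2) ^ i) =
        (Fintype.card κ * c) * (1 / 2) ^ i := fun i => by ring
    simp_rw [h2]
    exact summable_geometric_two.mul_left _

end Pool.Agent.Lib.MP_95e7ec_an
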