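import Mathlib
import Pool.Agent.Lib.MP_95e7ec_an.Ry.Defs
import Pool.Agent.Lib.MP_95e7ec_an.Rq.Comp
import Pool.Agent.Lib.MP_95e7ec_an.AvgBasic

/-!
# Ry, SGen: the generation of a closed orbit
-/

set_option autoImplicit false

open Set Filter Topology MeasureTheory
open scoped ContDiff ENNReal

namespace Pool.Agent.Lib.MP_95e7ec_an

/-- Proof. The proof of `OrdConnected` in `zone_zoneI3` (Rw/CompW.lean). -/
theorem zoneI_ord (U : Finset ℝ) {D : ℝ} (hD : 0 ≤ D) (k : ℕ) : (zoneI U D k).OrdConnected := by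
  refine ⟨?_⟩
  intro s hs s' hs' x hx
  obtain ⟨hs1, hs2⟩ := hs
  obtain ⟨hs1', hs2'⟩ := hs'
  have hss : s ≤ s' := hx.1.trans hx.2
  have hsub : U.filter (· < s) ⊆ U.filter (· < s') := by
    intro u hu
    rw [Finset.mem_filter] at hu ⊢
    exact ⟨hu.1, lt_of_lt_of_le hu.2 hss⟩
  have heq : U.filter (· < s) = U.filter (· < s') :=
    Finset.eq_of_subset_of_card_le hsub (by rw [hs2, hs2'])
  refine ⟨fun u hu => ?_, ?_⟩
  · by_cases hus : u < s
    · have h1 := hs1 u hu
      rw [abs_of_pos (by linarith)] at h1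
      rw [abs_of_pos (by linarith [hx.1])]
      linarith [hx.1]
    · have h2 : ¬ u < s' := by
        intro h3
        have h4 : u ∈ U.filter (· < s') := Finset.mem_filter.2 ⟨hu, h3⟩
        rw [← heq, Finset.mem_filter] at h4
        exact hus h4.2
      have h1 := hs1' u hu
      have h3 := not_lt.1 h2
      rw [abs_of_nonpos (by linarith)] at h1
      rw [abs_of_nonpos (by linarith [hx.2])]
      linarith [hx.2]
  · have h1 : U.filter (· < s) ⊆ U.filter (· < x) := by
      intro u hu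
      rw [Finset.mem_filter] at hu ⊢
      exact ⟨hu.1, lt_of_lt_of_le hu.2 hx.1⟩
    have h2 : U.filter (· < x) ⊆ U.filter (· < s') := by
      intro u hu
      rw [Finset.mem_filter] at hu ⊢
      exact ⟨hu.1, lt_of_lt_of_le hu.2 hx.2⟩
    have h3 := Finset.card_le_card h1
    have h4 := Finset.card_le_card h2
    rw [hs2] at h3
    rw [hs2'] at h4
    exact le_antisymm h4 h3

/-- Proof. If `s ∈ zoneI U D k` let `δ > 0` be the minimum of `|s - u| - D`, `u ∈ U` (or `1`); for `|s' - s| < δ` the same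
centres are below `s'` and `D < |s' - u|`. -/
theorem zoneI_open (U : Finset ℝ) {D : ℝ} (hD : 0 ≤ D) (k : ℕ) : IsOpen (zoneI U D k) := by
  rw [isOpen_iff_eventually]
  intro s hs
  obtain ⟨hs1, hs2⟩ := hs
  have h1 : ∀ᶠ x in 𝓝 s, ∀ u ∈ U, D < |x - u| ∧ (u < x ↔ u < s) := by
    rw [Filter.eventually_all_finset]
    intro u hu
    have e1 : ∀ᶠ x in 𝓝 s, D < |x - u| := by
      have hc : Continuous fun x : ℝ => |x - u| := by fun_prop
      exact hc.continuousAt.eventually (lt_mem_nhds (hs1 u hu))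
    have hne : s ≠ u := by
      intro hcon
      have := hs1 u hu
      rw [hcon, sub_self, abs_zero] at this
      linarith
    rcases lt_or_gt_of_ne hne with h | h
    · filter_upwards [e1, Iio_mem_nhds h] with x hx hx2
      refine ⟨hx, ⟨fun h3 => ?_, fun h3 => ?_⟩⟩
      · exact absurd h3 (not_lt.2 (le_of_lt hx2))
      · exact absurd h3 (not_lt.2 h.le)
    · filter_upwards [e1, Ioi_mem_nhds h] with x hx hx2
      exact ⟨hx, ⟨fun _ => h, fun _ => hx2⟩⟩
  filter_upwards [h1] with x hx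
  refine ⟨fun u hu => (hx u hu).1, ?_⟩
  rw [← hs2]
  congr 1
  ext u
  rw [Finset.mem_filter, Finset.mem_filter]
  exact ⟨fun h => ⟨h.1, (hx u h.1).2.1 h.2⟩, fun h => ⟨h.1, (hx u h.1).2.2 h.2⟩⟩

/-- The number `i` is the last one such that `C` avoids the windows `|log |z| - u| ≤ A (i+1)`. Proof. `r z = log |z|` is
continuous on the compact connected set `C`; the set of the `i` such that `A (i+1) < |r z - u|` for all
`z ∈ C`, `u ∈ U` contains `0` and is bounded (`U` and `C` are not empty and `|r z - u|` is bounded on `C`); let `i` be its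
maximum (`Nat.findGreatest` or `Nat.find` for the first failure). So there are `z ∈ C`, `u ∈ U` with
`A (i+1) < |r z - u| ≤ A (i+2)`. The image `r '' C` is an interval which avoids the windows of generation `i`, so the
number `j` of the centres below `r w` does not depend on `w ∈ C` (proof of `exists_zoneI`, Rq/Comp.lean; here for a
connected set instead of a curve), and either `r w > u + A (i+1)` for all `w ∈ C` (if `r z > u`), then the minimum point of
`r` on `C` shows the first alternative, as `u + A (i+1) < min ≤ r z ≤ u + A (i+2)`; or `r w < u - A (i+1)` for all `w`, and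
the maximum point shows the second one. -/
theorem orbit_gen {C : Set (ℝ × ℝ)} (hCc : IsCompact C) (hCn : C.Nonempty)
    (hCp : IsPreconnected C) (h0 : (0 : ℝ × ℝ) ∉ C) {U : Finset ℝ} (hU : U.Nonempty) {A : ℝ}
    (hA : 0 < A) (hout : ∀ z ∈ C, ∀ u ∈ U, A < |Real.log (nm z) - u|) :
    ∃ (i : ℕ), ∃ j ≤ U.card, ∃ u ∈ U, C ⊆ ann (zoneI U (A * ((i : ℝ) + 1)) j) ∧
      (IsExt (u + A * ((i : ℝ) + 1)) (u + A * ((i : ℝ) + 2)) C ∨
        IsExt (u - A * ((i : ℝ) + 2)) (u - A * ((i : ℝ) + 1)) C) := by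
  classical
  set r : ℝ × ℝ → ℝ := fun z => Real.log (nm z) with hr
  have hnmc : Continuous nm := by
    unfold nm
    fun_prop
  have hnmpos : ∀ z ∈ C, 0 < nm z := by
    intro z hz
    unfold nm
    apply Real.sqrt_pos.2
    by_contra hcon
    have h1 : z.1 ^ 2 + z.2 ^ 2 ≤ 0 := not_lt.1 hcon
    have e1 : z.1 = 0 := by nlinarith [sq_nonneg z.1, sq_nonneg z.2]
    have e2 : z.2 = 0 := by nlinarith [sq_nonneg z.1, sq_nonneg z.2]
    exact h0 ((Prod.ext e1 e2 : z = 0) ▸ hz)
  have hrc : ContinuousOn r C := by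
    intro z hz
    exact (Real.continuousAt_log (hnmpos z hz).ne').comp_continuousWithinAt
      hnmc.continuousWithinAt
  -- the sets of the first alternatives
  have hexN : ∃ i : ℕ, ¬ ∀ z ∈ C, ∀ u ∈ U, A * ((i : ℝ) + 1) < |r z - u| := by
    obtain ⟨z, hz⟩ := hCn
    obtain ⟨u, hu⟩ := hU
    obtain ⟨i, hi⟩ := exists_nat_ge (|r z - u| / A)
    refine ⟨i, fun hcon => ?_⟩
    have h1 := hcon z hz u hu
    rw [div_le_iff₀ hA] at hi
    nlinarith
  set N := Nat.find hexN with hN
  have hN0 : N ≠ 0 := by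
    intro h
    have h1 := Nat.find_spec hexN
    rw [← hN, h] at h1
    apply h1
    intro z hz u hu
    have := hout z hz u hu
    simpa using this
  obtain ⟨i, hi⟩ := Nat.exists_eq_succ_of_ne_zero hN0
  have hP : ∀ z ∈ C, ∀ u ∈ U, A * ((i : ℝ) + 1) < |r z - u| := by
    by_contra hcon
    have h1 := Nat.find_min' hexN hcon
    omega
  have hQ : ∃ z ∈ C, ∃ u ∈ U, |r z - u| ≤ A * ((i : ℝ) + 2) := by
    have h1 := Nat.find_spec hexN
    rw [← hN, hi] at h1
    push Not at h1
    obtain ⟨z, hz, u, hu, h2⟩ := h1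
    refine ⟨z, hz, u, hu, h2.trans (le_of_eq ?_)⟩
    push_cast
    ring
  obtain ⟨z, hz, u, hu, hzu⟩ := hQ
  have hApos : 0 < A * ((i : ℝ) + 1) := by positivity
  have hord : (r '' C).OrdConnected := (hCp.image r hrc).ordConnected
  have hside : ∀ w ∈ C, ∀ w' ∈ C, ∀ u' ∈ U, u' < r w → u' < r w' := by
    intro w hw w' hw' u' hu' h1
    by_contra h2
    have h3 : u' ∈ r '' C := hord.out ⟨w', hw', rfl⟩ ⟨w, hw, rfl⟩ ⟨not_lt.1 h2, h1.le⟩
    obtain ⟨c, hc, hcu⟩ := h3
    have h4 := hP c hc u' hu'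
    rw [hcu, sub_self, abs_zero] at h4
    linarith
  refine ⟨i, (U.filter (· < r z)).card, Finset.card_filter_le _ _, u, hu, ?_, ?_⟩
  · intro w hw
    refine ⟨fun hcon => h0 (hcon ▸ hw), fun u' hu' => hP w hw u' hu', ?_⟩
    congr 1
    ext u'
    rw [Finset.mem_filter, Finset.mem_filter]
    exact ⟨fun h => ⟨h.1, hside w hw z hz u' h.1 h.2⟩, fun h => ⟨h.1, hside z hz w hw u' h.1 h.2⟩⟩
  · rcases lt_or_ge u (r z) with h | h
    · left
      obtain ⟨z1, hz1, hz1m⟩ := hCc.exists_isMinOn hCn hnmc.continuousOn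
      have hmin : ∀ w ∈ C, nm z1 ≤ nm w := fun w hw => hz1m hw
      refine ⟨z1, hz1, ?_, ?_, Or.inl hmin⟩
      · have h1 := hside z hz z1 hz1 u hu h
        have h2 := hP z1 hz1 u hu
        rw [abs_of_pos (by linarith)] at h2
        show u + A * ((i : ℝ) + 1) ≤ r z1
        linarith
      · have h1 : r z1 ≤ r z := Real.log_le_log (hnmpos z1 hz1) (hmin z hz)
        rw [abs_of_pos (by linarith)] at hzu
        show r z1 ≤ u + A * ((i : ℝ) + 2)
        linarith
    · right
      obtain ⟨z1, hz1, hz1m⟩ := hCc.exists_isMaxOn hCn hnmc.continuousOn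
      have hmax : ∀ w ∈ C, nm w ≤ nm z1 := fun w hw => hz1m hw
      have h3 : r z1 ≤ u := by
        by_contra hcon
        exact absurd (hside z1 hz1 z hz u hu (not_le.1 hcon)) (not_lt.2 h)
      refine ⟨z1, hz1, ?_, ?_, Or.inr hmax⟩
      · have h1 : r z ≤ r z1 := Real.log_le_log (hnmpos z hz) (hmax z hz)
        rw [abs_of_nonpos (by linarith)] at hzu
        show u - A * ((i : ℝ) + 2) ≤ r z1
        linarith
      · have h2 := hP z1 hz1 u hu
        rw [abs_of_nonpos (by linarith)] at h2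
        show r z1 ≤ u - A * ((i : ℝ) + 1)
        linarith

end Pool.Agent.Lib.MP_95e7ec_an
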