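import Mathlib
import Pool.Agent.Lib.MP_95e7ec_an.Rw.ShiftW
import Pool.Agent.Lib.MP_95e7ec_an.Rq.Centre

/-!
# Ry, SNear: the closed orbits which meet a window; translation; measurable majorants
-/

set_option autoImplicit false

open Set Filter Topology MeasureTheory
open scoped ContDiff ENNReal

namespace Pool.Agent.Lib.MP_95e7ec_an

/-- Proof. The last part of the proof of `dichotomy_at3` (Rw/ShiftW.lean) with `q = 0`. -/
theorem near_window {v : ℝ × ℝ → ℝ × ℝ} (hv : ContDiff ℝ 1 v) (h0 : v 0 = 0) {C : Set (ℝ × ℝ)}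
    (hC : IsClosedOrbit v C) (hq : (0 : ℝ × ℝ) ∈ convexHull ℝ C) {A u : ℝ} (hA : 0 ≤ A)
    {z : ℝ × ℝ} (hz : z ∈ C) (hzu : |Real.log (nm z) - u| ≤ A) :
    ∃ i ∈ Finset.range (⌊2 * A⌋₊ + 1),
      IsNear 0 (Real.exp (u - A + i)) (3 * Real.exp (u - A + i)) C := by
  have hqC : (0 : ℝ × ℝ) ∉ C := fun hqC => hC.ne_zero_of_contDiff hv hqC h0
  have hz0 : z ≠ 0 := fun h => hqC (h ▸ hz)
  have hpos : 0 < nm z := nm_pos hz0
  have habs := abs_le.1 hzu
  set x : ℝ := Real.log (nm z) - (u - A) with hx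
  have hx0 : 0 ≤ x := by rw [hx]; linarith [habs.1]
  have hx1 : x ≤ 2 * A := by rw [hx]; linarith [habs.2]
  have hfl := Nat.floor_le hx0
  have hfl' := Nat.lt_floor_add_one x
  have hlog : nm z = Real.exp (u - A + x) := by
    rw [hx, ← Real.exp_log hpos]
    congr 1
    rw [Real.exp_log hpos]
    ring
  have hr1 : Real.exp (u - A + (⌊x⌋₊ : ℕ)) ≤ nm z := by
    rw [hlog]
    exact Real.exp_le_exp.2 (by linarith)
  have hr2 : nm z ≤ 3 * Real.exp (u - A + (⌊x⌋₊ : ℕ)) := by
    rw [hlog]
    have h3 : Real.exp (u - A + x) ≤ Real.exp (1 + (u - A + (⌊x⌋₊ : ℕ))) :=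
      Real.exp_le_exp.2 (by linarith)
    refine h3.trans ?_
    rw [Real.exp_add]
    exact mul_le_mul_of_nonneg_right (by linarith [Real.exp_one_lt_d9]) (Real.exp_pos _).le
  refine ⟨⌊x⌋₊, ?_, ⟨z, hz, ?_⟩, z, hz, ?_⟩
  · rw [Finset.mem_range]
    exact Nat.lt_succ_of_le (Nat.floor_le_floor hx1)
  · rw [sub_zero]
    exact hr2
  · by_contra hcon
    push Not at hcon
    have hcont : ContinuousOn (fun z' : ℝ × ℝ => nm (z - z')) C :=
      (continuous_nm.comp (continuous_const.sub continuous_id)).continuousOn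
    obtain ⟨w, hw, hwmax⟩ := hC.isCompact.exists_isMaxOn ⟨z, hz⟩ hcont
    have h5 : nm (z - 0) ≤ nm (z - w) :=
      nm_le_of_mem_hull (fun p hp => hwmax hp) (Real.sqrt_nonneg _) hq
    rw [sub_zero] at h5
    linarith [hcon w hw]

/-- Proof. `C ↦ C - q` maps the closed orbits of `turn a (vf P Q)` with `q` in the convex hull injectively to the closed
orbits of the translated field with `0` in the convex hull (`IsClosedOrbit.affine` as in the proof of `dichotomy_at3`;
`convexHull` commutes with translations; `Set.encard_le_encard_of_injOn`). -/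
theorem hullN_shift (P Q : MvPolynomial (Fin 2) ℝ) (q : ℝ × ℝ) (a : ℝ) :
    hullN (vf P Q) q a ≤ hullN (vf (shiftP q P) (shiftP q Q)) 0 a := by
  unfold hullN
  refine ENat.toENNReal_le.2 (Set.encard_le_encard_of_injOn
    (f := fun C => (fun y => -q + y) '' C) ?_ ?_)
  · rintro C ⟨hC, hq⟩
    refine ⟨?_, ?_⟩
    · have := hC.affine (v := turn a (vf (shiftP q P) (shiftP q Q))) (-q)
        (ContinuousLinearEquiv.refl ℝ (ℝ × ℝ)) 1 one_pos (by
          intro y
          simp only [ContinuousLinearEquiv.refl_apply, inv_one, one_smul]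
          unfold turn
          rw [vf_shiftP]
          have : -q + y + q = y := by abel
          rw [this])
      simpa using this
    · have h1 : (fun y : ℝ × ℝ => -q + y) '' convexHull ℝ C =
          convexHull ℝ ((fun y : ℝ × ℝ => -q + y) '' C) := by
        have h2 : (fun y : ℝ × ℝ => -q + y) = ⇑(AffineMap.const ℝ (ℝ × ℝ) (-q) +
            AffineMap.id ℝ (ℝ × ℝ)) := by
          funext y
          simp
        rw [h2]
        exact AffineMap.image_convexHull _ C
      rw [← h1]
      exact ⟨q, hq, by simp⟩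
  · intro C _ D _ h
    exact (Set.image_injective.2 (add_right_injective (-q))) h

/-- Proof. `H' = indicator s (hH.mk H)` outside of a measurable null set `N ⊇ {a | H a ≠ mk a} ∩ s`
(`toMeasurable`), and `∞` on `N ∩ s`. -/
theorem meas_majorant {H : ℝ → ℝ≥0∞} {s : Set ℝ} (hs : MeasurableSet s)
    (hH : AEMeasurable H (volume.restrict s)) :
    ∃ H' : ℝ → ℝ≥0∞, Measurable H' ∧ (∀ a ∈ s, H a ≤ H' a) ∧
      ∫⁻ a in s, H' a = ∫⁻ a in s, H a := by
  classical
  have hae := hH.ae_eq_mk
  set N : Set ℝ := toMeasurable (volume.restrict s) {a | H a ≠ hH.mk H a} with hN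
  have hNm : MeasurableSet N := measurableSet_toMeasurable _ _
  have hN0 : (volume.restrict s) N = 0 := by
    rw [hN, measure_toMeasurable]
    exact hae
  refine ⟨fun a => if a ∈ N then ∞ else hH.mk H a,
    Measurable.ite hNm measurable_const hH.measurable_mk, ?_, ?_⟩
  · intro a _
    by_cases ha : a ∈ N
    · simp [ha]
    · have h1 : H a = hH.mk H a := by
        by_contra hcon
        exact ha (subset_toMeasurable _ _ hcon)
      simp only [ha, if_false]
      exact h1.le
  · refine lintegral_congr_ae ?_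
    have h2 : ∀ᵐ a ∂(volume.restrict s), a ∉ N := measure_eq_zero_iff_ae_notMem.1 hN0
    filter_upwards [h2, hae] with a h3 h4
    simp only [h3, if_false]
    exact h4.symm

end Pool.Agent.Lib.MP_95e7ec_an
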