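import Mathlib
import Pool.Agent.Lib.MP_95e7ec_an.Ry.Defs

/-!
# Ry, LDefs: definitions for part L (leaves)
-/

set_option autoImplicit false

open Set Filter Topology MeasureTheory
open scoped ContDiff ENNReal

namespace Pool.Agent.Lib.MP_95e7ec_an

/-- A closed solution `σ` of the field `turn b Φ` on the cylinder, with winding number `k`, and a positive
periodic solution `ν` of the variation equation `ν' = div ν + a' |Φ|²` along it (`ν` is the determinant of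
the field and of the derivative of a family of closed orbits). -/
structure LeafVar (Φ : ℝ × ℝ → ℝ × ℝ) (b a' : ℝ) (σ : ℝ → ℝ × ℝ) (T : ℝ) (k : ℤ)
    (ν : ℝ → ℝ) : Prop where
  T_pos : 0 < T
  der : ∀ t, HasDerivAt σ (turn b Φ (σ t)) t
  per : ∀ t, σ (t + T) = σ t + ((0 : ℝ), 2 * Real.pi * (k : ℝ))
  nu_pos : ∀ t, 0 < ν t
  nu_per : ∀ t, ν (t + T) = ν t
  nu_der : ∀ t, HasDerivAt ν (divc (turn b Φ) (σ t) * ν t + a' * nm (Φ (σ t)) ^ 2) t

open scoped Classical in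
/-- the weight on the cylinder: `5 e (4 |∇ arg Φ| + 1)` where `ρ ∈ [lo - 1, hi + 1]` -/
noncomputable def wC (Φ : ℝ × ℝ → ℝ × ℝ) (e lo hi : ℝ) (p : ℝ × ℝ) : ℝ≥0∞ :=
  if lo - 1 ≤ p.1 ∧ p.1 ≤ hi + 1 then ENNReal.ofReal (5 * e * (4 * agr Φ p + 1)) else 0

open scoped Classical in
/-- the weight in the plane -/
noncomputable def wL {n : ℕ} (μ : Pr n) (e lo hi : ℝ) (z : ℝ × ℝ) : ℝ≥0∞ :=
  if z ≠ 0 ∧ lo - 1 ≤ Real.log (nm z) ∧ Real.log (nm z) ≤ hi + 1 then
    ENNReal.ofReal (e * (40 * argGrad μ z / nm z + 25 / nm z ^ 2)) else 0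

end Pool.Agent.Lib.MP_95e7ec_an
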