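import Mathlib
import Pool.Agent.Lib.MP_95e7ec_an.Ry.LDefs
import Pool.Agent.Lib.MP_95e7ec_an.AvgBasic
import Pool.Agent.Lib.MP_95e7ec_an.DetPos
import Pool.Agent.Lib.MP_95e7ec_an.Orbits

/-!
# Ry, LeafNeg: reversal of the time; the plane weight
-/

set_option autoImplicit false

open Set Filter Topology MeasureTheory
open scoped ContDiff ENNReal

namespace Pool.Agent.Lib.MP_95e7ec_an

private theorem ln_turn_neg (b : ℝ) (Φ : ℝ × ℝ → ℝ × ℝ) (p : ℝ × ℝ) :
    turn b (fun p => -Φ p) p = -turn b Φ p := by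
  unfold turn
  ext
  · simp only [Prod.fst_neg, Prod.snd_neg]
    ring
  · simp only [Prod.fst_neg, Prod.snd_neg]
    ring

private theorem ln_d1_neg (f : ℝ × ℝ → ℝ) (p : ℝ × ℝ) : d1 (fun q => -f q) p = -d1 f p := by
  unfold d1
  rw [fderiv_fun_neg]
  rfl

private theorem ln_d2_neg (f : ℝ × ℝ → ℝ) (p : ℝ × ℝ) : d2 (fun q => -f q) p = -d2 f p := by
  unfold d2
  rw [fderiv_fun_neg]
  rfl

private theorem ln_divc (b : ℝ) (Φ : ℝ × ℝ → ℝ × ℝ) (p : ℝ × ℝ) :
    divc (turn b (fun p => -Φ p)) p = -divc (turn b Φ) p := by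
  have h1 : (fun q => (turn b (fun p => -Φ p) q).1) = fun q => -(turn b Φ q).1 := by
    funext q
    rw [ln_turn_neg]
    rfl
  have h2 : (fun q => (turn b (fun p => -Φ p) q).2) = fun q => -(turn b Φ q).2 := by
    funext q
    rw [ln_turn_neg]
    rfl
  unfold divc
  rw [h1, h2, ln_d1_neg, ln_d2_neg]
  ring

private theorem ln_nm_neg (u : ℝ × ℝ) : nm (-u) = nm u := by
  unfold nm
  simp

/-- Proof. `σ (-t)` solves the equation of `-turn b Φ = turn b (-Φ)`, `divc (-F) = -divc F`. -/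
theorem leafVar_neg {Φ : ℝ × ℝ → ℝ × ℝ} {b a' : ℝ} {σ : ℝ → ℝ × ℝ} {T : ℝ} {k : ℤ} {ν : ℝ → ℝ}
    (h : LeafVar Φ b a' σ T k ν) :
    LeafVar (fun p => -Φ p) b (-a') (fun t => σ (-t)) T (-k) (fun t => ν (-t)) := by
  refine ⟨h.T_pos, fun t => ?_, fun t => ?_, fun t => h.nu_pos _, fun t => ?_, fun t => ?_⟩
  · have h1 := (h.der (-t)).scomp t (hasDerivAt_neg t)
    rw [neg_one_smul, ← ln_turn_neg] at h1
    exact h1
  · have h1 := h.per (-(t + T))
    have h2 : -(t + T) + T = -t := by ring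
    rw [h2] at h1
    show σ (-(t + T)) = σ (-t) + _
    rw [h1]
    ext
    · simp
    · simp
  · have h1 := h.nu_per (-(t + T))
    have h2 : -(t + T) + T = -t := by ring
    rw [h2] at h1
    exact h1.symm
  · have h1 := (h.nu_der (-t)).scomp t (hasDerivAt_neg t)
    refine h1.congr_deriv ?_
    rw [ln_divc, ln_nm_neg, smul_eq_mul]
    ring

private theorem ln_d1 {f : ℝ × ℝ → ℝ} {p : ℝ × ℝ} (hf : DifferentiableAt ℝ f p) {a : ℝ}
    (h : HasDerivAt (fun t => f (t, p.2)) a p.1) : d1 f p = a := by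
  have h1 : HasDerivAt (fun t : ℝ => (t, p.2)) ((1 : ℝ), (0 : ℝ)) p.1 :=
    (hasDerivAt_id _).prodMk (hasDerivAt_const _ _)
  have h3 : HasFDerivAt f (fderiv ℝ f p) (p.1, p.2) := hf.hasFDerivAt
  exact (h3.comp_hasDerivAt p.1 h1).unique h

private theorem ln_d2 {f : ℝ × ℝ → ℝ} {p : ℝ × ℝ} (hf : DifferentiableAt ℝ f p) {a : ℝ}
    (h : HasDerivAt (fun t => f (p.1, t)) a p.2) : d2 f p = a := by
  have h1 : HasDerivAt (fun t : ℝ => (p.1, t)) ((0 : ℝ), (1 : ℝ)) p.2 :=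
    (hasDerivAt_const _ _).prodMk (hasDerivAt_id _)
  have h3 : HasFDerivAt f (fderiv ℝ f p) (p.1, p.2) := hf.hasFDerivAt
  exact (h3.comp_hasDerivAt p.2 h1).unique h

private theorem ln_diff_cyl : ContDiff ℝ 1 cyl := by
  unfold cyl
  fun_prop

private theorem ln_diff {n : ℕ} (μ : Pr n) : ContDiff ℝ 1 (cf (vfc μ)) := by
  have h1 : ContDiff ℝ 1 (vfc μ) := vfc_contDiff μ
  have h3 : ContDiff ℝ 1 (fun z => (vfc μ z).1) := h1.fst
  have h4 : ContDiff ℝ 1 (fun z => (vfc μ z).2) := h1.snd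
  have h2 : ContDiff ℝ 1 (wf (vfc μ)) :=
    ((contDiff_fst.mul h3).add (contDiff_snd.mul h4)).prodMk
      ((contDiff_fst.mul h4).sub (contDiff_snd.mul h3))
  exact h2.comp ln_diff_cyl

private theorem ln_bound {x y A B r G1 G2 : ℝ} (_ : 0 ≤ r) (hx : |x| ≤ r) (hy : |y| ≤ r)
    (h1 : |A| = G1) (h2 : |B| = G2) : |r ^ 2 * (x * A + y * B)| ≤ r ^ 2 * (r * (G1 + G2)) := by
  rw [abs_mul, abs_of_nonneg (sq_nonneg r)]
  refine mul_le_mul_of_nonneg_left ?_ (sq_nonneg r)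
  refine (abs_add_le _ _).trans ?_
  rw [abs_mul, abs_mul, h1, h2, mul_add]
  have h3 : 0 ≤ G1 := h1 ▸ abs_nonneg A
  have h4 : 0 ≤ G2 := h2 ▸ abs_nonneg B
  exact add_le_add (mul_le_mul_of_nonneg_right hx h3) (mul_le_mul_of_nonneg_right hy h4)

/-- Proof. With `Φ = cf v`, `arg Φ = arg v - θ`; the numerators of `agr` are determinants: for `W = z̄ v`
(complex), `Im (W̄ ∂_ρ W) = |z|² Im (v̄ Dv(z))`, `Im (W̄ ∂_θ W) = |z|² Im (v̄ Dv(iz)) - |W|²`; and
`|Im (v̄ Dv(h))| ≤ |h| · (|p q_x - q p_x| + |p q_y - q p_y|)`. -/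
theorem agr_cf_le {n : ℕ} (μ : Pr n) (p : ℝ × ℝ) (h : cf (vfc μ) p ≠ 0) :
    agr (cf (vfc μ)) p ≤ 2 * Real.exp p.1 * argGrad μ (cyl p) + 1 := by
  have hdf : DifferentiableAt ℝ (cf (vfc μ)) p :=
    ((ln_diff μ).differentiable one_ne_zero) p
  have hdf1 : DifferentiableAt ℝ (fun q => (cf (vfc μ) q).1) p := hdf.fst
  have hdf2 : DifferentiableAt ℝ (fun q => (cf (vfc μ) q).2) p := hdf.snd
  set c := Real.cos p.2 with hc
  set s := Real.sin p.2 with hs
  set r := Real.exp p.1 with hr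
  have hcs : s ^ 2 + c ^ 2 = 1 := Real.sin_sq_add_cos_sq p.2
  have hrp : 0 < r := Real.exp_pos _
  set x := r * c with hx
  set y := r * s with hy
  have hcyl : cyl p = (x, y) := rfl
  set P := pe μ.1 x y with hP
  set Q := pe μ.2 x y with hQ
  set Px := pex μ.1 x y with hPx
  set Py := pey μ.1 x y with hPy
  set Qx := pex μ.2 x y with hQx
  set Qy := pey μ.2 x y with hQy
  have hW1 : (cf (vfc μ) p).1 = x * P + y * Q := rfl
  have hW2 : (cf (vfc μ) p).2 = x * Q - y * P := rfl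
  -- derivatives along the first coordinate
  have hX : HasDerivAt (fun t => Real.exp t * c) x p.1 := (Real.hasDerivAt_exp p.1).mul_const c
  have hY : HasDerivAt (fun t => Real.exp t * s) y p.1 := (Real.hasDerivAt_exp p.1).mul_const s
  have hPr := pe_hasDerivAt μ.1 hX hY
  have hQr := pe_hasDerivAt μ.2 hX hY
  have e1 : d1 (fun q => (cf (vfc μ) q).1) p =
      (x * P + x * (Px * x + Py * y)) + (y * Q + y * (Qx * x + Qy * y)) :=
    ln_d1 hdf1 ((hX.mul hPr).add (hY.mul hQr))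
  have e2 : d1 (fun q => (cf (vfc μ) q).2) p =
      (x * Q + x * (Qx * x + Qy * y)) - (y * P + y * (Px * x + Py * y)) :=
    ln_d1 hdf2 ((hX.mul hQr).sub (hY.mul hPr))
  -- derivatives along the second coordinate
  have hX' : HasDerivAt (fun t => r * Real.cos t) (r * -s) p.2 :=
    (Real.hasDerivAt_cos p.2).const_mul r
  have hY' : HasDerivAt (fun t => r * Real.sin t) (r * c) p.2 :=
    (Real.hasDerivAt_sin p.2).const_mul r
  have hPr' := pe_hasDerivAt μ.1 hX' hY'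
  have hQr' := pe_hasDerivAt μ.2 hX' hY'
  have e3 : d2 (fun q => (cf (vfc μ) q).1) p =
      (r * -s * P + x * (Px * (r * -s) + Py * (r * c))) +
        (r * c * Q + y * (Qx * (r * -s) + Qy * (r * c))) :=
    ln_d2 hdf1 ((hX'.mul hPr').add (hY'.mul hQr'))
  have e4 : d2 (fun q => (cf (vfc μ) q).2) p =
      (r * -s * Q + x * (Qx * (r * -s) + Qy * (r * c))) -
        (r * c * P + y * (Px * (r * -s) + Py * (r * c))) :=
    ln_d2 hdf2 ((hX'.mul hQr').sub (hY'.mul hPr'))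
  have hN : nm (cf (vfc μ) p) ^ 2 = r ^ 2 * (P ^ 2 + Q ^ 2) := by
    rw [nm_sq, hW1, hW2]
    linear_combination (r ^ 2 * (P ^ 2 + Q ^ 2)) * hcs
  have hNpos : 0 < nm (cf (vfc μ) p) ^ 2 := by
    have := nm_pos h
    positivity
  have hPQ : 0 < P ^ 2 + Q ^ 2 := by
    rw [hN] at hNpos
    exact pos_of_mul_pos_right hNpos (sq_nonneg r)
  have hxr : |x| ≤ r := by
    rw [hx, abs_mul, abs_of_pos hrp]
    exact mul_le_of_le_one_right hrp.le (Real.abs_cos_le_one _)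
  have hyr : |y| ≤ r := by
    rw [hy, abs_mul, abs_of_pos hrp]
    exact mul_le_of_le_one_right hrp.le (Real.abs_sin_le_one _)
  have hyr' : |-y| ≤ r := by rwa [abs_neg]
  have b1 : |(cf (vfc μ) p).1 * d1 (fun q => (cf (vfc μ) q).2) p -
      (cf (vfc μ) p).2 * d1 (fun q => (cf (vfc μ) q).1) p| ≤
      r ^ 2 * (r * (|P * Qx - Q * Px| + |P * Qy - Q * Py|)) := by
    rw [e1, e2, hW1, hW2]
    have : (x * P + y * Q) * (x * Q + x * (Qx * x + Qy * y) - (y * P + y * (Px * x + Py * y))) -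
        (x * Q - y * P) * (x * P + x * (Px * x + Py * y) + (y * Q + y * (Qx * x + Qy * y))) =
        r ^ 2 * (x * (P * Qx - Q * Px) + y * (P * Qy - Q * Py)) := by
      have h5 : x ^ 2 + y ^ 2 = r ^ 2 := by
        rw [hx, hy]
        linear_combination r ^ 2 * hcs
      rw [← h5]
      ring
    rw [this]
    exact ln_bound hrp.le hxr hyr rfl rfl
  have b2 : |(cf (vfc μ) p).1 * d2 (fun q => (cf (vfc μ) q).2) p -
      (cf (vfc μ) p).2 * d2 (fun q => (cf (vfc μ) q).1) p| ≤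
      r ^ 2 * (r * (|P * Qx - Q * Px| + |P * Qy - Q * Py|)) + nm (cf (vfc μ) p) ^ 2 := by
    rw [e3, e4, hW1, hW2, hN]
    have : (x * P + y * Q) * (r * -s * Q + x * (Qx * (r * -s) + Qy * (r * c)) -
        (r * c * P + y * (Px * (r * -s) + Py * (r * c)))) -
        (x * Q - y * P) * (r * -s * P + x * (Px * (r * -s) + Py * (r * c)) +
        (r * c * Q + y * (Qx * (r * -s) + Qy * (r * c)))) =
        r ^ 2 * (-y * (P * Qx - Q * Px) + x * (P * Qy - Q * Py)) - r ^ 2 * (P ^ 2 + Q ^ 2) := by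
      have h5 : x ^ 2 + y ^ 2 = r ^ 2 := by
        rw [hx, hy]
        linear_combination r ^ 2 * hcs
      have h6 : r * -s = -y := by rw [hy]; ring
      have h7 : r * c = x := rfl
      rw [h6, h7, ← h5]
      ring
    rw [this]
    refine (abs_sub _ _).trans ?_
    refine add_le_add (ln_bound hrp.le hyr' hxr rfl rfl) ?_
    rw [abs_of_nonneg (by positivity)]
  have hG : argGrad μ (cyl p) = (|P * Qx - Q * Px| + |P * Qy - Q * Py|) / (P ^ 2 + Q ^ 2) := rfl
  unfold agr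
  rw [div_le_iff₀ hNpos]
  refine (add_le_add b1 b2).trans ?_
  rw [hG, hN]
  have : (2 * r * ((|P * Qx - Q * Px| + |P * Qy - Q * Py|) / (P ^ 2 + Q ^ 2)) + 1) *
      (r ^ 2 * (P ^ 2 + Q ^ 2)) =
      2 * r ^ 3 * (|P * Qx - Q * Px| + |P * Qy - Q * Py|) + r ^ 2 * (P ^ 2 + Q ^ 2) := by
    field_simp
  rw [this]
  apply le_of_eq
  ring

private theorem ln_nm_cyl (p : ℝ × ℝ) : nm (cyl p) = Real.exp p.1 := by
  unfold nm cyl
  have : (Real.exp p.1 * Real.cos p.2) ^ 2 + (Real.exp p.1 * Real.sin p.2) ^ 2 =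
      Real.exp p.1 ^ 2 := by
    linear_combination Real.exp p.1 ^ 2 * Real.sin_sq_add_cos_sq p.2
  simp only
  rw [this, Real.sqrt_sq (Real.exp_pos _).le]

private theorem ln_cyl_ne (p : ℝ × ℝ) : cyl p ≠ 0 := by
  intro h
  have h1 := ln_nm_cyl p
  rw [h] at h1
  have h2 : nm 0 = 0 := by simp [nm]
  rw [h2] at h1
  exact (Real.exp_pos _).ne h1

private theorem ln_agr_neg (Φ : ℝ × ℝ → ℝ × ℝ) (p : ℝ × ℝ) : agr (fun p => -Φ p) p = agr Φ p := by
  unfold agr
  simp only [ln_d1_neg, ln_d2_neg, ln_nm_neg, Prod.fst_neg, Prod.snd_neg, neg_mul_neg]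

/-- Proof. `agr_cf_le`, `nm (cyl p) = e^ρ`, `cyl p ≠ 0`; `agr (-Φ) = agr Φ` for the second claim:
`5 e (4 (2 e^ρ G + 1) + 1) = e (40 e^ρ G + 25)`. -/
theorem wC_le {n : ℕ} (μ : Pr n) {e : ℝ} (he : 0 < e) (lo hi : ℝ) (p : ℝ × ℝ)
    (h : cf (vfc μ) p ≠ 0) :
    wC (cf (vfc μ)) e lo hi p ≤
      ENNReal.ofReal (Real.exp (2 * p.1)) * wL μ e lo hi (cyl p) ∧
    wC (fun p => -cf (vfc μ) p) e lo hi p = wC (cf (vfc μ)) e lo hi p := by
  constructor
  · unfold wC wL
    split_ifs with h1 h2 h2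
    · rw [← ENNReal.ofReal_mul (Real.exp_pos _).le]
      apply ENNReal.ofReal_le_ofReal
      rw [ln_nm_cyl]
      have h3 := agr_cf_le μ p h
      have h4 : Real.exp (2 * p.1) = Real.exp p.1 ^ 2 := by
        rw [← Real.exp_nat_mul]
        norm_num
      have h5 := Real.exp_pos p.1
      have h6 : Real.exp (2 * p.1) * (e * (40 * argGrad μ (cyl p) / Real.exp p.1 +
          25 / Real.exp p.1 ^ 2)) =
          e * (40 * Real.exp p.1 * argGrad μ (cyl p) + 25) := by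
        rw [h4]
        field_simp
      rw [h6]
      nlinarith [mul_le_mul_of_nonneg_left h3 he.le]
    · exfalso
      apply h2
      rw [ln_nm_cyl, Real.log_exp]
      exact ⟨ln_cyl_ne p, h1⟩
    · exact bot_le
    · exact bot_le
  · unfold wC
    rw [ln_agr_neg]

theorem wL_measurable {n : ℕ} (μ : Pr n) (e lo hi : ℝ) : Measurable (wL μ e lo hi) := by
  have hnm : Measurable nm := by
    unfold nm
    fun_prop
  have hG := measurable_argGrad μ
  have hlog : Measurable fun z : ℝ × ℝ => Real.log (nm z) := Real.measurable_log.comp hnm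
  unfold wL
  refine Measurable.ite ?_ ?_ measurable_const
  · have h1 : MeasurableSet {z : ℝ × ℝ | z ≠ 0} := (measurableSet_singleton 0).compl
    have h2 : MeasurableSet {z : ℝ × ℝ | lo - 1 ≤ Real.log (nm z)} :=
      measurableSet_le measurable_const hlog
    have h3 : MeasurableSet {z : ℝ × ℝ | Real.log (nm z) ≤ hi + 1} :=
      measurableSet_le hlog measurable_const
    exact h1.inter (h2.inter h3)
  · apply ENNReal.measurable_ofReal.comp
    exact (((hG.const_mul 40).div hnm).add ((hnm.pow_const 2).const_div 25)).const_mul e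

end Pool.Agent.Lib.MP_95e7ec_an
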