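import Mathlib
import Pool.Agent.Lib.MP_95e7ec_an.Ry.LDefs
import Pool.Agent.Lib.MP_95e7ec_an.SquareTV
import Pool.Agent.Lib.MP_95e7ec_an.Ry.LeafNeg

/-!
# Ry, AnnInt: the integral of the weight
-/

set_option autoImplicit false

open Set Filter Topology MeasureTheory
open scoped ContDiff ENNReal

namespace Pool.Agent.Lib.MP_95e7ec_an

/-- the annulus `r ≤ |z| < R` -/
private def annIntA (r R : ℝ) : Set (ℝ × ℝ) := {z | r ≤ nm z ∧ nm z < R}

private theorem annIntA_meas (r R : ℝ) : MeasurableSet (annIntA r R) :=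
  (isClosed_le continuous_const continuous_nm).measurableSet.inter
    (isOpen_lt continuous_nm continuous_const).measurableSet

private theorem annIntA_sub (r R : ℝ) : annIntA r R ⊆
    Set.Ioo ((0 : ℝ × ℝ).1 - R) ((0 : ℝ × ℝ).1 + R) ×ˢ
      Set.Ioo ((0 : ℝ × ℝ).2 - R) ((0 : ℝ × ℝ).2 + R) := by
  intro z hz
  have h0 : nm z < R := hz.2
  have hsq := nm_sq z
  have hR : 0 < R := lt_of_le_of_lt (Real.sqrt_nonneg _) h0
  have hn : 0 ≤ nm z := Real.sqrt_nonneg _
  have h1 : |z.1| < R := by
    apply abs_lt_of_sq_lt_sq _ hR.le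
    nlinarith [sq_nonneg z.2]
  have h2 : |z.2| < R := by
    apply abs_lt_of_sq_lt_sq _ hR.le
    nlinarith [sq_nonneg z.1]
  rw [abs_lt] at h1 h2
  refine ⟨⟨?_, ?_⟩, ⟨?_, ?_⟩⟩ <;> simp <;> linarith

private theorem annInt_vol {r R : ℝ} (hR : 0 ≤ R) :
    volume (annIntA r R) ≤ ENNReal.ofReal (4 * R ^ 2) := by
  refine (measure_mono (annIntA_sub r R)).trans ?_
  rw [Measure.volume_eq_prod, Measure.prod_prod, Real.volume_Ioo, Real.volume_Ioo,
    ← ENNReal.ofReal_mul (by simp; linarith)]
  apply ENNReal.ofReal_le_ofReal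
  apply le_of_eq
  simp
  ring

/-- one annulus -/
private theorem annInt_one {n : ℕ} (hn : 1 ≤ n) (μ : Pr n) {e lo hi r : ℝ} (he : 0 < e)
    (hr : 0 < r) : ∫⁻ z in annIntA r (r * Real.exp 1), wL μ e lo hi z ≤
      ENNReal.ofReal (2200 * n * e) := by
  have hn1 : (1 : ℝ) ≤ n := by exact_mod_cast hn
  have hR : 0 ≤ r * Real.exp 1 := by positivity
  calc ∫⁻ z in annIntA r (r * Real.exp 1), wL μ e lo hi z
      ≤ ∫⁻ z in annIntA r (r * Real.exp 1),
          (ENNReal.ofReal (e * 40 / r) * ENNReal.ofReal (argGrad μ z) +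
            ENNReal.ofReal (e * 25 / r ^ 2)) := by
        apply setLIntegral_mono' (annIntA_meas _ _)
        intro z hz
        have hz1 : r ≤ nm z := hz.1
        have hg := argGrad_nonneg μ z
        unfold wL
        split_ifs with hc
        · rw [← ENNReal.ofReal_mul (by positivity), ← ENNReal.ofReal_add (by positivity)
            (by positivity)]
          apply ENNReal.ofReal_le_ofReal
          have hz0 : 0 < nm z := lt_of_lt_of_le hr hz1
          have h1 : 40 * argGrad μ z / nm z ≤ 40 * argGrad μ z / r :=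
            div_le_div_of_nonneg_left (by positivity) hr hz1
          have h2 : 25 / nm z ^ 2 ≤ 25 / r ^ 2 :=
            div_le_div_of_nonneg_left (by norm_num) (by positivity)
              (pow_le_pow_left₀ hr.le hz1 2)
          have h3 : e * (40 * argGrad μ z / nm z + 25 / nm z ^ 2) ≤
              e * (40 * argGrad μ z / r + 25 / r ^ 2) :=
            mul_le_mul_of_nonneg_left (add_le_add h1 h2) he.le
          refine h3.trans (le_of_eq ?_)
          ring
        · exact zero_le
    _ = ENNReal.ofReal (e * 40 / r) *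
          (∫⁻ z in annIntA r (r * Real.exp 1), ENNReal.ofReal (argGrad μ z)) +
            ENNReal.ofReal (e * 25 / r ^ 2) * volume (annIntA r (r * Real.exp 1)) := by
        rw [lintegral_add_right _ measurable_const, lintegral_const_mul' _ _ ENNReal.ofReal_ne_top,
          setLIntegral_const]
    _ ≤ ENNReal.ofReal (e * 40 / r) * ENNReal.ofReal (4 * Real.pi * n * (r * Real.exp 1)) +
            ENNReal.ofReal (e * 25 / r ^ 2) * ENNReal.ofReal (4 * (r * Real.exp 1) ^ 2) := by
        apply add_le_add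
        · exact mul_le_mul_right (lintegral_square μ hR (annIntA_sub _ _)) _
        · exact mul_le_mul_right (annInt_vol hR) _
    _ ≤ ENNReal.ofReal (2200 * n * e) := by
        rw [← ENNReal.ofReal_mul (by positivity), ← ENNReal.ofReal_mul (by positivity),
          ← ENNReal.ofReal_add (by positivity) (by positivity)]
        apply ENNReal.ofReal_le_ofReal
        have e1 : e * 40 / r * (4 * Real.pi * n * (r * Real.exp 1)) =
            160 * (Real.pi * Real.exp 1) * (n * e) := by
          field_simp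
          ring
        have e2 : e * 25 / r ^ 2 * (4 * (r * Real.exp 1) ^ 2) =
            100 * (Real.exp 1) ^ 2 * e := by
          field_simp
          ring
        rw [e1, e2]
        have h1 := Real.exp_one_lt_d9
        have h2 := Real.pi_lt_d2
        have h3 := Real.exp_one_gt_d9
        have h4 := Real.pi_gt_d2
        have h5 : Real.pi * Real.exp 1 ≤ 3.15 * 2.7182818286 :=
          mul_le_mul h2.le h1.le (by positivity) (by norm_num)
        have h6 : Real.exp 1 ^ 2 ≤ 2.7182818286 ^ 2 := pow_le_pow_left₀ (by positivity) h1.le 2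
        have h7 : 0 < (n : ℝ) * e := by positivity
        have h8 : e ≤ n * e := by nlinarith
        have h9 : 160 * (Real.pi * Real.exp 1) * (n * e) ≤
            160 * (3.15 * 2.7182818286) * (n * e) := by
          apply mul_le_mul_of_nonneg_right _ h7.le
          linarith
        have h10 : 100 * Real.exp 1 ^ 2 * e ≤ 100 * 2.7182818286 ^ 2 * (n * e) := by
          apply mul_le_mul _ h8 he.le (by positivity)
          linarith
        nlinarith

/-- Proof. Let `M = ⌈hi - lo + 2⌉₊`; the set `{z ≠ 0 | lo - 1 ≤ log |z| ≤ hi + 1}` is covered by the `M + 1` (or `M`)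
sets `A_j = {z | e^{lo-1+j} ≤ |z| < e^{lo+j}}`, `j < M + 1`. On `A_j` the weight is at most
`e (40 argGrad / e^{lo-1+j} + 25 / e^{2(lo-1+j)})`; `A_j` is contained in the square of half side `e^{lo+j}` about `0`,
so by `lintegral_square` the first part has integral at most `e · 40 · 4π n e^{lo+j} / e^{lo-1+j} = 160 π e₁ n e`
(`e₁ = exp 1 ≤ 2.72`), the second one at most `e · 25 · 4 e^{2(lo+j)} / e^{2(lo-1+j)} ≤ 740 e`. Sum:
at most `(M+1) · 2200 n e`, `M + 1 ≤ hi - lo + 4 ≤ 2 (hi - lo + 2)`. -/
theorem ann_int {n : ℕ} (hn : 1 ≤ n) (μ : Pr n) {e lo hi : ℝ} (he : 0 < e) (h : lo ≤ hi) :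
    ∫⁻ z, wL μ e lo hi z ≤ ENNReal.ofReal (10000 * n * e * (hi - lo + 2)) := by
  set M : ℕ := ⌈hi - lo + 2⌉₊ with hM
  have hn1 : (1 : ℝ) ≤ n := by exact_mod_cast hn
  have hM1 : hi - lo + 2 ≤ M := Nat.le_ceil _
  have hM2 : (M : ℝ) < hi - lo + 2 + 1 := Nat.ceil_lt_add_one (by linarith)
  set A : Fin (M + 1) → Set (ℝ × ℝ) := fun j =>
    annIntA (Real.exp (lo - 1 + (j : ℕ))) (Real.exp (lo - 1 + (j : ℕ)) * Real.exp 1) with hA
  have hcov : ∀ z, wL μ e lo hi z ≤ (⋃ j, A j).indicator (wL μ e lo hi) z := by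
    intro z
    by_cases hz : z ≠ 0 ∧ lo - 1 ≤ Real.log (nm z) ∧ Real.log (nm z) ≤ hi + 1
    · have hmem : z ∈ ⋃ j, A j := by
        set x : ℝ := Real.log (nm z) - (lo - 1) with hx
        have hx0 : 0 ≤ x := by linarith [hz.2.1]
        have hx1 : x ≤ M := by linarith [hz.2.2]
        have hfl : ⌊x⌋₊ < M + 1 := by
          have : ⌊x⌋₊ ≤ M := by
            have := Nat.floor_le_floor hx1
            rwa [Nat.floor_natCast] at this
          omega
        refine Set.mem_iUnion.mpr ⟨⟨⌊x⌋₊, hfl⟩, ?_, ?_⟩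
        · have h1 := Nat.floor_le hx0
          have h2 : Real.exp (lo - 1 + (⌊x⌋₊ : ℝ)) ≤ Real.exp (Real.log (nm z)) :=
            Real.exp_le_exp.mpr (by linarith)
          rw [Real.exp_log (nm_pos hz.1)] at h2
          exact h2
        · have h1 := Nat.lt_floor_add_one x
          have h2 : Real.exp (Real.log (nm z)) < Real.exp (lo - 1 + (⌊x⌋₊ : ℝ) + 1) :=
            Real.exp_lt_exp.mpr (by linarith)
          rw [Real.exp_log (nm_pos hz.1), Real.exp_add (lo - 1 + (⌊x⌋₊ : ℝ)) 1] at h2
          exact h2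
      rw [Set.indicator_of_mem hmem]
    · have h0 : wL μ e lo hi z = 0 := by
        unfold wL
        rw [if_neg hz]
      rw [h0]
      exact zero_le
  calc ∫⁻ z, wL μ e lo hi z ≤ ∫⁻ z, (⋃ j, A j).indicator (wL μ e lo hi) z :=
        lintegral_mono hcov
    _ = ∫⁻ z in ⋃ j, A j, wL μ e lo hi z :=
        lintegral_indicator (MeasurableSet.iUnion fun j => annIntA_meas _ _) _
    _ ≤ ∑' j, ∫⁻ z in A j, wL μ e lo hi z := lintegral_iUnion_le _ _
    _ = ∑ j, ∫⁻ z in A j, wL μ e lo hi z := tsum_fintype _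
    _ ≤ ∑ _j : Fin (M + 1), ENNReal.ofReal (2200 * n * e) := by
        apply Finset.sum_le_sum
        intro j _
        exact annInt_one hn μ he (Real.exp_pos _)
    _ = ENNReal.ofReal (((M : ℝ) + 1) * (2200 * n * e)) := by
        rw [Finset.sum_const, Finset.card_univ, Fintype.card_fin, nsmul_eq_mul,
          ENNReal.ofReal_mul (p := (M : ℝ) + 1) (by positivity)]
        congr 1
        rw [← Nat.cast_succ, ENNReal.ofReal_natCast]
    _ ≤ ENNReal.ofReal (10000 * n * e * (hi - lo + 2)) := by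
        apply ENNReal.ofReal_le_ofReal
        have h7 : 0 < (n : ℝ) * e := by positivity
        have h8 : (M : ℝ) + 1 ≤ 2 * (hi - lo + 2) := by linarith
        have h9 : ((M : ℝ) + 1) * (2200 * n * e) ≤ (2 * (hi - lo + 2)) * (2200 * n * e) :=
          mul_le_mul_of_nonneg_right h8 (by positivity)
        nlinarith

end Pool.Agent.Lib.MP_95e7ec_an
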