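import Mathlib
import Pool.Agent.Lib.MP_95e7ec_an.Ry.LDefs
import Pool.Agent.Lib.MP_95e7ec_an.SetSum

/-!
# Ry, ExtMeas: measurability along the families
-/

set_option autoImplicit false

open Set Filter Topology MeasureTheory
open scoped ContDiff ENNReal

namespace Pool.Agent.Lib.MP_95e7ec_an

theorem isOpen_ann {I : Set ℝ} (hI : IsOpen I) : IsOpen (ann I) := by
  have h1 : ContinuousOn (fun z : ℝ × ℝ => Real.log (nm z)) {z : ℝ × ℝ | z ≠ 0} :=
    Real.continuousOn_log.comp continuous_nm.continuousOn fun z hz => (nm_pos hz).ne'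
  exact h1.isOpen_inter_preimage isOpen_ne hI

/-- the orbits contained in an open set -/
private theorem ExtMeas_open {D : ℕ} {μ : Pr D} {Ω : Set (ℝ × ℝ)} (F : Fam μ Ω)
    {U : Set (ℝ × ℝ)} (hU : IsOpen U) : IsOpen {s | s ∈ F.J ∧ F.orb s ⊆ U} := by
  rw [isOpen_iff_mem_nhds]
  rintro s ⟨hs, hsub⟩
  have h1 : ContinuousAt F.Z s := (F.deriv_Z s hs).continuousAt
  filter_upwards [F.isOpen_J.mem_nhds hs, h1.eventually (eventually_range_subset hU hsub)]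
    with s' hs' hm
  exact ⟨hs', hm⟩

/-- the extreme points in terms of bounds for all the points -/
private theorem ExtMeas_iff {lo hi : ℝ} {C : Set (ℝ × ℝ)} (hC : IsCompact C)
    (hne : C.Nonempty) (h0 : ∀ z ∈ C, z ≠ 0) :
    IsExt lo hi C ↔ ((∀ z ∈ C, Real.exp lo ≤ nm z) ∧ ∃ z ∈ C, nm z ≤ Real.exp hi) ∨
      ((∀ z ∈ C, nm z ≤ Real.exp hi) ∧ ∃ z ∈ C, Real.exp lo ≤ nm z) := by
  have hlog : ∀ z ∈ C, ((lo ≤ Real.log (nm z) ↔ Real.exp lo ≤ nm z) ∧
      (Real.log (nm z) ≤ hi ↔ nm z ≤ Real.exp hi)) := fun z hz =>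
    ⟨Real.le_log_iff_exp_le (nm_pos (h0 z hz)), Real.log_le_iff_le_exp (nm_pos (h0 z hz))⟩
  constructor
  · rintro ⟨z, hz, h1, h2, h3 | h3⟩
    · left
      exact ⟨fun w hw => ((hlog z hz).1.1 h1).trans (h3 w hw), z, hz, (hlog z hz).2.1 h2⟩
    · right
      exact ⟨fun w hw => (h3 w hw).trans ((hlog z hz).2.1 h2), z, hz, (hlog z hz).1.1 h1⟩
  · rintro (⟨h1, w, hw, h2⟩ | ⟨h1, w, hw, h2⟩)
    · obtain ⟨z, hz, h3⟩ := hC.exists_isMinOn hne continuous_nm.continuousOn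
      rw [isMinOn_iff] at h3
      exact ⟨z, hz, (hlog z hz).1.2 (h1 z hz), (hlog z hz).2.2 ((h3 w hw).trans h2),
        Or.inl h3⟩
    · obtain ⟨z, hz, h3⟩ := hC.exists_isMaxOn hne continuous_nm.continuousOn
      rw [isMaxOn_iff] at h3
      exact ⟨z, hz, (hlog z hz).1.2 (h2.trans (h3 w hw)), (hlog z hz).2.2 (h1 z hz),
        Or.inr h3⟩

private theorem ExtMeas_lower {D : ℕ} {μ : Pr D} {Ω : Set (ℝ × ℝ)} (F : Fam μ Ω) (c : ℝ) :
    MeasurableSet {s | s ∈ F.J ∧ ∀ z ∈ F.orb s, c ≤ nm z} := by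
  have h : {s | s ∈ F.J ∧ ∀ z ∈ F.orb s, c ≤ nm z} =
      ⋂ k : ℕ, {s | s ∈ F.J ∧ F.orb s ⊆ {z | c - 1 / ((k : ℝ) + 1) < nm z}} := by
    ext s
    rw [mem_iInter]
    constructor
    · rintro ⟨hs, h1⟩ k
      refine ⟨hs, fun z hz => ?_⟩
      have h2 : (0 : ℝ) < 1 / ((k : ℝ) + 1) := by positivity
      have h3 := h1 z hz
      show c - 1 / ((k : ℝ) + 1) < nm z
      linarith
    · intro h1
      refine ⟨(h1 0).1, fun z hz => ?_⟩
      by_contra hcon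
      push Not at hcon
      obtain ⟨k, hk⟩ := exists_nat_one_div_lt (sub_pos.2 hcon)
      have h2 : c - 1 / ((k : ℝ) + 1) < nm z := (h1 k).2 hz
      linarith
  rw [h]
  exact MeasurableSet.iInter fun k =>
    (ExtMeas_open F (isOpen_lt continuous_const continuous_nm)).measurableSet

private theorem ExtMeas_upper {D : ℕ} {μ : Pr D} {Ω : Set (ℝ × ℝ)} (F : Fam μ Ω) (c : ℝ) :
    MeasurableSet {s | s ∈ F.J ∧ ∀ z ∈ F.orb s, nm z ≤ c} := by
  have h : {s | s ∈ F.J ∧ ∀ z ∈ F.orb s, nm z ≤ c} =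
      ⋂ k : ℕ, {s | s ∈ F.J ∧ F.orb s ⊆ {z | nm z < c + 1 / ((k : ℝ) + 1)}} := by
    ext s
    rw [mem_iInter]
    constructor
    · rintro ⟨hs, h1⟩ k
      refine ⟨hs, fun z hz => ?_⟩
      have h2 : (0 : ℝ) < 1 / ((k : ℝ) + 1) := by positivity
      have h3 := h1 z hz
      show nm z < c + 1 / ((k : ℝ) + 1)
      linarith
    · intro h1
      refine ⟨(h1 0).1, fun z hz => ?_⟩
      by_contra hcon
      push Not at hcon
      obtain ⟨k, hk⟩ := exists_nat_one_div_lt (sub_pos.2 hcon)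
      have h2 : nm z < c + 1 / ((k : ℝ) + 1) := (h1 k).2 hz
      linarith
  rw [h]
  exact MeasurableSet.iInter fun k =>
    (ExtMeas_open F (isOpen_lt continuous_nm continuous_const)).measurableSet

/-- Proof. As `crossInd_measurable` (SetSum.lean). For an orbit in `ann I` (so `0` is not on it) let `lo(s)`, `hi(s)` be
the minimum and the maximum of `log |z|` on `F.orb s` (compact). `{s ∈ J | lo(s) > c} = {s ∈ J | F.orb s ⊆ {log |z| > c}}`
is open for every `c`, and the same for the others (`ss_open` in SetSum.lean is private: copy it; it uses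
`eventually_range_subset`). `IsExt lo hi C` holds iff `lo ≤ min ≤ hi` or `lo ≤ max ≤ hi`, i.e. iff
(`C ⊄ {log |z| > hi}` and there is no point with `log |z| < lo`, i.e. for all rational (or natural `m`) `c < lo`
`C ⊆ {log |z| > c}`) or (the same for the maximum). So the set of the `s ∈ J` with `IsExt` is measurable; `L` is its
indicator. -/
theorem extInd_measurable {D : ℕ} {μ : Pr D} {I : Set ℝ} (lo hi : ℝ) (F : Fam μ (ann I)) :
    ∃ L : ℝ → ℝ≥0∞, Measurable L ∧ ∀ s ∈ F.J, extInd lo hi (F.orb s) = L s := by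
  classical
  set A1 : Set ℝ := {s | s ∈ F.J ∧ ∀ z ∈ F.orb s, Real.exp lo ≤ nm z} with hA1
  set A2 : Set ℝ := F.J \ {s | s ∈ F.J ∧ F.orb s ⊆ {z | Real.exp hi < nm z}} with hA2
  set B1 : Set ℝ := {s | s ∈ F.J ∧ ∀ z ∈ F.orb s, nm z ≤ Real.exp hi} with hB1
  set B2 : Set ℝ := F.J \ {s | s ∈ F.J ∧ F.orb s ⊆ {z | nm z < Real.exp lo}} with hB2
  have hSm : MeasurableSet ((A1 ∩ A2) ∪ (B1 ∩ B2)) :=
    ((ExtMeas_lower F _).inter (F.isOpen_J.measurableSet.diff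
      (ExtMeas_open F (isOpen_lt continuous_const continuous_nm)).measurableSet)).union
    ((ExtMeas_upper F _).inter (F.isOpen_J.measurableSet.diff
      (ExtMeas_open F (isOpen_lt continuous_nm continuous_const)).measurableSet))
  refine ⟨((A1 ∩ A2) ∪ (B1 ∩ B2)).indicator fun _ => 1, measurable_const.indicator hSm,
    fun s hs => ?_⟩
  have hcomp : IsCompact (F.orb s) := isCompact_range (at'_continuous (F.Z s))
  have hne : (F.orb s).Nonempty := ⟨at' (F.Z s) 0, mem_range_self _⟩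
  have h0 : ∀ z ∈ F.orb s, z ≠ 0 := by
    rintro z ⟨t, rfl⟩
    exact (F.sub s hs t).1
  have hiff := ExtMeas_iff (lo := lo) (hi := hi) hcomp hne h0
  have hA1' : s ∈ A1 ↔ ∀ z ∈ F.orb s, Real.exp lo ≤ nm z := ⟨fun h => h.2, fun h => ⟨hs, h⟩⟩
  have hB1' : s ∈ B1 ↔ ∀ z ∈ F.orb s, nm z ≤ Real.exp hi := ⟨fun h => h.2, fun h => ⟨hs, h⟩⟩
  have hA2' : s ∈ A2 ↔ ∃ z ∈ F.orb s, nm z ≤ Real.exp hi := by
    have h1 : ¬ F.orb s ⊆ {z | Real.exp hi < nm z} ↔ ∃ z ∈ F.orb s, nm z ≤ Real.exp hi := by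
      rw [Set.not_subset]
      refine exists_congr fun z => and_congr_right fun _ => ?_
      rw [mem_ofPred_eq, not_lt]
    rw [← h1]
    exact ⟨fun h h2 => h.2 ⟨hs, h2⟩, fun h => ⟨hs, fun h2 => h h2.2⟩⟩
  have hB2' : s ∈ B2 ↔ ∃ z ∈ F.orb s, Real.exp lo ≤ nm z := by
    have h1 : ¬ F.orb s ⊆ {z | nm z < Real.exp lo} ↔ ∃ z ∈ F.orb s, Real.exp lo ≤ nm z := by
      rw [Set.not_subset]
      refine exists_congr fun z => and_congr_right fun _ => ?_
      rw [mem_ofPred_eq, not_lt]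
    rw [← h1]
    exact ⟨fun h h2 => h.2 ⟨hs, h2⟩, fun h => ⟨hs, fun h2 => h h2.2⟩⟩
  have hmem : s ∈ (A1 ∩ A2) ∪ (B1 ∩ B2) ↔ IsExt lo hi (F.orb s) := by
    rw [hiff, mem_union, mem_inter_iff, mem_inter_iff, hA1', hA2', hB1', hB2']
  unfold extInd
  by_cases h : s ∈ (A1 ∩ A2) ∪ (B1 ∩ B2)
  · rw [if_pos (hmem.1 h), Set.indicator_of_mem h]
  · rw [if_neg (fun h4 => h (hmem.2 h4)), Set.indicator_of_notMem h]

end Pool.Agent.Lib.MP_95e7ec_an
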