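import Mathlib

/-!
# Ry, LinPer: periodic solutions of a linear equation
-/

set_option autoImplicit false

open Set Filter Topology MeasureTheory

namespace Pool.Agent.Lib.MP_95e7ec_an

/-- Proof. `C t = ∫₀ᵗ c`, `J t = exp (C t) (j 0 + ∫₀ᵗ exp (-C s) f s ds)` is differentiable everywhere with the
right derivative (`intervalIntegral.integral_hasDerivAt_right`). On `[0,T]`: the function
`(j t - J t) exp (-C t)` is continuous, has derivative `0` on `(0,T)` and is `0` at `0`, so it is `0`
(`constant_of_derivWithin_zero`, or `intervalIntegral.integral_eq_sub_of_hasDerivAt_of_le` with the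
derivative `0`). Periodicity: `t ↦ (J (t+T) - J t) exp (-C t)` has derivative `0` everywhere (`c`, `f` are
periodic) and is `j T - j 0 = 0` at `0` (`is_const_of_deriv_eq_zero`). Positivity: every `t` is congruent
modulo `T` to a point of `[0,T)` (`toIcoMod` or `Function.Periodic.exists_mem_Ico₀`). -/
theorem lin_per {c f j : ℝ → ℝ} {T : ℝ} (hT : 0 < T) (hc : Continuous c) (hf : Continuous f)
    (hcp : ∀ t, c (t + T) = c t) (hfp : ∀ t, f (t + T) = f t) (hj : ContinuousOn j (Set.Icc 0 T))
    (hd : ∀ t ∈ Set.Ioo 0 T, HasDerivAt j (c t * j t + f t) t) (hjT : j T = j 0)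
    (hpos : ∀ t ∈ Set.Icc 0 T, 0 < j t) :
    ∃ J : ℝ → ℝ, (∀ t, HasDerivAt J (c t * J t + f t) t) ∧ (∀ t, J (t + T) = J t) ∧
      (∀ t ∈ Set.Icc 0 T, J t = j t) ∧ ∀ t, 0 < J t := by
  set C : ℝ → ℝ := fun t => ∫ s in (0 : ℝ)..t, c s with hCdef
  have hC : ∀ t, HasDerivAt C (c t) t := fun t => (hc.integral_hasStrictDerivAt 0 t).hasDerivAt
  have hCc : Continuous C := continuous_iff_continuousAt.mpr fun t => (hC t).continuousAt
  have hC0 : C 0 = 0 := by simp [hCdef]
  set g : ℝ → ℝ := fun s => Real.exp (-C s) * f s with hgdef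
  have hg : Continuous g := (Real.continuous_exp.comp hCc.neg).mul hf
  set I : ℝ → ℝ := fun t => ∫ s in (0 : ℝ)..t, g s with hIdef
  have hI : ∀ t, HasDerivAt I (g t) t := fun t => (hg.integral_hasStrictDerivAt 0 t).hasDerivAt
  have hI0 : I 0 = 0 := by simp [hIdef]
  set J : ℝ → ℝ := fun t => Real.exp (C t) * (j 0 + I t) with hJdef
  have hee : ∀ t, Real.exp (C t) * Real.exp (-C t) = 1 := by
    intro t
    rw [← Real.exp_add, add_neg_cancel, Real.exp_zero]
  have hJ : ∀ t, HasDerivAt J (c t * J t + f t) t := by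
    intro t
    have h1 : HasDerivAt (fun t => Real.exp (C t)) (Real.exp (C t) * c t) t := (hC t).exp
    have h2 : HasDerivAt (fun t => j 0 + I t) (g t) t := (hI t).const_add _
    refine (h1.mul h2).congr_deriv ?_
    simp only [hJdef, hgdef]
    linear_combination f t * hee t
  have hJ0 : J 0 = j 0 := by simp [hJdef, hC0, hI0]
  have hexp : ∀ t, HasDerivAt (fun t => Real.exp (-C t)) (Real.exp (-C t) * (-c t)) t :=
    fun t => (hC t).neg.exp
  have hJc : Continuous J := continuous_iff_continuousAt.mpr fun t => (hJ t).continuousAt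
  have hJj : ∀ t ∈ Set.Icc 0 T, J t = j t := by
    intro x hx
    rcases hx.1.eq_or_lt with h0 | h0
    · rw [← h0]
      exact hJ0
    · have hcont : ContinuousOn (fun t => (j t - J t) * Real.exp (-C t)) (Set.Icc 0 x) := by
        refine ContinuousOn.mul (ContinuousOn.sub (hj.mono (Set.Icc_subset_Icc_right hx.2))
          hJc.continuousOn) ?_
        exact (Real.continuous_exp.comp hCc.neg).continuousOn
      have hder : ∀ t ∈ Set.Ioo 0 x,
          HasDerivAt (fun t => (j t - J t) * Real.exp (-C t)) ((fun _ : ℝ => (0 : ℝ)) t) t := by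
        intro t ht
        have h1 := hd t ⟨ht.1, ht.2.trans_le hx.2⟩
        refine (((h1.sub (hJ t)).mul (hexp t))).congr_deriv ?_
        simp only [Pi.sub_apply]
        ring
      obtain ⟨ξ, -, hξ⟩ := exists_hasDerivAt_eq_slope _ _ h0 hcont hder
      have h3 : (j x - J x) * Real.exp (-C x) - (j 0 - J 0) * Real.exp (-C 0) = 0 := by
        rw [eq_comm, div_eq_zero_iff] at hξ
        rcases hξ with h | h
        · exact h
        · linarith
      rw [hJ0, sub_self, zero_mul, sub_zero] at h3
      rcases mul_eq_zero.mp h3 with h | h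
      · linarith
      · exact absurd h (Real.exp_pos _).ne'
  have hJT : J T = J 0 := by rw [hJj T ⟨hT.le, le_rfl⟩, hjT, hJ0]
  have hper : ∀ t, J (t + T) = J t := by
    intro t
    have hder : ∀ t, HasDerivAt (fun t => (J (t + T) - J t) * Real.exp (-C t)) 0 t := by
      intro t
      have h1 : HasDerivAt (fun t => J (t + T)) (c (t + T) * J (t + T) + f (t + T)) t :=
        (hJ (t + T)).comp_add_const t T
      refine ((h1.sub (hJ t)).mul (hexp t)).congr_deriv ?_
      rw [hcp, hfp]
      simp only [Pi.sub_apply]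
      ring
    have h2 := is_const_of_deriv_eq_zero (fun t => (hder t).differentiableAt)
      (fun t => (hder t).deriv) t 0
    simp only [zero_add, hJT, sub_self, zero_mul] at h2
    rcases mul_eq_zero.mp h2 with h | h
    · linarith
    · exact absurd h (Real.exp_pos _).ne'
  refine ⟨J, hJ, hper, hJj, ?_⟩
  intro t
  have hp : Function.Periodic J T := hper
  obtain ⟨y, hy, hyt⟩ := hp.exists_mem_Ico₀ hT t
  rw [hyt, hJj y ⟨hy.1, hy.2.le⟩]
  exact hpos y ⟨hy.1, hy.2.le⟩

end Pool.Agent.Lib.MP_95e7ec_an
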