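import Mathlib
import Pool.Agent.Lib.MP_95e7ec_an.Ry.LinPer
import Pool.Agent.Lib.MP_95e7ec_an.Ry.LDefs
import Pool.Agent.Lib.MP_95e7ec_an.JacPos
import Pool.Agent.Lib.MP_95e7ec_an.Assemble

/-!
# Ry, FamCurve: the curve and the variation of a local family
-/

set_option autoImplicit false

open Set Filter Topology MeasureTheory
open scoped ContDiff ENNReal

namespace Pool.Agent.Lib.MP_95e7ec_an

/-- Proof. `γ` from `Sol.exists_curve` (Paths.lean) for `F.sol s hs`, `F.tau_pos s hs`, `F.closed s hs`; so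
`γ (τ t) = at' (Z s) t = pth (F.Z s) t` for `t ∈ [0,1]`. `jp_det` (JacPos.lean, with `F.lin1`, `F.lin2`) gives
for `j t = det2 (vfc (rotA μ a) (pth Z (t/τ))) (pth Y (t/τ))` on `(0,τ)` the equation
`j' = (pex + pey) j + a' |X|²` with `pex, pey` of `rotA μ a` at `γ t`. Extend `j` by `lin_per` (`T = F.τ s`,
`c t = (pex .. + pey ..) (γ t)`, `f t = a' |X (γ t)|²`; the values at `0` and `1` agree by `F.closed`, `F.closedY`;
positivity `F.jac_pos`). -/
theorem fam_curve {D : ℕ} {μ : Pr D} {Ω : Set (ℝ × ℝ)} (F : Fam μ Ω) {s : ℝ} (hs : s ∈ F.J) :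
    ∃ (γ : ℝ → ℝ × ℝ) (J : ℝ → ℝ),
      (∀ t, HasDerivAt γ (vfc (rotA μ (F.a s)) (γ t)) t) ∧ (∀ t, γ (t + F.τ s) = γ t) ∧
      F.orb s = Set.range γ ∧ (∀ t ∈ Set.Icc (0 : ℝ) 1, pth (F.Z s) t = γ (F.τ s * t)) ∧
      (∀ t, HasDerivAt J ((pex (rotA μ (F.a s)).1 (γ t).1 (γ t).2 +
        pey (rotA μ (F.a s)).2 (γ t).1 (γ t).2) * J t +
        F.a' s * nm (vfc μ (γ t)) ^ 2) t) ∧
      (∀ t, J (t + F.τ s) = J t) ∧ (∀ t, 0 < J t) ∧
      ∀ t ∈ Set.Icc (0 : ℝ) 1, F.jac s t = F.τ s * J (F.τ s * t) := by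
  have hT : 0 < F.τ s := F.tau_pos s hs
  have hT0 : F.τ s ≠ 0 := hT.ne'
  obtain ⟨γ, hγ, hper, hγ0, hγs, hrange⟩ := (F.sol s hs).exists_curve hT (F.closed s hs)
  have hZ : ∀ t ∈ Set.Icc (0 : ℝ) 1, pth (F.Z s) t = γ (F.τ s * t) := by
    intro t ht
    have h1 := pth_coe (F.Z s) ⟨t, ht⟩
    have h2 := hγs ⟨t, ht⟩
    rw [← h1] at h2
    exact h2.symm
  have hnm : ∀ z, (vfc (rotA μ (F.a s)) z).1 ^ 2 + (vfc (rotA μ (F.a s)) z).2 ^ 2 =
      nm (vfc μ z) ^ 2 := by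
    intro z
    rw [← nm_turn (F.a s) (vfc μ) z, vfc_rotA, nm_sq]
  have hγc : Continuous γ := continuous_iff_continuousAt.2 fun t => (hγ t).continuousAt
  set j : ℝ → ℝ := fun t => det2 (vfc (rotA μ (F.a s)) (pth (F.Z s) (t / F.τ s)))
    (pth (F.Y s) (t / F.τ s)) with hj
  set c : ℝ → ℝ := fun t => pex (rotA μ (F.a s)).1 (γ t).1 (γ t).2 +
    pey (rotA μ (F.a s)).2 (γ t).1 (γ t).2 with hc
  set f : ℝ → ℝ := fun t => F.a' s * nm (vfc μ (γ t)) ^ 2 with hf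
  have hcc : Continuous c :=
    ((jp_pex_continuous (rotA μ (F.a s)).1).comp hγc).add
      ((jp_pey_continuous (rotA μ (F.a s)).2).comp hγc)
  have hfc : Continuous f := by
    have h1 : f = fun t => F.a' s * ((vfc (rotA μ (F.a s)) (γ t)).1 ^ 2 +
        (vfc (rotA μ (F.a s)) (γ t)).2 ^ 2) := by
      funext t
      rw [hf, hnm]
    rw [h1]
    have h2 : Continuous fun t => vfc (rotA μ (F.a s)) (γ t) :=
      (continuous_vfc_AS (rotA μ (F.a s))).comp hγc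
    exact continuous_const.mul (((continuous_fst.comp h2).pow 2).add ((continuous_snd.comp h2).pow 2))
  have hdet : Continuous fun t => det2 (vfc (rotA μ (F.a s)) (pth (F.Z s) t)) (pth (F.Y s) t) := by
    have h2 : Continuous fun t => vfc (rotA μ (F.a s)) (pth (F.Z s) t) :=
      (continuous_vfc_AS (rotA μ (F.a s))).comp (continuous_pth (F.Z s))
    have h3 := continuous_pth (F.Y s)
    exact ((continuous_fst.comp h2).mul (continuous_snd.comp h3)).sub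
      ((continuous_snd.comp h2).mul (continuous_fst.comp h3))
  have hjc : Continuous j := hdet.comp (continuous_id.div_const (F.τ s))
  have hdiv : ∀ t ∈ Set.Icc 0 (F.τ s), t / F.τ s ∈ Set.Icc (0 : ℝ) 1 := fun t ht =>
    ⟨div_nonneg ht.1 hT.le, (div_le_one hT).2 ht.2⟩
  have hmul : ∀ t, F.τ s * (t / F.τ s) = t := fun t => by field_simp
  have hd : ∀ t ∈ Set.Ioo 0 (F.τ s), HasDerivAt j (c t * j t + f t) t := by
    intro t ht
    have ht1 : t / F.τ s ∈ Set.Ioo (0 : ℝ) 1 := ⟨div_pos ht.1 hT, (div_lt_one hT).2 ht.2⟩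
    have h1 := jp_det (F.sol s hs) (F.lin1 s hs) (F.lin2 s hs) ht1
    have h2 : HasDerivAt (fun t : ℝ => t / F.τ s) (1 / F.τ s) t := (hasDerivAt_id t).div_const _
    have h3 := HasDerivAt.comp (h := fun t : ℝ => t / F.τ s) t h1 h2
    refine h3.congr_deriv ?_
    rw [hnm, hZ _ ⟨ht1.1.le, ht1.2.le⟩, hmul]
    have h4 : j t = det2 (vfc (rotA μ (F.a s)) (γ t)) (pth (F.Y s) (t / F.τ s)) := by
      simp only [hj]
      rw [hZ _ ⟨ht1.1.le, ht1.2.le⟩, hmul]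
    rw [h4]
    simp only [hc, hf]
    field_simp
  have hjT : j (F.τ s) = j 0 := by
    simp only [hj]
    rw [div_self hT0, zero_div]
    have e1 : pth (F.Z s) 1 = pth (F.Z s) 0 := by
      have a1 := pth_coe (F.Z s) 1
      have a0 := pth_coe (F.Z s) 0
      rw [F.closed s hs, ← a0] at a1
      exact a1
    have e2 : pth (F.Y s) 1 = pth (F.Y s) 0 := by
      have a1 := pth_coe (F.Y s) 1
      have a0 := pth_coe (F.Y s) 0
      rw [F.closedY s hs, ← a0] at a1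
      exact a1
    rw [e1, e2]
  have hpos : ∀ t ∈ Set.Icc 0 (F.τ s), 0 < j t := by
    intro t ht
    have h1 := F.jac_pos s hs ⟨t / F.τ s, hdiv t ht⟩
    rw [← pth_coe, ← pth_coe] at h1
    exact h1
  have hcp : ∀ t, c (t + F.τ s) = c t := fun t => by simp only [hc, hper]
  have hfp : ∀ t, f (t + F.τ s) = f t := fun t => by simp only [hf, hper]
  obtain ⟨J, hJd, hJp, hJj, hJpos⟩ := lin_per hT hcc hfc hcp hfp hjc.continuousOn hd hjT hpos
  refine ⟨γ, J, hγ, hper, ?_, hZ, hJd, hJp, hJpos, ?_⟩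
  · rw [hrange]
    rfl
  · intro t ht
    have h1 : F.τ s * t ∈ Set.Icc 0 (F.τ s) :=
      ⟨mul_nonneg hT.le ht.1, by nlinarith [ht.2]⟩
    rw [hJj _ h1]
    simp only [hj, Fam.jac]
    rw [mul_div_cancel_left₀ _ hT0]

end Pool.Agent.Lib.MP_95e7ec_an
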