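import Mathlib
import Pool.Agent.Lib.MP_95e7ec_an.Ry.FamCurve
import Pool.Agent.Lib.MP_95e7ec_an.Rq.Lift
import Pool.Agent.Lib.MP_95e7ec_an.KqLift

/-!
# Ry, FamCyl: a local family on the cylinder
-/

set_option autoImplicit false

open Set Filter Topology MeasureTheory
open scoped ContDiff ENNReal

namespace Pool.Agent.Lib.MP_95e7ec_an

/-- the divergence of the field on the cylinder: `divc (cf v) p = e^{2ρ} (div v) (cyl p)`. Proof: direct
computation, `cf v p = wf v (cyl p)`, `wf v z = z̄ v(z)`. -/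
theorem divc_cf {D : ℕ} (μ : Pr D) (p : ℝ × ℝ) :
    divc (cf (vfc μ)) p = Real.exp (2 * p.1) *
      (pex μ.1 (cyl p).1 (cyl p).2 + pey μ.2 (cyl p).1 (cyl p).2) := by
  have hv1 : Differentiable ℝ (vfc μ) := (contDiff_vfc μ).differentiable (by norm_num)
  have hcy : Differentiable ℝ cyl := by
    unfold cyl
    fun_prop
  have hvc : Differentiable ℝ fun q => vfc μ (cyl q) := hv1.comp hcy
  have hF1 : Differentiable ℝ fun q => (cf (vfc μ) q).1 := by
    unfold cf wf
    exact (hcy.fst.mul hvc.fst).add (hcy.snd.mul hvc.snd)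
  have hF2 : Differentiable ℝ fun q => (cf (vfc μ) q).2 := by
    unfold cf wf
    exact (hcy.fst.mul hvc.snd).sub (hcy.snd.mul hvc.fst)
  obtain ⟨r, t⟩ := p
  -- the derivative along the first variable
  have hx1 : HasDerivAt (fun x : ℝ => Real.exp x * Real.cos t) (Real.exp r * Real.cos t) r :=
    (Real.hasDerivAt_exp r).mul_const _
  have hy1 : HasDerivAt (fun x : ℝ => Real.exp x * Real.sin t) (Real.exp r * Real.sin t) r :=
    (Real.hasDerivAt_exp r).mul_const _
  have hx2 : HasDerivAt (fun x : ℝ => Real.exp r * Real.cos x) (Real.exp r * -Real.sin t) t :=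
    (Real.hasDerivAt_cos t).const_mul _
  have hy2 : HasDerivAt (fun x : ℝ => Real.exp r * Real.sin x) (Real.exp r * Real.cos t) t :=
    (Real.hasDerivAt_sin t).const_mul _
  have e1 : d1 (fun q => (cf (vfc μ) q).1) (r, t) = deriv (fun x => (cf (vfc μ) (x, t)).1) r := by
    unfold d1
    have h1 : HasDerivAt (fun x : ℝ => (x, t)) ((1 : ℝ), (0 : ℝ)) r :=
      (hasDerivAt_id r).prodMk (hasDerivAt_const r t)
    have h2 := (hF1 (r, t)).hasFDerivAt.comp_hasDerivAt r h1
    exact h2.deriv.symm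
  have e2 : d2 (fun q => (cf (vfc μ) q).2) (r, t) = deriv (fun x => (cf (vfc μ) (r, x)).2) t := by
    unfold d2
    have h1 : HasDerivAt (fun x : ℝ => (r, x)) ((0 : ℝ), (1 : ℝ)) t :=
      (hasDerivAt_const t r).prodMk (hasDerivAt_id t)
    have h2 := (hF2 (r, t)).hasFDerivAt.comp_hasDerivAt t h1
    exact h2.deriv.symm
  unfold divc
  rw [e1, e2]
  have f1 := (hx1.fun_mul (pe_hasDerivAt μ.1 hx1 hy1)).fun_add (hy1.fun_mul (pe_hasDerivAt μ.2 hx1 hy1))
  have f2 := (hx2.fun_mul (pe_hasDerivAt μ.2 hx2 hy2)).fun_sub (hy2.fun_mul (pe_hasDerivAt μ.1 hx2 hy2))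
  have g1 : deriv (fun x => (cf (vfc μ) (x, t)).1) r = _ := f1.deriv
  have g2 : deriv (fun x => (cf (vfc μ) (r, x)).2) t = _ := f2.deriv
  rw [g1, g2]
  simp only [cyl]
  rw [show Real.exp (2 * r) = Real.exp r * Real.exp r by rw [← Real.exp_add]; ring_nf]
  have h4 := Real.sin_sq_add_cos_sq t
  linear_combination (Real.exp r * Real.exp r * (pex μ.1 (Real.exp r * Real.cos t) (Real.exp r * Real.sin t) +
    pey μ.2 (Real.exp r * Real.cos t) (Real.exp r * Real.sin t))) * h4

/-- change of time -/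
private theorem famCyl_time {G : ℝ → ℝ} (hG : Continuous G) (hpos : ∀ t, 0 < G t) {T : ℝ}
    (hT : 0 < T) (hper : ∀ t, G (t + T) = G t) :
    ∃ (σ : ℝ → ℝ) (S : ℝ), 0 < S ∧ (∀ u, HasDerivAt σ (G (σ u))⁻¹ u) ∧
      (∀ u, σ (u + S) = σ u + T) ∧ Function.Surjective σ ∧ σ 0 = 0 ∧ StrictMono σ := by
  set θ : ℝ → ℝ := fun t => ∫ u in (0 : ℝ)..t, G u with hθ
  have hθd : ∀ t, HasDerivAt θ (G t) t := fun t =>
    intervalIntegral.integral_hasDerivAt_right (hG.intervalIntegrable _ _)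
      (hG.stronglyMeasurableAtFilter _ _) hG.continuousAt
  have hθc : Continuous θ := continuous_iff_continuousAt.2 fun t => (hθd t).continuousAt
  have hmono : StrictMono θ := strictMono_of_hasDerivAt_pos hθd hpos
  have hθ0 : θ 0 = 0 := by simp [hθ]
  set S : ℝ := θ T with hS
  have hSpos : 0 < S := by rw [hS, ← hθ0]; exact hmono hT
  have hadd : ∀ t, θ (t + T) = θ t + S := by
    have h1 : ∀ t, HasDerivAt (fun t => θ (t + T) - θ t) 0 t := by
      intro t
      have e1 := (hθd (t + T)).comp_add_const t T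
      have e2 := e1.sub (hθd t)
      rw [hper, sub_self] at e2
      exact e2
    intro t
    have h2 := is_const_of_deriv_eq_zero (fun t => (h1 t).differentiableAt)
      (fun t => (h1 t).deriv) t 0
    simp only [zero_add, hθ0] at h2
    rw [hS]
    linarith
  have hmulN : ∀ k : ℕ, θ (k * T) = k * S := by
    intro k
    induction k with
    | zero => simp [hθ0]
    | succ k ih =>
      push_cast
      rw [add_mul, one_mul, hadd, ih]
      ring
  have hmulN' : ∀ k : ℕ, θ (-(k * T)) = -(k * S) := by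
    intro k
    induction k with
    | zero => simp [hθ0]
    | succ k ih =>
      have := hadd (-((k + 1 : ℕ) * T))
      push_cast at this ⊢
      rw [show -((↑k + 1) * T) + T = -(k * T) by ring, ih] at this
      linarith
  have hsurj : Function.Surjective θ := by
    apply hθc.surjective
    · rw [tendsto_atTop_atTop_iff_of_monotone hmono.monotone]
      intro b
      obtain ⟨k, hk⟩ := exists_nat_ge (b / S)
      refine ⟨k * T, ?_⟩
      rw [hmulN]
      rwa [div_le_iff₀ hSpos] at hk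
    · rw [tendsto_atBot_atBot_iff_of_monotone hmono.monotone]
      intro b
      obtain ⟨k, hk⟩ := exists_nat_ge (-b / S)
      refine ⟨-(k * T), ?_⟩
      rw [hmulN']
      rw [div_le_iff₀ hSpos] at hk
      linarith
  let e : ℝ ≃o ℝ := StrictMono.orderIsoOfSurjective θ hmono hsurj
  set σ : ℝ → ℝ := fun u => e.symm u with hσ
  have hσc : Continuous σ := e.symm.continuous
  have hθσ : ∀ u, θ (σ u) = u := fun u => e.apply_symm_apply u
  have hσθ : ∀ t, σ (θ t) = t := fun t => e.symm_apply_apply t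
  refine ⟨σ, S, hSpos, fun u => ?_, fun u => ?_, fun t => ⟨θ t, hσθ t⟩, ?_, e.symm.strictMono⟩
  · exact HasDerivAt.of_local_left_inverse hσc.continuousAt (hθd (σ u)) (hpos _).ne'
      (Eventually.of_forall hθσ)
  · apply hmono.injective
    rw [hθσ, hadd, hθσ]
  · have h := hσθ 0
    rw [hθ0] at h
    exact h

/-- Change of time and lift. Let `γ' = v(γ)`, `γ` `S`-periodic and without the value `0`. Then there are a
time change `ψ` with `ψ' u = |γ (ψ u)|²`, `ψ (u+T) = ψ u + S`, `ψ` a strictly increasing surjection with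
`ψ 0 = 0`, and a lift `σ` with `cyl (σ u) = γ (ψ u)`, `σ' = cf v (σ)`,
`σ (u+T) = σ u + (0, 2πk)`. Proof: copy of the proof of `cyl_lift` and `kql_time` (KqLift.lean; they are existential
and hide the time change): `ψ` is the inverse function of `t ↦ ∫₀ᵗ |γ|⁻²`; the second component of `σ` is
`θ₀ + ∫ (cf v (..)).2`. -/
theorem cyl_lift_time {v : ℝ × ℝ → ℝ × ℝ} (hv : Continuous v) {γ : ℝ → ℝ × ℝ} {S : ℝ}
    (hS : 0 < S) (hγ : ∀ t, HasDerivAt γ (v (γ t)) t) (hper : ∀ t, γ (t + S) = γ t)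
    (h0 : ∀ t, γ t ≠ 0) :
    ∃ (ψ : ℝ → ℝ) (σ : ℝ → ℝ × ℝ) (T : ℝ) (k : ℤ), 0 < T ∧ ψ 0 = 0 ∧ StrictMono ψ ∧
      Function.Surjective ψ ∧ (∀ u, HasDerivAt ψ (nm (γ (ψ u)) ^ 2) u) ∧
      (∀ u, ψ (u + T) = ψ u + S) ∧ (∀ u, cyl (σ u) = γ (ψ u)) ∧
      (∀ u, HasDerivAt σ (cf v (σ u)) u) ∧
      ∀ u, σ (u + T) = σ u + ((0 : ℝ), 2 * Real.pi * (k : ℝ)) := by
  obtain ⟨hg, hgpos, hvF⟩ := cylField_cf v
  set F : ℝ × ℝ → ℝ × ℝ := cf v with hFdef
  set g : ℝ → ℝ := fun s => Real.exp (-2 * s) with hgdef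
  set T : ℝ := S with hTdef
  have hT : 0 < T := hS
  have hc : Continuous γ := continuous_iff_continuousAt.2 fun t => (hγ t).continuousAt
  have hvc : Continuous fun t => v (γ t) := hv.comp hc
  have hγ1 : ∀ t, HasDerivAt (fun t => (γ t).1) (v (γ t)).1 t := fun t => (hγ t).fst
  have hγ2 : ∀ t, HasDerivAt (fun t => (γ t).2) (v (γ t)).2 t := fun t => (hγ t).snd
  -- the squared norm
  set R : ℝ → ℝ := fun t => (γ t).1 ^ 2 + (γ t).2 ^ 2 with hR
  have hRpos : ∀ t, 0 < R t := by
    intro t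
    have hne : γ t ≠ 0 := h0 t
    by_contra hcon
    have h1 : (γ t).1 ^ 2 + (γ t).2 ^ 2 ≤ 0 := not_lt.1 hcon
    have e1 : (γ t).1 = 0 := by nlinarith [sq_nonneg (γ t).1, sq_nonneg (γ t).2]
    have e2 : (γ t).2 = 0 := by nlinarith [sq_nonneg (γ t).1, sq_nonneg (γ t).2]
    exact hne (Prod.ext e1 e2)
  have hRd : ∀ t, HasDerivAt R (2 * ((γ t).1 * (v (γ t)).1 + (γ t).2 * (v (γ t)).2)) t := by
    intro t
    refine (((hγ1 t).pow 2).add ((hγ2 t).pow 2)).congr_deriv ?_
    push_cast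
    ring
  have hRc : Continuous R := continuous_iff_continuousAt.2 fun t => (hRd t).continuousAt
  -- the logarithm of the norm
  set s : ℝ → ℝ := fun t => Real.log (R t) / 2 with hs
  set s' : ℝ → ℝ := fun t => ((γ t).1 * (v (γ t)).1 + (γ t).2 * (v (γ t)).2) / R t with hs'
  have hsd : ∀ t, HasDerivAt s (s' t) t := by
    intro t
    refine (((hRd t).log (hRpos t).ne').div_const 2).congr_deriv ?_
    simp only [hs']
    ring
  have hexp : ∀ t, Real.exp (s t) ^ 2 = R t := by
    intro t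
    rw [← Real.exp_nat_mul]
    simp only [hs]
    push_cast
    rw [mul_div_cancel₀ _ (two_ne_zero), Real.exp_log (hRpos t)]
  have hEpos : ∀ t, 0 < Real.exp (s t) := fun t => Real.exp_pos _
  -- the angle
  set w : ℝ → ℝ := fun t => ((γ t).1 * (v (γ t)).2 - (γ t).2 * (v (γ t)).1) / R t with hw
  have hwc : Continuous w := by
    have h1 : Continuous fun t => (γ t).1 := continuous_fst.comp hc
    have h2 : Continuous fun t => (γ t).2 := continuous_snd.comp hc
    have h3 : Continuous fun t => (v (γ t)).1 := continuous_fst.comp hvc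
    have h4 : Continuous fun t => (v (γ t)).2 := continuous_snd.comp hvc
    exact ((h1.mul h4).sub (h2.mul h3)).div hRc fun t => (hRpos t).ne'
  obtain ⟨θ0, hθ01, hθ02⟩ : ∃ θ0 : ℝ, (γ 0).1 = Real.exp (s 0) * Real.cos θ0 ∧
      (γ 0).2 = Real.exp (s 0) * Real.sin θ0 := by
    set z : ℂ := ⟨(γ 0).1, (γ 0).2⟩ with hz
    have hzn : ‖z‖ = Real.exp (s 0) := by
      have h1 : ‖z‖ ^ 2 = Real.exp (s 0) ^ 2 := by
        rw [hexp 0, Complex.sq_norm, Complex.normSq_mk]
        simp only [hR]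
        ring
      exact (pow_left_inj₀ (norm_nonneg z) (hEpos 0).le two_ne_zero).1 h1
    refine ⟨Complex.arg z, ?_, ?_⟩
    · rw [← hzn, Complex.norm_mul_cos_arg]
    · rw [← hzn, Complex.norm_mul_sin_arg]
  set θ : ℝ → ℝ := fun t => θ0 + ∫ u in (0 : ℝ)..t, w u with hθ
  have hθd : ∀ t, HasDerivAt θ (w t) t := fun t =>
    (intervalIntegral.integral_hasDerivAt_right (hwc.intervalIntegrable _ _)
      (hwc.stronglyMeasurableAtFilter _ _) hwc.continuousAt).const_add θ0
  have hθ0 : θ 0 = θ0 := by simp [hθ]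
  -- decomposition of the velocity
  have hv1 : ∀ t, (v (γ t)).1 = s' t * (γ t).1 - w t * (γ t).2 := by
    intro t
    have := (hRpos t).ne'
    simp only [hs', hw]
    rw [div_mul_eq_mul_div, div_mul_eq_mul_div, ← sub_div, eq_div_iff this]
    simp only [hR]
    ring
  have hv2 : ∀ t, (v (γ t)).2 = s' t * (γ t).2 + w t * (γ t).1 := by
    intro t
    have := (hRpos t).ne'
    simp only [hs', hw]
    rw [div_mul_eq_mul_div, div_mul_eq_mul_div, ← add_div, eq_div_iff this]
    simp only [hR]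
    ring
  have hcosd : ∀ t, HasDerivAt (fun t => Real.cos (θ t)) (-Real.sin (θ t) * w t) t := fun t =>
    (hθd t).cos
  have hsind : ∀ t, HasDerivAt (fun t => Real.sin (θ t)) (Real.cos (θ t) * w t) t := fun t =>
    (hθd t).sin
  have hEd : ∀ t, HasDerivAt (fun t => Real.exp (-s t)) (Real.exp (-s t) * -s' t) t := fun t =>
    (hsd t).neg.exp
  have ha : ∀ t, ((γ t).1 * Real.cos (θ t) + (γ t).2 * Real.sin (θ t)) * Real.exp (-s t) = 1 := by
    have hd : ∀ t, HasDerivAt (fun t => ((γ t).1 * Real.cos (θ t) + (γ t).2 * Real.sin (θ t)) *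
        Real.exp (-s t)) 0 t := by
      intro t
      refine ((((hγ1 t).mul (hcosd t)).add ((hγ2 t).mul (hsind t))).mul (hEd t)).congr_deriv ?_
      rw [hv1 t, hv2 t]
      simp only [Pi.add_apply, Pi.mul_apply]
      ring
    intro t
    have h2 := is_const_of_deriv_eq_zero (fun t => (hd t).differentiableAt)
      (fun t => (hd t).deriv) t 0
    rw [h2, hθ0, hθ01, hθ02]
    have h3 : Real.exp (s 0) * Real.exp (-s 0) = 1 := by
      rw [← Real.exp_add, add_neg_cancel, Real.exp_zero]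
    have h4 := Real.sin_sq_add_cos_sq θ0
    calc (Real.exp (s 0) * Real.cos θ0 * Real.cos θ0 + Real.exp (s 0) * Real.sin θ0 *
          Real.sin θ0) * Real.exp (-s 0)
        = (Real.sin θ0 ^ 2 + Real.cos θ0 ^ 2) * (Real.exp (s 0) * Real.exp (-s 0)) := by ring
      _ = 1 := by rw [h3, h4, one_mul]
  have hb : ∀ t, ((γ t).2 * Real.cos (θ t) - (γ t).1 * Real.sin (θ t)) * Real.exp (-s t) = 0 := by
    have hd : ∀ t, HasDerivAt (fun t => ((γ t).2 * Real.cos (θ t) - (γ t).1 * Real.sin (θ t)) *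
        Real.exp (-s t)) 0 t := by
      intro t
      refine ((((hγ2 t).mul (hcosd t)).sub ((hγ1 t).mul (hsind t))).mul (hEd t)).congr_deriv ?_
      rw [hv1 t, hv2 t]
      simp only [Pi.sub_apply, Pi.mul_apply]
      ring
    intro t
    have h2 := is_const_of_deriv_eq_zero (fun t => (hd t).differentiableAt)
      (fun t => (hd t).deriv) t 0
    rw [h2, hθ0, hθ01, hθ02]
    ring
  have hcyl : ∀ t, cyl (s t, θ t) = γ t := by
    intro t
    have h1 := ha t
    have h2 := hb t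
    have hE3 : Real.exp (-s t) * Real.exp (s t) = 1 := by
      rw [← Real.exp_add, neg_add_cancel, Real.exp_zero]
    have h4 := Real.sin_sq_add_cos_sq (θ t)
    have h5 : (γ t).1 * Real.cos (θ t) + (γ t).2 * Real.sin (θ t) = Real.exp (s t) := by
      calc (γ t).1 * Real.cos (θ t) + (γ t).2 * Real.sin (θ t)
          = ((γ t).1 * Real.cos (θ t) + (γ t).2 * Real.sin (θ t)) * 1 := by ring
        _ = ((γ t).1 * Real.cos (θ t) + (γ t).2 * Real.sin (θ t)) * Real.exp (-s t) *
              Real.exp (s t) := by rw [mul_assoc, hE3]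
        _ = Real.exp (s t) := by rw [h1, one_mul]
    have h6 : (γ t).2 * Real.cos (θ t) - (γ t).1 * Real.sin (θ t) = 0 :=
      (mul_eq_zero.1 h2).resolve_right (Real.exp_pos _).ne'
    unfold cyl
    ext
    · calc Real.exp (s t) * Real.cos (θ t)
          = ((γ t).1 * Real.cos (θ t) + (γ t).2 * Real.sin (θ t)) * Real.cos (θ t) -
            ((γ t).2 * Real.cos (θ t) - (γ t).1 * Real.sin (θ t)) * Real.sin (θ t) := by
              rw [h5, h6]; ring
        _ = (γ t).1 * (Real.sin (θ t) ^ 2 + Real.cos (θ t) ^ 2) := by ring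
        _ = (γ t).1 := by rw [h4, mul_one]
    · calc Real.exp (s t) * Real.sin (θ t)
          = ((γ t).1 * Real.cos (θ t) + (γ t).2 * Real.sin (θ t)) * Real.sin (θ t) +
            ((γ t).2 * Real.cos (θ t) - (γ t).1 * Real.sin (θ t)) * Real.cos (θ t) := by
              rw [h5, h6]; ring
        _ = (γ t).2 * (Real.sin (θ t) ^ 2 + Real.cos (θ t) ^ 2) := by ring
        _ = (γ t).2 := by rw [h4, mul_one]
  -- the equation on the cylinder
  set G : ℝ → ℝ := fun t => g (s t) with hGdef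
  have hs'F : ∀ t, s' t = G t * (F (s t, θ t)).1 := by
    intro t
    have h1 := hvF (s t, θ t)
    rw [hcyl t] at h1
    have e1 := congrArg Prod.fst h1
    have e2 := congrArg Prod.snd h1
    simp only [Prod.smul_fst, Prod.smul_snd, smul_eq_mul] at e1 e2
    have e3 := congrArg Prod.fst (hcyl t)
    have e4 := congrArg Prod.snd (hcyl t)
    simp only [cyl] at e3 e4
    have h4 := Real.sin_sq_add_cos_sq (θ t)
    simp only [hs']
    rw [div_eq_iff (hRpos t).ne', ← hexp t, e1, e2, ← e3, ← e4]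
    simp only [hGdef]
    linear_combination (g (s t) * (F (s t, θ t)).1 * Real.exp (s t) ^ 2) * h4
  have hwF : ∀ t, w t = G t * (F (s t, θ t)).2 := by
    intro t
    have h1 := hvF (s t, θ t)
    rw [hcyl t] at h1
    have e1 := congrArg Prod.fst h1
    have e2 := congrArg Prod.snd h1
    simp only [Prod.smul_fst, Prod.smul_snd, smul_eq_mul] at e1 e2
    have e3 := congrArg Prod.fst (hcyl t)
    have e4 := congrArg Prod.snd (hcyl t)
    simp only [cyl] at e3 e4
    have h4 := Real.sin_sq_add_cos_sq (θ t)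
    simp only [hw]
    rw [div_eq_iff (hRpos t).ne', ← hexp t, e1, e2, ← e3, ← e4]
    simp only [hGdef]
    linear_combination (g (s t) * (F (s t, θ t)).2 * Real.exp (s t) ^ 2) * h4
  have hscont : Continuous s := continuous_iff_continuousAt.2 fun t => (hsd t).continuousAt
  have hGc : Continuous G := hg.comp hscont
  have hsper : ∀ t, s (t + T) = s t := by
    intro t
    simp only [hs, hR, hper]
  have hGper : ∀ t, G (t + T) = G t := fun t => by simp only [hGdef, hsper]
  have hwper : ∀ t, w (t + T) = w t := fun t => by simp only [hw, hR, hper]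
  -- the winding number
  have hθT : ∀ t, θ (t + T) - θ t = θ T - θ 0 := by
    have h1 : ∀ t, HasDerivAt (fun t => θ (t + T) - θ t) 0 t := by
      intro t
      have e1 := (hθd (t + T)).comp_add_const t T
      have e2 := e1.sub (hθd t)
      rw [hwper, sub_self] at e2
      exact e2
    intro t
    have h2 := is_const_of_deriv_eq_zero (fun t => (h1 t).differentiableAt)
      (fun t => (h1 t).deriv) t 0
    simpa using h2
  obtain ⟨k, hk⟩ : ∃ k : ℤ, (k : ℝ) * (2 * Real.pi) = θ T - θ 0 := by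
    rw [← Real.cos_eq_one_iff, Real.cos_sub]
    have e1 := hcyl T
    have e2 := hcyl 0
    have e3 : γ T = γ 0 := by have := hper 0; rwa [zero_add] at this
    have e4 : s T = s 0 := by have := hsper 0; rwa [zero_add] at this
    rw [e3, ← e2, e4] at e1
    have e5 := congrArg Prod.fst e1
    have e6 := congrArg Prod.snd e1
    simp only [cyl] at e5 e6
    have e7 := mul_left_cancel₀ (hEpos 0).ne' e5
    have e8 := mul_left_cancel₀ (hEpos 0).ne' e6
    rw [e7, e8]
    nlinarith [Real.sin_sq_add_cos_sq (θ 0)]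
  obtain ⟨τ, S', hS', hτd, hτS, hτsurj, hτ0, hτm⟩ := famCyl_time hGc (fun t => hgpos _) hT hGper
  have hGinv : ∀ t, (G t)⁻¹ = nm (γ t) ^ 2 := by
    intro t
    have e1 : nm (γ t) ^ 2 = R t := by
      unfold nm
      rw [Real.sq_sqrt (by positivity)]
    have e2 : G t * R t = 1 := by
      rw [← hexp t]
      simp only [hGdef, hgdef]
      rw [← Real.exp_nat_mul, ← Real.exp_add]
      rw [show -2 * s t + ((2 : ℕ) : ℝ) * s t = 0 by push_cast; ring, Real.exp_zero]
    rw [e1]
    exact inv_eq_of_mul_eq_one_right e2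
  refine ⟨τ, fun u => (s (τ u), θ (τ u)), S', k, hS', hτ0, hτm, hτsurj, fun u => ?_, hτS,
    fun u => hcyl (τ u), fun u => ?_, fun u => ?_⟩
  · rw [← hGinv]
    exact hτd u
  · have e1 : HasDerivAt (fun t => (s t, θ t)) (s' (τ u), w (τ u)) (τ u) :=
      (hsd (τ u)).prodMk (hθd (τ u))
    have e2 := HasDerivAt.scomp u e1 (hτd u)
    refine e2.congr_deriv ?_
    have hG0 : G (τ u) ≠ 0 := (hgpos _).ne'
    rw [hs'F, hwF]
    ext
    · simp only [Prod.smul_fst, smul_eq_mul]
      rw [← mul_assoc, inv_mul_cancel₀ hG0, one_mul]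
    · simp only [Prod.smul_snd, smul_eq_mul]
      rw [← mul_assoc, inv_mul_cancel₀ hG0, one_mul]
  · have e1 := hθT (τ u)
    ext
    · simp only [hτS, hsper, Prod.fst_add, add_zero]
    · simp only [hτS, Prod.snd_add]
      linarith

/-- Proof. `γ`, `J` from `fam_curve`, `ψ`, `σ`, `T`, `k` from `cyl_lift_time` for `v = vfc (rotA μ a) = turn a (vfc μ)`
(`vfc_rotA`), `ν u = J (ψ u)`; `cf (turn a v) = turn a (cf v)` (`turn_cf`), `divc_cf`,
`nm (cf v p) = e^{ρ} nm (v (cyl p))`, `nm (cyl p) = e^ρ`. The integral: with `t = ψ u / τ` the left side is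
`∫⁻_{(0,1)} τ J(τt) g(γ(τt)) dt`, and the substitution `t = ψ u / τ`, `dt = e^{2ρ} du / τ` (for `lintegral`:
`MeasureTheory.lintegral_image_eq_lintegral_abs_deriv_mul` for the injective map `u ↦ ψ u / τ` on `Ioo 0 T`, image
`Ioo 0 1`). -/
theorem fam_cyl {D : ℕ} {μ : Pr D} {Ω : Set (ℝ × ℝ)} (F : Fam μ Ω) {s : ℝ} (hs : s ∈ F.J)
    (h0 : (0 : ℝ × ℝ) ∉ F.orb s) :
    ∃ (σ : ℝ → ℝ × ℝ) (T : ℝ) (k : ℤ) (ν : ℝ → ℝ),
      LeafVar (cf (vfc μ)) (F.a s) (F.a' s) σ T k ν ∧
      CylSol (turn (F.a s) (cf (vfc μ))) σ T k ∧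
      F.orb s = Set.range (fun t => cyl (σ t)) ∧
      ∀ g : ℝ × ℝ → ℝ≥0∞, Measurable g →
        ∫⁻ t in Set.Ioo (0 : ℝ) 1, ENNReal.ofReal (F.jac s t) * g (pth (F.Z s) t) =
          ∫⁻ t in Set.Ioc 0 T, ENNReal.ofReal (ν t) *
            (ENNReal.ofReal (Real.exp (2 * (σ t).1)) * g (cyl (σ t))) := by
  obtain ⟨γ, J, hγ, hγper, horb, hpth, hJ, hJper, hJpos, hjac⟩ := fam_curve F hs
  set b : ℝ := F.a s with hb
  set S : ℝ := F.τ s with hS
  have hSpos : 0 < S := F.tau_pos s hs
  have hv : vfc (rotA μ b) = turn b (vfc μ) := vfc_rotA μ b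
  have hγ0 : ∀ t, γ t ≠ 0 := by
    intro t hcon
    apply h0
    rw [horb]
    exact ⟨t, hcon⟩
  obtain ⟨ψ, σ, T, k, hT, hψ0, hψm, hψs, hψd, hψT, hcyl, hσ, hper⟩ :=
    cyl_lift_time (v := vfc (rotA μ b)) (contDiff_vfc _).continuous hSpos hγ hγper hγ0
  have hΦ : turn b (cf (vfc μ)) = cf (vfc (rotA μ b)) := by rw [turn_cf, hv]
  have hnm : ∀ u, nm (γ (ψ u)) = Real.exp (σ u).1 := by
    intro u
    rw [← hcyl u]
    unfold nm cyl
    simp only
    rw [show (Real.exp (σ u).1 * Real.cos (σ u).2) ^ 2 + (Real.exp (σ u).1 * Real.sin (σ u).2) ^ 2 =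
      Real.exp (σ u).1 ^ 2 * (Real.sin (σ u).2 ^ 2 + Real.cos (σ u).2 ^ 2) by ring,
      Real.sin_sq_add_cos_sq, mul_one, Real.sqrt_sq (Real.exp_pos _).le]
  have hE : ∀ x : ℝ, Real.exp (2 * x) = Real.exp x ^ 2 := by
    intro x
    rw [← Real.exp_nat_mul]
    norm_num
  have hder : ∀ t, HasDerivAt σ (turn b (cf (vfc μ)) (σ t)) t := by
    intro t
    rw [hΦ]
    exact hσ t
  have hne0 : vfc (rotA μ b) (γ 0) ≠ 0 := by
    intro hcon
    have h1 := F.jac_pos s hs 0
    have h2 : at' (F.Z s) 0 = γ 0 := by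
      have h3 := hpth 0 (Set.left_mem_Icc.2 zero_le_one)
      rw [mul_zero] at h3
      rw [← h3]
      unfold pth at'
      rw [Set.IccExtend_left, Set.IccExtend_left]
      rfl
    rw [h2, hcon] at h1
    unfold det2 at h1
    simp at h1
  have hψT0 : ψ T = S := by
    have := hψT 0
    rwa [zero_add, hψ0, zero_add] at this
  refine ⟨σ, T, k, fun u => J (ψ u), ⟨hT, hder, hper, fun t => hJpos _, fun t => ?_, fun t => ?_⟩,
    ⟨hT, hder, hper, ?_⟩, ?_, ?_⟩
  · show J (ψ (t + T)) = J (ψ t)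
    rw [hψT, hJper]
  · have e1 := (hJ (ψ t)).comp t (hψd t)
    refine e1.congr_deriv ?_
    have e2 : divc (turn b (cf (vfc μ))) (σ t) = nm (γ (ψ t)) ^ 2 *
        (pex (rotA μ b).1 (γ (ψ t)).1 (γ (ψ t)).2 + pey (rotA μ b).2 (γ (ψ t)).1 (γ (ψ t)).2) := by
      rw [hΦ, divc_cf, hcyl, hnm, hE]
    have e3 : nm (cf (vfc μ) (σ t)) ^ 2 = nm (γ (ψ t)) ^ 2 * nm (vfc μ (γ (ψ t))) ^ 2 := by
      unfold cf
      rw [hcyl]
      unfold nm wf
      simp only
      rw [Real.sq_sqrt (by positivity), Real.sq_sqrt (by positivity), Real.sq_sqrt (by positivity)]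
      ring
    rw [e2, e3]
    ring
  · by_contra hcon
    push Not at hcon
    have h1 : ∀ t, σ t = σ 0 := fun t => hcon t 0
    have h2 : σ = fun _ => σ 0 := funext h1
    have h3 : HasDerivAt σ 0 0 := by
      rw [h2]
      exact hasDerivAt_const _ _
    have h4 := (hσ 0).unique h3
    have h5 : nm (cf (vfc (rotA μ b)) (σ 0)) = 0 := by
      rw [h4]
      unfold nm
      simp
    have e3 : nm (cf (vfc (rotA μ b)) (σ 0)) ^ 2 =
        nm (γ (ψ 0)) ^ 2 * nm (vfc (rotA μ b) (γ (ψ 0))) ^ 2 := by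
      unfold cf
      rw [hcyl]
      unfold nm wf
      simp only
      rw [Real.sq_sqrt (by positivity), Real.sq_sqrt (by positivity), Real.sq_sqrt (by positivity)]
      ring
    rw [h5, hψ0, show (0 : ℝ) ^ 2 = 0 by norm_num] at e3
    have h6 : 0 < nm (γ 0) := by
      have := hnm 0
      rw [hψ0] at this
      rw [this]
      exact Real.exp_pos _
    have h7 : nm (vfc (rotA μ b) (γ 0)) ^ 2 = 0 := by
      rcases mul_eq_zero.1 e3.symm with h | h
      · exact absurd h (by positivity)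
      · exact h
    apply hne0
    unfold nm at h7
    rw [Real.sq_sqrt (by positivity)] at h7
    ext
    · simp only [Prod.fst_zero]
      nlinarith [sq_nonneg (vfc (rotA μ b) (γ 0)).1, sq_nonneg (vfc (rotA μ b) (γ 0)).2]
    · simp only [Prod.snd_zero]
      nlinarith [sq_nonneg (vfc (rotA μ b) (γ 0)).1, sq_nonneg (vfc (rotA μ b) (γ 0)).2]
  · rw [horb]
    ext z
    constructor
    · rintro ⟨t, rfl⟩
      obtain ⟨u, hu⟩ := hψs t
      exact ⟨u, by simp only [hcyl, hu]⟩
    · rintro ⟨u, rfl⟩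
      exact ⟨ψ u, by simp only [hcyl]⟩
  · intro g _
    have himg : (fun u => ψ u / S) '' Set.Ioo 0 T = Set.Ioo 0 1 := by
      ext x
      constructor
      · rintro ⟨u, ⟨hu0, hu1⟩, rfl⟩
        have h1 : ψ 0 < ψ u := hψm hu0
        have h2 : ψ u < ψ T := hψm hu1
        rw [hψ0] at h1
        rw [hψT0] at h2
        exact ⟨by positivity, (div_lt_one hSpos).2 h2⟩
      · rintro ⟨hx0, hx1⟩
        obtain ⟨u, hu⟩ := hψs (x * S)
        refine ⟨u, ⟨?_, ?_⟩, ?_⟩
        · apply hψm.lt_iff_lt.1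
          rw [hψ0, hu]
          positivity
        · apply hψm.lt_iff_lt.1
          rw [hψT0, hu]
          nlinarith
        · simp only [hu]
          field_simp
    have hinj : Set.InjOn (fun u => ψ u / S) (Set.Ioo 0 T) := by
      intro x _ y _ hxy
      apply hψm.injective
      have hS0 : S ≠ 0 := hSpos.ne'
      simpa [div_left_inj' hS0] using hxy
    rw [← himg, MeasureTheory.lintegral_image_eq_lintegral_abs_deriv_mul measurableSet_Ioo
      (fun u _ => ((hψd u).div_const S).hasDerivWithinAt) hinj,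
      MeasureTheory.restrict_Ioo_eq_restrict_Ioc]
    refine setLIntegral_congr_fun measurableSet_Ioc fun u hu => ?_
    have hu1 : ψ u / S ∈ Set.Icc (0 : ℝ) 1 := by
      have h1 : ψ 0 < ψ u := hψm hu.1
      have h2 : ψ u ≤ ψ T := hψm.monotone hu.2
      rw [hψ0] at h1
      rw [hψT0] at h2
      exact ⟨by positivity, (div_le_one hSpos).2 h2⟩
    have e1 : S * (ψ u / S) = ψ u := by field_simp
    simp only
    rw [hjac _ hu1, hpth _ hu1, e1, hcyl, ← mul_assoc, ← mul_assoc,
      ← ENNReal.ofReal_mul (abs_nonneg _), ← ENNReal.ofReal_mul (hJpos _).le, hE, ← hnm]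
    congr 2
    rw [abs_of_nonneg (by positivity)]
    field_simp

end Pool.Agent.Lib.MP_95e7ec_an
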