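import Mathlib

/-!
# Ry, Loop: the loop lemma

`ν > 0` and `A` are `T`-periodic, `ν' = d ν + a' R²`, `A' = d A + ε R²`, `θ' = m`, `|A - m| ≤ v R`;
`ε` is small (`|ε| ≤ e`) where `τ(θ) < 1` and where `m < x₁ R`, and `|ε| ≤ E` everywhere; then
`|a'| A ≤ 2 e ν` wherever `A > 0`.
-/

set_option autoImplicit false

open Set Filter Topology MeasureTheory

namespace Pool.Agent.Lib.MP_95e7ec_an

/-- the data of the loop lemma -/
structure LoopData (T : ℝ) (k : ℕ) (θ m ν A R d ε τ : ℝ → ℝ) (a' e E x₁ v β : ℝ) : Prop where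
  T_pos : 0 < T
  k_pos : 0 < k
  tau_cont : Continuous τ
  tau_nonneg : ∀ x, 0 ≤ τ x
  tau_le : ∀ x, τ x ≤ 1
  tau_per : ∀ x, τ (x + 2 * Real.pi) = τ x
  tau_int : ∫ x in (0 : ℝ)..(2 * Real.pi), τ x ≤ β
  th_der : ∀ t, HasDerivAt θ (m t) t
  th_per : ∀ t, θ (t + T) = θ t + 2 * Real.pi * k
  nu_per : ∀ t, ν (t + T) = ν t
  A_per : ∀ t, A (t + T) = A t
  nu_pos : ∀ t, 0 < ν t
  R_pos : ∀ t, 0 < R t
  nu_der : ∀ t, HasDerivAt ν (d t * ν t + a' * R t ^ 2) t
  A_der : ∀ t, HasDerivAt A (d t * A t + ε t * R t ^ 2) t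
  m_le : ∀ t, |m t| ≤ R t
  A_m : ∀ t, |A t - m t| ≤ v * R t
  eps_le : ∀ t, |ε t| ≤ E
  eps_good : ∀ t, τ (θ t) < 1 ∨ m t < x₁ * R t → |ε t| ≤ e
  e_pos : 0 < e
  e_le : e ≤ 1 / 10
  x_pos : 0 < x₁
  x_le : x₁ ≤ 1 / 2
  v_nonneg : 0 ≤ v
  v_le : v ≤ x₁ / 4
  K_beta : (2 * E / x₁ ^ 2 + e) * β ≤ e / 2
  K_v : (2 * E / x₁ ^ 2 + e) * v ^ 2 ≤ e / 2

/-- the primitive of `τ` -/
theorem loop_prim {τ : ℝ → ℝ} {β : ℝ} (hc : Continuous τ) (h0 : ∀ x, 0 ≤ τ x)
    (hper : ∀ x, τ (x + 2 * Real.pi) = τ x) (hint : ∫ x in (0 : ℝ)..(2 * Real.pi), τ x ≤ β) :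
    ∃ M : ℝ → ℝ, (∀ x, HasDerivAt M (τ x) x) ∧ Monotone M ∧
      (∀ (j : ℕ) (x : ℝ), M (x + 2 * Real.pi * j) - M x ≤ β * j) ∧
      ∀ x y, x ≤ y → M y - M x ≤ β * ((y - x) / (2 * Real.pi) + 1) := by
  have hpi : 0 < 2 * Real.pi := by positivity
  have hd : ∀ x, HasDerivAt (fun x => ∫ s in (0 : ℝ)..x, τ s) (τ x) x := fun x =>
    intervalIntegral.integral_hasDerivAt_right (hc.intervalIntegrable _ _)
      (hc.stronglyMeasurableAtFilter _ _) hc.continuousAt
  set M : ℝ → ℝ := fun x => ∫ s in (0 : ℝ)..x, τ s with hM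
  have hmono : Monotone M := monotone_of_deriv_nonneg (fun x => (hd x).differentiableAt)
    fun x => by rw [(hd x).deriv]; exact h0 x
  have hp : Function.Periodic τ (2 * Real.pi) := hper
  have hβ : 0 ≤ β := le_trans (intervalIntegral.integral_nonneg hpi.le fun x _ => h0 x) hint
  have hone : ∀ x, M (x + 2 * Real.pi) - M x ≤ β := by
    intro x
    have h1 : M (x + 2 * Real.pi) - M x = ∫ s in x..(x + 2 * Real.pi), τ s := by
      rw [hM]
      exact intervalIntegral.integral_interval_sub_left (hc.intervalIntegrable _ _)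
        (hc.intervalIntegrable _ _)
    rw [h1, hp.intervalIntegral_add_eq x 0, zero_add]
    exact hint
  have hj : ∀ (j : ℕ) (x : ℝ), M (x + 2 * Real.pi * j) - M x ≤ β * j := by
    intro j
    induction j with
    | zero => intro x; simp
    | succ j ih =>
      intro x
      have h1 := ih x
      have h2 := hone (x + 2 * Real.pi * j)
      have h3 : x + 2 * Real.pi * j + 2 * Real.pi = x + 2 * Real.pi * ((j + 1 : ℕ) : ℝ) := by
        push_cast; ring
      rw [h3] at h2
      push_cast at h2 ⊢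
      linarith
  refine ⟨M, hd, hmono, hj, ?_⟩
  intro x y hxy
  set j : ℕ := ⌈(y - x) / (2 * Real.pi)⌉₊ with hjdef
  have h0' : 0 ≤ (y - x) / (2 * Real.pi) := div_nonneg (by linarith) hpi.le
  have h1 : (y - x) / (2 * Real.pi) ≤ j := Nat.le_ceil _
  have h2 : (j : ℝ) ≤ (y - x) / (2 * Real.pi) + 1 := (Nat.ceil_lt_add_one h0').le
  have h3 : y ≤ x + 2 * Real.pi * j := by
    rw [div_le_iff₀ hpi] at h1
    linarith
  have h4 := hmono h3
  have h5 := hj j x
  have h6 : β * j ≤ β * ((y - x) / (2 * Real.pi) + 1) := mul_le_mul_of_nonneg_left h2 hβ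
  linarith

/-- the derivative of `log (ν/A)` and the two potentials -/
theorem loop_pot {E e x₁ v K R A m τ ε h b c : ℝ} (hR : 0 < R) (hA : 0 < A) (hm : |m| ≤ R)
    (hAm : |A - m| ≤ v * R) (hτ0 : 0 ≤ τ) (hτ1 : τ ≤ 1) (hE : |ε| ≤ E)
    (hgood : τ < 1 ∨ m < x₁ * R → |ε| ≤ e) (he : 0 < e) (he1 : e ≤ 1 / 10) (hx : 0 < x₁)
    (hx1 : x₁ ≤ 1 / 2) (hv : 0 ≤ v) (hv1 : v ≤ x₁ / 4) (hK : K = 2 * E / x₁ ^ 2 + e)
    (hKv : K * v ^ 2 ≤ e / 2) (hb : 0 < b) (hh : 0 < h) (hc : c ≤ 1.11) (hhc : h * (2 * e) ≤ c * b) :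
    -(R ^ 2 / A) * (b / h + ε) - K * (τ * m) ≤ 0 ∧
      -(R ^ 2 / A) * (b / h + ε) - K * (τ * m) + 0.7 * e * m ≤ 0 := by
  have hE0 : 0 ≤ E := (abs_nonneg _).trans hE
  have hK0 : 0 < K := by rw [hK]; positivity
  have hRA : 0 < R ^ 2 / A := by positivity
  have hAm' := abs_le.1 hAm
  have hm' := abs_le.1 hm
  -- lower bound for `b / h`
  have hbh : 1.8 * e ≤ b / h := by
    rw [le_div_iff₀ hh]
    have h1 : h * (2 * e) ≤ 1.11 * b := hhc.trans (mul_le_mul_of_nonneg_right hc hb.le)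
    nlinarith
  by_cases hg : τ < 1 ∨ m < x₁ * R
  · have hε := abs_le.1 (hgood hg)
    have h1 : 0.8 * e ≤ b / h + ε := by linarith [hε.1]
    have h2 : -(R ^ 2 / A) * (b / h + ε) ≤ -(0.8 * e * (R ^ 2 / A)) := by
      nlinarith [mul_le_mul_of_nonneg_left h1 hRA.le]
    rcases le_or_gt 0 m with hm0 | hm0
    · have h3 : 0 ≤ K * (τ * m) := by positivity
      constructor
      · have : 0 ≤ 0.8 * e * (R ^ 2 / A) := by positivity
        linarith
      · -- `A ≤ (1+v) R`, `m ≤ R`
        have h4 : A ≤ (1 + v) * R := by linarith [hAm'.2, hm'.2]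
        have h5 : R / (1 + v) ≤ R ^ 2 / A := by
          rw [div_le_div_iff₀ (by linarith) hA]
          nlinarith
        have h6 : 0.7 * m ≤ 0.8 * (R / (1 + v)) := by
          have h7 : 7 / 8 ≤ 1 / (1 + v) := by
            rw [div_le_div_iff₀ (by norm_num) (by linarith)]
            linarith
          have h8 : R / (1 + v) = R * (1 / (1 + v)) := by ring
          rw [h8]
          nlinarith [hm'.2]
        have h9 : 0.7 * e * m ≤ 0.8 * e * (R ^ 2 / A) := by
          have := mul_le_mul_of_nonneg_left (h6.trans (mul_le_mul_of_nonneg_left h5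
            (by norm_num : (0 : ℝ) ≤ 0.8))) he.le
          linarith
        linarith
    · -- `m < 0`, `A > 0`
      have h3 : A ≤ v * R := by linarith [hAm'.2]
      have h4 : -m ≤ v * R := by linarith [hAm'.2]
      have hvpos : 0 < v := by
        by_contra hcon
        have : v = 0 := le_antisymm (not_lt.1 hcon) hv
        rw [this, zero_mul] at h3
        linarith
      have h5 : R / v ≤ R ^ 2 / A := by
        rw [div_le_div_iff₀ hvpos hA]
        nlinarith
      have h6 : -(K * (τ * m)) ≤ K * (v * R) := by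
        have : -(τ * m) ≤ v * R := by nlinarith
        nlinarith
      have h7 : K * (v * R) ≤ 0.8 * e * (R / v) := by
        have h8 : K * (v * R) = K * v ^ 2 * (R / v) := by
          field_simp
        rw [h8]
        have h9 : 0 ≤ R / v := by positivity
        nlinarith [mul_le_mul_of_nonneg_right hKv h9]
      have h8 : 0.8 * e * (R / v) ≤ 0.8 * e * (R ^ 2 / A) :=
        mul_le_mul_of_nonneg_left h5 (by positivity)
      have h9 : 0.7 * e * m ≤ 0 := by nlinarith
      constructor <;> linarith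
  · push Not at hg
    obtain ⟨hτ, hmx⟩ := hg
    have hτe : τ = 1 := le_antisymm hτ1 hτ
    have hε := abs_le.1 hE
    have h1 : -(R ^ 2 / A) * (b / h + ε) ≤ R ^ 2 / A * E := by
      have h2 : 0 ≤ b / h := by positivity
      have h3 : -E ≤ b / h + ε := by linarith [hε.1]
      nlinarith [mul_le_mul_of_nonneg_left h3 hRA.le]
    have h4 : 3 / 4 * (x₁ * R) ≤ A := by nlinarith [hAm'.1]
    have h5 : R ^ 2 / A ≤ 4 / 3 * (R / x₁) := by
      have h6 : 4 / 3 * (R / x₁) = R ^ 2 / (3 / 4 * (x₁ * R)) := by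
        field_simp
      rw [h6]
      exact div_le_div_of_nonneg_left (by positivity) (by positivity) h4
    have h6 : R ^ 2 / A * E ≤ 4 / 3 * (R / x₁) * E := mul_le_mul_of_nonneg_right h5 hE0
    have h7 : 4 / 3 * (R / x₁) * E ≤ (K - 0.7 * e) * (x₁ * R) := by
      have h8 : (K - 0.7 * e) * (x₁ * R) = 2 * (E * (R / x₁)) + 0.3 * e * (x₁ * R) := by
        rw [hK]
        field_simp
        ring
      rw [h8]
      have h9 : 0 ≤ E * (R / x₁) := by positivity
      have h10 : 0 ≤ 0.3 * e * (x₁ * R) := by positivity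
      nlinarith
    have hKe : 0 ≤ K - 0.7 * e := by
      rw [hK]
      have : 0 ≤ 2 * E / x₁ ^ 2 := by positivity
      linarith
    have h8 : (K - 0.7 * e) * (x₁ * R) ≤ (K - 0.7 * e) * m := mul_le_mul_of_nonneg_left hmx hKe
    have hm0 : 0 < m := lt_of_lt_of_le (by positivity) hmx
    rw [hτe, one_mul]
    constructor
    · have : 0 ≤ 0.7 * e * m := by positivity
      nlinarith
    · nlinarith

/-- the loop lemma, forward case -/
theorem loop_fwd {T : ℝ} {k : ℕ} {θ m ν A R d ε τ : ℝ → ℝ} {a' e E x₁ v β : ℝ}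
    (D : LoopData T k θ m ν A R d ε τ a' e E x₁ v β) {t₀ : ℝ} (hA : 0 < A t₀) :
    -a' * A t₀ ≤ 2 * e * ν t₀ := by
  by_contra hcon
  push Not at hcon
  obtain ⟨M, hMd, hMm, hMj, hMxy⟩ := loop_prim D.tau_cont D.tau_nonneg D.tau_per D.tau_int
  have hpi : 0 < 2 * Real.pi := by positivity
  set K : ℝ := 2 * E / x₁ ^ 2 + e with hK
  have hE0 : 0 ≤ E := (abs_nonneg _).trans (D.eps_le 0)
  have he := D.e_pos
  have hK0 : 0 < K := by
    have := D.x_pos
    rw [hK]; positivity
  set b : ℝ := -a' with hb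
  have hν0 := D.nu_pos t₀
  have hb0 : 0 < b := by
    by_contra hc
    push Not at hc
    have : b * A t₀ ≤ 0 := mul_nonpos_of_nonpos_of_nonneg hc hA.le
    have h2 : 0 < 2 * e * ν t₀ := by positivity
    linarith
  -- the bad set
  set c : ℝ := 1.11 * (ν t₀ / A t₀) with hc
  have hc0 : 0 < c := by positivity
  have hcA : Continuous A := continuous_iff_continuousAt.2 fun t => (D.A_der t).continuousAt
  have hcν : Continuous ν := continuous_iff_continuousAt.2 fun t => (D.nu_der t).continuousAt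
  -- on an interval without bad points the potentials decrease
  have key : ∀ t₁, t₀ ≤ t₁ → (∀ t ∈ Set.Icc t₀ t₁, ν t ≤ c * A t) →
      ν t₁ / A t₁ ≤ ν t₀ / A t₀ * Real.exp (K * (M (θ t₁) - M (θ t₀))) ∧
      ν t₁ / A t₁ ≤ ν t₀ / A t₀ *
        Real.exp (K * (M (θ t₁) - M (θ t₀)) - 0.7 * e * (θ t₁ - θ t₀)) := by
    intro t₁ h01 hgood
    have hApos : ∀ t ∈ Set.Icc t₀ t₁, 0 < A t := by
      intro t ht
      have h1 := hgood t ht
      have h2 := D.nu_pos t
      by_contra hc'
      push Not at hc'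
      nlinarith
    have hder : ∀ t ∈ Set.Icc t₀ t₁, HasDerivAt (fun t => Real.log (ν t / A t))
        (-(R t ^ 2 / A t) * (b / (ν t / A t) + ε t)) t := by
      intro t ht
      have hAt := hApos t ht
      have hνt := D.nu_pos t
      have h1 := ((D.nu_der t).div (D.A_der t) hAt.ne').log (div_pos hνt hAt).ne'
      refine h1.congr_deriv ?_
      simp only [Pi.div_apply]
      rw [hb]
      field_simp
      ring
    have hpot : ∀ t ∈ Set.Icc t₀ t₁,
        -(R t ^ 2 / A t) * (b / (ν t / A t) + ε t) - K * (τ (θ t) * m t) ≤ 0 ∧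
        -(R t ^ 2 / A t) * (b / (ν t / A t) + ε t) - K * (τ (θ t) * m t) + 0.7 * e * m t ≤ 0 := by
      intro t ht
      have hAt := hApos t ht
      have hνt := D.nu_pos t
      refine loop_pot (c := 1.11) (D.R_pos t) hAt (D.m_le t) (D.A_m t) (D.tau_nonneg _)
        (D.tau_le _) (D.eps_le t) (D.eps_good t) he D.e_le D.x_pos D.x_le D.v_nonneg D.v_le rfl
        D.K_v hb0 (div_pos hνt hAt) le_rfl ?_
      have h1 : ν t / A t ≤ c := by
        rw [div_le_iff₀ hAt]
        exact hgood t ht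
      have h2 : ν t₀ / A t₀ * (2 * e) ≤ b := by
        rw [div_mul_eq_mul_div, div_le_iff₀ hA]
        linarith
      calc ν t / A t * (2 * e) ≤ c * (2 * e) := mul_le_mul_of_nonneg_right h1 (by positivity)
        _ = 1.11 * (ν t₀ / A t₀ * (2 * e)) := by rw [hc]; ring
        _ ≤ 1.11 * b := by linarith
    have hMθ : ∀ t, HasDerivAt (fun t => M (θ t)) (τ (θ t) * m t) t := fun t =>
      (hMd (θ t)).comp t (D.th_der t)
    -- first potential
    have hd1 : ∀ t ∈ Set.Icc t₀ t₁, HasDerivAt (fun t => Real.log (ν t / A t) - K * M (θ t))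
        (-(R t ^ 2 / A t) * (b / (ν t / A t) + ε t) - K * (τ (θ t) * m t)) t := fun t ht =>
      (hder t ht).sub ((hMθ t).const_mul K)
    have hd2 : ∀ t ∈ Set.Icc t₀ t₁,
        HasDerivAt (fun t => Real.log (ν t / A t) - K * M (θ t) + 0.7 * e * θ t)
        (-(R t ^ 2 / A t) * (b / (ν t / A t) + ε t) - K * (τ (θ t) * m t) + 0.7 * e * m t) t :=
      fun t ht => (hd1 t ht).add ((D.th_der t).const_mul (0.7 * e))
    have hA1 : AntitoneOn (fun t => Real.log (ν t / A t) - K * M (θ t)) (Set.Icc t₀ t₁) := by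
      refine antitoneOn_of_deriv_nonpos (convex_Icc _ _) ?_ ?_ ?_
      · intro t ht
        exact (hd1 t ht).continuousAt.continuousWithinAt
      · intro t ht
        exact (hd1 t (interior_subset ht)).differentiableAt.differentiableWithinAt
      · intro t ht
        rw [(hd1 t (interior_subset ht)).deriv]
        exact (hpot t (interior_subset ht)).1
    have hA2 : AntitoneOn (fun t => Real.log (ν t / A t) - K * M (θ t) + 0.7 * e * θ t)
        (Set.Icc t₀ t₁) := by
      refine antitoneOn_of_deriv_nonpos (convex_Icc _ _) ?_ ?_ ?_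
      · intro t ht
        exact (hd2 t ht).continuousAt.continuousWithinAt
      · intro t ht
        exact (hd2 t (interior_subset ht)).differentiableAt.differentiableWithinAt
      · intro t ht
        rw [(hd2 t (interior_subset ht)).deriv]
        exact (hpot t (interior_subset ht)).2
    have hl0 : t₀ ∈ Set.Icc t₀ t₁ := ⟨le_rfl, h01⟩
    have hl1 : t₁ ∈ Set.Icc t₀ t₁ := ⟨h01, le_rfl⟩
    have g1 := hA1 hl0 hl1 h01
    have g2 := hA2 hl0 hl1 h01
    simp only at g1 g2
    have hp0 : 0 < ν t₀ / A t₀ := div_pos hν0 hA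
    have hp1 : 0 < ν t₁ / A t₁ := div_pos (D.nu_pos t₁) (hApos t₁ hl1)
    constructor
    · have h3 : Real.log (ν t₁ / A t₁) ≤
          Real.log (ν t₀ / A t₀ * Real.exp (K * (M (θ t₁) - M (θ t₀)))) := by
        rw [Real.log_mul hp0.ne' (Real.exp_pos _).ne', Real.log_exp]
        linarith
      exact (Real.log_le_log_iff hp1 (by positivity)).1 h3
    · have h3 : Real.log (ν t₁ / A t₁) ≤ Real.log (ν t₀ / A t₀ *
          Real.exp (K * (M (θ t₁) - M (θ t₀)) - 0.7 * e * (θ t₁ - θ t₀))) := by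
        rw [Real.log_mul hp0.ne' (Real.exp_pos _).ne', Real.log_exp]
        linarith
      exact (Real.log_le_log_iff hp1 (by positivity)).1 h3
  -- there is no bad point
  have hno : ∀ t ∈ Set.Icc t₀ (t₀ + T), ν t < c * A t := by
    by_contra hbad
    push Not at hbad
    obtain ⟨t₂, ht₂, hbad₂⟩ := hbad
    set B : Set ℝ := {t | t ∈ Set.Icc t₀ (t₀ + T) ∧ c * A t ≤ ν t} with hB
    have hBc : IsCompact B := by
      have h1 : IsClosed {t | c * A t ≤ ν t} := isClosed_le (hcA.const_mul c) hcν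
      exact isCompact_Icc.inter_right h1
    obtain ⟨s, hs, hmin⟩ := hBc.exists_isLeast ⟨t₂, ht₂, hbad₂⟩
    have hst₀ : t₀ ≠ s := by
      intro h
      have h1 := hs.2
      rw [← h, hc] at h1
      have h2 : 1.11 * (ν t₀ / A t₀) * A t₀ = 1.11 * ν t₀ := by field_simp
      rw [h2] at h1
      linarith
    have h0s : t₀ < s := lt_of_le_of_ne hs.1.1 hst₀
    have hlt : ∀ t ∈ Set.Ico t₀ s, ν t < c * A t := by
      intro t ht
      by_contra hc'
      push Not at hc'
      have := hmin ⟨⟨ht.1, ht.2.le.trans hs.1.2⟩, hc'⟩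
      exact absurd ht.2 (not_lt.2 this)
    have hle : ν s ≤ c * A s := by
      have h1 : Tendsto (fun t => c * A t - ν t) (𝓝[<] s) (𝓝 (c * A s - ν s)) :=
        (((hcA.const_mul c).sub hcν).continuousAt (x := s)).tendsto.mono_left nhdsWithin_le_nhds
      have h2 : 0 ≤ c * A s - ν s := by
        refine ge_of_tendsto h1 ?_
        filter_upwards [Ico_mem_nhdsLT h0s] with t ht
        exact (sub_pos.2 (hlt t ht)).le
      linarith
    have hgd : ∀ t ∈ Set.Icc t₀ s, ν t ≤ c * A t := by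
      intro t ht
      rcases eq_or_lt_of_le ht.2 with h | h
      · rw [h]; exact hle
      · exact (hlt t ⟨ht.1, h⟩).le
    obtain ⟨k1, k2⟩ := key s h0s.le hgd
    have hAs : 0 < A s := by
      have h1 := D.nu_pos s
      by_contra hc'
      push Not at hc'
      nlinarith
    have hKβ : K * β ≤ e / 2 := D.K_beta
    have hβ0 : 0 ≤ β := by
      have h1 := hMj 1 0
      have h2 := hMm (show (0 : ℝ) ≤ 0 + 2 * Real.pi * ((1 : ℕ) : ℝ) by push_cast; linarith)
      push_cast at h1 h2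
      linarith
    have hexp : ν s / A s ≤ ν t₀ / A t₀ * Real.exp (e / 2) := by
      have hp0 : 0 < ν t₀ / A t₀ := div_pos hν0 hA
      rcases le_or_gt (θ t₀) (θ s) with h | h
      · refine k2.trans (mul_le_mul_of_nonneg_left (Real.exp_le_exp.2 ?_) hp0.le)
        have h3 := hMxy _ _ h
        have h4 : K * (M (θ s) - M (θ t₀)) ≤ K * (β * ((θ s - θ t₀) / (2 * Real.pi) + 1)) :=
          mul_le_mul_of_nonneg_left h3 hK0.le
        have h5 : K * (β * ((θ s - θ t₀) / (2 * Real.pi) + 1)) =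
            K * β * ((θ s - θ t₀) / (2 * Real.pi)) + K * β := by ring
        have h6 : 0 ≤ (θ s - θ t₀) / (2 * Real.pi) := div_nonneg (by linarith) hpi.le
        have h7 : K * β * ((θ s - θ t₀) / (2 * Real.pi)) ≤ e * ((θ s - θ t₀) / (2 * Real.pi)) :=
          mul_le_mul_of_nonneg_right (hKβ.trans (by linarith)) h6
        have h8 : (θ s - θ t₀) / (2 * Real.pi) ≤ 0.7 * (θ s - θ t₀) := by
          rw [div_le_iff₀ hpi]
          have hpi3 := Real.pi_gt_three
          nlinarith
        have h9 : e * ((θ s - θ t₀) / (2 * Real.pi)) ≤ e * (0.7 * (θ s - θ t₀)) :=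
          mul_le_mul_of_nonneg_left h8 he.le
        linarith
      · refine k1.trans (mul_le_mul_of_nonneg_left (Real.exp_le_exp.2 ?_) hp0.le)
        have h3 := hMm h.le
        nlinarith
    have hexp2 : Real.exp (e / 2) ≤ 1.1 := by
      have h1 : Real.exp (e / 2) ≤ Real.exp (1 / 20) :=
        Real.exp_le_exp.2 (by linarith [D.e_le])
      have h2 : Real.exp (1 / 20) ^ 20 ≤ 1.1 ^ 20 := by
        rw [← Real.exp_nat_mul]
        norm_num
        have := Real.exp_one_lt_d9
        linarith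
      exact h1.trans (le_of_pow_le_pow_left₀ (by norm_num) (by norm_num) h2)
    have h1 : ν s / A s < c := by
      have hp0 : 0 < ν t₀ / A t₀ := div_pos hν0 hA
      rw [hc]
      nlinarith
    rw [div_lt_iff₀ hAs] at h1
    exact absurd hs.2 (not_le.2 h1)
  -- the contradiction after one turn
  have hT := D.T_pos
  obtain ⟨-, k2⟩ := key (t₀ + T) (by linarith) fun t ht => (hno t ht).le
  rw [D.nu_per, D.A_per, D.th_per] at k2
  have hp0 : 0 < ν t₀ / A t₀ := div_pos hν0 hA
  have h1 : (1 : ℝ) ≤ Real.exp (K * (M (θ t₀ + 2 * Real.pi * k) - M (θ t₀)) -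
      0.7 * e * (θ t₀ + 2 * Real.pi * k - θ t₀)) := by
    by_contra hc'
    push Not at hc'
    nlinarith
  have h2 := Real.one_le_exp_iff.1 h1
  have h3 := hMj k (θ t₀)
  have h4 : K * (M (θ t₀ + 2 * Real.pi * k) - M (θ t₀)) ≤ K * (β * k) :=
    mul_le_mul_of_nonneg_left h3 hK0.le
  have h5 : K * (β * k) ≤ e * k := by
    have h51 := mul_le_mul_of_nonneg_right D.K_beta (Nat.cast_nonneg (α := ℝ) k)
    have h52 : e / 2 * k ≤ e * k := mul_le_mul_of_nonneg_right (by linarith) (Nat.cast_nonneg k)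
    calc K * (β * k) = (2 * E / x₁ ^ 2 + e) * β * k := by rw [hK]; ring
      _ ≤ e * k := h51.trans h52
  have hk : (0 : ℝ) < k := by exact_mod_cast D.k_pos
  have hpi3 := Real.pi_gt_three
  have h6 : e * k < 0.7 * e * (2 * Real.pi * k) := by
    have : 0 < e * k := by positivity
    nlinarith
  have h7 : θ t₀ + 2 * Real.pi * k - θ t₀ = 2 * Real.pi * k := by ring
  rw [h7] at h2
  linarith

/-- The loop lemma. -/
theorem loop_lemma {T : ℝ} {k : ℕ} {θ m ν A R d ε τ : ℝ → ℝ} {a' e E x₁ v β : ℝ}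
    (D : LoopData T k θ m ν A R d ε τ a' e E x₁ v β) {t₀ : ℝ} (hA : 0 < A t₀) :
    |a'| * A t₀ ≤ 2 * e * ν t₀ := by
  have h1 := loop_fwd D hA
  have hper' : ∀ {f : ℝ → ℝ}, (∀ t, f (t + T) = f t) → ∀ t, f (-(t + T)) = f (-t) := by
    intro f hf t
    have := hf (-(t + T))
    rw [← this]
    congr 1
    ring
  have hneg : ∀ {f : ℝ → ℝ} {f' t : ℝ}, HasDerivAt f f' (-t) →
      HasDerivAt (fun s => f (-s)) (-f') t := by
    intro f f' t hf
    have := hf.comp t (hasDerivAt_neg t)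
    simpa [Function.comp_def] using this
  have D' : LoopData T k (fun t => -θ (-t)) (fun t => m (-t)) (fun t => ν (-t))
      (fun t => A (-t)) (fun t => R (-t)) (fun t => -d (-t)) (fun t => -ε (-t))
      (fun x => τ (-x)) (-a') e E x₁ v β := by
    refine ⟨D.T_pos, D.k_pos, D.tau_cont.comp continuous_neg, fun x => D.tau_nonneg _,
      fun x => D.tau_le _, ?_, ?_, ?_, ?_, hper' D.nu_per, hper' D.A_per, fun t => D.nu_pos _,
      fun t => D.R_pos _, ?_, ?_, fun t => D.m_le _, fun t => D.A_m _, ?_, ?_, D.e_pos, D.e_le,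
      D.x_pos, D.x_le, D.v_nonneg, D.v_le, D.K_beta, D.K_v⟩
    · intro x
      have := D.tau_per (-(x + 2 * Real.pi))
      rw [← this]
      congr 1
      ring
    · have h2 : ∫ x in (0 : ℝ)..(2 * Real.pi), τ (-x) = ∫ x in (-(2 * Real.pi))..0, τ x := by
        rw [intervalIntegral.integral_comp_neg]
        simp
      rw [h2]
      have hp : Function.Periodic τ (2 * Real.pi) := D.tau_per
      have h3 := hp.intervalIntegral_add_eq (-(2 * Real.pi)) 0
      rw [neg_add_cancel, zero_add] at h3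
      rw [h3]
      exact D.tau_int
    · intro t
      have := (hneg (D.th_der (-t))).neg
      rw [neg_neg] at this
      exact this
    · intro t
      have := D.th_per (-(t + T))
      have h2 : -(t + T) + T = -t := by ring
      rw [h2] at this
      linarith
    · intro t
      refine (hneg (D.nu_der (-t))).congr_deriv ?_
      ring
    · intro t
      refine (hneg (D.A_der (-t))).congr_deriv ?_
      ring
    · intro t
      rw [abs_neg]
      exact D.eps_le _
    · intro t ht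
      rw [abs_neg]
      refine D.eps_good _ ?_
      simpa using ht
  have h2 := loop_fwd D' (t₀ := -t₀) (by simpa using hA)
  simp only [neg_neg] at h2
  rcases abs_cases a' with ⟨h, _⟩ | ⟨h, _⟩ <;> rw [h] <;> linarith

end Pool.Agent.Lib.MP_95e7ec_an
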