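import Mathlib
import Pool.Agent.Lib.MP_95e7ec_an.Ry.Loop
import Pool.Agent.Lib.MP_95e7ec_an.Ry.LDefs
import Pool.Agent.Lib.MP_95e7ec_an.AvgBasic

/-!
# Ry, LeafLoop: the loop lemma for the closed orbits in a frame
-/

set_option autoImplicit false

open Set Filter Topology MeasureTheory
open scoped ContDiff ENNReal

namespace Pool.Agent.Lib.MP_95e7ec_an

/-- the derivative of a scalar function along a curve in terms of the partial derivatives -/
theorem LeafLoop_chain {g : ℝ × ℝ → ℝ} {σ : ℝ → ℝ × ℝ} {t : ℝ} {w : ℝ × ℝ}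
    (hσ : HasDerivAt σ w t) (hg : DifferentiableAt ℝ g (σ t)) :
    HasDerivAt (fun s => g (σ s)) (w.1 * d1 g (σ t) + w.2 * d2 g (σ t)) t := by
  have h1 := hg.hasFDerivAt.comp_hasDerivAt t hσ
  refine h1.congr_deriv ?_
  have h2 : w = w.1 • ((1 : ℝ), (0 : ℝ)) + w.2 • ((0 : ℝ), (1 : ℝ)) := by
    ext <;> simp
  calc (fderiv ℝ g (σ t)) w = (fderiv ℝ g (σ t)) (w.1 • ((1 : ℝ), (0 : ℝ)) +
        w.2 • ((0 : ℝ), (1 : ℝ))) := by rw [← h2]
    _ = w.1 * d1 g (σ t) + w.2 * d2 g (σ t) := by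
        rw [map_add, map_smul, map_smul]
        rfl

theorem LeafLoop_turn1 {Φ : ℝ × ℝ → ℝ × ℝ} (hΦ : ContDiff ℝ 1 Φ) (b : ℝ) (p : ℝ × ℝ) :
    d1 (fun q => (turn b Φ q).1) p =
        Real.cos b * d1 (fun q => (Φ q).1) p - Real.sin b * d1 (fun q => (Φ q).2) p ∧
      d1 (fun q => (turn b Φ q).2) p =
        Real.sin b * d1 (fun q => (Φ q).1) p + Real.cos b * d1 (fun q => (Φ q).2) p := by
  have h1 : DifferentiableAt ℝ (fun q => (Φ q).1) p :=
    (hΦ.fst.differentiable one_ne_zero).differentiableAt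
  have h2 : DifferentiableAt ℝ (fun q => (Φ q).2) p :=
    (hΦ.snd.differentiable one_ne_zero).differentiableAt
  constructor
  · have e : (fun q => (turn b Φ q).1) = fun q => Real.cos b * (Φ q).1 - Real.sin b * (Φ q).2 :=
      rfl
    unfold d1
    rw [e, fderiv_fun_sub (h1.const_mul _) (h2.const_mul _), fderiv_const_mul h1,
      fderiv_const_mul h2]
    rfl
  · have e : (fun q => (turn b Φ q).2) = fun q => Real.sin b * (Φ q).1 + Real.cos b * (Φ q).2 :=
      rfl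
    unfold d1
    rw [e, fderiv_fun_add (h1.const_mul _) (h2.const_mul _), fderiv_const_mul h1,
      fderiv_const_mul h2]
    rfl

theorem LeafLoop_turn2 {Φ : ℝ × ℝ → ℝ × ℝ} (hΦ : ContDiff ℝ 1 Φ) (b : ℝ) (p : ℝ × ℝ) :
    d2 (fun q => (turn b Φ q).1) p =
        Real.cos b * d2 (fun q => (Φ q).1) p - Real.sin b * d2 (fun q => (Φ q).2) p ∧
      d2 (fun q => (turn b Φ q).2) p =
        Real.sin b * d2 (fun q => (Φ q).1) p + Real.cos b * d2 (fun q => (Φ q).2) p := by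
  have h1 : DifferentiableAt ℝ (fun q => (Φ q).1) p :=
    (hΦ.fst.differentiable one_ne_zero).differentiableAt
  have h2 : DifferentiableAt ℝ (fun q => (Φ q).2) p :=
    (hΦ.snd.differentiable one_ne_zero).differentiableAt
  constructor
  · have e : (fun q => (turn b Φ q).1) = fun q => Real.cos b * (Φ q).1 - Real.sin b * (Φ q).2 :=
      rfl
    unfold d2
    rw [e, fderiv_fun_sub (h1.const_mul _) (h2.const_mul _), fderiv_const_mul h1,
      fderiv_const_mul h2]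
    rfl
  · have e : (fun q => (turn b Φ q).2) = fun q => Real.sin b * (Φ q).1 + Real.cos b * (Φ q).2 :=
      rfl
    unfold d2
    rw [e, fderiv_fun_add (h1.const_mul _) (h2.const_mul _), fderiv_const_mul h1,
      fderiv_const_mul h2]
    rfl

/-- the derivative of `A = F₂ - V F₁` along a solution of `F = turn b Φ` -/
theorem leaf_A_der {Φ : ℝ × ℝ → ℝ × ℝ} (hΦ : ContDiff ℝ 1 Φ) {b : ℝ} {V : ℝ × ℝ → ℝ}
    {σ : ℝ → ℝ × ℝ} {t : ℝ} (hσ : HasDerivAt σ (turn b Φ (σ t)) t)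
    (hV : DifferentiableAt ℝ V (σ t)) :
    HasDerivAt (fun s => (turn b Φ (σ s)).2 - V (σ s) * (turn b Φ (σ s)).1)
      (divc (turn b Φ) (σ t) * ((turn b Φ (σ t)).2 - V (σ t) * (turn b Φ (σ t)).1) +
        epsF V Φ b (σ t)) t := by
  have hF := contDiff_turn hΦ b
  have g1 : DifferentiableAt ℝ (fun q => (turn b Φ q).1) (σ t) :=
    (hF.fst.differentiable one_ne_zero).differentiableAt
  have g2 : DifferentiableAt ℝ (fun q => (turn b Φ q).2) (σ t) :=
    (hF.snd.differentiable one_ne_zero).differentiableAt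
  have c1 := LeafLoop_chain hσ g1
  have c2 := LeafLoop_chain hσ g2
  have cV := LeafLoop_chain hσ hV
  have key := c2.sub (cV.mul c1)
  refine key.congr_deriv ?_
  unfold epsF zarg divc zd
  obtain ⟨a1, a2⟩ := LeafLoop_turn1 hΦ b (σ t)
  obtain ⟨b1, b2⟩ := LeafLoop_turn2 hΦ b (σ t)
  rw [a1, a2, b1, b2]
  have e1 : (turn b Φ (σ t)).1 = Real.cos b * (Φ (σ t)).1 - Real.sin b * (Φ (σ t)).2 := rfl
  have e2 : (turn b Φ (σ t)).2 = Real.sin b * (Φ (σ t)).1 + Real.cos b * (Φ (σ t)).2 := rfl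
  rw [e1, e2]
  have hcs := Real.sin_sq_add_cos_sq b
  set u := (Φ (σ t)).1
  set w := (Φ (σ t)).2
  set p1 := d1 (fun q => (Φ q).1) (σ t)
  set p2 := d1 (fun q => (Φ q).2) (σ t)
  set q1 := d2 (fun q => (Φ q).1) (σ t)
  set q2 := d2 (fun q => (Φ q).2) (σ t)
  set c := Real.cos b
  set s := Real.sin b
  linear_combination (u * (p2 + V (σ t) * q2) - w * (p1 + V (σ t) * q1)) * hcs

/-- Proof. `loop_lemma` with `θ = (σ ·).2`, `m = F₂(σ)`, `R = nm (Φ (σ))`, `d = divc F (σ)`,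
`ε = epsF V Φ b (σ) / R²`, `A` as in `leaf_A_der`. -/
theorem leaf_loop {Φ : ℝ × ℝ → ℝ × ℝ} (hΦ : ContDiff ℝ 1 Φ)
    (hper : ∀ p : ℝ × ℝ, Φ (p + (0, 2 * Real.pi)) = Φ p) {I : Set ℝ} {b e : ℝ}
    {V : ℝ × ℝ → ℝ} {τ : ℝ → ℝ} {E v β x₁ : ℝ} (hF : Frame Φ I b e V τ E v β x₁) {a' : ℝ}
    {σ : ℝ → ℝ × ℝ} {T : ℝ} {k : ℤ} {ν : ℝ → ℝ} (hL : LeafVar Φ b a' σ T k ν) (hk : 0 < k)
    (hI : ∀ t, (σ t).1 ∈ I) (t : ℝ)
    (ht : 0 < (turn b Φ (σ t)).2 - V (σ t) * (turn b Φ (σ t)).1) :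
    |a'| * ((turn b Φ (σ t)).2 - V (σ t) * (turn b Φ (σ t)).1) ≤ 2 * e * ν t := by
  obtain ⟨j, hj⟩ : ∃ j : ℕ, (j : ℤ) = k := ⟨k.toNat, Int.toNat_of_nonneg hk.le⟩
  have hj0 : 0 < j := by
    have : (0 : ℤ) < (j : ℤ) := by rw [hj]; exact hk
    exact_mod_cast this
  have hjk : (k : ℝ) = (j : ℝ) := by rw [← hj]; simp
  -- periodicity of a `2π`-periodic function along the multiples of `2π`
  have hperk : ∀ {α : Type} (g : ℝ × ℝ → α), (∀ p : ℝ × ℝ, g (p + (0, 2 * Real.pi)) = g p) →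
      ∀ p : ℝ × ℝ, g (p + (0, 2 * Real.pi * (j : ℝ))) = g p := by
    intro α g hg p
    have : ∀ i : ℕ, g (p + (0, 2 * Real.pi * (i : ℝ))) = g p := by
      intro i
      induction i with
      | zero =>
        have : p + ((0 : ℝ), 2 * Real.pi * ((0 : ℕ) : ℝ)) = p := by
          ext <;> simp
        rw [this]
      | succ i ih =>
        rw [← ih, ← hg (p + (0, 2 * Real.pi * (i : ℝ)))]
        congr 1
        ext
        · simp
        · simp only [Prod.snd_add]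
          push_cast
          ring
    exact this j
  have hFper : ∀ p : ℝ × ℝ, turn b Φ (p + (0, 2 * Real.pi)) = turn b Φ p := by
    intro p
    unfold turn
    rw [hper p]
  have hσper : ∀ t, σ (t + T) = σ t + (0, 2 * Real.pi * (j : ℝ)) := by
    intro t
    rw [hL.per t, hjk]
  have hR : ∀ t, 0 < nm (Φ (σ t)) := fun t => nm_pos (hF.ne _ (hI t))
  have hR2 : ∀ t, nm (Φ (σ t)) ^ 2 = (turn b Φ (σ t)).1 ^ 2 + (turn b Φ (σ t)).2 ^ 2 := by
    intro t
    rw [← nm_turn b Φ (σ t), nm_sq]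
  have h1R : ∀ t, |(turn b Φ (σ t)).1| ≤ nm (Φ (σ t)) := fun t =>
    abs_le_of_sq_le_sq (by rw [hR2 t]; nlinarith [sq_nonneg (turn b Φ (σ t)).2]) (hR t).le
  have h2R : ∀ t, |(turn b Φ (σ t)).2| ≤ nm (Φ (σ t)) := fun t =>
    abs_le_of_sq_le_sq (by rw [hR2 t]; nlinarith [sq_nonneg (turn b Φ (σ t)).1]) (hR t).le
  have hx := hF.x_pos
  have he := hF.e_pos
  have hE := hF.E_nonneg
  have hxle : x₁ ≤ 1 / 10 := hF.x_le
  have hK : 2 * E / x₁ ^ 2 + e ≤ 2 * E / x₁ ^ 2 + e / x₁ := by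
    have : e ≤ e / x₁ := by
      rw [le_div_iff₀ hx]
      nlinarith
    linarith
  have hβ : 0 ≤ β := le_trans (intervalIntegral.integral_nonneg (by positivity)
    fun x _ => hF.tau_nonneg x) hF.tau_int
  have D : LoopData T j (fun t => (σ t).2) (fun t => (turn b Φ (σ t)).2) ν
      (fun t => (turn b Φ (σ t)).2 - V (σ t) * (turn b Φ (σ t)).1)
      (fun t => nm (Φ (σ t))) (fun t => divc (turn b Φ) (σ t))
      (fun t => epsF V Φ b (σ t) / nm (Φ (σ t)) ^ 2) τ a' e E x₁ v β := by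
    refine ⟨hL.T_pos, hj0, hF.tau_cont, hF.tau_nonneg, hF.tau_le, hF.tau_periodic, hF.tau_int,
      ?_, ?_, hL.nu_per, ?_, hL.nu_pos, hR, hL.nu_der, ?_, h2R, ?_, ?_, ?_, he, hF.e_le, hx,
      by linarith, hF.v_nonneg, by linarith [hF.v_le], ?_, ?_⟩
    · intro t
      exact (hL.der t).snd
    · intro t
      show (σ (t + T)).2 = _
      rw [hσper t]
      rfl
    · intro t
      show (turn b Φ (σ (t + T))).2 - V (σ (t + T)) * (turn b Φ (σ (t + T))).1 = _
      rw [hσper t, hperk _ hFper, hperk _ hF.periodic]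
    · intro t
      refine (leaf_A_der hΦ (hL.der t) (hF.diff _ (hI t))).congr_deriv ?_
      have := (hR t).ne'
      field_simp
    · intro t
      have h3 : (turn b Φ (σ t)).2 - V (σ t) * (turn b Φ (σ t)).1 - (turn b Φ (σ t)).2 =
          -(V (σ t) * (turn b Φ (σ t)).1) := by ring
      rw [h3, abs_neg, abs_mul]
      exact mul_le_mul (hF.small _ (hI t)) (h1R t) (abs_nonneg _) hF.v_nonneg
    · intro t
      rw [abs_div, abs_of_pos (pow_pos (hR t) 2), div_le_iff₀ (pow_pos (hR t) 2)]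
      exact hF.all _ (hI t)
    · intro t hgood
      rw [abs_div, abs_of_pos (pow_pos (hR t) 2), div_le_iff₀ (pow_pos (hR t) 2)]
      exact hF.good _ (hI t) hgood.symm
    · exact (mul_le_mul_of_nonneg_right hK hβ).trans hF.thin
    · refine (mul_le_mul_of_nonneg_right hK (sq_nonneg v)).trans (hF.slow.trans ?_)
      linarith
  exact loop_lemma D ht

end Pool.Agent.Lib.MP_95e7ec_an
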