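import Mathlib
import Pool.Agent.Lib.MP_95e7ec_an.Ry.LeafLoop

/-!
# Ry, LeafLow: the inequality at the lowest or highest point
-/

set_option autoImplicit false

open Set Filter Topology MeasureTheory
open scoped ContDiff ENNReal

namespace Pool.Agent.Lib.MP_95e7ec_an

private theorem LeafLow_derY {f1 f2 ρ : ℝ → ℝ} {t p q ρ₀ : ℝ} (h1 : HasDerivAt f1 p t)
    (h2 : HasDerivAt f2 q t) (hρ : HasDerivAt ρ (f1 t) t)
    (hN : f1 t ^ 2 + f2 t ^ 2 ≠ 0) :
    HasDerivAt (fun s => 4 * f1 s ^ 2 / (f1 s ^ 2 + f2 s ^ 2) + (ρ s - ρ₀) ^ 2)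
      (-(8 * f1 t * f2 t * (f1 t * q - f2 t * p)) / (f1 t ^ 2 + f2 t ^ 2) ^ 2 +
        2 * (ρ t - ρ₀) * f1 t) t := by
  have a1 := (h1.fun_pow 2)
  have a2 := (h2.fun_pow 2)
  have a3 := (a1.const_mul 4).fun_div (a1.fun_add a2) hN
  have a4 := (hρ.sub_const ρ₀).fun_pow 2
  refine (a3.fun_add a4).congr_deriv ?_
  field_simp
  ring

private theorem LeafLow_w {Φ : ℝ × ℝ → ℝ × ℝ} (hΦ : ContDiff ℝ 1 Φ) (b : ℝ) (p : ℝ × ℝ) :
    (turn b Φ p).1 * ((turn b Φ p).1 * d1 (fun q => (turn b Φ q).2) p +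
        (turn b Φ p).2 * d2 (fun q => (turn b Φ q).2) p) -
      (turn b Φ p).2 * ((turn b Φ p).1 * d1 (fun q => (turn b Φ q).1) p +
        (turn b Φ p).2 * d2 (fun q => (turn b Φ q).1) p) =
    (turn b Φ p).1 * ((Φ p).1 * d1 (fun q => (Φ q).2) p - (Φ p).2 * d1 (fun q => (Φ q).1) p) +
      (turn b Φ p).2 *
        ((Φ p).1 * d2 (fun q => (Φ q).2) p - (Φ p).2 * d2 (fun q => (Φ q).1) p) := by
  obtain ⟨a1, a2⟩ := LeafLoop_turn1 hΦ b p
  obtain ⟨b1, b2⟩ := LeafLoop_turn2 hΦ b p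
  rw [a1, a2, b1, b2]
  have e1 : (turn b Φ p).1 = Real.cos b * (Φ p).1 - Real.sin b * (Φ p).2 := rfl
  have e2 : (turn b Φ p).2 = Real.sin b * (Φ p).1 + Real.cos b * (Φ p).2 := rfl
  have hcs := Real.sin_sq_add_cos_sq b
  have k1 : (turn b Φ p).1 * (Real.sin b * d1 (fun q => (Φ q).1) p +
        Real.cos b * d1 (fun q => (Φ q).2) p) - (turn b Φ p).2 *
        (Real.cos b * d1 (fun q => (Φ q).1) p - Real.sin b * d1 (fun q => (Φ q).2) p) =
      (Φ p).1 * d1 (fun q => (Φ q).2) p - (Φ p).2 * d1 (fun q => (Φ q).1) p := by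
    rw [e1, e2]
    linear_combination ((Φ p).1 * d1 (fun q => (Φ q).2) p -
      (Φ p).2 * d1 (fun q => (Φ q).1) p) * hcs
  have k2 : (turn b Φ p).1 * (Real.sin b * d2 (fun q => (Φ q).1) p +
        Real.cos b * d2 (fun q => (Φ q).2) p) - (turn b Φ p).2 *
        (Real.cos b * d2 (fun q => (Φ q).1) p - Real.sin b * d2 (fun q => (Φ q).2) p) =
      (Φ p).1 * d2 (fun q => (Φ q).2) p - (Φ p).2 * d2 (fun q => (Φ q).1) p := by
    rw [e1, e2]
    linear_combination ((Φ p).1 * d2 (fun q => (Φ q).2) p -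
      (Φ p).2 * d2 (fun q => (Φ q).1) p) * hcs
  rw [← k1, ← k2]
  ring

private theorem LeafLow_shift (g : ℝ × ℝ → ℝ) (a : ℝ × ℝ) (hg : ∀ p, g (p + a) = g p)
    (p : ℝ × ℝ) : d1 g (p + a) = d1 g p ∧ d2 g (p + a) = d2 g p := by
  have h : (fun q => g (q + a)) = g := funext hg
  have h2 : fderiv ℝ g (p + a) = fderiv ℝ g p := by
    rw [← fderiv_comp_add_right, h]
  unfold d1 d2
  rw [h2]
  exact ⟨rfl, rfl⟩

private theorem LeafLow_agr_per {Φ : ℝ × ℝ → ℝ × ℝ} {a : ℝ × ℝ} (h : ∀ p, Φ (p + a) = Φ p)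
    (p : ℝ × ℝ) : agr Φ (p + a) = agr Φ p := by
  have h1 := LeafLow_shift (fun q => (Φ q).1) a (fun q => by rw [h q]) p
  have h2 := LeafLow_shift (fun q => (Φ q).2) a (fun q => by rw [h q]) p
  unfold agr
  rw [h1.1, h1.2, h2.1, h2.2, h p]

private theorem LeafLow_cont_d {g : ℝ × ℝ → ℝ} (hg : ContDiff ℝ 2 g) :
    Continuous (d1 g) ∧ Continuous (d2 g) := by
  have h : Continuous (fderiv ℝ g) := hg.continuous_fderiv two_ne_zero
  exact ⟨h.clm_apply continuous_const, h.clm_apply continuous_const⟩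

private theorem LeafLow_nm_cont : Continuous nm := by
  unfold nm
  fun_prop

/-- the numerical part: where `y ≤ 1` -/
private theorem LeafLow_num {F1 F2 R α β ag dr y' V v x₁ e ν a' : ℝ} (hR : 0 < R)
    (hR2 : R ^ 2 = F1 ^ 2 + F2 ^ 2) (harc : -(R / 2) < F2) (hag : ag = (|α| + |β|) / R ^ 2)
    (hy : 4 * F1 ^ 2 / (F1 ^ 2 + F2 ^ 2) + dr ^ 2 ≤ 1)
    (hy' : y' = -(8 * F1 * F2 * (F1 * α + F2 * β)) / (F1 ^ 2 + F2 ^ 2) ^ 2 + 2 * dr * F1)
    (hV : |V| ≤ v) (hv : 4 * v ≤ x₁) (hx : x₁ ≤ 1 / 10)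
    (hloop : 0 < F2 - V * F1 → |a'| * (F2 - V * F1) ≤ 2 * e * ν) :
    y' ≤ R * (4 * ag + 1) ∧ F2 ≤ R * (4 * ag + 1) ∧ |dr| ≤ 1 ∧ |a'| * R ≤ 5 / 2 * (e * ν) := by
  rw [← hR2] at hy hy'
  have hR2p : 0 < R ^ 2 := by positivity
  have hag0 : 0 ≤ ag := by rw [hag]; positivity
  have h4 : 4 * F1 ^ 2 / R ^ 2 ≤ 1 := by nlinarith [sq_nonneg dr]
  have h4' : 4 * F1 ^ 2 ≤ R ^ 2 := by
    rw [div_le_one hR2p] at h4
    exact h4
  have hdr2 : dr ^ 2 ≤ 1 := by
    have : 0 ≤ 4 * F1 ^ 2 / R ^ 2 := by positivity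
    linarith
  have hdr : |dr| ≤ 1 := (sq_le_one_iff_abs_le_one dr).1 hdr2
  have hF1 : |F1| ≤ R / 2 := abs_le_of_sq_le_sq (by nlinarith) (by linarith)
  have hF2 : |F2| ≤ R := abs_le_of_sq_le_sq (by nlinarith [sq_nonneg F1]) hR.le
  have hα := abs_nonneg α
  have hβ := abs_nonneg β
  have hsum : |α| + |β| = ag * R ^ 2 := by
    rw [hag, div_mul_cancel₀ _ hR2p.ne']
  have hw : |F1 * α + F2 * β| ≤ R * (ag * R ^ 2) := by
    rw [← hsum]
    refine (abs_add_le _ _).trans ?_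
    rw [abs_mul, abs_mul]
    have q1 : |F1| * |α| ≤ R * |α| := mul_le_mul_of_nonneg_right (by linarith) hα
    have q2 : |F2| * |β| ≤ R * |β| := mul_le_mul_of_nonneg_right hF2 hβ
    linarith
  have hmain : |8 * F1 * F2 * (F1 * α + F2 * β)| ≤ 4 * R * ag * (R ^ 2) ^ 2 := by
    have e1 : |8 * F1 * F2 * (F1 * α + F2 * β)| = 8 * (|F1| * |F2| * |F1 * α + F2 * β|) := by
      rw [abs_mul, abs_mul, abs_mul, abs_of_pos (by norm_num : (0 : ℝ) < 8)]
      ring
    rw [e1]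
    have q1 : |F1| * |F2| ≤ R / 2 * R :=
      mul_le_mul hF1 hF2 (abs_nonneg _) (by linarith)
    have q2 : |F1| * |F2| * |F1 * α + F2 * β| ≤ R / 2 * R * (R * (ag * R ^ 2)) :=
      mul_le_mul q1 hw (abs_nonneg _) (by positivity)
    nlinarith
  refine ⟨?_, ?_, hdr, ?_⟩
  · rw [hy']
    have q1 : -(8 * F1 * F2 * (F1 * α + F2 * β)) / (R ^ 2) ^ 2 ≤ 4 * R * ag := by
      rw [div_le_iff₀ (by positivity)]
      exact (neg_le_abs _).trans hmain
    have q2 : 2 * dr * F1 ≤ R := by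
      have : |dr * F1| ≤ 1 * (R / 2) := by
        rw [abs_mul]
        exact mul_le_mul hdr hF1 (abs_nonneg _) zero_le_one
      have := (le_abs_self (dr * F1)).trans this
      linarith
    linarith
  · have : F2 ≤ R := (le_abs_self _).trans hF2
    nlinarith [mul_nonneg hR.le hag0]
  · have hF2' : 43 / 50 * R ≤ F2 := by
      by_contra hcon
      push Not at hcon
      have q1 : F2 ^ 2 ≥ 3 / 4 * R ^ 2 := by nlinarith
      rcases le_or_gt 0 F2 with h0 | h0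
      · have : F2 ^ 2 < (43 / 50 * R) ^ 2 := by
          apply pow_lt_pow_left₀ hcon h0 (by norm_num)
        nlinarith
      · nlinarith
    have hVF : |V * F1| ≤ 1 / 40 * (R / 2) := by
      rw [abs_mul]
      exact mul_le_mul (by linarith) hF1 (abs_nonneg _) (by norm_num)
    have hA : 4 / 5 * R ≤ F2 - V * F1 := by
      have := (le_abs_self (V * F1)).trans hVF
      linarith
    have hApos : 0 < F2 - V * F1 := by linarith
    have q := hloop hApos
    have q2 : |a'| * (4 / 5 * R) ≤ |a'| * (F2 - V * F1) :=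
      mul_le_mul_of_nonneg_left hA (abs_nonneg _)
    linarith

/-- Write `F = turn b Φ`, `F₁, F₂` along `σ`, `R = nm (Φ (σ t)) = nm (F (σ t)) > 0` (`nm_turn`), `ρ = (σ t).1`,
`ρ₀ = (σ t₀).1`. Proof. We may assume `a' ≠ 0`. (a) `F₁ = 0` at `t₀` (`ρ' = F₁`, extremum:
`IsLocalMin.hasDerivAt_eq_zero`). Let `y t = 4 F₁²/R² + (ρ - ρ₀)²`; `y t₀ = 0`; `y` is `C¹`. With
`w = F₁ F₂' - F₂ F₁'` (derivatives along `σ`) one has `|w| ≤ R² · R · agr Φ (σ t)`, because
`w = F₁ (Φ₁ ∂_ρ Φ₂ - Φ₂ ∂_ρ Φ₁) + F₂ (Φ₁ ∂_θ Φ₂ - Φ₂ ∂_θ Φ₁)` (the determinants do not change by turning) and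
`|F₁|, |F₂| ≤ R`; and `(F₁²/R²)' = -2 F₁ F₂ w / R⁴`. So where `y t ≤ 1` (there `|F₁| ≤ R/2`,
`|ρ - ρ₀| ≤ 1`): `|y'| ≤ 4 R agr + R`.
(b) Where `y t ≤ 1`: `F₂² ≥ 3/4 R²` and `F₂ > -R/2` (`hF.arc`) give `F₂ ≥ .86 R`, so
`A = F₂ - V F₁ ≥ .86 R - v R/2 ≥ .8 R > 0` (`v ≤ x₁/4 ≤ 1/40`), and `leaf_loop` gives
`.8 |a'| R ≤ 2 e ν`, i.e. `|a'| R ≤ 2.5 e ν`.
(c) If there is `t₁ ∈ (t₀, t₀+T]` with `y t₁ = 1`, take the first one
(`IsCompact.exists_isLeast` for `{t ∈ [t₀,t₀+T] | 1 ≤ y t}`); on `[t₀,t₁]` `y ≤ 1` and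
`1 = ∫ y' ≤ ∫_{t₀}^{t₁} R (4 agr + 1)`, so `|a'| ≤ ∫_{t₀}^{t₁} |a'| R (4 agr + 1) ≤ 2.5 e ∫_{t₀}^{t₁} ν (4 agr + 1)`.
Otherwise `y < 1` on `[t₀,t₀+T]` and `2π ≤ 2πk = ∫ F₂ ≤ ∫ R ≤ ∫ R (4 agr + 1)`, and the same bound follows.
In both cases the interval is contained in `[t₀,t₀+T]` and `|ρ - ρ₀| ≤ 1` on it, so
`lo - 1 ≤ ρ ≤ hi + 1` there. (d) The integrand of the claim is `T`-periodic
(`agr Φ (p + (0,2πk)) = agr Φ p`, `Φ` periodic), so the integral over `Ioc 0 T` is the integral over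
`Ioc t₀ (t₀+T)` (for `lintegral`: e.g. `Function.Periodic` and `MeasureTheory.lintegral` over a
fundamental domain, or translate by `t₀` modulo `T`: `Ioc 0 T` and `Ioc t₀ (t₀+T)` are both fundamental domains
of `ℤ T`, `isAddFundamentalDomain_Ioc`, `IsAddFundamentalDomain.setLIntegral_eq`). Pass to `ENNReal`
by `ofReal_integral_eq_lintegral_ofReal` (everything is continuous and nonnegative on the interval). -/
theorem leaf_low {Φ : ℝ × ℝ → ℝ × ℝ} (hΦ : ContDiff ℝ 2 Φ)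
    (hper : ∀ p : ℝ × ℝ, Φ (p + (0, 2 * Real.pi)) = Φ p) {I : Set ℝ} {b e : ℝ}
    {V : ℝ × ℝ → ℝ} {τ : ℝ → ℝ} {E v β x₁ : ℝ} (hF : Frame Φ I b e V τ E v β x₁) {a' : ℝ}
    {σ : ℝ → ℝ × ℝ} {T : ℝ} {k : ℤ} {ν : ℝ → ℝ} (hL : LeafVar Φ b a' σ T k ν) (hk : 0 < k)
    (hI : ∀ t, (σ t).1 ∈ I) {t₀ lo hi : ℝ}
    (hext : (∀ t, (σ t₀).1 ≤ (σ t).1) ∨ ∀ t, (σ t).1 ≤ (σ t₀).1)
    (hlo : lo ≤ (σ t₀).1) (hhi : (σ t₀).1 ≤ hi) :
    ENNReal.ofReal |a'| ≤
      ∫⁻ t in Set.Ioc 0 T, ENNReal.ofReal (ν t) * wC Φ e lo hi (σ t) := by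
  have hΦ1 : ContDiff ℝ 1 Φ := hΦ.of_le (by norm_num)
  have hT := hL.T_pos
  have hR : ∀ t, 0 < nm (Φ (σ t)) := fun t => nm_pos (hF.ne _ (hI t))
  have hR2 : ∀ t, nm (Φ (σ t)) ^ 2 = (turn b Φ (σ t)).1 ^ 2 + (turn b Φ (σ t)).2 ^ 2 := by
    intro t
    rw [← nm_turn b Φ (σ t), nm_sq]
  have hσc : Continuous σ := continuous_iff_continuousAt.2 fun t => (hL.der t).continuousAt
  have hνc : Continuous ν := continuous_iff_continuousAt.2 fun t => (hL.nu_der t).continuousAt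
  -- the speed `g` and its continuity
  have hagc : Continuous fun t => agr Φ (σ t) := by
    have c1 := LeafLow_cont_d hΦ.fst
    have c2 := LeafLow_cont_d hΦ.snd
    have hΦc : Continuous Φ := hΦ.continuous
    unfold agr
    refine Continuous.div ?_ ?_ fun t => (pow_pos (hR t) 2).ne'
    · refine Continuous.add ?_ ?_
      · exact ((((continuous_fst.comp hΦc).mul c2.1).sub
          ((continuous_snd.comp hΦc).mul c1.1)).abs).comp hσc
      · exact ((((continuous_fst.comp hΦc).mul c2.2).sub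
          ((continuous_snd.comp hΦc).mul c1.2)).abs).comp hσc
    · exact ((LeafLow_nm_cont.comp hΦc).pow 2).comp hσc
  have hRc : Continuous fun t => nm (Φ (σ t)) :=
    (LeafLow_nm_cont.comp hΦ.continuous).comp hσc
  have hgc : Continuous fun t => nm (Φ (σ t)) * (4 * agr Φ (σ t) + 1) :=
    hRc.mul ((continuous_const.mul hagc).add continuous_const)
  have hag0 : ∀ t, 0 ≤ agr Φ (σ t) := by
    intro t
    unfold agr
    positivity
  -- the function `y`
  have g1 : ∀ t, DifferentiableAt ℝ (fun q => (turn b Φ q).1) (σ t) := fun t =>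
    ((contDiff_turn hΦ1 b).fst.differentiable one_ne_zero).differentiableAt
  have g2 : ∀ t, DifferentiableAt ℝ (fun q => (turn b Φ q).2) (σ t) := fun t =>
    ((contDiff_turn hΦ1 b).snd.differentiable one_ne_zero).differentiableAt
  obtain ⟨y, hy⟩ : ∃ y : ℝ → ℝ, y = fun s => 4 * (turn b Φ (σ s)).1 ^ 2 /
      ((turn b Φ (σ s)).1 ^ 2 + (turn b Φ (σ s)).2 ^ 2) + ((σ s).1 - (σ t₀).1) ^ 2 := ⟨_, rfl⟩
  have hyd := fun t => LeafLow_derY (ρ₀ := (σ t₀).1) (LeafLoop_chain (hL.der t) (g1 t))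
    (LeafLoop_chain (hL.der t) (g2 t)) (hL.der t).fst
    (by rw [← hR2 t]; exact (pow_pos (hR t) 2).ne')
  rw [← hy] at hyd
  have hyc : Continuous y := continuous_iff_continuousAt.2 fun t => (hyd t).continuousAt
  have hF0 : (turn b Φ (σ t₀)).1 = 0 := by
    rcases hext with h | h
    · have : IsLocalMin (fun t => (σ t).1) t₀ := Filter.Eventually.of_forall h
      exact this.hasDerivAt_eq_zero (hL.der t₀).fst
    · have : IsLocalMax (fun t => (σ t).1) t₀ := Filter.Eventually.of_forall h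
      exact this.hasDerivAt_eq_zero (hL.der t₀).fst
  have hy0 : y t₀ = 0 := by
    rw [hy]
    simp [hF0]
  -- where `y ≤ 1`
  have hnum := fun t (ht : y t ≤ 1) => LeafLow_num (F1 := (turn b Φ (σ t)).1)
    (F2 := (turn b Φ (σ t)).2) (R := nm (Φ (σ t)))
    (α := (Φ (σ t)).1 * d1 (fun q => (Φ q).2) (σ t) - (Φ (σ t)).2 * d1 (fun q => (Φ q).1) (σ t))
    (β := (Φ (σ t)).1 * d2 (fun q => (Φ q).2) (σ t) - (Φ (σ t)).2 * d2 (fun q => (Φ q).1) (σ t))
    (ag := agr Φ (σ t)) (dr := (σ t).1 - (σ t₀).1) (V := V (σ t)) (v := v) (x₁ := x₁) (e := e)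
    (ν := ν t) (a' := a') (hR t) (hR2 t) (hF.arc _ (hI t)) rfl (by rw [hy] at ht; exact ht)
    rfl (hF.small _ (hI t)) hF.v_le hF.x_le
    (fun hpos => leaf_loop hΦ1 hper hF hL hk hI t hpos)
  -- the end of the interval
  obtain ⟨s, hs0, hsT, hs1, hsend⟩ : ∃ s, t₀ < s ∧ s ≤ t₀ + T ∧ (∀ t ∈ Icc t₀ s, y t ≤ 1) ∧
      (y s = 1 ∨ s = t₀ + T) := by
    by_cases hne : (Icc t₀ (t₀ + T) ∩ {t | 1 ≤ y t}).Nonempty
    · have hcomp : IsCompact (Icc t₀ (t₀ + T) ∩ {t | 1 ≤ y t}) :=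
        isCompact_Icc.inter_right (isClosed_le continuous_const hyc)
      obtain ⟨s, hsmem, hsle⟩ := hcomp.exists_isLeast hne
      have hs1 : 1 ≤ y s := hsmem.2
      have hs0 : t₀ < s := by
        rcases lt_or_eq_of_le hsmem.1.1 with h | h
        · exact h
        · rw [← h, hy0] at hs1
          norm_num at hs1
      have hys : y s = 1 := by
        have himg := intermediate_value_Icc hs0.le hyc.continuousOn
        obtain ⟨c, hc, hyc1⟩ := himg ⟨by rw [hy0]; norm_num, hs1⟩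
        have : s ≤ c := hsle ⟨⟨hc.1, hc.2.trans hsmem.1.2⟩, hyc1.ge⟩
        have : c = s := le_antisymm hc.2 this
        rw [← this]; exact hyc1
      refine ⟨s, hs0, hsmem.1.2, ?_, Or.inl hys⟩
      intro t ht
      by_contra hcon
      push Not at hcon
      have : s ≤ t := hsle ⟨⟨ht.1, ht.2.trans hsmem.1.2⟩, hcon.le⟩
      have : t = s := le_antisymm ht.2 this
      rw [this, hys] at hcon
      exact lt_irrefl _ hcon
    · refine ⟨t₀ + T, by linarith, le_refl _, ?_, Or.inr rfl⟩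
      intro t ht
      by_contra hcon
      push Not at hcon
      exact hne ⟨t, ht, hcon.le⟩
  have hsnd : ∀ t, HasDerivAt (fun t => (σ t).2) (turn b Φ (σ t)).2 t := fun t => (hL.der t).snd
  -- the integral of the speed is at least one
  have hone : 1 ≤ ∫ t in t₀..s, nm (Φ (σ t)) * (4 * agr Φ (σ t) + 1) := by
    have hint : IntegrableOn (fun t => nm (Φ (σ t)) * (4 * agr Φ (σ t) + 1)) (Icc t₀ s) :=
      hgc.continuousOn.integrableOn_Icc
    rcases hsend with hys | hsT'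
    · have := intervalIntegral.sub_le_integral_of_hasDeriv_right_of_le hs0.le
        hyc.continuousOn (fun x _ => (hyd x).hasDerivWithinAt) hint (fun x hx => by
          have h := (hnum x (hs1 x ⟨hx.1.le, hx.2.le⟩)).1
          rw [← LeafLow_w hΦ1 b (σ x)] at h
          exact h)
      rw [hys, hy0] at this
      linarith
    · have := intervalIntegral.sub_le_integral_of_hasDeriv_right_of_le hs0.le
        (g := fun t => (σ t).2) (continuous_snd.comp hσc).continuousOn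
        (fun x _ => (hsnd x).hasDerivWithinAt) hint (fun x hx =>
          (hnum x (hs1 x ⟨hx.1.le, hx.2.le⟩)).2.1)
      have h2 : (σ s).2 - (σ t₀).2 = 2 * Real.pi * (k : ℝ) := by
        rw [hsT', hL.per t₀]
        simp
      rw [h2] at this
      have hk1 : (1 : ℝ) ≤ k := by exact_mod_cast hk
      have hpi := Real.pi_gt_three
      nlinarith
  -- the real inequality
  have hreal : |a'| ≤ ∫ t in t₀..s, 5 / 2 * (e * ν t) * (4 * agr Φ (σ t) + 1) := by
    have h1 : |a'| ≤ |a'| * ∫ t in t₀..s, nm (Φ (σ t)) * (4 * agr Φ (σ t) + 1) :=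
      le_mul_of_one_le_right (abs_nonneg _) hone
    rw [← intervalIntegral.integral_const_mul] at h1
    refine h1.trans ?_
    refine intervalIntegral.integral_mono_on hs0.le
      ((continuous_const.mul hgc).intervalIntegrable _ _) ?_ ?_
    · exact (((continuous_const.mul (continuous_const.mul hνc)).mul
        ((continuous_const.mul hagc).add continuous_const))).intervalIntegrable _ _
    · intro t ht
      have h2 := (hnum t (hs1 t ht)).2.2.2
      rw [← mul_assoc]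
      exact mul_le_mul_of_nonneg_right h2 (by have := hag0 t; linarith)
  -- the integral over the period
  have hperk : ∀ p : ℝ × ℝ, Φ (p + (0, 2 * Real.pi * (k : ℝ))) = Φ p := by
    obtain ⟨j, hj⟩ : ∃ j : ℕ, (j : ℤ) = k := ⟨k.toNat, Int.toNat_of_nonneg hk.le⟩
    have hjk : (k : ℝ) = (j : ℝ) := by rw [← hj]; simp
    rw [hjk]
    intro p
    have : ∀ i : ℕ, Φ (p + (0, 2 * Real.pi * (i : ℝ))) = Φ p := by
      intro i
      induction i with
      | zero =>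
        have : p + ((0 : ℝ), 2 * Real.pi * ((0 : ℕ) : ℝ)) = p := by
          ext <;> simp
        rw [this]
      | succ i ih =>
        rw [← ih, ← hper (p + (0, 2 * Real.pi * (i : ℝ)))]
        congr 1
        ext
        · simp
        · simp only [Prod.snd_add]
          push_cast
          ring
    exact this j
  have hfper : Function.Periodic (fun t => ENNReal.ofReal (ν t) * wC Φ e lo hi (σ t)) T := by
    intro t
    show ENNReal.ofReal (ν (t + T)) * wC Φ e lo hi (σ (t + T)) = _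
    rw [hL.nu_per, hL.per]
    congr 1
    unfold wC
    rw [LeafLow_agr_per hperk]
    simp
  have hmove : ∫⁻ t in Set.Ioc 0 T, ENNReal.ofReal (ν t) * wC Φ e lo hi (σ t) =
      ∫⁻ t in Set.Ioc t₀ (t₀ + T), ENNReal.ofReal (ν t) * wC Φ e lo hi (σ t) := by
    have h1 := isAddFundamentalDomain_Ioc hT 0 (volume : Measure ℝ)
    have h2 := isAddFundamentalDomain_Ioc hT t₀ (volume : Measure ℝ)
    rw [zero_add] at h1
    exact h1.setLIntegral_eq h2 _ (fun g x => hfper.map_vadd_zmultiples g x)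
  rw [hmove]
  refine (ENNReal.ofReal_le_ofReal hreal).trans ?_
  rw [intervalIntegral.integral_of_le hs0.le, ofReal_integral_eq_lintegral_ofReal]
  · refine le_trans ?_ (lintegral_mono_set (Ioc_subset_Ioc_right hsT))
    refine setLIntegral_mono' measurableSet_Ioc fun t ht => ?_
    have h3 := (hnum t (hs1 t ⟨ht.1.le, ht.2⟩)).2.2.1
    have h4 := abs_le.1 h3
    unfold wC
    rw [if_pos ⟨by linarith [h4.1], by linarith [h4.2]⟩,
      ← ENNReal.ofReal_mul (hL.nu_pos t).le]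
    refine ENNReal.ofReal_le_ofReal ?_
    have h5 := hL.nu_pos t
    have h6 := hag0 t
    have h7 := hF.e_pos
    have h8 : 0 ≤ e * ν t * (4 * agr Φ (σ t) + 1) := by positivity
    nlinarith
  · exact ((((continuous_const.mul (continuous_const.mul hνc)).mul
        ((continuous_const.mul hagc).add continuous_const))).integrableOn_Icc).mono_set
        Ioc_subset_Icc_self
  · refine Filter.Eventually.of_forall fun t => ?_
    have h5 := hL.nu_pos t
    have h6 := hag0 t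
    have h7 := hF.e_pos
    show (0 : ℝ) ≤ 5 / 2 * (e * ν t) * (4 * agr Φ (σ t) + 1)
    positivity

end Pool.Agent.Lib.MP_95e7ec_an
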