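import Mathlib
import Pool.Agent.Lib.MP_95e7ec_an.Ry.LeafLow
import Pool.Agent.Lib.MP_95e7ec_an.Ry.FamCyl
import Pool.Agent.Lib.MP_95e7ec_an.Ry.LeafNeg

/-!
# Ry, FamExt: the area inequality for the local families
-/

set_option autoImplicit false

open Set Filter Topology MeasureTheory
open scoped ContDiff ENNReal

namespace Pool.Agent.Lib.MP_95e7ec_an

private theorem FamExt_lint {H : ℝ → ℝ≥0∞} {T : ℝ} (hper : ∀ t, H (t + T) = H t) :
    ∫⁻ t in Set.Ioc 0 T, H (-t) = ∫⁻ t in Set.Ioc 0 T, H t := by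
  have h1 : ∫⁻ t in Set.Ioc 0 T, H (-t) = ∫⁻ t in Set.Ico (-T) 0, H t := by
    have h := (Measure.measurePreserving_neg (volume : Measure ℝ)).setLIntegral_comp_preimage_emb
      (MeasurableEquiv.neg ℝ).measurableEmbedding H (Set.Ico (-T) 0)
    rw [← h]
    congr 2
    ext x
    simp only [Set.mem_Ioc, Set.mem_preimage, Set.mem_Ico]
    constructor
    · rintro ⟨a, b⟩
      constructor <;> linarith
    · rintro ⟨a, b⟩
      constructor <;> linarith
  have h2 : ∫⁻ t in Set.Ico (-T) 0, H t = ∫⁻ t in Set.Ico 0 T, H t := by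
    have h := (measurePreserving_add_right (volume : Measure ℝ) T).setLIntegral_comp_preimage_emb
      (MeasurableEquiv.addRight T).measurableEmbedding H (Set.Ico 0 T)
    rw [← h]
    have hs : (fun x : ℝ => x + T) ⁻¹' Set.Ico 0 T = Set.Ico (-T) 0 := by
      ext x
      simp only [Set.mem_Ico, Set.mem_preimage]
      constructor
      · rintro ⟨a, b⟩
        constructor <;> linarith
      · rintro ⟨a, b⟩
        constructor <;> linarith
    rw [hs]
    exact lintegral_congr fun x => (hper x).symm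
  rw [h1, h2]
  exact setLIntegral_congr Ico_ae_eq_Ioc

private theorem FamExt_nm_cyl (p : ℝ × ℝ) : nm (cyl p) = Real.exp p.1 := by
  unfold nm cyl
  simp only
  rw [show (Real.exp p.1 * Real.cos p.2) ^ 2 + (Real.exp p.1 * Real.sin p.2) ^ 2 =
    Real.exp p.1 ^ 2 * (Real.sin p.2 ^ 2 + Real.cos p.2 ^ 2) by ring, Real.sin_sq_add_cos_sq,
    mul_one, Real.sqrt_sq (Real.exp_pos _).le]

private theorem FamExt_cyl_per (p : ℝ × ℝ) (k : ℤ) :
    cyl (p + ((0 : ℝ), 2 * Real.pi * (k : ℝ))) = cyl p := by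
  unfold cyl
  simp only [Prod.fst_add, Prod.snd_add, add_zero]
  have h : p.2 + 2 * Real.pi * (k : ℝ) = p.2 + k * (2 * Real.pi) := by ring
  rw [h, Real.cos_add_int_mul_two_pi, Real.sin_add_int_mul_two_pi]

private theorem FamExt_contDiff {n : ℕ} (μ : Pr n) : ContDiff ℝ 2 (cf (vfc μ)) := by
  have h1 : ContDiff ℝ 2 (vfc μ) := vfc_contDiff μ
  have h2 : ContDiff ℝ 2 cyl := by
    unfold cyl
    fun_prop
  have h3 : ContDiff ℝ 2 fun p => vfc μ (cyl p) := h1.comp h2
  unfold cf wf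
  exact ((h2.fst.mul h3.fst).add (h2.snd.mul h3.snd)).prodMk
    ((h2.fst.mul h3.snd).sub (h2.snd.mul h3.fst))

private theorem FamExt_per {n : ℕ} (μ : Pr n) (p : ℝ × ℝ) :
    cf (vfc μ) (p + (0, 2 * Real.pi)) = cf (vfc μ) p := by
  have h : cyl (p + (0, 2 * Real.pi)) = cyl p := by
    have := FamExt_cyl_per p 1
    simpa using this
  unfold cf
  rw [h]

theorem fam_ext {n : ℕ} (μ : Pr n) {I : Set ℝ} (hIo : IsOpen I) (hIc : I.OrdConnected)
    (hne : ∀ p : ℝ × ℝ, p.1 ∈ I → cf (vfc μ) p ≠ 0) {lo hi e : ℝ} (he : 0 < e)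
    (h1 : Framed (cf (vfc μ)) I e) (h2 : Framed (fun p => -cf (vfc μ) p) I e)
    (F : Fam μ (ann I)) {s : ℝ} (hs : s ∈ F.J) :
    ENNReal.ofReal |F.a' s| * extInd lo hi (F.orb s) ≤
      ∫⁻ t in Set.Ioo (0 : ℝ) 1, ENNReal.ofReal (F.jac s t) * wL μ e lo hi (pth (F.Z s) t) := by
  classical
  unfold extInd
  split_ifs with hext
  swap
  · rw [mul_zero]
    exact zero_le
  rw [mul_one]
  have hsub : ∀ z ∈ F.orb s, z ∈ ann I := by
    rintro _ ⟨t, rfl⟩
    exact F.sub s hs t
  have h0 : (0 : ℝ × ℝ) ∉ F.orb s := fun h => (hsub _ h).1 rfl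
  obtain ⟨σ, T, k, ν, hL, hC, horb, hint⟩ := fam_cyl F hs h0
  have hΦ := FamExt_contDiff μ
  have hΦper := FamExt_per μ
  have hmem : ∀ t, cyl (σ t) ∈ F.orb s := by
    intro t
    rw [horb]
    exact ⟨t, rfl⟩
  have hI : ∀ t, (σ t).1 ∈ I := by
    intro t
    have := (hsub _ (hmem t)).2
    rwa [FamExt_nm_cyl, Real.log_exp] at this
  have hk0 : k ≠ 0 := by
    rintro rfl
    exact zone_no_zero ((contDiff_turn hΦ (F.a s)).of_le (by norm_num)) hIc
      (fun p hp h => hne p hp (turn_eq_zero.1 h)) hC hI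
  obtain ⟨z, hz, hlo, hhi, hext'⟩ := hext
  rw [horb] at hz
  obtain ⟨t₀, rfl⟩ := hz
  simp only at hlo hhi hext'
  rw [FamExt_nm_cyl, Real.log_exp] at hlo hhi
  have hext2 : (∀ t, (σ t₀).1 ≤ (σ t).1) ∨ ∀ t, (σ t).1 ≤ (σ t₀).1 := by
    rcases hext' with h | h
    · left
      intro t
      have := h _ (hmem t)
      rw [FamExt_nm_cyl, FamExt_nm_cyl] at this
      exact Real.exp_le_exp.1 this
    · right
      intro t
      have := h _ (hmem t)
      rw [FamExt_nm_cyl, FamExt_nm_cyl] at this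
      exact Real.exp_le_exp.1 this
  rw [hint _ (wL_measurable μ e lo hi)]
  rcases lt_or_gt_of_ne hk0 with hk | hk
  · -- negative winding number
    have hL' := leafVar_neg hL
    have hC' : CylSol (turn (F.a s) (fun p => -cf (vfc μ) p)) (fun t => σ (-t)) T (-k) := by
      refine ⟨hL'.T_pos, hL'.der, hL'.per, ?_⟩
      obtain ⟨-, -, -, u, v, huv⟩ := hC
      refine ⟨-u, -v, ?_⟩
      simpa using huv
    have hpos : PosOrb (fun p => -cf (vfc μ) p) I (F.a s) (F.orb s) := by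
      refine ⟨fun t => σ (-t), T, -k, by omega, hC', fun t => hI _, ?_⟩
      rw [horb]
      ext w
      constructor
      · rintro ⟨t, rfl⟩
        exact ⟨-t, by simp⟩
      · rintro ⟨t, rfl⟩
        exact ⟨-t, rfl⟩
    obtain ⟨V, τ, E, v, β, x₁, hF⟩ := h2 _ _ hpos
    have hΦ' : ContDiff ℝ 2 (fun p => -cf (vfc μ) p) := hΦ.neg
    have hlow := leaf_low hΦ' (fun p => by rw [hΦper p]) hF hL' (by omega) (fun t => hI _)
      (t₀ := -t₀) (lo := lo) (hi := hi) (by
        rcases hext2 with h | h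
        · left
          intro t
          simpa using h (-t)
        · right
          intro t
          simpa using h (-t)) (by simpa using hlo) (by simpa using hhi)
    rw [abs_neg] at hlow
    refine hlow.trans ?_
    set H : ℝ → ℝ≥0∞ := fun t => ENNReal.ofReal (ν t) *
      (ENNReal.ofReal (Real.exp (2 * (σ t).1)) * wL μ e lo hi (cyl (σ t))) with hH
    have hHper : ∀ t, H (t + T) = H t := by
      intro t
      simp only [hH]
      rw [hL.nu_per, hL.per, FamExt_cyl_per]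
      simp
    rw [← FamExt_lint hHper]
    refine lintegral_mono fun t => ?_
    simp only [hH]
    gcongr
    obtain ⟨w1, w2⟩ := wC_le μ he lo hi (σ (-t)) (hne _ (hI _))
    rw [w2]
    exact w1
  · have hpos : PosOrb (cf (vfc μ)) I (F.a s) (F.orb s) := ⟨σ, T, k, hk, hC, hI, horb⟩
    obtain ⟨V, τ, E, v, β, x₁, hF⟩ := h1 _ _ hpos
    refine (leaf_low hΦ hΦper hF hL hk hI hext2 hlo hhi).trans ?_
    refine lintegral_mono fun t => ?_
    gcongr
    exact (wC_le μ he lo hi (σ t) (hne _ (hI _))).1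

end Pool.Agent.Lib.MP_95e7ec_an
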