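import Mathlib
import Pool.Agent.Lib.MP_95e7ec_an.Ry.FamExt
import Pool.Agent.Lib.MP_95e7ec_an.Ry.AnnInt
import Pool.Agent.Lib.MP_95e7ec_an.Ry.ExtMeas
import Pool.Agent.Lib.MP_95e7ec_an.Rb.SumMeas

/-!
# Ry, PartL: the closed orbits in a frame
-/

set_option autoImplicit false

open Set Filter Topology MeasureTheory
open scoped ContDiff ENNReal

namespace Pool.Agent.Lib.MP_95e7ec_an

theorem partL : PartL := by
  refine ⟨10000, ?_⟩
  intro n hn μ _ I hIo hIc hne lo hi e hlohi he h1 h2
  refine ⟨setSum_aemeasurable μ (isOpen_ann hIo) fun F => extInd_measurable lo hi F, ?_⟩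
  have h3 := setSum_le μ (isOpen_ann hIo) (f := extInd lo hi)
    (fun F => extInd_measurable lo hi F) (wL_measurable μ e lo hi)
    (fun F s hs => fam_ext μ hIo hIc hne he h1 h2 F hs)
  refine h3.trans ((setLIntegral_le_lintegral _ _).trans (ann_int hn μ he hlohi))

end Pool.Agent.Lib.MP_95e7ec_an
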