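import Mathlib

/-!
# Ry, V1: the average of the velocities of the roots: the inequalities at one point

`e` is a point of the unit circle, `b_j` the roots, `μ_j` their velocities, `μ'_j` the derivatives of the
velocities. `δ_j = |e - b_j|`, `A_j = δ_j^{-2}`, `V = ∑ A_j Re μ_j / (k^{-2} + ∑ A_j)`.
-/

set_option autoImplicit false

open Complex

namespace Pool.Agent.Lib.MP_95e7ec_an

/-- the root is near the unit circle -/
def vnear (z : ℂ) : Prop := 2 / 3 ≤ ‖z‖ ∧ ‖z‖ ≤ 3 / 2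

/-- The bounds for the roots at one point. -/
structure VPt (d : ℕ) (e : ℂ) (b μ μ' : Fin d → ℂ) (Λ k : ℝ) : Prop where
  unit : ‖e‖ = 1
  ne : ∀ j, ‖b j‖ ≠ 1
  one_le : 1 ≤ Λ
  k_pos : 0 < k
  vel : ∀ j, ‖μ j‖ ≤ Λ
  dvel : ∀ j, ‖μ' j‖ ≤ Λ
  small : ∀ j, vnear (b j) → ‖μ j‖ ≤ k
  dsmall : ∀ j, vnear (b j) → ‖μ' j‖ ≤ k
  im : ∀ j, vnear (b j) → |(μ j).im| ≤ Λ * |‖b j‖ - 1|
  dim : ∀ j, vnear (b j) → |(μ' j).im| ≤ Λ * |‖b j‖ - 1|
  pair : ∀ i j, vnear (b i) → vnear (b j) → ‖μ i - μ j‖ ≤ Λ * ‖b i - b j‖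
  dpair : ∀ i j, vnear (b i) → vnear (b j) → ‖μ' i - μ' j‖ ≤ Λ * ‖b i - b j‖

/-- the weight of a root -/
noncomputable def vA (e z : ℂ) : ℝ := (normSq (e - z))⁻¹

/-- the denominator of the average -/
noncomputable def vDen {d : ℕ} (e : ℂ) (b : Fin d → ℂ) (k : ℝ) : ℝ := (k ^ 2)⁻¹ + ∑ j, vA e (b j)

/-- the average of the velocities -/
noncomputable def vV {d : ℕ} (e : ℂ) (b μ : Fin d → ℂ) (k : ℝ) : ℝ :=
  (∑ j, vA e (b j) * (μ j).re) / vDen e b k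

/-- the quotient `b/(e-b)` -/
noncomputable def vq (e z : ℂ) : ℂ := z / (e - z)

/-- the derivative of the average with respect to the angle -/
noncomputable def vTh {d : ℕ} (e : ℂ) (b μ : Fin d → ℂ) (k : ℝ) : ℝ :=
  (∑ j, 2 * vA e (b j) * (vq e (b j)).im * ((μ j).re - vV e b μ k)) / vDen e b k

/-- the derivative of the average along `Z` -/
noncomputable def vZ {d : ℕ} (e : ℂ) (b μ μ' : Fin d → ℂ) (k : ℝ) : ℝ :=
  (∑ j, (2 * vA e (b j) * (((vV e b μ k : ℂ) - μ j) * vq e (b j)).im * ((μ j).re - vV e b μ k) +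
    vA e (b j) * (μ' j).re)) / vDen e b k

section basic

private theorem V1_key {x y D : ℝ} (hx : 0 < x) (hy : 0 < y) (h1 : (x ^ 2)⁻¹ ≤ D)
    (h2 : (y ^ 2)⁻¹ ≤ D) : x⁻¹ / D ≤ y := by
  have hx2 : 0 < (x ^ 2)⁻¹ := by positivity
  have hD : 0 < D := lt_of_lt_of_le hx2 h1
  rw [div_le_iff₀ hD]
  have h3 : (x ^ 2)⁻¹ * (y ^ 2)⁻¹ ≤ D * D := mul_le_mul h1 h2 (by positivity) hD.le
  have h4 : (x⁻¹ * y⁻¹) ^ 2 ≤ D ^ 2 := by
    have e : (x⁻¹ * y⁻¹) ^ 2 = (x ^ 2)⁻¹ * (y ^ 2)⁻¹ := by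
      rw [mul_pow, inv_pow, inv_pow]
    rw [e, sq D]
    exact h3
  have h5 : x⁻¹ * y⁻¹ ≤ D := le_of_sq_le_sq h4 hD.le
  calc x⁻¹ = y * (x⁻¹ * y⁻¹) := by field_simp
    _ ≤ y * D := mul_le_mul_of_nonneg_left h5 hy.le

end basic

variable {d : ℕ} {e : ℂ} {b μ μ' : Fin d → ℂ} {Λ k : ℝ}

namespace VPt

theorem sub_ne (h : VPt d e b μ μ' Λ k) (j : Fin d) : e - b j ≠ 0 := by
  intro h0
  have h1 : e = b j := sub_eq_zero.1 h0
  exact h.ne j (by rw [← h1]; exact h.unit)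

theorem del_pos (h : VPt d e b μ μ' Λ k) (j : Fin d) : 0 < ‖e - b j‖ := norm_pos_iff.2 (h.sub_ne j)

theorem vA_eq (e z : ℂ) : vA e z = (‖e - z‖ ^ 2)⁻¹ := by
  rw [vA, Complex.sq_norm]

theorem vA_nonneg (e z : ℂ) : 0 ≤ vA e z := by
  rw [vA_eq]
  positivity

theorem den_pos (h : VPt d e b μ μ' Λ k) : 0 < vDen e b k := by
  have h1 := h.k_pos
  have h2 : 0 ≤ ∑ j, vA e (b j) := Finset.sum_nonneg fun j _ => vA_nonneg e (b j)
  unfold vDen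
  positivity

theorem den_ge_k : (k ^ 2)⁻¹ ≤ vDen e b k := by
  have h2 : 0 ≤ ∑ j, vA e (b j) := Finset.sum_nonneg fun j _ => vA_nonneg e (b j)
  unfold vDen
  linarith

theorem den_ge (j : Fin d) : (‖e - b j‖ ^ 2)⁻¹ ≤ vDen e b k := by
  have h2 : vA e (b j) ≤ ∑ j, vA e (b j) :=
    Finset.single_le_sum (fun j _ => vA_nonneg e (b j)) (Finset.mem_univ j)
  have h3 : 0 ≤ (k ^ 2)⁻¹ := by positivity
  rw [← vA_eq]
  unfold vDen
  linarith

theorem sum_w (h : VPt d e b μ μ' Λ k) : (∑ j, vA e (b j)) / vDen e b k ≤ 1 := by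
  rw [div_le_one h.den_pos]
  have h3 : 0 ≤ (k ^ 2)⁻¹ := by positivity
  unfold vDen
  linarith

/-- `∑ w_i δ_i ≤ d y` if `y^{-2} ≤ Den` -/
theorem sum_wdel (h : VPt d e b μ μ' Λ k) {y : ℝ} (hy : 0 < y) (h2 : (y ^ 2)⁻¹ ≤ vDen e b k) :
    (∑ j, vA e (b j) * ‖e - b j‖) / vDen e b k ≤ d * y := by
  rw [Finset.sum_div]
  have h1 : ∀ j ∈ Finset.univ, vA e (b j) * ‖e - b j‖ / vDen e b k ≤ y := by
    intro j _
    have hp := h.del_pos j
    have e1 : vA e (b j) * ‖e - b j‖ = ‖e - b j‖⁻¹ := by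
      rw [vA_eq]
      field_simp
    rw [e1]
    exact V1_key hp hy (den_ge j) h2
  refine (Finset.sum_le_sum h1).trans ?_
  rw [Finset.sum_const, Finset.card_univ, Fintype.card_fin, nsmul_eq_mul]

theorem far_del (h : VPt d e b μ μ' Λ k) {j : Fin d} (hj : ¬ vnear (b j)) : 1 / 3 ≤ ‖e - b j‖ := by
  have h1 : |‖e‖ - ‖b j‖| ≤ ‖e - b j‖ := abs_norm_sub_norm_le e (b j)
  rw [h.unit] at h1
  have h2 := (abs_le.1 h1).1
  have h3 := (abs_le.1 h1).2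
  unfold vnear at hj
  by_contra hcon
  push Not at hcon
  apply hj
  constructor <;> linarith

theorem abs_one_sub (h : VPt d e b μ μ' Λ k) (j : Fin d) : |‖b j‖ - 1| ≤ ‖e - b j‖ := by
  have h1 : |‖e‖ - ‖b j‖| ≤ ‖e - b j‖ := abs_norm_sub_norm_le e (b j)
  rw [h.unit, abs_sub_comm] at h1
  exact h1

theorem norm_b_le (h : VPt d e b μ μ' Λ k) (j : Fin d) : ‖b j‖ ≤ 1 + ‖e - b j‖ := by
  have h1 := (abs_le.1 (h.abs_one_sub j)).2
  linarith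

end VPt

/-- `|Re μ_i - μ_j| ≤ 6 Λ (δ_i + δ_j)` -/
private theorem V1_pair {e z w μ ν : ℂ} {Λ : ℝ} (hΛ : 1 ≤ Λ)
    (hμ : ‖μ‖ ≤ Λ) (hν : ‖ν‖ ≤ Λ)
    (hz : ¬ vnear z → 1 / 3 ≤ ‖e - z‖) (hw : ¬ vnear w → 1 / 3 ≤ ‖e - w‖)
    (him : vnear z → |μ.im| ≤ Λ * |‖z‖ - 1|) (hz1 : |‖z‖ - 1| ≤ ‖e - z‖)
    (hp : vnear z → vnear w → ‖μ - ν‖ ≤ Λ * ‖z - w‖) :
    ‖(μ.re : ℂ) - ν‖ ≤ 6 * Λ * (‖e - z‖ + ‖e - w‖) := by
  have hδz : 0 ≤ ‖e - z‖ := norm_nonneg _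
  have hδw : 0 ≤ ‖e - w‖ := norm_nonneg _
  have hΛ0 : 0 < Λ := by linarith
  have hre : ‖(μ.re : ℂ)‖ ≤ Λ := by
    rw [Complex.norm_real]
    exact (Complex.abs_re_le_norm μ).trans hμ
  have hcr : ‖(μ.re : ℂ) - ν‖ ≤ 2 * Λ := by
    calc ‖(μ.re : ℂ) - ν‖ ≤ ‖(μ.re : ℂ)‖ + ‖ν‖ := norm_sub_le _ _
      _ ≤ 2 * Λ := by linarith
  by_cases h1 : vnear z
  · by_cases h2 : vnear w
    · have e1 : (μ.re : ℂ) - ν = (μ - ν) - (μ.im : ℂ) * I := by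
        apply Complex.ext <;> simp
      have e2 : ‖(μ.im : ℂ) * I‖ = |μ.im| := by simp
      have e3 : ‖z - w‖ ≤ ‖e - z‖ + ‖e - w‖ := by
        have : z - w = -(e - z) + (e - w) := by ring
        rw [this]
        refine (norm_add_le _ _).trans ?_
        rw [norm_neg]
      have h4 := him h1
      have h5 := hp h1 h2
      have h6 : Λ * |‖z‖ - 1| ≤ Λ * ‖e - z‖ := mul_le_mul_of_nonneg_left hz1 hΛ0.le
      have h7 : Λ * ‖z - w‖ ≤ Λ * (‖e - z‖ + ‖e - w‖) := mul_le_mul_of_nonneg_left e3 hΛ0.le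
      rw [e1]
      refine (norm_sub_le _ _).trans ?_
      rw [e2]
      have h8 : 0 ≤ Λ * ‖e - z‖ := by positivity
      have h9 : 0 ≤ Λ * ‖e - w‖ := by positivity
      nlinarith
    · have h3 := hw h2
      nlinarith
  · have h3 := hz h1
    nlinarith

namespace VPt

theorem pr (h : VPt d e b μ μ' Λ k) (i j : Fin d) :
    ‖((μ i).re : ℂ) - μ j‖ ≤ 6 * Λ * (‖e - b i‖ + ‖e - b j‖) :=
  V1_pair h.one_le (h.vel i) (h.vel j) h.far_del h.far_del (h.im i) (h.abs_one_sub i) (h.pair i j)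

theorem dpr (h : VPt d e b μ μ' Λ k) (i j : Fin d) :
    ‖((μ' i).re : ℂ) - μ' j‖ ≤ 6 * Λ * (‖e - b i‖ + ‖e - b j‖) :=
  V1_pair h.one_le (h.dvel i) (h.dvel j) h.far_del h.far_del (h.dim i) (h.abs_one_sub i)
    (h.dpair i j)

end VPt

/-- the average of numbers of size `k` (near) and `Λ` (far) -/
private theorem V1_avg (h : VPt d e b μ μ' Λ k) {ν : Fin d → ℂ} (h1 : ∀ j, ‖ν j‖ ≤ Λ)
    (h2 : ∀ j, vnear (b j) → ‖ν j‖ ≤ k) :
    |(∑ j, vA e (b j) * (ν j).re) / vDen e b k| ≤ k + 9 * d * Λ * k ^ 2 := by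
  have hD := h.den_pos
  have hk := h.k_pos
  have hΛ : 0 < Λ := by linarith [h.one_le]
  rw [abs_div, abs_of_pos hD, div_le_iff₀ hD]
  have h3 : ∀ j ∈ Finset.univ, |vA e (b j) * (ν j).re| ≤ vA e (b j) * k + 9 * Λ := by
    intro j _
    rw [abs_mul, abs_of_nonneg (VPt.vA_nonneg _ _)]
    have hr := Complex.abs_re_le_norm (ν j)
    have hA := VPt.vA_nonneg e (b j)
    by_cases hn : vnear (b j)
    · have := mul_le_mul_of_nonneg_left (hr.trans (h2 j hn)) hA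
      linarith
    · have hf := h.far_del hn
      have hA9 : vA e (b j) ≤ 9 := by
        rw [VPt.vA_eq, inv_le_comm₀ (by have := h.del_pos j; positivity) (by norm_num)]
        nlinarith
      have h5 : vA e (b j) * |(ν j).re| ≤ 9 * Λ :=
        mul_le_mul hA9 (hr.trans (h1 j)) (abs_nonneg _) (by norm_num)
      have h6 : 0 ≤ vA e (b j) * k := by positivity
      linarith
  have h4 := (Finset.abs_sum_le_sum_abs (fun j => vA e (b j) * (ν j).re) Finset.univ).trans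
    (Finset.sum_le_sum h3)
  refine h4.trans ?_
  rw [Finset.sum_add_distrib, Finset.sum_const, Finset.card_univ, Fintype.card_fin, nsmul_eq_mul,
    ← Finset.sum_mul]
  have h5 : (∑ j, vA e (b j)) ≤ vDen e b k := by
    have h3 : 0 ≤ (k ^ 2)⁻¹ := by positivity
    unfold vDen
    linarith
  have h6 : 1 ≤ k ^ 2 * vDen e b k := by
    have := VPt.den_ge_k (e := e) (b := b) (k := k)
    rw [← div_le_iff₀' (by positivity), one_div]
    exact this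
  have h7 : (∑ j, vA e (b j)) * k ≤ vDen e b k * k := mul_le_mul_of_nonneg_right h5 hk.le
  have h8 : (d : ℝ) * (9 * Λ) * 1 ≤ (d : ℝ) * (9 * Λ) * (k ^ 2 * vDen e b k) :=
    mul_le_mul_of_nonneg_left h6 (by positivity)
  nlinarith

/-- the average is near each of the numbers -/
private theorem V1_avg_sub (h : VPt d e b μ μ' Λ k) {ν : Fin d → ℂ}
    (h1 : ∀ j, ‖ν j‖ ≤ Λ) (h2 : ∀ j, vnear (b j) → ‖ν j‖ ≤ k)
    (h3 : ∀ i j, ‖((ν i).re : ℂ) - ν j‖ ≤ 6 * Λ * (‖e - b i‖ + ‖e - b j‖)) (j : Fin d) :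
    ‖(((∑ i, vA e (b i) * (ν i).re) / vDen e b k : ℝ) : ℂ) - ν j‖ ≤
      9 * Λ * (d + 1) * ‖e - b j‖ := by
  have hD := h.den_pos
  have hk := h.k_pos
  have hΛ : 0 < Λ := by linarith [h.one_le]
  have hδ := h.del_pos j
  have hDc : (vDen e b k : ℂ) ≠ 0 := by exact_mod_cast hD.ne'
  have e1 : (((∑ i, vA e (b i) * (ν i).re) / vDen e b k : ℝ) : ℂ) - ν j =
      ((∑ i, (vA e (b i) : ℂ) * (((ν i).re : ℂ) - ν j)) - ((k ^ 2)⁻¹ : ℝ) * ν j) /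
        (vDen e b k : ℂ) := by
    rw [eq_div_iff hDc]
    push_cast
    rw [sub_mul, div_mul_cancel₀ _ hDc]
    have e2 : (∑ i, (vA e (b i) : ℂ) * (((ν i).re : ℂ) - ν j)) =
        (∑ i, (vA e (b i) : ℂ) * ((ν i).re : ℂ)) - (∑ i, (vA e (b i) : ℂ)) * ν j := by
      rw [Finset.sum_mul, ← Finset.sum_sub_distrib]
      exact Finset.sum_congr rfl fun i _ => by ring
    rw [e2]
    unfold vDen
    push_cast
    ring
  rw [e1, norm_div, Complex.norm_real, Real.norm_eq_abs, abs_of_pos hD]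
  have h4 : ‖∑ i, (vA e (b i) : ℂ) * (((ν i).re : ℂ) - ν j)‖ ≤
      6 * Λ * (∑ i, vA e (b i) * ‖e - b i‖) + 6 * Λ * (∑ i, vA e (b i)) * ‖e - b j‖ := by
    refine (norm_sum_le _ _).trans ?_
    have : ∀ i ∈ Finset.univ, ‖(vA e (b i) : ℂ) * (((ν i).re : ℂ) - ν j)‖ ≤
        6 * Λ * (vA e (b i) * ‖e - b i‖) + 6 * Λ * vA e (b i) * ‖e - b j‖ := by
      intro i _
      rw [norm_mul, Complex.norm_real, Real.norm_eq_abs, abs_of_nonneg (VPt.vA_nonneg _ _)]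
      have := mul_le_mul_of_nonneg_left (h3 i j) (VPt.vA_nonneg e (b i))
      linarith
    refine (Finset.sum_le_sum this).trans (le_of_eq ?_)
    rw [Finset.sum_add_distrib, ← Finset.mul_sum, ← Finset.sum_mul, ← Finset.mul_sum]
  have h5 := h.sum_wdel hδ (VPt.den_ge j)
  rw [div_le_iff₀ hD] at h5
  have h6 : (∑ j, vA e (b j)) ≤ vDen e b k := by
    have h3 : 0 ≤ (k ^ 2)⁻¹ := by positivity
    unfold vDen
    linarith
  -- the term of the denominator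
  have h7 : (k ^ 2)⁻¹ * ‖ν j‖ ≤ 3 * Λ * ‖e - b j‖ * vDen e b k := by
    by_cases hn : vnear (b j)
    · have h8 := h2 j hn
      have h9 : k⁻¹ / vDen e b k ≤ ‖e - b j‖ := V1_key hk hδ VPt.den_ge_k (VPt.den_ge j)
      rw [div_le_iff₀ hD] at h9
      calc (k ^ 2)⁻¹ * ‖ν j‖ ≤ (k ^ 2)⁻¹ * k := mul_le_mul_of_nonneg_left h8 (by positivity)
        _ = k⁻¹ := by field_simp
        _ ≤ ‖e - b j‖ * vDen e b k := h9
        _ ≤ 3 * Λ * (‖e - b j‖ * vDen e b k) := by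
            have : 0 ≤ ‖e - b j‖ * vDen e b k := by positivity
            nlinarith [h.one_le]
        _ = _ := by ring
    · have h8 := h1 j
      have h9 := h.far_del hn
      have h10 := VPt.den_ge_k (e := e) (b := b) (k := k)
      calc (k ^ 2)⁻¹ * ‖ν j‖ ≤ vDen e b k * Λ := mul_le_mul h10 h8 (norm_nonneg _) hD.le
        _ ≤ vDen e b k * Λ * (3 * ‖e - b j‖) := by
            have : 0 ≤ vDen e b k * Λ := by positivity
            nlinarith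
        _ = _ := by ring
  rw [div_le_iff₀ hD]
  refine (norm_sub_le _ _).trans ?_
  rw [norm_mul, Complex.norm_real, Real.norm_eq_abs, abs_of_nonneg (by positivity)]
  have h8 : 6 * Λ * (∑ i, vA e (b i)) * ‖e - b j‖ ≤ 6 * Λ * vDen e b k * ‖e - b j‖ := by
    refine mul_le_mul_of_nonneg_right (mul_le_mul_of_nonneg_left h6 (by positivity)) hδ.le
  have h9 : 6 * Λ * (∑ i, vA e (b i) * ‖e - b i‖) ≤ 6 * Λ * (d * ‖e - b j‖ * vDen e b k) :=
    mul_le_mul_of_nonneg_left h5 (by positivity)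
  have h10 : 0 ≤ Λ * (d * ‖e - b j‖ * vDen e b k) := by positivity
  nlinarith

namespace VPt

/-- the number `9 Λ (d+1)` -/
noncomputable def bL (Λ : ℝ) (d : ℕ) : ℝ := 9 * Λ * (d + 1)

theorem le_bL (h : VPt d e b μ μ' Λ k) : 9 * Λ ≤ bL Λ d := by
  have hΛ : 0 < Λ := by linarith [h.one_le]
  have hd : (0 : ℝ) ≤ d := Nat.cast_nonneg d
  unfold bL
  nlinarith

theorem v_le (h : VPt d e b μ μ' Λ k) : |vV e b μ k| ≤ k + 9 * d * Λ * k ^ 2 :=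
  V1_avg h h.vel h.small

theorem v_le_Λ (h : VPt d e b μ μ' Λ k) : |vV e b μ k| ≤ Λ := by
  have hD := h.den_pos
  have hΛ : 0 < Λ := by linarith [h.one_le]
  unfold vV
  rw [abs_div, abs_of_pos hD, div_le_iff₀ hD]
  refine (Finset.abs_sum_le_sum_abs _ _).trans ?_
  have h3 : ∀ j ∈ Finset.univ, |vA e (b j) * (μ j).re| ≤ vA e (b j) * Λ := by
    intro j _
    rw [abs_mul, abs_of_nonneg (vA_nonneg _ _)]
    exact mul_le_mul_of_nonneg_left ((Complex.abs_re_le_norm _).trans (h.vel j)) (vA_nonneg _ _)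
  refine (Finset.sum_le_sum h3).trans ?_
  rw [← Finset.sum_mul, mul_comm Λ]
  refine mul_le_mul_of_nonneg_right ?_ hΛ.le
  have h3 : 0 ≤ (k ^ 2)⁻¹ := by positivity
  unfold vDen
  linarith

theorem v_sub (h : VPt d e b μ μ' Λ k) (j : Fin d) :
    ‖(vV e b μ k : ℂ) - μ j‖ ≤ bL Λ d * ‖e - b j‖ :=
  V1_avg_sub h h.vel h.small h.pr j

theorem re_sub_le (μ : ℂ) (V : ℝ) : |μ.re - V| ≤ ‖(V : ℂ) - μ‖ := by
  have h1 := Complex.abs_re_le_norm ((V : ℂ) - μ)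
  rw [Complex.sub_re, Complex.ofReal_re, abs_sub_comm] at h1
  exact h1

/-- the bound `|V - μ_j| ≤ 2 Λ` -/
theorem v_sub_two (h : VPt d e b μ μ' Λ k) (j : Fin d) : ‖(vV e b μ k : ℂ) - μ j‖ ≤ 2 * Λ := by
  refine (norm_sub_le _ _).trans ?_
  rw [Complex.norm_real, Real.norm_eq_abs]
  linarith [h.v_le_Λ, h.vel j]

theorem q_eq (_h : VPt d e b μ μ' Λ k) (j : Fin d) : ‖vq e (b j)‖ = ‖b j‖ / ‖e - b j‖ := by
  unfold vq
  rw [norm_div]

theorem one_add_q (h : VPt d e b μ μ' Λ k) (j : Fin d) : ‖1 + vq e (b j)‖ = ‖e - b j‖⁻¹ := by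
  have h1 := h.sub_ne j
  have e1 : 1 + vq e (b j) = e / (e - b j) := by
    unfold vq
    field_simp
    ring
  rw [e1, norm_div, h.unit, one_div]

theorem q_far (h : VPt d e b μ μ' Λ k) {j : Fin d} (hn : ¬ vnear (b j)) : ‖vq e (b j)‖ ≤ 4 := by
  have hp := h.del_pos j
  rw [h.q_eq, div_le_iff₀ hp]
  have h1 := h.norm_b_le j
  have h2 := h.far_del hn
  linarith

/-- `|x q_j| ≤ 3/2 B` if `|x| ≤ B δ_j` for the near roots and `|x| ≤ 3/8 B` for the far roots -/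
theorem mul_q (h : VPt d e b μ μ' Λ k) (j : Fin d) {x : ℂ} {B : ℝ} (hB : 0 ≤ B)
    (h1 : vnear (b j) → ‖x‖ ≤ B * ‖e - b j‖) (h2 : ¬ vnear (b j) → ‖x‖ ≤ 3 / 8 * B) :
    ‖x * vq e (b j)‖ ≤ 3 / 2 * B := by
  have hp := h.del_pos j
  rw [norm_mul]
  by_cases hn : vnear (b j)
  · have h3 := h1 hn
    rw [h.q_eq, ← mul_div_assoc, div_le_iff₀ hp]
    have h4 : ‖b j‖ ≤ 3 / 2 := hn.2
    calc ‖x‖ * ‖b j‖ ≤ (B * ‖e - b j‖) * (3 / 2) := mul_le_mul h3 h4 (norm_nonneg _) (by positivity)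
      _ = _ := by ring
  · have h3 := h2 hn
    have h4 := h.q_far hn
    calc ‖x‖ * ‖vq e (b j)‖ ≤ (3 / 8 * B) * 4 := mul_le_mul h3 h4 (norm_nonneg _) (by positivity)
      _ = _ := by ring

theorem v_sub_q (h : VPt d e b μ μ' Λ k) (j : Fin d) :
    ‖((vV e b μ k : ℂ) - μ j) * vq e (b j)‖ ≤ 3 / 2 * bL Λ d := by
  have h1 := h.le_bL
  have hΛ : 0 < Λ := by linarith [h.one_le]
  refine h.mul_q j (by linarith) (fun _ => h.v_sub j) fun _ => ?_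
  have := h.v_sub_two j
  linarith

/-- the derivative in the angle -/
theorem vTh_le (h : VPt d e b μ μ' Λ k) : |vTh e b μ k| ≤ 3 * bL Λ d := by
  have hD := h.den_pos
  have hL : 0 < bL Λ d := by linarith [h.le_bL, h.one_le]
  unfold vTh
  rw [abs_div, abs_of_pos hD, div_le_iff₀ hD]
  refine (Finset.abs_sum_le_sum_abs _ _).trans ?_
  have h3 : ∀ j ∈ Finset.univ, |2 * vA e (b j) * (vq e (b j)).im * ((μ j).re - vV e b μ k)| ≤
      vA e (b j) * (3 * bL Λ d) := by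
    intro j _
    have h4 : |(vq e (b j)).im| * |(μ j).re - vV e b μ k| ≤ 3 / 2 * bL Λ d := by
      have h5 := h.v_sub_q j
      rw [norm_mul] at h5
      calc |(vq e (b j)).im| * |(μ j).re - vV e b μ k| ≤
          ‖vq e (b j)‖ * ‖(vV e b μ k : ℂ) - μ j‖ :=
            mul_le_mul (Complex.abs_im_le_norm _) (re_sub_le _ _) (abs_nonneg _) (norm_nonneg _)
        _ ≤ _ := by linarith
    rw [abs_mul, abs_mul, abs_mul, abs_of_nonneg (vA_nonneg e (b j)), abs_two]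
    have h6 := mul_le_mul_of_nonneg_left h4 (vA_nonneg e (b j))
    linarith
  refine (Finset.sum_le_sum h3).trans ?_
  rw [← Finset.sum_mul, mul_comm (3 * bL Λ d)]
  refine mul_le_mul_of_nonneg_right ?_ (by positivity)
  have h3 : 0 ≤ (k ^ 2)⁻¹ := by positivity
  unfold vDen
  linarith

/-- the first part of `Z V` -/
private theorem Z1_le (h : VPt d e b μ μ' Λ k) {y : ℝ} (hy : 0 < y)
    (h2 : (y ^ 2)⁻¹ ≤ vDen e b k) :
    |(∑ j, 2 * vA e (b j) * (((vV e b μ k : ℂ) - μ j) * vq e (b j)).im *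
      ((μ j).re - vV e b μ k)) / vDen e b k| ≤ 3 * d * bL Λ d ^ 2 * y := by
  have hD := h.den_pos
  have hL : 0 < bL Λ d := by linarith [h.le_bL, h.one_le]
  rw [abs_div, abs_of_pos hD, div_le_iff₀ hD]
  refine (Finset.abs_sum_le_sum_abs _ _).trans ?_
  have h3 : ∀ j ∈ Finset.univ, |2 * vA e (b j) * (((vV e b μ k : ℂ) - μ j) * vq e (b j)).im *
      ((μ j).re - vV e b μ k)| ≤ 3 * bL Λ d ^ 2 * (vA e (b j) * ‖e - b j‖) := by
    intro j _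
    have h4 : |(((vV e b μ k : ℂ) - μ j) * vq e (b j)).im| * |(μ j).re - vV e b μ k| ≤
        3 / 2 * bL Λ d * (bL Λ d * ‖e - b j‖) :=
      mul_le_mul ((Complex.abs_im_le_norm _).trans (h.v_sub_q j))
        ((re_sub_le _ _).trans (h.v_sub j)) (abs_nonneg _) (by positivity)
    rw [abs_mul, abs_mul, abs_mul, abs_of_nonneg (vA_nonneg e (b j)), abs_two]
    have h6 := mul_le_mul_of_nonneg_left h4 (vA_nonneg e (b j))
    linarith
  refine (Finset.sum_le_sum h3).trans ?_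
  rw [← Finset.mul_sum]
  have h5 := h.sum_wdel hy h2
  rw [div_le_iff₀ hD] at h5
  have h6 := mul_le_mul_of_nonneg_left h5 (by positivity : (0 : ℝ) ≤ 3 * bL Λ d ^ 2)
  linarith

private theorem vZ_eq : vZ e b μ μ' k =
    (∑ j, 2 * vA e (b j) * (((vV e b μ k : ℂ) - μ j) * vq e (b j)).im *
      ((μ j).re - vV e b μ k)) / vDen e b k + (∑ j, vA e (b j) * (μ' j).re) / vDen e b k := by
  unfold vZ
  rw [Finset.sum_add_distrib, add_div]

theorem vZ_le (h : VPt d e b μ μ' Λ k) :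
    |vZ e b μ μ' k| ≤ 3 * d * bL Λ d ^ 2 * k + (k + 9 * d * Λ * k ^ 2) := by
  rw [vZ_eq]
  exact (abs_add_le _ _).trans (add_le_add (Z1_le h h.k_pos den_ge_k) (V1_avg h h.dvel h.dsmall))

theorem vZ_sub (h : VPt d e b μ μ' Λ k) (j : Fin d) :
    ‖(vZ e b μ μ' k : ℂ) - μ' j‖ ≤ 4 * (d + 1) * bL Λ d ^ 2 * ‖e - b j‖ := by
  have hL : 1 ≤ bL Λ d := by linarith [h.le_bL, h.one_le]
  have hδ := h.del_pos j
  rw [vZ_eq]
  have h1 := Z1_le h hδ (den_ge j)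
  have h2 := V1_avg_sub h h.dvel h.dsmall h.dpr j
  set X := (∑ j, 2 * vA e (b j) * (((vV e b μ k : ℂ) - μ j) * vq e (b j)).im *
      ((μ j).re - vV e b μ k)) / vDen e b k with hX
  set Y := (∑ j, vA e (b j) * (μ' j).re) / vDen e b k with hY
  have e1 : ((X + Y : ℝ) : ℂ) - μ' j = (X : ℂ) + ((Y : ℂ) - μ' j) := by
    push_cast
    ring
  rw [e1]
  refine (norm_add_le _ _).trans ?_
  rw [Complex.norm_real, Real.norm_eq_abs]
  have h3 : bL Λ d * ‖e - b j‖ ≤ bL Λ d ^ 2 * ‖e - b j‖ := by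
    refine mul_le_mul_of_nonneg_right ?_ hδ.le
    nlinarith
  have h4 : ‖(Y : ℂ) - μ' j‖ ≤ bL Λ d * ‖e - b j‖ := h2
  have h5 : 0 ≤ (d : ℝ) * bL Λ d ^ 2 * ‖e - b j‖ := by positivity
  have h6 : 0 ≤ bL Λ d ^ 2 * ‖e - b j‖ := by positivity
  nlinarith

theorem vZ_sub_q (h : VPt d e b μ μ' Λ k) (j : Fin d) (hk : |vZ e b μ μ' k| ≤ 1) :
    ‖((vZ e b μ μ' k : ℂ) - μ' j) * vq e (b j)‖ ≤ 6 * (d + 1) * bL Λ d ^ 2 := by
  have hL9 := h.le_bL
  have hL : 1 ≤ bL Λ d := by linarith [h.one_le]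
  have hd : (0 : ℝ) ≤ d := Nat.cast_nonneg d
  have h1 : ‖((vZ e b μ μ' k : ℂ) - μ' j) * vq e (b j)‖ ≤
      3 / 2 * (4 * (d + 1) * bL Λ d ^ 2) := by
    refine h.mul_q j (by positivity) (fun _ => h.vZ_sub j) fun _ => ?_
    have h2 : ‖(vZ e b μ μ' k : ℂ) - μ' j‖ ≤ 1 + Λ := by
      refine (norm_sub_le _ _).trans ?_
      rw [Complex.norm_real, Real.norm_eq_abs]
      linarith [h.dvel j]
    have h3 : bL Λ d ≤ bL Λ d ^ 2 := by nlinarith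
    have h4 : 0 ≤ (d : ℝ) * bL Λ d ^ 2 := by positivity
    nlinarith [h.one_le]
  linarith

/-- the quadratic term of `Z Z f` -/
theorem sq_q (h : VPt d e b μ μ' Λ k) (j : Fin d) :
    ‖((vV e b μ k : ℂ) - μ j) ^ 2 * vq e (b j) * (1 + vq e (b j))‖ ≤ 3 / 2 * bL Λ d ^ 2 := by
  have hp := h.del_pos j
  have hL9 := h.le_bL
  have hΛ : 0 < Λ := by linarith [h.one_le]
  have hL : 0 < bL Λ d := by linarith
  rw [norm_mul, norm_mul, norm_pow, h.one_add_q, h.q_eq]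
  have e1 : ‖(vV e b μ k : ℂ) - μ j‖ ^ 2 * (‖b j‖ / ‖e - b j‖) * ‖e - b j‖⁻¹ =
      ‖(vV e b μ k : ℂ) - μ j‖ ^ 2 * ‖b j‖ / ‖e - b j‖ ^ 2 := by
    field_simp
  rw [e1, div_le_iff₀ (by positivity)]
  by_cases hn : vnear (b j)
  · have h1 := h.v_sub j
    have h2 : ‖(vV e b μ k : ℂ) - μ j‖ ^ 2 ≤ (bL Λ d * ‖e - b j‖) ^ 2 :=
      pow_le_pow_left₀ (norm_nonneg _) h1 2
    have h3 : ‖b j‖ ≤ 3 / 2 := hn.2
    calc ‖(vV e b μ k : ℂ) - μ j‖ ^ 2 * ‖b j‖ ≤ (bL Λ d * ‖e - b j‖) ^ 2 * (3 / 2) :=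
          mul_le_mul h2 h3 (norm_nonneg _) (by positivity)
      _ = _ := by ring
  · have h1 := h.v_sub_two j
    have h2 : ‖(vV e b μ k : ℂ) - μ j‖ ^ 2 ≤ (2 * Λ) ^ 2 := pow_le_pow_left₀ (norm_nonneg _) h1 2
    have h3 := h.norm_b_le j
    have h4 := h.far_del hn
    have h5 : ‖b j‖ ≤ 12 * ‖e - b j‖ ^ 2 := by nlinarith
    calc ‖(vV e b μ k : ℂ) - μ j‖ ^ 2 * ‖b j‖ ≤ (2 * Λ) ^ 2 * (12 * ‖e - b j‖ ^ 2) :=
          mul_le_mul h2 h5 (norm_nonneg _) (by positivity)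
      _ = (48 * Λ ^ 2) * ‖e - b j‖ ^ 2 := by ring
      _ ≤ (3 / 2 * bL Λ d ^ 2) * ‖e - b j‖ ^ 2 := by
          refine mul_le_mul_of_nonneg_right ?_ (by positivity)
          nlinarith

/-- on the good rays -/
theorem vTh_good (h : VPt d e b μ μ' Λ k) {κ : ℝ} (hκ : 0 < κ) (hκ1 : κ ≤ 1)
    (hd : ∀ j, κ ≤ ‖e - b j‖) : |vTh e b μ k| ≤ 8 * d * Λ * k ^ 2 / κ ^ 3 := by
  have hD := h.den_pos
  have hk := h.k_pos
  have hΛ : 0 < Λ := by linarith [h.one_le]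
  unfold vTh
  rw [abs_div, abs_of_pos hD, div_le_iff₀ hD]
  refine (Finset.abs_sum_le_sum_abs _ _).trans ?_
  have h3 : ∀ j ∈ Finset.univ, |2 * vA e (b j) * (vq e (b j)).im * ((μ j).re - vV e b μ k)| ≤
      8 * Λ / κ ^ 3 := by
    intro j _
    have hp := h.del_pos j
    have h4 : ‖vq e (b j)‖ ≤ 2 / κ := by
      rw [h.q_eq, div_le_div_iff₀ hp hκ]
      have h5 := h.norm_b_le j
      have h6 := hd j
      nlinarith [norm_nonneg (b j)]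
    have h5 : vA e (b j) ≤ (κ ^ 2)⁻¹ := by
      rw [vA_eq]
      exact inv_anti₀ (by positivity) (pow_le_pow_left₀ hκ.le (hd j) 2)
    have h6 : |(vq e (b j)).im| * |(μ j).re - vV e b μ k| ≤ 2 / κ * (2 * Λ) :=
      mul_le_mul ((Complex.abs_im_le_norm _).trans h4)
        ((re_sub_le _ _).trans (h.v_sub_two j)) (abs_nonneg _) (by positivity)
    rw [abs_mul, abs_mul, abs_mul, abs_of_nonneg (vA_nonneg e (b j)), abs_two]
    have h7 : vA e (b j) * (|(vq e (b j)).im| * |(μ j).re - vV e b μ k|) ≤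
        (κ ^ 2)⁻¹ * (2 / κ * (2 * Λ)) :=
      mul_le_mul h5 h6 (by positivity) (by positivity)
    have e1 : (κ ^ 2)⁻¹ * (2 / κ * (2 * Λ)) = 4 * Λ / κ ^ 3 := by
      field_simp
      ring
    rw [e1] at h7
    have e2 : 8 * Λ / κ ^ 3 = 2 * (4 * Λ / κ ^ 3) := by ring
    rw [e2]
    linarith
  refine (Finset.sum_le_sum h3).trans ?_
  rw [Finset.sum_const, Finset.card_univ, Fintype.card_fin, nsmul_eq_mul]
  have h6 : 1 ≤ k ^ 2 * vDen e b k := by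
    have := den_ge_k (e := e) (b := b) (k := k)
    rw [← div_le_iff₀' (by positivity), one_div]
    exact this
  have h7 : (d : ℝ) * (8 * Λ / κ ^ 3) * 1 ≤ (d : ℝ) * (8 * Λ / κ ^ 3) * (k ^ 2 * vDen e b k) :=
    mul_le_mul_of_nonneg_left h6 (by positivity)
  calc (d : ℝ) * (8 * Λ / κ ^ 3) ≤ (d : ℝ) * (8 * Λ / κ ^ 3) * (k ^ 2 * vDen e b k) := by linarith
    _ = _ := by ring

end VPt

end Pool.Agent.Lib.MP_95e7ec_an
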