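import Mathlib
import Pool.Agent.Lib.MP_95e7ec_an.Ry.Defs
import Pool.Agent.Lib.MP_95e7ec_an.Ry.V1

/-!
# Ry, V2: the derivatives of the average of the velocities and of the argument of the field
-/

set_option autoImplicit false

open Set Filter Topology MeasureTheory Complex
open scoped ContDiff ENNReal

namespace Pool.Agent.Lib.MP_95e7ec_an

/-- the average of the velocities of the roots -/
noncomputable def VF {d : ℕ} (b : Fin d → ℂ → ℂ) (k : ℝ) (p : ℝ × ℝ) : ℝ :=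
  vV (Complex.exp (p.2 * I)) (fun j => b j p.1) (fun j => vel (b j) p.1) k

/-- the derivative of the argument of the field in the direction `(r',θ')` -/
noncomputable def argD {d : ℕ} (b : Fin d → ℂ → ℂ) (c : ℂ → ℂ) (m : ℤ) (p : ℝ × ℝ) (r' θ' : ℝ) : ℝ :=
  (deriv c p.1 / c p.1).im * r' + (m + d) * θ' +
    ∑ j, (((θ' : ℂ) - vel (b j) p.1 * r') * vq (Complex.exp (p.2 * I)) (b j p.1)).re

/-- `Z f` -/
noncomputable def zf {d : ℕ} (b : Fin d → ℂ → ℂ) (c : ℂ → ℂ) (m : ℤ) (k : ℝ) (p : ℝ × ℝ) : ℝ :=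
  (deriv c p.1 / c p.1).im + (m + d) * VF b k p +
    ∑ j, (((VF b k p : ℂ) - vel (b j) p.1) * vq (Complex.exp (p.2 * I)) (b j p.1)).re

/-- `Z V` -/
noncomputable def ZV {d : ℕ} (b : Fin d → ℂ → ℂ) (k : ℝ) (p : ℝ × ℝ) : ℝ :=
  vZ (Complex.exp (p.2 * I)) (fun j => b j p.1) (fun j => vel (b j) p.1)
    (fun j => deriv (vel (b j)) p.1) k

/-- `Z Z f` -/
noncomputable def zzf {d : ℕ} (b : Fin d → ℂ → ℂ) (c : ℂ → ℂ) (m : ℤ) (k : ℝ) (p : ℝ × ℝ) : ℝ :=
  (deriv (fun ρ => deriv c ρ / c ρ) p.1).im + (m + d) * ZV b k p +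
    ∑ j, (((ZV b k p : ℂ) - deriv (vel (b j)) p.1) * vq (Complex.exp (p.2 * I)) (b j p.1) -
      I * (((VF b k p : ℂ) - vel (b j) p.1) ^ 2 * vq (Complex.exp (p.2 * I)) (b j p.1) *
        (1 + vq (Complex.exp (p.2 * I)) (b j p.1)))).re

section curve

theorem V2_re {g : ℝ → ℂ} {g' : ℂ} {s : ℝ} (h : HasDerivAt g g' s) :
    HasDerivAt (fun s => (g s).re) g'.re s :=
  Complex.reCLM.hasFDerivAt.comp_hasDerivAt s h

theorem V2_im {g : ℝ → ℂ} {g' : ℂ} {s : ℝ} (h : HasDerivAt g g' s) :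
    HasDerivAt (fun s => (g s).im) g'.im s :=
  Complex.imCLM.hasFDerivAt.comp_hasDerivAt s h

theorem V2_exp {θ : ℝ → ℝ} {θ' s : ℝ} (h : HasDerivAt θ θ' s) :
    HasDerivAt (fun s => Complex.exp ((θ s : ℂ) * I)) (I * θ' * Complex.exp ((θ s : ℂ) * I)) s := by
  have h1 := (h.ofReal_comp.mul_const I).cexp
  refine h1.congr_deriv ?_
  ring

theorem V2_comp {f : ℂ → ℂ} {f' : ℂ} {r : ℝ → ℝ} {r' s : ℝ} (hf : HasDerivAt f f' (r s : ℂ))
    (hr : HasDerivAt r r' s) : HasDerivAt (fun s => f (r s : ℂ)) (f' * r') s :=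
  HasDerivAt.comp s hf hr.ofReal_comp

theorem V2_normSq {g : ℝ → ℂ} {g' : ℂ} {s : ℝ} (h : HasDerivAt g g' s) :
    HasDerivAt (fun s => normSq (g s)) (2 * (starRingEnd ℂ (g s) * g').re) s := by
  have h1 := ((V2_re h).fun_mul (V2_re h)).fun_add ((V2_im h).fun_mul (V2_im h))
  have e1 : (fun s => normSq (g s)) = fun s => (g s).re * (g s).re + (g s).im * (g s).im := by
    funext s
    rw [normSq_apply]
  rw [e1]
  refine h1.congr_deriv ?_
  rw [mul_re, conj_re, conj_im]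
  ring

theorem V2_inv_normSq {g : ℝ → ℂ} {l : ℂ} {s : ℝ} (h : HasDerivAt g (g s * l) s) (h0 : g s ≠ 0) :
    HasDerivAt (fun s => (normSq (g s))⁻¹) (-(2 * (normSq (g s))⁻¹ * l.re)) s := by
  have hn : normSq (g s) ≠ 0 := (map_ne_zero normSq).2 h0
  have h1 := (V2_normSq h).fun_inv hn
  refine h1.congr_deriv ?_
  have e1 : (starRingEnd ℂ (g s) * (g s * l)).re = normSq (g s) * l.re := by
    rw [← mul_assoc, mul_comm (starRingEnd ℂ (g s)), mul_conj, re_ofReal_mul]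
  rw [e1]
  field_simp

/-- the derivative of `sin` and `cos` of the argument -/
theorem V2_sin {U : ℝ → ℂ} {l : ℂ} {s : ℝ} (h : HasDerivAt U (U s * l) s) (h0 : U s ≠ 0) :
    HasDerivAt (fun s => (U s).im / ‖U s‖) ((U s).re / ‖U s‖ * l.im) s ∧
      HasDerivAt (fun s => (U s).re / ‖U s‖) (-((U s).im / ‖U s‖) * l.im) s := by
  have hn : 0 < ‖U s‖ := norm_pos_iff.2 h0
  have h1 : HasDerivAt (fun s => ‖U s‖) (‖U s‖ * l.re) s := by
    have h2 := V2_normSq h
    have e1 : (starRingEnd ℂ (U s) * (U s * l)).re = normSq (U s) * l.re := by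
      rw [← mul_assoc, mul_comm (starRingEnd ℂ (U s)), mul_conj, re_ofReal_mul]
    rw [e1] at h2
    have h3 := h2.sqrt (by rw [Ne, map_eq_zero]; exact h0)
    have e2 : (fun s => ‖U s‖) = fun s => Real.sqrt (normSq (U s)) := by
      funext s
      rw [normSq_eq_norm_sq, Real.sqrt_sq (norm_nonneg _)]
    rw [e2]
    refine h3.congr_deriv ?_
    rw [normSq_eq_norm_sq, Real.sqrt_sq (norm_nonneg _)]
    field_simp
  constructor
  · have h2 := (V2_im h).fun_div h1 hn.ne'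
    refine h2.congr_deriv ?_
    rw [mul_im]
    field_simp
    ring
  · have h2 := (V2_re h).fun_div h1 hn.ne'
    refine h2.congr_deriv ?_
    rw [mul_re]
    field_simp
    ring

end curve

section roots

variable {Φ : ℝ × ℝ → ℝ × ℝ} {I' : Set ℝ} {d : ℕ} {b : Fin d → ℂ → ℂ} {c : ℂ → ℂ} {m : ℤ}

theorem isOpen_strip {I : Set ℝ} (hI : IsOpen I) : IsOpen (strip I) :=
  hI.preimage Complex.continuous_re

theorem mem_strip {I : Set ℝ} {s : ℝ} (hs : s ∈ I) : (s : ℂ) ∈ strip I := by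
  change ((s : ℂ)).re ∈ I
  rw [Complex.ofReal_re]
  exact hs

namespace RootSys

theorem hasDerivAt_b (h : RootSys Φ I' d b c m) (hI : IsOpen I') (j : Fin d) {s : ℝ} (hs : s ∈ I') :
    HasDerivAt (b j) (I * vel (b j) s * b j s) s := by
  have h1 := ((h.hol j).differentiableAt ((isOpen_strip hI).mem_nhds (mem_strip hs))).hasDerivAt
  have h2 := h.b_ne j s (mem_strip hs)
  refine h1.congr_deriv ?_
  unfold vel
  field_simp
  rw [I_sq]
  ring

theorem hasDerivAt_vel (h : RootSys Φ I' d b c m) (hI : IsOpen I') (j : Fin d) {s : ℝ}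
    (hs : s ∈ I') : HasDerivAt (vel (b j)) (deriv (vel (b j)) s) s := by
  apply DifferentiableAt.hasDerivAt
  have h1 : DifferentiableOn ℂ (deriv (b j)) (strip I') := (h.hol j).deriv (isOpen_strip hI)
  have h2 : DifferentiableOn ℂ (vel (b j)) (strip I') := by
    unfold vel
    exact (h1.const_mul _).div (h.hol j) (h.b_ne j)
  exact h2.differentiableAt ((isOpen_strip hI).mem_nhds (mem_strip hs))

theorem hasDerivAt_c (h : RootSys Φ I' d b c m) (hI : IsOpen I') {s : ℝ} (hs : s ∈ I') :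
    HasDerivAt c (c s * (deriv c s / c s)) s := by
  have h1 := (h.holc.differentiableAt ((isOpen_strip hI).mem_nhds (mem_strip hs))).hasDerivAt
  have h2 := h.c_ne s (mem_strip hs)
  refine h1.congr_deriv ?_
  field_simp

theorem hasDerivAt_dc (h : RootSys Φ I' d b c m) (hI : IsOpen I') {s : ℝ} (hs : s ∈ I') :
    HasDerivAt (fun ρ => deriv c ρ / c ρ) (deriv (fun ρ => deriv c ρ / c ρ) s) s := by
  apply DifferentiableAt.hasDerivAt
  have h1 : DifferentiableOn ℂ (deriv c) (strip I') := h.holc.deriv (isOpen_strip hI)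
  have h2 : DifferentiableOn ℂ (fun ρ => deriv c ρ / c ρ) (strip I') := h1.div h.holc h.c_ne
  exact h2.differentiableAt ((isOpen_strip hI).mem_nhds (mem_strip hs))

end RootSys

private theorem V2_alg {E B x μ y : ℂ} (h0 : E - B ≠ 0) :
    I * x * E - I * μ * B * y = (E - B) * (I * x + I * ((x - μ * y) * (B / (E - B)))) := by
  field_simp
  ring

/-- the logarithmic derivative of `e^{iθ} - b_j` along a curve -/
theorem V2_factor (h : RootSys Φ I' d b c m) (hI : IsOpen I') (j : Fin d) {r θ : ℝ → ℝ}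
    {r' θ' s : ℝ} (hr : HasDerivAt r r' s) (hθ : HasDerivAt θ θ' s) (hs : r s ∈ I')
    (h0 : Complex.exp (θ s * I) - b j (r s) ≠ 0) :
    HasDerivAt (fun s => Complex.exp ((θ s : ℂ) * I) - b j (r s))
      ((Complex.exp (θ s * I) - b j (r s)) *
        (I * θ' + I * (((θ' : ℂ) - vel (b j) (r s) * r') *
          vq (Complex.exp (θ s * I)) (b j (r s))))) s := by
  have h1 := (V2_exp hθ).fun_sub (V2_comp (h.hasDerivAt_b hI j hs) hr)
  exact h1.congr_deriv (V2_alg h0)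

theorem V2_A (h : RootSys Φ I' d b c m) (hI : IsOpen I') (j : Fin d) {r θ : ℝ → ℝ}
    {r' θ' s : ℝ} (hr : HasDerivAt r r' s) (hθ : HasDerivAt θ θ' s) (hs : r s ∈ I')
    (h0 : Complex.exp (θ s * I) - b j (r s) ≠ 0) :
    HasDerivAt (fun s => vA (Complex.exp ((θ s : ℂ) * I)) (b j (r s)))
      (2 * vA (Complex.exp (θ s * I)) (b j (r s)) *
        (((θ' : ℂ) - vel (b j) (r s) * r') * vq (Complex.exp (θ s * I)) (b j (r s))).im) s := by
  have h1 := V2_inv_normSq (V2_factor h hI j hr hθ hs h0) h0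
  refine h1.congr_deriv ?_
  unfold vA
  set z := ((θ' : ℂ) - vel (b j) (r s) * r') * vq (Complex.exp (θ s * I)) (b j (r s)) with hz
  have e1 : (I * (θ' : ℂ) + I * z).re = -z.im := by
    simp
  rw [e1]
  ring

theorem V2_q (h : RootSys Φ I' d b c m) (hI : IsOpen I') (j : Fin d) {r θ : ℝ → ℝ}
    {r' θ' s : ℝ} (hr : HasDerivAt r r' s) (hθ : HasDerivAt θ θ' s) (hs : r s ∈ I')
    (h0 : Complex.exp (θ s * I) - b j (r s) ≠ 0) :
    HasDerivAt (fun s => vq (Complex.exp ((θ s : ℂ) * I)) (b j (r s)))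
      (-(I * (((θ' : ℂ) - vel (b j) (r s) * r') * vq (Complex.exp (θ s * I)) (b j (r s)) *
        (1 + vq (Complex.exp (θ s * I)) (b j (r s)))))) s := by
  have h1 := (V2_comp (h.hasDerivAt_b hI j hs) hr).fun_div (V2_factor h hI j hr hθ hs h0) h0
  refine h1.congr_deriv ?_
  unfold vq
  field_simp
  ring

theorem V2_V (h : RootSys Φ I' d b c m) (hI : IsOpen I') {k : ℝ} (hk : 0 < k) {r θ : ℝ → ℝ}
    {r' θ' s : ℝ} (hr : HasDerivAt r r' s) (hθ : HasDerivAt θ θ' s) (hs : r s ∈ I')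
    (h0 : ∀ j, Complex.exp (θ s * I) - b j (r s) ≠ 0) :
    HasDerivAt (fun s => VF b k (r s, θ s))
      ((∑ j, (2 * vA (Complex.exp (θ s * I)) (b j (r s)) *
        (((θ' : ℂ) - vel (b j) (r s) * r') * vq (Complex.exp (θ s * I)) (b j (r s))).im *
          ((vel (b j) (r s)).re - VF b k (r s, θ s)) +
        vA (Complex.exp (θ s * I)) (b j (r s)) * (deriv (vel (b j)) (r s)).re * r')) /
        vDen (Complex.exp (θ s * I)) (fun j => b j (r s)) k) s := by
  have hD : 0 < vDen (Complex.exp (θ s * I)) (fun j => b j (r s)) k := by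
    have h2 : 0 ≤ ∑ j, vA (Complex.exp (θ s * I)) (b j (r s)) :=
      Finset.sum_nonneg fun j _ => VPt.vA_nonneg _ _
    unfold vDen
    positivity
  have hA := fun j => V2_A h hI j hr hθ hs (h0 j)
  have hM : ∀ j, HasDerivAt (fun s => (vel (b j) (r s)).re) ((deriv (vel (b j)) (r s)).re * r') s := by
    intro j
    have h2 := V2_re (V2_comp (h.hasDerivAt_vel hI j hs) hr)
    refine h2.congr_deriv ?_
    rw [re_mul_ofReal]
  have hN := HasDerivAt.fun_sum fun j (_ : j ∈ Finset.univ) => (hA j).fun_mul (hM j)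
  have hDn : HasDerivAt (fun s => vDen (Complex.exp ((θ s : ℂ) * I)) (fun j => b j (r s)) k)
      (∑ j, 2 * vA (Complex.exp (θ s * I)) (b j (r s)) *
        (((θ' : ℂ) - vel (b j) (r s) * r') * vq (Complex.exp (θ s * I)) (b j (r s))).im) s := by
    have h3 := HasDerivAt.fun_sum fun j (_ : j ∈ Finset.univ) => hA j
    exact h3.const_add ((k ^ 2)⁻¹)
  have h4 := hN.fun_div hDn hD.ne'
  have e1 : (fun s => VF b k (r s, θ s)) = fun s =>
      (∑ j, vA (Complex.exp ((θ s : ℂ) * I)) (b j (r s)) * (vel (b j) (r s)).re) /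
        vDen (Complex.exp ((θ s : ℂ) * I)) (fun j => b j (r s)) k := rfl
  rw [e1]
  refine h4.congr_deriv ?_
  set D := vDen (Complex.exp ((θ s : ℂ) * I)) (fun j => b j (r s)) k with hDdef
  have e2 : VF b k (r s, θ s) = (∑ j, vA (Complex.exp ((θ s : ℂ) * I)) (b j (r s)) *
      (vel (b j) (r s)).re) / D := rfl
  set W := VF b k (r s, θ s) with hW
  set N := ∑ j, vA (Complex.exp ((θ s : ℂ) * I)) (b j (r s)) * (vel (b j) (r s)).re with hNdef
  have e3 : N = W * D := by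
    rw [e2]
    field_simp
  rw [e3]
  have e4 : ∀ X Y : ℝ, (X * D - W * D * Y) / D ^ 2 = (X - W * Y) / D := by
    intro X Y
    field_simp
  rw [e4]
  congr 1
  rw [Finset.mul_sum, ← Finset.sum_sub_distrib]
  refine Finset.sum_congr rfl fun j _ => ?_
  ring

/-- the differentiability of `V` -/
theorem V2_diff (h : RootSys Φ I' d b c m) (hI : IsOpen I') {k : ℝ} (hk : 0 < k) {p : ℝ × ℝ}
    (hp : p.1 ∈ I') (h0 : ∀ j, Complex.exp (p.2 * I) - b j p.1 ≠ 0) :
    DifferentiableAt ℝ (VF b k) p := by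
  have hD : 0 < vDen (Complex.exp (p.2 * I)) (fun j => b j p.1) k := by
    have h2 : 0 ≤ ∑ j, vA (Complex.exp (p.2 * I)) (b j p.1) :=
      Finset.sum_nonneg fun j _ => VPt.vA_nonneg _ _
    unfold vDen
    positivity
  have hf : DifferentiableAt ℝ (fun q : ℝ × ℝ => (q.1 : ℂ)) p :=
    Complex.ofRealCLM.differentiableAt.comp p differentiableAt_fst
  have hs : DifferentiableAt ℝ (fun q : ℝ × ℝ => (q.2 : ℂ)) p :=
    Complex.ofRealCLM.differentiableAt.comp p differentiableAt_snd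
  have hb : ∀ j, DifferentiableAt ℝ (fun q : ℝ × ℝ => b j q.1) p := fun j =>
    (((h.hasDerivAt_b hI j hp).differentiableAt).restrictScalars ℝ).comp p hf
  have hv : ∀ j, DifferentiableAt ℝ (fun q : ℝ × ℝ => vel (b j) q.1) p := fun j =>
    DifferentiableAt.comp (g := vel (b j)) p
      (((h.hasDerivAt_vel hI j hp).differentiableAt).restrictScalars ℝ) hf
  have he : DifferentiableAt ℝ (fun q : ℝ × ℝ => Complex.exp (q.2 * I)) p :=
    (hs.mul_const I).cexp
  have hg : ∀ j, DifferentiableAt ℝ (fun q : ℝ × ℝ => Complex.exp (q.2 * I) - b j q.1) p :=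
    fun j => he.sub (hb j)
  have hre : ∀ g : ℝ × ℝ → ℂ, DifferentiableAt ℝ g p → DifferentiableAt ℝ (fun q => (g q).re) p :=
    fun g hg => Complex.reCLM.differentiableAt.comp p hg
  have him : ∀ g : ℝ × ℝ → ℂ, DifferentiableAt ℝ g p → DifferentiableAt ℝ (fun q => (g q).im) p :=
    fun g hg => Complex.imCLM.differentiableAt.comp p hg
  have hA : ∀ j, DifferentiableAt ℝ (fun q : ℝ × ℝ => vA (Complex.exp (q.2 * I)) (b j q.1)) p := by
    intro j
    have h1 := ((hre _ (hg j)).mul (hre _ (hg j))).add ((him _ (hg j)).mul (him _ (hg j)))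
    have h2 := h1.inv (by
      have h3 : normSq (Complex.exp (p.2 * I) - b j p.1) ≠ 0 := (map_ne_zero normSq).2 (h0 j)
      rw [normSq_apply] at h3
      exact h3)
    exact h2
  have hN := DifferentiableAt.fun_sum fun j (_ : j ∈ Finset.univ) => (hA j).mul (hre _ (hv j))
  have hS := DifferentiableAt.fun_sum fun j (_ : j ∈ Finset.univ) => hA j
  have hDn : DifferentiableAt ℝ (fun q : ℝ × ℝ =>
      vDen (Complex.exp (q.2 * I)) (fun j => b j q.1) k) p := hS.const_add ((k ^ 2)⁻¹)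
  have e1 : VF b k = fun q : ℝ × ℝ =>
      (∑ j, vA (Complex.exp (q.2 * I)) (b j q.1) * (vel (b j) q.1).re) *
        (vDen (Complex.exp (q.2 * I)) (fun j => b j q.1) k)⁻¹ := by
    funext q
    exact div_eq_mul_inv _ _
  rw [e1]
  exact hN.mul (hDn.inv hD.ne')

/-- a directional derivative from the derivative along a line -/
theorem V2_dir {E : Type*} [NormedAddCommGroup E] [NormedSpace ℝ E] {g : ℝ × ℝ → E} {p : ℝ × ℝ}
    (hg : DifferentiableAt ℝ g p) {r' θ' : ℝ}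
    {l : E} (h : HasDerivAt (fun s : ℝ => g (p.1 + s * r', p.2 + s * θ')) l 0) :
    fderiv ℝ g p (r', θ') = l := by
  have h1 : HasDerivAt (fun s : ℝ => (p.1 + s * r', p.2 + s * θ')) (r', θ') 0 := by
    refine HasDerivAt.prodMk ?_ ?_
    · simpa using ((hasDerivAt_id (0 : ℝ)).mul_const r').const_add p.1
    · simpa using ((hasDerivAt_id (0 : ℝ)).mul_const θ').const_add p.2
  have h2 : HasFDerivAt g (fderiv ℝ g p) ((fun s : ℝ => (p.1 + s * r', p.2 + s * θ')) 0) := by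
    simpa using hg.hasFDerivAt
  have h3 := h2.comp_hasDerivAt (0 : ℝ) h1
  exact h3.unique h

theorem V2_line1 (x r' : ℝ) : HasDerivAt (fun s : ℝ => x + s * r') r' 0 := by
  simpa using ((hasDerivAt_id (0 : ℝ)).mul_const r').const_add x

theorem V2_fderiv (h : RootSys Φ I' d b c m) (hI : IsOpen I') {k : ℝ} (hk : 0 < k) {p : ℝ × ℝ}
    (hp : p.1 ∈ I') (h0 : ∀ j, Complex.exp (p.2 * I) - b j p.1 ≠ 0) (r' θ' : ℝ) :
    fderiv ℝ (VF b k) p (r', θ') =
      (∑ j, (2 * vA (Complex.exp (p.2 * I)) (b j p.1) *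
        (((θ' : ℂ) - vel (b j) p.1 * r') * vq (Complex.exp (p.2 * I)) (b j p.1)).im *
          ((vel (b j) p.1).re - VF b k p) +
        vA (Complex.exp (p.2 * I)) (b j p.1) * (deriv (vel (b j)) p.1).re * r')) /
        vDen (Complex.exp (p.2 * I)) (fun j => b j p.1) k := by
  refine V2_dir (V2_diff h hI hk hp h0) ?_
  have h1 := V2_V h hI hk (V2_line1 p.1 r') (V2_line1 p.2 θ') (s := 0) (by simpa using hp)
    (by simpa using h0)
  simpa using h1

theorem V2_d2 (h : RootSys Φ I' d b c m) (hI : IsOpen I') {k : ℝ} (hk : 0 < k) {p : ℝ × ℝ}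
    (hp : p.1 ∈ I') (h0 : ∀ j, Complex.exp (p.2 * I) - b j p.1 ≠ 0) :
    d2 (VF b k) p = vTh (Complex.exp (p.2 * I)) (fun j => b j p.1) (fun j => vel (b j) p.1) k := by
  unfold d2
  rw [V2_fderiv h hI hk hp h0]
  unfold vTh
  congr 1
  refine Finset.sum_congr rfl fun j _ => ?_
  simp only [ofReal_one, ofReal_zero, mul_zero, sub_zero, one_mul, add_zero]
  rfl

theorem zd_eq (V g : ℝ × ℝ → ℝ) (p : ℝ × ℝ) : zd V g p = fderiv ℝ g p (1, V p) := by
  have e1 : ((1 : ℝ), V p) = (1, 0) + V p • ((0 : ℝ), (1 : ℝ)) := by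
    ext <;> simp
  unfold zd d1 d2
  rw [e1, map_add, map_smul, smul_eq_mul]

theorem V2_zd (h : RootSys Φ I' d b c m) (hI : IsOpen I') {k : ℝ} (hk : 0 < k) {p : ℝ × ℝ}
    (hp : p.1 ∈ I') (h0 : ∀ j, Complex.exp (p.2 * I) - b j p.1 ≠ 0) :
    zd (VF b k) (VF b k) p = ZV b k p := by
  rw [zd_eq, V2_fderiv h hI hk hp h0]
  unfold ZV vZ
  congr 1
  refine Finset.sum_congr rfl fun j _ => ?_
  simp only [ofReal_one, mul_one]
  rfl

/-- the derivative of `V` along an integral curve of `Z` -/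
theorem V2_V_int (h : RootSys Φ I' d b c m) (hI : IsOpen I') {k : ℝ} (hk : 0 < k) {r θ : ℝ → ℝ}
    {s : ℝ} (hr : HasDerivAt r 1 s) (hθ : HasDerivAt θ (VF b k (r s, θ s)) s) (hs : r s ∈ I')
    (h0 : ∀ j, Complex.exp (θ s * I) - b j (r s) ≠ 0) :
    HasDerivAt (fun s => VF b k (r s, θ s)) (ZV b k (r s, θ s)) s := by
  refine (V2_V h hI hk hr hθ hs h0).congr_deriv ?_
  unfold ZV vZ
  congr 1
  refine Finset.sum_congr rfl fun j _ => ?_
  simp only [ofReal_one, mul_one]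
  rfl

/-- the derivative of `Z f` along an integral curve of `Z` -/
theorem V2_zf_int (h : RootSys Φ I' d b c m) (hI : IsOpen I') {k : ℝ} (hk : 0 < k) {r θ : ℝ → ℝ}
    {s : ℝ} (hr : HasDerivAt r 1 s) (hθ : HasDerivAt θ (VF b k (r s, θ s)) s) (hs : r s ∈ I')
    (h0 : ∀ j, Complex.exp (θ s * I) - b j (r s) ≠ 0) :
    HasDerivAt (fun s => zf b c m k (r s, θ s)) (zzf b c m k (r s, θ s)) s := by
  have hV := V2_V_int h hI hk hr hθ hs h0
  have h1 : HasDerivAt (fun s => (deriv c (r s) / c (r s)).im)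
      ((deriv (fun ρ => deriv c ρ / c ρ) (r s)).im) s := by
    have h2 := V2_im (V2_comp (h.hasDerivAt_dc hI hs) hr)
    refine h2.congr_deriv ?_
    simp
  have h2 : ∀ j, HasDerivAt (fun s => (((VF b k (r s, θ s) : ℂ) - vel (b j) (r s)) *
      vq (Complex.exp ((θ s : ℂ) * I)) (b j (r s))).re)
      ((((ZV b k (r s, θ s) : ℂ) - deriv (vel (b j)) (r s)) *
        vq (Complex.exp ((θ s : ℂ) * I)) (b j (r s)) -
      I * (((VF b k (r s, θ s) : ℂ) - vel (b j) (r s)) ^ 2 *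
        vq (Complex.exp ((θ s : ℂ) * I)) (b j (r s)) *
        (1 + vq (Complex.exp ((θ s : ℂ) * I)) (b j (r s))))).re) s := by
    intro j
    have h3 := hV.ofReal_comp.fun_sub (V2_comp (h.hasDerivAt_vel hI j hs) hr)
    have h4 := V2_re (h3.fun_mul (V2_q h hI j hr hθ hs (h0 j)))
    refine h4.congr_deriv ?_
    congr 1
    simp only [ofReal_one, mul_one]
    ring
  have h3 := HasDerivAt.fun_sum fun j (_ : j ∈ Finset.univ) => h2 j
  exact (h1.fun_add (hV.const_mul ((m : ℝ) + d))).fun_add h3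

/-- the field as a complex function -/
noncomputable def cpx (Φ : ℝ × ℝ → ℝ × ℝ) (p : ℝ × ℝ) : ℂ := ((Φ p).1 : ℂ) + (Φ p).2 * I

theorem V2_cpx (h : RootSys Φ I' d b c m) (hI : IsOpen I') {r θ : ℝ → ℝ}
    {r' θ' s : ℝ} (hr : HasDerivAt r r' s) (hθ : HasDerivAt θ θ' s) (hs : r s ∈ I')
    (h0 : ∀ j, Complex.exp (θ s * I) - b j (r s) ≠ 0) :
    ∃ l : ℂ, l.im = argD b c m (r s, θ s) r' θ' ∧
      HasDerivAt (fun s => cpx Φ (r s, θ s)) (cpx Φ (r s, θ s) * l) s := by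
  set l : ℂ := deriv c (r s) / c (r s) * r' + m * (I * θ') +
    ∑ j, (I * θ' + I * (((θ' : ℂ) - vel (b j) (r s) * r') *
          vq (Complex.exp (θ s * I)) (b j (r s)))) with hl
  have hprod : HasDerivAt (fun s => ∏ j, (Complex.exp ((θ s : ℂ) * I) - b j (r s)))
      ((∏ j, (Complex.exp ((θ s : ℂ) * I) - b j (r s))) *
        ∑ j, (I * θ' + I * (((θ' : ℂ) - vel (b j) (r s) * r') *
          vq (Complex.exp (θ s * I)) (b j (r s))))) s := by
    have h1 := HasDerivAt.fun_finsetProd (u := Finset.univ)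
      (f := fun j s => Complex.exp ((θ s : ℂ) * I) - b j (r s)) fun j _ =>
        V2_factor h hI j hr hθ hs (h0 j)
    refine h1.congr_deriv ?_
    rw [Finset.mul_sum]
    refine Finset.sum_congr rfl fun j _ => ?_
    rw [smul_eq_mul, ← mul_assoc, Finset.prod_erase_mul _ _ (Finset.mem_univ j)]
  have hexp : HasDerivAt (fun s => Complex.exp (m * ((θ s : ℂ) * I)))
      (Complex.exp (m * ((θ s : ℂ) * I)) * (m * (I * θ'))) s := by
    have h1 := ((hθ.ofReal_comp.mul_const I).const_mul (m : ℂ)).cexp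
    refine h1.congr_deriv ?_
    ring
  have hc : HasDerivAt (fun s => c (r s)) (c (r s) * (deriv c (r s) / c (r s)) * r') s :=
    V2_comp (h.hasDerivAt_c hI hs) hr
  have hall := (hc.fun_mul hexp).fun_mul hprod
  refine ⟨l, ?_, ?_⟩
  · rw [hl]
    unfold argD
    simp only [add_im, im_sum]
    have e1 : ∀ j, (I * (θ' : ℂ)).im + (I * (((θ' : ℂ) - vel (b j) (r s) * r') *
        vq (Complex.exp (θ s * I)) (b j (r s)))).im = θ' + (((θ' : ℂ) - vel (b j) (r s) * r') *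
        vq (Complex.exp (θ s * I)) (b j (r s))).re := by
      intro j
      simp
    rw [Finset.sum_congr rfl fun j _ => e1 j, Finset.sum_add_distrib, Finset.sum_const,
      Finset.card_univ, Fintype.card_fin, nsmul_eq_mul]
    have e2 : (deriv c (r s) / c (r s) * (r' : ℂ)).im = (deriv c (r s) / c (r s)).im * r' :=
      im_mul_ofReal _ _
    have e3 : ((m : ℂ) * (I * (θ' : ℂ))).im = m * θ' := by simp
    rw [e2, e3]
    ring
  · have hev : (fun s => cpx Φ (r s, θ s)) =ᶠ[𝓝 s] fun s =>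
        c (r s) * Complex.exp (m * ((θ s : ℂ) * I)) *
          ∏ j, (Complex.exp ((θ s : ℂ) * I) - b j (r s)) := by
      filter_upwards [hr.continuousAt.preimage_mem_nhds (hI.mem_nhds hs)] with u hu
      exact h.fac (r u, θ u) hu
    refine HasDerivAt.congr_of_eventuallyEq ?_ hev
    refine hall.congr_deriv ?_
    have e0 : cpx Φ (r s, θ s) = c (r s) * Complex.exp (m * ((θ s : ℂ) * I)) *
          ∏ j, (Complex.exp ((θ s : ℂ) * I) - b j (r s)) := h.fac (r s, θ s) hs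
    rw [e0, hl]
    ring

theorem argD_zf {k : ℝ} (p : ℝ × ℝ) : argD b c m p 1 (VF b k p) = zf b c m k p := by
  unfold argD zf
  simp only [ofReal_one, mul_one]

/-- `Φ₁ D Φ₂ - Φ₂ D Φ₁ = |Φ|² D f` -/
theorem V2_cross (h : RootSys Φ I' d b c m) (hI : IsOpen I') (hΦ : Differentiable ℝ Φ) {p : ℝ × ℝ}
    (hp : p.1 ∈ I') (h0 : ∀ j, Complex.exp (p.2 * I) - b j p.1 ≠ 0) (r' θ' : ℝ) :
    (Φ p).1 * fderiv ℝ (fun q => (Φ q).2) p (r', θ') -
      (Φ p).2 * fderiv ℝ (fun q => (Φ q).1) p (r', θ') =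
      nm (Φ p) ^ 2 * argD b c m p r' θ' := by
  obtain ⟨l, hl, hd⟩ := V2_cpx h hI (V2_line1 p.1 r') (V2_line1 p.2 θ') (s := 0)
    (by simpa using hp) (by simpa using h0)
  have e0 : (p.1 + (0 : ℝ) * r', p.2 + (0 : ℝ) * θ') = p := by simp
  rw [e0] at hl hd
  have h1 := V2_re hd
  have h2 := V2_im hd
  have e1 : ∀ q, (cpx Φ q).re = (Φ q).1 := fun q => by simp [cpx]
  have e2 : ∀ q, (cpx Φ q).im = (Φ q).2 := fun q => by simp [cpx]
  simp only [e1] at h1
  simp only [e2] at h2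
  have hf1 : DifferentiableAt ℝ (fun q => (Φ q).1) p := (hΦ p).fst
  have hf2 : DifferentiableAt ℝ (fun q => (Φ q).2) p := (hΦ p).snd
  rw [V2_dir hf1 h1, V2_dir hf2 h2, ← hl, mul_re, mul_im, e1, e2]
  have e3 : nm (Φ p) ^ 2 = (Φ p).1 ^ 2 + (Φ p).2 ^ 2 := by
    unfold nm
    rw [Real.sq_sqrt (by positivity)]
  rw [e3]
  ring

theorem V2_zarg (h : RootSys Φ I' d b c m) (hI : IsOpen I') (hΦ : Differentiable ℝ Φ) {k : ℝ}
    {p : ℝ × ℝ} (hp : p.1 ∈ I') (h0 : ∀ j, Complex.exp (p.2 * I) - b j p.1 ≠ 0) :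
    zarg (VF b k) Φ p = nm (Φ p) ^ 2 * zf b c m k p := by
  unfold zarg
  rw [zd_eq, zd_eq, V2_cross h hI hΦ hp h0, argD_zf]

end roots

end Pool.Agent.Lib.MP_95e7ec_an
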