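import Mathlib
import Pool.Agent.Lib.MP_95e7ec_an.Rq.Defs

/-!
# Ry, V3a: the integral curves of `Z = ∂_ρ + V ∂_θ`
-/

set_option autoImplicit false

open Set Filter Topology MeasureTheory
open scoped NNReal

namespace Pool.Agent.Lib.MP_95e7ec_an

/-- Proof. Picard-Lindelöf on `[-1,1]` for `θ' = V(ρ₀+s, θ)`: `V` is continuous, bounded by `M` and Lipschitz in
`θ` with the constant `L` (mean value theorem); see `LevelCurve_exists` in Rq/LevelCurve.lean. -/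
theorem zcurve {V : ℝ × ℝ → ℝ} {ρ₀ L M : ℝ} (hL : 0 ≤ L) (hM : 0 ≤ M)
    (hd : ∀ p : ℝ × ℝ, p.1 ∈ Icc (ρ₀ - 1) (ρ₀ + 1) → DifferentiableAt ℝ V p)
    (h2 : ∀ p : ℝ × ℝ, p.1 ∈ Icc (ρ₀ - 1) (ρ₀ + 1) → |d2 V p| ≤ L)
    (hV : ∀ p : ℝ × ℝ, p.1 ∈ Icc (ρ₀ - 1) (ρ₀ + 1) → |V p| ≤ M) (θ₀ : ℝ) :
    ∃ θ : ℝ → ℝ, θ 0 = θ₀ ∧ ∀ s ∈ Ioo (-1 : ℝ) 1, HasDerivAt θ (V (ρ₀ + s, θ s)) s := by
  have hmem : ∀ s ∈ Icc (-1 : ℝ) 1, ρ₀ + s ∈ Icc (ρ₀ - 1) (ρ₀ + 1) := by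
    intro s hs
    exact ⟨by linarith [hs.1], by linarith [hs.2]⟩
  have hpl : IsPicardLindelof (fun s θ => V (ρ₀ + s, θ))
      (tmin := -1) (tmax := 1) ⟨0, by constructor <;> norm_num⟩ θ₀ M.toNNReal 0 M.toNNReal
      L.toNNReal := by
    refine ⟨?_, ?_, ?_, ?_⟩
    · intro s hs
      refine LipschitzWith.lipschitzOnWith ?_
      refine lipschitzWith_of_nnnorm_deriv_le (fun θ => ?_) fun θ => ?_
      · exact (hd (ρ₀ + s, θ) (hmem s hs)).comp θ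
          ((differentiableAt_const _).prodMk differentiableAt_id)
      · have h1 : HasDerivAt (fun θ => V (ρ₀ + s, θ)) (d2 V (ρ₀ + s, θ)) θ := by
          have h2 := (hd (ρ₀ + s, θ) (hmem s hs)).hasFDerivAt
          exact h2.comp_hasDerivAt θ ((hasDerivAt_const θ (ρ₀ + s)).prodMk (hasDerivAt_id θ))
        rw [h1.deriv, ← NNReal.coe_le_coe, coe_nnnorm, Real.norm_eq_abs, Real.coe_toNNReal L hL]
        exact h2 _ (hmem s hs)
    · intro θ _ s hs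
      have h1 : ContinuousAt V (ρ₀ + s, θ) := (hd (ρ₀ + s, θ) (hmem s hs)).continuousAt
      have h2 : ContinuousAt (fun s : ℝ => (ρ₀ + s, θ)) s := by fun_prop
      exact (ContinuousAt.comp (f := fun s : ℝ => (ρ₀ + s, θ)) h1 h2).continuousWithinAt
    · intro s hs θ _
      rw [Real.norm_eq_abs, Real.coe_toNNReal M hM]
      exact hV _ (hmem s hs)
    · norm_num
  obtain ⟨th, h3, h4⟩ := hpl.exists_eq_forall_mem_Icc_hasDerivWithinAt₀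
  refine ⟨th, h3, fun s hs => ?_⟩
  exact (h4 s ⟨hs.1.le, hs.2.le⟩).hasDerivAt (Icc_mem_nhds hs.1 hs.2)

end Pool.Agent.Lib.MP_95e7ec_an
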