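import Mathlib

/-!
# Ry, V3b: the inequality of Landau
-/

set_option autoImplicit false

open Set Filter Topology

namespace Pool.Agent.Lib.MP_95e7ec_an

/-- the Taylor inequality -/
private theorem V3b_taylor {ψ ψ1 ψ2 : ℝ → ℝ} {M : ℝ}
    (h1 : ∀ s ∈ Ioo (-1 : ℝ) 1, HasDerivAt ψ (ψ1 s) s)
    (h2 : ∀ s ∈ Ioo (-1 : ℝ) 1, HasDerivAt ψ1 (ψ2 s) s)
    (hM : ∀ s ∈ Ioo (-1 : ℝ) 1, ψ2 s ≤ M) {h : ℝ} (hh : h ∈ Ioo (-1 : ℝ) 1) :
    ψ h ≤ ψ 0 + ψ1 0 * h + M * h ^ 2 / 2 := by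
  have h0 : (0 : ℝ) ∈ Ioo (-1 : ℝ) 1 := by constructor <;> norm_num
  -- the first derivative
  set g : ℝ → ℝ := fun s => ψ1 0 + M * s - ψ1 s with hg
  have hg' : ∀ s ∈ Ioo (-1 : ℝ) 1, HasDerivAt g (M - ψ2 s) s := by
    intro s hs
    have := (((hasDerivAt_id s).const_mul M).const_add (ψ1 0)).sub (h2 s hs)
    refine this.congr_deriv ?_
    simp
  have hgm : MonotoneOn g (Ioo (-1 : ℝ) 1) := by
    refine monotoneOn_of_deriv_nonneg (convex_Ioo _ _) ?_ ?_ ?_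
    · exact fun s hs => (hg' s hs).continuousAt.continuousWithinAt
    · rw [interior_Ioo]
      exact fun s hs => (hg' s hs).differentiableAt.differentiableWithinAt
    · rw [interior_Ioo]
      intro s hs
      rw [(hg' s hs).deriv]
      linarith [hM s hs]
  have hg0 : g 0 = 0 := by simp [hg]
  set G : ℝ → ℝ := fun s => ψ 0 + ψ1 0 * s + M * s ^ 2 / 2 - ψ s with hG
  have hG' : ∀ s ∈ Ioo (-1 : ℝ) 1, HasDerivAt G (g s) s := by
    intro s hs
    have e1 : HasDerivAt (fun s : ℝ => ψ1 0 * s) (ψ1 0) s := by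
      simpa using (hasDerivAt_id s).const_mul (ψ1 0)
    have e2 : HasDerivAt (fun s : ℝ => M * s ^ 2 / 2) (M * s) s := by
      have := ((hasDerivAt_pow 2 s).const_mul M).div_const 2
      refine this.congr_deriv ?_
      push_cast
      ring
    have := ((e1.const_add (ψ 0)).add e2).sub (h1 s hs)
    exact this
  have hG0 : G 0 = 0 := by simp [hG]
  have key : 0 ≤ G h := by
    rcases le_total 0 h with hpos | hneg
    · have hm : MonotoneOn G (Ico (0 : ℝ) 1) := by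
        refine monotoneOn_of_deriv_nonneg (convex_Ico _ _) ?_ ?_ ?_
        · exact fun s hs => (hG' s ⟨by linarith [hs.1], hs.2⟩).continuousAt.continuousWithinAt
        · rw [interior_Ico]
          exact fun s hs =>
            (hG' s ⟨by linarith [hs.1], hs.2⟩).differentiableAt.differentiableWithinAt
        · rw [interior_Ico]
          intro s hs
          have hs' : s ∈ Ioo (-1 : ℝ) 1 := ⟨by linarith [hs.1], hs.2⟩
          rw [(hG' s hs').deriv, ← hg0]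
          exact hgm h0 hs' hs.1.le
      have := hm (⟨le_refl _, by norm_num⟩ : (0 : ℝ) ∈ Ico (0 : ℝ) 1) ⟨hpos, hh.2⟩ hpos
      rwa [hG0] at this
    · have hm : AntitoneOn G (Ioc (-1 : ℝ) 0) := by
        refine antitoneOn_of_deriv_nonpos (convex_Ioc _ _) ?_ ?_ ?_
        · exact fun s hs => (hG' s ⟨hs.1, by linarith [hs.2]⟩).continuousAt.continuousWithinAt
        · rw [interior_Ioc]
          exact fun s hs =>
            (hG' s ⟨hs.1, by linarith [hs.2]⟩).differentiableAt.differentiableWithinAt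
        · rw [interior_Ioc]
          intro s hs
          have hs' : s ∈ Ioo (-1 : ℝ) 1 := ⟨hs.1, by linarith [hs.2]⟩
          rw [(hG' s hs').deriv, ← hg0]
          exact hgm hs' h0 hs.2.le
      have := hm (⟨hh.1, hneg⟩ : h ∈ Ioc (-1 : ℝ) 0) ⟨by norm_num, le_refl _⟩ hneg
      rwa [hG0] at this
  simp only [hG] at key
  linarith

/-- Landau with one-sided bound -/
private theorem V3b_landau {ψ ψ1 ψ2 : ℝ → ℝ} {M : ℝ}
    (h1 : ∀ s ∈ Ioo (-1 : ℝ) 1, HasDerivAt ψ (ψ1 s) s)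
    (h2 : ∀ s ∈ Ioo (-1 : ℝ) 1, HasDerivAt ψ1 (ψ2 s) s)
    (h0 : ∀ s ∈ Ioo (-1 : ℝ) 1, 0 ≤ ψ s) (hM : ∀ s ∈ Ioo (-1 : ℝ) 1, ψ2 s ≤ M)
    (hM0 : 0 < M) (h3 : 2 * ψ 0 < M) : ψ1 0 ^ 2 ≤ 2 * M * ψ 0 := by
  have hz : (0 : ℝ) ∈ Ioo (-1 : ℝ) 1 := by constructor <;> norm_num
  have hψ0 := h0 0 hz
  have hT : ∀ h ∈ Ioo (-1 : ℝ) 1, 0 ≤ ψ 0 + ψ1 0 * h + M * h ^ 2 / 2 :=
    fun h hh => (h0 h hh).trans (V3b_taylor h1 h2 hM hh)
  -- first `|ψ1 0| < M`
  have hlt : |ψ1 0| < M := by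
    by_contra hcon
    push Not at hcon
    set δ : ℝ := 1 - 2 * ψ 0 / M with hδ
    have hδ0 : 0 < δ := by
      rw [hδ, sub_pos, div_lt_one hM0]
      exact h3
    have hδ1 : δ ≤ 1 := by
      rw [hδ]
      have : 0 ≤ 2 * ψ 0 / M := by positivity
      linarith
    have hδM : M * δ = M - 2 * ψ 0 := by
      rw [hδ]
      field_simp
    set r : ℝ := 1 - δ / 2 with hr
    have hr0 : 0 < r := by linarith
    have hr1 : r < 1 := by linarith
    have key : ψ 0 - |ψ1 0| * r + M * r ^ 2 / 2 < 0 := by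
      have e1 : M * r ≤ |ψ1 0| * r := mul_le_mul_of_nonneg_right hcon hr0.le
      have e2 : ψ 0 = (M - M * δ) / 2 := by linarith
      have e3 : M * r ^ 2 / 2 - M * r = -(M / 2) + M * δ ^ 2 / 8 := by
        rw [hr]
        ring
      have e4 : M * δ ^ 2 ≤ M * δ := by
        refine mul_le_mul_of_nonneg_left ?_ hM0.le
        nlinarith
      have e5 : 0 < M * δ := by positivity
      linarith
    rcases abs_cases (ψ1 0) with ⟨hc, _⟩ | ⟨hc, _⟩
    · have := hT (-r) ⟨by linarith, by linarith⟩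
      rw [hc] at key
      nlinarith
    · have := hT r ⟨by linarith, by linarith⟩
      rw [hc] at key
      nlinarith
  have h4 := abs_lt.1 hlt
  have h5 := hT (-(ψ1 0 / M)) (by
    constructor
    · rw [neg_lt_neg_iff, div_lt_one hM0]
      exact h4.2
    · rw [neg_lt, lt_div_iff₀ hM0]
      linarith)
  have h6 : ψ 0 + ψ1 0 * -(ψ1 0 / M) + M * (-(ψ1 0 / M)) ^ 2 / 2 = ψ 0 - ψ1 0 ^ 2 / (2 * M) := by
    field_simp
    ring
  rw [h6] at h5
  have h7 : ψ1 0 ^ 2 / (2 * M) ≤ ψ 0 := by linarith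
  rw [div_le_iff₀ (by positivity)] at h7
  linarith

/-- **Landau.** A nonnegative function on `(-1,1)` with second derivative at most `M`. -/
theorem landau {ψ ψ₁ ψ₂ : ℝ → ℝ} {M : ℝ} (h0 : ∀ s ∈ Ioo (-1 : ℝ) 1, 0 ≤ ψ s)
    (h1 : ∀ s ∈ Ioo (-1 : ℝ) 1, HasDerivAt ψ (ψ₁ s) s)
    (h2 : ∀ s ∈ Ioo (-1 : ℝ) 1, HasDerivAt ψ₁ (ψ₂ s) s)
    (hb : ∀ s ∈ Ioo (-1 : ℝ) 1, |ψ₂ s| ≤ M) (h : 2 * ψ 0 < M) : ψ₁ 0 ^ 2 ≤ 2 * M * ψ 0 := by
  have hz : (0 : ℝ) ∈ Ioo (-1 : ℝ) 1 := by constructor <;> norm_num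
  have hM : 0 < M := by linarith [h0 0 hz]
  exact V3b_landau h1 h2 h0 (fun s hs => (le_abs_self _).trans (hb s hs)) hM h

end Pool.Agent.Lib.MP_95e7ec_an
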