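import Mathlib
import Pool.Agent.Lib.MP_95e7ec_an.Ry.Defs
import Pool.Agent.Lib.MP_95e7ec_an.Ry.V1
import Pool.Agent.Lib.MP_95e7ec_an.Ry.V2
import Pool.Agent.Lib.MP_95e7ec_an.Ry.V3a
import Pool.Agent.Lib.MP_95e7ec_an.Ry.V3b

/-!
# Ry, PartV: the frame
-/

set_option autoImplicit false

open Set Filter Topology MeasureTheory Complex
open scoped ContDiff ENNReal

namespace Pool.Agent.Lib.MP_95e7ec_an

section

variable {Φ : ℝ × ℝ → ℝ × ℝ} {I' : Set ℝ} {d N : ℕ} {b : Fin d → ℂ → ℂ} {c : ℂ → ℂ} {m : ℤ}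
  {τ : ℝ → ℝ} {Λ κ k : ℝ}

theorem RootBd.vpt (h : RootBd I' d b c τ Λ k κ) (hΛ : 1 ≤ Λ) (hk : 0 < k) {p : ℝ × ℝ}
    (hp : p.1 ∈ I') :
    VPt d (Complex.exp (p.2 * I)) (fun j => b j p.1) (fun j => vel (b j) p.1)
      (fun j => deriv (vel (b j)) p.1) Λ k where
  unit := norm_exp_ofReal_mul_I _
  ne := fun j => h.unit j _ hp
  one_le := hΛ
  k_pos := hk
  vel := fun j => h.vel_le j _ hp
  dvel := fun j => h.dvel_le j _ hp
  small := fun j => h.vel_small j _ hp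
  dsmall := fun j => h.dvel_small j _ hp
  im := fun j => h.vel_im j _ hp
  dim := fun j => h.dvel_im j _ hp
  pair := fun i j => h.pair i j _ hp
  dpair := fun i j => h.dpair i j _ hp

/-! ### The sizes of the numbers -/

/-- the sizes of the numbers: `n = N+1` -/
private structure Sz (Λ κ t k n : ℝ) : Prop where
  n1 : 1 ≤ n
  L1 : 1 ≤ Λ
  κ0 : 0 < κ
  κ1 : κ ≤ 1
  t0 : 0 < t
  t1 : t ≤ 1 / 10 ^ 14
  k0 : 0 < k
  kA : k * (n ^ 3 * Λ ^ 2) ≤ t ^ 2 * κ ^ 3 / 10 ^ 6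

private theorem Sz.k_le {Λ κ t k n : ℝ} (h : Sz Λ κ t k n) : k ≤ t ^ 2 * κ ^ 3 / 10 ^ 6 := by
  have h1 : 1 ≤ n ^ 3 * Λ ^ 2 := one_le_mul_of_one_le_of_one_le (one_le_pow₀ h.n1) (one_le_pow₀ h.L1)
  have h2 := h.kA
  have h3 := h.k0
  nlinarith

private theorem Sz.k_le2 {Λ κ t k n : ℝ} (h : Sz Λ κ t k n) : k ≤ t ^ 2 / 10 ^ 6 := by
  have h1 : κ ^ 3 ≤ 1 := pow_le_one₀ h.κ0.le h.κ1
  have h2 : 0 ≤ t ^ 2 := sq_nonneg t
  have h3 := h.k_le
  nlinarith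

private theorem Sz.kB {Λ κ t k n : ℝ} (h : Sz Λ κ t k n) : k * (n ^ 3 * Λ ^ 2) ≤ t ^ 2 / 10 ^ 6 := by
  have h1 : κ ^ 3 ≤ 1 := pow_le_one₀ h.κ0.le h.κ1
  have h2 : 0 ≤ t ^ 2 := sq_nonneg t
  have h3 := h.kA
  nlinarith

private theorem Sz.t2 {Λ κ t k n : ℝ} (h : Sz Λ κ t k n) : t ^ 2 ≤ t := by
  have := h.t0
  have := h.t1
  nlinarith

private theorem Sz.kn {Λ κ t k n : ℝ} (h : Sz Λ κ t k n) : n * Λ * k ≤ t ^ 2 / 10 ^ 6 := by
  have h1 : n * Λ ≤ n ^ 3 * Λ ^ 2 := by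
    have h2 : n ≤ n ^ 3 := le_self_pow₀ h.n1 (by norm_num)
    have h3 : Λ ≤ Λ ^ 2 := le_self_pow₀ h.L1 (by norm_num)
    have := h.n1
    have := h.L1
    exact mul_le_mul h2 h3 (by linarith) (by positivity)
  have h2 := mul_le_mul_of_nonneg_right h1 h.k0.le
  have h3 := h.kB
  linarith

/-- `k + 9 d Λ k² ≤ 2 k` -/
private theorem Sz.two {Λ κ t k n : ℝ} (h : Sz Λ κ t k n) {d : ℝ} (hd : d ≤ n) :
    k + 9 * d * Λ * k ^ 2 ≤ 2 * k := by
  have h1 := h.kn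
  have h2 := h.t2
  have h3 := h.t1
  have h4 := h.k0
  have h5 := h.L1
  have h6 : d * Λ * k ≤ n * Λ * k := by
    refine mul_le_mul_of_nonneg_right (mul_le_mul_of_nonneg_right hd (by linarith)) h4.le
  have h7 : 9 * (d * Λ * k) ≤ 1 := by nlinarith
  nlinarith

end

section

variable {Φ : ℝ × ℝ → ℝ × ℝ} {I' : Set ℝ} {d N : ℕ} {b : Fin d → ℂ → ℂ} {c : ℂ → ℂ} {m : ℤ}
  {τ : ℝ → ℝ} {Λ κ k t : ℝ}

private theorem bL_le (hd : d ≤ N) (hΛ : 1 ≤ Λ) : VPt.bL Λ d ≤ 9 * Λ * ((N : ℝ) + 1) := by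
  unfold VPt.bL
  have h1 : (d : ℝ) ≤ N := by exact_mod_cast hd
  have h2 : 0 ≤ 9 * Λ := by linarith
  exact mul_le_mul_of_nonneg_left (by linarith) h2

private theorem VF_le (hs : Sz Λ κ t k ((N : ℝ) + 1)) (hd : d ≤ N)
    (hb : RootBd I' d b c τ Λ k κ) {p : ℝ × ℝ} (hp : p.1 ∈ I') :
    |VF b k p| ≤ 2 * k := by
  have h1 := (hb.vpt hs.L1 hs.k0 hp).v_le
  have h2 : (d : ℝ) ≤ (N : ℝ) + 1 := by
    have : (d : ℝ) ≤ N := by exact_mod_cast hd
    linarith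
  exact h1.trans (hs.two h2)

private theorem ZV_le (hs : Sz Λ κ t k ((N : ℝ) + 1)) (hd : d ≤ N)
    (hb : RootBd I' d b c τ Λ k κ) {p : ℝ × ℝ} (hp : p.1 ∈ I') :
    |ZV b k p| ≤ t ^ 2 / 1000 := by
  have h1 := (hb.vpt hs.L1 hs.k0 hp).vZ_le
  have h2 : (d : ℝ) ≤ (N : ℝ) + 1 := by
    have : (d : ℝ) ≤ N := by exact_mod_cast hd
    linarith
  have h3 := hs.two h2
  have hL := bL_le hd hs.L1
  have hL0 : 0 ≤ VPt.bL Λ d := by
    have := hs.L1
    unfold VPt.bL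
    positivity
  set n := (N : ℝ) + 1 with hn
  have h4 : VPt.bL Λ d ^ 2 ≤ (9 * Λ * n) ^ 2 := pow_le_pow_left₀ hL0 hL 2
  have hk := hs.k0
  have h5 : 3 * (d : ℝ) * VPt.bL Λ d ^ 2 * k ≤ 3 * n * (9 * Λ * n) ^ 2 * k := by
    have hn1 := hs.n1
    refine mul_le_mul_of_nonneg_right ?_ hk.le
    exact mul_le_mul (by linarith) h4 (by positivity) (by positivity)
  have h6 : 3 * n * (9 * Λ * n) ^ 2 * k = 243 * (k * (n ^ 3 * Λ ^ 2)) := by ring
  have h7 := hs.kB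
  have h8 := hs.k_le2
  have h9 : 0 ≤ t ^ 2 := sq_nonneg t
  unfold ZV
  linarith

private theorem zf_le (hs : Sz Λ κ t k ((N : ℝ) + 1)) (hd : d ≤ N) (hm : |m| ≤ N)
    (hb : RootBd I' d b c τ Λ k κ) {p : ℝ × ℝ} (hp : p.1 ∈ I') :
    |zf b c m k p| ≤ 16 * ((N : ℝ) + 1) ^ 2 * Λ := by
  have hv := hb.vpt hs.L1 hs.k0 hp
  have h2 : (d : ℝ) ≤ N := by exact_mod_cast hd
  have hm' : |(m : ℝ)| ≤ N := by
    rw [← Int.cast_abs]
    exact_mod_cast hm
  have hV := VF_le hs hd hb hp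
  have hL := bL_le hd hs.L1
  have hL0 : 0 ≤ VPt.bL Λ d := by
    have := hs.L1
    unfold VPt.bL
    positivity
  have h3 : |(deriv c p.1 / c p.1).im| ≤ Λ := (abs_im_le_norm _).trans (hb.lead _ hp)
  have h4 : |∑ j, (((VF b k p : ℂ) - vel (b j) p.1) * vq (Complex.exp (p.2 * I)) (b j p.1)).re| ≤
      d * (3 / 2 * VPt.bL Λ d) := by
    refine (Finset.abs_sum_le_sum_abs _ _).trans ?_
    refine (Finset.sum_le_sum fun j _ => (abs_re_le_norm _).trans (hv.v_sub_q j)).trans ?_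
    rw [Finset.sum_const, Finset.card_univ, Fintype.card_fin, nsmul_eq_mul]
  have h5 : |((m : ℝ) + d) * VF b k p| ≤ (2 * N) * (2 * k) := by
    rw [abs_mul]
    refine mul_le_mul ?_ hV (abs_nonneg _) (by positivity)
    refine (abs_add_le _ _).trans ?_
    rw [abs_of_nonneg (by positivity : (0 : ℝ) ≤ d)]
    linarith
  have h6 : |zf b c m k p| ≤ Λ + (2 * N) * (2 * k) + d * (3 / 2 * VPt.bL Λ d) := by
    unfold zf
    exact (abs_add_le _ _).trans (add_le_add ((abs_add_le _ _).trans (add_le_add h3 h5)) h4)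
  refine h6.trans ?_
  have hN : (0 : ℝ) ≤ N := Nat.cast_nonneg N
  have hL1 := hs.L1
  have hk := hs.k0
  have hkn := hs.kn
  have ht2 := hs.t2
  have ht1 := hs.t1
  have h7 : (N : ℝ) * k ≤ ((N : ℝ) + 1) * Λ * k := by
    refine mul_le_mul_of_nonneg_right ?_ hk.le
    nlinarith
  have h8 : (d : ℝ) * (3 / 2 * VPt.bL Λ d) ≤ ((N : ℝ) + 1) * (3 / 2 * (9 * Λ * ((N : ℝ) + 1))) :=
    mul_le_mul (by linarith) (by linarith) (by positivity) (by positivity)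
  have h9 : Λ ≤ Λ * ((N : ℝ) + 1) ^ 2 := by
    have : (1 : ℝ) ≤ ((N : ℝ) + 1) ^ 2 := one_le_pow₀ (by linarith)
    nlinarith
  nlinarith

private theorem zzf_le (hs : Sz Λ κ t k ((N : ℝ) + 1)) (hd : d ≤ N) (hm : |m| ≤ N)
    (hb : RootBd I' d b c τ Λ k κ) {p : ℝ × ℝ} (hp : p.1 ∈ I') :
    |zzf b c m k p| ≤ 610 * ((N : ℝ) + 1) ^ 4 * Λ ^ 2 := by
  have hv := hb.vpt hs.L1 hs.k0 hp
  have h2 : (d : ℝ) ≤ N := by exact_mod_cast hd
  have hm' : |(m : ℝ)| ≤ N := by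
    rw [← Int.cast_abs]
    exact_mod_cast hm
  have hZ := ZV_le hs hd hb hp
  have ht2 := hs.t2
  have ht1 := hs.t1
  have ht0 := hs.t0
  have hL := bL_le hd hs.L1
  have hL0 : 0 ≤ VPt.bL Λ d := by
    have := hs.L1
    unfold VPt.bL
    positivity
  have h3 : |(deriv (fun ρ => deriv c ρ / c ρ) p.1).im| ≤ Λ :=
    (abs_im_le_norm _).trans (hb.dlead _ hp)
  have h4 : |∑ j, (((ZV b k p : ℂ) - deriv (vel (b j)) p.1) *
      vq (Complex.exp (p.2 * I)) (b j p.1) -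
      I * (((VF b k p : ℂ) - vel (b j) p.1) ^ 2 * vq (Complex.exp (p.2 * I)) (b j p.1) *
        (1 + vq (Complex.exp (p.2 * I)) (b j p.1)))).re| ≤
      d * (6 * (d + 1) * VPt.bL Λ d ^ 2 + 3 / 2 * VPt.bL Λ d ^ 2) := by
    refine (Finset.abs_sum_le_sum_abs _ _).trans ?_
    have h5 : ∀ j ∈ Finset.univ, |(((ZV b k p : ℂ) - deriv (vel (b j)) p.1) *
      vq (Complex.exp (p.2 * I)) (b j p.1) -
      I * (((VF b k p : ℂ) - vel (b j) p.1) ^ 2 * vq (Complex.exp (p.2 * I)) (b j p.1) *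
        (1 + vq (Complex.exp (p.2 * I)) (b j p.1)))).re| ≤
        6 * (d + 1) * VPt.bL Λ d ^ 2 + 3 / 2 * VPt.bL Λ d ^ 2 := by
      intro j _
      refine (abs_re_le_norm _).trans ((norm_sub_le _ _).trans ?_)
      refine add_le_add (hv.vZ_sub_q j ?_) ?_
      · have : |ZV b k p| ≤ 1 := by linarith
        exact this
      · rw [norm_mul, norm_I, one_mul]
        exact hv.sq_q j
    refine (Finset.sum_le_sum h5).trans ?_
    rw [Finset.sum_const, Finset.card_univ, Fintype.card_fin, nsmul_eq_mul]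
  have h5 : |((m : ℝ) + d) * ZV b k p| ≤ (2 * N) * (t ^ 2 / 1000) := by
    rw [abs_mul]
    refine mul_le_mul ?_ hZ (abs_nonneg _) (by positivity)
    refine (abs_add_le _ _).trans ?_
    rw [abs_of_nonneg (by positivity : (0 : ℝ) ≤ d)]
    linarith
  have h6 : |zzf b c m k p| ≤ Λ + (2 * N) * (t ^ 2 / 1000) +
      d * (6 * (d + 1) * VPt.bL Λ d ^ 2 + 3 / 2 * VPt.bL Λ d ^ 2) := by
    unfold zzf
    exact (abs_add_le _ _).trans (add_le_add ((abs_add_le _ _).trans (add_le_add h3 h5)) h4)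
  refine h6.trans ?_
  have hN : (0 : ℝ) ≤ N := Nat.cast_nonneg N
  have hL1 := hs.L1
  set n := (N : ℝ) + 1 with hn
  have hn1 : 1 ≤ n := hs.n1
  have h7 : VPt.bL Λ d ^ 2 ≤ 81 * Λ ^ 2 * n ^ 2 := by
    have := pow_le_pow_left₀ hL0 hL 2
    calc VPt.bL Λ d ^ 2 ≤ (9 * Λ * n) ^ 2 := this
      _ = _ := by ring
  have h8 : (6 * ((d : ℝ) + 1) * VPt.bL Λ d ^ 2 + 3 / 2 * VPt.bL Λ d ^ 2) ≤
      15 / 2 * n * (81 * Λ ^ 2 * n ^ 2) := by
    have e1 : (6 * ((d : ℝ) + 1) * VPt.bL Λ d ^ 2 + 3 / 2 * VPt.bL Λ d ^ 2) =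
        (6 * ((d : ℝ) + 1) + 3 / 2) * VPt.bL Λ d ^ 2 := by ring
    rw [e1]
    refine mul_le_mul ?_ h7 (by positivity) (by positivity)
    linarith
  have h9 : (d : ℝ) * (6 * ((d : ℝ) + 1) * VPt.bL Λ d ^ 2 + 3 / 2 * VPt.bL Λ d ^ 2) ≤
      n * (15 / 2 * n * (81 * Λ ^ 2 * n ^ 2)) :=
    mul_le_mul (by linarith) h8 (by positivity) (by positivity)
  have h10 : n * (15 / 2 * n * (81 * Λ ^ 2 * n ^ 2)) = 607.5 * (n ^ 4 * Λ ^ 2) := by
    norm_num
    ring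
  have h11 : Λ ≤ n ^ 4 * Λ ^ 2 := by
    have h12 : (1 : ℝ) ≤ n ^ 4 := one_le_pow₀ hn1
    nlinarith
  have h12 : (2 * (N : ℝ)) * (t ^ 2 / 1000) ≤ n ^ 4 * Λ ^ 2 := by
    have h13 : n ≤ n ^ 4 := le_self_pow₀ hn1 (by norm_num)
    have h14 : (1 : ℝ) ≤ Λ ^ 2 := one_le_pow₀ hL1
    have h15 : (2 * (N : ℝ)) * (t ^ 2 / 1000) ≤ n * 1 := by
      have : t ^ 2 / 1000 ≤ 1 / 2 := by linarith
      nlinarith
    have h16 : n * 1 ≤ n ^ 4 * Λ ^ 2 := mul_le_mul h13 h14 (by norm_num) (by positivity)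
    exact h15.trans h16
  rw [h10] at h9
  linarith

private theorem th_le (hs : Sz Λ κ t k ((N : ℝ) + 1)) (hd : d ≤ N) (hI : IsOpen I')
    (hr : RootSys Φ I' d b c m) (hb : RootBd I' d b c τ Λ k κ) {p : ℝ × ℝ} (hp : p.1 ∈ I') :
    |d2 (VF b k) p| ≤ 27 * Λ * ((N : ℝ) + 1) := by
  have hv := hb.vpt hs.L1 hs.k0 hp
  have h1 := hv.vTh_le
  have hL := bL_le hd hs.L1
  rw [V2_d2 hr hI hs.k0 hp hv.sub_ne]
  linarith

private theorem th_good (hs : Sz Λ κ t k ((N : ℝ) + 1)) (hd : d ≤ N) (hI : IsOpen I')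
    (hr : RootSys Φ I' d b c m) (hb : RootBd I' d b c τ Λ k κ) {p : ℝ × ℝ} (hp : p.1 ∈ I')
    (hτ : τ p.2 < 1) : |d2 (VF b k) p| ≤ t ^ 2 / 1000 := by
  have hv := hb.vpt hs.L1 hs.k0 hp
  have h1 := hv.vTh_good hs.κ0 hs.κ1 (fun j => hb.good_dist _ hτ _ hp j)
  rw [V2_d2 hr hI hs.k0 hp hv.sub_ne]
  refine h1.trans ?_
  have hκ := hs.κ0
  have hk := hs.k0
  have hkn := hs.kn
  have ht2 := hs.t2
  have ht1 := hs.t1
  have hkA := hs.k_le
  have hL1 := hs.L1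
  have h2 : (d : ℝ) ≤ (N : ℝ) + 1 := by
    have : (d : ℝ) ≤ N := by exact_mod_cast hd
    linarith
  rw [div_le_iff₀ (by positivity)]
  have h3 : (d : ℝ) * Λ * k ≤ t ^ 2 / 10 ^ 6 := by
    refine le_trans ?_ hkn
    exact mul_le_mul_of_nonneg_right (mul_le_mul_of_nonneg_right h2 (by linarith)) hk.le
  have h4 : (d : ℝ) * Λ * k * k ≤ (t ^ 2 / 10 ^ 6) * (t ^ 2 * κ ^ 3 / 10 ^ 6) :=
    mul_le_mul h3 hkA hk.le (by positivity)
  have h5 : (t ^ 2 / 10 ^ 6) * (t ^ 2 * κ ^ 3 / 10 ^ 6) ≤ t ^ 2 * κ ^ 3 / 10 ^ 6 := by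
    have : t ^ 2 / 10 ^ 6 ≤ 1 := by linarith
    have h6 : 0 ≤ t ^ 2 * κ ^ 3 / 10 ^ 6 := by positivity
    nlinarith
  have h7 : 0 ≤ t ^ 2 * κ ^ 3 := by positivity
  nlinarith

private theorem zf_good (hs : Sz Λ κ t k ((N : ℝ) + 1)) (hd : d ≤ N) (hm : |m| ≤ N)
    (hI : IsOpen I') (hr : RootSys Φ I' d b c m)
    (hb : RootBd I' d b c τ Λ k κ) {p : ℝ × ℝ} (hp : p.1 ∈ I') (hτ : τ p.2 < 1) :
    |zf b c m k p| ≤ t ^ 2 / 1000 := by
  have hv := hb.vpt hs.L1 hs.k0 hp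
  have h2 : (d : ℝ) ≤ N := by exact_mod_cast hd
  have hm' : |(m : ℝ)| ≤ N := by
    rw [← Int.cast_abs]
    exact_mod_cast hm
  have hV := VF_le hs hd hb hp
  have hg := hb.good_rho _ hτ _ hp
  have hκ := hs.κ0
  have e1 : ∀ j, deriv (b j) p.1 / (Complex.exp (p.2 * I) - b j p.1) =
      I * (vel (b j) p.1 * vq (Complex.exp (p.2 * I)) (b j p.1)) := by
    intro j
    rw [(hr.hasDerivAt_b hI j hp).deriv]
    unfold vq
    ring
  rw [Finset.sum_congr rfl fun j _ => e1 j, ← Finset.mul_sum, sub_im] at hg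
  have e2 : zf b c m k p = ((deriv c p.1 / c p.1).im -
      (I * ∑ j, vel (b j) p.1 * vq (Complex.exp (p.2 * I)) (b j p.1)).im) +
      ((m + d) * VF b k p + VF b k p * ∑ j, (vq (Complex.exp (p.2 * I)) (b j p.1)).re) := by
    unfold zf
    have e3 : (I * ∑ j, vel (b j) p.1 * vq (Complex.exp (p.2 * I)) (b j p.1)).im =
        ∑ j, (vel (b j) p.1 * vq (Complex.exp (p.2 * I)) (b j p.1)).re := by
      rw [I_mul_im, re_sum]
    rw [e3, Finset.mul_sum]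
    have e4 : ∀ j, (((VF b k p : ℂ) - vel (b j) p.1) *
        vq (Complex.exp (p.2 * I)) (b j p.1)).re =
        VF b k p * (vq (Complex.exp (p.2 * I)) (b j p.1)).re -
          (vel (b j) p.1 * vq (Complex.exp (p.2 * I)) (b j p.1)).re := by
      intro j
      rw [sub_mul, sub_re, re_ofReal_mul]
    rw [Finset.sum_congr rfl fun j _ => e4 j, Finset.sum_sub_distrib]
    ring
  have h5 : |∑ j, (vq (Complex.exp (p.2 * I)) (b j p.1)).re| ≤ d * (2 / κ) := by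
    refine (Finset.abs_sum_le_sum_abs _ _).trans ?_
    have h6 : ∀ j ∈ Finset.univ, |(vq (Complex.exp (p.2 * I)) (b j p.1)).re| ≤ 2 / κ := by
      intro j _
      refine (abs_re_le_norm _).trans ?_
      have hp' := hv.del_pos j
      rw [hv.q_eq, div_le_div_iff₀ hp' hκ]
      have h7 := hv.norm_b_le j
      have h8 := hb.good_dist _ hτ _ hp j
      have h9 := hs.κ1
      nlinarith [norm_nonneg (b j p.1)]
    refine (Finset.sum_le_sum h6).trans ?_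
    rw [Finset.sum_const, Finset.card_univ, Fintype.card_fin, nsmul_eq_mul]
  have h6 : |((m : ℝ) + d) * VF b k p| ≤ (2 * N) * (2 * k) := by
    rw [abs_mul]
    refine mul_le_mul ?_ hV (abs_nonneg _) (by positivity)
    refine (abs_add_le _ _).trans ?_
    rw [abs_of_nonneg (by positivity : (0 : ℝ) ≤ d)]
    linarith
  have h7 : |VF b k p * ∑ j, (vq (Complex.exp (p.2 * I)) (b j p.1)).re| ≤
      (2 * k) * (d * (2 / κ)) := by
    rw [abs_mul]
    have := hs.k0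
    exact mul_le_mul hV h5 (abs_nonneg _) (by positivity)
  rw [e2]
  have h8 := (abs_add_le _ _).trans (add_le_add hg ((abs_add_le _ _).trans (add_le_add h6 h7)))
  refine h8.trans ?_
  have hk := hs.k0
  have hN : (0 : ℝ) ≤ N := Nat.cast_nonneg N
  -- everything is at most `k (1 + 4N + 4N/κ) ≤ 9 (N+1) k / κ`
  have h9 : (2 * k) * (d * (2 / κ)) ≤ 4 * ((N : ℝ) + 1) * (k / κ) := by
    have : (2 * k) * (d * (2 / κ)) = 4 * (d : ℝ) * (k / κ) := by
      field_simp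
      ring
    rw [this]
    refine mul_le_mul_of_nonneg_right (by linarith) (by positivity)
  have h10 : k ≤ k / κ := by
    rw [le_div_iff₀ hκ]
    nlinarith [hs.κ1]
  have h11 : k + (2 * N * (2 * k) + (2 * k) * (d * (2 / κ))) ≤ 9 * (((N : ℝ) + 1) * (k / κ)) := by
    have h12 : (N : ℝ) * k ≤ N * (k / κ) := mul_le_mul_of_nonneg_left h10 hN
    have h13 : 0 ≤ k / κ := by positivity
    nlinarith
  refine h11.trans ?_
  have h12 : ((N : ℝ) + 1) * k ≤ t ^ 2 * κ / 10 ^ 6 := by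
    have h13 := hs.kA
    have h14 : ((N : ℝ) + 1) ≤ ((N : ℝ) + 1) ^ 3 * Λ ^ 2 := by
      have h15 : ((N : ℝ) + 1) ≤ ((N : ℝ) + 1) ^ 3 := le_self_pow₀ hs.n1 (by norm_num)
      have h16 : (1 : ℝ) ≤ Λ ^ 2 := one_le_pow₀ hs.L1
      nlinarith
    have h15 : t ^ 2 * κ ^ 3 ≤ t ^ 2 * κ := by
      refine mul_le_mul_of_nonneg_left ?_ (sq_nonneg t)
      exact pow_le_of_le_one hκ.le hs.κ1 (by norm_num)
    have h16 := mul_le_mul_of_nonneg_right h14 hk.le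
    linarith
  have h13 : ((N : ℝ) + 1) * (k / κ) ≤ t ^ 2 / 10 ^ 6 := by
    rw [← mul_div_assoc, div_le_iff₀ hκ]
    linarith
  linarith [sq_nonneg t]

/-! ### The size of `ε` -/

private theorem eps_le (hI : IsOpen I') (hΦ : Differentiable ℝ Φ)
    (hr : RootSys Φ I' d b c m) (hk : 0 < k) {p : ℝ × ℝ} (hp : p.1 ∈ I')
    (h0 : ∀ j, Complex.exp (p.2 * I) - b j p.1 ≠ 0) {a σ z w θ : ℝ} (hσ : 0 ≤ σ)
    (h1 : |zf b c m k p| ≤ z) (h2 : |ZV b k p| ≤ w) (h3 : |d2 (VF b k) p| ≤ θ)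
    (h4 : |(turn a Φ p).2 - VF b k p * (turn a Φ p).1| ≤ σ * nm (Φ p)) :
    |epsF (VF b k) Φ a p| ≤ (z + w + σ * θ) * nm (Φ p) ^ 2 := by
  have hX : |(turn a Φ p).1| ≤ nm (Φ p) := by
    unfold nm turn
    refine Real.abs_le_sqrt ?_
    simp only
    nlinarith [Real.sin_sq_add_cos_sq a, sq_nonneg (Real.sin a * (Φ p).1 + Real.cos a * (Φ p).2)]
  have hR : 0 ≤ nm (Φ p) := by
    unfold nm
    positivity
  unfold epsF
  rw [V2_zarg hr hI hΦ hp h0, V2_zd hr hI hk hp h0]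
  have e1 : |nm (Φ p) ^ 2 * zf b c m k p| ≤ z * nm (Φ p) ^ 2 := by
    rw [abs_mul, abs_of_nonneg (by positivity), mul_comm]
    exact mul_le_mul_of_nonneg_right h1 (by positivity)
  have e2 : |(turn a Φ p).1 ^ 2 * ZV b k p| ≤ w * nm (Φ p) ^ 2 := by
    rw [abs_mul, abs_of_nonneg (by positivity), mul_comm w]
    refine mul_le_mul ?_ h2 (abs_nonneg _) (by positivity)
    rw [← sq_abs]
    exact pow_le_pow_left₀ (abs_nonneg _) hX 2
  have e3 : |((turn a Φ p).2 - VF b k p * (turn a Φ p).1) * (turn a Φ p).1 * d2 (VF b k) p| ≤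
      σ * θ * nm (Φ p) ^ 2 := by
    rw [abs_mul, abs_mul]
    calc |(turn a Φ p).2 - VF b k p * (turn a Φ p).1| * |(turn a Φ p).1| * |d2 (VF b k) p| ≤
        (σ * nm (Φ p)) * nm (Φ p) * θ := by
          refine mul_le_mul (mul_le_mul h4 hX (abs_nonneg _) (by positivity)) h3 (abs_nonneg _)
            (by positivity)
      _ = _ := by ring
  refine (abs_sub _ _).trans ?_
  have e4 := abs_sub (nm (Φ p) ^ 2 * zf b c m k p) ((turn a Φ p).1 ^ 2 * ZV b k p)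
  linarith

private theorem turn_bd (Φ : ℝ × ℝ → ℝ × ℝ) (a V : ℝ) (p : ℝ × ℝ) (hV : |V| ≤ 1) :
    |(turn a Φ p).2 - V * (turn a Φ p).1| ≤ 2 * nm (Φ p) := by
  have hX : |(turn a Φ p).1| ≤ nm (Φ p) := by
    unfold nm turn
    refine Real.abs_le_sqrt ?_
    simp only
    nlinarith [Real.sin_sq_add_cos_sq a, sq_nonneg (Real.sin a * (Φ p).1 + Real.cos a * (Φ p).2)]
  have hY : |(turn a Φ p).2| ≤ nm (Φ p) := by
    unfold nm turn
    refine Real.abs_le_sqrt ?_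
    simp only
    nlinarith [Real.sin_sq_add_cos_sq a, sq_nonneg (Real.cos a * (Φ p).1 - Real.sin a * (Φ p).2)]
  refine (abs_sub _ _).trans ?_
  rw [abs_mul]
  have := mul_le_mul hV hX (abs_nonneg _) (by norm_num)
  linarith

/-! ### The steep part -/

private theorem turn_cpx (Φ : ℝ × ℝ → ℝ × ℝ) (a : ℝ) (p : ℝ × ℝ) :
    (Complex.exp (a * I) * cpx Φ p).re = (turn a Φ p).1 ∧
    (Complex.exp (a * I) * cpx Φ p).im = (turn a Φ p).2 ∧
    ‖Complex.exp (a * I) * cpx Φ p‖ = nm (Φ p) := by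
  have e1 : (cpx Φ p).re = (Φ p).1 := by simp [cpx]
  have e2 : (cpx Φ p).im = (Φ p).2 := by simp [cpx]
  refine ⟨?_, ?_, ?_⟩
  · rw [mul_re, exp_ofReal_mul_I_re, exp_ofReal_mul_I_im, e1, e2]
    rfl
  · rw [mul_im, exp_ofReal_mul_I_re, exp_ofReal_mul_I_im, e1, e2]
    unfold turn
    ring
  · rw [norm_mul, norm_exp_ofReal_mul_I, one_mul]
    unfold nm
    rw [← Real.sqrt_sq (norm_nonneg (cpx Φ p)), Complex.sq_norm, normSq_apply, e1, e2, sq, sq]

/-- Landau: `(cos x Z f)² ≤ 2 M (sin x + sin 3t)` -/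
private theorem steep (hs : Sz Λ κ t k ((N : ℝ) + 1)) (hd : d ≤ N) (hm : |m| ≤ N)
    (hI : IsOpen I') (hr : RootSys Φ I' d b c m)
    (hb : RootBd I' d b c τ Λ k κ) {a : ℝ}
    (ha : ∀ p : ℝ × ℝ, p.1 ∈ I' → -(Real.sin (3 * t) * nm (Φ p)) < (turn a Φ p).2)
    {p : ℝ × ℝ} (hp : Icc (p.1 - 1) (p.1 + 1) ⊆ I')
    (hst : (turn a Φ p).2 ≤ t * nm (Φ p)) :
    |zf b c m k p| ≤ 6 * bigE N Λ * Real.sqrt t := by
  set M := bigE N Λ with hM
  have ht0 := hs.t0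
  have ht1 := hs.t1
  have hn1 := hs.n1
  have hL1 := hs.L1
  have hM5 : 10 ^ 5 ≤ M := by
    have h1 : (1 : ℝ) ≤ ((N : ℝ) + 1) ^ 4 := one_le_pow₀ hn1
    have h2 : (1 : ℝ) ≤ Λ ^ 2 := one_le_pow₀ hL1
    rw [hM]
    unfold bigE
    nlinarith
  have hp0 : p.1 ∈ I' := hp ⟨by linarith, by linarith⟩
  have hLN : 0 ≤ 27 * Λ * ((N : ℝ) + 1) := by positivity
  have hvp : ∀ q : ℝ × ℝ, q.1 ∈ I' → VPt d (Complex.exp (q.2 * I)) (fun j => b j q.1)
      (fun j => vel (b j) q.1) (fun j => deriv (vel (b j)) q.1) Λ k :=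
    fun q hq => hb.vpt hs.L1 hs.k0 hq
  obtain ⟨θ, hθ0, hθ⟩ := zcurve (V := VF b k) (ρ₀ := p.1) hLN (by linarith : (0 : ℝ) ≤ Λ)
    (fun q hq => V2_diff hr hI hs.k0 (hp hq) (hvp q (hp hq)).sub_ne)
    (fun q hq => th_le hs hd hI hr hb (hp hq))
    (fun q hq => (hvp q (hp hq)).v_le_Λ) p.2
  set r : ℝ → ℝ := fun s => p.1 + s with hrdef
  have hr1 : ∀ s, HasDerivAt r 1 s := fun s => by
    simpa using (hasDerivAt_id s).const_add p.1
  have hrI : ∀ s ∈ Ioo (-1 : ℝ) 1, r s ∈ I' := fun s hs' =>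
    hp ⟨by rw [hrdef]; simp only; linarith [hs'.1], by rw [hrdef]; simp only; linarith [hs'.2]⟩
  set U : ℝ → ℂ := fun s => Complex.exp (a * I) * cpx Φ (r s, θ s) with hU
  have hnmpos : ∀ q : ℝ × ℝ, q.1 ∈ I' → 0 < nm (Φ q) := by
    intro q hq
    have h1 := ha q hq
    have h2 : 0 ≤ nm (Φ q) := by
      unfold nm
      positivity
    rcases h2.lt_or_eq with h3 | h3
    · exact h3
    · exfalso
      have h4 : (turn a Φ q).2 ≤ nm (Φ q) := by
        refine (le_abs_self _).trans ?_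
        unfold nm turn
        refine Real.abs_le_sqrt ?_
        simp only
        nlinarith [Real.sin_sq_add_cos_sq a,
          sq_nonneg (Real.cos a * (Φ q).1 - Real.sin a * (Φ q).2)]
      rw [← h3] at h1 h4
      linarith
  have hU0 : ∀ s ∈ Ioo (-1 : ℝ) 1, U s ≠ 0 := by
    intro s hs' h0
    have h1 := (turn_cpx Φ a (r s, θ s)).2.2
    have h2 := hnmpos (r s, θ s) (hrI s hs')
    rw [← h1] at h2
    have h3 : ‖U s‖ = 0 := by rw [h0, norm_zero]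
    exact h2.ne' h3
  have hUd : ∀ s ∈ Ioo (-1 : ℝ) 1, ∃ l : ℂ, l.im = zf b c m k (r s, θ s) ∧
      HasDerivAt U (U s * l) s := by
    intro s hs'
    obtain ⟨l, hl, hd'⟩ := V2_cpx hr hI (hr1 s) (hθ s hs') (hrI s hs')
      (hvp (r s, θ s) (hrI s hs')).sub_ne
    refine ⟨l, ?_, ?_⟩
    · rw [hl]
      exact argD_zf _
    · have h1 := hd'.const_mul (Complex.exp (a * I))
      refine h1.congr_deriv ?_
      rw [hU]
      ring
  have hzd : ∀ s ∈ Ioo (-1 : ℝ) 1, HasDerivAt (fun s => zf b c m k (r s, θ s))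
      (zzf b c m k (r s, θ s)) s := fun s hs' =>
    V2_zf_int hr hI hs.k0 (hr1 s) (hθ s hs') (hrI s hs') (hvp (r s, θ s) (hrI s hs')).sub_ne
  have hsin3 : Real.sin (3 * t) ≤ 3 * t := Real.sin_le (by linarith)
  have hE : ∀ s ∈ Ioo (-1 : ℝ) 1, zf b c m k (r s, θ s) ^ 2 + |zzf b c m k (r s, θ s)| ≤ M := by
    intro s hs'
    have h1 := zf_le hs hd hm hb (p := (r s, θ s)) (hrI s hs')
    have h2 := zzf_le hs hd hm hb (p := (r s, θ s)) (hrI s hs')
    have h3 : zf b c m k (r s, θ s) ^ 2 ≤ (16 * ((N : ℝ) + 1) ^ 2 * Λ) ^ 2 := by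
      rw [← sq_abs]
      exact pow_le_pow_left₀ (abs_nonneg _) h1 2
    have h4 : 0 ≤ ((N : ℝ) + 1) ^ 4 * Λ ^ 2 := by positivity
    rw [hM]
    unfold bigE
    nlinarith
  have hcs : ∀ s ∈ Ioo (-1 : ℝ) 1, |(U s).im / ‖U s‖| ≤ 1 ∧ |(U s).re / ‖U s‖| ≤ 1 := by
    intro s hs'
    have h1 : 0 < ‖U s‖ := norm_pos_iff.2 (hU0 s hs')
    constructor
    · rw [abs_div, abs_of_pos h1, div_le_one h1]
      exact abs_im_le_norm _
    · rw [abs_div, abs_of_pos h1, div_le_one h1]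
      exact abs_re_le_norm _
  have hmem0 : (0 : ℝ) ∈ Ioo (-1 : ℝ) 1 := ⟨by norm_num, by norm_num⟩
  have hU00 : (U 0).re = (turn a Φ p).1 ∧ (U 0).im = (turn a Φ p).2 ∧ ‖U 0‖ = nm (Φ p) := by
    have e1 : (r 0, θ 0) = p := by
      rw [hθ0, hrdef]
      simp
    have h1 := turn_cpx Φ a p
    rw [← e1] at h1
    rw [← e1]
    exact h1
  have hR := hnmpos p hp0
  have hψ0 : (U 0).im / ‖U 0‖ + Real.sin (3 * t) ≤ 4 * t := by
    rw [hU00.2.1, hU00.2.2]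
    have : (turn a Φ p).2 / nm (Φ p) ≤ t := by
      rw [div_le_iff₀ hR]
      exact hst
    linarith
  have hψ0' : -(Real.sin (3 * t)) ≤ (U 0).im / ‖U 0‖ := by
    rw [hU00.2.1, hU00.2.2, le_div_iff₀ hR]
    have := ha p hp0
    linarith
  have key := landau (ψ := fun s => (U s).im / ‖U s‖ + Real.sin (3 * t))
    (ψ₁ := fun s => (U s).re / ‖U s‖ * zf b c m k (r s, θ s))
    (ψ₂ := fun s => -((U s).im / ‖U s‖) * zf b c m k (r s, θ s) * zf b c m k (r s, θ s) +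
      (U s).re / ‖U s‖ * zzf b c m k (r s, θ s)) (M := M)
    (by
      intro s hs'
      have h1 : 0 < ‖U s‖ := norm_pos_iff.2 (hU0 s hs')
      have h2 := ha (r s, θ s) (hrI s hs')
      obtain ⟨-, h3, h4⟩ := turn_cpx Φ a (r s, θ s)
      rw [← h3, ← h4] at h2
      have h5 : -(Real.sin (3 * t)) ≤ (U s).im / ‖U s‖ := by
        rw [le_div_iff₀ h1]
        linarith
      linarith)
    (by
      intro s hs'
      obtain ⟨l, hl, hd'⟩ := hUd s hs'
      have h1 := (V2_sin hd' (hU0 s hs')).1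
      rw [hl] at h1
      exact h1.add_const _)
    (by
      intro s hs'
      obtain ⟨l, hl, hd'⟩ := hUd s hs'
      have h1 := (V2_sin hd' (hU0 s hs')).2
      rw [hl] at h1
      exact h1.fun_mul (hzd s hs'))
    (by
      intro s hs'
      obtain ⟨h1, h2⟩ := hcs s hs'
      have h3 := hE s hs'
      refine (abs_add_le _ _).trans ?_
      rw [abs_mul, abs_mul, abs_mul, abs_neg, mul_assoc, ← sq, sq_abs]
      have h4 : |(U s).im / ‖U s‖| * zf b c m k (r s, θ s) ^ 2 ≤ 1 * zf b c m k (r s, θ s) ^ 2 :=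
        mul_le_mul_of_nonneg_right h1 (sq_nonneg _)
      have h5 : |(U s).re / ‖U s‖| * |zzf b c m k (r s, θ s)| ≤ 1 * |zzf b c m k (r s, θ s)| :=
        mul_le_mul_of_nonneg_right h2 (abs_nonneg _)
      linarith)
    (by
      change 2 * ((U 0).im / ‖U 0‖ + Real.sin (3 * t)) < M
      linarith)
  have e1 : (r 0, θ 0) = p := by
    rw [hθ0, hrdef]
    simp
  rw [e1] at key
  -- the cosine
  set sx := (U 0).im / ‖U 0‖ with hsx
  set cx := (U 0).re / ‖U 0‖ with hcx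
  have hsc : sx ^ 2 + cx ^ 2 = 1 := by
    have h1 : 0 < ‖U 0‖ := norm_pos_iff.2 (hU0 0 hmem0)
    rw [hsx, hcx, div_pow, div_pow, ← add_div, div_eq_one_iff_eq (by positivity),
      Complex.sq_norm, normSq_apply]
    ring
  have hsx1 : sx ^ 2 ≤ 1 / 4 := by
    have h0 : 0 ≤ Real.sin (3 * t) :=
      Real.sin_nonneg_of_nonneg_of_le_pi (by linarith) (by linarith [Real.pi_gt_three])
    have h1 : |sx| ≤ 1 / 2 := abs_le.2 ⟨by linarith, by linarith⟩
    rw [← sq_abs]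
    have := pow_le_pow_left₀ (abs_nonneg _) h1 2
    linarith
  have h1 : zf b c m k p ^ 2 * (3 / 4) ≤ 2 * M * (4 * t) := by
    have h2 : 2 * M * (sx + Real.sin (3 * t)) ≤ 2 * M * (4 * t) :=
      mul_le_mul_of_nonneg_left hψ0 (by linarith)
    have h3 : (cx * zf b c m k p) ^ 2 = cx ^ 2 * zf b c m k p ^ 2 := by ring
    rw [h3] at key
    have h4 : 3 / 4 ≤ cx ^ 2 := by linarith
    have h5 := mul_le_mul_of_nonneg_right h4 (sq_nonneg (zf b c m k p))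
    linarith
  have h2 : zf b c m k p ^ 2 ≤ (6 * M * Real.sqrt t) ^ 2 := by
    rw [mul_pow, Real.sq_sqrt ht0.le]
    have h3 : M * t ≤ M ^ 2 * t := by
      refine mul_le_mul_of_nonneg_right ?_ ht0.le
      nlinarith
    nlinarith
  exact abs_le_of_sq_le_sq h2 (by positivity)

end

/-- **Part V** -/
theorem partV : PartV := by
  intro Φ hΦ2 hper I' J hI hIc hJ d N b c m τ Λ κ t hd hm hr hτ hΛ hκ hκ1 ht ht1 hb a ha
  have hΦ : Differentiable ℝ Φ := hΦ2.differentiable (by norm_num)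
  set M := bigE N Λ with hM
  set k := kapV N Λ κ t with hk
  have hn1 : (1 : ℝ) ≤ (N : ℝ) + 1 := by
    have : (0 : ℝ) ≤ N := Nat.cast_nonneg N
    linarith
  have hM5 : 10 ^ 5 ≤ M := by
    have h1 : (1 : ℝ) ≤ ((N : ℝ) + 1) ^ 4 := one_le_pow₀ hn1
    have h2 : (1 : ℝ) ≤ Λ ^ 2 := one_le_pow₀ hΛ
    rw [hM]
    unfold bigE
    nlinarith
  have hMt : 10 ^ 4 * M ^ 2 * t ≤ 1 := ht1
  have ht14 : t ≤ 1 / 10 ^ 14 := by
    have h1 : (10 ^ 5) ^ 2 ≤ M ^ 2 := pow_le_pow_left₀ (by norm_num) hM5 2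
    rw [le_div_iff₀ (by norm_num)]
    nlinarith
  have hs : Sz Λ κ t k ((N : ℝ) + 1) := by
    refine ⟨hn1, hΛ, hκ, hκ1, ht, ht14, ?_, ?_⟩
    · rw [hk]
      unfold kapV
      positivity
    · rw [hk]
      unfold kapV
      refine le_of_eq ?_
      field_simp
  -- the square root
  set q := Real.sqrt t with hq
  have hq0 : 0 < q := Real.sqrt_pos.2 ht
  have hqt : q ^ 2 = t := Real.sq_sqrt ht.le
  have hMq : 100 * (M * q) ≤ 1 := by
    have h1 : (100 * (M * q)) ^ 2 ≤ 1 ^ 2 := by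
      have : (100 * (M * q)) ^ 2 = 10 ^ 4 * M ^ 2 * q ^ 2 := by ring
      rw [this, hqt]
      linarith
    exact le_of_sq_le_sq h1 (by norm_num)
  have hq1 : q ≤ 1 / 10 ^ 7 := by nlinarith
  have htq : t ≤ q / 10 ^ 7 := by
    rw [← hqt]
    nlinarith
  have hMq0 : 0 ≤ M * q := by positivity
  have hJI : ∀ s ∈ J, s ∈ I' := fun s hs' => hJ s hs' ⟨by linarith, by linarith⟩
  have hV1 : ∀ p : ℝ × ℝ, p.1 ∈ I' → |VF b k p| ≤ t ^ 2 / 1000 := by
    intro p hp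
    have h1 := VF_le hs hd hb hp
    have h2 := hs.k_le2
    have h3 := sq_nonneg t
    linarith
  have ht2 := hs.t2
  have hV2 : ∀ p : ℝ × ℝ, p.1 ∈ I' → |VF b k p| ≤ 1 := by
    intro p hp
    have h1 := hV1 p hp
    linarith
  have hLM : 27 * Λ * ((N : ℝ) + 1) ≤ M / 1000 := by
    have h1 : (N : ℝ) + 1 ≤ ((N : ℝ) + 1) ^ 4 := le_self_pow₀ hn1 (by norm_num)
    have h2 : Λ ≤ Λ ^ 2 := le_self_pow₀ hΛ (by norm_num)
    have h3 : Λ * ((N : ℝ) + 1) ≤ Λ ^ 2 * ((N : ℝ) + 1) ^ 4 :=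
      mul_le_mul h2 h1 (by linarith) (by positivity)
    rw [hM]
    unfold bigE
    nlinarith
  have hzM : 16 * ((N : ℝ) + 1) ^ 2 * Λ ≤ M / 1000 := by
    have h1 : ((N : ℝ) + 1) ^ 2 ≤ ((N : ℝ) + 1) ^ 4 := pow_le_pow_right₀ hn1 (by norm_num)
    have h2 : Λ ≤ Λ ^ 2 := le_self_pow₀ hΛ (by norm_num)
    have h3 : ((N : ℝ) + 1) ^ 2 * Λ ≤ ((N : ℝ) + 1) ^ 4 * Λ ^ 2 :=
      mul_le_mul h1 h2 (by linarith) (by positivity)
    rw [hM]
    unfold bigE
    nlinarith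
  have hnm : ∀ p, 0 ≤ nm (Φ p) := fun p => by
    unfold nm
    positivity
  have hsin3 : Real.sin (3 * t) ≤ 3 * t := Real.sin_le (by linarith)
  have hY : ∀ p : ℝ × ℝ, |(turn a Φ p).2| ≤ nm (Φ p) := by
    intro p
    unfold nm turn
    refine Real.abs_le_sqrt ?_
    simp only
    nlinarith [Real.sin_sq_add_cos_sq a, sq_nonneg (Real.cos a * (Φ p).1 - Real.sin a * (Φ p).2)]
  have hX : ∀ p : ℝ × ℝ, |(turn a Φ p).1| ≤ nm (Φ p) := by
    intro p
    unfold nm turn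
    refine Real.abs_le_sqrt ?_
    simp only
    nlinarith [Real.sin_sq_add_cos_sq a, sq_nonneg (Real.sin a * (Φ p).1 + Real.cos a * (Φ p).2)]
  have hpos : ∀ p : ℝ × ℝ, p.1 ∈ I' → 0 < nm (Φ p) := by
    intro p hp
    rcases (hnm p).lt_or_eq with h3 | h3
    · exact h3
    · exfalso
      have h1 := ha p hp
      have h4 := (le_abs_self _).trans (hY p)
      rw [← h3] at h1 h4
      linarith
  refine ⟨VF b k, ?_⟩
  have hsub : ∀ p : ℝ × ℝ, p.1 ∈ I' → ∀ j, Complex.exp (p.2 * I) - b j p.1 ≠ 0 :=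
    fun p hp => (hb.vpt hΛ hs.k0 hp).sub_ne
  refine
    { ne := ?_, arc := ?_, diff := ?_, periodic := ?_, small := ?_, tau_cont := hτ.cont,
      tau_periodic := hτ.periodic, tau_nonneg := hτ.nonneg, tau_le := hτ.le_one, tau_int := hτ.int,
      all := ?_, good := ?_, e_pos := by positivity, e_le := by linarith, E_nonneg := by linarith,
      x_pos := ht, x_le := by linarith, v_nonneg := sq_nonneg t, v_le := by nlinarith,
      thin := ?_, slow := ?_ }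
  · intro p hp h0
    have h1 := hpos p (hJI _ hp)
    rw [h0] at h1
    unfold nm at h1
    simp at h1
  · intro p hp
    have h1 := ha p (hJI _ hp)
    have h2 := hpos p (hJI _ hp)
    have h3 : Real.sin (3 * t) * nm (Φ p) ≤ 1 / 2 * nm (Φ p) :=
      mul_le_mul_of_nonneg_right (by linarith) h2.le
    linarith
  · intro p hp
    exact V2_diff hr hI hs.k0 (hJI _ hp) (hsub p (hJI _ hp))
  · intro p
    unfold VF
    have e1 : Complex.exp (((p + (0, 2 * Real.pi)).2 : ℝ) * I) = Complex.exp (p.2 * I) := by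
      have : (((p + (0, 2 * Real.pi)).2 : ℝ) : ℂ) * I = p.2 * I + 2 * Real.pi * I := by
        simp only [Prod.snd_add]
        push_cast
        ring
      rw [this, Complex.exp_add, Complex.exp_two_pi_mul_I, mul_one]
    have e2 : (p + (0, 2 * Real.pi)).1 = p.1 := by simp
    rw [e1, e2]
  · intro p hp
    have h1 := hV1 p (hJI _ hp)
    linarith [sq_nonneg t]
  · intro p hp
    have hp' := hJI _ hp
    have h1 := eps_le (a := a) hI hΦ hr hs.k0 hp' (hsub p hp') (by norm_num : (0 : ℝ) ≤ 2)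
      (zf_le hs hd hm hb hp') (ZV_le hs hd hb hp') (th_le hs hd hI hr hb hp')
      (turn_bd Φ a _ p (hV2 p hp'))
    refine h1.trans (mul_le_mul_of_nonneg_right ?_ (by positivity))
    linarith
  · intro p hp hcase
    have hp' := hJI _ hp
    have hRp := hpos p hp'
    by_cases hτ1 : τ p.2 < 1
    · have h1 := eps_le (a := a) hI hΦ hr hs.k0 hp' (hsub p hp') (by norm_num : (0 : ℝ) ≤ 2)
        (zf_good hs hd hm hI hr hb hp' hτ1) (ZV_le hs hd hb hp')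
        (th_good hs hd hI hr hb hp' hτ1) (turn_bd Φ a _ p (hV2 p hp'))
      refine h1.trans (mul_le_mul_of_nonneg_right ?_ (by positivity))
      have h2 : q ≤ M * q := by nlinarith
      linarith
    · have hst : (turn a Φ p).2 < t * nm (Φ p) := hcase.resolve_right hτ1
      have hσ : |(turn a Φ p).2 - VF b k p * (turn a Φ p).1| ≤ (4 * t) * nm (Φ p) := by
        have h1 := ha p hp'
        have h2 : |(turn a Φ p).2| ≤ 3 * t * nm (Φ p) := by
          rw [abs_le]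
          have h3 : Real.sin (3 * t) * nm (Φ p) ≤ 3 * t * nm (Φ p) :=
            mul_le_mul_of_nonneg_right hsin3 hRp.le
          have h4 : t * nm (Φ p) ≤ 3 * t * nm (Φ p) :=
            mul_le_mul_of_nonneg_right (by linarith) hRp.le
          constructor <;> linarith
        have h3 : |VF b k p * (turn a Φ p).1| ≤ t * nm (Φ p) := by
          rw [abs_mul]
          refine mul_le_mul ?_ (hX p) (abs_nonneg _) ht.le
          have := hV1 p hp'
          linarith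
        refine (abs_sub _ _).trans ?_
        linarith
      have h1 := eps_le (a := a) hI hΦ hr hs.k0 hp' (hsub p hp') (by positivity : 0 ≤ 4 * t)
        (steep hs hd hm hI hr hb ha (hJ _ hp) hst.le) (ZV_le hs hd hb hp')
        (th_le hs hd hI hr hb hp') hσ
      refine h1.trans (mul_le_mul_of_nonneg_right ?_ (by positivity))
      have h2 : q ≤ M * q := by nlinarith
      have h3 : 4 * t * (27 * Λ * ((N : ℝ) + 1)) ≤ 4 * t * (M / 1000) :=
        mul_le_mul_of_nonneg_left hLM (by positivity)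
      have h4 : t * M ≤ q * M := mul_le_mul_of_nonneg_right (by linarith) (by linarith)
      linarith
  · -- thin
    have e1 : (2 * M / t ^ 2 + 10 * M * q / t) * t ^ 3 = 2 * M * t + 10 * M * q * t ^ 2 := by
      field_simp
    rw [e1]
    have h2 : M * t ≤ M * q := mul_le_mul_of_nonneg_left (by linarith) (by linarith)
    have h3 : M * q * t ^ 2 ≤ M * q * (1 / 10) :=
      mul_le_mul_of_nonneg_left (by linarith) (by positivity)
    linarith
  · -- slow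
    have e1 : (2 * M / t ^ 2 + 10 * M * q / t) * (t ^ 2) ^ 2 =
        2 * M * t ^ 2 + 10 * M * q * t ^ 3 := by
      field_simp
    rw [e1]
    have h2 : M * t ^ 2 ≤ M * q := mul_le_mul_of_nonneg_left (by linarith) (by linarith)
    have h3 : M * q * t ^ 3 ≤ M * q * (1 / 10) := by
      refine mul_le_mul_of_nonneg_left ?_ (by positivity)
      have : t ^ 3 ≤ t := by
        have : t ^ 3 = t ^ 2 * t := by ring
        rw [this]
        nlinarith
      linarith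
    linarith

end Pool.Agent.Lib.MP_95e7ec_an
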