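import Mathlib
import Pool.Agent.Lib.MP_95e7ec_an.Rb.SumMeas
import Pool.Agent.Lib.MP_95e7ec_an.Rq.Final

/-!
# Ry, SMeasN: the number of the closed orbits of the turned field is a measurable function of the angle
-/

set_option autoImplicit false

open Set Filter Topology MeasureTheory
open scoped ContDiff ENNReal

namespace Pool.Agent.Lib.MP_95e7ec_an

theorem allN_eq_setSum (v : ℝ × ℝ → ℝ × ℝ) (a : ℝ) :
    allN (turn a v) = setSum (fun _ => 1) v Set.univ a := by
  unfold allN setSum
  have h : {C : Set (ℝ × ℝ) | IsClosedOrbit (turn a v) C} =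
      {C : Set (ℝ × ℝ) | IsClosedOrbit (turn a v) C ∧ C ⊆ Set.univ} := by
    ext C
    simp
  rw [h]
  exact (ENNReal.tsum_set_one _).symm

theorem allN_turn_add_pi (v : ℝ × ℝ → ℝ × ℝ) (a : ℝ) :
    allN (turn (a + Real.pi) v) = allN (turn a v) := by
  apply le_antisymm
  · refine allN_mono fun C hC => ?_
    rw [turn_add_pi] at hC
    simpa using hC.neg
  · refine allN_mono fun C hC => ?_
    rw [turn_add_pi]
    exact hC.neg

/-- the number of the closed orbits is measurable on the half circle -/
theorem allN_aemeasurable_half (P Q : MvPolynomial (Fin 2) ℝ) :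
    AEMeasurable (fun a => allN (turn a (vf P Q))) (volume.restrict (Set.Ioo 0 Real.pi)) := by
  have hP : P.totalDegree ≤ max P.totalDegree Q.totalDegree := le_max_left _ _
  have hQ : Q.totalDegree ≤ max P.totalDegree Q.totalDegree := le_max_right _ _
  have hvf := vf_eq_vfc hP hQ
  have h1 : AEMeasurable (setSum (fun _ => 1)
      (vfc (arr (max P.totalDegree Q.totalDegree) P, arr (max P.totalDegree Q.totalDegree) Q))
      Set.univ) (volume.restrict (Set.Ioo 0 Real.pi)) :=
    setSum_aemeasurable _ isOpen_univ fun F => ⟨fun _ => 1, measurable_const, fun _ _ => rfl⟩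
  refine h1.congr (Eventually.of_forall fun a => ?_)
  rw [← hvf]
  exact (allN_eq_setSum _ a).symm

/-- **The number of the closed orbits of `e^{ia} X` is a measurable function of `a`.** -/
theorem allN_aemeasurable (P Q : MvPolynomial (Fin 2) ℝ) :
    AEMeasurable (fun a => allN (turn a (vf P Q)))
      (volume.restrict (Set.Icc 0 (2 * Real.pi))) := by
  have hpi := Real.pi_pos
  have h1 := allN_aemeasurable_half P Q
  have h2 : AEMeasurable (fun a => allN (turn a (vf P Q)))
      (volume.restrict (Set.Ioo Real.pi (2 * Real.pi))) := by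
    have hq : Measure.QuasiMeasurePreserving (fun x : ℝ => x - Real.pi)
        (volume.restrict (Set.Ioo Real.pi (2 * Real.pi)))
        (volume.restrict (Set.Ioo 0 Real.pi)) := by
      have h3 := (measurePreserving_sub_right (volume : Measure ℝ)
        Real.pi).restrict_preimage (measurableSet_Ioo (a := (0 : ℝ)) (b := Real.pi))
      have h4 : (fun x : ℝ => x - Real.pi) ⁻¹' Set.Ioo 0 Real.pi =
          Set.Ioo Real.pi (2 * Real.pi) := by
        ext x
        simp only [Set.mem_preimage, Set.mem_Ioo]
        constructor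
        · rintro ⟨a, b⟩
          constructor <;> linarith
        · rintro ⟨a, b⟩
          constructor <;> linarith
      rw [h4] at h3
      exact h3.quasiMeasurePreserving
    refine (h1.comp_quasiMeasurePreserving hq).congr (Eventually.of_forall fun a => ?_)
    simp only [Function.comp_apply]
    rw [← allN_turn_add_pi, sub_add_cancel]
  have h5 : AEMeasurable (fun a => allN (turn a (vf P Q)))
      (volume.restrict (Set.Ioo 0 Real.pi ∪ Set.Ioo Real.pi (2 * Real.pi))) :=
    aemeasurable_union_iff.2 ⟨h1, h2⟩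
  have h6 : (Set.Icc 0 (2 * Real.pi) : Set ℝ) =ᵐ[volume]
      (Set.Ioo 0 Real.pi ∪ Set.Ioo Real.pi (2 * Real.pi) : Set ℝ) := by
    have hnull : volume ({0, Real.pi, 2 * Real.pi} : Set ℝ) = 0 :=
      (Set.toFinite _).measure_zero volume
    have h7 : ∀ᵐ a ∂(volume : Measure ℝ), a ∉ ({0, Real.pi, 2 * Real.pi} : Set ℝ) :=
      measure_eq_zero_iff_ae_notMem.1 hnull
    refine Filter.eventuallyEq_set.2 ?_
    filter_upwards [h7] with a ha
    simp only [Set.mem_insert_iff, Set.mem_singleton_iff, not_or] at ha
    simp only [Set.mem_Icc, Set.mem_union, Set.mem_Ioo]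
    constructor
    · rintro ⟨h8, h9⟩
      rcases lt_or_gt_of_ne ha.2.1 with h | h
      · exact Or.inl ⟨lt_of_le_of_ne h8 (Ne.symm ha.1), h⟩
      · exact Or.inr ⟨h, lt_of_le_of_ne h9 ha.2.2⟩
    · rintro (⟨h8, h9⟩ | ⟨h8, h9⟩)
      · exact ⟨h8.le, by linarith⟩
      · exact ⟨by linarith, h9.le⟩
  rw [Measure.restrict_congr_set h6]
  exact h5

end Pool.Agent.Lib.MP_95e7ec_an
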