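import Mathlib
import Pool.Agent.Lib.MP_95e7ec_an.CountMeas
import Pool.Agent.Lib.MP_95e7ec_an.AvgBasic
import Pool.Agent.Lib.MP_95e7ec_an.ScaleMain
import Pool.Agent.Lib.MP_95e7ec_an.Rq.Final

/-!
# Ry, NMeas: the number of closed orbits is a Borel function of the coefficients
-/

set_option autoImplicit false

open Set Filter Topology MeasureTheory
open scoped ContDiff ENNReal

namespace Pool.Agent.Lib.MP_95e7ec_an

/-- the number of closed orbits is a Borel function of the coefficients -/
theorem measurable_allN (D : ℕ) : Measurable fun μ : Pr D => allN (vfc μ) := by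
  have h := measurable_cntO (D := D) (ι := Empty) isOpen_univ ∅ (V := fun _ => ∅) (by simp)
  have h2 : (fun μ : Pr D => cntO (vfc μ) Set.univ (∅ : Finset Empty) fun _ => ∅) =
      fun μ => allN (vfc μ) := by
    funext μ
    unfold cntO allN
    simp
  rw [← h2]
  exact h

theorem continuous_rotA_uncurry (D : ℕ) :
    Continuous fun p : Pr D × ℝ => rotA p.1 p.2 := by
  unfold rotA rot
  fun_prop

theorem measurable_allN_rotA (D : ℕ) :
    Measurable fun p : Pr D × ℝ => allN (vfc (rotA p.1 p.2)) :=
  (measurable_allN D).comp (continuous_rotA_uncurry D).measurable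

/-- the number of closed orbits of the turned field is a Borel function of the angle -/
theorem measurable_allN_turn_vfc {D : ℕ} (μ : Pr D) :
    Measurable fun a : ℝ => allN (turn a (vfc μ)) := by
  have h : (fun a : ℝ => allN (turn a (vfc μ))) =
      (fun p : Pr D × ℝ => allN (vfc (rotA p.1 p.2))) ∘ fun a => (μ, a) := by
    funext a
    simp only [Function.comp, vfc_rotA]
  rw [h]
  exact (measurable_allN_rotA D).comp (by fun_prop)

theorem measurable_allN_turn (P Q : MvPolynomial (Fin 2) ℝ) :
    Measurable fun a : ℝ => allN (turn a (vf P Q)) := by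
  rw [vf_eq_vfc (le_max_left P.totalDegree Q.totalDegree)
    (le_max_right P.totalDegree Q.totalDegree)]
  exact measurable_allN_turn_vfc _

/-- the polynomial with the given coefficient array -/
noncomputable def toMv {D : ℕ} (c : Co D) : MvPolynomial (Fin 2) ℝ :=
  ∑ i : Fin (D + 1), ∑ j : Fin (D + 1),
    MvPolynomial.C (c i j) * (MvPolynomial.X 0 ^ (i : ℕ) * MvPolynomial.X 1 ^ (j : ℕ))

theorem eval_toMv {D : ℕ} (c : Co D) (x y : ℝ) :
    MvPolynomial.eval ![x, y] (toMv c) = pe c x y := by
  unfold toMv pe
  simp only [map_sum, map_mul, map_pow, MvPolynomial.eval_C, MvPolynomial.eval_X,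
    Matrix.cons_val_zero, Matrix.cons_val_one, smul_eq_mul]

theorem vf_toMv {D : ℕ} (μ : Pr D) : vf (toMv μ.1) (toMv μ.2) = vfc μ := by
  funext z
  unfold vf vfc
  rw [eval_toMv, eval_toMv]

theorem totalDegree_toMv {D : ℕ} (c : Co D) : (toMv c).totalDegree ≤ 2 * D := by
  unfold toMv
  refine MvPolynomial.totalDegree_finsetSum_le fun i _ =>
    MvPolynomial.totalDegree_finsetSum_le fun j _ => ?_
  refine (MvPolynomial.totalDegree_mul _ _).trans ?_
  rw [MvPolynomial.totalDegree_C, zero_add]
  refine (MvPolynomial.totalDegree_mul _ _).trans ?_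
  rw [MvPolynomial.totalDegree_X_pow, MvPolynomial.totalDegree_X_pow]
  have := i.2
  have := j.2
  omega

end Pool.Agent.Lib.MP_95e7ec_an
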