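import Mathlib
import Pool.Agent.Lib.MP_95e7ec_an.Ry.NMeas

/-!
# Ry, Random: random polynomial vector fields with a rotation invariant law

From the mean theorem: for every probability measure on the pairs of polynomials of bounded degree
which is invariant under the rotations of the field, the expected number of closed orbits in the
whole plane is at most `K n ^ k`.
-/

set_option autoImplicit false

open Set Filter Topology MeasureTheory
open scoped ContDiff ENNReal

namespace Pool.Agent.Lib.MP_95e7ec_an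

/-- the mean theorem, as a proposition -/
def MeanAll (K : ℝ) (k : ℕ) : Prop :=
  ∀ n : ℕ, 1 ≤ n → ∀ P Q : MvPolynomial (Fin 2) ℝ,
    P.totalDegree ≤ n → Q.totalDegree ≤ n →
      ∃ H : ℝ → ℝ≥0∞, Measurable H ∧ (∀ a, allN (turn a (vf P Q)) ≤ H a) ∧
        ∫⁻ a in Set.Icc 0 (2 * Real.pi), H a ≤ ENNReal.ofReal (K * n ^ k)

/-- the mean theorem without a majorant: the number of closed orbits is itself Borel -/
theorem mean_plain {K : ℝ} {k : ℕ} (h : MeanAll K k) {n : ℕ} (hn : 1 ≤ n)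
    {P Q : MvPolynomial (Fin 2) ℝ} (hP : P.totalDegree ≤ n) (hQ : Q.totalDegree ≤ n) :
    Measurable (fun a : ℝ => allN (turn a (vf P Q))) ∧
      ∫⁻ a in Set.Icc 0 (2 * Real.pi), allN (turn a (vf P Q)) ≤ ENNReal.ofReal (K * n ^ k) := by
  obtain ⟨H, _, hH2, hH3⟩ := h n hn P Q hP hQ
  exact ⟨measurable_allN_turn P Q, (lintegral_mono fun a => hH2 a).trans hH3⟩

/-- **Random fields.** For every probability measure on the pairs of coefficient arrays, invariant
under the rotations of the field, the expected number of closed orbits in the plane is at most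
`K' n ^ k`, `K' = 2 ^ k K / (2 π)`. -/
theorem random_mean {K : ℝ} {k : ℕ} (h : MeanAll K k) {n : ℕ} (hn : 1 ≤ n)
    (ν : Measure (Pr n)) [IsProbabilityMeasure ν]
    (hν : ∀ a : ℝ, ν.map (fun μ => rotA μ a) = ν) :
    ∫⁻ μ, allN (vfc μ) ∂ν ≤ ENNReal.ofReal (2 ^ k * K / (2 * Real.pi) * n ^ k) := by
  have hpi := Real.pi_pos
  have hcr : ∀ a : ℝ, Measurable fun μ : Pr n => rotA μ a := fun a =>
    ((continuous_rotA_uncurry n).comp (by fun_prop : Continuous fun μ : Pr n => (μ, a))).measurable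
  have h1 : ∀ a : ℝ, ∫⁻ μ, allN (vfc (rotA μ a)) ∂ν = ∫⁻ μ, allN (vfc μ) ∂ν := by
    intro a
    rw [← lintegral_map (measurable_allN n) (hcr a), hν a]
  have h2 : ∫⁻ _a : ℝ in Set.Icc 0 (2 * Real.pi), ∫⁻ μ, allN (vfc μ) ∂ν ≤
      ENNReal.ofReal (K * (2 * n : ℕ) ^ k) := by
    calc ∫⁻ _a : ℝ in Set.Icc 0 (2 * Real.pi), ∫⁻ μ, allN (vfc μ) ∂ν
        = ∫⁻ a in Set.Icc 0 (2 * Real.pi), ∫⁻ μ, allN (vfc (rotA μ a)) ∂ν := by
          refine lintegral_congr fun a => (h1 a).symm
      _ = ∫⁻ μ, (∫⁻ a in Set.Icc 0 (2 * Real.pi), allN (vfc (rotA μ a))) ∂ν := by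
          refine lintegral_lintegral_swap ?_
          exact ((measurable_allN_rotA n).comp measurable_swap).aemeasurable
      _ ≤ ∫⁻ _μ, ENNReal.ofReal (K * (2 * n : ℕ) ^ k) ∂ν := by
          refine lintegral_mono fun μ => ?_
          simp only [vfc_rotA]
          rw [← vf_toMv μ]
          exact (mean_plain h (by omega : 1 ≤ 2 * n) (totalDegree_toMv _) (totalDegree_toMv _)).2
      _ = _ := by simp
  rw [lintegral_const, Measure.restrict_apply_univ, Real.volume_Icc, sub_zero] at h2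
  have h3 : (0 : ℝ) < 2 * Real.pi := by positivity
  have h4 : ENNReal.ofReal (2 * Real.pi) ≠ 0 := (ENNReal.ofReal_pos.2 h3).ne'
  have h5 : ∫⁻ μ, allN (vfc μ) ∂ν ≤
      ENNReal.ofReal (K * (2 * n : ℕ) ^ k) / ENNReal.ofReal (2 * Real.pi) :=
    (ENNReal.le_div_iff_mul_le (Or.inl h4) (Or.inl ENNReal.ofReal_ne_top)).2 h2
  refine h5.trans (le_of_eq ?_)
  rw [← ENNReal.ofReal_div_of_pos h3]
  congr 1
  push_cast
  rw [mul_pow]
  ring

end Pool.Agent.Lib.MP_95e7ec_an
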