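import Mathlib
import Pool.Agent.Lib.MP_95e7ec_an.Ry.Random

/-!
# Ry, RandGauss: Gaussian random polynomial vector fields

For arbitrary polynomials `f_p`, `p ∈ ι`, of degree at most `n` and independent standard normal
variables `ξ_p, η_p` the expected number of closed orbits of the field
`(∑ ξ_p f_p, ∑ η_p f_p)` in the whole plane is at most `K n ^ k / (2 π)`.
-/

set_option autoImplicit false

open Set Filter Topology MeasureTheory ProbabilityTheory
open scoped ContDiff ENNReal

namespace Pool.Agent.Lib.MP_95e7ec_an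

/-- the rotation of the plane, as a linear map -/
private noncomputable def rgL (α : ℝ) : (ℝ × ℝ) →ₗ[ℝ] (ℝ × ℝ) :=
  Matrix.toLin (Module.Basis.finTwoProd ℝ) (Module.Basis.finTwoProd ℝ)
    !![Real.cos α, -Real.sin α; Real.sin α, Real.cos α]

private theorem rgL_apply (α : ℝ) (z : ℝ × ℝ) :
    rgL α z = (Real.cos α * z.1 - Real.sin α * z.2, Real.sin α * z.1 + Real.cos α * z.2) := by
  rw [rgL, Matrix.toLin_finTwoProd_apply]
  refine Prod.ext ?_ ?_
  · simp only; ring
  · simp only

private theorem rgL_det (α : ℝ) : LinearMap.det (rgL α) = 1 := by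
  rw [rgL, LinearMap.det_toLin, Matrix.det_fin_two_of]
  nlinarith [Real.sin_sq_add_cos_sq α]

private theorem measurable_rgL (α : ℝ) : Measurable (rgL α) := by
  have : (rgL α : ℝ × ℝ → ℝ × ℝ) = fun z : ℝ × ℝ =>
      (Real.cos α * z.1 - Real.sin α * z.2, Real.sin α * z.1 + Real.cos α * z.2) := by
    funext z; exact rgL_apply α z
  rw [this]
  fun_prop

private theorem rgL_volume (α : ℝ) :
    MeasurePreserving (rgL α) (volume : Measure (ℝ × ℝ)) volume := by
  refine ⟨measurable_rgL α, ?_⟩
  have h := Measure.map_linearMap_addHaar_eq_smul_addHaar (volume : Measure (ℝ × ℝ))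
    (f := rgL α) (by rw [rgL_det]; norm_num)
  rw [h, rgL_det]
  simp

private theorem rg_plane :
    (gaussianReal 0 1).prod (gaussianReal 0 1) =
      (volume : Measure (ℝ × ℝ)).withDensity
        (fun z => gaussianPDF 0 1 z.1 * gaussianPDF 0 1 z.2) := by
  rw [gaussianReal_of_var_ne_zero 0 one_ne_zero, Measure.volume_eq_prod]
  exact prod_withDensity (measurable_gaussianPDF 0 1) (measurable_gaussianPDF 0 1)

private theorem rg_density (α : ℝ) (z : ℝ × ℝ) :
    gaussianPDF 0 1 (rgL α z).1 * gaussianPDF 0 1 (rgL α z).2 =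
      gaussianPDF 0 1 z.1 * gaussianPDF 0 1 z.2 := by
  have h : ∀ x y : ℝ, gaussianPDF 0 1 x * gaussianPDF 0 1 y =
      ENNReal.ofReal ((Real.sqrt (2 * Real.pi))⁻¹ * (Real.sqrt (2 * Real.pi))⁻¹ *
        Real.exp (-(x ^ 2 + y ^ 2) / 2)) := by
    intro x y
    unfold gaussianPDF gaussianPDFReal
    rw [← ENNReal.ofReal_mul (by positivity)]
    congr 1
    simp only [NNReal.coe_one, mul_one, sub_zero]
    rw [show -(x ^ 2 + y ^ 2) / 2 = -x ^ 2 / 2 + -y ^ 2 / 2 by ring, Real.exp_add]
    ring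
  rw [h, h, rgL_apply]
  congr 4
  have := Real.sin_sq_add_cos_sq α
  simp only
  have e : (Real.cos α * z.1 - Real.sin α * z.2) ^ 2 +
      (Real.sin α * z.1 + Real.cos α * z.2) ^ 2 =
      (Real.sin α ^ 2 + Real.cos α ^ 2) * (z.1 ^ 2 + z.2 ^ 2) := by ring
  rw [e, this, one_mul]

private theorem rgL_gauss (α : ℝ) :
    MeasurePreserving (rgL α) ((gaussianReal 0 1).prod (gaussianReal 0 1))
      ((gaussianReal 0 1).prod (gaussianReal 0 1)) := by
  refine ⟨measurable_rgL α, ?_⟩
  have hd : Measurable fun z : ℝ × ℝ => gaussianPDF 0 1 z.1 * gaussianPDF 0 1 z.2 :=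
    ((measurable_gaussianPDF 0 1).comp measurable_fst).mul
      ((measurable_gaussianPDF 0 1).comp measurable_snd)
  refine Measure.ext fun s hs => ?_
  rw [Measure.map_apply (measurable_rgL α) hs, rg_plane,
    withDensity_apply _ (measurable_rgL α hs), withDensity_apply _ hs]
  rw [← lintegral_indicator (measurable_rgL α hs), ← lintegral_indicator hs]
  rw [← (rgL_volume α).lintegral_comp (hd.indicator hs)]
  refine lintegral_congr fun z => ?_
  by_cases hz : rgL α z ∈ s
  · rw [Set.indicator_of_mem (by exact hz), Set.indicator_of_mem hz, rg_density]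
  · rw [Set.indicator_of_notMem (by exact hz), Set.indicator_of_notMem hz]

/-- the law of the independent standard normal variables `ξ_p, η_p`, `p ∈ ι` -/
noncomputable def gaussPairs (ι : Type*) [Fintype ι] : Measure (ι → ℝ × ℝ) :=
  Measure.pi fun _ => (gaussianReal 0 1).prod (gaussianReal 0 1)

instance {ι : Type*} [Fintype ι] : IsProbabilityMeasure (gaussPairs ι) := by
  unfold gaussPairs
  infer_instance

/-- the field `(∑ ξ_p f_p, ∑ η_p f_p)`, `g p = (ξ_p, η_p)` -/
noncomputable def combF {ι : Type*} [Fintype ι] (f : ι → MvPolynomial (Fin 2) ℝ)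
    (g : ι → ℝ × ℝ) : ℝ × ℝ → ℝ × ℝ :=
  vf (∑ p, MvPolynomial.C (g p).1 * f p) (∑ p, MvPolynomial.C (g p).2 * f p)

/-- **Gaussian fields.** -/
theorem gauss_mean {K : ℝ} {k : ℕ} (h : MeanAll K k) {n : ℕ} (hn : 1 ≤ n)
    {ι : Type*} [Fintype ι] (f : ι → MvPolynomial (Fin 2) ℝ) (hf : ∀ p, (f p).totalDegree ≤ n) :
    ∫⁻ g, allN (combF f g) ∂gaussPairs ι ≤ ENNReal.ofReal (K / (2 * Real.pi) * n ^ k) := by
  have hpi := Real.pi_pos
  have hdeg : ∀ c : ι → ℝ, (∑ p, MvPolynomial.C (c p) * f p).totalDegree ≤ n := by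
    intro c
    refine MvPolynomial.totalDegree_finsetSum_le fun p _ => ?_
    refine (MvPolynomial.totalDegree_mul _ _).trans ?_
    rw [MvPolynomial.totalDegree_C, zero_add]
    exact hf p
  -- the coefficient array
  set X : (ι → ℝ × ℝ) → Pr n := fun g =>
    (fun a b => ∑ p, (g p).1 * arr n (f p) a b, fun a b => ∑ p, (g p).2 * arr n (f p) a b) with hX
  have hXc : Continuous X := by
    rw [hX]
    fun_prop
  have hXv : ∀ g, vfc (X g) = combF f g := by
    intro g
    unfold combF
    rw [vf_eq_vfc (hdeg fun p => (g p).1) (hdeg fun p => (g p).2)]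
    congr 1
    refine Prod.ext ?_ ?_
    · funext a b
      simp only [hX, arr, MvPolynomial.coeff_sum, MvPolynomial.coeff_C_mul]
    · funext a b
      simp only [hX, arr, MvPolynomial.coeff_sum, MvPolynomial.coeff_C_mul]
  have hXm : Measurable fun g => allN (combF f g) := by
    have : (fun g => allN (combF f g)) = (fun μ => allN (vfc μ)) ∘ X := by
      funext g
      simp only [Function.comp, hXv]
    rw [this]
    exact (measurable_allN n).comp hXc.measurable
  have hrot : ∀ a : ℝ, ∀ g : ι → ℝ × ℝ,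
      combF f (fun p => rgL a (g p)) = turn a (combF f g) := by
    intro a g
    funext z
    simp only [combF, vf, turn, rgL_apply, map_sum, map_mul, MvPolynomial.eval_C, Finset.mul_sum]
    refine Prod.ext ?_ ?_
    · rw [← Finset.sum_sub_distrib]
      exact Finset.sum_congr rfl fun p _ => by ring
    · rw [← Finset.sum_add_distrib]
      exact Finset.sum_congr rfl fun p _ => by ring
  have h1 : ∀ a : ℝ, ∫⁻ g, allN (turn a (combF f g)) ∂gaussPairs ι =
      ∫⁻ g, allN (combF f g) ∂gaussPairs ι := by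
    intro a
    have hp : MeasurePreserving (fun (g : ι → ℝ × ℝ) (p : ι) => rgL a (g p))
        (gaussPairs ι) (gaussPairs ι) :=
      measurePreserving_pi (fun _ : ι => (gaussianReal 0 1).prod (gaussianReal 0 1))
        (fun _ : ι => (gaussianReal 0 1).prod (gaussianReal 0 1)) (fun _ => rgL_gauss a)
    rw [← hp.lintegral_comp hXm]
    refine lintegral_congr fun g => ?_
    rw [hrot]
  have hm2 : Measurable fun q : ℝ × (ι → ℝ × ℝ) => allN (turn q.1 (combF f q.2)) := by
    have : (fun q : ℝ × (ι → ℝ × ℝ) => allN (turn q.1 (combF f q.2))) =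
        (fun p : Pr n × ℝ => allN (vfc (rotA p.1 p.2))) ∘ fun q => (X q.2, q.1) := by
      funext q
      simp only [Function.comp, vfc_rotA, hXv]
    rw [this]
    exact (measurable_allN_rotA n).comp (by fun_prop : Continuous _).measurable
  have h2 : ∫⁻ _a : ℝ in Set.Icc 0 (2 * Real.pi), ∫⁻ g, allN (combF f g) ∂gaussPairs ι ≤
      ENNReal.ofReal (K * n ^ k) := by
    calc ∫⁻ _a : ℝ in Set.Icc 0 (2 * Real.pi), ∫⁻ g, allN (combF f g) ∂gaussPairs ι
        = ∫⁻ a in Set.Icc 0 (2 * Real.pi), ∫⁻ g, allN (turn a (combF f g)) ∂gaussPairs ι := by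
          refine lintegral_congr fun a => (h1 a).symm
      _ = ∫⁻ g, (∫⁻ a in Set.Icc 0 (2 * Real.pi), allN (turn a (combF f g))) ∂gaussPairs ι := by
          refine lintegral_lintegral_swap ?_
          exact hm2.aemeasurable
      _ ≤ ∫⁻ _g, ENNReal.ofReal (K * n ^ k) ∂gaussPairs ι := by
          refine lintegral_mono fun g => ?_
          exact (mean_plain h hn (hdeg fun p => (g p).1) (hdeg fun p => (g p).2)).2
      _ = _ := by simp
  rw [lintegral_const, Measure.restrict_apply_univ, Real.volume_Icc, sub_zero] at h2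
  have h3 : (0 : ℝ) < 2 * Real.pi := by positivity
  have h4 : ENNReal.ofReal (2 * Real.pi) ≠ 0 := (ENNReal.ofReal_pos.2 h3).ne'
  have h5 : ∫⁻ g, allN (combF f g) ∂gaussPairs ι ≤
      ENNReal.ofReal (K * n ^ k) / ENNReal.ofReal (2 * Real.pi) :=
    (ENNReal.le_div_iff_mul_le (Or.inl h4) (Or.inl ENNReal.ofReal_ne_top)).2 h2
  refine h5.trans (le_of_eq ?_)
  rw [← ENNReal.ofReal_div_of_pos h3]
  congr 1
  ring

end Pool.Agent.Lib.MP_95e7ec_an
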