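import Mathlib
import Pool.Agent.Lib.MP_95e7ec_an.Ry.RandGauss

/-!
# Ry, RandComb: random linear combinations of given polynomials, rotation invariant laws

For arbitrary polynomials `f_p`, `p ∈ ι`, of degree at most `n` and every law of `(ξ_p, η_p)_p`
which is invariant under the simultaneous rotations of all the pairs `(ξ_p, η_p)`, the expected
number of closed orbits of `(∑ ξ_p f_p, ∑ η_p f_p)` in the plane is at most `K n ^ k / (2 π)`.
-/

set_option autoImplicit false

open Set Filter Topology MeasureTheory ProbabilityTheory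
open scoped ContDiff ENNReal

namespace Pool.Agent.Lib.MP_95e7ec_an

/-- the rotation of the plane by the angle `a` -/
noncomputable def rotP (a : ℝ) (z : ℝ × ℝ) : ℝ × ℝ :=
  (Real.cos a * z.1 - Real.sin a * z.2, Real.sin a * z.1 + Real.cos a * z.2)

theorem measurable_rotP_pi {ι : Type*} [Fintype ι] (a : ℝ) :
    Measurable fun (g : ι → ℝ × ℝ) (p : ι) => rotP a (g p) := by
  have : Continuous fun (g : ι → ℝ × ℝ) (p : ι) => rotP a (g p) := by
    unfold rotP
    fun_prop
  exact this.measurable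

theorem comb_mean {K : ℝ} {k : ℕ} (h : MeanAll K k) {n : ℕ} (hn : 1 ≤ n)
    {ι : Type*} [Fintype ι] (f : ι → MvPolynomial (Fin 2) ℝ) (hf : ∀ p, (f p).totalDegree ≤ n)
    (ν : Measure (ι → ℝ × ℝ)) [IsProbabilityMeasure ν]
    (hν : ∀ a : ℝ, ν.map (fun (g : ι → ℝ × ℝ) (p : ι) => rotP a (g p)) = ν) :
    ∫⁻ g, allN (combF f g) ∂ν ≤ ENNReal.ofReal (K / (2 * Real.pi) * n ^ k) := by
  have hpi := Real.pi_pos
  have hdeg : ∀ c : ι → ℝ, (∑ p, MvPolynomial.C (c p) * f p).totalDegree ≤ n := by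
    intro c
    refine MvPolynomial.totalDegree_finsetSum_le fun p _ => ?_
    refine (MvPolynomial.totalDegree_mul _ _).trans ?_
    rw [MvPolynomial.totalDegree_C, zero_add]
    exact hf p
  -- the coefficient array
  set X : (ι → ℝ × ℝ) → Pr n := fun g =>
    (fun a b => ∑ p, (g p).1 * arr n (f p) a b, fun a b => ∑ p, (g p).2 * arr n (f p) a b) with hX
  have hXc : Continuous X := by
    rw [hX]
    fun_prop
  have hXv : ∀ g, vfc (X g) = combF f g := by
    intro g
    unfold combF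
    rw [vf_eq_vfc (hdeg fun p => (g p).1) (hdeg fun p => (g p).2)]
    congr 1
    refine Prod.ext ?_ ?_
    · funext a b
      simp only [hX, arr, MvPolynomial.coeff_sum, MvPolynomial.coeff_C_mul]
    · funext a b
      simp only [hX, arr, MvPolynomial.coeff_sum, MvPolynomial.coeff_C_mul]
  have hXm : Measurable fun g => allN (combF f g) := by
    have : (fun g => allN (combF f g)) = (fun μ => allN (vfc μ)) ∘ X := by
      funext g
      simp only [Function.comp, hXv]
    rw [this]
    exact (measurable_allN n).comp hXc.measurable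
  have hrot : ∀ a : ℝ, ∀ g : ι → ℝ × ℝ,
      combF f (fun p => rotP a (g p)) = turn a (combF f g) := by
    intro a g
    funext z
    simp only [combF, vf, turn, rotP, map_sum, map_mul, MvPolynomial.eval_C, Finset.mul_sum]
    refine Prod.ext ?_ ?_
    · rw [← Finset.sum_sub_distrib]
      exact Finset.sum_congr rfl fun p _ => by ring
    · rw [← Finset.sum_add_distrib]
      exact Finset.sum_congr rfl fun p _ => by ring
  have h1 : ∀ a : ℝ, ∫⁻ g, allN (turn a (combF f g)) ∂ν = ∫⁻ g, allN (combF f g) ∂ν := by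
    intro a
    conv_rhs => rw [← hν a]
    rw [lintegral_map hXm (measurable_rotP_pi a)]
    refine lintegral_congr fun g => ?_
    rw [hrot]
  have hm2 : Measurable fun q : ℝ × (ι → ℝ × ℝ) => allN (turn q.1 (combF f q.2)) := by
    have : (fun q : ℝ × (ι → ℝ × ℝ) => allN (turn q.1 (combF f q.2))) =
        (fun p : Pr n × ℝ => allN (vfc (rotA p.1 p.2))) ∘ fun q => (X q.2, q.1) := by
      funext q
      simp only [Function.comp, vfc_rotA, hXv]
    rw [this]
    exact (measurable_allN_rotA n).comp (by fun_prop : Continuous _).measurable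
  have h2 : ∫⁻ _a : ℝ in Set.Icc 0 (2 * Real.pi), ∫⁻ g, allN (combF f g) ∂ν ≤
      ENNReal.ofReal (K * n ^ k) := by
    calc ∫⁻ _a : ℝ in Set.Icc 0 (2 * Real.pi), ∫⁻ g, allN (combF f g) ∂ν
        = ∫⁻ a in Set.Icc 0 (2 * Real.pi), ∫⁻ g, allN (turn a (combF f g)) ∂ν := by
          refine lintegral_congr fun a => (h1 a).symm
      _ = ∫⁻ g, (∫⁻ a in Set.Icc 0 (2 * Real.pi), allN (turn a (combF f g))) ∂ν := by
          refine lintegral_lintegral_swap ?_
          exact hm2.aemeasurable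
      _ ≤ ∫⁻ _g, ENNReal.ofReal (K * n ^ k) ∂ν := by
          refine lintegral_mono fun g => ?_
          exact (mean_plain h hn (hdeg fun p => (g p).1) (hdeg fun p => (g p).2)).2
      _ = _ := by simp
  rw [lintegral_const, Measure.restrict_apply_univ, Real.volume_Icc, sub_zero] at h2
  have h3 : (0 : ℝ) < 2 * Real.pi := by positivity
  have h4 : ENNReal.ofReal (2 * Real.pi) ≠ 0 := (ENNReal.ofReal_pos.2 h3).ne'
  have h5 : ∫⁻ g, allN (combF f g) ∂ν ≤
      ENNReal.ofReal (K * n ^ k) / ENNReal.ofReal (2 * Real.pi) :=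
    (ENNReal.le_div_iff_mul_le (Or.inl h4) (Or.inl ENNReal.ofReal_ne_top)).2 h2
  refine h5.trans (le_of_eq ?_)
  rw [← ENNReal.ofReal_div_of_pos h3]
  congr 1
  ring

/-- The mean theorem and the bound for random linear combinations, with one pair of constants. -/
theorem mean_full2 (hm : ∃ (K : ℝ) (k : ℕ), MeanAll K k) :
    ∃ (K : ℝ) (k : ℕ), ∀ n : ℕ, 1 ≤ n →
      (∀ P Q : MvPolynomial (Fin 2) ℝ, P.totalDegree ≤ n → Q.totalDegree ≤ n →
        Measurable (fun a : ℝ => allN (turn a (vf P Q))) ∧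
        ∫⁻ a in Set.Icc 0 (2 * Real.pi), allN (turn a (vf P Q)) ≤ ENNReal.ofReal (K * n ^ k)) ∧
      (∀ (m : ℕ) (f : Fin m → MvPolynomial (Fin 2) ℝ) (ν : Measure (Fin m → ℝ × ℝ)),
        (∀ p, (f p).totalDegree ≤ n) → IsProbabilityMeasure ν →
        (∀ a : ℝ, ν.map (fun (g : Fin m → ℝ × ℝ) (p : Fin m) => rotP a (g p)) = ν) →
        ∫⁻ g, allN (combF f g) ∂ν ≤ ENNReal.ofReal (K * n ^ k)) ∧
      (∀ (m : ℕ) (f : Fin m → MvPolynomial (Fin 2) ℝ), (∀ p, (f p).totalDegree ≤ n) →
        ∫⁻ g, allN (combF f g) ∂gaussPairs (Fin m) ≤ ENNReal.ofReal (K * n ^ k)) := by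
  obtain ⟨K, k, h⟩ := hm
  have hpi := Real.pi_gt_three
  set K₁ : ℝ := |K| with hK₁
  have hK₁0 : 0 ≤ K₁ := abs_nonneg K
  have hle1 : K ≤ K₁ := le_abs_self K
  have hle3 : K / (2 * Real.pi) ≤ K₁ := by
    rw [div_le_iff₀ (by positivity)]
    nlinarith
  refine ⟨K₁, k, fun n hn => ⟨?_, ?_, ?_⟩⟩
  · intro P Q hP hQ
    obtain ⟨h1, h2⟩ := mean_plain h hn hP hQ
    exact ⟨h1, h2.trans (ENNReal.ofReal_le_ofReal
      (mul_le_mul_of_nonneg_right hle1 (by positivity)))⟩
  · intro m f ν hf hν hrot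
    have := hν
    exact (comb_mean h hn f hf ν hrot).trans (ENNReal.ofReal_le_ofReal
      (mul_le_mul_of_nonneg_right hle3 (by positivity)))
  · intro m f hf
    exact (gauss_mean h hn f hf).trans (ENNReal.ofReal_le_ofReal
      (mul_le_mul_of_nonneg_right hle3 (by positivity)))

end Pool.Agent.Lib.MP_95e7ec_an
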