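import Mathlib
import Pool.Agent.Lib.MP_95e7ec_an.Ry.RDefs
import Pool.Agent.Lib.MP_95e7ec_an.Ry.PolyLow
import Pool.Agent.Lib.MP_95e7ec_an.Ry.VelBd

/-!
# Ry, GoodRho: the radial derivative of the argument on the good rays
-/

set_option autoImplicit false

open Set Filter Topology MeasureTheory Polynomial
open scoped ContDiff ENNReal Polynomial.Bivariate

namespace Pool.Agent.Lib.MP_95e7ec_an

private theorem goodRho_differentiable (p : ℂ[X]) :
    Differentiable ℂ fun r : ℂ => p.eval (Complex.exp r) :=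
  p.differentiable.comp Complex.differentiable_exp

private theorem goodRho_isOpen {I : Set ℝ} (hI : IsOpen I) : IsOpen (strip I) :=
  hI.preimage Complex.continuous_re

/-- Proof. `Branches.fac` evaluated at `s` (`evalEval` is the value of `A.map (evalRingHom r)` at `s`:
`map_evalRingHom_eval`), then the logarithmic derivative of a product (`logDeriv_mul`, `logDeriv_prod`, or directly). -/
theorem branches_logd {A : ℂ[X][Y]} {I : Set ℝ} (hI : IsOpen I) {d : ℕ} {b : Fin d → ℂ → ℂ}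
    (hb : Branches A I b) {ρ : ℂ} (hρ : ρ ∈ strip I) {s : ℂ}
    (h0 : A.evalEval (Complex.exp ρ) s ≠ 0) :
    deriv (fun r => A.evalEval (Complex.exp r) s) ρ / A.evalEval (Complex.exp ρ) s =
      deriv (fun r => A.leadingCoeff.eval (Complex.exp r)) ρ /
        A.leadingCoeff.eval (Complex.exp ρ) - ∑ j, deriv (b j) ρ / (s - b j ρ) := by
  have hop := goodRho_isOpen hI
  have hfac : ∀ r ∈ strip I, A.evalEval (Complex.exp r) s =
      A.leadingCoeff.eval (Complex.exp r) * ∏ j, (s - b j r) := by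
    intro r hr
    rw [← map_evalRingHom_eval, hb.fac r hr, eval_mul, eval_C, eval_prod]
    simp
  have hne := hfac ρ hρ
  have hne2 : A.leadingCoeff.eval (Complex.exp ρ) * ∏ j, (s - b j ρ) ≠ 0 := hne ▸ h0
  have hl := left_ne_zero_of_mul hne2
  have hr := right_ne_zero_of_mul hne2
  have hrj : ∀ j, s - b j ρ ≠ 0 := fun j => (Finset.prod_ne_zero_iff.1 hr) j (Finset.mem_univ _)
  have hbd : ∀ j, DifferentiableAt ℂ (b j) ρ := fun j =>
    (hb.hol j ρ hρ).differentiableAt (hop.mem_nhds hρ)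
  have hev : (fun r => A.evalEval (Complex.exp r) s) =ᶠ[𝓝 ρ]
      fun r => A.leadingCoeff.eval (Complex.exp r) * ∏ j, (s - b j r) := by
    filter_upwards [hop.mem_nhds hρ] with r hr using hfac r hr
  have h1 : deriv (fun r => A.evalEval (Complex.exp r) s) ρ / A.evalEval (Complex.exp ρ) s =
      logDeriv (fun r => A.leadingCoeff.eval (Complex.exp r) * ∏ j, (s - b j r)) ρ := by
    rw [hev.deriv_eq, hne]
    rfl
  have hbd2 : ∀ j, DifferentiableAt ℂ (fun r => s - b j r) ρ := fun j =>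
    (differentiableAt_const s).sub (hbd j)
  rw [h1, logDeriv_mul ρ hl hr (goodRho_differentiable _ ρ)
    (DifferentiableAt.fun_finsetProd fun j _ => hbd2 j)]
  rw [logDeriv_prod (fun j _ => hrj j) (fun j _ => hbd2 j)]
  rw [sub_eq_add_neg, ← Finset.sum_neg_distrib]
  congr 1
  refine Finset.sum_congr rfl fun j _ => ?_
  rw [logDeriv_apply, deriv_const_sub]
  ring

/-- Proof. `H ρ = e^{-kρ} A(e^ρ, s)`, `s = e^{iθ}`, `ω = homc A k`: on `ball x 1` `‖H ρ - ω(s)‖ ≤ δ l1 ω` (`DomAt.dom`,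
`‖e^{-kρ}‖ e^{k Re ρ} = 1`), so `‖H' x‖ ≤ 2 δ l1 ω` (`cauchy_two` for `H - ω(s)`), `‖H x‖ ≥ (κ/5)^N l1 ω - δ l1 ω ≥
(κ/5)^N l1 ω / 2` (`poly_lower`), and `‖H'/H‖ ≤ 4 δ / (κ/5)^N`. `H'/H = -k + (log A)'`, and `k` is real: use
`branches_logd`. -/
theorem good_rho_of {A : ℂ[X][Y]} {I : Set ℝ} (hI : IsOpen I) {k : ℕ} {δ : ℝ}
    (hD : DomAt A I k δ) {N : ℕ} (hN : (homc A k).natDegree ≤ N) {κ : ℝ} (hκ : 0 < κ)
    (hκ1 : κ ≤ 1) (hδ : 2 * δ ≤ (κ / 5) ^ N) {θ : ℝ}
    (hθ : ∀ c ∈ (homc A k).roots, κ ≤ ‖Complex.exp (θ * Complex.I) - c‖) {x : ℝ}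
    (hx : Metric.ball (x : ℂ) 1 ⊆ strip I) {d : ℕ} {b : Fin d → ℂ → ℂ} (hb : Branches A I b) :
    |(deriv (fun r => A.leadingCoeff.eval (Complex.exp r)) (x : ℂ) /
        A.leadingCoeff.eval (Complex.exp x) -
        ∑ j, deriv (b j) x / (Complex.exp (θ * Complex.I) - b j x)).im| ≤
      4 * δ / (κ / 5) ^ N := by
  set s : ℂ := Complex.exp (θ * Complex.I) with hs
  have hs1 : ‖s‖ = 1 := Complex.norm_exp_ofReal_mul_I θ
  have hs2 : ‖s‖ ≤ 2 := by rw [hs1]; norm_num
  set w0 := homc A k with hw0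
  have hl : 0 < l1 w0 := l1_pos hD.ne
  have hKp : 0 < (κ / 5) ^ N := by positivity
  set G : ℂ → ℂ := fun r => A.evalEval (Complex.exp r) s with hG
  have hGd : Differentiable ℂ G := goodRho_differentiable (eval (C s) A)
  set E : ℂ → ℂ := fun r => Complex.exp (-(k * r)) with hE
  have hEd : ∀ r : ℂ, HasDerivAt E (-(k : ℂ) * E r) r := by
    intro r
    have h1 : HasDerivAt (fun r : ℂ => -((k : ℂ) * r)) (-((k : ℂ) * 1)) r :=
      ((hasDerivAt_id r).const_mul (k : ℂ)).neg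
    refine h1.cexp.congr_deriv ?_
    simp only [hE]
    ring
  set H : ℂ → ℂ := fun r => E r * G r with hH
  have hHd : ∀ r : ℂ, HasDerivAt H (-(k : ℂ) * E r * G r + E r * deriv G r) r := fun r =>
    (hEd r).mul (hGd r).hasDerivAt
  -- the bound on the disc
  have hdom : ∀ r ∈ Metric.ball (x : ℂ) 1, ‖H r - w0.eval s‖ ≤ δ * l1 w0 := by
    intro r hr
    have h1 := hD.dom r (hx hr) s hs2
    have h2 : H r - w0.eval s = E r * (G r - Complex.exp (k * r) * w0.eval s) := by
      have h3 : E r * Complex.exp (k * r) = 1 := by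
        simp only [hE]
        rw [← Complex.exp_add, neg_add_cancel, Complex.exp_zero]
      simp only [hH]
      linear_combination (w0.eval s) * h3
    have h4 : ‖E r‖ = Real.exp (-(k * r.re)) := by
      simp only [hE]
      rw [Complex.norm_exp]
      simp
    rw [h2, norm_mul, h4]
    calc Real.exp (-(k * r.re)) * ‖G r - Complex.exp (k * r) * w0.eval s‖
        ≤ Real.exp (-(k * r.re)) * (δ * l1 w0 * Real.exp (k * r.re)) :=
          mul_le_mul_of_nonneg_left h1 (Real.exp_pos _).le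
      _ = δ * l1 w0 * (Real.exp (-(k * r.re)) * Real.exp (k * r.re)) := by ring
      _ = δ * l1 w0 := by rw [← Real.exp_add, neg_add_cancel, Real.exp_zero, mul_one]
  have hdiff : DifferentiableOn ℂ (fun r => H r - w0.eval s) (Metric.ball (x : ℂ) 1) := fun r _ =>
    ((hHd r).differentiableAt.sub_const _).differentiableWithinAt
  have hder := (cauchy_two hdiff hdom).1
  rw [deriv_sub_const, (hHd x).deriv] at hder
  have hxm : (x : ℂ) ∈ Metric.ball (x : ℂ) 1 := Metric.mem_ball_self one_pos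
  have hlow : (κ / 5) ^ N * l1 w0 / 2 ≤ ‖H x‖ := by
    have h1 := poly_lower hD.ne hN hκ hκ1 hs2 hθ
    have h2 := hdom x hxm
    have h3 : ‖w0.eval s‖ - ‖H x‖ ≤ ‖H x - w0.eval s‖ := by
      rw [norm_sub_rev]
      exact norm_sub_norm_le _ _
    have h4 : 2 * δ * l1 w0 ≤ (κ / 5) ^ N * l1 w0 := mul_le_mul_of_nonneg_right hδ hl.le
    rw [← hw0] at h1
    linarith
  have hHpos : 0 < ‖H x‖ := lt_of_lt_of_le (by positivity) hlow
  have hHne : H x ≠ 0 := norm_pos_iff.1 hHpos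
  have hGne : G x ≠ 0 := right_ne_zero_of_mul hHne
  have hEne : E x ≠ 0 := left_ne_zero_of_mul hHne
  have hlog := branches_logd hI hb (hx hxm) (s := s) hGne
  have hGx : A.evalEval (Complex.exp (x : ℂ)) s = G x := rfl
  rw [← hlog, hGx]
  have hsplit : deriv G x / G x = (k : ℂ) + (-(k : ℂ) * E x * G x + E x * deriv G x) / H x := by
    simp only [hH]
    field_simp
    ring
  have him : (deriv G x / G x).im = ((-(k : ℂ) * E x * G x + E x * deriv G x) / H x).im := by
    rw [hsplit]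
    simp
  rw [show deriv (fun r => A.evalEval (Complex.exp r) s) (x : ℂ) = deriv G x from rfl, him]
  refine (Complex.abs_im_le_norm _).trans ?_
  rw [norm_div, div_le_div_iff₀ hHpos hKp]
  have hd0 : 0 ≤ δ * l1 w0 := le_trans (norm_nonneg _) (hdom x hxm)
  have hδ0 : 0 ≤ δ := by
    by_contra hneg
    push Not at hneg
    exact absurd hd0 (not_le.2 (mul_neg_of_neg_of_pos hneg hl))
  calc ‖-(k : ℂ) * E x * G x + E x * deriv G x‖ * (κ / 5) ^ N
      ≤ (2 * (δ * l1 w0)) * (κ / 5) ^ N := mul_le_mul_of_nonneg_right hder hKp.le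
    _ = 4 * δ * ((κ / 5) ^ N * l1 w0 / 2) := by ring
    _ ≤ 4 * δ * ‖H x‖ := mul_le_mul_of_nonneg_left hlow (by positivity)

end Pool.Agent.Lib.MP_95e7ec_an
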