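import Mathlib
import Pool.Agent.Lib.MP_95e7ec_an.Ry.RDefs

/-!
# Ry, RParam: the parameters of part R
-/

set_option autoImplicit false

open Set Filter Topology MeasureTheory Polynomial
open scoped ContDiff ENNReal Polynomial.Bivariate

namespace Pool.Agent.Lib.MP_95e7ec_an

/-- `log` of the constant of `roots_core` for `N = 2n`, `e = n+1` -/
noncomputable def rL (n : ℕ) : ℝ := ttC (2 * (2 * n) * (2 * n)) (2 * (2 * n) * (n + 1))

/-- the constant `Λ` -/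
noncomputable def rLam (n : ℕ) : ℝ := 60 * Real.exp (2 * rL n)

/-- the distance of the good rays from the zeros of the dominating term -/
noncomputable def rK1 (n : ℕ) (t : ℝ) : ℝ := t ^ 3 / (96 * n)

/-- the bound for the velocities of the near roots -/
noncomputable def rV (n : ℕ) (t : ℝ) : ℝ := kapV (2 * n + 2) (rLam n) (rK1 n t / 2) t

/-- the radius of the discs round the zeros of the dominating term -/
noncomputable def rEps (n : ℕ) (t : ℝ) : ℝ := rV n t / (100 * n)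

/-- the constant `B` -/
noncomputable def rB (n : ℕ) : ℝ :=
  2 + Real.log ((n : ℝ) + 1) + 2 * n + (2 * n + 1) *
    (Real.log (500 * n * (10 ^ 6 * (2 * (n : ℝ) + 3) ^ 3)) + 3 * Real.log (192 * n) +
      2 * Real.log (rLam n) + 11)

private theorem rParam_rL_nonneg (n : ℕ) : 0 ≤ rL n := by
  unfold rL ttC
  have h1 : 0 ≤ Real.log (((2 * (2 * n) * (2 * n) : ℕ) : ℝ) + 1) := by
    apply Real.log_nonneg
    have : (0 : ℝ) ≤ ((2 * (2 * n) * (2 * n) : ℕ) : ℝ) := Nat.cast_nonneg _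
    linarith
  positivity

theorem rLam_ge {n : ℕ} : 1 ≤ rLam n := by
  unfold rLam
  have h := Real.one_le_exp (mul_nonneg zero_le_two (rParam_rL_nonneg n))
  linarith

private theorem rParam_log_rLam (n : ℕ) : Real.log (rLam n) = Real.log 60 + 2 * rL n := by
  unfold rLam
  rw [Real.log_mul (by norm_num) (Real.exp_ne_zero _), Real.log_exp]

private theorem rParam_rL_le {n : ℕ} (hn : 1 ≤ n) : rL n ≤ 9072 * (n : ℝ) ^ 6 := by
  have hx : (1 : ℝ) ≤ n := by exact_mod_cast hn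
  have hN : (((2 * (2 * n) * (2 * n) : ℕ) : ℝ)) = 8 * (n : ℝ) ^ 2 := by
    push_cast
    ring
  have he : (((2 * (2 * n) * (n + 1) : ℕ) : ℝ)) = 4 * (n : ℝ) * (n + 1) := by
    push_cast
    ring
  have hlog : Real.log (8 * (n : ℝ) ^ 2 + 1) ≤ 8 * (n : ℝ) ^ 2 := by
    have := Real.log_le_sub_one_of_pos (show (0 : ℝ) < 8 * (n : ℝ) ^ 2 + 1 by positivity)
    linarith
  have hx2 : (n : ℝ) ≤ (n : ℝ) ^ 2 := by nlinarith
  have h1 : (8 * (n : ℝ) ^ 2 + 1) ^ 2 ≤ (9 * (n : ℝ) ^ 2) ^ 2 := by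
    apply pow_le_pow_left₀ (by positivity)
    linarith
  have h2 : 2 * Real.log (8 * (n : ℝ) ^ 2 + 1) + 12 * (4 * (n : ℝ) * (n + 1)) ≤
      112 * (n : ℝ) ^ 2 := by
    nlinarith
  unfold rL ttC
  rw [hN, he]
  calc (8 * (n : ℝ) ^ 2 + 1) ^ 2 *
        (2 * Real.log (8 * (n : ℝ) ^ 2 + 1) + 12 * (4 * (n : ℝ) * (n + 1)))
      ≤ (8 * (n : ℝ) ^ 2 + 1) ^ 2 * (112 * (n : ℝ) ^ 2) :=
        mul_le_mul_of_nonneg_left h2 (by positivity)
    _ ≤ (9 * (n : ℝ) ^ 2) ^ 2 * (112 * (n : ℝ) ^ 2) :=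
        mul_le_mul_of_nonneg_right h1 (by positivity)
    _ = 9072 * (n : ℝ) ^ 6 := by ring

private theorem rParam_rLam_le {n : ℕ} (hn : 1 ≤ n) :
    Real.log (rLam n) ≤ 18203 * (n : ℝ) ^ 6 := by
  have hx : (1 : ℝ) ≤ n := by exact_mod_cast hn
  have h1 := rParam_rL_le hn
  have h2 : Real.log 60 ≤ 59 := by
    have := Real.log_le_sub_one_of_pos (show (0 : ℝ) < 60 by norm_num)
    linarith
  have h3 : (1 : ℝ) ≤ (n : ℝ) ^ 6 := one_le_pow₀ hx
  rw [rParam_log_rLam]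
  linarith

/-- Proof. `ttC (8n²) (4n(n+1)) ≤ 81 n⁴ (2 log (9n²) + 96 n²) ≤ ..`, `log 60 ≤ 5`. -/
theorem rLam_le : ∃ K : ℝ, ∀ n : ℕ, 1 ≤ n → Real.log (rLam n) ≤ K * n ^ 6 :=
  ⟨18203, fun _ hn => rParam_rLam_le hn⟩

private theorem rParam_log_nonneg {n : ℕ} (hn : 1 ≤ n) :
    0 ≤ Real.log ((n : ℝ) + 1) ∧ 0 ≤ Real.log (500 * n * (10 ^ 6 * (2 * (n : ℝ) + 3) ^ 3)) ∧
      0 ≤ Real.log (192 * n) ∧ 0 ≤ Real.log (rLam n) := by
  have hx : (1 : ℝ) ≤ n := by exact_mod_cast hn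
  refine ⟨Real.log_nonneg (by linarith), Real.log_nonneg ?_, Real.log_nonneg (by linarith),
    Real.log_nonneg rLam_ge⟩
  have h1 : (1 : ℝ) ≤ (2 * (n : ℝ) + 3) ^ 3 := one_le_pow₀ (by linarith)
  have h2 : (1 : ℝ) ≤ 10 ^ 6 * (2 * (n : ℝ) + 3) ^ 3 := by linarith
  nlinarith

theorem rB_le : ∃ K : ℝ, ∀ n : ℕ, 1 ≤ n → 1 ≤ rB n ∧ rB n ≤ K * n ^ 7 := by
  refine ⟨3 * (62500000000 + 3 * 192 + 2 * 18203 + 11) + 5, ?_⟩
  intro n hn
  have hx : (1 : ℝ) ≤ n := by exact_mod_cast hn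
  obtain ⟨a1, a2, a3, a4⟩ := rParam_log_nonneg hn
  constructor
  · unfold rB
    have : 0 ≤ (2 * (n : ℝ) + 1) *
      (Real.log (500 * n * (10 ^ 6 * (2 * (n : ℝ) + 3) ^ 3)) + 3 * Real.log (192 * n) +
        2 * Real.log (rLam n) + 11) := by positivity
    linarith
  · have h1 : Real.log ((n : ℝ) + 1) ≤ n := by
      have := Real.log_le_sub_one_of_pos (show (0 : ℝ) < (n : ℝ) + 1 by positivity)
      linarith
    have p7 : (n : ℝ) ≤ (n : ℝ) ^ 7 := le_self_pow₀ hx (by norm_num)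
    have p6 : (n : ℝ) ≤ (n : ℝ) ^ 6 := le_self_pow₀ hx (by norm_num)
    have q6 : (1 : ℝ) ≤ (n : ℝ) ^ 6 := one_le_pow₀ hx
    have q7 : (1 : ℝ) ≤ (n : ℝ) ^ 7 := one_le_pow₀ hx
    have p46 : (n : ℝ) ^ 4 ≤ (n : ℝ) ^ 6 := pow_le_pow_right₀ hx (by norm_num)
    have h2 : Real.log (500 * n * (10 ^ 6 * (2 * (n : ℝ) + 3) ^ 3)) ≤
        62500000000 * (n : ℝ) ^ 6 := by
      have e1 := Real.log_le_sub_one_of_pos
        (show (0 : ℝ) < 500 * n * (10 ^ 6 * (2 * (n : ℝ) + 3) ^ 3) by positivity)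
      have e2 : (2 * (n : ℝ) + 3) ^ 3 ≤ (5 * (n : ℝ)) ^ 3 :=
        pow_le_pow_left₀ (by positivity) (by linarith) 3
      have e3 : 500 * n * (10 ^ 6 * (2 * (n : ℝ) + 3) ^ 3) ≤
          500 * n * (10 ^ 6 * (5 * (n : ℝ)) ^ 3) := by
        apply mul_le_mul_of_nonneg_left _ (by positivity)
        apply mul_le_mul_of_nonneg_left e2 (by positivity)
      have e4 : 500 * n * (10 ^ 6 * (5 * (n : ℝ)) ^ 3) = 62500000000 * (n : ℝ) ^ 4 := by ring
      linarith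
    have h3 : Real.log (192 * n) ≤ 192 * (n : ℝ) ^ 6 := by
      have := Real.log_le_sub_one_of_pos (show (0 : ℝ) < 192 * n by positivity)
      linarith
    have h4 := rParam_rLam_le hn
    have h5 : Real.log (500 * n * (10 ^ 6 * (2 * (n : ℝ) + 3) ^ 3)) + 3 * Real.log (192 * n) +
        2 * Real.log (rLam n) + 11 ≤ (62500000000 + 3 * 192 + 2 * 18203 + 11) * (n : ℝ) ^ 6 := by
      linarith
    have h6 : (2 * (n : ℝ) + 1) *
      (Real.log (500 * n * (10 ^ 6 * (2 * (n : ℝ) + 3) ^ 3)) + 3 * Real.log (192 * n) +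
        2 * Real.log (rLam n) + 11) ≤
        (3 * (n : ℝ)) * ((62500000000 + 3 * 192 + 2 * 18203 + 11) * (n : ℝ) ^ 6) :=
      mul_le_mul (by linarith) h5 (by positivity) (by positivity)
    have h7 : (3 * (n : ℝ)) * ((62500000000 + 3 * 192 + 2 * 18203 + 11) * (n : ℝ) ^ 6) =
        3 * (62500000000 + 3 * 192 + 2 * 18203 + 11) * (n : ℝ) ^ 7 := by ring
    unfold rB
    linarith

theorem rparam_small {n : ℕ} (hn : 1 ≤ n) {t : ℝ} (ht : 0 < t) (ht1 : t ≤ 1 / 20) :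
    0 < rK1 n t ∧ rK1 n t ≤ 1 ∧ 0 < rV n t ∧ rV n t ≤ rK1 n t ∧ 0 < rEps n t ∧
      rEps n t ≤ rK1 n t / 2 ∧ 4 * (2 * n) * rEps n t < 1 ∧ 42 * (2 * n) * rEps n t ≤ rV n t ∧
      48 * (2 * n) * rK1 n t ≤ t ^ 3 := by
  have hx : (1 : ℝ) ≤ n := by exact_mod_cast hn
  have hn0 : (n : ℝ) ≠ 0 := by positivity
  have hΛ := @rLam_ge n
  have hK0 : 0 < rK1 n t := by
    unfold rK1
    positivity
  have ht3 : t ^ 3 ≤ 1 := pow_le_one₀ ht.le (by linarith)
  have hK1 : rK1 n t ≤ 1 := by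
    unfold rK1
    rw [div_le_one (by positivity)]
    linarith
  have hV0 : 0 < rV n t := by
    unfold rV kapV
    positivity
  have hV1 : rV n t ≤ rK1 n t := by
    have hden : (1 : ℝ) ≤ 10 ^ 6 * (((2 * n + 2 : ℕ) : ℝ) + 1) ^ 3 * rLam n ^ 2 := by
      have e1 : (1 : ℝ) ≤ (((2 * n + 2 : ℕ) : ℝ) + 1) ^ 3 := by
        apply one_le_pow₀
        have : (0 : ℝ) ≤ ((2 * n + 2 : ℕ) : ℝ) := Nat.cast_nonneg _
        linarith
      have e2 : (1 : ℝ) ≤ rLam n ^ 2 := one_le_pow₀ hΛ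
      have e3 : (1 : ℝ) ≤ 10 ^ 6 * (((2 * n + 2 : ℕ) : ℝ) + 1) ^ 3 := by linarith
      exact one_le_mul_of_one_le_of_one_le e3 e2
    unfold rV kapV
    have ht2 : t ^ 2 ≤ 1 := pow_le_one₀ ht.le (by linarith)
    calc t ^ 2 * (rK1 n t / 2) ^ 3 / (10 ^ 6 * (((2 * n + 2 : ℕ) : ℝ) + 1) ^ 3 * rLam n ^ 2)
        ≤ t ^ 2 * (rK1 n t / 2) ^ 3 := div_le_self (by positivity) hden
      _ ≤ 1 * (rK1 n t / 2) ^ 3 := mul_le_mul_of_nonneg_right ht2 (by positivity)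
      _ = (rK1 n t / 2) ^ 3 := one_mul _
      _ ≤ (rK1 n t / 2) ^ 1 := pow_le_pow_of_le_one (by positivity) (by linarith) (by norm_num)
      _ ≤ rK1 n t := by
        rw [pow_one]
        linarith
  have hE : rEps n t * (100 * n) = rV n t := by
    unfold rEps
    field_simp
  have hE0 : 0 < rEps n t := by
    unfold rEps
    positivity
  have hnE : rEps n t ≤ n * rEps n t := le_mul_of_one_le_left hE0.le hx
  have hnE2 : 100 * (n * rEps n t) = rV n t := by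
    rw [← hE]
    ring
  refine ⟨hK0, hK1, hV0, hV1, hE0, ?_, ?_, ?_, ?_⟩
  · linarith
  · have : 4 * (2 * (n : ℝ)) * rEps n t = 8 * (n * rEps n t) := by ring
    rw [this]
    linarith
  · have : 42 * (2 * (n : ℝ)) * rEps n t = 84 * (n * rEps n t) := by ring
    rw [this]
    linarith
  · have : 48 * (2 * (n : ℝ)) * rK1 n t = t ^ 3 := by
      unfold rK1
      field_simp
      norm_num
    rw [this]

/-- Proof. Take logarithms: `log (5/ε) = log (500 n / v)` and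
`log (1/v) = log (10⁶ (2n+3)³ Λ²) + 2 log (1/t) + 3 log (192 n / t³)`, so
`log (5/ε) = log (500 n 10⁶ (2n+3)³) + 2 log Λ + 3 log (192 n) + 11 log (1/t)`, at most
`(.. + 11) (1 + log (1/t))` since the first terms are nonnegative. -/
theorem rparam_main {n : ℕ} (hn : 1 ≤ n) {t : ℝ} (ht : 0 < t) (ht1 : t ≤ 1 / 20) {D : ℝ}
    (hD : rB n * (1 + Real.log (1 / t)) - 2 ≤ D) :
    ((n + 1 : ℕ) : ℝ) * 2 ^ (2 * n) * Real.exp (-D) ≤ (rEps n t / 5) ^ (2 * n + 1) := by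
  have hx : (1 : ℝ) ≤ n := by exact_mod_cast hn
  have hn0 : (n : ℝ) ≠ 0 := by positivity
  have hΛ := @rLam_ge n
  have hΛ0 : 0 < rLam n := by linarith
  obtain ⟨a1, a2, a3, a4⟩ := rParam_log_nonneg hn
  obtain ⟨-, -, -, -, hE0, -⟩ := rparam_small hn ht ht1
  have hL0 : 0 ≤ Real.log (1 / t) := by
    apply Real.log_nonneg
    rw [le_div_iff₀ ht]
    linarith
  have hE5 : 0 < rEps n t / 5 := by positivity
  -- the logarithm of the radius
  have hlogE : Real.log (rEps n t / 5) =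
      -(Real.log (500 * n * (10 ^ 6 * (2 * (n : ℝ) + 3) ^ 3)) + 3 * Real.log (192 * n) +
        2 * Real.log (rLam n) + 11 * Real.log (1 / t)) := by
    have e1 : rEps n t / 5 = (t ^ 11) / ((500 * n * (10 ^ 6 * (2 * (n : ℝ) + 3) ^ 3)) *
        (192 * n) ^ 3 * rLam n ^ 2) := by
      unfold rEps rV kapV rK1
      push_cast
      field_simp
      ring
    have e2 : (500 * n * (10 ^ 6 * (2 * (n : ℝ) + 3) ^ 3)) ≠ 0 := by positivity
    have e3 : (192 * (n : ℝ)) ^ 3 ≠ 0 := by positivity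
    have e4 : rLam n ^ 2 ≠ 0 := by positivity
    rw [e1, Real.log_div (by positivity) (by positivity), Real.log_mul (mul_ne_zero e2 e3) e4,
      Real.log_mul e2 e3, Real.log_pow, Real.log_pow, Real.log_pow, one_div, Real.log_inv]
    push_cast
    ring
  have hpos1 : 0 < ((n + 1 : ℕ) : ℝ) * 2 ^ (2 * n) * Real.exp (-D) := by positivity
  have hpos2 : 0 < (rEps n t / 5) ^ (2 * n + 1) := by positivity
  rw [← Real.log_le_log_iff hpos1 hpos2]
  rw [Real.log_mul (by positivity) (Real.exp_ne_zero _), Real.log_exp,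
    Real.log_mul (by positivity) (by positivity), Real.log_pow, Real.log_pow, hlogE]
  have hlog2 : Real.log 2 ≤ 1 := by
    have := Real.log_le_sub_one_of_pos (show (0 : ℝ) < 2 by norm_num)
    linarith
  have hcast : ((n + 1 : ℕ) : ℝ) = (n : ℝ) + 1 := by push_cast; ring
  rw [hcast]
  push_cast
  unfold rB at hD
  set L := Real.log (1 / t) with hL
  set A := Real.log (500 * n * (10 ^ 6 * (2 * (n : ℝ) + 3) ^ 3)) with hA
  set B := Real.log (192 * (n : ℝ)) with hB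
  set G := Real.log (rLam n) with hG
  set P := Real.log ((n : ℝ) + 1) with hP
  have h1 : 0 ≤ (2 * (n : ℝ) + 1) * ((A + 3 * B + 2 * G) * L) := by positivity
  have h2 : 0 ≤ (2 + P + 2 * (n : ℝ)) * L := by positivity
  have h3 : 0 ≤ (2 * (n : ℝ) + 1) * 11 := by positivity
  have h4 : 2 * (n : ℝ) * Real.log 2 ≤ 2 * n := by nlinarith
  nlinarith

end Pool.Agent.Lib.MP_95e7ec_an
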