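import Mathlib
import Pool.Agent.Lib.MP_95e7ec_an.Ry.RDefs
import Pool.Agent.Lib.MP_95e7ec_an.Ry.Wp
import Pool.Agent.Lib.MP_95e7ec_an.Ry.RCore
import Pool.Agent.Lib.MP_95e7ec_an.Ry.RParam
import Pool.Agent.Lib.MP_95e7ec_an.Ry.VelBd
import Pool.Agent.Lib.MP_95e7ec_an.Ry.VelDiff
import Pool.Agent.Lib.MP_95e7ec_an.Ry.Domin
import Pool.Agent.Lib.MP_95e7ec_an.Ry.OscRoot
import Pool.Agent.Lib.MP_95e7ec_an.Ry.CutTau
import Pool.Agent.Lib.MP_95e7ec_an.Ry.GoodRho
import Pool.Agent.Lib.MP_95e7ec_an.Rq.ZoneData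
import Pool.Agent.Lib.MP_95e7ec_an.Zeros

/-!
# Ry, PartR: the roots (part R of the mean theorem)
-/

set_option autoImplicit false

open Set Filter Topology MeasureTheory Polynomial
open scoped ContDiff ENNReal Polynomial.Bivariate

namespace Pool.Agent.Lib.MP_95e7ec_an

private theorem partR_natDegree_homc {A : ℂ[X][Y]} {N : ℕ} (hN : A.natDegree ≤ N) (k : ℕ) :
    (homc A k).natDegree ≤ N := by
  rw [natDegree_le_iff_coeff_eq_zero]
  intro j hj
  rw [coeff_homc, coeff_eq_zero_of_natDegree_lt (by omega : A.natDegree < j)]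
  simp

private theorem partR_evalEval {A : ℂ[X][Y]} {I : Set ℝ} {d : ℕ} {b : Fin d → ℂ → ℂ}
    (hb : Branches A I b) {ρ : ℂ} (hρ : ρ ∈ strip I) (s : ℂ) :
    A.evalEval (Complex.exp ρ) s =
      A.leadingCoeff.eval (Complex.exp ρ) * ∏ j, (s - b j ρ) := by
  rw [← map_evalRingHom_eval, hb.fac ρ hρ, eval_mul, eval_C, eval_prod]
  simp

private theorem partR_ttC_nonneg (N e : ℕ) : 0 ≤ ttC N e := by
  unfold ttC
  have h : 0 ≤ Real.log ((N : ℝ) + 1) := Real.log_nonneg (by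
    have : (0 : ℝ) ≤ N := Nat.cast_nonneg _
    linarith)
  positivity

/-- the thickened interval -/
private def partR_th (I : Set ℝ) : Set ℝ := {x | ∃ s ∈ I, |x - s| < 2}

private theorem partR_th_open (I : Set ℝ) : IsOpen (partR_th I) := by
  have : partR_th I = ⋃ s ∈ I, Metric.ball s 2 := by
    ext x
    simp [partR_th, Real.dist_eq]
  rw [this]
  exact isOpen_biUnion fun s _ => Metric.isOpen_ball

private theorem partR_th_conn {I : Set ℝ} (hI : I.OrdConnected) : (partR_th I).OrdConnected := by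
  refine ⟨?_⟩
  rintro x ⟨s, hs, hxs⟩ y ⟨r, hr, hyr⟩ z ⟨h1, h2⟩
  rw [abs_lt] at hxs hyr
  rcases le_total z s with h3 | h3
  · rcases le_total (s - z) 1 with h4 | h4
    · exact ⟨s, hs, by rw [abs_lt]; constructor <;> linarith⟩
    · exact ⟨s, hs, by rw [abs_lt]; constructor <;> linarith⟩
  · rcases le_total z r with h4 | h4
    · exact ⟨z, hI.out hs hr ⟨h3, h4⟩, by simp⟩
    · exact ⟨r, hr, by rw [abs_lt]; constructor <;> linarith⟩

private theorem partR_th_ball {I : Set ℝ} {x : ℝ} (hx : x ∈ I) :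
    Metric.ball (x : ℂ) 1 ⊆ strip (partR_th I) := by
  intro ρ hρ
  rw [Metric.mem_ball, dist_eq_norm] at hρ
  refine ⟨x, hx, ?_⟩
  have h1 : |(ρ - x).re| ≤ ‖ρ - x‖ := Complex.abs_re_le_norm _
  simp only [Complex.sub_re, Complex.ofReal_re] at h1
  linarith

private theorem partR_sub {I : Set ℝ} : I ⊆ partR_th I := fun x hx => ⟨x, hx, by simp⟩

/-- the bounds, for given branches on the thickened strip -/
private theorem partR_bd {n : ℕ} (hn : 1 ≤ n) {A : ℂ[X][Y]} (hN : A.natDegree ≤ 2 * n)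
    (I : Set ℝ) (hI : IsOpen I) (hIc : I.OrdConnected) {t : ℝ} (ht : 0 < t) (ht1 : t ≤ 1 / 20)
    {b : Fin A.natDegree → ℂ → ℂ} (hb : Branches A (partR_th I) b)
    (hb0 : ∀ j, ∀ ρ ∈ strip (partR_th I), b j ρ ≠ 0)
    (hl0 : ∀ ρ ∈ strip (partR_th I), A.leadingCoeff.eval (Complex.exp ρ) ≠ 0)
    (hS : SupBd A (partR_th I) b (Real.exp (rL n)))
    {k : ℕ} {δ : ℝ} (hD : DomAt A (partR_th I) k δ)
    (hδ : δ ≤ (rEps n t / 5) ^ (2 * n + 1)) {τ : ℝ → ℝ}
    (hτ : ∀ θ : ℝ, τ θ < 1 → ∀ c ∈ (homc A k).roots.toFinset,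
      rK1 n t ≤ ‖Complex.exp (θ * Complex.I) - c‖)
    (hu : ∀ j, ∀ s ∈ I, ‖b j s‖ ≠ 1) :
    RootBd I A.natDegree b (fun ρ => A.leadingCoeff.eval (Complex.exp ρ)) τ (rLam n)
      (kapV (2 * n + 2) (rLam n) (rK1 n t / 2) t) (rK1 n t / 2) := by
  obtain ⟨p1, p2, p3, p4, p5, p6, p7, p8, p9⟩ := rparam_small hn ht ht1
  set L : ℝ := Real.exp (rL n) with hL
  have hLam : rLam n = 60 * L ^ 2 := by
    rw [rLam, hL, ← Real.exp_nat_mul]
    norm_num
  have hL1 : 1 ≤ L := by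
    rw [hL]
    exact Real.one_le_exp (partR_ttC_nonneg _ _)
  have hv : kapV (2 * n + 2) (rLam n) (rK1 n t / 2) t = rV n t := rfl
  rw [hv]
  set ε := rEps n t with hε
  set κ := rK1 n t with hκ
  have hn' : (1 : ℝ) ≤ n := by exact_mod_cast hn
  have hε1 : ε ≤ 1 := by linarith
  have hpow : 0 < (ε / 5) ^ (2 * n) := by positivity
  have hδ1 : δ < (ε / 5) ^ (2 * n) := by
    refine lt_of_le_of_lt hδ ?_
    rw [pow_succ]
    have : ε / 5 < 1 := by linarith
    nlinarith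
  have hhN : (homc A k).natDegree ≤ 2 * n := partR_natDegree_homc hN k
  have hball : ∀ s ∈ I, Metric.ball (s : ℂ) 1 ⊆ strip (partR_th I) := fun s hs =>
    partR_th_ball hs
  have hself : ∀ s ∈ I, (s : ℂ) ∈ strip (partR_th I) := fun s hs => partR_sub hs
  have hbd : ∀ j, ∀ s ∈ I, DifferentiableOn ℂ (b j) (Metric.ball (s : ℂ) 1) := fun j s hs =>
    (hb.hol j).mono (hball s hs)
  have hone : ∀ j, ∀ s ∈ I, ∀ ρ ∈ Metric.ball (s : ℂ) 1, ‖b j ρ‖ ≤ L * ‖b j s‖ :=
    fun j s hs ρ hρ => hS.one s (partR_sub hs) (hball s hs) ρ hρ j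
  have hroot : ∀ j, ∀ ρ ∈ strip (partR_th I), A.evalEval (Complex.exp ρ) (b j ρ) = 0 := by
    intro j ρ hρ
    rw [partR_evalEval hb hρ]
    rw [Finset.prod_eq_zero (Finset.mem_univ j) (sub_self _), mul_zero]
  have hL2 : 1 ≤ L ^ 2 := one_le_pow₀ hL1
  have hLL : L ≤ L ^ 2 := by nlinarith
  have hosc : ∀ j, ∀ s ∈ I, near (b j s) → ‖vel (b j) s‖ ≤ rV n t ∧
      ‖deriv (vel (b j)) s‖ ≤ rV n t := by
    intro j s hs hnr
    have h1 := root_osc (N := 2 * n) (partR_th_conn hIc) hD hhN p5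
      (by push_cast; linarith) hε1 hδ1 (hb.hol j).continuousOn (hroot j) (hself s hs) hnr.2
    have h2 : 42 * (2 * n) * ε ≤ 1 := by linarith
    have h3 : 2 * ((2 * n : ℕ) : ℝ) * ε ≤ 1 := by
      push_cast
      nlinarith
    obtain ⟨h4, h5⟩ := vel_osc (hbd j s hs) hnr.1 h3 fun ρ hρ => h1 ρ (hball s hs hρ)
    push_cast at h4 h5
    have h6 : 0 < (n : ℝ) * ε := by positivity
    constructor <;> nlinarith
  refine ⟨?_, ?_, ?_, ?_, ?_, ?_, ?_, ?_, ?_, ?_, hu, ?_, ?_⟩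
  · intro j s hs
    have := (vel_bounds (hbd j s hs) (hb0 j _ (hself s hs)) hL1 (hone j s hs)).1
    rw [hLam]
    nlinarith
  · intro j s hs
    have := (vel_bounds (hbd j s hs) (hb0 j _ (hself s hs)) hL1 (hone j s hs)).2
    rw [hLam]
    nlinarith
  · exact fun j s hs hnr => (hosc j s hs hnr).1
  · exact fun j s hs hnr => (hosc j s hs hnr).2
  · intro j s hs hnr
    have := (vel_refl (hbd j s hs) (fun ρ hρ => hb0 j ρ (hball s hs hρ)) hnr hL1 (hone j s hs)
      (fun ρ hρ => hS.inv s (partR_sub hs) (hball s hs) ρ hρ j)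
      (fun ρ hρ => hS.refl s (partR_sub hs) (hball s hs) ρ hρ j)).1
    refine this.trans ?_
    rw [hLam]
    apply mul_le_mul_of_nonneg_right _ (abs_nonneg _)
    nlinarith
  · intro j s hs hnr
    have := (vel_refl (hbd j s hs) (fun ρ hρ => hb0 j ρ (hball s hs hρ)) hnr hL1 (hone j s hs)
      (fun ρ hρ => hS.inv s (partR_sub hs) (hball s hs) ρ hρ j)
      (fun ρ hρ => hS.refl s (partR_sub hs) (hball s hs) ρ hρ j)).2
    refine this.trans ?_
    rw [hLam]
  · intro i j s hs hi hj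
    have := (vel_diff (hbd i s hs) (hbd j s hs) hi.1 hj.1 hL1 (hone i s hs) (hone j s hs)
      (fun ρ hρ => hS.two s (partR_sub hs) (hball s hs) ρ hρ i j)).1
    refine this.trans ?_
    rw [hLam]
    apply mul_le_mul_of_nonneg_right _ (norm_nonneg _)
    nlinarith
  · intro i j s hs hi hj
    have := (vel_diff (hbd i s hs) (hbd j s hs) hi.1 hj.1 hL1 (hone i s hs) (hone j s hs)
      (fun ρ hρ => hS.two s (partR_sub hs) (hball s hs) ρ hρ i j)).2
    refine this.trans ?_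
    rw [hLam]
    apply mul_le_mul_of_nonneg_right _ (norm_nonneg _)
    nlinarith
  · intro s hs
    have := (logd_bounds (c := fun ρ => A.leadingCoeff.eval (Complex.exp ρ)) (x := (s : ℂ))
      (A.leadingCoeff.differentiable.comp Complex.differentiable_exp).differentiableOn
      (hl0 _ (hself s hs)) hL1
      (fun ρ hρ => hS.lead s (partR_sub hs) (hball s hs) ρ hρ)).1
    refine this.trans ?_
    rw [hLam]
    nlinarith
  · intro s hs
    have := (logd_bounds (c := fun ρ => A.leadingCoeff.eval (Complex.exp ρ)) (x := (s : ℂ))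
      (A.leadingCoeff.differentiable.comp Complex.differentiable_exp).differentiableOn
      (hl0 _ (hself s hs)) hL1
      (fun ρ hρ => hS.lead s (partR_sub hs) (hball s hs) ρ hρ)).2
    refine this.trans ?_
    rw [hLam]
    nlinarith
  · intro θ hθ s hs j
    have he : ‖Complex.exp (θ * Complex.I)‖ = 1 := Complex.norm_exp_ofReal_mul_I θ
    rcases le_total ‖b j s‖ 2 with h2 | h2
    · obtain ⟨c, hc, hcε⟩ := near_zero (N := 2 * n) hD hhN p5 hε1 hδ1 (hself s hs) h2
        (hroot j _ (hself s hs))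
      have h3 := hτ θ hθ c (by simpa using hc)
      have h4 : ‖Complex.exp (θ * Complex.I) - c‖ ≤
          ‖Complex.exp (θ * Complex.I) - b j s‖ + ‖b j s - c‖ := norm_sub_le_norm_sub_add_norm_sub _ _ _
      linarith
    · have h3 : ‖b j s‖ - ‖Complex.exp (θ * Complex.I)‖ ≤ ‖b j s - Complex.exp (θ * Complex.I)‖ :=
        norm_sub_norm_le _ _
      rw [norm_sub_rev] at h3
      linarith
  · intro θ hθ s hs
    have hεκ : (ε / 5) ^ (2 * n) ≤ (κ / 5) ^ (2 * n) :=
      pow_le_pow_left₀ (by positivity) (by linarith) _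
    have hκp : 0 < (κ / 5) ^ (2 * n) := by positivity
    have hδ2 : δ ≤ ε / 5 * (κ / 5) ^ (2 * n) := by
      refine hδ.trans ?_
      rw [pow_succ, mul_comm]
      exact mul_le_mul_of_nonneg_left hεκ (by positivity)
    have := good_rho_of (N := 2 * n) (partR_th_open I) hD hhN p1 p2
      (by nlinarith) (fun c hc => hτ θ hθ c (by simpa using hc)) (partR_th_ball hs) hb
    refine this.trans ?_
    rw [div_le_iff₀ hκp]
    have h6 : 4 * (ε / 5) ≤ rV n t := by
      have : 0 < ε := p5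
      nlinarith
    nlinarith

theorem partR : PartR := by
  obtain ⟨K₁, hK₁⟩ := rLam_le
  obtain ⟨K₂, hK₂⟩ := rB_le
  refine ⟨|K₁| + |K₂| + 10 ^ 5, 7, ?_⟩
  intro n hn P Q hP hQ hPQ _
  have hn' : (1 : ℝ) ≤ n := by exact_mod_cast hn
  classical
  obtain ⟨Z, hZc, hZ⟩ := exists_finset_zeros P Q hPQ hP hQ
  have hW0 := wpoly_ne_zero hP hQ hPQ
  obtain ⟨m₀, A, hWA, hA0, hAN, hAe⟩ := exists_trail hW0 (wpoly_natDegree hP hQ)
    (wpoly_ideg hP hQ)
  have hA : A ≠ 0 := by
    rintro rfl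
    exact hA0 (by simp)
  have hAN' : A.natDegree ≤ 2 * n := by omega
  obtain ⟨U₁, hU₁, hcore⟩ := roots_core hA0 (N := 2 * n) (e := n + 1) (by omega) (by omega) hAN' hAe
  set U₂ : Finset ℝ := Z.image fun z => Real.log (nm z) with hU₂
  have hU₂c : U₂.card ≤ n ^ 2 := Finset.card_image_le.trans hZc
  refine ⟨U₁ ∪ cenDom A ∪ U₂, rB n + 3, rLam n, ?_, ?_, ?_, rLam_ge, ?_, ?_⟩
  · have h1 : (U₁ ∪ cenDom A ∪ U₂).card ≤ 20 * (2 * n + (n + 1)) ^ 4 + (n + 1 + 1) ^ 2 + n ^ 2 := by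
      refine (Finset.card_union_le _ _).trans ?_
      refine add_le_add ((Finset.card_union_le _ _).trans ?_) hU₂c
      exact add_le_add hU₁ (cenDom_card hAe)
    have h2 : ((U₁ ∪ cenDom A ∪ U₂).card : ℝ) ≤
        20 * (2 * n + (n + 1)) ^ 4 + (n + 1 + 1) ^ 2 + n ^ 2 := by exact_mod_cast h1
    refine h2.trans ?_
    have h3 : (20 : ℝ) * (2 * n + (n + 1)) ^ 4 ≤ 20 * (4 * n) ^ 4 := by
      gcongr
      linarith
    have h4 : ((n : ℝ) + 1 + 1) ^ 2 ≤ (3 * n) ^ 2 := by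
      gcongr
      linarith
    have h5 : (n : ℝ) ^ 4 ≤ n ^ 7 := pow_le_pow_right₀ hn' (by norm_num)
    have h6 : (n : ℝ) ^ 2 ≤ n ^ 7 := pow_le_pow_right₀ hn' (by norm_num)
    have h7 : 0 ≤ (|K₁| + |K₂|) * (n : ℝ) ^ 7 := by positivity
    nlinarith
  · linarith [(hK₂ n hn).1]
  · have h1 := (hK₂ n hn).2
    have h7 : 0 < (n : ℝ) ^ 7 := by positivity
    have h8 : (1 : ℝ) ≤ n ^ 7 := one_le_pow₀ hn'
    have h2 : K₂ * (n : ℝ) ^ 7 ≤ |K₂| * n ^ 7 := mul_le_mul_of_nonneg_right (le_abs_self _) h7.le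
    have h3 : 0 ≤ |K₁| * (n : ℝ) ^ 7 := by positivity
    nlinarith
  · have h1 := hK₁ n hn
    have h7 : 0 < (n : ℝ) ^ 7 := by positivity
    have h5 : (n : ℝ) ^ 6 ≤ n ^ 7 := pow_le_pow_right₀ hn' (by norm_num)
    have h2 : K₁ * (n : ℝ) ^ 6 ≤ |K₁| * n ^ 6 :=
      mul_le_mul_of_nonneg_right (le_abs_self _) (by positivity)
    have h3 : |K₁| * (n : ℝ) ^ 6 ≤ |K₁| * n ^ 7 := mul_le_mul_of_nonneg_left h5 (abs_nonneg _)
    have h4 : 0 ≤ |K₂| * (n : ℝ) ^ 7 := by positivity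
    nlinarith
  · intro t ht ht1 I hI hIc hIne hdist
    have hlog : 0 ≤ Real.log (1 / t) := Real.log_nonneg (by
      rw [le_div_iff₀ ht]
      linarith)
    have hB := (hK₂ n hn).1
    set D : ℝ := (rB n + 3) * (1 + Real.log (1 / t)) - 2 with hD
    have hD0 : 2 ≤ D := by
      rw [hD]
      nlinarith
    have hD1 : rB n * (1 + Real.log (1 / t)) - 2 ≤ D := by
      rw [hD]
      nlinarith
    have hth : ∀ x ∈ partR_th I, ∀ u ∈ U₁ ∪ cenDom A ∪ U₂, D ≤ |x - u| := by
      rintro x ⟨s, hs, hxs⟩ u hu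
      have h1 := hdist s hs u hu
      have h2 : |s - u| ≤ |s - x| + |x - u| := abs_sub_le _ _ _
      rw [abs_sub_comm s x] at h2
      linarith
    obtain ⟨s₀, hs₀⟩ := hIne
    have hthne : (partR_th I).Nonempty := ⟨s₀, partR_sub hs₀⟩
    obtain ⟨b, hb, hb0, hl0, hS⟩ := hcore (partR_th I) (partR_th_open I) (partR_th_conn hIc)
      hthne (fun x hx u hu => hD0.trans (hth x hx u (by simp [hu])))
    obtain ⟨k, hk, hDom⟩ := exists_domAt hA hAN' hAe (partR_th_conn hIc) hthne (by linarith)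
      (fun x hx u hu => hth x hx u (by simp [hu]))
    have hTc : (homc A k).roots.toFinset.card ≤ 2 * n :=
      (Multiset.toFinset_card_le _).trans
        ((Polynomial.card_roots' _).trans (partR_natDegree_homc hAN' k))
    obtain ⟨p1, p2, p3, p4, p5, p6, p7, p8, p9⟩ := rparam_small hn ht ht1
    obtain ⟨τ, hτ, hτ1⟩ := exists_cut _ hTc p1
    have hfac : ∀ p : ℝ × ℝ, p.1 ∈ I → ((cf (vf P Q) p).1 : ℂ) + (cf (vf P Q) p).2 * Complex.I =
        A.leadingCoeff.eval (Complex.exp p.1) *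
          Complex.exp (((m₀ : ℤ) - ((n : ℤ) + 1) : ℤ) * (p.2 * Complex.I)) *
            ∏ j, (Complex.exp (p.2 * Complex.I) - b j p.1) := by
      intro p hp
      have h1 := wpoly_cf hP hQ p
      rw [hWA, evalEval_mul, evalEval_pow, evalEval_X,
        partR_evalEval hb (show (p.1 : ℂ) ∈ strip (partR_th I) from partR_sub hp)] at h1
      have h2 : Complex.exp (((m₀ : ℤ) - ((n : ℤ) + 1) : ℤ) * (p.2 * Complex.I)) =
          Complex.exp (p.2 * Complex.I) ^ m₀ *
            (Complex.exp (((n : ℂ) + 1) * (p.2 * Complex.I)))⁻¹ := by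
        rw [← Complex.exp_nat_mul, ← Complex.exp_neg, ← Complex.exp_add]
        congr 1
        push_cast
        ring
      have h3 : Complex.exp (((n : ℂ) + 1) * (p.2 * Complex.I)) ≠ 0 := Complex.exp_ne_zero _
      have h4 := inv_mul_cancel_left₀ h3 (((cf (vf P Q) p).1 : ℂ) + (cf (vf P Q) p).2 * Complex.I)
      rw [h2, ← h4, ← h1]
      ring
    have hu : ∀ j, ∀ s ∈ I, ‖b j s‖ ≠ 1 := by
      intro j s hs hb1
      have h1 : b j s = Complex.exp ((Complex.arg (b j s) : ℝ) * Complex.I) := by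
        have := Complex.norm_mul_exp_arg_mul_I (b j s)
        rw [hb1, Complex.ofReal_one, one_mul] at this
        exact this.symm
      have h2 := hfac (s, Complex.arg (b j s)) hs
      rw [Finset.prod_eq_zero (Finset.mem_univ j) (by
        simp only
        rw [← h1, sub_self]), mul_zero] at h2
      have h3 : cf (vf P Q) (s, Complex.arg (b j s)) = 0 := by
        have h4 := congrArg Complex.re h2
        have h5 := congrArg Complex.im h2
        simp only [Complex.add_re, Complex.ofReal_re, Complex.mul_re, Complex.I_re, mul_zero,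
          Complex.ofReal_im, Complex.I_im, mul_one, sub_self, add_zero, Complex.zero_re,
          Complex.add_im, Complex.mul_im, zero_add, Complex.zero_im] at h4 h5
        exact Prod.ext h4 h5
      have h4 : vf P Q (cyl (s, Complex.arg (b j s))) = 0 := wf_eq_zero (cyl_ne_zero _) h3
      have h5 : s ∈ U₂ := by
        rw [hU₂, Finset.mem_image]
        refine ⟨_, (hZ _).1 h4, ?_⟩
        rw [nm_cyl, Real.log_exp]
      have h6 := hdist s hs s (by simp [h5])
      rw [sub_self, abs_zero] at h6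
      have : 0 < (rB n + 3) * (1 + Real.log (1 / t)) := by positivity
      linarith
    refine ⟨A.natDegree, b, fun ρ => A.leadingCoeff.eval (Complex.exp ρ),
      (m₀ : ℤ) - ((n : ℤ) + 1), τ, rK1 n t / 2, by omega, ?_, ?_, ?_, by linarith, by linarith, ?_⟩
    · rw [abs_le]
      constructor <;> omega
    · refine ⟨?_, ?_, ?_, ?_, hfac⟩
      · intro j
        exact (hb.hol j).mono fun ρ hρ => partR_sub hρ
      · exact (A.leadingCoeff.differentiable.comp Complex.differentiable_exp).differentiableOn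
      · exact fun j ρ hρ => hb0 j ρ (partR_sub hρ)
      · exact fun ρ hρ => hl0 ρ (partR_sub hρ)
    · refine ⟨hτ.cont, hτ.periodic, hτ.nonneg, hτ.le_one, hτ.int.trans ?_⟩
      push_cast
      exact p9
    · exact partR_bd hn hAN' I hI hIc ht ht1 hb hb0 hl0 hS hDom
        (rparam_main hn ht ht1 hD1) hτ1 hu

end Pool.Agent.Lib.MP_95e7ec_an
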