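import Mathlib
import Pool.Agent.Lib.MP_95e7ec_an.Ry.SGlue
import Pool.Agent.Lib.MP_95e7ec_an.Ry.SGen
import Pool.Agent.Lib.MP_95e7ec_an.Ry.SNear
import Pool.Agent.Lib.MP_95e7ec_an.Ry.SCount
import Pool.Agent.Lib.MP_95e7ec_an.Rw.CentreW

/-!
# Ry, SCentre: the closed orbits around one zero of the field
-/

set_option autoImplicit false

open Set Filter Topology MeasureTheory
open scoped ContDiff ENNReal

namespace Pool.Agent.Lib.MP_95e7ec_an

/-- the first window: the orbits near the origin -/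
private theorem SCentre_near {n : ℕ} (hn : 1 ≤ n) (μ : Pr n) (R : Finset ℝ) (hR : ∀ r ∈ R, 0 < r) :
    AEMeasurable (fun a => ∑' r : R, setSum (nearInd 0 r.1 (3 * r.1)) (vfc μ) Set.univ a)
      (volume.restrict (Set.Ioo 0 Real.pi)) ∧
    ∫⁻ a in Set.Ioo 0 Real.pi, ∑' r : R, setSum (nearInd 0 r.1 (3 * r.1)) (vfc μ) Set.univ a ≤
      ENNReal.ofReal (R.card * (2100 * n)) := by
  have hmn : ∀ r : R, AEMeasurable (setSum (nearInd 0 r.1 (3 * r.1)) (vfc μ) Set.univ)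
      (volume.restrict (Set.Ioo 0 Real.pi)) := fun r => aemeasurable_near μ 0 r.1 (3 * r.1)
  have hn1 : (1 : ℝ) ≤ n := by exact_mod_cast hn
  refine ⟨AEMeasurable.tsum hmn, ?_⟩
  rw [lintegral_tsum hmn]
  have h2 : ∀ r : R, ∫⁻ a in Set.Ioo 0 Real.pi,
      setSum (nearInd 0 r.1 (3 * r.1)) (vfc μ) Set.univ a ≤ ENNReal.ofReal (2100 * n) := by
    intro r
    have hr0 := hR r.1 r.2
    refine (near_avg hn μ 0 (L := r.1) (R := 3 * r.1) hr0 (by linarith)).trans ?_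
    apply ENNReal.ofReal_le_ofReal
    rw [div_le_iff₀ hr0]
    nlinarith
  refine (ENNReal.tsum_le_tsum h2).trans ?_
  rw [tsum_fintype, Finset.sum_const, Finset.card_univ, Fintype.card_coe, nsmul_eq_mul,
    ← ENNReal.ofReal_natCast, ← ENNReal.ofReal_mul (by positivity)]

theorem centre_mean (hL : PartL) (hZ : PartZ) (hR : PartR) (hV : PartV) :
    ∃ (K : ℝ) (k : ℕ), 1 ≤ K ∧ ∀ n : ℕ, 1 ≤ n → ∀ P Q : MvPolynomial (Fin 2) ℝ,
      P.totalDegree ≤ n → Q.totalDegree ≤ n → IsRelPrime P Q → ∀ q : ℝ × ℝ, vf P Q q = 0 →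
        ∃ H : ℝ → ℝ≥0∞, AEMeasurable H (volume.restrict (Set.Ioo 0 Real.pi)) ∧
          ∫⁻ a in Set.Ioo 0 Real.pi, H a ≤ ENNReal.ofReal (K * n ^ k) ∧
          ∀ a ∈ Set.Ioo 0 Real.pi, hullN (vf P Q) q a ≤ H a := by
  classical
  obtain ⟨K₁, hL⟩ := hL
  obtain ⟨K₂, k₂, hK₂, hG⟩ := good_zones hZ hR hV
  refine ⟨10000 * K₂ ^ 3 * (|K₁| + 1), 3 * k₂ + 1, ?_, ?_⟩
  · have h1 : (1 : ℝ) ≤ K₂ ^ 3 := one_le_pow₀ hK₂
    have h2 := abs_nonneg K₁
    nlinarith
  intro n hn P Q hP hQ hPQ q hq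
  have hn1 : (1 : ℝ) ≤ n := by exact_mod_cast hn
  have hP' := (totalDegree_shiftP q P).trans hP
  have hQ' := (totalDegree_shiftP q Q).trans hQ
  have h0 : vf (shiftP q P) (shiftP q Q) 0 = 0 := by rw [vf_shiftP, zero_add, hq]
  obtain ⟨U, A, hUn, hUc, hA1, hAK, hg1, hg2⟩ := hG n hn _ _ hP' hQ' (isRelPrime_shiftP q hPQ) h0
  set μ : Pr n := (arr n (shiftP q P), arr n (shiftP q Q)) with hμ
  have hvf : vf (shiftP q P) (shiftP q Q) = vfc μ := vf_eq_vfc hP' hQ'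
  rw [hvf] at hg1 hg2 h0
  have hA0 : 0 < A := by linarith
  -- the near part
  set R : Finset ℝ := (U ×ˢ Finset.range (⌊2 * A⌋₊ + 1)).image
    fun p => Real.exp (p.1 - A + p.2) with hRdef
  have hRpos : ∀ r ∈ R, 0 < r := by
    intro r hr
    obtain ⟨p, _, rfl⟩ := Finset.mem_image.1 hr
    exact Real.exp_pos _
  have hRc : (R.card : ℝ) ≤ U.card * (2 * A + 1) := by
    have h2 := Finset.card_image_le (s := U ×ˢ Finset.range (⌊2 * A⌋₊ + 1))
      (f := fun p : ℝ × ℕ => Real.exp (p.1 - A + p.2))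
    rw [Finset.card_product, Finset.card_range] at h2
    have h3 : (R.card : ℝ) ≤ U.card * ((⌊2 * A⌋₊ : ℝ) + 1) := by exact_mod_cast h2
    have h4 : (⌊2 * A⌋₊ : ℝ) ≤ 2 * A := Nat.floor_le (by linarith)
    refine h3.trans (mul_le_mul_of_nonneg_left (by linarith) (by positivity))
  obtain ⟨hm1, hi1⟩ := SCentre_near hn μ R hRpos
  -- the zones
  set D : ℕ → ℝ := fun i => A * ((i : ℝ) + 1) with hD
  have hD0 : ∀ i, 0 ≤ D i := fun i => by
    rw [hD]
    positivity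
  let κ := Fin (U.card + 1) × (U × Bool)
  let lo : ℕ × κ → ℝ := fun x => if x.2.2.2 then x.2.2.1.1 + A * ((x.1 : ℝ) + 1) else
    x.2.2.1.1 - A * ((x.1 : ℝ) + 2)
  let hi : ℕ × κ → ℝ := fun x => if x.2.2.2 then x.2.2.1.1 + A * ((x.1 : ℝ) + 2) else
    x.2.2.1.1 - A * ((x.1 : ℝ) + 1)
  have hlohi : ∀ x, hi x - lo x = A := by
    intro x
    simp only [lo, hi]
    split_ifs <;> ring
  have hLx : ∀ x : ℕ × κ,
      AEMeasurable (setSum (extInd (lo x) (hi x)) (vfc μ) (ann (zoneI U (D x.1) x.2.1)))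
        (volume.restrict (Set.Ioo 0 Real.pi)) ∧
      ∫⁻ a in Set.Ioo 0 Real.pi,
        setSum (extInd (lo x) (hi x)) (vfc μ) (ann (zoneI U (D x.1) x.2.1)) a ≤
        ENNReal.ofReal (|K₁| * n * (A + 2) / 10 * (1 / 2) ^ x.1) := by
    intro x
    have ho := zoneI_open U (hD0 x.1) x.2.1
    have hc := zoneI_ord U (hD0 x.1) x.2.1
    have hsep : ∀ s ∈ zoneI U (D x.1) x.2.1, ∀ u ∈ U, A * ((x.1 : ℝ) + 1) < |s - u| :=
      fun s hs u hu => hs.1 u hu
    obtain ⟨g1, g2⟩ := hg1 x.1 _ ho hc hsep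
    obtain ⟨-, g3⟩ := hg2 x.1 _ ho hc hsep
    obtain ⟨h5, h6⟩ := hL n hn μ h0 _ ho hc g1 (lo x) (hi x) ((1 / 2) ^ x.1 / 10)
      (by linarith [hlohi x]) (by positivity) g2 g3
    refine ⟨h5, h6.trans (ENNReal.ofReal_le_ofReal ?_)⟩
    rw [hlohi x]
    have h7 : K₁ * n * ((1 / 2) ^ x.1 / 10) * (A + 2) =
        K₁ * (n * (A + 2) / 10 * (1 / 2) ^ x.1) := by ring
    have h8 : |K₁| * n * (A + 2) / 10 * (1 / 2) ^ x.1 =
        |K₁| * (n * (A + 2) / 10 * (1 / 2) ^ x.1) := by ring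
    rw [h7, h8]
    exact mul_le_mul_of_nonneg_right (le_abs_self K₁) (by positivity)
  have hm2 : AEMeasurable (fun a => ∑' x : ℕ × κ,
      setSum (extInd (lo x) (hi x)) (vfc μ) (ann (zoneI U (D x.1) x.2.1)) a)
        (volume.restrict (Set.Ioo 0 Real.pi)) := AEMeasurable.tsum fun x => (hLx x).1
  have hi2 : ∫⁻ a in Set.Ioo 0 Real.pi, ∑' x : ℕ × κ,
      setSum (extInd (lo x) (hi x)) (vfc μ) (ann (zoneI U (D x.1) x.2.1)) a ≤
      ENNReal.ofReal (2 * (|K₁| * n * (A + 2) / 10) * ((U.card + 1) * (U.card * 2))) := by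
    rw [lintegral_tsum fun x => (hLx x).1]
    refine (ENNReal.tsum_le_tsum fun x => (hLx x).2).trans ?_
    rw [tsum_geom_le (κ := κ) (by positivity)]
    apply le_of_eq
    congr 2
    simp only [κ, Fintype.card_prod, Fintype.card_fin, Fintype.card_coe, Fintype.card_bool]
    push_cast
    ring
  refine ⟨fun a => ∑' r : R, setSum (nearInd 0 r.1 (3 * r.1)) (vfc μ) Set.univ a +
    ∑' x : ℕ × κ, setSum (extInd (lo x) (hi x)) (vfc μ) (ann (zoneI U (D x.1) x.2.1)) a,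
    hm1.add hm2, ?_, ?_⟩
  · rw [lintegral_add_left' hm1]
    refine (add_le_add hi1 hi2).trans ?_
    rw [← ENNReal.ofReal_add (by positivity) (by positivity)]
    apply ENNReal.ofReal_le_ofReal
    set c : ℝ := (U.card : ℝ) with hc
    have hc1 : 1 ≤ c := by
      rw [hc]
      exact_mod_cast hUn.card_pos
    set B : ℝ := K₂ * n ^ k₂ with hB
    have hAB : A ≤ B := hAK
    have hcB : c ≤ B := hUc
    have hB1 : 1 ≤ B := by linarith
    have hK1 := abs_nonneg K₁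
    have e1 : (R.card : ℝ) * (2100 * n) ≤ (B * (3 * B)) * (2100 * n) := by
      apply mul_le_mul_of_nonneg_right _ (by positivity)
      refine hRc.trans ?_
      apply mul_le_mul hcB (by linarith) (by linarith) (by linarith)
    have e2 : 2 * (|K₁| * n * (A + 2) / 10) * ((c + 1) * (c * 2)) ≤
        2 * (|K₁| * n * (3 * B) / 10) * ((2 * B) * (B * 2)) := by
      apply mul_le_mul _ _ (by positivity) (by positivity)
      · have : |K₁| * n * (A + 2) ≤ |K₁| * n * (3 * B) :=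
          mul_le_mul_of_nonneg_left (by linarith) (by positivity)
        linarith
      · apply mul_le_mul (by linarith) (by linarith) (by linarith) (by linarith)
    have e3 : (10000 * K₂ ^ 3 * (|K₁| + 1)) * (n : ℝ) ^ (3 * k₂ + 1) =
        10000 * (|K₁| + 1) * (B ^ 3 * n) := by
      rw [hB]
      ring
    rw [e3]
    have hB3 : B ^ 2 ≤ B ^ 3 := pow_le_pow_right₀ hB1 (by norm_num)
    have e4 : (B * (3 * B)) * (2100 * n) ≤ 6300 * (B ^ 3 * n) := by
      have : (B * (3 * B)) * (2100 * n) = 6300 * (B ^ 2 * n) := by ring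
      rw [this]
      have h9 : B ^ 2 * n ≤ B ^ 3 * n := mul_le_mul_of_nonneg_right hB3 (by linarith)
      linarith
    have e5 : 2 * (|K₁| * n * (3 * B) / 10) * ((2 * B) * (B * 2)) =
        2.4 * |K₁| * (B ^ 3 * n) := by ring
    have h10 : 0 ≤ B ^ 3 * n := by positivity
    nlinarith [mul_nonneg hK1 h10]
  · intro a ha
    refine (hullN_shift P Q q a).trans ?_
    rw [hvf]
    have hv : ContDiff ℝ 1 (turn a (vfc μ)) := contDiff_turn (vfc_contDiff μ) a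
    have hv0 : turn a (vfc μ) 0 = 0 := turn_eq_zero.2 h0
    set S : Set (Set (ℝ × ℝ)) := {C | IsClosedOrbit (turn a (vfc μ)) C ∧
      (0 : ℝ × ℝ) ∈ convexHull ℝ C} with hS
    set S₁ : Set (Set (ℝ × ℝ)) := {C | C ∈ S ∧ ∃ r : R, IsNear 0 r.1 (3 * r.1) C} with hS₁
    set S₂ : Set (Set (ℝ × ℝ)) := {C | C ∈ S ∧
      ∃ x : ℕ × κ, C ⊆ ann (zoneI U (D x.1) x.2.1) ∧ IsExt (lo x) (hi x) C} with hS₂
    have hsub : S ⊆ S₁ ∪ S₂ := by
      intro C hC
      obtain ⟨hC1, hC2⟩ := hC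
      have h0C : (0 : ℝ × ℝ) ∉ C := fun h => hC1.ne_zero_of_contDiff hv h hv0
      by_cases hwin : ∃ z ∈ C, ∃ u ∈ U, |Real.log (nm z) - u| ≤ A
      · left
        obtain ⟨z, hz, u, hu, hzu⟩ := hwin
        obtain ⟨i, hi', hnear⟩ := near_window hv hv0 hC1 hC2 hA0.le hz hzu
        refine ⟨⟨hC1, hC2⟩, ⟨Real.exp (u - A + i), ?_⟩, hnear⟩
        exact Finset.mem_image.2 ⟨(u, i), Finset.mem_product.2 ⟨hu, hi'⟩, rfl⟩
      · right
        push Not at hwin
        have hconn : IsPreconnected C := by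
          obtain ⟨γ, _, _, hγ, _, _, rfl⟩ := hC1
          exact isPreconnected_range
            (continuous_iff_continuousAt.2 fun t => (hγ t).continuousAt)
        obtain ⟨i, j, hj, u, hu, hsubC, hext⟩ := orbit_gen hC1.isCompact hC1.nonempty
          hconn h0C hUn hA0 hwin
        refine ⟨⟨hC1, hC2⟩, ?_⟩
        rcases hext with hext | hext
        · refine ⟨(i, (⟨j, by omega⟩, (⟨u, hu⟩, true))), hsubC, ?_⟩
          simpa [lo, hi] using hext
        · refine ⟨(i, (⟨j, by omega⟩, (⟨u, hu⟩, false))), hsubC, ?_⟩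
          simpa [lo, hi] using hext
    have e0 : hullN (vfc μ) 0 a ≤ ((S₁.encard : ℕ∞) : ℝ≥0∞) + ((S₂.encard : ℕ∞) : ℝ≥0∞) := by
      unfold hullN
      rw [← ENat.toENNReal_add]
      exact ENat.toENNReal_le.2 ((Set.encard_le_encard hsub).trans (Set.encard_union_le _ _))
    refine e0.trans (add_le_add ?_ ?_)
    · refine encard_le_tsum (vfc μ) a S₁ (fun r : R => nearInd 0 r.1 (3 * r.1))
        (fun _ => Set.univ) ?_
      rintro C ⟨hC, r, hr⟩
      refine ⟨hC.1, r, Set.subset_univ _, ?_⟩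
      rw [nearInd, if_pos hr]
    · refine encard_le_tsum (vfc μ) a S₂ (fun x : ℕ × κ => extInd (lo x) (hi x))
        (fun x => ann (zoneI U (D x.1) x.2.1)) ?_
      rintro C ⟨hC, x, hx1, hx2⟩
      refine ⟨hC.1, x, hx1, ?_⟩
      rw [extInd, if_pos hx2]

end Pool.Agent.Lib.MP_95e7ec_an
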