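import Mathlib
import Pool.Agent.Lib.MP_95e7ec_an.Ry.SFinal
import Pool.Agent.Lib.MP_95e7ec_an.Ry.SMeasN
import Pool.Agent.Lib.MP_95e7ec_an.Ry.PartL
import Pool.Agent.Lib.MP_95e7ec_an.Ry.PartZ
import Pool.Agent.Lib.MP_95e7ec_an.Ry.PartR
import Pool.Agent.Lib.MP_95e7ec_an.Ry.PartV

/-!
# Ry, Mean: the mean theorem
-/

set_option autoImplicit false

open Set Filter Topology MeasureTheory
open scoped ContDiff ENNReal

namespace Pool.Agent.Lib.MP_95e7ec_an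

/-- **The mean theorem.** -/
theorem mean_theorem : ∃ (K : ℝ) (k : ℕ), ∀ n : ℕ, 1 ≤ n → ∀ P Q : MvPolynomial (Fin 2) ℝ,
    P.totalDegree ≤ n → Q.totalDegree ≤ n →
      AEMeasurable (fun a => allN (turn a (vf P Q)))
        (volume.restrict (Set.Icc 0 (2 * Real.pi))) ∧
      ∫⁻ a in Set.Icc 0 (2 * Real.pi), allN (turn a (vf P Q)) ≤ ENNReal.ofReal (K * n ^ k) := by
  obtain ⟨K, k, h⟩ := mean_all partL partZ partR partV
  refine ⟨K, k, fun n hn P Q hP hQ => ⟨allN_aemeasurable P Q, ?_⟩⟩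
  obtain ⟨H, -, hH, hi⟩ := h n hn P Q hP hQ
  exact (lintegral_mono hH).trans hi

end Pool.Agent.Lib.MP_95e7ec_an
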