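import Mathlib
import Pool.Agent.Lib.MP_95e7ec_an.Ry.RandGauss

/-!
# Ry, MeanFull: the mean theorem and its two corollaries for random fields in one statement
-/

set_option autoImplicit false

open Set Filter Topology MeasureTheory ProbabilityTheory
open scoped ContDiff ENNReal

namespace Pool.Agent.Lib.MP_95e7ec_an

/-- The mean theorem (integral over the angles of the number of closed orbits of the turned
fields), the bound for the expected number of closed orbits of a random field with an arbitrary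
law invariant under the rotations of the field, and the special case of Gaussian fields. -/
theorem mean_full (hm : ∃ (K : ℝ) (k : ℕ), MeanAll K k) :
    ∃ (K : ℝ) (k : ℕ), ∀ n : ℕ, 1 ≤ n →
      (∀ P Q : MvPolynomial (Fin 2) ℝ, P.totalDegree ≤ n → Q.totalDegree ≤ n →
        Measurable (fun a : ℝ => allN (turn a (vf P Q))) ∧
        ∫⁻ a in Set.Icc 0 (2 * Real.pi), allN (turn a (vf P Q)) ≤ ENNReal.ofReal (K * n ^ k)) ∧
      (∀ ν : Measure (Pr n), IsProbabilityMeasure ν →
        (∀ a : ℝ, ν.map (fun μ => rotA μ a) = ν) →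
        ∫⁻ μ, allN (vfc μ) ∂ν ≤ ENNReal.ofReal (K * n ^ k)) ∧
      (∀ (m : ℕ) (f : Fin m → MvPolynomial (Fin 2) ℝ), (∀ p, (f p).totalDegree ≤ n) →
        ∫⁻ g, allN (combF f g) ∂gaussPairs (Fin m) ≤ ENNReal.ofReal (K * n ^ k)) := by
  obtain ⟨K, k, h⟩ := hm
  have hpi := Real.pi_gt_three
  have h2k : (1 : ℝ) ≤ 2 ^ k := one_le_pow₀ (by norm_num)
  set K₁ : ℝ := 2 ^ k * |K| with hK₁
  have hK₁0 : 0 ≤ K₁ := by positivity
  have hle1 : K ≤ K₁ := by
    calc K ≤ |K| := le_abs_self K
      _ = 1 * |K| := (one_mul _).symm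
      _ ≤ 2 ^ k * |K| := mul_le_mul_of_nonneg_right h2k (abs_nonneg K)
  have hdiv : ∀ t : ℝ, t ≤ K₁ → t / (2 * Real.pi) ≤ K₁ := by
    intro t ht
    rw [div_le_iff₀ (by positivity)]
    nlinarith
  have hle2 : 2 ^ k * K / (2 * Real.pi) ≤ K₁ :=
    hdiv _ (mul_le_mul_of_nonneg_left (le_abs_self K) (by positivity))
  have hle3 : K / (2 * Real.pi) ≤ K₁ := hdiv _ hle1
  refine ⟨K₁, k, fun n hn => ⟨?_, ?_, ?_⟩⟩
  · intro P Q hP hQ
    obtain ⟨h1, h2⟩ := mean_plain h hn hP hQ
    exact ⟨h1, h2.trans (ENNReal.ofReal_le_ofReal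
      (mul_le_mul_of_nonneg_right hle1 (by positivity)))⟩
  · intro ν hν hrot
    haveI := hν
    exact (random_mean h hn ν hrot).trans (ENNReal.ofReal_le_ofReal
      (mul_le_mul_of_nonneg_right hle2 (by positivity)))
  · intro m f hf
    exact (gauss_mean h hn f hf).trans (ENNReal.ofReal_le_ofReal
      (mul_le_mul_of_nonneg_right hle3 (by positivity)))

end Pool.Agent.Lib.MP_95e7ec_an
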